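import Pool.Agent.Lib.MP_f30fea_an.Base

/-!
# The curvature inequality for the metric `exp (lrho z) |dz|` on `ℂ ∖ {0, 1}`
-/

open Complex MeasureTheory Filter Topology Set
open scoped ContDiff ENNReal ComplexConjugate

noncomputable section

namespace Pool.Agent.QCD

/-- logarithm of the density of the metric -/
def lrho (z : ℂ) : ℝ := Real.log (1 + ‖z‖ ^ (1 / 3 : ℝ)) / 2 - 5 / 6 * Real.log ‖z‖ +
  (Real.log (1 + ‖z - 1‖ ^ (1 / 3 : ℝ)) / 2 - 5 / 6 * Real.log ‖z - 1‖)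

/-- the Laplacian of `log (1 + ‖z‖^{1/3}) / 2` -/
def lapl (t : ℝ) : ℝ := t ^ (-(5 / 3) : ℝ) / (18 * (1 + t ^ (1 / 3 : ℝ)) ^ 2)

private theorem curv_cube {t : ℝ} (ht : 0 ≤ t) : (t ^ (1 / 3 : ℝ)) ^ 3 = t := by
  rw [← Real.rpow_natCast, ← Real.rpow_mul ht]
  norm_num

private theorem curv_pow5 {t : ℝ} (ht : 0 < t) :
    t ^ (-(5 / 3) : ℝ) = ((t ^ (1 / 3 : ℝ)) ^ 5)⁻¹ := by
  rw [← Real.rpow_natCast, ← Real.rpow_mul ht.le, ← Real.rpow_neg ht.le]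
  congr 1
  norm_num

private theorem curv_exp {t : ℝ} (ht : 0 < t) :
    Real.exp (2 * (Real.log (1 + t ^ (1 / 3 : ℝ)) / 2 - 5 / 6 * Real.log t)) =
      (1 + t ^ (1 / 3 : ℝ)) * ((t ^ (1 / 3 : ℝ)) ^ 5)⁻¹ := by
  have h1 : 0 < 1 + t ^ (1 / 3 : ℝ) := by positivity
  rw [← curv_pow5 ht, Real.rpow_def_of_pos ht (-(5 / 3))]
  conv_rhs => rw [← Real.exp_log h1]
  rw [← Real.exp_add]
  congr 1
  ring

private theorem curv_alg (a b : ℝ) (ha : 0 < a) (hb : 0 < b) (hab : a ≤ b)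
    (h : 1 ≤ a ^ 3 + b ^ 3) :
    1 / 162 * ((1 + a) ^ 3 * (1 + b) ^ 3) ≤ b ^ 5 * (1 + b) ^ 2 + a ^ 5 * (1 + a) ^ 2 := by
  have hb2 : 1 / 2 ≤ b := by
    by_contra hc
    push Not at hc
    have h1 : a ^ 3 ≤ b ^ 3 := by gcongr
    have h2 : b ^ 3 ≤ (1 / 2) ^ 3 := by gcongr
    norm_num at h2
    linarith
  have h1 : 1 + b ≤ 3 * b := by linarith
  have h3 : (1 + b) ^ 4 ≤ 162 * b ^ 5 := by
    calc (1 + b) ^ 4 ≤ (3 * b) ^ 4 := by gcongr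
      _ = 81 * b ^ 4 * 1 := by ring
      _ ≤ 81 * b ^ 4 * (2 * b) := by gcongr; linarith
      _ = 162 * b ^ 5 := by ring
  have h4 : (1 + a) ^ 3 * (1 + b) ^ 3 ≤ (1 + b) ^ 4 * (1 + b) ^ 2 := by
    calc (1 + a) ^ 3 * (1 + b) ^ 3 ≤ (1 + b) ^ 3 * (1 + b) ^ 3 := by gcongr
      _ = _ := by ring
  have h5 : (1 + b) ^ 4 * (1 + b) ^ 2 ≤ 162 * b ^ 5 * (1 + b) ^ 2 := by gcongr
  have h6 : 0 ≤ a ^ 5 * (1 + a) ^ 2 := by positivity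
  linarith

private theorem curv_alg' (a b : ℝ) (ha : 0 < a) (hb : 0 < b)
    (h : 1 ≤ a ^ 3 + b ^ 3) :
    1 / 162 * ((1 + a) ^ 3 * (1 + b) ^ 3) ≤ b ^ 5 * (1 + b) ^ 2 + a ^ 5 * (1 + a) ^ 2 := by
  rcases le_total a b with hab | hab
  · exact curv_alg a b ha hb hab h
  · have := curv_alg b a hb ha hab (by linarith)
    linarith

theorem curvature : ∃ c > 0, ∀ z : ℂ, z ≠ 0 → z ≠ 1 →
    c * Real.exp (2 * lrho z) ≤ lapl ‖z‖ + lapl ‖z - 1‖ := by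
  refine ⟨1 / 2916, by norm_num, fun z h0 h1 => ?_⟩
  have hz : 0 < ‖z‖ := norm_pos_iff.2 h0
  have hz1 : 0 < ‖z - 1‖ := norm_pos_iff.2 (sub_ne_zero.2 h1)
  have hexp : Real.exp (2 * lrho z) = (1 + ‖z‖ ^ (1 / 3 : ℝ)) * ((‖z‖ ^ (1 / 3 : ℝ)) ^ 5)⁻¹ *
      ((1 + ‖z - 1‖ ^ (1 / 3 : ℝ)) * ((‖z - 1‖ ^ (1 / 3 : ℝ)) ^ 5)⁻¹) := by
    rw [← curv_exp hz, ← curv_exp hz1, ← Real.exp_add]
    congr 1
    unfold lrho
    ring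
  rw [hexp]
  unfold lapl
  rw [curv_pow5 hz, curv_pow5 hz1]
  have hs : 1 ≤ (‖z‖ ^ (1 / 3 : ℝ)) ^ 3 + (‖z - 1‖ ^ (1 / 3 : ℝ)) ^ 3 := by
    rw [curv_cube hz.le, curv_cube hz1.le]
    have h2 : ‖z - (z - 1)‖ ≤ ‖z‖ + ‖z - 1‖ := norm_sub_le _ _
    rwa [sub_sub_cancel, norm_one] at h2
  set a := ‖z‖ ^ (1 / 3 : ℝ) with ha
  set b := ‖z - 1‖ ^ (1 / 3 : ℝ) with hb
  have ha0 : 0 < a := Real.rpow_pos_of_pos hz _
  have hb0 : 0 < b := Real.rpow_pos_of_pos hz1 _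
  have hk := curv_alg' a b ha0 hb0 hs
  have e1 : 1 / 2916 * ((1 + a) * (a ^ 5)⁻¹ * ((1 + b) * (b ^ 5)⁻¹)) =
      (1 / 162 * ((1 + a) ^ 3 * (1 + b) ^ 3)) / (18 * a ^ 5 * b ^ 5 * (1 + a) ^ 2 * (1 + b) ^ 2) := by
    field_simp
    ring
  have e2 : (a ^ 5)⁻¹ / (18 * (1 + a) ^ 2) + (b ^ 5)⁻¹ / (18 * (1 + b) ^ 2) =
      (b ^ 5 * (1 + b) ^ 2 + a ^ 5 * (1 + a) ^ 2) /
        (18 * a ^ 5 * b ^ 5 * (1 + a) ^ 2 * (1 + b) ^ 2) := by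
    field_simp
  rw [e1, e2]
  gcongr

theorem lrho_lower {z : ℂ} (h0 : z ≠ 0) (h1 : z ≠ 1) (h : ‖z‖ ≤ 4) :
    1 / 20 ≤ Real.exp (lrho z) := by
  have hz : 0 < ‖z‖ := norm_pos_iff.2 h0
  have hz1 : 0 < ‖z - 1‖ := norm_pos_iff.2 (sub_ne_zero.2 h1)
  have h5 : ‖z - 1‖ ≤ 5 := by
    have := norm_sub_le z 1
    rw [norm_one] at this
    linarith
  have h20 : ‖z‖ * ‖z - 1‖ ≤ 20 := by nlinarith
  have hl : Real.log ‖z‖ + Real.log ‖z - 1‖ ≤ Real.log 20 := by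
    rw [← Real.log_mul hz.ne' hz1.ne']
    exact Real.log_le_log (by positivity) h20
  have hl20 : 0 ≤ Real.log 20 := Real.log_nonneg (by norm_num)
  have ha : 0 ≤ Real.log (1 + ‖z‖ ^ (1 / 3 : ℝ)) := Real.log_nonneg (by
    have : 0 ≤ ‖z‖ ^ (1 / 3 : ℝ) := by positivity
    linarith)
  have hb : 0 ≤ Real.log (1 + ‖z - 1‖ ^ (1 / 3 : ℝ)) := Real.log_nonneg (by
    have : 0 ≤ ‖z - 1‖ ^ (1 / 3 : ℝ) := by positivity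
    linarith)
  have h2 : -Real.log 20 ≤ lrho z := by
    unfold lrho
    linarith
  calc (1 : ℝ) / 20 = Real.exp (-Real.log 20) := by
        rw [Real.exp_neg, Real.exp_log (by norm_num), one_div]
    _ ≤ _ := Real.exp_le_exp.2 h2

end Pool.Agent.QCD
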