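import Pool.Agent.Lib.MP_f30fea_an.Base
import Pool.Agent.Lib.MP_f30fea_an.Curv

/-!
# The Ahlfors-Schwarz lemma for holomorphic maps of the disc into `ℂ ∖ {0, 1}`
-/

open Complex MeasureTheory Filter Topology Set
open scoped ContDiff ENNReal ComplexConjugate

noncomputable section

namespace Pool.Agent.QCD

/-- first and second derivative at `0` -/
private def AhD2 (φ : ℝ → ℝ) (a b : ℝ) : Prop :=
  ∃ φ₁ : ℝ → ℝ, (∀ᶠ t in 𝓝 (0 : ℝ), HasDerivAt φ (φ₁ t) t) ∧ φ₁ 0 = a ∧ HasDerivAt φ₁ b 0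

private theorem AhD2.add {φ ψ : ℝ → ℝ} {a b a' b' : ℝ} (h : AhD2 φ a b) (h' : AhD2 ψ a' b') :
    AhD2 (fun t => φ t + ψ t) (a + a') (b + b') := by
  obtain ⟨φ₁, h1, h2, h3⟩ := h
  obtain ⟨ψ₁, h1', h2', h3'⟩ := h'
  refine ⟨fun t => φ₁ t + ψ₁ t, ?_, by simp only [h2, h2'], h3.add h3'⟩
  filter_upwards [h1, h1'] with t ht ht'
  exact ht.add ht'

private theorem AhD2.const_mul {φ : ℝ → ℝ} {a b : ℝ} (c : ℝ) (h : AhD2 φ a b) :
    AhD2 (fun t => c * φ t) (c * a) (c * b) := by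
  obtain ⟨φ₁, h1, h2, h3⟩ := h
  refine ⟨fun t => c * φ₁ t, ?_, by simp only [h2], h3.const_mul c⟩
  filter_upwards [h1] with t ht
  exact ht.const_mul c

private theorem AhD2.comp {φ F F₁ : ℝ → ℝ} {a b F₂ : ℝ} (hF : ∀ v, HasDerivAt F (F₁ v) v)
    (hF₁ : HasDerivAt F₁ F₂ (φ 0)) (h : AhD2 φ a b) :
    AhD2 (fun t => F (φ t)) (F₁ (φ 0) * a) (F₂ * a ^ 2 + F₁ (φ 0) * b) := by
  obtain ⟨φ₁, h1, h2, h3⟩ := h
  refine ⟨fun t => F₁ (φ t) * φ₁ t, ?_, by simp only [h2], ?_⟩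
  · filter_upwards [h1] with t ht
    exact (hF (φ t)).comp t ht
  · have h4 := h1.self_of_nhds
    have h5 : HasDerivAt (fun t => F₁ (φ t)) (F₂ * φ₁ 0) 0 := hF₁.comp 0 h4
    have h6 := h5.mul h3
    refine h6.congr_deriv ?_
    rw [h2]
    ring

private theorem AhD2.nonpos {φ : ℝ → ℝ} {a b : ℝ} (h : AhD2 φ a b) (hm : IsLocalMax φ 0) :
    b ≤ 0 := by
  obtain ⟨φ₁, h1, h2, h3⟩ := h
  have h4 := h1.self_of_nhds
  have h5 : deriv φ =ᶠ[𝓝 0] φ₁ := by
    filter_upwards [h1] with t ht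
    exact ht.deriv
  have h6 : deriv (deriv φ) 0 = b := by
    rw [h5.deriv_eq]
    exact h3.deriv
  by_contra hb
  push Not at hb
  have h7 : IsLocalMin φ 0 := by
    refine isLocalMin_of_deriv_deriv_pos ?_ ?_ h4.continuousAt
    · rw [h6]; exact hb
    · exact hm.deriv_eq_zero
  have h8 : φ =ᶠ[𝓝 0] fun _ => φ 0 := by
    filter_upwards [hm, h7] with t ht ht'
    exact le_antisymm ht ht'
  have h9 : deriv φ =ᶠ[𝓝 0] fun _ => 0 := by
    have := h8.deriv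
    filter_upwards [this] with t ht
    rw [ht]
    simp
  have h10 : deriv (deriv φ) 0 = 0 := by
    rw [h9.deriv_eq]
    simp
  linarith

private theorem ah_log_norm {w : ℝ → ℂ} {w' : ℂ} {t : ℝ} (hw : HasDerivAt w w' t) (h0 : w t ≠ 0) :
    HasDerivAt (fun s => Real.log ‖w s‖) (w' / w t).re t := by
  have h1 : HasDerivAt (fun s => ‖w s‖ ^ 2) (2 * inner ℝ (w t) w') t := hw.norm_sq
  have hpos : 0 < ‖w t‖ := norm_pos_iff.2 h0
  have h2 := (h1.log (by positivity)).div_const 2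
  have h3 : (fun s => Real.log ‖w s‖) = fun s => Real.log (‖w s‖ ^ 2) / 2 := by
    funext s
    rw [Real.log_pow]
    push_cast
    ring
  rw [h3]
  refine h2.congr_deriv ?_
  rw [Complex.inner, Complex.div_re, ← Complex.normSq_eq_norm_sq]
  have h4 : Complex.normSq (w t) ≠ 0 := by
    rwa [Ne, Complex.normSq_eq_zero]
  field_simp
  simp [Complex.mul_re]

private theorem ah_path (z e : ℂ) (t : ℝ) : HasDerivAt (fun s : ℝ => z + (s : ℂ) * e) e t := by
  have h1 : HasDerivAt (fun s : ℝ => (s : ℂ)) 1 t := Complex.ofRealCLM.hasDerivAt (x := t)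
  have h2 := (h1.mul_const e).const_add z
  simpa using h2

private theorem ah_path_tendsto (z e : ℂ) : Tendsto (fun s : ℝ => z + (s : ℂ) * e) (𝓝 0) (𝓝 z) := by
  have h := (ah_path z e 0).continuousAt.tendsto
  simpa using h

/-- the logarithm of the modulus of a holomorphic function along a line -/
private theorem AhD2_log_norm (h : ℂ → ℂ) (z e : ℂ) (ha : AnalyticAt ℂ h z) (h0 : h z ≠ 0) :
    AhD2 (fun t : ℝ => Real.log ‖h (z + (t : ℂ) * e)‖) (e * (deriv h z / h z)).re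
      (e ^ 2 * deriv (fun w => deriv h w / h w) z).re := by
  refine ⟨fun t => (e * (deriv h (z + (t : ℂ) * e) / h (z + (t : ℂ) * e))).re, ?_, by simp, ?_⟩
  · have h1 : ∀ᶠ w in 𝓝 z, AnalyticAt ℂ h w ∧ h w ≠ 0 :=
      ha.eventually_analyticAt.and (ha.continuousAt.eventually_ne h0)
    filter_upwards [(ah_path_tendsto z e).eventually h1] with t ht
    have h2 : HasDerivAt (fun s : ℝ => h (z + (s : ℂ) * e)) (e • deriv h (z + (t : ℂ) * e)) t :=
      ht.1.differentiableAt.hasDerivAt.scomp t (ah_path z e t)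
    have h3 := ah_log_norm h2 ht.2
    refine h3.congr_deriv ?_
    rw [smul_eq_mul, mul_div_assoc]
  · have h1 : AnalyticAt ℂ (fun w => deriv h w / h w) z := ha.deriv.div ha h0
    have h2 : HasDerivAt (fun w => deriv h w / h w) (deriv (fun w => deriv h w / h w) z)
        (z + ((0 : ℝ) : ℂ) * e) := by
      simpa using h1.differentiableAt.hasDerivAt
    have h3 : HasDerivAt (fun s : ℝ => (fun w => deriv h w / h w) (z + (s : ℂ) * e))
        (e • deriv (fun w => deriv h w / h w) z) 0 :=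
      HasDerivAt.scomp (0 : ℝ) (h := fun s : ℝ => z + (s : ℂ) * e)
        (g₁ := fun w => deriv h w / h w) h2 (ah_path z e 0)
    have h4 := h3.const_mul e
    have h5 := (Complex.reCLM.hasFDerivAt.comp_hasDerivAt (0 : ℝ) h4)
    have h6 : HasDerivAt (fun s : ℝ => (e * (deriv h (z + (s : ℂ) * e) / h (z + (s : ℂ) * e))).re)
        (e * (e • deriv (fun w => deriv h w / h w) z)).re 0 := h5
    refine h6.congr_deriv ?_
    rw [smul_eq_mul]
    congr 1
    ring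

/-- the function `v ↦ log (1 + e^{v/3}) / 2` -/
private theorem ah_F (v : ℝ) : HasDerivAt (fun v : ℝ => Real.log (1 + Real.exp (v / 3)) / 2)
    (Real.exp (v / 3) / (6 * (1 + Real.exp (v / 3)))) v := by
  have h1 : HasDerivAt (fun v : ℝ => Real.exp (v / 3)) (Real.exp (v / 3) * (1 / 3)) v :=
    ((hasDerivAt_id v).div_const 3).exp
  have h2 := ((h1.const_add 1).log (by positivity)).div_const 2
  refine h2.congr_deriv ?_
  have : 0 < 1 + Real.exp (v / 3) := by positivity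
  field_simp
  norm_num

private theorem ah_F' (v : ℝ) : HasDerivAt
    (fun v : ℝ => Real.exp (v / 3) / (6 * (1 + Real.exp (v / 3))))
    (Real.exp (v / 3) / (18 * (1 + Real.exp (v / 3)) ^ 2)) v := by
  have h1 : HasDerivAt (fun v : ℝ => Real.exp (v / 3)) (Real.exp (v / 3) * (1 / 3)) v :=
    ((hasDerivAt_id v).div_const 3).exp
  have h2 : 0 < 1 + Real.exp (v / 3) := by positivity
  have h3 := h1.div ((h1.const_add 1).const_mul 6) (by positivity)
  refine h3.congr_deriv ?_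
  field_simp
  ring

/-- `log (R² - ‖z‖²)` along a line -/
private theorem AhD2_ball (R : ℝ) (z e : ℂ) (hz : 0 < R ^ 2 - ‖z‖ ^ 2) :
    AhD2 (fun t : ℝ => Real.log (R ^ 2 - ‖z + (t : ℂ) * e‖ ^ 2))
      (-(2 * (conj z * e).re) / (R ^ 2 - ‖z‖ ^ 2))
      (-(2 * ‖e‖ ^ 2) / (R ^ 2 - ‖z‖ ^ 2) -
        (2 * (conj z * e).re) ^ 2 / (R ^ 2 - ‖z‖ ^ 2) ^ 2) := by
  have hq : ∀ t : ℝ, R ^ 2 - ‖z + (t : ℂ) * e‖ ^ 2 =
      (R ^ 2 - ‖z‖ ^ 2) - 2 * (conj z * e).re * t - ‖e‖ ^ 2 * t ^ 2 := by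
    intro t
    rw [← Complex.normSq_eq_norm_sq, ← Complex.normSq_eq_norm_sq, ← Complex.normSq_eq_norm_sq,
      Complex.normSq_apply, Complex.normSq_apply, Complex.normSq_apply]
    simp [Complex.mul_re]
    ring
  set q := R ^ 2 - ‖z‖ ^ 2 with hqd
  set β := 2 * (conj z * e).re with hβ
  set γ := ‖e‖ ^ 2 with hγ
  have h1 : ∀ t : ℝ, HasDerivAt (fun t : ℝ => q - β * t - γ * t ^ 2) (-β - 2 * γ * t) t := by
    intro t
    have h2 := (((hasDerivAt_id t).const_mul β).const_sub q).sub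
      (((hasDerivAt_id t).pow 2).const_mul γ)
    refine h2.congr_deriv ?_
    simp
    ring
  have h2 : ∀ᶠ t in 𝓝 (0 : ℝ), 0 < q - β * t - γ * t ^ 2 := by
    have h3 := (h1 0).continuousAt.tendsto
    have h4 : (0 : ℝ) < q - β * 0 - γ * 0 ^ 2 := by simpa using hz
    exact h3.eventually (lt_mem_nhds h4)
  refine ⟨fun t => (-β - 2 * γ * t) / (q - β * t - γ * t ^ 2), ?_, by simp, ?_⟩
  · filter_upwards [h2] with t ht
    have h3 := (h1 t).log ht.ne'
    have h4 : (fun t : ℝ => Real.log (R ^ 2 - ‖z + (t : ℂ) * e‖ ^ 2)) =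
        fun t => Real.log (q - β * t - γ * t ^ 2) := by
      funext t
      rw [hq]
    rw [h4]
    exact h3
  · have h3 : HasDerivAt (fun t : ℝ => -β - 2 * γ * t) (-(2 * γ)) 0 := by
      have := ((hasDerivAt_id (0 : ℝ)).const_mul (2 * γ)).const_sub (-β)
      refine this.congr_deriv ?_
      ring
    have h4 := h3.div (h1 0) (by simpa using hz.ne')
    refine h4.congr_deriv ?_
    simp only [mul_zero, sub_zero, ne_eq, OfNat.ofNat_ne_zero, not_false_eq_true, zero_pow]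
    field_simp

private theorem ah_exp_rpow {s : ℂ} (h : s ≠ 0) : Real.exp (Real.log ‖s‖ / 3) = ‖s‖ ^ (1 / 3 : ℝ) := by
  rw [Real.rpow_def_of_pos (norm_pos_iff.2 h)]
  congr 1
  ring

private theorem ah_lapl {s : ℂ} (h : s ≠ 0) :
    Real.exp (Real.log ‖s‖ / 3) / (18 * (1 + Real.exp (Real.log ‖s‖ / 3)) ^ 2) =
      lapl ‖s‖ * ‖s‖ ^ 2 := by
  have hs : 0 < ‖s‖ := norm_pos_iff.2 h
  unfold lapl
  rw [ah_exp_rpow h]
  have h1 : ‖s‖ ^ (-(5 / 3) : ℝ) * ‖s‖ ^ 2 = ‖s‖ ^ (1 / 3 : ℝ) := by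
    rw [← Real.rpow_natCast, ← Real.rpow_add hs]
    norm_num
  rw [← h1]
  ring

/-- the sum over the two directions of the second derivatives of one summand of `lrho ∘ f` -/
private theorem ah_term (h : ℂ → ℂ) (z e : ℂ) (ha : AnalyticAt ℂ h z) (h0 : h z ≠ 0) :
    ∃ a, AhD2 (fun t : ℝ => Real.log (1 + ‖h (z + (t : ℂ) * e)‖ ^ (1 / 3 : ℝ)) / 2 -
        5 / 6 * Real.log ‖h (z + (t : ℂ) * e)‖) a
      (lapl ‖h z‖ * ‖h z‖ ^ 2 * ((e * (deriv h z / h z)).re) ^ 2 +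
        (Real.exp (Real.log ‖h z‖ / 3) / (6 * (1 + Real.exp (Real.log ‖h z‖ / 3))) - 5 / 6) *
          (e ^ 2 * deriv (fun w => deriv h w / h w) z).re) := by
  have h1 := AhD2_log_norm h z e ha h0
  have h2 := AhD2.comp (F := fun v : ℝ => Real.log (1 + Real.exp (v / 3)) / 2)
    (F₁ := fun v : ℝ => Real.exp (v / 3) / (6 * (1 + Real.exp (v / 3)))) ah_F (ah_F' _) h1
  simp only [Complex.ofReal_zero, zero_mul, add_zero] at h2
  have h3 := h2.add (h1.const_mul (-(5 / 6)))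
  obtain ⟨φ₁, g1, g2, g3⟩ := h3
  refine ⟨_, φ₁, ?_, g2, ?_⟩
  · have hne : ∀ᶠ t : ℝ in 𝓝 0, ∀ᶠ s : ℝ in 𝓝 t, h (z + (s : ℂ) * e) ≠ 0 := by
      have : ∀ᶠ t : ℝ in 𝓝 0, h (z + (t : ℂ) * e) ≠ 0 :=
        (ah_path_tendsto z e).eventually (ha.continuousAt.eventually_ne h0)
      exact this.eventually_nhds
    filter_upwards [g1, hne] with t ht htn
    refine ht.congr_of_eventuallyEq ?_
    filter_upwards [htn] with s hs
    rw [ah_exp_rpow hs]
    ring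
  · refine g3.congr_deriv ?_
    rw [ah_lapl h0]
    ring

private theorem ah_phi_max (R : ℝ) (f : ℂ → ℂ) (z : ℂ) (hz : ‖z‖ < R)
    (ha : AnalyticAt ℂ f z) (h0 : f z ≠ 0) (h1 : f z ≠ 1) (hd : deriv f z ≠ 0)
    (hmax : ∀ e : ℂ, IsLocalMax (fun t : ℝ => lrho (f (z + (t : ℂ) * e)) +
      Real.log ‖deriv f (z + (t : ℂ) * e)‖ + Real.log (R ^ 2 - ‖z + (t : ℂ) * e‖ ^ 2)) 0) :
    (lapl ‖f z‖ + lapl ‖f z - 1‖) * ‖deriv f z‖ ^ 2 ≤ 4 * R ^ 2 / (R ^ 2 - ‖z‖ ^ 2) ^ 2 := by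
  have hR : 0 < R ^ 2 - ‖z‖ ^ 2 := by
    have := norm_nonneg z
    nlinarith
  have hb : AnalyticAt ℂ (fun w => f w - 1) z := ha.sub analyticAt_const
  have h1' : f z - 1 ≠ 0 := sub_ne_zero.2 h1
  have hdb : deriv (fun w => f w - 1) = deriv f := by
    funext w
    exact deriv_sub_const 1
  have key : ∀ e : ℂ, lapl ‖f z‖ * ‖f z‖ ^ 2 * ((e * (deriv f z / f z)).re) ^ 2 +
        (Real.exp (Real.log ‖f z‖ / 3) / (6 * (1 + Real.exp (Real.log ‖f z‖ / 3))) - 5 / 6) *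
          (e ^ 2 * deriv (fun w => deriv f w / f w) z).re +
      (lapl ‖f z - 1‖ * ‖f z - 1‖ ^ 2 * ((e * (deriv f z / (f z - 1))).re) ^ 2 +
        (Real.exp (Real.log ‖f z - 1‖ / 3) / (6 * (1 + Real.exp (Real.log ‖f z - 1‖ / 3))) -
          5 / 6) * (e ^ 2 * deriv (fun w => deriv f w / (f w - 1)) z).re) +
      (e ^ 2 * deriv (fun w => deriv (deriv f) w / deriv f w) z).re +
      (-(2 * ‖e‖ ^ 2) / (R ^ 2 - ‖z‖ ^ 2) -
        (2 * (conj z * e).re) ^ 2 / (R ^ 2 - ‖z‖ ^ 2) ^ 2) ≤ 0 := by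
    intro e
    obtain ⟨a1, g1⟩ := ah_term f z e ha h0
    obtain ⟨a2, g2⟩ := ah_term (fun w => f w - 1) z e hb h1'
    rw [hdb] at g2
    have g3 := AhD2_log_norm (deriv f) z e ha.deriv hd
    have g4 := AhD2_ball R z e hR
    have g5 := ((g1.add g2).add g3).add g4
    refine g5.nonpos ?_
    refine (hmax e).congr ?_
    filter_upwards with t
    unfold lrho
    ring
  have k1 := key 1
  have k2 := key I
  simp only [one_pow, one_mul, Complex.I_sq, neg_mul, Complex.neg_re, norm_one, Complex.norm_I,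
    mul_one] at k1 k2
  have e1 : ∀ w : ℂ, (w.re) ^ 2 + ((I * w).re) ^ 2 = ‖w‖ ^ 2 := by
    intro w
    rw [← Complex.normSq_eq_norm_sq, Complex.normSq_apply]
    simp
    ring
  have e2 : (2 * (conj z).re) ^ 2 + (2 * (conj z * I).re) ^ 2 = 4 * ‖z‖ ^ 2 := by
    rw [← Complex.normSq_eq_norm_sq, Complex.normSq_apply]
    simp
    ring
  have e3 := e1 (deriv f z / f z)
  have e4 := e1 (deriv f z / (f z - 1))
  have hn0 : 0 < ‖f z‖ := norm_pos_iff.2 h0
  have hn1 : 0 < ‖f z - 1‖ := norm_pos_iff.2 h1'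
  have e5 : ‖f z‖ ^ 2 * ‖deriv f z / f z‖ ^ 2 = ‖deriv f z‖ ^ 2 := by
    rw [norm_div]
    field_simp
  have e6 : ‖f z - 1‖ ^ 2 * ‖deriv f z / (f z - 1)‖ ^ 2 = ‖deriv f z‖ ^ 2 := by
    rw [norm_div]
    field_simp
  have e7 : 4 * R ^ 2 / (R ^ 2 - ‖z‖ ^ 2) ^ 2 = 2 * (2 / (R ^ 2 - ‖z‖ ^ 2)) +
      4 * ‖z‖ ^ 2 / (R ^ 2 - ‖z‖ ^ 2) ^ 2 := by
    field_simp
    ring
  have e8 : (lapl ‖f z‖ + lapl ‖f z - 1‖) * ‖deriv f z‖ ^ 2 =
      lapl ‖f z‖ * ‖f z‖ ^ 2 * ((deriv f z / f z).re ^ 2 + (I * (deriv f z / f z)).re ^ 2) +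
      lapl ‖f z - 1‖ * ‖f z - 1‖ ^ 2 * ((deriv f z / (f z - 1)).re ^ 2 +
        (I * (deriv f z / (f z - 1))).re ^ 2) := by
    rw [e3, e4, mul_assoc, mul_assoc, e5, e6]
    ring
  rw [e8, e7, ← e2]
  have e9 : ((2 * (conj z).re) ^ 2 + (2 * (conj z * I).re) ^ 2) / (R ^ 2 - ‖z‖ ^ 2) ^ 2 =
      (2 * (conj z).re) ^ 2 / (R ^ 2 - ‖z‖ ^ 2) ^ 2 +
        (2 * (conj z * I).re) ^ 2 / (R ^ 2 - ‖z‖ ^ 2) ^ 2 := add_div _ _ _
  rw [e9]
  have e10 : -(2 : ℝ) / (R ^ 2 - ‖z‖ ^ 2) = -(2 / (R ^ 2 - ‖z‖ ^ 2)) := neg_div _ _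
  try rw [e10] at k1
  try rw [e10] at k2
  linarith

theorem ahlfors : ∃ C > 0, ∀ f : ℂ → ℂ, DifferentiableOn ℂ f (Metric.ball 0 1) →
    (∀ z ∈ Metric.ball (0 : ℂ) 1, f z ≠ 0 ∧ f z ≠ 1) → ∀ z ∈ Metric.ball (0 : ℂ) 1,
    Real.exp (lrho (f z)) * ‖deriv f z‖ ≤ C / (1 - ‖z‖ ^ 2) := by
  obtain ⟨c, hc, hcurv⟩ := curvature
  refine ⟨2 / √c, by positivity, fun f hf hf01 => ?_⟩
  have hball : IsOpen (Metric.ball (0 : ℂ) 1) := Metric.isOpen_ball
  have hana : ∀ z ∈ Metric.ball (0 : ℂ) 1, AnalyticAt ℂ f z := fun z hz =>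
    hf.analyticAt (hball.mem_nhds hz)
  have hcont : ContinuousOn (fun z => Real.exp (lrho (f z)) * ‖deriv f z‖) (Metric.ball 0 1) := by
    intro z hz
    have ha := hana z hz
    have h1 : ContinuousAt f z := ha.continuousAt
    have h2 : ContinuousAt (deriv f) z := ha.deriv.continuousAt
    obtain ⟨h3, h4⟩ := hf01 z hz
    have h5 : ‖f z‖ ≠ 0 := norm_ne_zero_iff.2 h3
    have h6 : ‖f z - 1‖ ≠ 0 := norm_ne_zero_iff.2 (sub_ne_zero.2 h4)
    have h7 : ContinuousAt (fun z => ‖f z‖) z := h1.norm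
    have h8 : ContinuousAt (fun z => ‖f z - 1‖) z := (h1.sub continuousAt_const).norm
    have h9 : ContinuousAt (fun z => lrho (f z)) z := by
      unfold lrho
      have g1 : ContinuousAt (fun z => ‖f z‖ ^ (1 / 3 : ℝ)) z := h7.rpow_const (Or.inl h5)
      have g2 : ContinuousAt (fun z => ‖f z - 1‖ ^ (1 / 3 : ℝ)) z := h8.rpow_const (Or.inl h6)
      have g3 : ContinuousAt (fun z => Real.log (1 + ‖f z‖ ^ (1 / 3 : ℝ))) z :=
        (continuousAt_const.add g1).log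
          (ne_of_gt (by positivity : (0 : ℝ) < 1 + ‖f z‖ ^ (1 / 3 : ℝ)))
      have g4 : ContinuousAt (fun z => Real.log (1 + ‖f z - 1‖ ^ (1 / 3 : ℝ))) z :=
        (continuousAt_const.add g2).log
          (ne_of_gt (by positivity : (0 : ℝ) < 1 + ‖f z - 1‖ ^ (1 / 3 : ℝ)))
      have g5 : ContinuousAt (fun z => Real.log ‖f z‖) z := h7.log h5
      have g6 : ContinuousAt (fun z => Real.log ‖f z - 1‖) z := h8.log h6
      exact ((g3.div_const 2).sub (continuousAt_const.mul g5)).add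
        ((g4.div_const 2).sub (continuousAt_const.mul g6))
    exact (h9.rexp.mul h2.norm).continuousWithinAt
  -- the bound for `R < 1`
  have main : ∀ R : ℝ, 0 < R → R < 1 → ∀ z : ℂ, ‖z‖ ≤ R →
      Real.exp (lrho (f z)) * ‖deriv f z‖ * (R ^ 2 - ‖z‖ ^ 2) ≤ 2 / √c := by
    intro R hR0 hR1
    set Φ : ℂ → ℝ := fun z => Real.exp (lrho (f z)) * ‖deriv f z‖ * (R ^ 2 - ‖z‖ ^ 2) with hΦ
    have hsub : Metric.closedBall (0 : ℂ) R ⊆ Metric.ball 0 1 := Metric.closedBall_subset_ball hR1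
    have hΦc : ContinuousOn Φ (Metric.closedBall 0 R) := by
      refine (hcont.mono hsub).mul ?_
      fun_prop
    obtain ⟨z₀, hz₀, hmax⟩ := (isCompact_closedBall (0 : ℂ) R).exists_isMaxOn
      ⟨0, by simp [hR0.le]⟩ hΦc
    have hz₀n : ‖z₀‖ ≤ R := by simpa using hz₀
    have hΦ₀ : Φ z₀ ≤ 2 / √c := by
      by_cases hpos : Φ z₀ ≤ 0
      · exact hpos.trans (by positivity)
      push Not at hpos
      have hd : deriv f z₀ ≠ 0 := by
        intro h
        simp only [hΦ, h, norm_zero, mul_zero, zero_mul, lt_self_iff_false] at hpos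
      have hlt : ‖z₀‖ < R := by
        rcases lt_or_eq_of_le hz₀n with h | h
        · exact h
        · simp only [hΦ, h, sub_self, mul_zero, lt_self_iff_false] at hpos
      have hz1 : z₀ ∈ Metric.ball (0 : ℂ) 1 := hsub hz₀
      have ha := hana z₀ hz1
      obtain ⟨h0, h1⟩ := hf01 z₀ hz1
      have hq : 0 < R ^ 2 - ‖z₀‖ ^ 2 := by
        have := norm_nonneg z₀
        nlinarith
      have hloc : ∀ e : ℂ, IsLocalMax (fun t : ℝ => lrho (f (z₀ + (t : ℂ) * e)) +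
          Real.log ‖deriv f (z₀ + (t : ℂ) * e)‖ +
          Real.log (R ^ 2 - ‖z₀ + (t : ℂ) * e‖ ^ 2)) 0 := by
        intro e
        have g1 : ∀ᶠ w in 𝓝 z₀, ‖w‖ < R ∧ deriv f w ≠ 0 := by
          refine Filter.Eventually.and ?_ (ha.deriv.continuousAt.eventually_ne hd)
          exact continuous_norm.continuousAt.eventually (gt_mem_nhds hlt)
        filter_upwards [(ah_path_tendsto z₀ e).eventually g1] with t ht
        set w := z₀ + (t : ℂ) * e with hw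
        have hqw : 0 < R ^ 2 - ‖w‖ ^ 2 := by
          have := norm_nonneg w
          nlinarith [ht.1]
        have g2 : Φ w ≤ Φ z₀ := hmax (by simpa using ht.1.le)
        have g3 : ∀ v : ℂ, deriv f v ≠ 0 → 0 < R ^ 2 - ‖v‖ ^ 2 →
            Real.log (Φ v) = lrho (f v) + Real.log ‖deriv f v‖ +
              Real.log (R ^ 2 - ‖v‖ ^ 2) := by
          intro v hv hqv
          simp only [hΦ]
          have hv' : ‖deriv f v‖ ≠ 0 := norm_ne_zero_iff.2 hv
          rw [Real.log_mul (by positivity) hqv.ne', Real.log_mul (Real.exp_pos _).ne' hv',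
            Real.log_exp]
        have g4 : 0 < Φ w := by
          simp only [hΦ]
          have : 0 < ‖deriv f w‖ := norm_pos_iff.2 ht.2
          positivity
        have g5 := Real.log_le_log g4 g2
        rw [g3 w ht.2 hqw, g3 z₀ hd hq] at g5
        simpa using g5
      have hk := ah_phi_max R f z₀ hlt ha h0 h1 hd hloc
      have hcv := hcurv (f z₀) h0 h1
      have hsq : Φ z₀ ^ 2 ≤ (2 / √c) ^ 2 := by
        have e1 : Φ z₀ ^ 2 = Real.exp (2 * lrho (f z₀)) * ‖deriv f z₀‖ ^ 2 *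
            (R ^ 2 - ‖z₀‖ ^ 2) ^ 2 := by
          simp only [hΦ]
          rw [mul_pow, mul_pow, ← Real.exp_nat_mul]
          push_cast
          rfl
        have e2 : (2 / √c) ^ 2 = 4 / c := by
          rw [div_pow, Real.sq_sqrt hc.le]
          norm_num
        rw [e1, e2, le_div_iff₀ hc]
        have e3 : c * Real.exp (2 * lrho (f z₀)) * ‖deriv f z₀‖ ^ 2 ≤
            4 * R ^ 2 / (R ^ 2 - ‖z₀‖ ^ 2) ^ 2 :=
          (mul_le_mul_of_nonneg_right hcv (by positivity)).trans hk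
        rw [le_div_iff₀ (by positivity)] at e3
        have e4 : R ^ 2 ≤ 1 := by nlinarith
        linarith
      exact le_of_sq_le_sq hsq (by positivity)
    intro z hz
    exact (hmax (by simpa using hz)).trans hΦ₀
  intro z hz
  have hz1 : ‖z‖ < 1 := by simpa using hz
  have hq : 0 < 1 - ‖z‖ ^ 2 := by
    have := norm_nonneg z
    nlinarith
  rw [le_div_iff₀ hq]
  set X := Real.exp (lrho (f z)) * ‖deriv f z‖ with hX
  have ht : Tendsto (fun R : ℝ => X * (R ^ 2 - ‖z‖ ^ 2)) (𝓝[<] 1) (𝓝 (X * (1 - ‖z‖ ^ 2))) := by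
    have h1 : ContinuousAt (fun R : ℝ => X * (R ^ 2 - ‖z‖ ^ 2)) 1 := by fun_prop
    have h2 := h1.tendsto
    simp only [one_pow] at h2
    exact h2.mono_left nhdsWithin_le_nhds
  refine le_of_tendsto ht ?_
  have h3 : ∀ᶠ R : ℝ in 𝓝[<] 1, ‖z‖ < R := by
    have : ∀ᶠ R : ℝ in 𝓝 1, ‖z‖ < R := lt_mem_nhds hz1
    exact this.filter_mono nhdsWithin_le_nhds
  filter_upwards [h3, self_mem_nhdsWithin] with R hR hR1
  exact main R (lt_of_le_of_lt (norm_nonneg z) hR) hR1 z hR.le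

end Pool.Agent.QCD
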