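import Pool.Agent.Lib.MP_f30fea_an.Base

/-!
# Wirtinger calculus

All elementary.  For real differentiable `f`: `fderiv ℝ f z v = dz f z * v + dzb f z * conj v`
(`v = v.re * 1 + v.im * I`).  Everything else follows (product rule, chain rule, symmetry of the
second derivative for `dz_dzb`, Cauchy-Riemann for `holo_of_dzb`; `det` by the matrix in the basis
`1, I`).  `integral_dz_zero`: integral of a derivative of a compactly supported function
(`integral_fderiv...`/`integral_bilinear_hasLineDerivAt...`), integration by parts from the product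
rule.
-/

open Complex MeasureTheory Filter Topology Set
open scoped ContDiff ENNReal ComplexConjugate

noncomputable section

namespace Pool.Agent.QCD

private theorem clm_eq (L : ℂ →L[ℝ] ℂ) (v : ℂ) :
    L v = (L 1 - I * L I) / 2 * v + (L 1 + I * L I) / 2 * conj v := by
  have h1 : v = (v.re : ℝ) • (1 : ℂ) + (v.im : ℝ) • I := by
    apply Complex.ext <;> simp
  have h2 : L v = (v.re : ℂ) * L 1 + (v.im : ℂ) * L I := by
    conv_lhs => rw [h1]
    rw [map_add, map_smul, map_smul, Complex.real_smul, Complex.real_smul]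
  have h3 : v = v.re + v.im * I := (Complex.re_add_im v).symm
  have h4 : conj v = v.re - v.im * I := by
    conv_lhs => rw [h3]
    simp only [map_add, map_mul, conj_ofReal, conj_I]
    ring
  rw [h2, h4]
  conv_rhs => rw [h3]
  simp only [add_re, add_im, ofReal_re, ofReal_im, mul_re, mul_im, I_re, I_im, mul_zero, mul_one,
    sub_zero, add_zero, zero_add]
  linear_combination ((v.im : ℂ) * L I) * I_sq

theorem fderiv_eq {f : ℂ → ℂ} {z : ℂ} (v : ℂ) : fderiv ℝ f z v = dz f z * v + dzb f z * conj v :=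
  clm_eq _ v

theorem det_fderiv {f : ℂ → ℂ} {z : ℂ} :
    (fderiv ℝ f z).det = ‖dz f z‖ ^ 2 - ‖dzb f z‖ ^ 2 := by
  have h : ∀ L : ℂ →L[ℝ] ℂ, L.det = ‖(L 1 - I * L I) / 2‖ ^ 2 - ‖(L 1 + I * L I) / 2‖ ^ 2 := by
    intro L
    have h1 : L.det = (L 1).re * (L I).im - (L I).re * (L 1).im := by
      unfold ContinuousLinearMap.det
      rw [← LinearMap.det_toMatrix Complex.basisOneI, Matrix.det_fin_two]
      simp [LinearMap.toMatrix_apply, Complex.basisOneI]
    rw [h1, ← Complex.normSq_eq_norm_sq, ← Complex.normSq_eq_norm_sq, Complex.normSq_apply,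
      Complex.normSq_apply]
    simp only [div_ofNat_re, div_ofNat_im, sub_re, sub_im, add_re, add_im, mul_re, mul_im, I_re,
      I_im, zero_mul, one_mul, zero_sub, zero_add]
    ring
  exact h _

theorem dz_smooth {f : ℂ → ℂ} (hf : ContDiff ℝ ∞ f) : ContDiff ℝ ∞ (dz f) := by
  have h : ContDiff ℝ ∞ (fderiv ℝ f) := hf.fderiv_right (by simp)
  unfold dz
  exact ((h.clm_apply contDiff_const).sub (contDiff_const.mul (h.clm_apply contDiff_const))).div_const 2

theorem dzb_smooth {f : ℂ → ℂ} (hf : ContDiff ℝ ∞ f) : ContDiff ℝ ∞ (dzb f) := by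
  have h : ContDiff ℝ ∞ (fderiv ℝ f) := hf.fderiv_right (by simp)
  unfold dzb
  exact ((h.clm_apply contDiff_const).add (contDiff_const.mul (h.clm_apply contDiff_const))).div_const 2

private theorem fderiv_dz {f : ℂ → ℂ} (hf : ContDiff ℝ ∞ f) (z v : ℂ) :
    fderiv ℝ (dz f) z v = (fderiv ℝ (fderiv ℝ f) z v 1 - I * fderiv ℝ (fderiv ℝ f) z v I) / 2 := by
  have h : ContDiff ℝ ∞ (fderiv ℝ f) := hf.fderiv_right (by simp)
  have h1 : HasFDerivAt (fderiv ℝ f) (fderiv ℝ (fderiv ℝ f) z) z :=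
    (h.differentiable (by simp) z).hasFDerivAt
  have h2 : ∀ w : ℂ, HasFDerivAt (fun y => fderiv ℝ f y w)
      ((ContinuousLinearMap.apply ℝ ℂ w).comp (fderiv ℝ (fderiv ℝ f) z)) z := fun w =>
    (ContinuousLinearMap.apply ℝ ℂ w).hasFDerivAt.comp z h1
  have h3 := ((h2 1).sub ((h2 I).const_mul I)).mul_const' ((2 : ℂ)⁻¹)
  have h4 : dz f = fun y => (fderiv ℝ f y 1 - I * fderiv ℝ f y I) * (2 : ℂ)⁻¹ := by
    funext y
    unfold dz
    rw [div_eq_mul_inv]
  rw [h4]
  erw [h3.fderiv]
  simp [div_eq_mul_inv]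

private theorem fderiv_dzb {f : ℂ → ℂ} (hf : ContDiff ℝ ∞ f) (z v : ℂ) :
    fderiv ℝ (dzb f) z v = (fderiv ℝ (fderiv ℝ f) z v 1 + I * fderiv ℝ (fderiv ℝ f) z v I) / 2 := by
  have h : ContDiff ℝ ∞ (fderiv ℝ f) := hf.fderiv_right (by simp)
  have h1 : HasFDerivAt (fderiv ℝ f) (fderiv ℝ (fderiv ℝ f) z) z :=
    (h.differentiable (by simp) z).hasFDerivAt
  have h2 : ∀ w : ℂ, HasFDerivAt (fun y => fderiv ℝ f y w)
      ((ContinuousLinearMap.apply ℝ ℂ w).comp (fderiv ℝ (fderiv ℝ f) z)) z := fun w =>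
    (ContinuousLinearMap.apply ℝ ℂ w).hasFDerivAt.comp z h1
  have h3 := ((h2 1).add ((h2 I).const_mul I)).mul_const' ((2 : ℂ)⁻¹)
  have h4 : dzb f = fun y => (fderiv ℝ f y 1 + I * fderiv ℝ f y I) * (2 : ℂ)⁻¹ := by
    funext y
    unfold dzb
    rw [div_eq_mul_inv]
  rw [h4]
  erw [h3.fderiv]
  simp [div_eq_mul_inv]
  ring

theorem dz_dzb {f : ℂ → ℂ} (hf : ContDiff ℝ ∞ f) : dz (dzb f) = dzb (dz f) := by
  funext z
  have hs : fderiv ℝ (fderiv ℝ f) z 1 I = fderiv ℝ (fderiv ℝ f) z I 1 :=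
    (hf.contDiffAt.isSymmSndFDerivAt (by
      rw [minSmoothness_of_isRCLikeNormedField]
      exact WithTop.coe_le_coe.2 (le_top : (2 : ℕ∞) ≤ ⊤))).eq 1 I
  have e1 : dz (dzb f) z = (fderiv ℝ (dzb f) z 1 - I * fderiv ℝ (dzb f) z I) / 2 := rfl
  have e2 : dzb (dz f) z = (fderiv ℝ (dz f) z 1 + I * fderiv ℝ (dz f) z I) / 2 := rfl
  rw [e1, e2, fderiv_dzb hf, fderiv_dzb hf, fderiv_dz hf, fderiv_dz hf, hs]
  ring

section
variable {f g : ℂ → ℂ} {z : ℂ}
theorem dz_add (hf : DifferentiableAt ℝ f z) (hg : DifferentiableAt ℝ g z) :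
    dz (fun z => f z + g z) z = dz f z + dz g z := by
  unfold dz
  rw [fderiv_fun_add hf hg]
  simp only [_root_.add_apply]
  ring
theorem dzb_add (hf : DifferentiableAt ℝ f z) (hg : DifferentiableAt ℝ g z) :
    dzb (fun z => f z + g z) z = dzb f z + dzb g z := by
  unfold dzb
  rw [fderiv_fun_add hf hg]
  simp only [_root_.add_apply]
  ring
theorem dz_mul (hf : DifferentiableAt ℝ f z) (hg : DifferentiableAt ℝ g z) :
    dz (fun z => f z * g z) z = dz f z * g z + f z * dz g z := by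
  unfold dz
  rw [fderiv_fun_mul hf hg]
  simp only [_root_.add_apply, _root_.smul_apply, smul_eq_mul]
  ring
theorem dzb_mul (hf : DifferentiableAt ℝ f z) (hg : DifferentiableAt ℝ g z) :
    dzb (fun z => f z * g z) z = dzb f z * g z + f z * dzb g z := by
  unfold dzb
  rw [fderiv_fun_mul hf hg]
  simp only [_root_.add_apply, _root_.smul_apply, smul_eq_mul]
  ring
private theorem fderiv_comp' (hg : DifferentiableAt ℝ g z) (hf : DifferentiableAt ℝ f (g z))
    (v : ℂ) : fderiv ℝ (fun z => f (g z)) z v =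
      dz f (g z) * (dz g z * v + dzb g z * conj v) +
        dzb f (g z) * conj (dz g z * v + dzb g z * conj v) := by
  have h := (hf.hasFDerivAt.comp z hg.hasFDerivAt).fderiv
  have h' : fderiv ℝ (fun z => f (g z)) z = (fderiv ℝ f (g z)).comp (fderiv ℝ g z) := h
  rw [h', ContinuousLinearMap.comp_apply, fderiv_eq (f := f), fderiv_eq (f := g)]
theorem dz_comp (hg : DifferentiableAt ℝ g z) (hf : DifferentiableAt ℝ f (g z)) :
    dz (fun z => f (g z)) z = dz f (g z) * dz g z + dzb f (g z) * conj (dzb g z) := by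
  have e : dz (fun z => f (g z)) z = (fderiv ℝ (fun z => f (g z)) z 1 -
    I * fderiv ℝ (fun z => f (g z)) z I) / 2 := rfl
  rw [e, fderiv_comp' hg hf, fderiv_comp' hg hf]
  simp only [map_add, map_mul, conj_I, map_one, mul_one, map_neg]
  linear_combination ((-(dz f (g z) * dz g z) + dz f (g z) * dzb g z +
    dzb f (g z) * conj (dz g z) - dzb f (g z) * conj (dzb g z)) / 2) * I_sq
theorem dzb_comp (hg : DifferentiableAt ℝ g z) (hf : DifferentiableAt ℝ f (g z)) :
    dzb (fun z => f (g z)) z = dz f (g z) * dzb g z + dzb f (g z) * conj (dz g z) := by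
  have e : dzb (fun z => f (g z)) z = (fderiv ℝ (fun z => f (g z)) z 1 +
    I * fderiv ℝ (fun z => f (g z)) z I) / 2 := rfl
  rw [e, fderiv_comp' hg hf, fderiv_comp' hg hf]
  simp only [map_add, map_mul, conj_I, map_one, mul_one, map_neg]
  linear_combination ((dz f (g z) * dz g z - dz f (g z) * dzb g z -
    dzb f (g z) * conj (dz g z) + dzb f (g z) * conj (dzb g z)) / 2) * I_sq
private theorem fderiv_conj' (hf : DifferentiableAt ℝ f z) (v : ℂ) :
    fderiv ℝ (fun z => conj (f z)) z v = conj (fderiv ℝ f z v) := by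
  have h : HasFDerivAt (fun z => conj (f z))
      ((Complex.conjCLE : ℂ →L[ℝ] ℂ).comp (fderiv ℝ f z)) z :=
    (Complex.conjCLE : ℂ →L[ℝ] ℂ).hasFDerivAt.comp z hf.hasFDerivAt
  rw [h.fderiv]
  simp
theorem dz_conj (hf : DifferentiableAt ℝ f z) :
    dz (fun z => conj (f z)) z = conj (dzb f z) := by
  have e : dz (fun z => conj (f z)) z = (fderiv ℝ (fun z => conj (f z)) z 1 -
    I * fderiv ℝ (fun z => conj (f z)) z I) / 2 := rfl
  rw [e, fderiv_conj' hf, fderiv_conj' hf, dzb]
  simp only [map_div₀, map_add, map_mul, conj_I, map_ofNat]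
  ring
theorem dzb_conj (hf : DifferentiableAt ℝ f z) :
    dzb (fun z => conj (f z)) z = conj (dz f z) := by
  have e : dzb (fun z => conj (f z)) z = (fderiv ℝ (fun z => conj (f z)) z 1 +
    I * fderiv ℝ (fun z => conj (f z)) z I) / 2 := rfl
  rw [e, fderiv_conj' hf, fderiv_conj' hf, dz]
  simp only [map_div₀, map_sub, map_mul, conj_I, map_ofNat]
  ring
private theorem fderiv_holo (hf : DifferentiableAt ℂ f z) (v : ℂ) :
    fderiv ℝ f z v = deriv f z * v := by
  have h := hf.hasDerivAt.hasFDerivAt.restrictScalars ℝ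
  rw [h.fderiv]
  simp [mul_comm]
theorem dz_of_holo (hf : DifferentiableAt ℂ f z) : dz f z = deriv f z := by
  rw [dz, fderiv_holo hf, fderiv_holo hf]
  linear_combination (-deriv f z / 2) * I_sq
theorem dzb_of_holo (hf : DifferentiableAt ℂ f z) : dzb f z = 0 := by
  rw [dzb, fderiv_holo hf, fderiv_holo hf]
  linear_combination (deriv f z / 2) * I_sq
theorem holo_of_dzb (hf : DifferentiableAt ℝ f z) (h : dzb f z = 0) : DifferentiableAt ℂ f z := by
  have h1 : HasFDerivAt f ((1 : ℂ →L[ℂ] ℂ).smulRight (dz f z)) z := by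
    refine hasFDerivAt_of_restrictScalars ℝ hf.hasFDerivAt ?_
    ext1
    simp [fderiv_eq, h, mul_comm]
  exact h1.differentiableAt
theorem dz_congr (h : f =ᶠ[𝓝 z] g) : dz f z = dz g z := by
  rw [dz, dz, h.fderiv_eq]
theorem dzb_congr (h : f =ᶠ[𝓝 z] g) : dzb f z = dzb g z := by
  rw [dzb, dzb, h.fderiv_eq]
end

theorem IsTest.dz {f : ℂ → ℂ} (hf : IsTest f) : IsTest (dz f) :=
  ⟨dz_smooth hf.1, (hf.2.fderiv ℝ).comp_left (g := fun L : ℂ →L[ℝ] ℂ => (L 1 - I * L I) / 2)
    (by simp)⟩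
theorem IsTest.dzb {f : ℂ → ℂ} (hf : IsTest f) : IsTest (dzb f) :=
  ⟨dzb_smooth hf.1, (hf.2.fderiv ℝ).comp_left (g := fun L : ℂ →L[ℝ] ℂ => (L 1 + I * L I) / 2)
    (by simp)⟩
theorem IsTest.mul {f g : ℂ → ℂ} (hf : IsTest f) (hg : ContDiff ℝ ∞ g) :
    IsTest (fun z => f z * g z) := ⟨hf.1.mul hg, hf.2.mul_right⟩
theorem IsTest.add {f g : ℂ → ℂ} (hf : IsTest f) (hg : IsTest g) :
    IsTest (fun z => f z + g z) := ⟨hf.1.add hg.1, hf.2.add hg.2⟩
theorem IsTest.bound {f : ℂ → ℂ} (hf : IsTest f) :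
    ∃ M r : ℝ, 0 ≤ M ∧ 0 < r ∧ (∀ z, ‖f z‖ ≤ M) ∧ ∀ z, r < ‖z‖ → f z = 0 := by
  obtain ⟨M, hM⟩ := hf.2.exists_bound_of_continuous hf.1.continuous
  obtain ⟨r, hr⟩ := hf.2.isCompact.isBounded.subset_closedBall 0
  refine ⟨M, max r 1, (norm_nonneg _).trans (hM 0), lt_of_lt_of_le one_pos (le_max_right _ _), hM,
    fun z hz => ?_⟩
  by_contra h0
  have h1 : z ∈ tsupport f := subset_tsupport f h0
  have h2 := hr h1
  rw [mem_closedBall_zero_iff] at h2
  have h3 := le_max_left r 1
  linarith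

private theorem integral_fderiv_zero {f : ℂ → ℂ} (hf : IsTest f) (v : ℂ) :
    ∫ z, fderiv ℝ f z v = 0 := by
  have hc : Continuous (fun z => fderiv ℝ f z v) :=
    ((hf.1.fderiv_right (m := ∞) (by simp)).clm_apply contDiff_const).continuous
  have hs : HasCompactSupport (fun z => fderiv ℝ f z v) :=
    (hf.2.fderiv ℝ).comp_left (g := fun L : ℂ →L[ℝ] ℂ => L v) (by simp)
  have h := integral_mul_fderiv_eq_neg_fderiv_mul_of_integrable (μ := volume) (f := fun _ : ℂ => (1 : ℂ))
    (g := f) (v := v) (by simp) (by simpa using hc.integrable_of_hasCompactSupport hs)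
    (by simpa using hf.1.continuous.integrable_of_hasCompactSupport hf.2)
    (fun x _ => differentiableAt_const _) (fun x _ => hf.1.differentiable (by simp) x)
  simpa using h

private theorem integrable_fderiv {f : ℂ → ℂ} (hf : IsTest f) (v : ℂ) :
    Integrable (fun z => fderiv ℝ f z v) := by
  have hc : Continuous (fun z => fderiv ℝ f z v) :=
    ((hf.1.fderiv_right (m := ∞) (by simp)).clm_apply contDiff_const).continuous
  have hs : HasCompactSupport (fun z => fderiv ℝ f z v) :=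
    (hf.2.fderiv ℝ).comp_left (g := fun L : ℂ →L[ℝ] ℂ => L v) (by simp)
  exact hc.integrable_of_hasCompactSupport hs

theorem integral_dz_zero {f : ℂ → ℂ} (hf : IsTest f) : ∫ z, Pool.Agent.QCD.dz f z = 0 := by
  have h1 := integral_fderiv_zero hf 1
  have h2 := integral_fderiv_zero hf I
  have e : ∀ z, Pool.Agent.QCD.dz f z = (fderiv ℝ f z 1 - I * fderiv ℝ f z I) / 2 := fun z => rfl
  simp only [e]
  rw [integral_div, integral_sub (integrable_fderiv hf 1) ((integrable_fderiv hf I).const_mul I),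
    integral_const_mul, h1, h2]
  simp
theorem integral_dzb_zero {f : ℂ → ℂ} (hf : IsTest f) : ∫ z, Pool.Agent.QCD.dzb f z = 0 := by
  have h1 := integral_fderiv_zero hf 1
  have h2 := integral_fderiv_zero hf I
  have e : ∀ z, Pool.Agent.QCD.dzb f z = (fderiv ℝ f z 1 + I * fderiv ℝ f z I) / 2 := fun z => rfl
  simp only [e]
  rw [integral_div, integral_add (integrable_fderiv hf 1) ((integrable_fderiv hf I).const_mul I),
    integral_const_mul, h1, h2]
  simp
private theorem test_integrable {f : ℂ → ℂ} (hf : IsTest f) : Integrable f :=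
  hf.1.continuous.integrable_of_hasCompactSupport hf.2
theorem integral_parts_dz {f g : ℂ → ℂ} (hf : IsTest f) (hg : ContDiff ℝ ∞ g) :
    ∫ z, g z * Pool.Agent.QCD.dz f z = -∫ z, Pool.Agent.QCD.dz g z * f z := by
  have h := integral_dz_zero (hf.mul hg)
  have e : ∀ z, Pool.Agent.QCD.dz (fun z => f z * g z) z =
      g z * Pool.Agent.QCD.dz f z + Pool.Agent.QCD.dz g z * f z := by
    intro z
    rw [dz_mul (hf.1.differentiable (by simp) z) (hg.differentiable (by simp) z)]
    ring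
  simp only [e] at h
  have i1 : Integrable (fun z => g z * Pool.Agent.QCD.dz f z) := by
    have := test_integrable (hf.dz.mul hg)
    simpa only [mul_comm] using this
  have i2 : Integrable (fun z => Pool.Agent.QCD.dz g z * f z) := by
    have := test_integrable (hf.mul (dz_smooth hg))
    simpa only [mul_comm] using this
  rw [integral_add i1 i2] at h
  exact eq_neg_of_add_eq_zero_left h
theorem integral_parts_dzb {f g : ℂ → ℂ} (hf : IsTest f) (hg : ContDiff ℝ ∞ g) :
    ∫ z, g z * Pool.Agent.QCD.dzb f z = -∫ z, Pool.Agent.QCD.dzb g z * f z := by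
  have h := integral_dzb_zero (hf.mul hg)
  have e : ∀ z, Pool.Agent.QCD.dzb (fun z => f z * g z) z =
      g z * Pool.Agent.QCD.dzb f z + Pool.Agent.QCD.dzb g z * f z := by
    intro z
    rw [dzb_mul (hf.1.differentiable (by simp) z) (hg.differentiable (by simp) z)]
    ring
  simp only [e] at h
  have i1 : Integrable (fun z => g z * Pool.Agent.QCD.dzb f z) := by
    have := test_integrable (hf.dzb.mul hg)
    simpa only [mul_comm] using this
  have i2 : Integrable (fun z => Pool.Agent.QCD.dzb g z * f z) := by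
    have := test_integrable (hf.mul (dzb_smooth hg))
    simpa only [mul_comm] using this
  rw [integral_add i1 i2] at h
  exact eq_neg_of_add_eq_zero_left h

end Pool.Agent.QCD
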