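import Pool.Agent.Lib.MP_f30fea_an.Base
import Pool.Agent.Lib.MP_f30fea_an.Wirt

/-!
# Proper local diffeomorphisms of the plane are diffeomorphisms

`det fderiv = ‖dz w‖² - ‖dzb w‖² > 0`, so `w` is a local diffeomorphism (inverse function theorem)
and hence a local homeomorphism.  It is proper (`‖w z‖ ≥ ‖z‖ - C`), so a closed map with finite
fibres (compact and discrete), so a covering map
(`IsClosedMap.isCoveringMapOn_of_isLocalHomeomorphOn`), surjective (image open and closed).  The plane is simply connected, so the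
identity lifts to a continuous section `s`, `w ∘ s = id` (`IsCoveringMap.existsUnique_continuousMap_lifts`
or the `SimplyConnectedSpace` version), and `s ∘ w = id` by uniqueness of lifts
(`IsCoveringMap.eq_of_comp_eq`), choosing `s (w 0) = 0`.  Smoothness of the inverse: inverse function
theorem (`OpenPartialHomeomorph.contDiffAt_symm` or `ContDiffAt.to_localInverse`).
-/

open Complex MeasureTheory Filter Topology Set
open scoped ContDiff ENNReal ComplexConjugate

noncomputable section

namespace Pool.Agent.QCD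

private theorem hp_det {w : ℂ → ℂ} {k : ℝ} (hk : k < 1) {z : ℂ}
    (h1 : ‖dzb w z‖ ≤ k * ‖dz w z‖) (h2 : dz w z ≠ 0) : (fderiv ℝ w z).det ≠ 0 := by
  rw [det_fderiv]
  have hp : 0 < ‖dz w z‖ := norm_pos_iff.mpr h2
  have h3 : ‖dzb w z‖ < ‖dz w z‖ := by nlinarith
  have h4 : 0 ≤ ‖dzb w z‖ := norm_nonneg _
  have : ‖dzb w z‖ ^ 2 < ‖dz w z‖ ^ 2 := by gcongr
  exact (sub_pos.mpr this).ne'

theorem homeo_plane (w : ℂ → ℂ) (hw : ContDiff ℝ ∞ w) {k : ℝ} (hk : k < 1)
    (h1 : ∀ z, ‖dzb w z‖ ≤ k * ‖dz w z‖) (h2 : ∀ z, dz w z ≠ 0) {C : ℝ}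
    (h3 : ∀ z, ‖w z - z‖ ≤ C) :
    ∃ e : ℂ ≃ₜ ℂ, (∀ z, e z = w z) ∧ ContDiff ℝ ∞ e.symm := by
  have hdet : ∀ z, (fderiv ℝ w z).det ≠ 0 := fun z => hp_det hk (h1 z) (h2 z)
  have hcont : Continuous w := hw.continuous
  have hstrict : ∀ z, HasStrictFDerivAt w
      (ContinuousLinearMap.toContinuousLinearEquivOfDetNeZero (fderiv ℝ w z) (hdet z) : ℂ →L[ℝ] ℂ) z := by
    intro z
    have := (hw.contDiffAt (x := z)).hasStrictFDerivAt (by simp)
    simpa using this
  have hloc : IsLocalHomeomorph w := by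
    intro z
    exact ⟨(hstrict z).toOpenPartialHomeomorph w, (hstrict z).mem_toOpenPartialHomeomorph_source, rfl⟩
  have hprop : IsProperMap w := by
    rw [isProperMap_iff_tendsto_cocompact]
    refine ⟨hcont, ?_⟩
    rw [← Metric.cobounded_eq_cocompact, ← tendsto_norm_atTop_iff_cobounded]
    refine tendsto_atTop_mono (f := fun z : ℂ => ‖z‖ + -C) (fun z => ?_)
      (tendsto_atTop_add_const_right _ _ tendsto_norm_cobounded_atTop)
    have h4 : ‖z‖ ≤ ‖w z‖ + ‖w z - z‖ := by
      have := norm_sub_le (w z) (w z - z)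
      simpa using this
    linarith [h3 z]
  have hclosed : IsClosedMap w := hprop.isClosedMap
  have hfin : ∀ x, (w ⁻¹' {x}).Finite := by
    intro x
    have hc : IsCompact (w ⁻¹' {x}) := hprop.isCompact_preimage isCompact_singleton
    have hd : IsDiscrete (w ⁻¹' {x}) := IsDiscrete.of_openPartialHomeomorph w subset_rfl
      (fun e _ => by obtain ⟨φ, hφ, hφ'⟩ := hloc e; exact ⟨φ, hφ, hφ'.symm⟩)
    exact hc.finite hd
  have hcov : IsCoveringMap w := by
    rw [isCoveringMap_iff_isCoveringMapOn_univ]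
    refine hclosed.isCoveringMapOn_of_isLocalHomeomorphOn (fun x _ => hfin x) ?_
    intro z _
    exact hloc z
  obtain ⟨s, ⟨hs0, hs⟩, -⟩ := hcov.existsUnique_continuousMap_lifts
    (ContinuousMap.id ℂ) (w 0) 0 rfl
  have hws : ∀ z, w (s z) = z := fun z => congrFun hs z
  have hsw : ∀ z, s (w z) = z := by
    have := hcov.eq_of_comp_eq (g₁ := fun z => s (w z)) (g₂ := fun z => z)
      (s.continuous.comp hcont) continuous_id (by ext z; simp [hws]) 0 (by simpa using hs0)
    exact fun z => congrFun this z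
  let e : ℂ ≃ₜ ℂ :=
    { toFun := w
      invFun := s
      left_inv := hsw
      right_inv := hws
      continuous_toFun := hcont
      continuous_invFun := s.continuous }
  refine ⟨e, fun z => rfl, ?_⟩
  rw [contDiff_iff_contDiffAt]
  intro y
  have := OpenPartialHomeomorph.contDiffAt_symm (n := ∞) e.toOpenPartialHomeomorph (a := y)
    (f₀' := ContinuousLinearMap.toContinuousLinearEquivOfDetNeZero (fderiv ℝ w (s y)) (hdet (s y)))
    (mem_univ _) (hstrict (s y)).hasFDerivAt (hw.contDiffAt)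
  exact this

end Pool.Agent.QCD
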