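import Pool.Agent.Lib.MP_f30fea_an.Base

/-!
# The Cauchy transform of bounded functions with bounded support

`‖ζ‖⁻¹` is locally integrable in the plane (polar coordinates: the integral over the disc of radius
`r` is `2πr`).  `cau_decay`: for `‖z‖ ≤ 2 r + 1` the integral of `M / ‖z - ζ‖` over the disc of
radius `r` is at most the integral over the disc of radius `‖z‖ + r` about `z`; for larger `‖z‖` use
`‖z - ζ‖ ≥ ‖z‖ / 2`.  Continuity: split the kernel into the part near `0` (small in `L¹`) and the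
rest, or dominated convergence after the substitution `ζ ↦ z - ζ`, or
`MeasureTheory.continuous_of_...`: convolution of an `L¹_loc` kernel with a bounded function
(`cau f z = π⁻¹ ∫ f (z - ζ) / ζ`; continuity in `z` since the kernel `1/ζ` cut off at a large radius
is in `L¹` and translation is continuous in `L¹`, or by the estimate
`|1/(z-ζ) - 1/(z'-ζ)| ≤ |z-z'| / (|z-ζ| |z'-ζ|)`, whose integral over a disc is `≤ C |z-z'| log`).
-/

open Complex MeasureTheory Filter Topology Set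
open scoped ContDiff ENNReal ComplexConjugate

noncomputable section

namespace Pool.Agent.QCD

/-- the cut off kernel -/
private def cbKer (R : ℝ) (y : ℝ) : ℝ := if y ≤ R then y⁻¹ else 0

private lemma cb_ker_int (R : ℝ) : Integrable (fun ζ : ℂ => cbKer R ‖ζ‖) := by
  rw [integrable_fun_norm_addHaar (μ := (volume : Measure ℂ)) (f := cbKer R)]
  have h1 : IntegrableOn (fun _ : ℝ => (1 : ℝ)) (Ioc 0 R) := by
    rw [integrableOn_const_iff]
    right
    rw [Real.volume_Ioc]
    exact ENNReal.ofReal_lt_top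
  have h2 : IntegrableOn ((Ioc 0 R).indicator fun _ : ℝ => (1 : ℝ)) (Ioi 0) :=
    (h1.integrable_indicator measurableSet_Ioc).integrableOn
  refine h2.congr_fun (fun y hy => ?_) measurableSet_Ioi
  have hy0 : (0 : ℝ) < y := hy
  simp only [Complex.finrank_real_complex, cbKer, indicator, Set.mem_Ioc, hy0, true_and, smul_eq_mul]
  split_ifs with h
  · field_simp
    norm_num
  · simp

private lemma cb_ker_integral {R : ℝ} (hR : 0 ≤ R) :
    ∫ ζ : ℂ, cbKer R ‖ζ‖ = 2 * Real.pi * R := by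
  rw [integral_fun_norm_addHaar (μ := (volume : Measure ℂ)) (f := cbKer R)]
  have h2 : ∫ y in Ioi (0 : ℝ), y ^ (Module.finrank ℝ ℂ - 1) • cbKer R y =
      ∫ y in Ioi (0 : ℝ), (Ioc 0 R).indicator (fun _ : ℝ => (1 : ℝ)) y := by
    refine setIntegral_congr_fun measurableSet_Ioi (fun y hy => ?_)
    have hy0 : (0 : ℝ) < y := hy
    simp only [Complex.finrank_real_complex, cbKer, indicator, Set.mem_Ioc, hy0, true_and,
      smul_eq_mul]
    split_ifs with h
    · field_simp
      norm_num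
    · simp
  have h3 : (Ioi (0 : ℝ)) ∩ Ioc 0 R = Ioc 0 R :=
    Set.inter_eq_self_of_subset_right Set.Ioc_subset_Ioi_self
  have h4 : (volume : Measure ℂ).real (Metric.ball 0 1) = Real.pi := by
    rw [Measure.real, Complex.volume_ball]
    simp
  rw [h2, setIntegral_indicator measurableSet_Ioc, h3, h4]
  simp only [Complex.finrank_real_complex, integral_const, smul_eq_mul, mul_one, nsmul_eq_mul]
  rw [measureReal_restrict_apply_univ, Real.volume_real_Ioc_of_le hR]
  push_cast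
  ring

private lemma cb_ker_nonneg (R : ℝ) (ζ : ℂ) : 0 ≤ cbKer R ‖ζ‖ := by
  unfold cbKer
  split_ifs
  · positivity
  · exact le_rfl

private lemma cb_ker_sub_int (R : ℝ) (z : ℂ) : Integrable (fun ζ : ℂ => cbKer R ‖z - ζ‖) :=
  (cb_ker_int R).comp_sub_left z

private lemma cb_ker_sub_integral {R : ℝ} (hR : 0 ≤ R) (z : ℂ) :
    ∫ ζ : ℂ, cbKer R ‖z - ζ‖ = 2 * Real.pi * R := by
  rw [← cb_ker_integral hR]
  exact integral_sub_left_eq_self (fun ζ : ℂ => cbKer R ‖ζ‖) volume z

private lemma cb_M_nonneg {f : ℂ → ℂ} {M : ℝ} (hM : ∀ z, ‖f z‖ ≤ M) : 0 ≤ M :=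
  (norm_nonneg _).trans (hM 0)

private lemma cb_bound {f : ℂ → ℂ} {M r : ℝ} (hM : ∀ z, ‖f z‖ ≤ M)
    (hr : ∀ z, r < ‖z‖ → f z = 0) (z ζ : ℂ) :
    ‖f ζ / (z - ζ)‖ ≤ M * cbKer (‖z‖ + |r|) ‖z - ζ‖ := by
  have hM0 := cb_M_nonneg hM
  by_cases h : r < ‖ζ‖
  · rw [hr ζ h, zero_div, norm_zero]
    exact mul_nonneg hM0 (cb_ker_nonneg _ _)
  · have h1 : ‖z - ζ‖ ≤ ‖z‖ + |r| := by
      have h2 := norm_sub_le z ζ
      have h3 := le_abs_self r
      linarith [not_lt.1 h]
    rw [cbKer, if_pos h1, norm_div, div_eq_mul_inv]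
    exact mul_le_mul_of_nonneg_right (hM ζ) (by positivity)

theorem cau_integrable {f : ℂ → ℂ} (hf : Measurable f) {M r : ℝ} (hM : ∀ z, ‖f z‖ ≤ M)
    (hr : ∀ z, r < ‖z‖ → f z = 0) (z : ℂ) : Integrable (fun ζ => f ζ / (z - ζ)) := by
  refine ((cb_ker_sub_int (‖z‖ + |r|) z).const_mul M).mono'
    (hf.div (measurable_const.sub measurable_id)).aestronglyMeasurable ?_
  exact Filter.Eventually.of_forall fun ζ => cb_bound hM hr z ζ

theorem cau_decay (M r : ℝ) : ∃ C, ∀ f : ℂ → ℂ, Measurable f → (∀ z, ‖f z‖ ≤ M) →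
    (∀ z, r < ‖z‖ → f z = 0) → ∀ z, ‖cau f z‖ ≤ C / (1 + ‖z‖) := by
  refine ⟨2 * M * (3 * |r| + 1) * (2 * |r| + 2) + 4 * M * |r| ^ 2, fun f hf hM hr z => ?_⟩
  have hM0 := cb_M_nonneg hM
  have hr0 := abs_nonneg r
  have hz0 := norm_nonneg z
  have hpi := Real.pi_pos
  have h1 : ‖cau f z‖ ≤ Real.pi⁻¹ * ∫ ζ, ‖f ζ / (z - ζ)‖ := by
    rw [cau, norm_mul, norm_inv, Complex.norm_real, Real.norm_of_nonneg hpi.le]
    exact mul_le_mul_of_nonneg_left (norm_integral_le_integral_norm _) (by positivity)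
  rw [le_div_iff₀ (by positivity)]
  rcases le_or_gt ‖z‖ (2 * |r| + 1) with h | h
  · have h2 : ∫ ζ, ‖f ζ / (z - ζ)‖ ≤ M * (2 * Real.pi * (‖z‖ + |r|)) := by
      rw [← cb_ker_sub_integral (by positivity : 0 ≤ ‖z‖ + |r|) z, ← integral_const_mul]
      exact integral_mono (cau_integrable hf hM hr z).norm
        ((cb_ker_sub_int _ z).const_mul M) fun ζ => cb_bound hM hr z ζ
    have h3 : ‖cau f z‖ ≤ 2 * M * (‖z‖ + |r|) := by
      refine h1.trans ((mul_le_mul_of_nonneg_left h2 (by positivity)).trans (le_of_eq ?_))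
      field_simp
    have h4 : ‖cau f z‖ ≤ 2 * M * (3 * |r| + 1) := by
      refine h3.trans (mul_le_mul_of_nonneg_left ?_ (by positivity))
      linarith
    have h5 : ‖cau f z‖ * (1 + ‖z‖) ≤ 2 * M * (3 * |r| + 1) * (2 * |r| + 2) :=
      mul_le_mul h4 (by linarith) (by positivity) (by positivity)
    have h6 : 0 ≤ 4 * M * |r| ^ 2 := by positivity
    linarith
  · have h2 : ∀ ζ, ‖f ζ / (z - ζ)‖ ≤
        (Metric.closedBall (0 : ℂ) |r|).indicator (fun _ => 4 * M / (1 + ‖z‖)) ζ := by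
      intro ζ
      by_cases hζ : r < ‖ζ‖
      · rw [hr ζ hζ, zero_div, norm_zero]
        exact indicator_nonneg (fun _ _ => by positivity) _
      · have h7 : ‖ζ‖ ≤ |r| := (not_lt.1 hζ).trans (le_abs_self r)
        rw [indicator_of_mem (by simpa using h7), norm_div]
        have h8 : (1 + ‖z‖) / 4 ≤ ‖z - ζ‖ := by
          have := norm_sub_norm_le z ζ
          linarith
        have h9 : (0 : ℝ) < (1 + ‖z‖) / 4 := by positivity
        calc ‖f ζ‖ / ‖z - ζ‖ ≤ M / ((1 + ‖z‖) / 4) := div_le_div₀ hM0 (hM ζ) h9 h8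
          _ = 4 * M / (1 + ‖z‖) := by field_simp
    have h4 : (volume : Measure ℂ).real (Metric.closedBall 0 |r|) = Real.pi * |r| ^ 2 := by
      rw [Measure.real, Complex.volume_closedBall]
      simp only [ENNReal.toReal_mul, ENNReal.toReal_pow, ENNReal.toReal_ofReal hr0,
        ENNReal.coe_toReal, NNReal.coe_real_pi]
      ring
    have h3 : ∫ ζ, ‖f ζ / (z - ζ)‖ ≤ Real.pi * |r| ^ 2 * (4 * M / (1 + ‖z‖)) := by
      have h5 : ∫ ζ, (Metric.closedBall (0 : ℂ) |r|).indicator (fun _ => 4 * M / (1 + ‖z‖)) ζ =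
          Real.pi * |r| ^ 2 * (4 * M / (1 + ‖z‖)) := by
        rw [integral_indicator Metric.isClosed_closedBall.measurableSet, integral_const,
          measureReal_restrict_apply_univ, h4, smul_eq_mul]
      rw [← h5]
      refine integral_mono (cau_integrable hf hM hr z).norm ?_ h2
      refine IntegrableOn.integrable_indicator ?_ Metric.isClosed_closedBall.measurableSet
      exact integrableOn_const (isCompact_closedBall _ _).measure_lt_top.ne
    have h5 : ‖cau f z‖ ≤ 4 * M * |r| ^ 2 / (1 + ‖z‖) := by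
      refine h1.trans ((mul_le_mul_of_nonneg_left h3 (by positivity)).trans (le_of_eq ?_))
      field_simp
    rw [le_div_iff₀ (by positivity)] at h5
    have h6 : 0 ≤ 2 * M * (3 * |r| + 1) * (2 * |r| + 2) := by positivity
    linarith

/-- the continuous kernel which agrees with `1 / w` for `‖w‖ ≥ ε` -/
private def cbReg (ε : ℝ) (w : ℂ) : ℂ := conj w / ((max ‖w‖ ε ^ 2 : ℝ) : ℂ)

private lemma cb_reg_cont {ε : ℝ} (hε : 0 < ε) : Continuous (cbReg ε) := by
  unfold cbReg
  refine Continuous.div (by fun_prop) (by fun_prop) fun w => ?_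
  have h1 : 0 < max ‖w‖ ε := lt_max_of_lt_right hε
  exact_mod_cast (pow_pos h1 2).ne'

private lemma cb_reg_norm {ε : ℝ} (hε : 0 < ε) (w : ℂ) : ‖cbReg ε w‖ ≤ 1 / ε := by
  have h1 : 0 < max ‖w‖ ε := lt_max_of_lt_right hε
  rw [cbReg, norm_div, Complex.norm_real, Real.norm_of_nonneg (by positivity), RCLike.norm_conj,
    div_le_div_iff₀ (by positivity) hε]
  have h2 : ‖w‖ ≤ max ‖w‖ ε := le_max_left _ _
  have h3 : ε ≤ max ‖w‖ ε := le_max_right _ _
  have h4 := norm_nonneg w
  nlinarith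

private lemma cb_reg_sub {ε : ℝ} (hε : 0 < ε) (w : ℂ) : ‖w⁻¹ - cbReg ε w‖ ≤ cbKer ε ‖w‖ := by
  rcases eq_or_ne w 0 with rfl | hw
  · simp [cbReg, cbKer, hε.le]
  have hw0 : 0 < ‖w‖ := norm_pos_iff.2 hw
  have h0 : w⁻¹ = conj w / ((‖w‖ ^ 2 : ℝ) : ℂ) := by
    rw [Complex.inv_def, Complex.normSq_eq_norm_sq, div_eq_mul_inv]
    push_cast
    rfl
  rcases le_or_gt ‖w‖ ε with h | h
  · rw [cbKer, if_pos h, h0, cbReg, max_eq_right h, ← mul_one_div (conj w), ← mul_one_div (conj w),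
      ← mul_sub, norm_mul, RCLike.norm_conj]
    have h2 : (1 : ℂ) / ((‖w‖ ^ 2 : ℝ) : ℂ) - 1 / ((ε ^ 2 : ℝ) : ℂ) =
        ((1 / ‖w‖ ^ 2 - 1 / ε ^ 2 : ℝ) : ℂ) := by
      push_cast
      ring
    rw [h2, Complex.norm_real, Real.norm_of_nonneg]
    · have h3 : 0 ≤ 1 / ε ^ 2 := by positivity
      calc ‖w‖ * (1 / ‖w‖ ^ 2 - 1 / ε ^ 2) ≤ ‖w‖ * (1 / ‖w‖ ^ 2) :=
            mul_le_mul_of_nonneg_left (by linarith) hw0.le
        _ = ‖w‖⁻¹ := by field_simp
    · rw [sub_nonneg]
      exact one_div_le_one_div_of_le (by positivity) (by gcongr)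
  · rw [cbKer, if_neg (not_le.2 h), h0, cbReg, max_eq_left h.le, sub_self, norm_zero]

private lemma cb_f_int {f : ℂ → ℂ} (hf : Measurable f) {M r : ℝ} (hM : ∀ z, ‖f z‖ ≤ M)
    (hr : ∀ z, r < ‖z‖ → f z = 0) : Integrable (fun ζ => ‖f ζ‖) := by
  have h0 : IntegrableOn (fun _ : ℂ => M) (Metric.closedBall (0 : ℂ) r) :=
    integrableOn_const (isCompact_closedBall _ _).measure_lt_top.ne
  refine (h0.integrable_indicator Metric.isClosed_closedBall.measurableSet).mono'
    hf.norm.aestronglyMeasurable (Filter.Eventually.of_forall fun ζ => ?_)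
  have hM0 := cb_M_nonneg hM
  rw [norm_norm]
  by_cases hζ : r < ‖ζ‖
  · rw [hr ζ hζ, norm_zero]
    exact indicator_nonneg (fun _ _ => hM0) _
  · rw [indicator_of_mem (by simpa using not_lt.1 hζ)]
    exact hM ζ

theorem cau_continuous {f : ℂ → ℂ} (hf : Measurable f) {M r : ℝ} (hM : ∀ z, ‖f z‖ ≤ M)
    (hr : ∀ z, r < ‖z‖ → f z = 0) : Continuous (cau f) := by
  have hM0 := cb_M_nonneg hM
  unfold cau
  refine continuous_const.mul ?_
  refine continuous_of_uniform_approx_of_continuous fun u hu => ?_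
  obtain ⟨δ, hδ, hu⟩ := Metric.mem_uniformity_dist.1 hu
  set ε : ℝ := δ / (2 * (M + 1) * (2 * Real.pi)) with hεdef
  have hpi := Real.pi_pos
  have hε : 0 < ε := by positivity
  refine ⟨fun z => ∫ ζ, f ζ * cbReg ε (z - ζ), ?_, fun z => hu ?_⟩
  · refine continuous_of_dominated (bound := fun ζ => ‖f ζ‖ * (1 / ε)) ?_ ?_
      ((cb_f_int hf hM hr).mul_const _) ?_
    · intro z
      exact (hf.mul (((cb_reg_cont hε).comp (continuous_const.sub continuous_id)).measurable)).aestronglyMeasurable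
    · intro z
      refine Filter.Eventually.of_forall fun ζ => ?_
      rw [norm_mul]
      exact mul_le_mul_of_nonneg_left (cb_reg_norm hε _) (norm_nonneg _)
    · refine Filter.Eventually.of_forall fun ζ => ?_
      exact continuous_const.mul ((cb_reg_cont hε).comp (continuous_id.sub continuous_const))
  · have hi : Integrable (fun ζ => f ζ * cbReg ε (z - ζ)) := by
      refine ((cb_f_int hf hM hr).mul_const (1 / ε)).mono'
        (hf.mul (((cb_reg_cont hε).comp (continuous_const.sub continuous_id)).measurable)).aestronglyMeasurable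
        (Filter.Eventually.of_forall fun ζ => ?_)
      rw [norm_mul]
      exact mul_le_mul_of_nonneg_left (cb_reg_norm hε _) (norm_nonneg _)
    rw [dist_eq_norm, ← integral_sub (cau_integrable hf hM hr z) hi]
    have h1 : ‖∫ ζ, (f ζ / (z - ζ) - f ζ * cbReg ε (z - ζ))‖ ≤ ∫ ζ, M * cbKer ε ‖z - ζ‖ := by
      refine norm_integral_le_of_norm_le ((cb_ker_sub_int ε z).const_mul M)
        (Filter.Eventually.of_forall fun ζ => ?_)
      rw [div_eq_mul_inv, ← mul_sub, norm_mul]
      exact mul_le_mul (hM ζ) (cb_reg_sub hε _) (norm_nonneg _) hM0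
    rw [integral_const_mul, cb_ker_sub_integral hε.le] at h1
    refine h1.trans_lt ?_
    have h2 : M * (2 * Real.pi * ε) = M / (M + 1) * (δ / 2) := by
      rw [hεdef]
      field_simp
    rw [h2]
    have h3 : M / (M + 1) ≤ 1 := by
      rw [div_le_one (by positivity)]
      linarith
    have h4 : 0 ≤ M / (M + 1) := by positivity
    nlinarith

/-- outside the support the Cauchy transform is holomorphic -/
theorem cau_hasDerivAt {f : ℂ → ℂ} (hf : Measurable f) {M r : ℝ} (hM : ∀ z, ‖f z‖ ≤ M)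
    (hr : ∀ z, r < ‖z‖ → f z = 0) {z : ℂ} {ε : ℝ} (hε : 0 < ε) (hz : ∀ ζ, ‖ζ - z‖ < ε → f ζ = 0) :
    HasDerivAt (cau f) (-(Real.pi : ℂ)⁻¹ * ∫ ζ, f ζ / (ζ - z) ^ 2) z := by
  have hM0 := cb_M_nonneg hM
  have key := hasDerivAt_integral_of_dominated_loc_of_deriv_le (μ := (volume : Measure ℂ))
    (F := fun z' ζ => f ζ / (z' - ζ)) (F' := fun z' ζ => -(f ζ / (z' - ζ) ^ 2)) (x₀ := z)
    (s := Metric.ball z (ε / 2)) (bound := fun ζ => ‖f ζ‖ * (1 / (ε / 2) ^ 2))
    (Metric.ball_mem_nhds z (by positivity)) ?_ (cau_integrable hf hM hr z) ?_ ?_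
    ((cb_f_int hf hM hr).mul_const _) ?_
  · have h1 := key.2.const_mul ((Real.pi : ℂ)⁻¹)
    have h2 : (Real.pi : ℂ)⁻¹ * ∫ ζ, -(f ζ / (z - ζ) ^ 2) =
        -(Real.pi : ℂ)⁻¹ * ∫ ζ, f ζ / (ζ - z) ^ 2 := by
      rw [integral_neg, mul_neg, neg_mul]
      congr 3
      funext ζ
      rw [← neg_sub ζ z, neg_sq]
    rw [h2] at h1
    exact h1
  · exact Filter.Eventually.of_forall fun z' =>
      (hf.div (measurable_const.sub measurable_id)).aestronglyMeasurable
  · exact (hf.div ((measurable_const.sub measurable_id).pow_const 2)).neg.aestronglyMeasurable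
  · refine Filter.Eventually.of_forall fun ζ z' hz' => ?_
    rw [Metric.mem_ball, dist_eq_norm] at hz'
    rw [norm_neg, norm_div, norm_pow]
    rcases lt_or_ge ‖ζ - z‖ ε with h | h
    · rw [hz ζ h, norm_zero, zero_div, zero_mul]
    · have h1 : ε / 2 ≤ ‖z' - ζ‖ := by
        have h2 : ‖ζ - z‖ ≤ ‖z' - ζ‖ + ‖z' - z‖ := by
          have h3 : ζ - z = (z' - z) - (z' - ζ) := by ring
          rw [h3]
          have := norm_sub_le (z' - z) (z' - ζ)
          linarith
        linarith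
      rw [← mul_one_div]
      refine mul_le_mul_of_nonneg_left ?_ (norm_nonneg _)
      exact one_div_le_one_div_of_le (by positivity) (by gcongr)
  · refine Filter.Eventually.of_forall fun ζ z' hz' => ?_
    rw [Metric.mem_ball, dist_eq_norm] at hz'
    rcases lt_or_ge ‖ζ - z‖ ε with h | h
    · simp only [hz ζ h, zero_div, neg_zero]
      exact hasDerivAt_const _ _
    · have h1 : z' - ζ ≠ 0 := by
        intro h0
        rw [sub_eq_zero] at h0
        rw [h0] at hz'
        linarith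
      have h2 := (((hasDerivAt_id z').sub_const ζ).inv h1).const_mul (f ζ)
      refine h2.congr_deriv ?_
      simp only [id_eq]
      ring

end Pool.Agent.QCD
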