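import Pool.Agent.Lib.MP_f30fea_an.Base
import Pool.Agent.Lib.MP_f30fea_an.Wirt
import Pool.Agent.Lib.MP_f30fea_an.CauBasic

/-!
# The Cauchy transform of test functions

`cau f z = π⁻¹ ∫ f (z - ζ) / ζ dζ`: a convolution of the locally integrable kernel `ζ⁻¹` with a test
function, so it is smooth and derivatives fall on `f`
(`HasCompactSupport.contDiff_convolution_right`, `HasCompactSupport.hasFDerivAt_convolution_right`).
`cau_dzb` (fundamental solution): `∫ dzb φ ζ / ζ dζ = -π φ 0` for test `φ`: replace `ζ⁻¹` by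
`conj ζ / (|ζ|² + δ²)`, whose `dzb` is `δ² / (|ζ|² + δ²)²`, and let `δ → 0`.
`cau_decay_two`: outside the support `cau (dz f) = dz (cau f) = (cau f)'` is given by
`cau_hasDerivAt`, which is `O(‖z‖⁻²)`.
-/

open Complex MeasureTheory Filter Topology Set
open scoped ContDiff ENNReal ComplexConjugate

noncomputable section

namespace Pool.Agent.QCD

open Convolution

private def ker (ζ : ℂ) : ℂ := (Real.pi : ℂ)⁻¹ * ζ⁻¹

private theorem ker_locInt : LocallyIntegrable ker volume := by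
  rw [locallyIntegrable_iff]
  intro K hK
  obtain ⟨R, hR⟩ := hK.isBounded.subset_closedBall 0
  have h1 := cau_integrable (f := (Metric.closedBall (0 : ℂ) R).indicator fun _ => (1 : ℂ))
    (measurable_const.indicator Metric.isClosed_closedBall.measurableSet) (M := 1) (r := R)
    (fun z => by
      by_cases hz : z ∈ Metric.closedBall (0 : ℂ) R
      · rw [indicator_of_mem hz]; simp
      · rw [indicator_of_notMem hz]; simp)
    (fun z hz => indicator_of_notMem (by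
      rw [mem_closedBall_zero_iff]
      exact not_le.2 hz) _) 0
  have h2 : IntegrableOn (fun ζ : ℂ => ζ⁻¹) (Metric.closedBall 0 R) := by
    rw [← integrable_indicator_iff Metric.isClosed_closedBall.measurableSet]
    have h3 := h1.neg
    refine h3.congr (ae_of_all _ fun ζ => ?_)
    by_cases hz : ζ ∈ Metric.closedBall (0 : ℂ) R
    · simp [indicator_of_mem hz, div_neg]
    · simp [indicator_of_notMem hz]
  exact (h2.mono_set hR).const_mul _

private theorem cau_eq_conv (f : ℂ → ℂ) :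
    cau f = ker ⋆[ContinuousLinearMap.mul ℝ ℂ, volume] f := by
  funext z
  unfold cau
  rw [convolution_def, ← integral_const_mul, ← integral_sub_left_eq_self
    (fun ζ => (Real.pi : ℂ)⁻¹ * (f ζ / (z - ζ))) volume z]
  refine integral_congr_ae (ae_of_all _ fun t => ?_)
  simp only [ker, ContinuousLinearMap.mul_apply', sub_sub_cancel]
  rw [div_eq_mul_inv]
  ring

theorem cau_smooth {f : ℂ → ℂ} (hf : IsTest f) : ContDiff ℝ ∞ (cau f) := by
  rw [cau_eq_conv]
  exact hf.2.contDiff_convolution_right _ ker_locInt hf.1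

private theorem test_cau_int {f : ℂ → ℂ} (hf : Continuous f) (hs : HasCompactSupport f) (z : ℂ) :
    Integrable (fun ζ => f ζ / (z - ζ)) := by
  obtain ⟨M, hM⟩ := hs.exists_bound_of_continuous hf
  obtain ⟨r, hr⟩ := hs.isCompact.isBounded.subset_closedBall 0
  refine cau_integrable hf.measurable hM (r := r) (fun z hz => ?_) z
  by_contra h0
  have h1 := hr (subset_tsupport f h0)
  rw [mem_closedBall_zero_iff] at h1
  linarith

private theorem cau_lin {a b : ℂ → ℂ} (ha : Continuous a) (has : HasCompactSupport a)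
    (hb : Continuous b) (hbs : HasCompactSupport b) (c z : ℂ) :
    cau (fun ζ => (a ζ + c * b ζ) / 2) z = (cau a z + c * cau b z) / 2 := by
  unfold cau
  have h1 : ∀ ζ, (a ζ + c * b ζ) / 2 / (z - ζ) = (2 : ℂ)⁻¹ * (a ζ / (z - ζ)) +
      (2 : ℂ)⁻¹ * c * (b ζ / (z - ζ)) := fun ζ => by ring
  simp only [h1]
  rw [integral_add ((test_cau_int ha has z).const_mul _) ((test_cau_int hb hbs z).const_mul _),
    integral_const_mul, integral_const_mul]
  ring

private theorem fderiv_cau {f : ℂ → ℂ} (hf : IsTest f) (z v : ℂ) :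
    fderiv ℝ (cau f) z v = cau (fun ζ => fderiv ℝ f ζ v) z := by
  have h1 := hf.2.hasFDerivAt_convolution_right (ContinuousLinearMap.mul ℝ ℂ) ker_locInt
    (hf.1.of_le (by exact WithTop.coe_le_coe.2 le_top)) z
  rw [cau_eq_conv f, h1.fderiv, convolution_precompR_apply _ ker_locInt (hf.2.fderiv ℝ)
    ((hf.1.fderiv_right (m := ∞) (by simp)).continuous), cau_eq_conv]

private theorem fd_cont {f : ℂ → ℂ} (hf : IsTest f) (v : ℂ) :
    Continuous (fun z => fderiv ℝ f z v) :=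
  ((hf.1.fderiv_right (m := ∞) (by simp)).clm_apply contDiff_const).continuous

private theorem fd_supp {f : ℂ → ℂ} (hf : IsTest f) (v : ℂ) :
    HasCompactSupport (fun z => fderiv ℝ f z v) :=
  (hf.2.fderiv ℝ).comp_left (g := fun L : ℂ →L[ℝ] ℂ => L v) (by simp)

theorem dz_cau {f : ℂ → ℂ} (hf : IsTest f) : dz (cau f) = cau (dz f) := by
  funext z
  have h := cau_lin (fd_cont hf 1) (fd_supp hf 1) (fd_cont hf I) (fd_supp hf I) (-I) z
  have e : dz f = fun ζ => (fderiv ℝ f ζ 1 + -I * fderiv ℝ f ζ I) / 2 := by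
    funext ζ
    unfold dz
    ring
  rw [e, h, ← fderiv_cau hf, ← fderiv_cau hf]
  unfold dz
  ring

theorem dzb_cau' {f : ℂ → ℂ} (hf : IsTest f) : dzb (cau f) = cau (dzb f) := by
  funext z
  have h := cau_lin (fd_cont hf 1) (fd_supp hf 1) (fd_cont hf I) (fd_supp hf I) I z
  have e : dzb f = fun ζ => (fderiv ℝ f ζ 1 + I * fderiv ℝ f ζ I) / 2 := rfl
  rw [e, h, ← fderiv_cau hf, ← fderiv_cau hf]
  rfl

/-! ### the fundamental solution -/

private def Dd (δ : ℝ) (ζ : ℂ) : ℂ := ζ * conj ζ + (δ : ℂ) ^ 2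

private theorem Dd_eq (δ : ℝ) (ζ : ℂ) : Dd δ ζ = ((‖ζ‖ ^ 2 + δ ^ 2 : ℝ) : ℂ) := by
  unfold Dd
  rw [Complex.mul_conj']
  push_cast
  rfl

private theorem Dd_ne {δ : ℝ} (hδ : 0 < δ) (ζ : ℂ) : Dd δ ζ ≠ 0 := by
  rw [Dd_eq]
  exact_mod_cast (by positivity : (0 : ℝ) < ‖ζ‖ ^ 2 + δ ^ 2).ne'

private def Kd (δ : ℝ) (ζ : ℂ) : ℂ := conj ζ * (Dd δ ζ)⁻¹

private theorem conj_smooth : ContDiff ℝ ∞ (fun ζ : ℂ => conj ζ) :=
  (Complex.conjCLE : ℂ →L[ℝ] ℂ).contDiff

private theorem Dd_smooth (δ : ℝ) : ContDiff ℝ ∞ (Dd δ) :=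
  (contDiff_id.mul conj_smooth).add contDiff_const

private theorem Kd_smooth {δ : ℝ} (hδ : 0 < δ) : ContDiff ℝ ∞ (Kd δ) :=
  conj_smooth.mul ((Dd_smooth δ).inv (Dd_ne hδ))

private theorem dzb_id (z : ℂ) : dzb (fun ζ : ℂ => ζ) z = 0 :=
  dzb_of_holo differentiableAt_id

private theorem dzb_conj_id (z : ℂ) : dzb (fun ζ : ℂ => conj ζ) z = 1 := by
  have h := dzb_conj (f := fun ζ : ℂ => ζ) (z := z) differentiableAt_id
  have h2 : dz (fun ζ : ℂ => ζ) z = deriv (fun ζ : ℂ => ζ) z := dz_of_holo differentiableAt_id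
  rw [h, h2]
  simp

private theorem dzb_Dd (δ : ℝ) (z : ℂ) : dzb (Dd δ) z = z := by
  have e : Dd δ = fun ζ => (fun ζ : ℂ => ζ * conj ζ) ζ + (fun _ : ℂ => (δ : ℂ) ^ 2) ζ := rfl
  have hc : DifferentiableAt ℝ (fun ζ : ℂ => conj ζ) z := conj_smooth.differentiable (by simp) z
  have hi : DifferentiableAt ℝ (fun ζ : ℂ => ζ) z := differentiableAt_id
  have h1 := dzb_add (f := fun ζ : ℂ => ζ * conj ζ) (g := fun _ : ℂ => (δ : ℂ) ^ 2) (z := z)
    (hi.mul hc) (differentiableAt_const _)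
  have h2 := dzb_mul (f := fun ζ : ℂ => ζ) (g := fun ζ : ℂ => conj ζ) (z := z) hi hc
  have h3 : dzb (fun _ : ℂ => (δ : ℂ) ^ 2) z = 0 := dzb_of_holo (differentiableAt_const _)
  rw [e]
  refine h1.trans ?_
  rw [h2, h3, dzb_id, dzb_conj_id]
  ring

private theorem dzb_Kd {δ : ℝ} (hδ : 0 < δ) (z : ℂ) :
    dzb (Kd δ) z = (δ : ℂ) ^ 2 / (Dd δ z) ^ 2 := by
  have hD := Dd_ne hδ z
  have h1 : (fun ζ => Kd δ ζ * Dd δ ζ) = fun ζ : ℂ => conj ζ := by
    funext ζ
    unfold Kd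
    rw [mul_assoc, inv_mul_cancel₀ (Dd_ne hδ ζ), mul_one]
  have h2 := dzb_mul (f := Kd δ) (g := Dd δ) (z := z) ((Kd_smooth hδ).differentiable (by simp) z)
    ((Dd_smooth δ).differentiable (by simp) z)
  rw [h1, dzb_conj_id, dzb_Dd] at h2
  have h3 : Kd δ z * Dd δ z = conj z := congrFun h1 z
  have h4 : Dd δ z = z * conj z + (δ : ℂ) ^ 2 := rfl
  rw [eq_div_iff (pow_ne_zero 2 hD)]
  have h5 : dzb (Kd δ) z * Dd δ z = 1 - Kd δ z * z := by
    rw [h2]
    ring
  calc dzb (Kd δ) z * Dd δ z ^ 2 = (dzb (Kd δ) z * Dd δ z) * Dd δ z := by ring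
    _ = Dd δ z - z * (Kd δ z * Dd δ z) := by rw [h5]; ring
    _ = (δ : ℂ) ^ 2 := by rw [h3, h4]; ring

private theorem radial_integral : ∫ u : ℂ, ((1 + ‖u‖ ^ 2) ^ 2)⁻¹ = Real.pi := by
  have h1 := integral_fun_norm_addHaar (volume : Measure ℂ) (fun y : ℝ => ((1 + y ^ 2) ^ 2)⁻¹)
  have h2 : ∫ y in Ioi (0 : ℝ), y / (1 + y ^ 2) ^ 2 = 1 / 2 := by
    have hpos : ∀ y : ℝ, (0 : ℝ) < 1 + y ^ 2 := fun y => by positivity
    have hd : ∀ y ∈ Ici (0 : ℝ), HasDerivAt (fun y : ℝ => -(1 / 2) * (1 + y ^ 2)⁻¹)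
        (y / (1 + y ^ 2) ^ 2) y := by
      intro y _
      have g1 : HasDerivAt (fun y : ℝ => 1 + y ^ 2) (2 * y) y := by
        simpa using ((hasDerivAt_pow 2 y).const_add 1)
      have g2 := (g1.inv (hpos y).ne').const_mul (-(1 / 2) : ℝ)
      refine g2.congr_deriv ?_
      have := (hpos y).ne'
      field_simp
    have ht : Tendsto (fun y : ℝ => -(1 / 2) * (1 + y ^ 2)⁻¹) atTop (𝓝 (-(1 / 2) * 0)) := by
      refine Tendsto.const_mul _ (tendsto_inv_atTop_zero.comp ?_)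
      exact tendsto_atTop_add_const_left _ _ (tendsto_pow_atTop two_ne_zero)
    have h3 := integral_Ioi_of_hasDerivAt_of_nonneg' hd (fun y hy => by
      have : (0 : ℝ) < y := hy
      positivity) ht
    rw [h3]
    norm_num
  have h4 : ∫ y in Ioi (0 : ℝ), y ^ (Module.finrank ℝ ℂ - 1) • ((1 + y ^ 2) ^ 2)⁻¹ = 1 / 2 := by
    rw [← h2, Complex.finrank_real_complex]
    refine setIntegral_congr_fun measurableSet_Ioi fun y _ => ?_
    simp [div_eq_mul_inv]
  rw [h1, h4, Complex.finrank_real_complex, measureReal_def, Complex.volume_ball]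
  simp
  ring

private theorem radial_integrable : Integrable (fun u : ℂ => ((1 + ‖u‖ ^ 2) ^ 2)⁻¹) := by
  by_contra h
  have h1 := integral_undef h
  rw [radial_integral] at h1
  exact Real.pi_ne_zero h1

private theorem scaled {φ : ℂ → ℂ} {δ : ℝ} (hδ : 0 < δ) :
    ∫ z, (δ : ℂ) ^ 2 / (Dd δ z) ^ 2 * φ z =
      ∫ u : ℂ, ((((1 + ‖u‖ ^ 2) ^ 2)⁻¹ : ℝ) : ℂ) * φ ((δ : ℂ) * u) := by
  have h1 := Measure.integral_comp_smul (volume : Measure ℂ)
    (fun z => (δ : ℂ) ^ 2 / (Dd δ z) ^ 2 * φ z) δ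
  rw [Complex.finrank_real_complex] at h1
  have h2 : ∫ z, (δ : ℂ) ^ 2 / (Dd δ z) ^ 2 * φ z = (δ ^ 2 : ℝ) •
      ∫ u : ℂ, (fun z => (δ : ℂ) ^ 2 / (Dd δ z) ^ 2 * φ z) (δ • u) := by
    rw [h1, smul_smul, abs_of_pos (by positivity), mul_inv_cancel₀ (by positivity), one_smul]
  rw [h2, ← integral_smul]
  refine integral_congr_ae (ae_of_all _ fun u => ?_)
  simp only [Complex.real_smul]
  rw [Dd_eq, norm_mul, Complex.norm_real, Real.norm_eq_abs, abs_of_pos hδ]
  have hd : (δ : ℂ) ≠ 0 := by exact_mod_cast hδ.ne'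
  have hu : ((1 : ℂ) + (‖u‖ : ℂ) ^ 2) ≠ 0 := by
    exact_mod_cast (by positivity : (0 : ℝ) < 1 + ‖u‖ ^ 2).ne'
  push_cast
  have e : ((δ : ℂ) * ‖u‖) ^ 2 + (δ : ℂ) ^ 2 = (δ : ℂ) ^ 2 * (1 + (‖u‖ : ℂ) ^ 2) := by ring
  rw [e]
  field_simp

private theorem tendsto_rhs {φ : ℂ → ℂ} (hφ : IsTest φ) :
    Tendsto (fun n : ℕ => ∫ u : ℂ, ((((1 + ‖u‖ ^ 2) ^ 2)⁻¹ : ℝ) : ℂ) *
      φ (((1 / ((n : ℝ) + 1) : ℝ) : ℂ) * u)) atTop (𝓝 ((Real.pi : ℂ) * φ 0)) := by
  obtain ⟨M, r, hM0, hr, hM, -⟩ := hφ.bound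
  have h0 : (Real.pi : ℂ) * φ 0 = ∫ u : ℂ, ((((1 + ‖u‖ ^ 2) ^ 2)⁻¹ : ℝ) : ℂ) * φ 0 := by
    rw [integral_mul_const]
    congr 1
    rw [← radial_integral]
    exact (integral_ofReal (f := fun u : ℂ => ((1 + ‖u‖ ^ 2) ^ 2)⁻¹)).symm
  rw [h0]
  refine tendsto_integral_of_dominated_convergence (fun u => ((1 + ‖u‖ ^ 2) ^ 2)⁻¹ * M) ?_
    (radial_integrable.mul_const M) ?_ ?_
  · intro n
    refine (Continuous.mul ?_ ?_).aestronglyMeasurable
    · refine Complex.continuous_ofReal.comp (Continuous.inv₀ (by fun_prop) fun u => ?_)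
      positivity
    · exact hφ.1.continuous.comp (by fun_prop)
  · intro n
    refine ae_of_all _ fun u => ?_
    rw [norm_mul, Complex.norm_real, Real.norm_eq_abs, abs_of_nonneg (by positivity)]
    exact mul_le_mul_of_nonneg_left (hM _) (by positivity)
  · refine ae_of_all _ fun u => ?_
    refine Tendsto.const_mul _ ?_
    have h1 : Tendsto (fun n : ℕ => (((1 / ((n : ℝ) + 1) : ℝ) : ℂ) * u)) atTop (𝓝 (0 * u)) := by
      refine Tendsto.mul_const _ ?_
      have := (Complex.continuous_ofReal.tendsto 0).comp (tendsto_one_div_add_atTop_nhds_zero_nat)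
      rw [Complex.ofReal_zero] at this
      exact this
    rw [zero_mul] at h1
    exact (hφ.1.continuous.tendsto 0).comp h1

private theorem tendsto_lhs {φ : ℂ → ℂ} (hφ : IsTest φ) :
    Tendsto (fun n : ℕ => ∫ z, Kd (1 / ((n : ℝ) + 1)) z * dzb φ z) atTop
      (𝓝 (∫ z, z⁻¹ * dzb φ z)) := by
  have hi : Integrable (fun ζ => dzb φ ζ / (0 - ζ)) :=
    test_cau_int hφ.dzb.1.continuous hφ.dzb.2 0
  refine tendsto_integral_of_dominated_convergence (fun z => ‖dzb φ z / (0 - z)‖) ?_ hi.norm ?_ ?_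
  · intro n
    exact ((Kd_smooth (by positivity)).continuous.mul hφ.dzb.1.continuous).aestronglyMeasurable
  · intro n
    refine ae_of_all _ fun z => ?_
    rw [norm_mul, norm_div, zero_sub, norm_neg, div_eq_mul_inv, mul_comm]
    refine mul_le_mul_of_nonneg_left ?_ (norm_nonneg _)
    unfold Kd
    rw [norm_mul, norm_inv, Dd_eq, Complex.norm_real, Real.norm_eq_abs,
      abs_of_pos (by positivity), RCLike.norm_conj]
    by_cases hz : ‖z‖ = 0
    · rw [hz]
      simp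
    · have hz' : 0 < ‖z‖ := lt_of_le_of_ne (norm_nonneg z) (Ne.symm hz)
      rw [← div_eq_mul_inv, div_le_iff₀ (by positivity), inv_mul_eq_div, le_div_iff₀ hz']
      have : 0 ≤ (1 / ((n : ℝ) + 1)) ^ 2 := by positivity
      nlinarith
  · refine ae_of_all _ fun z => ?_
    refine Tendsto.mul_const _ ?_
    by_cases hz : z = 0
    · subst hz
      have : ∀ n : ℕ, Kd (1 / ((n : ℝ) + 1)) 0 = 0 := fun n => by simp [Kd]
      simp only [this, inv_zero]
      exact tendsto_const_nhds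
    · have hzz : z * conj z ≠ 0 := mul_ne_zero hz ((map_ne_zero _).2 hz)
      have e : z⁻¹ = conj z * (z * conj z + 0 ^ 2)⁻¹ := by
        have : conj z ≠ 0 := (map_ne_zero _).2 hz
        field_simp
        ring
      rw [e]
      unfold Kd Dd
      refine Tendsto.const_mul _ (Tendsto.inv₀ (Tendsto.const_add _ (Tendsto.pow ?_ 2)) ?_)
      · have := (Complex.continuous_ofReal.tendsto 0).comp (tendsto_one_div_add_atTop_nhds_zero_nat)
        rw [Complex.ofReal_zero] at this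
        exact this
      · rw [zero_pow two_ne_zero, add_zero]
        exact hzz

private theorem fund {φ : ℂ → ℂ} (hφ : IsTest φ) :
    ∫ z, z⁻¹ * dzb φ z = -((Real.pi : ℂ) * φ 0) := by
  refine tendsto_nhds_unique (tendsto_lhs hφ) ?_
  have h := (tendsto_rhs hφ).neg
  refine h.congr fun n => ?_
  have hδ : (0 : ℝ) < 1 / ((n : ℝ) + 1) := by positivity
  rw [integral_parts_dzb hφ (Kd_smooth hδ), ← scaled hδ]
  congr 1
  refine integral_congr_ae (ae_of_all _ fun z => ?_)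
  simp only
  rw [dzb_Kd hδ]

theorem cau_dzb {f : ℂ → ℂ} (hf : IsTest f) : cau (dzb f) = f := by
  funext z
  have hφ : IsTest (fun t => f (z - t)) := by
    refine ⟨hf.1.comp (contDiff_const.sub contDiff_id), ?_⟩
    exact hf.2.comp_homeomorph (Homeomorph.subLeft z)
  have h1 := fund hφ
  have h2 : ∀ t, dzb (fun t => f (z - t)) t = -(dzb f (z - t)) := by
    intro t
    have hd : DifferentiableAt ℂ (fun t : ℂ => z - t) t :=
      (differentiableAt_const z).sub differentiableAt_id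
    rw [dzb_comp (hd.restrictScalars ℝ) (hf.1.differentiable (by simp) _), dzb_of_holo hd,
      dz_of_holo hd]
    have : deriv (fun t : ℂ => z - t) t = -1 := by simp
    rw [this]
    simp
  simp only [h2, sub_zero] at h1
  rw [cau_eq_conv, convolution_def]
  have h3 : ∀ t, (ContinuousLinearMap.mul ℝ ℂ) (ker t) (dzb f (z - t)) =
      (-(Real.pi : ℂ)⁻¹) * (t⁻¹ * -(dzb f (z - t))) := by
    intro t
    simp only [ker, ContinuousLinearMap.mul_apply']
    ring
  simp only [h3]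
  rw [integral_const_mul, h1]
  have hpi : (Real.pi : ℂ) ≠ 0 := by exact_mod_cast Real.pi_ne_zero
  field_simp

theorem dzb_cau {f : ℂ → ℂ} (hf : IsTest f) : dzb (cau f) = f := by
  rw [dzb_cau' hf, cau_dzb hf]

theorem cau_decay_two {f : ℂ → ℂ} (hf : IsTest f) :
    ∃ C, ∀ z, ‖cau (dz f) z‖ ≤ C / (1 + ‖z‖) ^ 2 := by
  obtain ⟨M, r, hM0, hr0, hM, hr⟩ := hf.bound
  obtain ⟨M', r', hM0', hr0', hM', hr'⟩ := hf.dz.bound
  obtain ⟨C₁, hC₁⟩ := cau_decay M' r'
  have h1 := hC₁ (dz f) hf.dz.1.continuous.measurable hM' hr'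
  have hC₁0 : 0 ≤ C₁ := by
    have h2 := (norm_nonneg _).trans (h1 0)
    simpa using h2
  set J := ∫ ζ, ‖f ζ‖ with hJ
  have hJ0 : 0 ≤ J := integral_nonneg fun _ => norm_nonneg _
  refine ⟨C₁ * (2 * r + 2) + Real.pi⁻¹ * (4 * J), fun z => ?_⟩
  have hz1 : 0 < 1 + ‖z‖ := by positivity
  rw [le_div_iff₀ (by positivity)]
  by_cases hz : ‖z‖ ≤ 2 * r + 1
  · have h2 := h1 z
    rw [le_div_iff₀ hz1] at h2
    have h3 : ‖cau (dz f) z‖ * (1 + ‖z‖) ^ 2 ≤ C₁ * (1 + ‖z‖) := by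
      calc ‖cau (dz f) z‖ * (1 + ‖z‖) ^ 2 = (‖cau (dz f) z‖ * (1 + ‖z‖)) * (1 + ‖z‖) := by ring
        _ ≤ C₁ * (1 + ‖z‖) := mul_le_mul_of_nonneg_right h2 hz1.le
    have h4 : C₁ * (1 + ‖z‖) ≤ C₁ * (2 * r + 2) :=
      mul_le_mul_of_nonneg_left (by linarith) hC₁0
    have h5 : 0 ≤ Real.pi⁻¹ * (4 * J) := by positivity
    linarith
  · have hz' : 2 * r + 1 < ‖z‖ := not_le.1 hz
    have h2 := cau_hasDerivAt (f := f) hf.1.continuous.measurable hM hr (z := z)
      (ε := ‖z‖ - r) (by linarith) (fun ζ hζ => hr ζ (by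
        have := norm_sub_norm_le z ζ
        rw [norm_sub_rev] at hζ
        linarith))
    have h3 : cau (dz f) z = -(Real.pi : ℂ)⁻¹ * ∫ ζ, f ζ / (ζ - z) ^ 2 := by
      rw [← dz_cau hf, dz_of_holo h2.differentiableAt, h2.deriv]
    have h4 : ‖∫ ζ, f ζ / (ζ - z) ^ 2‖ ≤ 4 / (1 + ‖z‖) ^ 2 * J := by
      rw [hJ, ← integral_const_mul]
      refine norm_integral_le_of_norm_le
        ((hf.1.continuous.integrable_of_hasCompactSupport hf.2).norm.const_mul _)
        (ae_of_all _ fun ζ => ?_)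
      by_cases hζ : r < ‖ζ‖
      · rw [hr ζ hζ]
        simp
      · rw [norm_div, norm_pow, div_eq_mul_inv, mul_comm]
        refine mul_le_mul_of_nonneg_right ?_ (norm_nonneg _)
        have h5 : (1 + ‖z‖) / 2 ≤ ‖ζ - z‖ := by
          have := norm_sub_norm_le z ζ
          rw [norm_sub_rev] at this
          linarith [not_lt.1 hζ]
        have h6 : ((1 + ‖z‖) / 2) ^ 2 ≤ ‖ζ - z‖ ^ 2 := pow_le_pow_left₀ (by positivity) h5 2
        have h7 : (‖ζ - z‖ ^ 2)⁻¹ ≤ (((1 + ‖z‖) / 2) ^ 2)⁻¹ := inv_anti₀ (by positivity) h6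
        refine h7.trans (le_of_eq ?_)
        field_simp
        norm_num
    rw [h3, norm_mul, norm_neg, norm_inv, Complex.norm_real, Real.norm_eq_abs,
      abs_of_pos Real.pi_pos]
    have h5 : Real.pi⁻¹ * ‖∫ ζ, f ζ / (ζ - z) ^ 2‖ * (1 + ‖z‖) ^ 2 ≤ Real.pi⁻¹ * (4 * J) := by
      rw [mul_assoc]
      refine mul_le_mul_of_nonneg_left ?_ (by positivity)
      rw [← le_div_iff₀ (by positivity)]
      refine h4.trans (le_of_eq ?_)
      ring
    have h6 : 0 ≤ C₁ * (2 * r + 2) := by positivity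
    linarith

/-- `dzb` determines a function which vanishes at infinity (Liouville) -/
theorem eq_cau {u f : ℂ → ℂ} (hf : IsTest f) (hu : ContDiff ℝ ∞ u) (h : ∀ z, dzb u z = f z)
    (h0 : Tendsto u (cocompact ℂ) (𝓝 0)) : u = cau f := by
  have hc := cau_smooth hf
  set v : ℂ → ℂ := fun z => u z + -1 * cau f z with hv
  have hvs : ∀ z, DifferentiableAt ℝ (fun z => (-1 : ℂ) * cau f z) z := fun z =>
    (hc.differentiable (by simp) z).const_mul (-1)
  have hvd : ∀ z, dzb v z = 0 := by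
    intro z
    rw [hv, dzb_add (hu.differentiable (by simp) z) (hvs z),
      dzb_mul (differentiableAt_const _) (hc.differentiable (by simp) z), dzb_cau hf, h z,
      dzb_of_holo (differentiableAt_const _)]
    ring
  have hvh : Differentiable ℂ v := fun z =>
    holo_of_dzb ((hu.differentiable (by simp) z).add (hvs z)) (hvd z)
  obtain ⟨M, r, hM0, hr0, hM, hr⟩ := hf.bound
  obtain ⟨C, hC⟩ := cau_decay M r
  have hC' := hC f hf.1.continuous.measurable hM hr
  have h1 : Tendsto (cau f) (cocompact ℂ) (𝓝 0) := by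
    refine squeeze_zero_norm hC' ?_
    have h2 : Tendsto (fun z : ℂ => 1 + ‖z‖) (cocompact ℂ) atTop :=
      tendsto_atTop_add_const_left _ _ tendsto_norm_cocompact_atTop
    exact h2.const_div_atTop C
  have h2 : Tendsto v (cocompact ℂ) (𝓝 0) := by
    have := h0.add (h1.const_mul (-1 : ℂ))
    rw [mul_zero, add_zero] at this
    exact this
  funext z
  have h3 := congrFun (hvh.eq_const_of_tendsto_cocompact h2) z
  simp only [hv, Function.const_apply] at h3
  linear_combination h3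

end Pool.Agent.QCD
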