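import Pool.Agent.Lib.MP_f30fea_an.Base
import Pool.Agent.Lib.MP_f30fea_an.CauSmooth

/-!
# The Beurling transform `f ↦ cau (dz f)` is an isometry in `L²`

Let `u = cau f`, `dzb u = f`, `dz u = cau (dz f)`; `u = O(1/(1+‖z‖))`, `dz u = O(1/(1+‖z‖)²)`,
and `dzb (dz u) = dz f` has compact support.  With `dzb (conj u) = conj (dz u)`:
`∫ ‖dz u‖² = ∫ dz u * dzb (conj u) = -∫ dzb (dz u) * conj u = -∫ dz f * conj u = ∫ f * dz (conj u) =
∫ f * conj (dzb u) = ∫ ‖f‖²`.  The first integration by parts is over the whole plane for functions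
with `f' g, f g', f g` integrable (`integral_bilinear_hasLineDerivAt_right_eq_neg_left_of_integrable`,
`integral_mul_fderiv_eq_neg_fderiv_mul_of_integrable`, ...): all products are `O((1+‖z‖)⁻³)`
(`integrable_one_add_norm`, dimension 2).
-/

open Complex MeasureTheory Filter Topology Set
open scoped ContDiff ENNReal ComplexConjugate

noncomputable section

namespace Pool.Agent.QCD

/-- the `L²` norm -/
def l2 (f : ℂ → ℂ) : ℝ := Real.sqrt (∫ z, ‖f z‖ ^ 2)

theorem Isom_int {E : Type} [NormedAddCommGroup E] {F : ℂ → E} (hF : Continuous F) {C : ℝ}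
    (h : ∀ z, ‖F z‖ ≤ C / (1 + ‖z‖) ^ 3) : Integrable F := by
  have h1 : Integrable (fun z : ℂ => (1 + ‖z‖) ^ (-(3 : ℝ))) := by
    apply integrable_one_add_norm
    rw [Complex.finrank_real_complex]
    norm_num
  refine (h1.const_mul C).mono' hF.aestronglyMeasurable (Filter.Eventually.of_forall fun z => ?_)
  refine (h z).trans (le_of_eq ?_)
  rw [Real.rpow_neg (by positivity), div_eq_mul_inv]
  congr 2
  exact_mod_cast (Real.rpow_natCast (1 + ‖z‖) 3).symm

theorem Isom_test_decay {f : ℂ → ℂ} (hf : IsTest f) :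
    ∃ C, 0 ≤ C ∧ ∀ z, ‖f z‖ ≤ C / (1 + ‖z‖) ^ 2 := by
  obtain ⟨M, r, hM, hr, h1, h2⟩ := hf.bound
  refine ⟨M * (1 + r) ^ 2, by positivity, fun z => ?_⟩
  rw [le_div_iff₀ (by positivity)]
  by_cases hz : r < ‖z‖
  · rw [h2 z hz, norm_zero, zero_mul]
    positivity
  · have h3 : (1 + ‖z‖) ^ 2 ≤ (1 + r) ^ 2 := by
      have := not_lt.1 hz
      gcongr
    exact mul_le_mul (h1 z) h3 (by positivity) hM

theorem Isom_measurable {f : ℂ → ℂ} (hf : IsTest f) : ∃ C, 0 ≤ C ∧ ∀ z, ‖cau f z‖ ≤ C / (1 + ‖z‖) := by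
  obtain ⟨M, r, hM, hr, h1, h2⟩ := hf.bound
  obtain ⟨C, hC⟩ := cau_decay M r
  have h3 := hC f hf.1.continuous.measurable h1 h2
  refine ⟨C, ?_, h3⟩
  have h4 := (norm_nonneg _).trans (h3 0)
  rw [norm_zero, add_zero, div_one] at h4
  exact h4

theorem Isom_decay_two {f : ℂ → ℂ} (hf : IsTest f) :
    ∃ C, 0 ≤ C ∧ ∀ z, ‖cau (dz f) z‖ ≤ C / (1 + ‖z‖) ^ 2 := by
  obtain ⟨C, hC⟩ := cau_decay_two hf
  refine ⟨C, ?_, hC⟩
  have h4 := (norm_nonneg _).trans (hC 0)
  rw [norm_zero, add_zero, one_pow, div_one] at h4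
  exact h4

theorem beurling_sq_integrable {f : ℂ → ℂ} (hf : IsTest f) :
    Integrable (fun z => ‖cau (dz f) z‖ ^ 2) := by
  obtain ⟨C, hC0, hC⟩ := Isom_decay_two hf
  refine Isom_int (C := C ^ 2) ((cau_smooth hf.dz).continuous.norm.pow 2) fun z => ?_
  rw [Real.norm_of_nonneg (by positivity)]
  have h1 : (0 : ℝ) < 1 + ‖z‖ := by positivity
  have h2 : (1 : ℝ) ≤ 1 + ‖z‖ := by linarith [norm_nonneg z]
  calc ‖cau (dz f) z‖ ^ 2 ≤ (C / (1 + ‖z‖) ^ 2) ^ 2 := by
        gcongr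
        exact hC z
    _ = C ^ 2 / (1 + ‖z‖) ^ 4 := by rw [div_pow, ← pow_mul]
    _ ≤ C ^ 2 / (1 + ‖z‖) ^ 3 := by
        exact div_le_div_of_nonneg_left (by positivity) (by positivity)
          (pow_le_pow_right₀ h2 (by norm_num))

theorem Isom_fderiv_le {F : ℂ → ℂ} {z v : ℂ} (hv : ‖v‖ = 1) :
    ‖fderiv ℝ F z v‖ ≤ ‖dz F z‖ + ‖dzb F z‖ := by
  rw [fderiv_eq]
  refine (norm_add_le _ _).trans ?_
  rw [norm_mul, norm_mul, RCLike.norm_conj, hv, mul_one, mul_one]

/-- integration by parts over the plane -/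
theorem Isom_parts {F G : ℂ → ℂ} (hF : ContDiff ℝ ∞ F) (hG : ContDiff ℝ ∞ G) {C : ℝ}
    (h1 : ∀ z, (‖dz F z‖ + ‖dzb F z‖) * ‖G z‖ ≤ C / (1 + ‖z‖) ^ 3)
    (h2 : ∀ z, ‖F z‖ * (‖dz G z‖ + ‖dzb G z‖) ≤ C / (1 + ‖z‖) ^ 3)
    (h3 : ∀ z, ‖F z‖ * ‖G z‖ ≤ C / (1 + ‖z‖) ^ 3) :
    ∫ z, F z * dzb G z = -∫ z, dzb F z * G z := by
  have hFd : Differentiable ℝ F := hF.differentiable (by norm_num)
  have hGd : Differentiable ℝ G := hG.differentiable (by norm_num)
  have hF' : ∀ v : ℂ, Continuous fun z => fderiv ℝ F z v := fun v =>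
    (hF.continuous_fderiv (by norm_num)).clm_apply continuous_const
  have hG' : ∀ v : ℂ, Continuous fun z => fderiv ℝ G z v := fun v =>
    (hG.continuous_fderiv (by norm_num)).clm_apply continuous_const
  have hi1 : ∀ v : ℂ, ‖v‖ = 1 → Integrable (fun z => fderiv ℝ F z v * G z) := fun v hv => by
    refine Isom_int (C := C) ((hF' v).mul hG.continuous) fun z => ?_
    rw [norm_mul]
    exact (mul_le_mul_of_nonneg_right (Isom_fderiv_le hv) (norm_nonneg _)).trans (h1 z)
  have hi2 : ∀ v : ℂ, ‖v‖ = 1 → Integrable (fun z => F z * fderiv ℝ G z v) := fun v hv => by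
    refine Isom_int (C := C) (hF.continuous.mul (hG' v)) fun z => ?_
    rw [norm_mul]
    exact (mul_le_mul_of_nonneg_left (Isom_fderiv_le hv) (norm_nonneg _)).trans (h2 z)
  have hi3 : Integrable (fun z => F z * G z) := by
    refine Isom_int (C := C) (hF.continuous.mul hG.continuous) fun z => ?_
    rw [norm_mul]
    exact h3 z
  have key : ∀ v : ℂ, ‖v‖ = 1 → ∫ z, F z * fderiv ℝ G z v = -∫ z, fderiv ℝ F z v * G z :=
    fun v hv => integral_mul_fderiv_eq_neg_fderiv_mul_of_integrable (hi1 v hv) (hi2 v hv) hi3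
      (fun z _ => hFd z) (fun z _ => hGd z)
  have k1 := key 1 (by simp)
  have k2 := key I (by simp)
  have e1 : ∫ z, F z * dzb G z =
      (∫ z, F z * fderiv ℝ G z 1) / 2 + I / 2 * ∫ z, F z * fderiv ℝ G z I := by
    rw [← integral_div, ← integral_const_mul, ← integral_add]
    · refine integral_congr_ae (Filter.Eventually.of_forall fun z => ?_)
      simp only [dzb]
      ring
    · exact (hi2 1 (by simp)).div_const 2
    · exact (hi2 I (by simp)).const_mul _
  have e2 : ∫ z, dzb F z * G z =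
      (∫ z, fderiv ℝ F z 1 * G z) / 2 + I / 2 * ∫ z, fderiv ℝ F z I * G z := by
    rw [← integral_div, ← integral_const_mul, ← integral_add]
    · refine integral_congr_ae (Filter.Eventually.of_forall fun z => ?_)
      simp only [dzb]
      ring
    · exact (hi1 1 (by simp)).div_const 2
    · exact (hi1 I (by simp)).const_mul _
  rw [e1, e2, k1, k2]
  ring

theorem Isom_main {f : ℂ → ℂ} (hf : IsTest f) :
    ∫ z, cau (dz f) z * conj (cau (dz f) z) = ∫ z, conj (f z) * f z := by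
  have hu : ContDiff ℝ ∞ (cau f) := cau_smooth hf
  have hw : ContDiff ℝ ∞ (cau (dz f)) := cau_smooth hf.dz
  have huc : ContDiff ℝ ∞ (fun z => conj (cau f z)) := conjCLE.contDiff.comp hu
  have hud : Differentiable ℝ (cau f) := hu.differentiable (by norm_num)
  have e1 : ∀ z, dz (fun z => conj (cau f z)) z = conj (f z) := fun z => by
    rw [dz_conj (hud z), dzb_cau hf]
  have e2 : ∀ z, dzb (fun z => conj (cau f z)) z = conj (cau (dz f) z) := fun z => by
    rw [dzb_conj (hud z), dz_cau hf]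
  have e3 : dzb (cau (dz f)) = dz f := dzb_cau hf.dz
  have e4 : dz (cau (dz f)) = cau (dz (dz f)) := dz_cau hf.dz
  obtain ⟨C1, hC1, h1⟩ := Isom_measurable hf
  obtain ⟨C2, hC2, h2⟩ := Isom_decay_two hf
  obtain ⟨C3, hC3, h3⟩ := Isom_decay_two hf.dz
  obtain ⟨C4, hC4, h4⟩ := Isom_test_decay hf.dz
  obtain ⟨C5, hC5, h5⟩ := Isom_test_decay hf
  set C : ℝ := (C3 + C4) * C1 + C2 * (C5 + C2) + C2 * C1 with hC
  have hpow : ∀ z : ℂ, (0 : ℝ) < 1 + ‖z‖ := fun z => by positivity
  have hone : ∀ z : ℂ, (1 : ℝ) ≤ 1 + ‖z‖ := fun z => by linarith [norm_nonneg z]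
  have hA : 0 ≤ (C3 + C4) * C1 := by positivity
  have hB : 0 ≤ C2 * (C5 + C2) := by positivity
  have hD : 0 ≤ C2 * C1 := by positivity
  have hpar := Isom_parts (C := C) hw huc
    (fun z => by
      rw [e3, e4, RCLike.norm_conj]
      calc (‖cau (dz (dz f)) z‖ + ‖dz f z‖) * ‖cau f z‖
          ≤ (C3 / (1 + ‖z‖) ^ 2 + C4 / (1 + ‖z‖) ^ 2) * (C1 / (1 + ‖z‖)) := by
            have := hpow z
            exact mul_le_mul (add_le_add (h3 z) (h4 z)) (h1 z) (norm_nonneg _) (by positivity)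
        _ = ((C3 + C4) * C1) / (1 + ‖z‖) ^ 3 := by
            have := (hpow z).ne'
            field_simp
        _ ≤ C / (1 + ‖z‖) ^ 3 := by
            have := hpow z
            gcongr
            linarith)
    (fun z => by
      rw [e1, e2, RCLike.norm_conj, RCLike.norm_conj]
      calc ‖cau (dz f) z‖ * (‖f z‖ + ‖cau (dz f) z‖)
          ≤ (C2 / (1 + ‖z‖) ^ 2) * (C5 / (1 + ‖z‖) ^ 2 + C2 / (1 + ‖z‖) ^ 2) := by
            have := hpow z
            exact mul_le_mul (h2 z) (add_le_add (h5 z) (h2 z)) (by positivity) (by positivity)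
        _ = (C2 * (C5 + C2)) / (1 + ‖z‖) ^ 4 := by
            have := (hpow z).ne'
            field_simp
        _ ≤ (C2 * (C5 + C2)) / (1 + ‖z‖) ^ 3 := by
            have := hpow z
            exact div_le_div_of_nonneg_left hB (by positivity)
              (pow_le_pow_right₀ (hone z) (by norm_num))
        _ ≤ C / (1 + ‖z‖) ^ 3 := by
            have := hpow z
            gcongr
            linarith)
    (fun z => by
      rw [RCLike.norm_conj]
      calc ‖cau (dz f) z‖ * ‖cau f z‖ ≤ (C2 / (1 + ‖z‖) ^ 2) * (C1 / (1 + ‖z‖)) := by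
            have := hpow z
            exact mul_le_mul (h2 z) (h1 z) (norm_nonneg _) (by positivity)
        _ = (C2 * C1) / (1 + ‖z‖) ^ 3 := by
            have := (hpow z).ne'
            field_simp
        _ ≤ C / (1 + ‖z‖) ^ 3 := by
            have := hpow z
            gcongr
            linarith)
  have hpar2 := integral_parts_dz hf huc
  calc ∫ z, cau (dz f) z * conj (cau (dz f) z)
      = ∫ z, cau (dz f) z * dzb (fun z => conj (cau f z)) z := by
        refine integral_congr_ae (Filter.Eventually.of_forall fun z => ?_)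
        simp only [e2]
    _ = -∫ z, dzb (cau (dz f)) z * conj (cau f z) := hpar
    _ = -∫ z, conj (cau f z) * dz f z := by
        rw [e3]
        congr 1
        refine integral_congr_ae (Filter.Eventually.of_forall fun z => ?_)
        simp only
        ring
    _ = ∫ z, dz (fun z => conj (cau f z)) z * f z := by
        rw [hpar2, neg_neg]
    _ = ∫ z, conj (f z) * f z := by
        refine integral_congr_ae (Filter.Eventually.of_forall fun z => ?_)
        simp only [e1]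

theorem beurling_isometry {f : ℂ → ℂ} (hf : IsTest f) : l2 (cau (dz f)) = l2 f := by
  unfold l2
  congr 1
  have h1 := Isom_main hf
  have h2 : ∀ g : ℂ → ℂ, (∫ z, ‖g z‖ ^ 2 : ℝ) = (∫ z, g z * conj (g z) : ℂ) := by
    intro g
    rw [← integral_complex_ofReal]
    refine integral_congr_ae (Filter.Eventually.of_forall fun z => ?_)
    simp only
    rw [Complex.mul_conj, Complex.normSq_eq_norm_sq]
  have h3 : ((∫ z, ‖cau (dz f) z‖ ^ 2 : ℝ) : ℂ) = ((∫ z, ‖f z‖ ^ 2 : ℝ) : ℂ) := by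
    rw [h2, h2, h1]
    refine integral_congr_ae (Filter.Eventually.of_forall fun z => ?_)
    simp only
    ring
  exact_mod_cast h3

theorem l2_dz_eq {f : ℂ → ℂ} (hf : IsTest f) : l2 (dz f) = l2 (dzb f) := by
  have h1 := beurling_isometry hf.dzb
  rw [dz_dzb hf.1, cau_dzb hf.dz] at h1
  exact h1

theorem Isom_l2_eq {f : ℂ → ℂ} (hf : Continuous f) (hf2 : Integrable (fun z => ‖f z‖ ^ 2)) :
    MemLp f 2 ∧ eLpNorm f 2 volume = ENNReal.ofReal (l2 f) := by
  have h1 : MemLp f 2 := (memLp_two_iff_integrable_sq_norm hf.aestronglyMeasurable).2 hf2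
  refine ⟨h1, ?_⟩
  rw [h1.eLpNorm_eq_integral_rpow_norm two_ne_zero ENNReal.ofNat_ne_top]
  unfold l2
  rw [Real.sqrt_eq_rpow]
  simp

/-- Minkowski for continuous square integrable functions -/
theorem l2_add_le {f g : ℂ → ℂ} (hf : Continuous f) (hg : Continuous g)
    (hf2 : Integrable (fun z => ‖f z‖ ^ 2)) (hg2 : Integrable (fun z => ‖g z‖ ^ 2)) :
    l2 (fun z => f z + g z) ≤ l2 f + l2 g := by
  obtain ⟨h1, h2⟩ := Isom_l2_eq hf hf2
  obtain ⟨h3, h4⟩ := Isom_l2_eq hg hg2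
  have h5 : MemLp (fun z => f z + g z) 2 := h1.add h3
  have h6 : Integrable (fun z => ‖f z + g z‖ ^ 2) :=
    (memLp_two_iff_integrable_sq_norm (hf.add hg).aestronglyMeasurable).1 h5
  obtain ⟨-, h7⟩ := Isom_l2_eq (hf.add hg) h6
  have h8 : eLpNorm (fun z => f z + g z) 2 volume ≤ eLpNorm f 2 volume + eLpNorm g 2 volume :=
    eLpNorm_add_le hf.aestronglyMeasurable hg.aestronglyMeasurable (by norm_num)
  have h9 : ∀ k : ℂ → ℂ, 0 ≤ l2 k := fun k => Real.sqrt_nonneg _
  rw [h2, h4, ← ENNReal.ofReal_add (h9 _) (h9 _)] at h8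
  have h10 : eLpNorm (fun z => f z + g z) 2 volume = ENNReal.ofReal (l2 fun z => f z + g z) := h7
  rw [h10, ENNReal.ofReal_le_ofReal_iff (add_nonneg (h9 _) (h9 _))] at h8
  exact h8

theorem l2_mul_le {f g : ℂ → ℂ} (hf2 : Integrable (fun z => ‖f z‖ ^ 2)) {M : ℝ} (hM : 0 ≤ M)
    (hg : Continuous g) (hf : Continuous f) (h : ∀ z, ‖g z‖ ≤ M) :
    l2 (fun z => g z * f z) ≤ M * l2 f := by
  unfold l2
  have h1 : M * Real.sqrt (∫ z, ‖f z‖ ^ 2) = Real.sqrt (M ^ 2 * ∫ z, ‖f z‖ ^ 2) := by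
    rw [Real.sqrt_mul (by positivity), Real.sqrt_sq hM]
  rw [h1, ← integral_const_mul]
  apply Real.sqrt_le_sqrt
  refine integral_mono_of_nonneg (Filter.Eventually.of_forall fun z => by positivity)
    (hf2.const_mul _) (Filter.Eventually.of_forall fun z => ?_)
  simp only
  rw [norm_mul, mul_pow]
  have := h z
  gcongr

end Pool.Agent.QCD
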