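import Pool.Agent.Lib.MP_f30fea_an.Base
import Pool.Agent.Lib.MP_f30fea_an.Isom

/-!
# Sup bound by the `L²` norm of second derivatives

`f = 0` outside the disc of radius `r`.  `f (x + iy) = ∫_{-∞}^x ∫_{-∞}^y ∂_x ∂_y f`, and
`∂_x ∂_y = i (dz dz - dzb dzb)`, so `‖f z‖ ≤ ∫ (‖dz (dz f)‖ + ‖dzb (dzb f)‖) ≤
√(area) (l2 (dz (dz f)) + l2 (dzb (dzb f)))` by Cauchy-Schwarz on the disc, and
`l2 (dz (dz f)) = l2 (dzb (dz f)) = l2 (dz (dzb f)) = l2 (dzb (dzb f))` by `l2_dz_eq` (twice) and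
`dz_dzb`.
-/

open Complex MeasureTheory Filter Topology Set
open scoped ContDiff ENNReal ComplexConjugate

noncomputable section

namespace Pool.Agent.QCD

/-- Cauchy-Schwarz on a disc -/
theorem supL2_cs (r : ℝ) {u : ℂ → ℂ} (hu : IsTest u) (h0 : ∀ z, r < ‖z‖ → u z = 0) :
    ∫ z, ‖u z‖ ≤ Real.sqrt (volume.real (Metric.closedBall (0 : ℂ) r)) * l2 u := by
  set B : Set ℂ := Metric.closedBall (0 : ℂ) r with hB
  have hBfin : volume B ≠ ⊤ := (isCompact_closedBall (0 : ℂ) r).measure_lt_top.ne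
  have : IsFiniteMeasure (volume.restrict B) := ⟨by
    rw [Measure.restrict_apply_univ]
    exact hBfin.lt_top⟩
  have hcont : Continuous u := hu.1.continuous
  have h1 : ∫ z, ‖u z‖ = ∫ z in B, 1 * ‖u z‖ := by
    simp only [one_mul]
    symm
    apply setIntegral_eq_integral_of_forall_compl_eq_zero
    intro z hz
    rw [hB, Metric.mem_closedBall, dist_zero_right, not_le] at hz
    rw [h0 z hz, norm_zero]
  have h2 : ∫ z, ‖u z‖ ^ 2 = ∫ z in B, ‖u z‖ ^ 2 := by
    symm
    apply setIntegral_eq_integral_of_forall_compl_eq_zero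
    intro z hz
    rw [hB, Metric.mem_closedBall, dist_zero_right, not_le] at hz
    rw [h0 z hz, norm_zero]
    norm_num
  have hLp : MemLp (fun z => ‖u z‖) (ENNReal.ofReal 2) (volume.restrict B) := by
    have h3 : MemLp u (ENNReal.ofReal 2) volume := hcont.memLp_of_hasCompactSupport hu.2
    exact (h3.norm).restrict B
  have h4 := integral_mul_le_Lp_mul_Lq_of_nonneg (μ := volume.restrict B) (p := 2) (q := 2)
    (by constructor <;> norm_num) (f := fun _ => (1 : ℝ)) (g := fun z => ‖u z‖)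
    (Eventually.of_forall fun _ => zero_le_one) (Eventually.of_forall fun _ => norm_nonneg _)
    (memLp_const 1) hLp
  rw [h1]
  refine h4.trans (le_of_eq ?_)
  rw [l2, h2, Real.sqrt_eq_rpow, Real.sqrt_eq_rpow]
  congr 1
  · congr 1
    simp [Measure.real]
  · congr 1
    refine integral_congr_ae (Eventually.of_forall fun z => ?_)
    simp only
    rw [← Real.rpow_natCast]
    norm_num

theorem supL2_zero (r : ℝ) {f : ℂ → ℂ} (h0 : ∀ z, r < ‖z‖ → f z = 0) (z : ℂ) (hz : r < ‖z‖) :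
    dz f z = 0 ∧ dzb f z = 0 := by
  have h1 : f =ᶠ[𝓝 z] fun _ => 0 := by
    have h2 : {w : ℂ | r < ‖w‖} ∈ 𝓝 z := (isOpen_lt continuous_const continuous_norm).mem_nhds hz
    filter_upwards [h2] with w hw
    exact h0 w hw
  constructor
  · rw [dz_congr h1]
    simp [dz]
  · rw [dzb_congr h1]
    simp [dzb]

/-- the bound by the integral of the mixed second derivative -/
theorem supL2_mixed {f : ℂ → ℂ} (hf : IsTest f) (z : ℂ) :
    ‖f z‖ₑ ≤ ∫⁻ w, ‖fderiv ℝ (fun v => fderiv ℝ f v 1) w I‖ₑ := by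
  set F : ℂ → ℂ := fun v => fderiv ℝ f v 1 with hF
  have hF1 : ContDiff ℝ ∞ F := by
    have := hf.1.fderiv_right (m := ∞) (by simp)
    exact this.clm_apply contDiff_const
  have hF2 : HasCompactSupport F := by
    have := hf.2.fderiv (𝕜 := ℝ)
    exact this.comp_left (g := fun L : ℂ →L[ℝ] ℂ => L 1) (by simp)
  -- lines
  have hline : ∀ (a b : ℝ), ((a : ℂ) + b * I) = Complex.equivRealProd.symm (a, b) := by
    intro a b
    simp [Complex.equivRealProd, Complex.ext_iff]
  have hcomp : ∀ (g : ℂ → ℂ), HasCompactSupport g → ∀ (e c : ℂ), e ≠ 0 →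
      HasCompactSupport (fun s : ℝ => g (c + s * e)) := by
    intro g hg e c he
    have hemb : Topology.IsClosedEmbedding (fun s : ℝ => c + (s : ℂ) * e) := by
      have h1 : Topology.IsClosedEmbedding (fun s : ℝ => (s : ℂ)) :=
        Complex.isometry_ofReal.isClosedEmbedding
      exact ((Homeomorph.mulRight₀ e he).trans (Homeomorph.addLeft c)).isClosedEmbedding.comp h1
    exact hg.comp_isClosedEmbedding hemb
  have step : ∀ (g : ℂ → ℂ), ContDiff ℝ ∞ g → HasCompactSupport g → ∀ (e c : ℂ), e ≠ 0 →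
      ∀ x : ℝ, ‖g (c + x * e)‖ₑ ≤ ∫⁻ s : ℝ, ‖fderiv ℝ g (c + s * e) e‖ₑ := by
    intro g hg hg' e c he x
    have hd : ∀ s : ℝ, HasDerivAt (fun s : ℝ => g (c + s * e)) (fderiv ℝ g (c + s * e) e) s := by
      intro s
      have h1 : HasDerivAt (fun s : ℝ => c + (s : ℂ) * e) e s := by
        simpa using ((hasDerivAt_id s).ofReal_comp.mul_const e).const_add c
      exact ((hg.differentiable (by simp)).differentiableAt.hasFDerivAt).comp_hasDerivAt s h1
    have hC1 : ContDiff ℝ 1 (fun s : ℝ => g (c + s * e)) := by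
      have h1 : ContDiff ℝ 1 (fun s : ℝ => c + (s : ℂ) * e) :=
        contDiff_const.add (Complex.ofRealCLM.contDiff.mul contDiff_const)
      exact (hg.of_le (by simp)).comp h1
    have h2 := HasCompactSupport.enorm_le_lintegral_Ici_deriv hC1 (hcomp g hg' e c he) x
    refine h2.trans ((lintegral_mono' Measure.restrict_le_self le_rfl).trans (le_of_eq ?_))
    refine lintegral_congr fun s => ?_
    rw [(hd s).deriv]
  have h1 : ‖f z‖ₑ ≤ ∫⁻ s : ℝ, ‖F ((z.im : ℂ) * I + s * 1)‖ₑ := by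
    have h := step f hf.1 hf.2 1 ((z.im : ℂ) * I) one_ne_zero z.re
    have e : (z.im : ℂ) * I + z.re * 1 = z := by
      rw [mul_one, add_comm]
      exact Complex.re_add_im z
    rw [e] at h
    exact h
  have h2 : ∀ s : ℝ, ‖F ((z.im : ℂ) * I + s * 1)‖ₑ ≤
      ∫⁻ t : ℝ, ‖fderiv ℝ F ((s : ℂ) + t * I) I‖ₑ := by
    intro s
    have h := step F hF1 hF2 I (s : ℂ) I_ne_zero z.im
    have e : (z.im : ℂ) * I + s * 1 = (s : ℂ) + z.im * I := by ring
    rw [e]
    exact h
  have hmeas : Measurable (fun w : ℂ => ‖fderiv ℝ F w I‖ₑ) := by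
    have : Continuous (fun w : ℂ => fderiv ℝ F w I) :=
      (hF1.continuous_fderiv (by simp)).clm_apply continuous_const
    exact this.enorm.measurable
  have h3 : ∫⁻ w, ‖fderiv ℝ F w I‖ₑ = ∫⁻ s : ℝ, ∫⁻ t : ℝ, ‖fderiv ℝ F ((s : ℂ) + t * I) I‖ₑ := by
    rw [← (Complex.volume_preserving_equiv_real_prod.symm).lintegral_comp hmeas]
    rw [Measure.volume_eq_prod, lintegral_prod]
    · refine lintegral_congr fun s => lintegral_congr fun t => ?_
      congr 3
      rw [Complex.measurableEquivRealProd_symm_apply]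
      simp [Complex.ext_iff]
    · exact (hmeas.comp Complex.measurableEquivRealProd.symm.measurable).aemeasurable
  rw [h3]
  exact h1.trans (lintegral_mono h2)

theorem sup_le_l2 (r : ℝ) : ∃ C, 0 ≤ C ∧ ∀ f : ℂ → ℂ, IsTest f → (∀ z, r < ‖z‖ → f z = 0) →
    ∀ z, ‖f z‖ ≤ C * l2 (dzb (dzb f)) := by
  refine ⟨2 * Real.sqrt (volume.real (Metric.closedBall (0 : ℂ) r)), by positivity, ?_⟩
  intro f hf h0 z
  have hz1 : ∀ z, r < ‖z‖ → dz (dz f) z = 0 := fun z hz =>
    (supL2_zero r (fun w hw => (supL2_zero r h0 w hw).1) z hz).1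
  have hz2 : ∀ z, r < ‖z‖ → dzb (dzb f) z = 0 := fun z hz =>
    (supL2_zero r (fun w hw => (supL2_zero r h0 w hw).2) z hz).2
  have hmix : ∀ w, fderiv ℝ (fun v => fderiv ℝ f v 1) w I =
      I * (dz (dz f) w - dzb (dzb f) w) := by
    intro w
    have e1 : (fun v => fderiv ℝ f v 1) = fun v => dz f v + dzb f v := by
      funext v
      rw [fderiv_eq]
      simp
    have hd1 : DifferentiableAt ℝ (dz f) w := (hf.dz.1.differentiable (by simp)).differentiableAt
    have hd2 : DifferentiableAt ℝ (dzb f) w :=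
      (hf.dzb.1.differentiable (by simp)).differentiableAt
    rw [e1, fderiv_eq, dz_add hd1 hd2, dzb_add hd1 hd2, Complex.conj_I, congrFun (dz_dzb hf.1) w]
    ring
  have hi1 : Integrable (fun w => dz (dz f) w) :=
    hf.dz.dz.1.continuous.integrable_of_hasCompactSupport hf.dz.dz.2
  have hi2 : Integrable (fun w => dzb (dzb f) w) :=
    hf.dzb.dzb.1.continuous.integrable_of_hasCompactSupport hf.dzb.dzb.2
  have h1 : ‖f z‖ₑ ≤ ENNReal.ofReal (∫ w, (‖dz (dz f) w‖ + ‖dzb (dzb f) w‖)) := by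
    refine (supL2_mixed hf z).trans ?_
    have hsum : Integrable (fun w => ‖dz (dz f) w‖ + ‖dzb (dzb f) w‖) := hi1.norm.add hi2.norm
    rw [ofReal_integral_eq_lintegral_ofReal hsum
      (Eventually.of_forall fun w => add_nonneg (norm_nonneg _) (norm_nonneg _))]
    refine lintegral_mono fun w => ?_
    rw [hmix w, ← ofReal_norm]
    apply ENNReal.ofReal_le_ofReal
    rw [norm_mul, Complex.norm_I, one_mul]
    exact norm_sub_le _ _
  have h2 : ‖f z‖ ≤ ∫ w, (‖dz (dz f) w‖ + ‖dzb (dzb f) w‖) := by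
    rw [← ofReal_norm] at h1
    exact (ENNReal.ofReal_le_ofReal_iff (integral_nonneg fun w => by positivity)).1 h1
  rw [integral_add hi1.norm hi2.norm] at h2
  have h3 := supL2_cs r hf.dz.dz hz1
  have h4 := supL2_cs r hf.dzb.dzb hz2
  have h5 : l2 (dz (dz f)) = l2 (dzb (dzb f)) := by
    rw [l2_dz_eq hf.dz, ← dz_dzb hf.1, l2_dz_eq hf.dzb]
  rw [h5] at h3
  calc ‖f z‖ ≤ _ := h2
    _ ≤ _ := add_le_add h3 h4
    _ = _ := by ring

end Pool.Agent.QCD
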