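import Pool.Agent.Lib.MP_f30fea_an.Base
import Pool.Agent.Lib.MP_f30fea_an.SupL2

/-!
# The iterates of `f ↦ α * cau (dz f)`

`iter_l2`: with `N_j f = l2 (dzb^[j] f)` and `|α| ≤ 1`:
`N_j (α cau (dz f)) ≤ N_j f + C_j ∑_{i<j} N_i f`.  Induction on `j`: `N_j (iter n) ≤ C (n+1)^j`.
`iter_fderiv`: `fderiv ℝ f z v = dz f z v + dzb f z conj v`, induction on the order.
-/

open Complex MeasureTheory Filter Topology Set
open scoped ContDiff ENNReal ComplexConjugate

noncomputable section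

namespace Pool.Agent.QCD

/-- iterates of `f ↦ α * cau (dz f)`, starting with `β` -/
def iter (α β : ℂ → ℂ) : ℕ → ℂ → ℂ
  | 0 => β
  | n + 1 => fun z => α z * cau (dz (iter α β n)) z

theorem iter_test {α β : ℂ → ℂ} (hα : IsTest α) (hβ : IsTest β) (n : ℕ) : IsTest (iter α β n) := by
  induction n with
  | zero => exact hβ
  | succ n ih => exact hα.mul (cau_smooth ih.dz)

theorem iter_supp {α β : ℂ → ℂ} {r : ℝ} (hα : ∀ z, r < ‖z‖ → α z = 0)
    (hβ : ∀ z, r < ‖z‖ → β z = 0) (n : ℕ) {z : ℂ} (hz : r < ‖z‖) : iter α β n z = 0 := by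
  cases n with
  | zero => exact hβ z hz
  | succ n =>
    show α z * _ = 0
    rw [hα z hz, zero_mul]

private theorem it_diff {f : ℂ → ℂ} (hf : ContDiff ℝ ∞ f) (z : ℂ) : DifferentiableAt ℝ f z :=
  (hf.differentiable (by simp)).differentiableAt

private theorem it_test {f : ℂ → ℂ} (hf : IsTest f) (j : ℕ) : IsTest (dzb^[j] f) := by
  induction j generalizing f with
  | zero => exact hf
  | succ j ih => rw [Function.iterate_succ_apply]; exact ih hf.dzb

private theorem it_add {f g : ℂ → ℂ} (hf : IsTest f) (hg : IsTest g) (j : ℕ) :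
    dzb^[j] (fun z => f z + g z) = fun z => dzb^[j] f z + dzb^[j] g z := by
  induction j generalizing f g with
  | zero => rfl
  | succ j ih =>
    rw [Function.iterate_succ_apply, Function.iterate_succ_apply, Function.iterate_succ_apply]
    have : dzb (fun z => f z + g z) = fun z => dzb f z + dzb g z :=
      funext fun z => dzb_add (it_diff hf.1 z) (it_diff hg.1 z)
    rw [this]
    exact ih hf.dzb hg.dzb

private theorem it_sq {f : ℂ → ℂ} (hf : IsTest f) : Integrable (fun z => ‖f z‖ ^ 2) := by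
  refine Continuous.integrable_of_hasCompactSupport (by have := hf.1.continuous; fun_prop) ?_
  refine hf.2.comp_left (g := fun w : ℂ => ‖w‖ ^ 2) (by simp)

private theorem it_l2_nonneg (f : ℂ → ℂ) : 0 ≤ l2 f := Real.sqrt_nonneg _

private theorem it_l2_add {f g : ℂ → ℂ} (hf : IsTest f) (hg : IsTest g) :
    l2 (fun z => f z + g z) ≤ l2 f + l2 g :=
  l2_add_le hf.1.continuous hg.1.continuous (it_sq hf) (it_sq hg)

/-- one step -/
private def TT (g f : ℂ → ℂ) : ℂ → ℂ := fun z => g z * cau (dz f) z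

private theorem TT_test {g f : ℂ → ℂ} (hg : IsTest g) (hf : IsTest f) : IsTest (TT g f) :=
  hg.mul (cau_smooth hf.dz)

private theorem TT_dzb {g f : ℂ → ℂ} (hg : IsTest g) (hf : IsTest f) :
    dzb (TT g f) = fun z => TT (dzb g) f z + TT g (dzb f) z := by
  funext z
  have h1 : dzb (cau (dz f)) = cau (dz (dzb f)) := by
    rw [dzb_cau' hf.dz, dz_dzb hf.1]
  show dzb (fun z => g z * cau (dz f) z) z = _
  rw [dzb_mul (it_diff hg.1 z) (it_diff (cau_smooth hf.dz) z), h1]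
  rfl

private theorem TT_zero {g f : ℂ → ℂ} (hg : IsTest g) (hf : IsTest f) {M : ℝ} (hM : 0 ≤ M)
    (h : ∀ z, ‖g z‖ ≤ M) : l2 (TT g f) ≤ M * l2 f := by
  have h1 := l2_mul_le (f := cau (dz f)) (beurling_sq_integrable hf) hM hg.1.continuous
    (cau_smooth hf.dz).continuous h
  rwa [beurling_isometry hf] at h1

private theorem TT_succ {g f : ℂ → ℂ} (hg : IsTest g) (hf : IsTest f) (j : ℕ) :
    l2 (dzb^[j + 1] (TT g f)) ≤ l2 (dzb^[j] (TT (dzb g) f)) + l2 (dzb^[j] (TT g (dzb f))) := by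
  rw [Function.iterate_succ_apply, TT_dzb hg hf, it_add (TT_test hg.dzb hf) (TT_test hg hf.dzb)]
  exact it_l2_add (it_test (TT_test hg.dzb hf) j) (it_test (TT_test hg hf.dzb) j)

private theorem sum_shift (f : ℂ → ℂ) (j : ℕ) :
    ∑ i ∈ Finset.range j, l2 (dzb^[i] (dzb f)) ≤ ∑ i ∈ Finset.range (j + 1), l2 (dzb^[i] f) := by
  rw [Finset.sum_range_succ']
  have : ∀ i ∈ Finset.range j, l2 (dzb^[i] (dzb f)) = l2 (dzb^[i + 1] f) := by
    intro i _
    rw [Function.iterate_succ_apply]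
  rw [Finset.sum_congr rfl this]
  have := it_l2_nonneg (dzb^[0] f)
  linarith

private theorem TT_crude (j : ℕ) : ∀ g : ℂ → ℂ, IsTest g → ∃ C, 0 ≤ C ∧ ∀ f, IsTest f →
    l2 (dzb^[j] (TT g f)) ≤ C * ∑ i ∈ Finset.range (j + 1), l2 (dzb^[i] f) := by
  induction j with
  | zero =>
    intro g hg
    obtain ⟨M, r, hM, -, hb, -⟩ := hg.bound
    refine ⟨M, hM, fun f hf => ?_⟩
    simpa using TT_zero hg hf hM hb
  | succ j ih =>
    intro g hg
    obtain ⟨C1, hC1, h1⟩ := ih (dzb g) hg.dzb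
    obtain ⟨C2, hC2, h2⟩ := ih g hg
    refine ⟨C1 + C2, by positivity, fun f hf => ?_⟩
    have e1 := TT_succ hg hf j
    have e2 := h1 f hf
    have e3 := h2 (dzb f) hf.dzb
    have e4 : ∑ i ∈ Finset.range (j + 1), l2 (dzb^[i] f) ≤
        ∑ i ∈ Finset.range (j + 1 + 1), l2 (dzb^[i] f) := by
      rw [Finset.sum_range_succ _ (j + 1)]
      have := it_l2_nonneg (dzb^[j + 1] f)
      linarith
    have e5 := sum_shift f (j + 1)
    calc l2 (dzb^[j + 1] (TT g f)) ≤ _ := e1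
      _ ≤ C1 * ∑ i ∈ Finset.range (j + 1), l2 (dzb^[i] f) +
          C2 * ∑ i ∈ Finset.range (j + 1), l2 (dzb^[i] (dzb f)) := add_le_add e2 e3
      _ ≤ C1 * ∑ i ∈ Finset.range (j + 1 + 1), l2 (dzb^[i] f) +
          C2 * ∑ i ∈ Finset.range (j + 1 + 1), l2 (dzb^[i] f) :=
        add_le_add (mul_le_mul_of_nonneg_left e4 hC1) (mul_le_mul_of_nonneg_left e5 hC2)
      _ = _ := by ring

private theorem TT_sharp {α : ℂ → ℂ} (hα : IsTest α) (h1 : ∀ z, ‖α z‖ ≤ 1) (j : ℕ) :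
    ∃ C, 0 ≤ C ∧ ∀ f, IsTest f → l2 (dzb^[j] (TT α f)) ≤
      l2 (dzb^[j] f) + C * ∑ i ∈ Finset.range j, l2 (dzb^[i] f) := by
  induction j with
  | zero =>
    refine ⟨0, le_rfl, fun f hf => ?_⟩
    have := TT_zero hα hf zero_le_one h1
    simpa using this
  | succ j ih =>
    obtain ⟨C2, hC2, h2⟩ := ih
    obtain ⟨C1, hC1, h3⟩ := TT_crude j (dzb α) hα.dzb
    refine ⟨C1 + C2, by positivity, fun f hf => ?_⟩
    have e1 := TT_succ hα hf j
    have e2 := h3 f hf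
    have e3 := h2 (dzb f) hf.dzb
    have e5 := sum_shift f j
    have e6 : l2 (dzb^[j] (dzb f)) = l2 (dzb^[j + 1] f) := by rw [Function.iterate_succ_apply]
    rw [e6] at e3
    have e7 := mul_le_mul_of_nonneg_left e5 hC2
    linarith

theorem iter_l2 {α β : ℂ → ℂ} (hα : IsTest α) (h1 : ∀ z, ‖α z‖ ≤ 1) (hβ : IsTest β) (j : ℕ) :
    ∃ C, ∀ n : ℕ, l2 (dzb^[j] (iter α β n)) ≤ C * (n + 1) ^ j := by
  induction j using Nat.strong_induction_on with
  | _ j ih =>
    choose! c hc using ih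
    obtain ⟨C, hC, hsh⟩ := TT_sharp hα h1 j
    set K : ℝ := C * ∑ i ∈ Finset.range j, |c i| with hK
    have hK0 : 0 ≤ K := by positivity
    have hN0 := it_l2_nonneg (dzb^[j] β)
    refine ⟨l2 (dzb^[j] β) + K, fun n => ?_⟩
    induction n with
    | zero =>
      simp only [Nat.cast_zero, zero_add, one_pow, mul_one]
      show l2 (dzb^[j] β) ≤ _
      linarith
    | succ n ihn =>
      have e1 : l2 (dzb^[j] (iter α β (n + 1))) ≤ _ := hsh (iter α β n) (iter_test hα hβ n)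
      have hn1 : (1 : ℝ) ≤ (n : ℝ) + 1 := by
        have : (0 : ℝ) ≤ n := Nat.cast_nonneg n
        linarith
      rcases Nat.eq_zero_or_pos j with rfl | hj
      · simp only [Finset.range_zero, Finset.sum_empty, mul_zero, add_zero, pow_zero,
          mul_one] at e1 ihn ⊢
        exact e1.trans ihn
      · have e2 : C * ∑ i ∈ Finset.range j, l2 (dzb^[i] (iter α β n)) ≤ K * (n + 1) ^ (j - 1) := by
          rw [hK, mul_assoc, Finset.sum_mul]
          refine mul_le_mul_of_nonneg_left (Finset.sum_le_sum fun i hi => ?_) hC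
          rw [Finset.mem_range] at hi
          calc l2 (dzb^[i] (iter α β n)) ≤ c i * (n + 1) ^ i := hc i hi n
            _ ≤ |c i| * (n + 1) ^ i := mul_le_mul_of_nonneg_right (le_abs_self _) (by positivity)
            _ ≤ |c i| * (n + 1) ^ (j - 1) := by
              refine mul_le_mul_of_nonneg_left (pow_le_pow_right₀ hn1 (by omega)) (abs_nonneg _)
        have e3 : ((n : ℝ) + 1) ^ j + (n + 1) ^ (j - 1) ≤ ((n : ℝ) + 1 + 1) ^ j := by
          obtain ⟨k, rfl⟩ : ∃ k, j = k + 1 := ⟨j - 1, by omega⟩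
          simp only [Nat.add_sub_cancel]
          have h2 : ((n : ℝ) + 1) ^ k ≤ ((n : ℝ) + 1 + 1) ^ k :=
            pow_le_pow_left₀ (by linarith) (by linarith) k
          calc ((n : ℝ) + 1) ^ (k + 1) + (n + 1) ^ k = ((n : ℝ) + 1) ^ k * (n + 1 + 1) := by ring
            _ ≤ ((n : ℝ) + 1 + 1) ^ k * (n + 1 + 1) :=
              mul_le_mul_of_nonneg_right h2 (by linarith)
            _ = _ := by ring
        have e4 : (0 : ℝ) ≤ ((n : ℝ) + 1) ^ (j - 1) := by positivity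
        push_cast
        calc l2 (dzb^[j] (iter α β (n + 1))) ≤ l2 (dzb^[j] (iter α β n)) +
              C * ∑ i ∈ Finset.range j, l2 (dzb^[i] (iter α β n)) := e1
          _ ≤ (l2 (dzb^[j] β) + K) * (n + 1) ^ j + K * (n + 1) ^ (j - 1) := add_le_add ihn e2
          _ ≤ (l2 (dzb^[j] β) + K) * (((n : ℝ) + 1) ^ j + (n + 1) ^ (j - 1)) := by
            nlinarith
          _ ≤ (l2 (dzb^[j] β) + K) * ((n : ℝ) + 1 + 1) ^ j :=
            mul_le_mul_of_nonneg_left e3 (by linarith)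

/-! ### Derivatives of all orders -/

/-- `c ↦ (v ↦ c v)` -/
private def LA : ℂ →L[ℝ] (ℂ →L[ℝ] ℂ) := ContinuousLinearMap.mul ℝ ℂ

/-- `c ↦ (v ↦ c conj v)` -/
private def LB : ℂ →L[ℝ] (ℂ →L[ℝ] ℂ) :=
  ((ContinuousLinearMap.compL ℝ ℂ ℂ ℂ).flip (Complex.conjCLE : ℂ →L[ℝ] ℂ)).comp LA

private theorem fderiv_fun {f : ℂ → ℂ} :
    fderiv ℝ f = fun z => LA (dz f z) + LB (dzb f z) := by
  funext z
  ext1 v
  rw [fderiv_eq v]
  simp [LA, LB]

private theorem it_dz_comm {f : ℂ → ℂ} (hf : IsTest f) (j : ℕ) :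
    dzb^[j] (dz f) = dz (dzb^[j] f) := by
  induction j generalizing f with
  | zero => rfl
  | succ j ih =>
    rw [Function.iterate_succ_apply, Function.iterate_succ_apply, ← dz_dzb hf.1]
    exact ih hf.dzb

private theorem it_out {f : ℂ → ℂ} {r : ℝ} (h : ∀ z, r < ‖z‖ → f z = 0) (z : ℂ) (hz : r < ‖z‖) :
    f =ᶠ[𝓝 z] fun _ => 0 := by
  have : {w : ℂ | r < ‖w‖} ∈ 𝓝 z := (isOpen_lt continuous_const continuous_norm).mem_nhds hz
  filter_upwards [this] with w hw
  exact h w hw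

private theorem it_dz_out {f : ℂ → ℂ} {r : ℝ} (h : ∀ z, r < ‖z‖ → f z = 0) (z : ℂ)
    (hz : r < ‖z‖) : dz f z = 0 := by
  rw [dz_congr (it_out h z hz)]
  unfold dz
  simp

private theorem it_dzb_out {f : ℂ → ℂ} {r : ℝ} (h : ∀ z, r < ‖z‖ → f z = 0) (z : ℂ)
    (hz : r < ‖z‖) : dzb f z = 0 := by
  rw [dzb_congr (it_out h z hz)]
  unfold dzb
  simp

private theorem it_fd (r : ℝ) (m : ℕ) : ∃ C, 0 ≤ C ∧ ∀ f : ℂ → ℂ, IsTest f →
    (∀ z, r < ‖z‖ → f z = 0) → ∀ z, ‖iteratedFDeriv ℝ m f z‖ ≤ C * l2 (dzb^[m + 2] f) := by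
  induction m with
  | zero =>
    obtain ⟨C, hC, h⟩ := sup_le_l2 r
    refine ⟨C, hC, fun f hf hr z => ?_⟩
    rw [norm_iteratedFDeriv_zero]
    exact h f hf hr z
  | succ m ih =>
    obtain ⟨C, hC, h⟩ := ih
    refine ⟨(‖LA‖ + ‖LB‖) * C, by positivity, fun f hf hr z => ?_⟩
    rw [← norm_iteratedFDeriv_fderiv, fderiv_fun]
    have hz1 : ContDiff ℝ ∞ (dz f) := dz_smooth hf.1
    have hz2 : ContDiff ℝ ∞ (dzb f) := dzb_smooth hf.1
    have c1 : ContDiffAt ℝ m (dz f) z := (hz1.of_le (by exact_mod_cast le_top)).contDiffAt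
    have c2 : ContDiffAt ℝ m (dzb f) z := (hz2.of_le (by exact_mod_cast le_top)).contDiffAt
    have k1 : ContDiffAt ℝ m (fun z => LA (dz f z)) z := LA.contDiff.contDiffAt.comp z c1
    have k2 : ContDiffAt ℝ m (fun z => LB (dzb f z)) z := LB.contDiff.contDiffAt.comp z c2
    have e0 : iteratedFDeriv ℝ m (fun z => LA (dz f z) + LB (dzb f z)) z =
        iteratedFDeriv ℝ m (fun z => LA (dz f z)) z +
          iteratedFDeriv ℝ m (fun z => LB (dzb f z)) z := by
      have := iteratedFDeriv_add_apply k1 k2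
      exact this
    have e1 : ‖iteratedFDeriv ℝ m (fun z => LA (dz f z)) z‖ ≤
        ‖LA‖ * ‖iteratedFDeriv ℝ m (dz f) z‖ := by
      have := LA.iteratedFDeriv_comp_left (f := dz f) c1 (i := m) le_rfl
      have h2 : iteratedFDeriv ℝ m (fun z => LA (dz f z)) z =
        LA.compContinuousMultilinearMap (iteratedFDeriv ℝ m (dz f) z) := this
      rw [h2]
      exact LA.norm_compContinuousMultilinearMap_le _
    have e2 : ‖iteratedFDeriv ℝ m (fun z => LB (dzb f z)) z‖ ≤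
        ‖LB‖ * ‖iteratedFDeriv ℝ m (dzb f) z‖ := by
      have := LB.iteratedFDeriv_comp_left (f := dzb f) c2 (i := m) le_rfl
      have h2 : iteratedFDeriv ℝ m (fun z => LB (dzb f z)) z =
        LB.compContinuousMultilinearMap (iteratedFDeriv ℝ m (dzb f) z) := this
      rw [h2]
      exact LB.norm_compContinuousMultilinearMap_le _
    have e3 := h (dz f) hf.dz (it_dz_out hr) z
    have e4 := h (dzb f) hf.dzb (it_dzb_out hr) z
    have e5 : l2 (dzb^[m + 2] (dz f)) = l2 (dzb^[m + 1 + 2] f) := by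
      rw [it_dz_comm hf, l2_dz_eq (it_test hf _), ← Function.iterate_succ_apply' dzb]
    have e6 : l2 (dzb^[m + 2] (dzb f)) = l2 (dzb^[m + 1 + 2] f) := by
      rw [← Function.iterate_succ_apply]
    rw [e5] at e3
    rw [e6] at e4
    rw [e0]
    calc _ ≤ ‖iteratedFDeriv ℝ m (fun z => LA (dz f z)) z‖ +
          ‖iteratedFDeriv ℝ m (fun z => LB (dzb f z)) z‖ := norm_add_le _ _
      _ ≤ ‖LA‖ * (C * l2 (dzb^[m + 1 + 2] f)) + ‖LB‖ * (C * l2 (dzb^[m + 1 + 2] f)) :=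
        add_le_add (e1.trans (mul_le_mul_of_nonneg_left e3 (by positivity)))
          (e2.trans (mul_le_mul_of_nonneg_left e4 (by positivity)))
      _ = _ := by ring

theorem iter_fderiv {α β : ℂ → ℂ} (hα : IsTest α) (h1 : ∀ z, ‖α z‖ ≤ 1) (hβ : IsTest β) (m : ℕ) :
    ∃ C, ∀ n : ℕ, ∀ z, ‖iteratedFDeriv ℝ m (iter α β n) z‖ ≤ C * (n + 1) ^ (m + 2) := by
  obtain ⟨-, r1, -, -, -, hr1⟩ := hα.bound
  obtain ⟨-, r2, -, -, -, hr2⟩ := hβ.bound
  obtain ⟨C, hC, h⟩ := it_fd (max r1 r2) m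
  obtain ⟨C', h'⟩ := iter_l2 hα h1 hβ (m + 2)
  refine ⟨C * C', fun n z => ?_⟩
  refine (h (iter α β n) (iter_test hα hβ n) (fun z hz => ?_) z).trans ?_
  · exact iter_supp (r := max r1 r2) (fun z hz => hr1 z ((le_max_left _ _).trans_lt hz))
      (fun z hz => hr2 z ((le_max_right _ _).trans_lt hz)) n hz
  · rw [mul_assoc]
    exact mul_le_mul_of_nonneg_left (h' n) hC

end Pool.Agent.QCD
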