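import Pool.Agent.Lib.MP_f30fea_an.Base
import Pool.Agent.Lib.MP_f30fea_an.Iter

/-!
# The solution `h = ∑ lⁿ iter n` of `h = β + l α cau (dz h)`

`∑ |l|ⁿ C (n+1)^(m+2)` converges for `|l| < 1`, so `h l` is smooth (`contDiff_tsum`), `dz (h l)` is the
sum of the `dz (iter n)` (`fderiv_tsum` or from `hasFDerivAt_tsum`), and `cau` may be applied
termwise (dominated convergence: uniform convergence and common bounded support).  So
`cau (dz (h l)) = ∑ lⁿ cau (dz (iter n))` and the equation follows.  `l ↦ cau (h l) z =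
∑ lⁿ cau (iter n) z` is a power series with coefficients `O((n+1)²)` (`cau_decay` with `M = C (n+1)²`
is linear in `M`; or estimate directly).
-/

open Complex MeasureTheory Filter Topology Set
open scoped ContDiff ENNReal ComplexConjugate

noncomputable section

namespace Pool.Agent.QCD

private theorem sol_summable (m : ℕ) {r : ℝ} (h0 : 0 ≤ r) (h1 : r < 1) (C : ℝ) :
    Summable (fun n : ℕ => r ^ n * (C * ((n : ℝ) + 1) ^ m)) := by
  have h2 : Summable (fun n : ℕ => (n : ℝ) ^ m * r ^ n) :=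
    summable_pow_mul_geometric_of_norm_lt_one m (by rwa [Real.norm_of_nonneg h0])
  have h3 : Summable (fun n : ℕ => r ^ n) := summable_geometric_of_lt_one h0 h1
  have h4 : Summable (fun n : ℕ => ((n : ℝ) + 1) ^ m * r ^ n) := by
    refine Summable.of_nonneg_of_le (fun n => by positivity) (fun n => ?_)
      ((h2.add h3).mul_left (2 ^ m))
    have h5 : ((n : ℝ) + 1) ^ m ≤ 2 ^ m * ((n : ℝ) ^ m + 1) := by
      rcases Nat.eq_zero_or_pos n with hn | hn
      · subst hn
        have : (1 : ℝ) ≤ 2 ^ m := one_le_pow₀ (by norm_num)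
        have h6 : (0 : ℝ) ≤ 0 ^ m := by positivity
        simp only [Nat.cast_zero, zero_add, one_pow]
        nlinarith
      · have hn' : (1 : ℝ) ≤ n := by exact_mod_cast hn
        calc ((n : ℝ) + 1) ^ m ≤ (2 * n) ^ m := pow_le_pow_left₀ (by positivity) (by linarith) m
          _ = 2 ^ m * (n : ℝ) ^ m := mul_pow _ _ _
          _ ≤ 2 ^ m * ((n : ℝ) ^ m + 1) := by
              have : (0 : ℝ) ≤ 2 ^ m := by positivity
              nlinarith
    have h7 : 0 ≤ r ^ n := by positivity
    nlinarith [mul_le_mul_of_nonneg_right h5 h7]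
  refine (h4.mul_left C).congr fun n => ?_
  ring

/-- termwise Cauchy transform -/
private theorem sol_cau {g : ℕ → ℂ → ℂ} (hg : ∀ n, Measurable (g n)) {M : ℕ → ℝ}
    (hM : ∀ n z, ‖g n z‖ ≤ M n) {r : ℝ} (hr : ∀ n z, r < ‖z‖ → g n z = 0) (l : ℂ)
    (hs : Summable (fun n => ‖l‖ ^ n * M n)) (z : ℂ) :
    HasSum (fun n => l ^ n * cau (g n) z) (cau (fun ζ => ∑' n, l ^ n * g n ζ) z) := by
  set K : ℂ → ℂ := (Metric.closedBall (0 : ℂ) r).indicator (fun _ => 1) with hK
  have hKm : Measurable K := measurable_const.indicator Metric.isClosed_closedBall.measurableSet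
  have hKb : ∀ z, ‖K z‖ ≤ 1 := by
    intro z
    rw [hK]
    by_cases h : z ∈ Metric.closedBall (0 : ℂ) r
    · rw [Set.indicator_of_mem h]
      simp
    · rw [Set.indicator_of_notMem h]
      simp
  have hKr : ∀ z, r < ‖z‖ → K z = 0 := by
    intro z hz
    rw [hK, Set.indicator_of_notMem]
    rw [mem_closedBall_zero_iff]
    exact not_le.2 hz
  have hK1 : ∀ z, ‖z‖ ≤ r → K z = 1 := by
    intro z hz
    rw [hK, Set.indicator_of_mem]
    exact mem_closedBall_zero_iff.2 hz
  have hKi : Integrable (fun ζ => K ζ / (z - ζ)) := cau_integrable hKm hKb hKr z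
  have hM0 : ∀ n, 0 ≤ M n := fun n => (norm_nonneg _).trans (hM n 0)
  have hle : ∀ n ζ, ‖l ^ n * (g n ζ / (z - ζ))‖ ≤ (‖l‖ ^ n * M n) * ‖K ζ / (z - ζ)‖ := by
    intro n ζ
    rcases le_or_gt ‖ζ‖ r with h | h
    · rw [hK1 ζ h, norm_mul, norm_pow, norm_div, norm_div, norm_one, mul_assoc]
      refine mul_le_mul_of_nonneg_left ?_ (by positivity)
      rw [mul_one_div]
      exact div_le_div_of_nonneg_right (hM n ζ) (norm_nonneg _)
    · rw [hr n ζ h]
      simp only [zero_div, mul_zero, norm_zero]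
      have := hM0 n
      positivity
  have key := hasSum_integral_of_dominated_convergence
    (μ := (volume : Measure ℂ)) (F := fun n ζ => l ^ n * (g n ζ / (z - ζ)))
    (f := fun ζ => (∑' n, l ^ n * g n ζ) / (z - ζ))
    (fun n ζ => (‖l‖ ^ n * M n) * ‖K ζ / (z - ζ)‖) ?_ ?_ ?_ ?_ ?_
  · have key2 := key.mul_left ((Real.pi : ℂ)⁻¹)
    have e : (fun n => l ^ n * cau (g n) z) =
        fun n => (Real.pi : ℂ)⁻¹ * ∫ ζ, l ^ n * (g n ζ / (z - ζ)) := by
      funext n
      unfold cau
      rw [integral_const_mul]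
      ring
    rw [e]
    exact key2
  · intro n
    have h2 : Measurable (fun ζ => l ^ n * (g n ζ / (z - ζ))) :=
      measurable_const.mul ((hg n).div (measurable_const.sub measurable_id))
    exact h2.aestronglyMeasurable
  · exact fun n => Eventually.of_forall fun ζ => hle n ζ
  · exact Eventually.of_forall fun ζ => hs.mul_right _
  · simp_rw [tsum_mul_right]
    exact hKi.norm.const_mul _
  · refine Eventually.of_forall fun ζ => ?_
    have h3 : Summable (fun n => l ^ n * g n ζ) := by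
      refine Summable.of_norm_bounded hs fun n => ?_
      rw [norm_mul, norm_pow]
      exact mul_le_mul_of_nonneg_left (hM n ζ) (by positivity)
    have h4 := h3.hasSum.div_const (z - ζ)
    simpa only [mul_div_assoc] using h4

private theorem sol_dz_le {f : ℂ → ℂ} {z : ℂ} : ‖dz f z‖ ≤ ‖fderiv ℝ f z‖ := by
  unfold dz
  have h1 : ‖fderiv ℝ f z 1‖ ≤ ‖fderiv ℝ f z‖ := by
    simpa using (fderiv ℝ f z).le_opNorm 1
  have h2 : ‖fderiv ℝ f z I‖ ≤ ‖fderiv ℝ f z‖ := by
    simpa using (fderiv ℝ f z).le_opNorm I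
  rw [norm_div, Complex.norm_two]
  have h3 : ‖fderiv ℝ f z 1 - I * fderiv ℝ f z I‖ ≤ ‖fderiv ℝ f z‖ + ‖fderiv ℝ f z‖ := by
    refine (norm_sub_le _ _).trans (add_le_add h1 ?_)
    rw [norm_mul, Complex.norm_I, one_mul]
    exact h2
  linarith

private theorem sol_dz_mul {f : ℂ → ℂ} {z : ℂ} (hf : DifferentiableAt ℝ f z) (c : ℂ) :
    dz (fun z => c * f z) z = c * dz f z := by
  unfold dz
  rw [fderiv_const_mul hf]
  simp only [FunLike.coe_smul, Pi.smul_apply, smul_eq_mul]
  ring

theorem exists_sol {α β : ℂ → ℂ} (hα : IsTest α) (h1 : ∀ z, ‖α z‖ ≤ 1) (hβ : IsTest β) :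
    ∃ h : ℂ → ℂ → ℂ, (∀ l : ℂ, ‖l‖ < 1 → IsTest (h l)) ∧
      (∀ l : ℂ, ‖l‖ < 1 → ∀ z, h l z = β z + l * α z * cau (dz (h l)) z) ∧
      (∀ z, h 0 z = β z) ∧
      (∀ z, DifferentiableOn ℂ (fun l => cau (h l) z) (Metric.ball 0 1)) := by
  obtain ⟨Ma, ra, -, -, -, hra⟩ := hα.bound
  obtain ⟨Mb, rb, -, -, -, hrb⟩ := hβ.bound
  set r := max ra rb with hr
  have hsα : ∀ z, r < ‖z‖ → α z = 0 := fun z hz => hra z ((le_max_left _ _).trans_lt hz)
  have hsβ : ∀ z, r < ‖z‖ → β z = 0 := fun z hz => hrb z ((le_max_right _ _).trans_lt hz)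
  have hit : ∀ n z, r < ‖z‖ → iter α β n z = 0 := fun n z hz => iter_supp hsα hsβ n hz
  have htest : ∀ n, IsTest (iter α β n) := iter_test hα hβ
  choose C hC using fun m => iter_fderiv hα h1 hβ m
  have hdiff : ∀ n, Differentiable ℝ (iter α β n) := fun n => (htest n).1.differentiable (by simp)
  -- bounds
  have hb0 : ∀ n z, ‖iter α β n z‖ ≤ C 0 * ((n : ℝ) + 1) ^ 2 := by
    intro n z
    have := hC 0 n z
    rwa [norm_iteratedFDeriv_zero] at this
  have hb1 : ∀ n z, ‖fderiv ℝ (iter α β n) z‖ ≤ C 1 * ((n : ℝ) + 1) ^ 3 := by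
    intro n z
    have := hC 1 n z
    rwa [norm_iteratedFDeriv_one] at this
  have hb2 : ∀ n z, ‖dz (iter α β n) z‖ ≤ C 1 * ((n : ℝ) + 1) ^ 3 :=
    fun n z => sol_dz_le.trans (hb1 n z)
  have hdzr : ∀ n z, r < ‖z‖ → dz (iter α β n) z = 0 := by
    intro n z hz
    have h2 : iter α β n =ᶠ[𝓝 z] fun _ => 0 := by
      have h3 : IsOpen {z : ℂ | r < ‖z‖} := isOpen_lt continuous_const continuous_norm
      filter_upwards [h3.mem_nhds hz] with w hw
      exact hit n w hw
    unfold dz
    rw [h2.fderiv_eq]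
    simp
  set h : ℂ → ℂ → ℂ := fun l z => ∑' n, l ^ n * iter α β n z with hh
  -- derivative
  have hdz : ∀ l : ℂ, ‖l‖ < 1 → ∀ z, HasSum (fun n => l ^ n * dz (iter α β n) z) (dz (h l) z) := by
    intro l hl z
    have hd : ∀ n z, HasFDerivAt (fun z => l ^ n * iter α β n z)
        (l ^ n • fderiv ℝ (iter α β n) z) z := fun n z => (hdiff n z).hasFDerivAt.const_mul _
    have hbd : ∀ n z, ‖l ^ n • fderiv ℝ (iter α β n) z‖ ≤ ‖l‖ ^ n * (C 1 * ((n : ℝ) + 1) ^ 3) := by
      intro n z
      rw [norm_smul, norm_pow]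
      exact mul_le_mul_of_nonneg_left (hb1 n z) (by positivity)
    have hs1 := sol_summable 3 (norm_nonneg l) hl (C 1)
    have hs0 : Summable (fun n => l ^ n * iter α β n 0) := by
      refine Summable.of_norm_bounded (sol_summable 2 (norm_nonneg l) hl (C 0)) fun n => ?_
      rw [norm_mul, norm_pow]
      exact mul_le_mul_of_nonneg_left (hb0 n 0) (by positivity)
    have h2 := hasFDerivAt_tsum hs1 hd hbd hs0 z
    have h3 : Summable (fun n => l ^ n • fderiv ℝ (iter α β n) z) :=
      Summable.of_norm_bounded hs1 fun n => hbd n z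
    have h4 := h3.hasSum
    have e1 := (ContinuousLinearMap.apply ℝ ℂ (1 : ℂ)).hasSum h4
    have e2 := (ContinuousLinearMap.apply ℝ ℂ I).hasSum h4
    have e3 := (e1.sub (e2.mul_left I)).div_const 2
    have e4 : dz (h l) z = ((ContinuousLinearMap.apply ℝ ℂ (1 : ℂ))
        (∑' n, l ^ n • fderiv ℝ (iter α β n) z) - I * (ContinuousLinearMap.apply ℝ ℂ I)
        (∑' n, l ^ n • fderiv ℝ (iter α β n) z)) / 2 := by
      unfold dz
      rw [h2.fderiv]
      rfl
    rw [e4]
    have e5 : (fun n => l ^ n * dz (iter α β n) z) = fun n =>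
        ((ContinuousLinearMap.apply ℝ ℂ (1 : ℂ)) (l ^ n • fderiv ℝ (iter α β n) z) -
          I * (ContinuousLinearMap.apply ℝ ℂ I) (l ^ n • fderiv ℝ (iter α β n) z)) / 2 := by
      funext n
      unfold dz
      simp only [ContinuousLinearMap.apply_apply, FunLike.coe_smul, Pi.smul_apply, smul_eq_mul]
      ring
    rw [e5]
    exact e3
  have hdzeq : ∀ l : ℂ, ‖l‖ < 1 → dz (h l) = fun z => ∑' n, l ^ n * dz (iter α β n) z :=
    fun l hl => funext fun z => (hdz l hl z).tsum_eq.symm
  have hcdz : ∀ l : ℂ, ‖l‖ < 1 → ∀ z,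
      HasSum (fun n => l ^ n * cau (dz (iter α β n)) z) (cau (dz (h l)) z) := by
    intro l hl z
    rw [hdzeq l hl]
    exact sol_cau (fun n => (dz_smooth (htest n).1).continuous.measurable) hb2 hdzr l
      (sol_summable 3 (norm_nonneg l) hl (C 1)) z
  have hch : ∀ l : ℂ, ‖l‖ < 1 → ∀ z,
      HasSum (fun n => l ^ n * cau (iter α β n) z) (cau (h l) z) := by
    intro l hl z
    exact sol_cau (fun n => (htest n).1.continuous.measurable) hb0 hit l
      (sol_summable 2 (norm_nonneg l) hl (C 0)) z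
  refine ⟨h, ?_, ?_, ?_, ?_⟩
  · intro l hl
    refine ⟨?_, ?_⟩
    · refine contDiff_tsum (N := ⊤)
        (v := fun (m : ℕ) (n : ℕ) => ‖l‖ ^ n * (C m * ((n : ℝ) + 1) ^ (m + 2)))
        (fun n => contDiff_const.mul (htest n).1)
        (fun m _ => sol_summable (m + 2) (norm_nonneg l) hl (C m)) fun m n z _ => ?_
      have e : (fun z => l ^ n * iter α β n z) = l ^ n • iter α β n := rfl
      rw [e, iteratedFDeriv_const_smul_apply ((htest n).1.contDiffAt.of_le (mod_cast le_top)),
        norm_smul, norm_pow]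
      exact mul_le_mul_of_nonneg_left (hC m n z) (by positivity)
    · refine HasCompactSupport.intro (isCompact_closedBall (0 : ℂ) r) fun z hz => ?_
      rw [mem_closedBall_zero_iff, not_le] at hz
      rw [hh]
      simp only [hit _ z hz, mul_zero, tsum_zero]
  · intro l hl z
    have hs0 : Summable (fun n => l ^ n * iter α β n z) := by
      refine Summable.of_norm_bounded (sol_summable 2 (norm_nonneg l) hl (C 0)) fun n => ?_
      rw [norm_mul, norm_pow]
      exact mul_le_mul_of_nonneg_left (hb0 n z) (by positivity)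
    have e1 : h l z = ∑' n, l ^ n * iter α β n z := rfl
    rw [e1, hs0.tsum_eq_zero_add, pow_zero, one_mul]
    have e2 : iter α β 0 z = β z := rfl
    rw [e2]
    congr 1
    have e3 : ∀ n, l ^ (n + 1) * iter α β (n + 1) z =
        l * α z * (l ^ n * cau (dz (iter α β n)) z) := by
      intro n
      have e4 : iter α β (n + 1) z = α z * cau (dz (iter α β n)) z := rfl
      rw [e4]
      ring
    simp_rw [e3]
    rw [tsum_mul_left, (hcdz l hl z).tsum_eq]
  · intro z
    have e1 : h 0 z = ∑' n, (0 : ℂ) ^ n * iter α β n z := rfl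
    rw [e1, tsum_eq_single 0]
    · rw [pow_zero, one_mul]
      rfl
    · intro n hn
      rw [zero_pow hn, zero_mul]
  · intro z l hl
    rw [mem_ball_zero_iff] at hl
    obtain ⟨ρ, hρ1, hρ2⟩ := exists_between hl
    have hρ0 : 0 ≤ ρ := (norm_nonneg l).trans hρ1.le
    -- bound of the coefficients
    obtain ⟨B, hB⟩ : ∃ B : ℝ, ∀ n : ℕ, ‖cau (iter α β n) z‖ ≤ B * ((n : ℝ) + 1) ^ 2 := by
      set K : ℂ → ℂ := (Metric.closedBall (0 : ℂ) r).indicator (fun _ => 1) with hK
      have hKm : Measurable K :=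
        measurable_const.indicator Metric.isClosed_closedBall.measurableSet
      have hKb : ∀ z, ‖K z‖ ≤ 1 := by
        intro z
        rw [hK]
        by_cases h : z ∈ Metric.closedBall (0 : ℂ) r
        · rw [Set.indicator_of_mem h]
          simp
        · rw [Set.indicator_of_notMem h]
          simp
      have hKr : ∀ z, r < ‖z‖ → K z = 0 := by
        intro z hz
        rw [hK, Set.indicator_of_notMem]
        rw [mem_closedBall_zero_iff]
        exact not_le.2 hz
      have hKi : Integrable (fun ζ => K ζ / (z - ζ)) := cau_integrable hKm hKb hKr z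
      refine ⟨Real.pi⁻¹ * (C 0 * ∫ ζ, ‖K ζ / (z - ζ)‖), fun n => ?_⟩
      have h2 : ‖∫ ζ, iter α β n ζ / (z - ζ)‖ ≤
          ∫ ζ, (C 0 * ((n : ℝ) + 1) ^ 2) * ‖K ζ / (z - ζ)‖ := by
        refine norm_integral_le_of_norm_le (hKi.norm.const_mul _) (Eventually.of_forall fun ζ => ?_)
        have hC0 : 0 ≤ C 0 * ((n : ℝ) + 1) ^ 2 := (norm_nonneg _).trans (hb0 n 0)
        rcases le_or_gt ‖ζ‖ r with h | h
        · have hK1 : K ζ = 1 := by
            rw [hK, Set.indicator_of_mem]
            exact mem_closedBall_zero_iff.2 h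
          rw [hK1, norm_div, norm_div, norm_one, mul_one_div]
          exact div_le_div_of_nonneg_right (hb0 n ζ) (norm_nonneg _)
        · rw [hit n ζ h]
          simp only [zero_div, norm_zero]
          positivity
      unfold cau
      rw [norm_mul, norm_inv, Complex.norm_real, Real.norm_of_nonneg Real.pi_pos.le]
      rw [integral_const_mul] at h2
      have h3 : 0 ≤ Real.pi⁻¹ := by positivity
      calc Real.pi⁻¹ * ‖∫ ζ, iter α β n ζ / (z - ζ)‖
          ≤ Real.pi⁻¹ * ((C 0 * ((n : ℝ) + 1) ^ 2) * ∫ ζ, ‖K ζ / (z - ζ)‖) :=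
            mul_le_mul_of_nonneg_left h2 h3
        _ = _ := by ring
    have hd : DifferentiableOn ℂ (fun l => ∑' n, l ^ n * cau (iter α β n) z)
        (Metric.ball 0 ρ) := by
      refine differentiableOn_tsum_of_summable_norm (sol_summable 2 hρ0 hρ2 B)
        (fun n => ((differentiable_id.pow n).mul_const _).differentiableOn) Metric.isOpen_ball
        fun n w hw => ?_
      rw [mem_ball_zero_iff] at hw
      rw [norm_mul, norm_pow]
      have h2 : 0 ≤ B * ((n : ℝ) + 1) ^ 2 := (norm_nonneg _).trans (hB n)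
      exact mul_le_mul (pow_le_pow_left₀ (norm_nonneg w) hw.le n) (hB n) (norm_nonneg _)
        (by positivity)
    have hlρ : l ∈ Metric.ball (0 : ℂ) ρ := mem_ball_zero_iff.2 hρ1
    have h5 : DifferentiableAt ℂ (fun l => ∑' n, l ^ n * cau (iter α β n) z) l :=
      (hd l hlρ).differentiableAt (Metric.isOpen_ball.mem_nhds hlρ)
    refine (h5.congr_of_eventuallyEq ?_).differentiableWithinAt
    filter_upwards [Metric.isOpen_ball.mem_nhds hlρ] with w hw
    rw [mem_ball_zero_iff] at hw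
    exact (hch w (hw.trans hρ2) z).tsum_eq.symm

end Pool.Agent.QCD
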