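import Pool.Agent.Lib.MP_f30fea_an.Base
import Pool.Agent.Lib.MP_f30fea_an.Sol

/-!
# Solutions of the Beltrami equation with coefficient `l α`
-/

open Complex MeasureTheory Filter Topology Set
open scoped ContDiff ENNReal ComplexConjugate

noncomputable section

namespace Pool.Agent.QCD

private theorem pre_dz_const (c z : ℂ) : dz (fun _ => c) z = 0 := by
  rw [dz_of_holo (differentiableAt_const c), deriv_const]

private theorem pre_dzb_const (c z : ℂ) : dzb (fun _ => c) z = 0 :=
  dzb_of_holo (differentiableAt_const c)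

private theorem pre_dz_id (z : ℂ) : dz (fun z => z) z = 1 := by
  rw [dz_of_holo (f := fun z : ℂ => z) differentiableAt_fun_id, deriv_id'']

private theorem pre_dzb_id (z : ℂ) : dzb (fun z => z) z = 0 :=
  dzb_of_holo (f := fun z : ℂ => z) differentiableAt_fun_id

private theorem pre_dz_cmul {f : ℂ → ℂ} {z : ℂ} (c : ℂ) (hf : DifferentiableAt ℝ f z) :
    dz (fun z => c * f z) z = c * dz f z := by
  rw [dz_mul (differentiableAt_const c) hf, pre_dz_const]
  ring

private theorem pre_dzb_cmul {f : ℂ → ℂ} {z : ℂ} (c : ℂ) (hf : DifferentiableAt ℝ f z) :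
    dzb (fun z => c * f z) z = c * dzb f z := by
  rw [dzb_mul (differentiableAt_const c) hf, pre_dzb_const]
  ring

private theorem pre_test_cmul {f : ℂ → ℂ} (c : ℂ) (hf : IsTest f) : IsTest (fun z => c * f z) := by
  have h := hf.mul (g := fun _ => c) contDiff_const
  have e : (fun z => f z * c) = fun z => c * f z := by
    funext z
    ring
  rwa [e] at h

/-- the Cauchy transform of a test function tends to `0` at infinity -/
private theorem pre_cau_tendsto {f : ℂ → ℂ} (hf : IsTest f) :
    Tendsto (cau f) (cocompact ℂ) (𝓝 0) := by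
  obtain ⟨M, r, _, _, hM, hr⟩ := hf.bound
  obtain ⟨C, hC⟩ := cau_decay M r
  have h1 := hC f hf.1.continuous.measurable hM hr
  have h2 : Tendsto (fun z : ℂ => C / (1 + ‖z‖)) (cocompact ℂ) (𝓝 0) := by
    have h3 : Tendsto (fun z : ℂ => 1 + ‖z‖) (cocompact ℂ) atTop :=
      tendsto_atTop_add_const_left _ _ (tendsto_norm_cocompact_atTop)
    exact h3.const_div_atTop C
  exact squeeze_zero_norm h1 h2

private theorem pre_l2_nonneg (f : ℂ → ℂ) : 0 ≤ l2 f := Real.sqrt_nonneg _

private theorem pre_l2_zero {f : ℂ → ℂ} (hf : IsTest f) (h : l2 f = 0) (z : ℂ) : f z = 0 := by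
  unfold l2 at h
  have h0 : 0 ≤ ∫ z, ‖f z‖ ^ 2 := integral_nonneg fun _ => by positivity
  rw [Real.sqrt_eq_zero h0] at h
  have hc : Continuous fun z => ‖f z‖ ^ 2 := (hf.1.continuous.norm).pow 2
  have hs : HasCompactSupport fun z => ‖f z‖ ^ 2 :=
    hf.2.comp_left (g := fun w : ℂ => ‖w‖ ^ 2) (by simp)
  by_contra hz
  have h1 : 0 < ∫ z, ‖f z‖ ^ 2 :=
    hc.integral_pos_of_hasCompactSupport_nonneg_nonzero hs (fun _ => by positivity) (x := z)
      (by simpa using hz)
  linarith

theorem exists_pre {α : ℂ → ℂ} (hα : IsTest α) (h1 : ∀ z, ‖α z‖ ≤ 1) :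
    ∃ P : ℂ → ℂ → ℂ, (∀ l : ℂ, ‖l‖ < 1 → ContDiff ℝ ∞ (P l)) ∧
      (∀ l : ℂ, ‖l‖ < 1 → ∀ z, dzb (P l) z = l * α z * dz (P l) z) ∧
      (∀ l : ℂ, ‖l‖ < 1 → ∀ z, dz (P l) z ≠ 0) ∧
      (∀ l : ℂ, ‖l‖ < 1 → ∃ C, ∀ z, ‖P l z - z‖ ≤ C) ∧
      (∀ z, P 0 z = z) ∧
      (∀ z, DifferentiableOn ℂ (fun l => P l z) (Metric.ball 0 1)) ∧
      (∀ z, deriv (fun l => P l z) 0 = cau α z) := by
  obtain ⟨h, hh1, hh2, hh3, hh4⟩ := exists_sol hα h1 hα
  have top_ne : (∞ : WithTop ℕ∞) ≠ 0 := by simp
  have hdiff : ∀ {f : ℂ → ℂ}, ContDiff ℝ ∞ f → Differentiable ℝ f := fun hf =>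
    hf.differentiable top_ne
  have hcs : ∀ l : ℂ, ‖l‖ < 1 → ContDiff ℝ ∞ (cau (h l)) := fun l hl => cau_smooth (hh1 l hl)
  have hsm : ∀ l : ℂ, ‖l‖ < 1 → ContDiff ℝ ∞ (fun z => z + l * cau (h l) z) := fun l hl =>
    contDiff_id.add (contDiff_const.mul (hcs l hl))
  have hPdz : ∀ l : ℂ, ‖l‖ < 1 → ∀ z, dz (fun z => z + l * cau (h l) z) z =
      1 + l * cau (dz (h l)) z := by
    intro l hl z
    have g1 := hdiff (hcs l hl) z
    rw [dz_add (f := fun z => z) (g := fun z => l * cau (h l) z) differentiableAt_fun_id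
      ((differentiableAt_const l).mul g1), pre_dz_id,
      pre_dz_cmul l g1, dz_cau (hh1 l hl)]
  have hPdzb : ∀ l : ℂ, ‖l‖ < 1 → ∀ z, dzb (fun z => z + l * cau (h l) z) z = l * h l z := by
    intro l hl z
    have g1 := hdiff (hcs l hl) z
    rw [dzb_add (f := fun z => z) (g := fun z => l * cau (h l) z) differentiableAt_fun_id
      ((differentiableAt_const l).mul g1), pre_dzb_id,
      pre_dzb_cmul l g1, dzb_cau (hh1 l hl), zero_add]
  have hbel : ∀ l : ℂ, ‖l‖ < 1 → ∀ z, dzb (fun z => z + l * cau (h l) z) z =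
      l * α z * dz (fun z => z + l * cau (h l) z) z := by
    intro l hl z
    rw [hPdz l hl, hPdzb l hl, hh2 l hl z]
    ring
  refine ⟨fun l z => z + l * cau (h l) z, hsm, hbel, ?_, ?_, ?_, ?_, ?_⟩
  · -- the derivative does not vanish
    intro l hl
    set P : ℂ → ℂ := fun z => z + l * cau (h l) z with hP
    have hPs : ContDiff ℝ ∞ P := hsm l hl
    set p : ℂ → ℂ := dz P with hp
    have hps : ContDiff ℝ ∞ p := dz_smooth hPs
    obtain ⟨h', g1, g2, _, _⟩ := exists_sol hα h1 (pre_test_cmul l hα.dz)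
    set τ := h' l with hτ
    have hτt : IsTest τ := g1 l hl
    set σ := cau τ with hσ
    have hσs : ContDiff ℝ ∞ σ := cau_smooth hτt
    have hσdzb : ∀ z, dzb σ z = τ z := fun z => by rw [hσ, dzb_cau hτt]
    have hσdz : ∀ z, dz σ z = cau (dz τ) z := fun z => by rw [hσ, dz_cau hτt]
    have hτeq : ∀ z, τ z = l * dz α z + l * α z * dz σ z := by
      intro z
      rw [hσdz]
      exact g2 l hl z
    set E : ℂ → ℂ := fun z => exp (-σ z) with hE
    have hEs : ContDiff ℝ ∞ E := hσs.neg.cexp
    have hnegdz : ∀ z, dz (fun z => -σ z) z = -dz σ z := by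
      intro z
      have := pre_dz_cmul (-1) (hdiff hσs z)
      simpa using this
    have hnegdzb : ∀ z, dzb (fun z => -σ z) z = -dzb σ z := by
      intro z
      have := pre_dzb_cmul (-1) (hdiff hσs z)
      simpa using this
    have hexpC : ∀ w : ℂ, DifferentiableAt ℂ exp w := fun w => Complex.differentiable_exp w
    have hexpR : ∀ w : ℂ, DifferentiableAt ℝ exp w := fun w => (hexpC w).restrictScalars ℝ
    have hdexp : ∀ w : ℂ, dz exp w = exp w := fun w => by
      rw [dz_of_holo (hexpC w), Complex.deriv_exp]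
    have hdbexp : ∀ w : ℂ, dzb exp w = 0 := fun w => dzb_of_holo (hexpC w)
    have hEdz : ∀ z, dz E z = -dz σ z * E z := by
      intro z
      have g3 := dz_comp (f := exp) (g := fun z => -σ z) (z := z) (hdiff hσs.neg z) (hexpR _)
      rw [hdexp, hdbexp, hnegdz] at g3
      have g4 : dz E z = exp (-σ z) * -dz σ z + 0 * conj (dzb (fun z => -σ z) z) := g3
      rw [g4]
      ring
    have hEdzb : ∀ z, dzb E z = -dzb σ z * E z := by
      intro z
      have g3 := dzb_comp (f := exp) (g := fun z => -σ z) (z := z) (hdiff hσs.neg z) (hexpR _)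
      rw [hdexp, hdbexp, hnegdzb] at g3
      have g4 : dzb E z = exp (-σ z) * -dzb σ z + 0 * conj (dz (fun z => -σ z) z) := g3
      rw [g4]
      ring
    -- the equation for `p`
    have hpdzb : ∀ z, dzb p z = l * dz α z * p z + l * α z * dz p z := by
      intro z
      have g3 : dzb p z = dz (dzb P) z := by rw [hp, dz_dzb hPs]
      have g4 : dzb P = fun z => (l * α z) * p z := by
        funext z
        exact hbel l hl z
      have g5 : DifferentiableAt ℝ (fun z => l * α z) z :=
        (differentiableAt_const l).mul (hdiff hα.1 z)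
      rw [g3, g4, dz_mul g5 (hdiff hps z), pre_dz_cmul l (hdiff hα.1 z)]
    set v : ℂ → ℂ := fun z => p z * E z + (-1) with hv
    have hvs : ContDiff ℝ ∞ v := (hps.mul hEs).add contDiff_const
    have hpE : ∀ z, DifferentiableAt ℝ (fun z => p z * E z) z := fun z =>
      (hdiff hps z).mul (hdiff hEs z)
    have hvdz : ∀ z, dz v z = (dz p z - p z * dz σ z) * E z := by
      intro z
      rw [hv, dz_add (hpE z) (differentiableAt_const _), pre_dz_const,
        dz_mul (hdiff hps z) (hdiff hEs z), hEdz]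
      ring
    have hvdzb : ∀ z, dzb v z = (dzb p z - p z * dzb σ z) * E z := by
      intro z
      rw [hv, dzb_add (hpE z) (differentiableAt_const _), pre_dzb_const,
        dzb_mul (hdiff hps z) (hdiff hEs z), hEdzb]
      ring
    have hvbel : ∀ z, dzb v z = l * α z * dz v z := by
      intro z
      rw [hvdz, hvdzb, hpdzb, hσdzb, hτeq]
      ring
    set f : ℂ → ℂ := fun z => (l * α z) * dz v z with hf
    have hft : IsTest f := (pre_test_cmul l hα).mul (dz_smooth hvs)
    have hv0 : Tendsto v (cocompact ℂ) (𝓝 0) := by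
      have k1 : Tendsto p (cocompact ℂ) (𝓝 1) := by
        have k2 : p = fun z => 1 + l * cau (dz (h l)) z := by
          funext z
          exact hPdz l hl z
        rw [k2]
        have k3 := (pre_cau_tendsto (hh1 l hl).dz).const_mul l
        have k4 := k3.const_add 1
        simpa using k4
      have k2 : Tendsto E (cocompact ℂ) (𝓝 1) := by
        have k3 := (pre_cau_tendsto hτt).neg
        have k4 := (Complex.continuous_exp.tendsto (-0)).comp k3
        rw [neg_zero, Complex.exp_zero] at k4
        exact k4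
      have k3 := (k1.mul k2).add_const (-1)
      simpa using k3
    have hvc : v = cau f := eq_cau hft hvs hvbel hv0
    have hdzv : dz v = cau (dz f) := by
      conv_lhs => rw [hvc]
      exact dz_cau hft
    have hiso : l2 (dz v) = l2 f := by rw [hdzv, beurling_isometry hft]
    have hint : Integrable (fun z => ‖dz v z‖ ^ 2) := by
      rw [hdzv]
      exact beurling_sq_integrable hft
    have hle : l2 f ≤ ‖l‖ * l2 (dz v) := by
      refine l2_mul_le hint (norm_nonneg l) ?_ (dz_smooth hvs).continuous ?_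
      · exact (contDiff_const.mul hα.1).continuous
      · intro z
        rw [norm_mul]
        have := h1 z
        have := norm_nonneg l
        nlinarith
    have hzero : l2 f = 0 := by
      rw [hiso] at hle
      have := pre_l2_nonneg f
      nlinarith
    have hf0 := pre_l2_zero hft hzero
    intro z hpz
    have hfz : f = fun _ => 0 := funext hf0
    have hvz : v z = 0 := by
      rw [hvc, hfz]
      unfold cau
      simp
    rw [hv] at hvz
    simp only at hvz
    have : p z = 0 := hpz
    rw [this] at hvz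
    norm_num at hvz
  · intro l hl
    obtain ⟨M, r, _, _, hM, hr⟩ := (hh1 l hl).bound
    obtain ⟨C, hC⟩ := cau_decay M r
    have g1 := hC (h l) (hh1 l hl).1.continuous.measurable hM hr
    have hC0 : 0 ≤ C := by
      have := (norm_nonneg _).trans (g1 0)
      simpa using this
    refine ⟨C, fun z => ?_⟩
    have g2 := g1 z
    have g3 : C / (1 + ‖z‖) ≤ C := by
      have := norm_nonneg z
      exact div_le_self hC0 (by linarith)
    simp only [add_sub_cancel_left, norm_mul]
    have g4 : 0 ≤ ‖cau (h l) z‖ := norm_nonneg _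
    have g5 := norm_nonneg l
    nlinarith
  · intro z
    simp
  · intro z
    exact (differentiableOn_const z).add (differentiableOn_id.mul (hh4 z))
  · intro z
    have g1 : HasDerivAt (fun l => cau (h l) z) (deriv (fun l => cau (h l) z) 0) 0 :=
      ((hh4 z).differentiableAt (Metric.isOpen_ball.mem_nhds (by simp))).hasDerivAt
    have g2 := ((hasDerivAt_id (0 : ℂ)).mul g1).const_add z
    have g3 := g2.deriv
    have g4 : h 0 = α := funext hh3
    simp only [id_eq, zero_mul, add_zero, one_mul, g4] at g3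
    exact g3

end Pool.Agent.QCD
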