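import Pool.Agent.Lib.MP_f30fea_an.Base
import Pool.Agent.Lib.MP_f30fea_an.Pre
import Pool.Agent.Lib.MP_f30fea_an.HomeoPlane

/-!
# The normalised holomorphic family

`w l z = (P l z - P l 0) / (P l 1 - P l 0)` with `P` from `exists_pre`; a homeomorphism by
`homeo_plane` (for `‖l‖ < 1`; for other `l` take the identity).  Postcomposition with an affine map
changes neither the coefficient nor smoothness.  Growth: `‖P l z - z‖ ≤ C`.  Derivative at `0` by
the quotient rule.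
-/

open Complex MeasureTheory Filter Topology Set
open scoped ContDiff ENNReal ComplexConjugate

noncomputable section

namespace Pool.Agent.QCD

private theorem fam_fderiv {P : ℂ → ℂ} (hP : ContDiff ℝ ∞ P) (p c z : ℂ) :
    fderiv ℝ (fun z => (P z - p) * c) z = c • fderiv ℝ P z := by
  have hd : DifferentiableAt ℝ P z := (hP.differentiable (by simp)) z
  rw [fderiv_mul_const (hd.sub_const p), fderiv_sub_const]

private theorem fam_dz {P : ℂ → ℂ} (hP : ContDiff ℝ ∞ P) (p c z : ℂ) :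
    dz (fun z => (P z - p) * c) z = c * dz P z := by
  simp only [dz, fam_fderiv hP, _root_.smul_apply, smul_eq_mul]
  ring

private theorem fam_dzb {P : ℂ → ℂ} (hP : ContDiff ℝ ∞ P) (p c z : ℂ) :
    dzb (fun z => (P z - p) * c) z = c * dzb P z := by
  simp only [dzb, fam_fderiv hP, _root_.smul_apply, smul_eq_mul]
  ring

private theorem fam_nice {μ : ℂ → ℂ} {P : ℂ → ℂ} {k : ℝ} (hk : k < 1) (hμ : ∀ z, ‖μ z‖ ≤ k)
    (hP : ContDiff ℝ ∞ P) (hb : ∀ z, dzb P z = μ z * dz P z) (hn : ∀ z, dz P z ≠ 0)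
    (hC : ∃ C, ∀ z, ‖P z - z‖ ≤ C) :
    P 1 ≠ P 0 ∧ ∃ w : ℂ ≃ₜ ℂ, Nice μ w ∧ ∀ z, w z = (P z - P 0) / (P 1 - P 0) := by
  obtain ⟨C, hC⟩ := hC
  have hC0 : 0 ≤ C := (norm_nonneg _).trans (hC 0)
  obtain ⟨e, he, hes⟩ := homeo_plane P hP hk (fun z => by
    rw [hb, norm_mul]; exact mul_le_mul_of_nonneg_right (hμ z) (norm_nonneg _)) hn hC
  have hne : P 1 ≠ P 0 := by
    rw [← he, ← he]
    exact fun h => one_ne_zero (e.injective h)
  have hc : P 1 - P 0 ≠ 0 := sub_ne_zero.mpr hne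
  set c := P 1 - P 0 with hcdef
  let A : ℂ ≃ₜ ℂ := (Homeomorph.addRight (-P 0)).trans (Homeomorph.mulRight₀ c⁻¹ (inv_ne_zero hc))
  have hA : ∀ z, (e.trans A) z = (P z - P 0) * c⁻¹ := by
    intro z
    simp [A, he, sub_eq_add_neg]
  have hAs : ∀ z, (e.trans A).symm z = e.symm (z * c + P 0) := by
    intro z
    apply (e.trans A).injective
    rw [Homeomorph.apply_symm_apply, hA, ← he, Homeomorph.apply_symm_apply]
    field_simp
    ring
  have hfun : ((e.trans A : ℂ ≃ₜ ℂ) : ℂ → ℂ) = fun z => (P z - P 0) * c⁻¹ := funext hA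
  have hfuns : ((e.trans A).symm : ℂ → ℂ) = fun z => e.symm (z * c + P 0) := funext hAs
  have hes2 : ∀ y, ‖e.symm y‖ ≤ ‖y‖ + C := by
    intro y
    have h1 := hC (e.symm y)
    rw [← he, Homeomorph.apply_symm_apply] at h1
    have h2 : e.symm y = y - (y - e.symm y) := by ring
    calc ‖e.symm y‖ = ‖y - (y - e.symm y)‖ := by rw [← h2]
      _ ≤ ‖y‖ + ‖y - e.symm y‖ := norm_sub_le _ _
      _ ≤ ‖y‖ + C := by linarith
  refine ⟨hne, e.trans A, ⟨?_, ?_, ?_, ?_, ?_, ?_, ?_, ?_⟩, fun z => by rw [hA, div_eq_mul_inv]⟩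
  · rw [hfun]
    exact (hP.sub contDiff_const).mul contDiff_const
  · rw [hfuns]
    exact hes.comp ((contDiff_id.mul contDiff_const).add contDiff_const)
  · intro z
    rw [hfun, fam_dz hP, fam_dzb hP, hb]
    ring
  · intro z
    rw [hfun, fam_dz hP]
    exact mul_ne_zero (inv_ne_zero hc) (hn z)
  · rw [hA]; simp
  · rw [hA]; rw [← hcdef]; exact mul_inv_cancel₀ hc
  · refine ⟨(1 + C + ‖P 0‖) * ‖c⁻¹‖, fun z => ?_⟩
    rw [hA, norm_mul]
    have h1 : ‖P z - P 0‖ ≤ ‖z‖ + C + ‖P 0‖ := by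
      have h2 : P z - P 0 = z + (P z - z) - P 0 := by ring
      rw [h2]
      have h3 := norm_sub_le (z + (P z - z)) (P 0)
      have h4 := norm_add_le z (P z - z)
      have h5 := hC z
      linarith
    have h6 : ‖z‖ + C + ‖P 0‖ ≤ (1 + C + ‖P 0‖) * (1 + ‖z‖) := by
      have := norm_nonneg z
      have h7 := norm_nonneg (P 0)
      nlinarith [mul_nonneg hC0 this, mul_nonneg h7 this]
    calc ‖P z - P 0‖ * ‖c⁻¹‖ ≤ ((1 + C + ‖P 0‖) * (1 + ‖z‖)) * ‖c⁻¹‖ :=
          mul_le_mul_of_nonneg_right (h1.trans h6) (norm_nonneg _)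
      _ = _ := by ring
  · refine ⟨‖c‖ + ‖P 0‖ + C, fun z => ?_⟩
    rw [hAs]
    have h1 := hes2 (z * c + P 0)
    have h2 := norm_add_le (z * c) (P 0)
    rw [norm_mul] at h2
    have h3 := norm_nonneg z
    have h4 := norm_nonneg c
    have h5 := norm_nonneg (P 0)
    nlinarith [mul_nonneg h3 h4, mul_nonneg h3 h5, mul_nonneg h3 hC0]

theorem exists_family {α : ℂ → ℂ} (hα : IsTest α) (h1 : ∀ z, ‖α z‖ ≤ 1) :
    ∃ w : ℂ → (ℂ ≃ₜ ℂ), IsFamily α w := by
  obtain ⟨P, hs, hb, hn, hC, h0, hd, hder⟩ := exists_pre hα h1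
  have key : ∀ l : ℂ, ‖l‖ < 1 → P l 1 ≠ P l 0 ∧ ∃ w : ℂ ≃ₜ ℂ, Nice (fun z => l * α z) w ∧
      ∀ z, w z = (P l z - P l 0) / (P l 1 - P l 0) := fun l hl =>
    fam_nice hl (fun z => by
      rw [norm_mul]
      exact mul_le_of_le_one_right (norm_nonneg _) (h1 z)) (hs l hl) (hb l hl) (hn l hl) (hC l hl)
  have key2 : ∀ l : ℂ, ∃ w : ℂ ≃ₜ ℂ, ‖l‖ < 1 → (Nice (fun z => l * α z) w ∧
      ∀ z, w z = (P l z - P l 0) / (P l 1 - P l 0)) := by
    intro l
    by_cases hl : ‖l‖ < 1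
    · obtain ⟨-, w, hw⟩ := key l hl
      exact ⟨w, fun _ => hw⟩
    · exact ⟨Homeomorph.refl ℂ, fun h => absurd h hl⟩
  choose w hw using key2
  have hmem : ∀ {l : ℂ}, l ∈ Metric.ball (0 : ℂ) 1 → ‖l‖ < 1 := fun h => by
    simpa using h
  have h0mem : (0 : ℂ) ∈ Metric.ball (0 : ℂ) 1 := by simp
  refine ⟨w, ⟨fun l hl => (hw l hl).1, fun z => ?_, fun z => ?_, fun z => ?_⟩⟩
  · rw [(hw 0 (by simp)).2 z]
    simp [h0]
  · refine DifferentiableOn.congr (f := fun l => (P l z - P l 0) / (P l 1 - P l 0)) ?_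
      (fun l hl => (hw l (hmem hl)).2 z)
    exact ((hd z).sub (hd 0)).div ((hd 1).sub (hd 0))
      (fun l hl => sub_ne_zero.mpr (key l (hmem hl)).1)
  · have hev : (fun l => w l z) =ᶠ[𝓝 0] fun l => (P l z - P l 0) / (P l 1 - P l 0) := by
      filter_upwards [Metric.isOpen_ball.mem_nhds h0mem] with l hl
      exact (hw l (hmem hl)).2 z
    rw [hev.deriv_eq]
    have hD : ∀ z, HasDerivAt (fun l => P l z) (cau α z) 0 := by
      intro z
      have := ((hd z).differentiableAt (Metric.isOpen_ball.mem_nhds h0mem)).hasDerivAt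
      rwa [hder z] at this
    have hne : P 0 1 - P 0 0 ≠ 0 := by simp [h0]
    have := (((hD z).sub (hD 0)).div ((hD 1).sub (hD 0)) hne).deriv
    have h2 : (fun l => (P l z - P l 0) / (P l 1 - P l 0)) =
      ((fun l => P l z) - fun l => P l 0) / ((fun l => P l 1) - fun l => P l 0) := by
      funext l; simp
    rw [h2, this]
    simp only [Pi.sub_apply, h0]
    ring

end Pool.Agent.QCD
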