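import Pool.Agent.Lib.MP_f30fea_an.Base

/-!
# The hyperbolic midpoint of two points of the unit disc

`e = mide a b`, `m = mid a b = e / (1 + √(1 - ‖e‖²))`.  With `A = ‖a‖, B = ‖b‖`:
`‖e‖ ≤ (A (1-B²) + B (1-A²)) / (1-A²B²) = (A+B)/(1+AB) ≤ 2k/(1+k²) < 1`.
`mid_le`: `t ↦ t / (1 + √(1-t²))` is increasing with value `k` at `2k/(1+k²)`.
`mid_eq`: expanding, `(a-m)(1 - m̄ b) + (b-m)(1 - m̄ a) = (a+b)(1+‖m‖²) - 2m - 2ab m̄`.  Let
`τ = (1+‖m‖²)/2`; since `m = e/(1+s)`, `s = √(1-‖e‖²)`: `‖m‖² = ‖e‖²/(1+s)² = (1-s)/(1+s)`, so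
`τ = 1/(1+s)` and `m = τ e`.  The claim is `e + ab ē = a + b` (times `2τ`), which is a direct
computation from the definition of `e` (`a ā = ‖a‖²`).
`mid_ratio`: let `p = (a-m)/(1-m̄a)`, so `(b-m)/(1-m̄b) = -p` by `mid_eq` (denominators `≠ 0`).  From
`a = (p+m)/(1+m̄p)`, `b = (-p+m)/(1-m̄p)`: `‖a-b‖/‖1-āb‖ = 2‖p‖/(1+‖p‖²)` (invariance of the
pseudohyperbolic distance), and `‖a-b‖/‖1-āb‖ ≤ (A+B)/(1+AB) ≤ 2k/(1+k²)`, `‖p‖ < 1`; so `‖p‖ ≤ k`
(`2t/(1+t²)` is increasing on `[0,1]`).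
Smoothness: `‖a‖² = a ā`, denominators do not vanish, square root of a positive smooth function.
-/

open Complex MeasureTheory Filter Topology Set
open scoped ContDiff ENNReal ComplexConjugate

noncomputable section

namespace Pool.Agent.QCD

def mide (a b : ℂ) : ℂ :=
  (a * (1 - (‖b‖ : ℂ) ^ 2) + b * (1 - (‖a‖ : ℂ) ^ 2)) / (1 - (‖a‖ : ℂ) ^ 2 * (‖b‖ : ℂ) ^ 2)

def mid (a b : ℂ) : ℂ := mide a b / (1 + (Real.sqrt (1 - ‖mide a b‖ ^ 2) : ℂ))

theorem mid_comm (a b : ℂ) : mid a b = mid b a := by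
  have h : mide a b = mide b a := by
    unfold mide
    rw [add_comm, mul_comm ((‖a‖ : ℂ) ^ 2)]
  unfold mid
  rw [h]

theorem mid_rot {u : ℂ} (hu : ‖u‖ = 1) (a b : ℂ) : mid (u * a) (u * b) = u * mid a b := by
  have h : mide (u * a) (u * b) = u * mide a b := by
    unfold mide
    rw [norm_mul, norm_mul, hu, one_mul, one_mul]
    ring
  unfold mid
  rw [h, norm_mul, hu, one_mul]
  ring

theorem mid_conj (a b : ℂ) : mid (conj a) (conj b) = conj (mid a b) := by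
  have h : mide (conj a) (conj b) = conj (mide a b) := by
    unfold mide
    simp only [RCLike.norm_conj, map_div₀, map_add, map_sub, map_mul, map_one, map_pow,
      Complex.conj_ofReal]
  unfold mid
  rw [h, RCLike.norm_conj]
  simp only [map_div₀, map_add, map_one, Complex.conj_ofReal]

theorem mid_zero : mid 0 0 = 0 := by
  simp [mid, mide]

private lemma mid_den {k : ℝ} (hk0 : 0 ≤ k) (hk : k < 1) {a b : ℂ} (ha : ‖a‖ ≤ k)
    (hb : ‖b‖ ≤ k) : 0 < 1 - ‖a‖ ^ 2 * ‖b‖ ^ 2 := by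
  have h1 : ‖a‖ ^ 2 ≤ k ^ 2 := by gcongr
  have h2 : ‖b‖ ^ 2 ≤ k ^ 2 := by gcongr
  have h3 : k ^ 2 < 1 := by nlinarith
  have h4 : ‖a‖ ^ 2 * ‖b‖ ^ 2 ≤ k ^ 2 * k ^ 2 := by gcongr
  nlinarith [sq_nonneg k]

private lemma mid_e_le {k : ℝ} (hk0 : 0 ≤ k) (hk : k < 1) {a b : ℂ} (ha : ‖a‖ ≤ k)
    (hb : ‖b‖ ≤ k) : ‖mide a b‖ ≤ 2 * k / (1 + k ^ 2) := by
  have hd := mid_den hk0 hk ha hb
  have hA := norm_nonneg a
  have hB := norm_nonneg b
  have h1 : ‖(1 : ℂ) - (‖a‖ : ℂ) ^ 2 * (‖b‖ : ℂ) ^ 2‖ = 1 - ‖a‖ ^ 2 * ‖b‖ ^ 2 := by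
    have h2 : (1 : ℂ) - (‖a‖ : ℂ) ^ 2 * (‖b‖ : ℂ) ^ 2 =
        ((1 - ‖a‖ ^ 2 * ‖b‖ ^ 2 : ℝ) : ℂ) := by push_cast; rfl
    rw [h2, Complex.norm_real, Real.norm_of_nonneg hd.le]
  have h3 : ∀ x y : ℂ, ‖y‖ ≤ k → ‖x * (1 - (‖y‖ : ℂ) ^ 2)‖ = ‖x‖ * (1 - ‖y‖ ^ 2) := by
    intro x y hy
    have h4 : (1 : ℂ) - (‖y‖ : ℂ) ^ 2 = ((1 - ‖y‖ ^ 2 : ℝ) : ℂ) := by push_cast; rfl
    have hy0 := norm_nonneg y
    rw [norm_mul, h4, Complex.norm_real, Real.norm_of_nonneg]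
    nlinarith
  have h5 : ‖mide a b‖ ≤ (‖a‖ * (1 - ‖b‖ ^ 2) + ‖b‖ * (1 - ‖a‖ ^ 2)) /
      (1 - ‖a‖ ^ 2 * ‖b‖ ^ 2) := by
    unfold mide
    rw [norm_div, h1, div_le_div_iff_of_pos_right hd, ← h3 a b hb, ← h3 b a ha]
    exact norm_add_le _ _
  refine h5.trans ?_
  rw [div_le_div_iff₀ hd (by positivity)]
  have hAB : 0 ≤ 1 - ‖a‖ * ‖b‖ := by nlinarith
  have h6 : (‖a‖ + ‖b‖) * (1 + k ^ 2) ≤ 2 * k * (1 + ‖a‖ * ‖b‖) := by
    have h7 : 0 ≤ (k - ‖a‖) * (1 + k ^ 2 - 2 * k * ‖b‖) := by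
      refine mul_nonneg (by linarith) ?_
      nlinarith
    have h8 : 0 ≤ (1 - k ^ 2) * (k - ‖b‖) := mul_nonneg (by nlinarith) (by linarith)
    nlinarith
  have h9 := mul_le_mul_of_nonneg_right h6 hAB
  nlinarith

private lemma mid_s {k : ℝ} (hk0 : 0 ≤ k) (hk : k < 1) {a b : ℂ} (ha : ‖a‖ ≤ k)
    (hb : ‖b‖ ≤ k) : ((1 - k ^ 2) / (1 + k ^ 2)) ^ 2 ≤ 1 - ‖mide a b‖ ^ 2 := by
  have h1 := mid_e_le hk0 hk ha hb
  have h2 : ‖mide a b‖ ^ 2 ≤ (2 * k / (1 + k ^ 2)) ^ 2 := by gcongr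
  have h3 : ((1 - k ^ 2) / (1 + k ^ 2)) ^ 2 = 1 - (2 * k / (1 + k ^ 2)) ^ 2 := by
    field_simp
    ring
  linarith

private lemma mid_key {k : ℝ} (hk0 : 0 ≤ k) (hk : k < 1) {a b : ℂ} (ha : ‖a‖ ≤ k)
    (hb : ‖b‖ ≤ k) : mide a b + a * b * conj (mide a b) = a + b := by
  have hd := mid_den hk0 hk ha hb
  have h1 : (1 : ℂ) - a * conj a * (b * conj b) ≠ 0 := by
    rw [Complex.mul_conj, Complex.mul_conj, Complex.normSq_eq_norm_sq,
      Complex.normSq_eq_norm_sq]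
    exact_mod_cast hd.ne'
  have h2 : ∀ x : ℂ, (‖x‖ : ℂ) ^ 2 = x * conj x := by
    intro x
    rw [Complex.mul_conj, Complex.normSq_eq_norm_sq]
    push_cast
    rfl
  unfold mide
  rw [h2, h2]
  have h3 : conj ((a * (1 - b * conj b) + b * (1 - a * conj a)) /
      (1 - a * conj a * (b * conj b))) =
      (conj a * (1 - b * conj b) + conj b * (1 - a * conj a)) /
      (1 - a * conj a * (b * conj b)) := by
    simp only [map_div₀, map_add, map_sub, map_mul, map_one, Complex.conj_conj]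
    ring
  rw [h3, ← mul_div_assoc, ← add_div, div_eq_iff h1]
  ring

private lemma mid_id (a b : ℂ) :
    ‖1 - conj a * b‖ ^ 2 - ‖a - b‖ ^ 2 = (1 - ‖a‖ ^ 2) * (1 - ‖b‖ ^ 2) := by
  simp only [← Complex.normSq_eq_norm_sq, Complex.normSq_apply, Complex.sub_re, Complex.sub_im,
    Complex.mul_re, Complex.mul_im, Complex.one_re, Complex.one_im, Complex.conj_re,
    Complex.conj_im]
  ring

section
variable {k : ℝ} (hk0 : 0 ≤ k) (hk : k < 1) {a b : ℂ} (ha : ‖a‖ ≤ k) (hb : ‖b‖ ≤ k)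
include hk0 hk ha hb

theorem mid_le : ‖mid a b‖ ≤ k := by
  have h1 := mid_e_le hk0 hk ha hb
  have h2 := mid_s hk0 hk ha hb
  have hk2 : 0 < 1 - k ^ 2 := by nlinarith
  have h3 : (1 - k ^ 2) / (1 + k ^ 2) ≤ Real.sqrt (1 - ‖mide a b‖ ^ 2) :=
    Real.le_sqrt_of_sq_le h2
  set s := Real.sqrt (1 - ‖mide a b‖ ^ 2) with hs
  have hs0 : 0 ≤ s := Real.sqrt_nonneg _
  have h4 : ‖mid a b‖ = ‖mide a b‖ / (1 + s) := by
    unfold mid
    rw [← hs]
    have h5 : (1 : ℂ) + (s : ℂ) = ((1 + s : ℝ) : ℂ) := by push_cast; rfl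
    rw [norm_div, h5, Complex.norm_real, Real.norm_of_nonneg (by positivity)]
  rw [h4, div_le_iff₀ (by positivity)]
  refine h1.trans ?_
  have h6 : 2 / (1 + k ^ 2) ≤ 1 + s := by
    have h7 : 2 / (1 + k ^ 2) = 1 + (1 - k ^ 2) / (1 + k ^ 2) := by
      field_simp
      ring
    linarith
  calc 2 * k / (1 + k ^ 2) = k * (2 / (1 + k ^ 2)) := by ring
    _ ≤ k * (1 + s) := mul_le_mul_of_nonneg_left h6 hk0

theorem mid_eq : (a - mid a b) * (1 - conj (mid a b) * b) =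
    -((b - mid a b) * (1 - conj (mid a b) * a)) := by
  have h2 := mid_s hk0 hk ha hb
  have h3 := mid_key hk0 hk ha hb
  set s := Real.sqrt (1 - ‖mide a b‖ ^ 2) with hs
  have hs0 : 0 ≤ s := Real.sqrt_nonneg _
  have hs2 : s ^ 2 = 1 - ‖mide a b‖ ^ 2 := Real.sq_sqrt ((sq_nonneg _).trans h2)
  have hs3 : (s : ℂ) ^ 2 = 1 - mide a b * conj (mide a b) := by
    rw [Complex.mul_conj, Complex.normSq_eq_norm_sq]
    exact_mod_cast hs2
  have hs4 : (1 : ℂ) + (s : ℂ) ≠ 0 := by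
    have : (0 : ℝ) < 1 + s := by positivity
    exact_mod_cast this.ne'
  have hm : mid a b = mide a b / (1 + (s : ℂ)) := rfl
  have hmc : conj (mid a b) = conj (mide a b) / (1 + (s : ℂ)) := by
    rw [hm]
    simp only [map_div₀, map_add, map_one, Complex.conj_ofReal]
  rw [hmc, hm]
  generalize mide a b = e at *
  generalize conj e = e' at *
  field_simp
  have h5 : (a * (1 + (s : ℂ)) - e) * (1 + (s : ℂ) - e' * b) +
      (b * (1 + (s : ℂ)) - e) * (1 + (s : ℂ) - e' * a) = 0 := by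
    have h6 : e * e' = 1 - (s : ℂ) ^ 2 := by rw [hs3]; ring
    calc (a * (1 + (s : ℂ)) - e) * (1 + (s : ℂ) - e' * b) +
        (b * (1 + (s : ℂ)) - e) * (1 + (s : ℂ) - e' * a)
        = (1 + (s : ℂ)) ^ 2 * (a + b) + (a + b) * (e * e') -
            2 * (1 + (s : ℂ)) * (e + a * b * e') := by ring
      _ = 0 := by rw [h3, h6]; ring
  linear_combination h5

theorem mid_ratio : ‖a - mid a b‖ ≤ k * ‖1 - conj (mid a b) * a‖ := by
  have hm := mid_le hk0 hk ha hb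
  have he := mid_eq hk0 hk ha hb
  set m := mid a b with hmdef
  have hk2 : 0 < 1 - k ^ 2 := by nlinarith
  have hA := norm_nonneg a
  have hB := norm_nonneg b
  have hM := norm_nonneg m
  have hA2 : 1 - k ^ 2 ≤ 1 - ‖a‖ ^ 2 := by nlinarith
  have hB2 : 1 - k ^ 2 ≤ 1 - ‖b‖ ^ 2 := by nlinarith
  have hM2 : 1 - k ^ 2 ≤ 1 - ‖m‖ ^ 2 := by nlinarith
  -- the distance of a and b
  have h1 : (1 + k ^ 2) * ‖a - b‖ ≤ 2 * k * ‖1 - conj a * b‖ := by
    have h2 := mid_id a b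
    have h3 : ‖1 - conj a * b‖ ≤ 1 + k ^ 2 := by
      refine (norm_sub_le _ _).trans ?_
      rw [norm_one, norm_mul, RCLike.norm_conj]
      nlinarith
    have h4 : ‖1 - conj a * b‖ ^ 2 ≤ (1 + k ^ 2) ^ 2 := by
      have := norm_nonneg (1 - conj a * b)
      gcongr
    have h5 : (1 - k ^ 2) ^ 2 ≤ (1 - ‖a‖ ^ 2) * (1 - ‖b‖ ^ 2) := by
      rw [sq]
      exact mul_le_mul hA2 hB2 hk2.le (by linarith)
    have h6 : ‖1 - conj a * b‖ ^ 2 * (1 - k ^ 2) ^ 2 ≤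
        (1 + k ^ 2) ^ 2 * ((1 - ‖a‖ ^ 2) * (1 - ‖b‖ ^ 2)) :=
      mul_le_mul h4 h5 (by positivity) (by positivity)
    rw [← h2] at h6
    refine le_of_sq_le_sq ?_ (by positivity)
    rw [mul_pow, mul_pow]
    nlinarith
  have h7 : (a - b) * (1 - m * conj m) = 2 * ((a - m) * (1 - conj m * b)) := by
    linear_combination (-1 : ℂ) * he
  have h8 : (1 - conj a * b) * (1 - m * conj m) * (1 - conj m * a) =
      (1 - conj m * b) * ((1 - conj m * a) * conj (1 - conj m * a) +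
        (a - m) * conj (a - m)) := by
    simp only [map_sub, map_mul, map_one, Complex.conj_conj]
    linear_combination (-(conj a - conj m)) * he
  have hmm : ‖(1 : ℂ) - m * conj m‖ = 1 - ‖m‖ ^ 2 := by
    rw [Complex.mul_conj, Complex.normSq_eq_norm_sq]
    have h9 : (1 : ℂ) - ((‖m‖ ^ 2 : ℝ) : ℂ) = ((1 - ‖m‖ ^ 2 : ℝ) : ℂ) := by push_cast; rfl
    rw [h9, Complex.norm_real, Real.norm_of_nonneg (by linarith)]
  have h10 : ‖(1 - conj m * a) * conj (1 - conj m * a) + (a - m) * conj (a - m)‖ =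
      ‖1 - conj m * a‖ ^ 2 + ‖a - m‖ ^ 2 := by
    rw [Complex.mul_conj, Complex.mul_conj, Complex.normSq_eq_norm_sq,
      Complex.normSq_eq_norm_sq, ← Complex.ofReal_add, Complex.norm_real,
      Real.norm_of_nonneg (by positivity)]
  have h7' := congrArg norm h7
  have h8' := congrArg norm h8
  rw [norm_mul, hmm, norm_mul, norm_mul, Complex.norm_two] at h7'
  rw [norm_mul, norm_mul, hmm, norm_mul, h10] at h8'
  have h11 := mid_id m a
  rw [norm_sub_rev m a] at h11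
  have hP := norm_nonneg (a - m)
  have hQ := norm_nonneg (1 - conj m * a)
  have h12 : 0 < (1 - ‖m‖ ^ 2) * (1 - ‖a‖ ^ 2) := mul_pos (by linarith) (by linarith)
  have hSne : 0 < ‖1 - conj m * b‖ := by
    have h13 := mid_id m b
    have h14 : 0 < (1 - ‖m‖ ^ 2) * (1 - ‖b‖ ^ 2) := mul_pos (by linarith) (by linarith)
    have h15 := norm_nonneg (1 - conj m * b)
    rcases h15.lt_or_eq with h | h
    · exact h
    · rw [← h] at h13
      nlinarith [sq_nonneg ‖m - b‖]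
  generalize ‖a - m‖ = P at *
  generalize ‖1 - conj m * a‖ = Q at *
  generalize ‖1 - conj m * b‖ = S at *
  generalize ‖a - b‖ = D at *
  generalize ‖1 - conj a * b‖ = E at *
  generalize 1 - ‖m‖ ^ 2 = t at *
  have ht : 0 < t := by linarith
  have hQpos : 0 < Q := by nlinarith
  have hPQ : P < Q := by nlinarith
  -- (1 + k^2) * 2 P Q ≤ 2 k (P^2 + Q^2)
  have h16 : (1 + k ^ 2) * (2 * P * Q) ≤ 2 * k * (Q ^ 2 + P ^ 2) := by
    have h17 : (1 + k ^ 2) * D * (t * Q) ≤ 2 * k * E * (t * Q) :=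
      mul_le_mul_of_nonneg_right h1 (by positivity)
    have h18 : (1 + k ^ 2) * (2 * P * Q) * S ≤ 2 * k * (Q ^ 2 + P ^ 2) * S := by
      calc (1 + k ^ 2) * (2 * P * Q) * S = (1 + k ^ 2) * Q * (2 * (P * S)) := by ring
        _ = (1 + k ^ 2) * Q * (D * t) := by rw [h7']
        _ = (1 + k ^ 2) * D * (t * Q) := by ring
        _ ≤ 2 * k * E * (t * Q) := h17
        _ = 2 * k * (E * t * Q) := by ring
        _ = 2 * k * (S * (Q ^ 2 + P ^ 2)) := by rw [h8']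
        _ = 2 * k * (Q ^ 2 + P ^ 2) * S := by ring
    exact le_of_mul_le_mul_right h18 hSne
  have h19 : 0 ≤ (Q - k * P) * (k * Q - P) := by nlinarith
  have h20 : 0 < Q - k * P := by nlinarith
  by_contra hcon
  push Not at hcon
  have h21 : (Q - k * P) * (k * Q - P) < 0 := mul_neg_of_pos_of_neg h20 (by linarith)
  linarith
end

theorem mid_smooth {k : ℝ} (hk0 : 0 ≤ k) (hk : k < 1) {μ ν : ℂ → ℂ} (hμ : ContDiff ℝ ∞ μ)
    (hν : ContDiff ℝ ∞ ν) (h1 : ∀ z, ‖μ z‖ ≤ k) (h2 : ∀ z, ‖ν z‖ ≤ k) :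
    ContDiff ℝ ∞ (fun z => mid (μ z) (ν z)) := by
  have hn : ∀ {f : ℂ → ℂ}, ContDiff ℝ ∞ f → ContDiff ℝ ∞ (fun z => ((‖f z‖ : ℝ) : ℂ) ^ 2) := by
    intro f hf
    have h3 : (fun z => ((‖f z‖ : ℝ) : ℂ) ^ 2) = fun z => ((‖f z‖ ^ 2 : ℝ) : ℂ) := by
      funext z
      push_cast
      rfl
    rw [h3]
    exact Complex.ofRealCLM.contDiff.comp (hf.norm_sq ℝ)
  have he : ContDiff ℝ ∞ (fun z => mide (μ z) (ν z)) := by
    unfold mide
    simp only [div_eq_mul_inv]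
    refine ContDiff.mul ?_ (ContDiff.inv ?_ ?_)
    · exact (hμ.mul (contDiff_const.sub (hn hν))).add (hν.mul (contDiff_const.sub (hn hμ)))
    · exact contDiff_const.sub ((hn hμ).mul (hn hν))
    · intro z
      have := mid_den hk0 hk (h1 z) (h2 z)
      exact_mod_cast this.ne'
  have hk2 : 0 < 1 - k ^ 2 := by nlinarith
  unfold mid
  simp only [div_eq_mul_inv]
  refine he.mul (ContDiff.inv (contDiff_const.add ?_) ?_)
  · refine Complex.ofRealCLM.contDiff.comp (ContDiff.sqrt ?_ ?_)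
    · exact contDiff_const.sub (he.norm_sq ℝ)
    · intro z
      have h3 := mid_s hk0 hk (h1 z) (h2 z)
      have h4 : 0 < ((1 - k ^ 2) / (1 + k ^ 2)) ^ 2 := by positivity
      linarith
  · intro z
    have : (0 : ℝ) < 1 + Real.sqrt (1 - ‖mide (μ z) (ν z)‖ ^ 2) := by positivity
    exact_mod_cast this.ne'

end Pool.Agent.QCD
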