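import Pool.Agent.Lib.MP_f30fea_an.Base
import Pool.Agent.Lib.MP_f30fea_an.Wirt

/-!
# Smooth approximation of measurable coefficients

`μ' = μ` where `‖μ‖ ≤ k`, `0` elsewhere.  `μ_n = μ' * 1_{1/n < ‖z‖ < n}`, convolved with a smooth
bump function of integral `1` (real valued, `≥ 0`) supported in the disc of radius `ε_n < 1/(2n)`:
values in the closed disc of radius `k` (convex), smooth, compact support, zero near `0`.  Convergence
almost everywhere: `ContDiffBump.ae_convolution_tendsto_right_of_locallyIntegrable` for the full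
function `μ'` (the truncation is invisible at a given `z ≠ 0` for large `n`).
-/

open Complex MeasureTheory Filter Topology Set
open scoped ContDiff ENNReal ComplexConjugate

noncomputable section

namespace Pool.Agent.QCD

/-- the bump functions -/
private def mollBump (n : ℕ) : ContDiffBump (0 : ℂ) where
  rIn := 1 / (4 * ((n : ℝ) + 1))
  rOut := 1 / (2 * ((n : ℝ) + 1))
  rIn_pos := by positivity
  rIn_lt_rOut := by
    have : (0 : ℝ) < (n : ℝ) + 1 := by positivity
    rw [div_lt_div_iff₀ (by positivity) (by positivity)]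
    linarith

private def mollT (n : ℕ) : Set ℂ := {z | 1 / ((n : ℝ) + 1) < ‖z‖ ∧ ‖z‖ < (n : ℝ) + 1}

private theorem mollT_meas (n : ℕ) : MeasurableSet (mollT n) := by
  have h1 : IsOpen {z : ℂ | 1 / ((n : ℝ) + 1) < ‖z‖} := isOpen_lt continuous_const continuous_norm
  have h2 : IsOpen {z : ℂ | ‖z‖ < (n : ℝ) + 1} := isOpen_lt continuous_norm continuous_const
  exact (h1.inter h2).measurableSet

/-- the truncated function -/
private def mollF (g : ℂ → ℂ) (n : ℕ) : ℂ → ℂ := (mollT n).indicator g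

private def mollC (g : ℂ → ℂ) (n : ℕ) : ℂ → ℂ :=
  convolution ((mollBump n).normed volume) (mollF g n) (ContinuousLinearMap.lsmul ℝ ℝ) volume

private theorem moll_locInt {g : ℂ → ℂ} (hg : Measurable g) {k : ℝ} (hk : ∀ z, ‖g z‖ ≤ k) :
    LocallyIntegrable g volume := by
  have h1 : MemLp g ⊤ volume := memLp_top_of_bound hg.aestronglyMeasurable k
    (Eventually.of_forall hk)
  exact h1.locallyIntegrable le_top

private theorem mollF_bound {g : ℂ → ℂ} {k : ℝ} (hk0 : 0 ≤ k) (hk : ∀ z, ‖g z‖ ≤ k) (n : ℕ)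
    (z : ℂ) : ‖mollF g n z‖ ≤ k := by
  unfold mollF
  by_cases h : z ∈ mollT n
  · rw [indicator_of_mem h]
    exact hk z
  · rw [indicator_of_notMem h, norm_zero]
    exact hk0

private theorem mollF_meas {g : ℂ → ℂ} (hg : Measurable g) (n : ℕ) : Measurable (mollF g n) :=
  hg.indicator (mollT_meas n)

private theorem moll_coef {g : ℂ → ℂ} (hg : Measurable g) {k : ℝ} (hk0 : 0 ≤ k)
    (hk : ∀ z, ‖g z‖ ≤ k) (n : ℕ) : Coef k (mollC g n) := by
  have hn : (0 : ℝ) < (n : ℝ) + 1 := by positivity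
  have hsupp : ∀ t : ℂ, (mollBump n).normed volume t ≠ 0 → ‖t‖ < 1 / (2 * ((n : ℝ) + 1)) := by
    intro t ht
    have h1 : t ∈ Function.support ((mollBump n).normed volume) := ht
    rw [ContDiffBump.support_normed_eq, Metric.mem_ball, dist_zero_right] at h1
    exact h1
  refine ⟨⟨?_, ?_⟩, ?_, ?_⟩
  · have h1 : ContDiff ℝ ((⊤ : ℕ∞) : WithTop ℕ∞) (mollC g n) := by
      refine HasCompactSupport.contDiff_convolution_left (n := (⊤ : ℕ∞)) _
        (ContDiffBump.hasCompactSupport_normed _) (ContDiffBump.contDiff_normed _) ?_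
      exact moll_locInt (mollF_meas hg n) (mollF_bound hk0 hk n)
    exact h1
  · refine HasCompactSupport.convolution _ (ContDiffBump.hasCompactSupport_normed _) ?_
    refine HasCompactSupport.intro (isCompact_closedBall (0 : ℂ) ((n : ℝ) + 1)) fun z hz => ?_
    unfold mollF
    refine indicator_of_notMem (fun h => hz ?_) _
    rw [Metric.mem_closedBall, dist_zero_right]
    exact h.2.le
  · refine ⟨1 / (2 * ((n : ℝ) + 1)), by positivity, fun z hz => ?_⟩
    unfold mollC convolution
    have h1 : ∀ t : ℂ, (ContinuousLinearMap.lsmul ℝ ℝ) ((mollBump n).normed volume t)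
        (mollF g n (z - t)) = 0 := by
      intro t
      rw [ContinuousLinearMap.lsmul_apply]
      by_cases ht : (mollBump n).normed volume t = 0
      · rw [ht, zero_smul]
      · have h2 := hsupp t ht
        have h3 : mollF g n (z - t) = 0 := by
          unfold mollF
          refine indicator_of_notMem (fun h => ?_) _
          have h4 : ‖z - t‖ ≤ ‖z‖ + ‖t‖ := norm_sub_le z t
          have h5 : 1 / ((n : ℝ) + 1) = 1 / (2 * ((n : ℝ) + 1)) + 1 / (2 * ((n : ℝ) + 1)) := by
            field_simp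
            ring
          have h6 := h.1
          linarith
        rw [h3, smul_zero]
    rw [integral_congr_ae (Eventually.of_forall h1), integral_zero]
  · intro z
    unfold mollC convolution
    have h1 : ∀ t : ℂ, ‖(ContinuousLinearMap.lsmul ℝ ℝ) ((mollBump n).normed volume t)
        (mollF g n (z - t))‖ ≤ (mollBump n).normed volume t * k := by
      intro t
      rw [ContinuousLinearMap.lsmul_apply, norm_smul, Real.norm_of_nonneg
        (ContDiffBump.nonneg_normed _ _)]
      exact mul_le_mul_of_nonneg_left (mollF_bound hk0 hk n _) (ContDiffBump.nonneg_normed _ _)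
    refine (norm_integral_le_of_norm_le
      ((ContDiffBump.integrable_normed (mollBump n)).mul_const k) (Eventually.of_forall h1)).trans ?_
    rw [integral_mul_const, ContDiffBump.integral_normed, one_mul]

private theorem moll_tendsto {g : ℂ → ℂ} (hg : Measurable g) {k : ℝ} (hk : ∀ z, ‖g z‖ ≤ k) :
    ∀ᵐ z, Tendsto (fun n => mollC g n z) atTop (𝓝 (g z)) := by
  have hr : Tendsto (fun n : ℕ => (mollBump n).rOut) atTop (𝓝 0) := by
    change Tendsto (fun n : ℕ => 1 / (2 * ((n : ℝ) + 1))) atTop (𝓝 0)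
    have h1 := (tendsto_one_div_add_atTop_nhds_zero_nat (𝕜 := ℝ)).const_mul (1 / 2)
    rw [mul_zero] at h1
    refine h1.congr fun n => ?_
    have hn : (0 : ℝ) < (n : ℝ) + 1 := by positivity
    field_simp
  have h0 : ∀ᵐ z : ℂ, z ≠ 0 := by
    rw [ae_iff]
    simp
  filter_upwards [ContDiffBump.ae_convolution_tendsto_right_of_locallyIntegrable (K := 2)
    (φ := fun n => mollBump n) hr (Eventually.of_forall fun n => by
      change 1 / (2 * ((n : ℝ) + 1)) ≤ 2 * (1 / (4 * ((n : ℝ) + 1)))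
      have hn : (0 : ℝ) < (n : ℝ) + 1 := by positivity
      refine le_of_eq ?_
      field_simp
      ring) (moll_locInt hg hk), h0] with z hz hz0
  refine hz.congr' ?_
  have hz0' : 0 < ‖z‖ := norm_pos_iff.mpr hz0
  have h1 : Tendsto (fun n : ℕ => 1 / ((n : ℝ) + 1)) atTop (𝓝 0) :=
    tendsto_one_div_add_atTop_nhds_zero_nat (𝕜 := ℝ)
  have h2 : ∀ᶠ n : ℕ in atTop, 1 / ((n : ℝ) + 1) < ‖z‖ / 2 :=
    h1.eventually_lt_const (by positivity)
  have h3 : ∀ᶠ n : ℕ in atTop, ‖z‖ + 1 < (n : ℝ) + 1 :=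
    ((tendsto_natCast_atTop_atTop (R := ℝ)).atTop_add tendsto_const_nhds).eventually_gt_atTop _
  filter_upwards [h2, h3] with n hn2 hn3
  have hn : (0 : ℝ) < (n : ℝ) + 1 := by positivity
  unfold mollC convolution
  refine integral_congr_ae (Eventually.of_forall fun t => ?_)
  by_cases ht : (mollBump n).normed volume t = 0
  · simp only [ht, map_zero, ContinuousLinearMap.zero_apply]
  · have h4 : t ∈ Function.support ((mollBump n).normed volume) := ht
    rw [ContDiffBump.support_normed_eq, Metric.mem_ball, dist_zero_right] at h4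
    have h4' : ‖t‖ < 1 / (2 * ((n : ℝ) + 1)) := h4
    have h5 : z - t ∈ mollT n := by
      have h6 : ‖z - t‖ ≤ ‖z‖ + ‖t‖ := norm_sub_le z t
      have h7 : ‖z‖ - ‖t‖ ≤ ‖z - t‖ := norm_sub_norm_le z t
      have h8 : 1 / ((n : ℝ) + 1) = 1 / (2 * ((n : ℝ) + 1)) + 1 / (2 * ((n : ℝ) + 1)) := by
        field_simp
        ring
      have h9 : 1 / ((n : ℝ) + 1) ≤ 1 := by
        rw [div_le_one hn]
        have : (0 : ℝ) ≤ n := by positivity
        linarith
      have h10 : 0 < 1 / (2 * ((n : ℝ) + 1)) := by positivity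
      refine ⟨?_, ?_⟩ <;> linarith
    simp only [mollF, indicator_of_mem h5]

theorem exists_coef_approx {μ : ℂ → ℂ} (hμ : Measurable μ) {k : ℝ} (hk : 0 ≤ k)
    (h : ∀ᵐ z, ‖μ z‖ ≤ k) : ∃ ν : ℕ → ℂ → ℂ, (∀ n, Coef k (ν n)) ∧
      ∀ᵐ z, Tendsto (fun n => ν n z) atTop (𝓝 (μ z)) := by
  set g : ℂ → ℂ := {z | ‖μ z‖ ≤ k}.indicator μ with hg
  have hgm : Measurable g := hμ.indicator (measurableSet_le hμ.norm measurable_const)
  have hgk : ∀ z, ‖g z‖ ≤ k := by
    intro z
    rw [hg]
    by_cases hz : z ∈ {z | ‖μ z‖ ≤ k}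
    · rw [indicator_of_mem hz]
      exact hz
    · rw [indicator_of_notMem hz, norm_zero]
      exact hk
  refine ⟨mollC g, fun n => moll_coef hgm hk hgk n, ?_⟩
  filter_upwards [moll_tendsto hgm hgk, h] with z hz1 hz2
  have : g z = μ z := indicator_of_mem (s := {z | ‖μ z‖ ≤ k}) hz2 μ
  rw [← this]
  exact hz1

private theorem starC_small {μ : ℂ → ℂ} {k : ℝ} (hμ : Coef k μ) :
    ∃ ε > 0, ∀ z, ‖z‖ < ε → starC μ z = 0 := by
  obtain ⟨R, hR⟩ := hμ.test.2.isCompact.isBounded.subset_closedBall (0 : ℂ)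
  refine ⟨1 / (|R| + 1), by positivity, fun z hz => ?_⟩
  unfold starC
  rcases eq_or_ne z 0 with rfl | hz0
  · simp
  · have h1 : μ (conj z)⁻¹ = 0 := by
      by_contra h2
      have h3 := hR (subset_tsupport _ h2)
      rw [Metric.mem_closedBall, dist_zero_right, norm_inv, RCLike.norm_conj] at h3
      have h4 : |R| + 1 < ‖z‖⁻¹ := by
        rw [lt_inv_comm₀ (by positivity) (norm_pos_iff.mpr hz0), ← one_div]
        exact hz
      have := le_abs_self R
      linarith
    rw [h1]
    simp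

private theorem starC_norm {μ : ℂ → ℂ} {k : ℝ} (hk : ∀ z, ‖μ z‖ ≤ k) (z : ℂ) :
    ‖starC μ z‖ ≤ k := by
  unfold starC
  have hk0 : 0 ≤ k := (norm_nonneg _).trans (hk 0)
  rcases eq_or_ne z 0 with rfl | hz0
  · simpa using hk0
  · rw [norm_div, norm_mul, norm_pow, norm_pow, RCLike.norm_conj, RCLike.norm_conj,
      mul_div_assoc, div_self (pow_ne_zero 2 (norm_ne_zero_iff.mpr hz0)), mul_one]
    exact hk _

theorem starC_coef {μ : ℂ → ℂ} {k : ℝ} (hμ : Coef k μ) : Coef k (starC μ) := by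
  refine ⟨⟨?_, ?_⟩, starC_small hμ, starC_norm hμ.le⟩
  · rw [contDiff_iff_contDiffAt]
    intro z
    rcases eq_or_ne z 0 with rfl | hz0
    · obtain ⟨ε, hε, h1⟩ := starC_small hμ
      have h2 : starC μ =ᶠ[𝓝 0] fun _ => 0 := by
        filter_upwards [Metric.ball_mem_nhds (0 : ℂ) hε] with w hw
        rw [Metric.mem_ball, dist_zero_right] at hw
        exact h1 w hw
      exact contDiffAt_const.congr_of_eventuallyEq h2
    · have hc : ContDiffAt ℝ ∞ (fun z : ℂ => conj z) z :=
        (Complex.conjCLE.contDiff (n := ∞)).contDiffAt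
      have hz0' : conj z ≠ 0 := by
        rw [Ne, map_eq_zero]
        exact hz0
      have h1 : ContDiffAt ℝ ∞ (fun z : ℂ => (conj z)⁻¹) z := hc.inv hz0'
      have h2 : ContDiffAt ℝ ∞ (fun z : ℂ => μ (conj z)⁻¹) z :=
        (hμ.test.1.contDiffAt (x := (conj z)⁻¹)).comp z h1
      have h3 : ContDiffAt ℝ ∞ (fun z : ℂ => conj (μ (conj z)⁻¹)) z :=
        (Complex.conjCLE.contDiff (n := ∞)).contDiffAt.comp z h2
      have h4 : ContDiffAt ℝ ∞ (fun z : ℂ => z ^ 2) z := contDiffAt_id.pow 2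
      have h5 : ContDiffAt ℝ ∞ (fun z : ℂ => ((conj z) ^ 2)⁻¹) z :=
        (hc.pow 2).inv (pow_ne_zero 2 hz0')
      have h6 := (h3.mul h4).mul h5
      refine h6.congr_of_eventuallyEq (Eventually.of_forall fun w => ?_)
      exact div_eq_mul_inv _ _
  · obtain ⟨ε, hε, h1⟩ := hμ.van
    refine HasCompactSupport.intro (isCompact_closedBall (0 : ℂ) (1 / ε)) fun z hz => ?_
    rw [Metric.mem_closedBall, dist_zero_right, not_le] at hz
    have hz0 : 0 < ‖z‖ := lt_trans (by positivity) hz
    have h2 : μ (conj z)⁻¹ = 0 := by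
      apply h1
      rw [norm_inv, RCLike.norm_conj, inv_lt_comm₀ hz0 hε, ← one_div]
      exact hz
    unfold starC
    rw [h2]
    simp

private theorem starC_starC {μ : ℂ → ℂ} (h0 : μ 0 = 0) (z : ℂ) : starC (starC μ) z = μ z := by
  rcases eq_or_ne z 0 with rfl | hz0
  · rw [h0]
    simp [starC]
  · have hz0' : conj z ≠ 0 := by
      rw [Ne, map_eq_zero]
      exact hz0
    simp only [starC, map_inv₀, Complex.conj_conj, inv_inv, map_div₀, map_mul, map_pow]
    field_simp

private theorem starC_null {N : Set ℂ} (hN : volume N = 0) :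
    volume {z : ℂ | (conj z)⁻¹ ∈ N} = 0 := by
  have h1 : {z : ℂ | (conj z)⁻¹ ∈ N} ⊆ {0} ∪ (fun z : ℂ => (conj z)⁻¹) '' (N \ {0}) := by
    intro z hz
    rcases eq_or_ne z 0 with rfl | hz0
    · exact Or.inl rfl
    · refine Or.inr ⟨(conj z)⁻¹, ⟨hz, ?_⟩, ?_⟩
      · rw [mem_singleton_iff, inv_eq_zero, map_eq_zero]
        exact hz0
      · simp
  refine measure_mono_null h1 (measure_union_null (by simp) ?_)
  refine addHaar_image_eq_zero_of_differentiableOn_of_addHaar_eq_zero volume ?_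
    (measure_mono_null Set.sdiff_subset hN)
  intro z hz
  have hz0 : z ≠ 0 := fun h => hz.2 h
  have hz0' : conj z ≠ 0 := by
    rw [Ne, map_eq_zero]
    exact hz0
  have hc : DifferentiableAt ℝ (fun z : ℂ => conj z) z := Complex.conjCLE.differentiableAt
  exact (hc.inv hz0').differentiableWithinAt

private theorem starC_anti_lin {μ : ℂ → ℂ} (h0 : μ 0 = 0) (z : ℂ) :
    starC (fun z => (μ z - starC μ z) / 2) z = -((μ z - starC μ z) / 2) := by
  have h1 := starC_starC h0 z
  have h2 : starC (fun z => (μ z - starC μ z) / 2) z =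
      (starC μ z - starC (starC μ) z) / 2 := by
    change conj ((μ (conj z)⁻¹ - starC μ (conj z)⁻¹) / 2) * z ^ 2 / (conj z) ^ 2 =
      (conj (μ (conj z)⁻¹) * z ^ 2 / (conj z) ^ 2 -
        conj (starC μ (conj z)⁻¹) * z ^ 2 / (conj z) ^ 2) / 2
    rw [map_div₀, map_sub, map_ofNat]
    ring
  rw [h2, h1]
  ring

/-- antisymmetric version: replace `ν n` by `(ν n - starC (ν n)) / 2`.  `starC` preserves almost
everywhere convergence because `z ↦ 1 / conj z` preserves null sets. -/
theorem exists_anti_approx {α : ℂ → ℂ} (hα : Measurable α) (h : ∀ᵐ z, ‖α z‖ ≤ 1)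
    (hs : ∀ᵐ z, starC α z = -α z) : ∃ ν : ℕ → ℂ → ℂ, (∀ n, Coef 1 (ν n)) ∧
      (∀ n z, starC (ν n) z = -ν n z) ∧ ∀ᵐ z, Tendsto (fun n => ν n z) atTop (𝓝 (α z)) := by
  obtain ⟨ν, hν, hlim⟩ := exists_coef_approx hα zero_le_one h
  have hν0 : ∀ n, ν n 0 = 0 := by
    intro n
    obtain ⟨ε, hε, h1⟩ := (hν n).van
    exact h1 0 (by rw [norm_zero]; exact hε)
  refine ⟨fun n z => (ν n z - starC (ν n) z) / 2, fun n => ?_, fun n z => ?_, ?_⟩
  · have h1 := hν n
    have h2 := starC_coef h1
    refine ⟨⟨?_, ?_⟩, ?_, fun z => ?_⟩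
    · exact (h1.test.1.sub h2.test.1).div_const 2
    · have h3 : HasCompactSupport (fun z => ν n z - starC (ν n) z) := by
        have h4 : (fun z => ν n z - starC (ν n) z) = ν n + -starC (ν n) :=
          funext fun z => sub_eq_add_neg _ _
        rw [h4]
        exact h1.test.2.add h2.test.2.neg
      exact h3.comp_left (g := fun w : ℂ => w / 2) (by simp)
    · obtain ⟨ε₁, hε₁, h3⟩ := h1.van
      obtain ⟨ε₂, hε₂, h4⟩ := h2.van
      refine ⟨min ε₁ ε₂, lt_min hε₁ hε₂, fun z hz => ?_⟩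
      simp only [h3 z (lt_of_lt_of_le hz (min_le_left _ _)),
        h4 z (lt_of_lt_of_le hz (min_le_right _ _)), sub_zero, zero_div]
    · have h3 := h1.le z
      have h4 := h2.le z
      have h5 := norm_sub_le (ν n z) (starC (ν n) z)
      rw [norm_div]
      norm_num
      linarith
  · exact starC_anti_lin (hν0 n) z
  · have hnull : ∀ᵐ z : ℂ, Tendsto (fun n => ν n (conj z)⁻¹) atTop (𝓝 (α (conj z)⁻¹)) := by
      rw [ae_iff] at hlim ⊢
      exact starC_null hlim
    filter_upwards [hlim, hnull, hs] with z h1 h2 h3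
    have h4 : Tendsto (fun n => starC (ν n) z) atTop (𝓝 (starC α z)) := by
      unfold starC
      exact (((Complex.continuous_conj.tendsto _).comp h2).mul_const _).div_const _
    have h5 := (h1.sub h4).div_const 2
    rw [h3] at h5
    have h6 : (α z - -α z) / 2 = α z := by ring
    rw [h6] at h5
    exact h5

end Pool.Agent.QCD
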