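import Pool.Agent.Lib.MP_f30fea_an.Base
import Pool.Agent.Lib.MP_f30fea_an.Family

/-!
# Uniqueness and composition of normalised solutions

`nice_unique`: `F = v ∘ w.symm` is smooth and by the chain rule (applied to `v = F ∘ w`)
`dzb v = dz F ∘ w * dzb w + dzb F ∘ w * conj (dz w)`, `dz v = dz F ∘ w * dz w + dzb F ∘ w * conj (dzb w)`;
with `dzb v = μ dz v`, `dzb w = μ dz w`: `dzb F ∘ w * (conj (dz w) - μ conj (μ dz w)) = 0`, so
`dzb F = 0` as `‖μ‖ ≤ k < 1`.  So `F` is entire, of linear growth (`growth`, `growth_symm`), so affine (Cauchy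
estimates: the derivative is a bounded entire function), `F 0 = 0`, `F 1 = 1`, `F = id`.
`nice_div` (composition with an inverse): `A = W ∘ s⁻¹`; from `W = A ∘ s` as above
`dzb A ∘ s * conj (dz s) * (1 - μ conj ν) = dz A ∘ s * dz s * (μ - ν)`.  `dz A ∘ s ≠ 0` since
otherwise `dzb A ∘ s = 0` too and `dz W = 0`.
-/

open Complex MeasureTheory Filter Topology Set
open scoped ContDiff ENNReal ComplexConjugate

noncomputable section

namespace Pool.Agent.QCD

theorem Nice.growth_nonneg {μ : ℂ → ℂ} {w : ℂ ≃ₜ ℂ} (h : Nice μ w) :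
    ∃ C, 0 ≤ C ∧ ∀ z, ‖w z‖ ≤ C * (1 + ‖z‖) := by
  obtain ⟨C, hC⟩ := h.growth
  refine ⟨C, ?_, hC⟩
  have := hC 0
  rw [h.zero, norm_zero, add_zero, mul_one] at this
  exact this

theorem Nice.symm_zero {μ : ℂ → ℂ} {w : ℂ ≃ₜ ℂ} (h : Nice μ w) : w.symm 0 = 0 := by
  rw [Homeomorph.symm_apply_eq, h.zero]

theorem Nice.symm_one {μ : ℂ → ℂ} {w : ℂ ≃ₜ ℂ} (h : Nice μ w) : w.symm 1 = 1 := by
  rw [Homeomorph.symm_apply_eq, h.one]

theorem Nice.growth_symm_nonneg {μ : ℂ → ℂ} {w : ℂ ≃ₜ ℂ} (h : Nice μ w) :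
    ∃ C, 0 ≤ C ∧ ∀ z, ‖w.symm z‖ ≤ C * (1 + ‖z‖) := by
  obtain ⟨C, hC⟩ := h.growth_symm
  refine ⟨C, ?_, hC⟩
  have := hC 0
  rw [h.symm_zero, norm_zero, add_zero, mul_one] at this
  exact this

theorem one_sub_ne {a b : ℂ} {k : ℝ} (hk : k < 1) (ha : ‖a‖ ≤ k) (hb : ‖b‖ ≤ k) :
    1 - conj b * a ≠ 0 := by
  intro h
  have h1 : conj b * a = 1 := (sub_eq_zero.mp h).symm
  have h2 : ‖conj b * a‖ = 1 := by rw [h1, norm_one]
  rw [norm_mul, RCLike.norm_conj] at h2
  have h3 : ‖b‖ * ‖a‖ ≤ k * k :=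
    mul_le_mul hb ha (norm_nonneg _) ((norm_nonneg _).trans hb)
  have h4 : 0 ≤ k := (norm_nonneg _).trans hb
  nlinarith

/-- the coefficient of `W ∘ s⁻¹`, as a function on the domain of `s` -/
def divC (μ ν : ℂ → ℂ) (s : ℂ ≃ₜ ℂ) (z : ℂ) : ℂ :=
  (μ z - ν z) / (1 - conj (ν z) * μ z) * (dz s z / conj (dz s z))

theorem nice_div {μ ν : ℂ → ℂ} {W s : ℂ ≃ₜ ℂ} {k : ℝ} (hk : k < 1) (hμ : ∀ z, ‖μ z‖ ≤ k)
    (hν : ∀ z, ‖ν z‖ ≤ k) (hW : Nice μ W) (hs : Nice ν s) :
    Nice (fun z => divC μ ν s (s.symm z)) (s.symm.trans W) := by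
  have hsm : ContDiff ℝ ∞ (s.symm.trans W) := hW.smooth.comp hs.smooth_symm
  have hsm' : ContDiff ℝ ∞ (s.symm.trans W).symm := hs.smooth.comp hW.smooth_symm
  have hA : ∀ z, DifferentiableAt ℝ (s.symm.trans W) z := fun z =>
    (hsm.differentiable (by simp)).differentiableAt
  have hsd : ∀ z, DifferentiableAt ℝ s z := fun z =>
    (hs.smooth.differentiable (by simp)).differentiableAt
  have hWA : (fun z => (s.symm.trans W) (s z)) = W := by
    funext z
    simp
  have h1 : ∀ z, dz W z = dz (s.symm.trans W) (s z) * dz s z +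
      dzb (s.symm.trans W) (s z) * conj (dzb s z) := by
    intro z
    have := dz_comp (f := s.symm.trans W) (g := s) (z := z) (hsd z) (hA _)
    rw [hWA] at this
    exact this
  have h2 : ∀ z, dzb W z = dz (s.symm.trans W) (s z) * dzb s z +
      dzb (s.symm.trans W) (s z) * conj (dz s z) := by
    intro z
    have := dzb_comp (f := s.symm.trans W) (g := s) (z := z) (hsd z) (hA _)
    rw [hWA] at this
    exact this
  have h3 : ∀ z, dzb (s.symm.trans W) (s z) =
      divC μ ν s z * dz (s.symm.trans W) (s z) := by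
    intro z
    have e1 := hW.bel z
    rw [h1 z, h2 z, hs.bel z, map_mul] at e1
    have n1 : conj (dz s z) ≠ 0 := (map_ne_zero _).mpr (hs.ne z)
    have n2 := one_sub_ne hk (hμ z) (hν z)
    unfold divC
    rw [div_mul_div_comm, div_mul_eq_mul_div, eq_div_iff (mul_ne_zero n2 n1)]
    linear_combination e1
  have h4 : ∀ z, dz (s.symm.trans W) (s z) ≠ 0 := by
    intro z h
    have := h1 z
    rw [h3 z, h] at this
    simp only [zero_mul, mul_zero, add_zero] at this
    exact hW.ne z this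
  obtain ⟨C1, hC1, g1⟩ := hW.growth_nonneg
  obtain ⟨C2, hC2, g2⟩ := hs.growth_symm_nonneg
  obtain ⟨C3, hC3, g3⟩ := hs.growth_nonneg
  obtain ⟨C4, hC4, g4⟩ := hW.growth_symm_nonneg
  refine ⟨hsm, hsm', ?_, ?_, ?_, ?_, ⟨C1 * (1 + C2), ?_⟩, ⟨C3 * (1 + C4), ?_⟩⟩
  · intro y
    have := h3 (s.symm y)
    rw [Homeomorph.apply_symm_apply] at this
    exact this
  · intro y
    have := h4 (s.symm y)
    rw [Homeomorph.apply_symm_apply] at this
    exact this
  · change W (s.symm 0) = 0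
    rw [hs.symm_zero, hW.zero]
  · change W (s.symm 1) = 1
    rw [hs.symm_one, hW.one]
  · intro z
    change ‖W (s.symm z)‖ ≤ _
    have := g1 (s.symm z)
    have := g2 z
    have := norm_nonneg z
    calc ‖W (s.symm z)‖ ≤ C1 * (1 + ‖s.symm z‖) := g1 _
      _ ≤ C1 * ((1 + C2) * (1 + ‖z‖)) := by
        refine mul_le_mul_of_nonneg_left ?_ hC1
        nlinarith
      _ = _ := by ring
  · intro z
    change ‖s (W.symm z)‖ ≤ _
    have := g3 (W.symm z)
    have := g4 z
    have := norm_nonneg z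
    calc ‖s (W.symm z)‖ ≤ C3 * (1 + ‖W.symm z‖) := g3 _
      _ ≤ C3 * ((1 + C4) * (1 + ‖z‖)) := by
        refine mul_le_mul_of_nonneg_left ?_ hC3
        nlinarith
      _ = _ := by ring

theorem entire_linear {F : ℂ → ℂ} (hF : Differentiable ℂ F) (C : ℝ) (hC : 0 ≤ C)
    (hg : ∀ z, ‖F z‖ ≤ C * (1 + ‖z‖)) (h0 : F 0 = 0) (h1 : F 1 = 1) (z : ℂ) : F z = z := by
  have hd : Differentiable ℂ (dslope F 0) := by
    have := (differentiableOn_dslope (c := (0 : ℂ)) (s := Set.univ) (f := F)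
      Filter.univ_mem).mpr hF.differentiableOn
    exact differentiableOn_univ.mp this
  have hval : ∀ z, z ≠ 0 → dslope F 0 z = F z / z := by
    intro z hz
    rw [dslope_of_ne _ hz, slope_def_field, h0, sub_zero, sub_zero]
  have hb : Bornology.IsBounded (Set.range (dslope F 0)) := by
    obtain ⟨M, hM⟩ := (isCompact_closedBall (0 : ℂ) 1).exists_bound_of_continuousOn
      hd.continuous.continuousOn
    rw [isBounded_iff_forall_norm_le]
    refine ⟨max M (2 * C), ?_⟩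
    rintro _ ⟨z, rfl⟩
    by_cases hz : ‖z‖ ≤ 1
    · exact (hM z (by simpa using hz)).trans (le_max_left _ _)
    · push Not at hz
      have hz0 : z ≠ 0 := by
        rintro rfl
        rw [norm_zero] at hz
        linarith
      rw [hval z hz0, norm_div]
      refine le_trans ?_ (le_max_right _ _)
      rw [div_le_iff₀ (by linarith)]
      have := hg z
      nlinarith
  have hc := hd.apply_eq_apply_of_bounded hb
  have h2 : dslope F 0 1 = 1 := by
    rw [hval 1 one_ne_zero, h1, div_one]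
  by_cases hz : z = 0
  · rw [hz, h0]
  · have := hc z 1
    rw [h2, hval z hz, div_eq_one_iff_eq hz] at this
    exact this

theorem nice_unique {μ : ℂ → ℂ} {w v : ℂ ≃ₜ ℂ} {k : ℝ} (hk : k < 1) (hμ : ∀ z, ‖μ z‖ ≤ k)
    (hw : Nice μ w) (hv : Nice μ v) : w = v := by
  have h := nice_div hk hμ hμ hv hw
  have h1 : ∀ z, dzb (w.symm.trans v) z = 0 := by
    intro z
    rw [h.bel z]
    simp only [divC, sub_self, zero_div, zero_mul]
  have h2 : Differentiable ℂ (w.symm.trans v) := fun z =>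
    holo_of_dzb (h.smooth.differentiable (by simp)).differentiableAt (h1 z)
  obtain ⟨C, hC, hg⟩ := h.growth_nonneg
  have h3 := entire_linear h2 C hC hg h.zero h.one
  ext z
  have := h3 (w z)
  simp only [Homeomorph.trans_apply, Homeomorph.symm_apply_apply] at this
  exact this.symm

theorem nice_coef_unique {μ ν : ℂ → ℂ} {w : ℂ ≃ₜ ℂ} (h1 : Nice μ w) (h2 : Nice ν w) : μ = ν := by
  funext z
  exact mul_right_cancel₀ (h1.ne z) ((h1.bel z).symm.trans (h2.bel z))

theorem coef_div {μ ν : ℂ → ℂ} {W s : ℂ ≃ₜ ℂ} {k : ℝ} (hk : k < 1) (hμ : Coef k μ)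
    (hν : Coef k ν) (hW : Nice μ W) (hs : Nice ν s)
    (hle : ∀ z, ‖μ z - ν z‖ ≤ k * ‖1 - conj (ν z) * μ z‖) :
    Coef k (fun z => divC μ ν s (s.symm z)) := by
  have hz : ∀ z, μ z = 0 → ν z = 0 → divC μ ν s z = 0 := by
    intro z h1 h2
    simp [divC, h1, h2]
  refine ⟨⟨?_, ?_⟩, ?_, ?_⟩
  · refine ContDiff.comp (g := divC μ ν s) ?_ hs.smooth_symm
    unfold divC
    have hconj : ContDiff ℝ ∞ (conj : ℂ → ℂ) := Complex.conjCLE.contDiff
    simp only [div_eq_mul_inv]
    refine ContDiff.mul ((hμ.test.1.sub hν.test.1).mul (ContDiff.inv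
      (contDiff_const.sub ((hconj.comp hν.test.1).mul hμ.test.1)) ?_))
      ((dz_smooth hs.smooth).mul (ContDiff.inv (hconj.comp (dz_smooth hs.smooth)) ?_))
    · intro z
      exact one_sub_ne hk (hμ.le z) (hν.le z)
    · intro z
      exact (map_ne_zero _).mpr (hs.ne z)
  · refine HasCompactSupport.intro ((hμ.test.2.union hν.test.2).image s.continuous) ?_
    intro y hy
    refine hz _ ?_ ?_
    · by_contra h
      exact hy ⟨s.symm y, Or.inl (subset_tsupport _ h), s.apply_symm_apply y⟩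
    · by_contra h
      exact hy ⟨s.symm y, Or.inr (subset_tsupport _ h), s.apply_symm_apply y⟩
  · obtain ⟨e1, he1, h1⟩ := hμ.van
    obtain ⟨e2, he2, h2⟩ := hν.van
    have hc : ContinuousAt s.symm 0 := s.symm.continuous.continuousAt
    rw [Metric.continuousAt_iff] at hc
    obtain ⟨δ, hδ, h3⟩ := hc (min e1 e2) (lt_min he1 he2)
    refine ⟨δ, hδ, fun z hzz => ?_⟩
    have h4 := h3 (x := z) (by simpa using hzz)
    rw [hs.symm_zero, dist_zero_right, lt_min_iff] at h4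
    exact hz _ (h1 _ h4.1) (h2 _ h4.2)
  · intro y
    unfold divC
    have n1 : 0 < ‖1 - conj (ν (s.symm y)) * μ (s.symm y)‖ :=
      norm_pos_iff.mpr (one_sub_ne hk (hμ.le _) (hν.le _))
    have n2 : ‖dz s (s.symm y)‖ ≠ 0 := norm_ne_zero_iff.mpr (hs.ne _)
    rw [norm_mul, norm_div, norm_div, RCLike.norm_conj, div_self n2, mul_one, div_le_iff₀ n1]
    exact hle _

end Pool.Agent.QCD
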