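import Pool.Agent.Lib.MP_f30fea_an.Base
import Pool.Agent.Lib.MP_f30fea_an.Uniq
import Pool.Agent.Lib.MP_f30fea_an.Mollify

/-!
# Reflection in the unit circle

`v z = 1 / conj (w (1 / conj z))` (Lean: `0⁻¹ = 0`, so `v 0 = 0`, `v 1 = 1`).  Its inverse is the same
expression with `w.symm`.  Continuity at `0`: `‖w ζ‖ → ∞` as `ζ → ∞` (`growth_symm`).
Derivatives for `z ≠ 0`, with `r z = (conj z)⁻¹`, `dz r = 0`, `dzb r = -(conj z)^{-2}`:
`dz v z = conj (dz w (r z)) / (conj (w (r z))² z²)`, `dzb v z = conj (dzb w (r z)) / (conj (w (r z))² (conj z)²)`,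
quotient `conj (μ (r z)) z²/(conj z)² = starC μ z`.
Smoothness near `0`: outside a disc `dzb w = 0`, so `w` is holomorphic there; `G z = 1 / w (1/z)`,
`G 0 = 0`, is continuous at `0` and holomorphic in a punctured disc, so holomorphic
(`Complex.differentiableOn_compl_singleton_and_continuousAt_iff`); `v z = conj (G (conj z))`; so
`v` is smooth near `0`.  Smoothness of `v.symm`: the same argument for `w.symm`.
Growth of `v` at infinity: `‖w ζ‖ ≥ c ‖ζ‖` for small `ζ` because `w.symm` is Lipschitz near `0`;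
growth of `v.symm`: same with `w` (Lipschitz near `0`).
-/

open Complex MeasureTheory Filter Topology Set
open scoped ContDiff ENNReal ComplexConjugate

noncomputable section

namespace Pool.Agent.QCD

private theorem star_map_ne {w : ℂ ≃ₜ ℂ} (h0 : w 0 = 0) {z : ℂ} (hz : z ≠ 0) : w z ≠ 0 := by
  intro h
  exact hz (w.injective (h.trans h0.symm))

/-- smoothness of `z ↦ 1 / w (1/z)` -/
private theorem star_smooth {w : ℂ ≃ₜ ℂ} (h0 : w 0 = 0) (hs : ContDiff ℝ ∞ w) {R : ℝ}
    (hR : ∀ z, R < ‖z‖ → DifferentiableAt ℂ w z) : ContDiff ℝ ∞ (fun z => (w z⁻¹)⁻¹) := by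
  rw [contDiff_iff_contDiffAt]
  intro z
  rcases eq_or_ne z 0 with rfl | hz
  · set G : ℂ → ℂ := fun z => (w z⁻¹)⁻¹ with hG
    have hG0 : G 0 = 0 := by simp [hG, h0]
    set r : ℝ := (|R| + 1)⁻¹ with hr
    have hr0 : 0 < r := by positivity
    -- holomorphic in the punctured disc
    have h1 : DifferentiableOn ℂ G (Metric.ball 0 r \ {0}) := by
      intro y hy
      have hy0 : y ≠ 0 := hy.2
      have hyr : ‖y‖ < r := by simpa using hy.1
      have hyp : 0 < ‖y‖ := norm_pos_iff.2 hy0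
      have h2 : R < ‖y⁻¹‖ := by
        rw [norm_inv]
        have h3 : |R| + 1 < ‖y‖⁻¹ := by
          rw [hr] at hyr
          exact (lt_inv_comm₀ (by positivity) hyp).2 hyr
        linarith [le_abs_self R]
      have h3 : DifferentiableAt ℂ (fun z => w z⁻¹) y :=
        (hR _ h2).comp y (differentiableAt_inv hy0)
      exact (h3.inv (star_map_ne h0 (inv_ne_zero hy0))).differentiableWithinAt
    -- continuous at zero
    have h2 : ContinuousAt G 0 := by
      rw [continuousAt_iff_punctured_nhds, hG0]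
      have e1 : Tendsto (fun z : ℂ => z⁻¹) (𝓝[≠] 0) (Filter.cocompact ℂ) := by
        rw [← Metric.cobounded_eq_cocompact]
        exact tendsto_inv₀_nhdsNE_zero
      have e2 : Tendsto w (Filter.cocompact ℂ) (Filter.cocompact ℂ) :=
        w.isClosedEmbedding.tendsto_cocompact
      have e3 : Tendsto (fun z : ℂ => z⁻¹) (Filter.cocompact ℂ) (𝓝 0) := by
        rw [← Metric.cobounded_eq_cocompact]
        exact tendsto_inv₀_cobounded
      exact e3.comp (e2.comp e1)
    have h3 : DifferentiableOn ℂ G (Metric.ball 0 r) :=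
      (Complex.differentiableOn_compl_singleton_and_continuousAt_iff
        (Metric.ball_mem_nhds 0 hr0)).1 ⟨h1, h2⟩
    have h4 : AnalyticAt ℂ G 0 := h3.analyticAt (Metric.ball_mem_nhds 0 hr0)
    exact (h4.contDiffAt (n := ∞)).restrict_scalars ℝ
  · have e1 : ContDiffAt ℝ ∞ (fun z : ℂ => z⁻¹) z := contDiffAt_inv ℝ hz
    have e2 : ContDiffAt ℝ ∞ (fun z : ℂ => w z⁻¹) z := hs.contDiffAt.comp z e1
    exact e2.inv (star_map_ne h0 (inv_ne_zero hz))

private theorem star_smooth' {w : ℂ ≃ₜ ℂ} (h0 : w 0 = 0) (hs : ContDiff ℝ ∞ w) {R : ℝ}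
    (hR : ∀ z, R < ‖z‖ → DifferentiableAt ℂ w z) :
    ContDiff ℝ ∞ (fun z => (conj (w (conj z)⁻¹))⁻¹) := by
  have hc : ContDiff ℝ ∞ (conj : ℂ → ℂ) := Complex.conjCLE.contDiff
  have h1 := hc.comp ((star_smooth h0 hs hR).comp hc)
  have h2 : (conj ∘ (fun z => (w z⁻¹)⁻¹) ∘ conj : ℂ → ℂ) =
      fun z => (conj (w (conj z)⁻¹))⁻¹ := by
    funext z
    simp only [Function.comp_apply, map_inv₀]
  rw [h2] at h1
  exact h1

private theorem star_growth {w : ℂ ≃ₜ ℂ} (h0 : w 0 = 0) (hs : DifferentiableAt ℝ w.symm 0) :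
    ∃ C, ∀ z, ‖(conj (w (conj z)⁻¹))⁻¹‖ ≤ C * (1 + ‖z‖) := by
  have hs0 : w.symm 0 = 0 := by rw [Homeomorph.symm_apply_eq, h0]
  have h1 := hs.isBigO_sub
  rw [hs0] at h1
  simp only [sub_zero] at h1
  obtain ⟨L, hL0, hL⟩ := h1.exists_pos
  rw [Asymptotics.isBigOWith_iff, Metric.eventually_nhds_iff] at hL
  obtain ⟨δ, hδ, hL⟩ := hL
  refine ⟨L + δ⁻¹, fun z => ?_⟩
  have hz0 := norm_nonneg z
  rw [norm_inv, RCLike.norm_conj]
  rcases eq_or_ne z 0 with rfl | hz
  · simp only [map_zero, inv_zero, h0, norm_zero]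
    positivity
  have hz' : (conj z)⁻¹ ≠ 0 := inv_ne_zero ((map_ne_zero _).2 hz)
  have hw0 : 0 < ‖w (conj z)⁻¹‖ := norm_pos_iff.2 (star_map_ne h0 hz')
  by_cases hc : ‖w (conj z)⁻¹‖ < δ
  · have h2 := hL (y := w (conj z)⁻¹) (by rw [dist_zero_right]; exact hc)
    rw [Homeomorph.symm_apply_apply, norm_inv, RCLike.norm_conj] at h2
    have hzp : 0 < ‖z‖ := norm_pos_iff.2 hz
    have h3 : ‖w (conj z)⁻¹‖⁻¹ ≤ L * ‖z‖ := by
      rw [inv_le_iff_one_le_mul₀ hw0]
      have h4 : ‖z‖⁻¹ * ‖z‖ ≤ L * ‖w (conj z)⁻¹‖ * ‖z‖ :=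
        mul_le_mul_of_nonneg_right h2 hz0
      rw [inv_mul_cancel₀ hzp.ne'] at h4
      linarith
    have h5 : 0 < δ⁻¹ := inv_pos.2 hδ
    nlinarith
  · have h3 : ‖w (conj z)⁻¹‖⁻¹ ≤ δ⁻¹ := inv_anti₀ hδ (not_lt.1 hc)
    have h5 : 0 < δ⁻¹ := inv_pos.2 hδ
    nlinarith

private theorem star_refl (w : ℂ ≃ₜ ℂ) (z : ℂ) :
    (conj (w.symm (conj (conj (w (conj z)⁻¹))⁻¹)⁻¹))⁻¹ = z := by
  simp only [map_inv₀, Complex.conj_conj, inv_inv, Homeomorph.symm_apply_apply]

/-- derivatives of `z ↦ 1 / conj (f z)` -/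
private theorem star_inv {f : ℂ → ℂ} {z : ℂ} (hf : DifferentiableAt ℝ f z) (h0 : f z ≠ 0) :
    DifferentiableAt ℝ (fun z => (conj (f z))⁻¹) z ∧
    dz (fun z => (conj (f z))⁻¹) z = -conj (dzb f z) / (conj (f z)) ^ 2 ∧
    dzb (fun z => (conj (f z))⁻¹) z = -conj (dz f z) / (conj (f z)) ^ 2 := by
  have hc : DifferentiableAt ℝ (fun z => conj (f z)) z :=
    (Complex.conjCLE.differentiableAt).comp z hf
  have hc0 : conj (f z) ≠ 0 := (map_ne_zero _).2 h0
  have hi : DifferentiableAt ℂ (fun y : ℂ => y⁻¹) (conj (f z)) := differentiableAt_inv hc0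
  have hi' : DifferentiableAt ℝ (fun y : ℂ => y⁻¹) (conj (f z)) := hi.restrictScalars ℝ
  have hd : deriv (fun y : ℂ => y⁻¹) (conj (f z)) = -((conj (f z)) ^ 2)⁻¹ := by
    rw [deriv_inv]
  refine ⟨DifferentiableAt.comp z hi' hc, ?_, ?_⟩
  · have h1 := dz_comp (f := fun y : ℂ => y⁻¹) (g := fun z => conj (f z)) (z := z) hc hi'
    rw [h1, dz_of_holo hi, dzb_of_holo hi, hd, dz_conj hf]
    rw [zero_mul, add_zero, div_eq_mul_inv]
    ring
  · have h1 := dzb_comp (f := fun y : ℂ => y⁻¹) (g := fun z => conj (f z)) (z := z) hc hi'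
    rw [h1, dz_of_holo hi, dzb_of_holo hi, hd, dzb_conj hf]
    rw [zero_mul, add_zero, div_eq_mul_inv]
    ring

theorem star_nice {μ : ℂ → ℂ} {w : ℂ ≃ₜ ℂ} {k : ℝ} (hk : k < 1) (hμ : Coef k μ)
    (hw : Nice μ w) :
    ∃ v : ℂ ≃ₜ ℂ, (∀ z, v z = (conj (w (conj z)⁻¹))⁻¹) ∧ Nice (starC μ) v := by
  have h0 : w 0 = 0 := hw.zero
  have h0' : w.symm 0 = 0 := hw.symm_zero
  obtain ⟨M, R, -, hR, -, hμR⟩ := hμ.test.bound
  -- holomorphic near infinity
  have hol : ∀ z, R < ‖z‖ → DifferentiableAt ℂ w z := by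
    intro z hz
    refine holo_of_dzb (hw.smooth.differentiable (by simp)).differentiableAt ?_
    rw [hw.bel z, hμR z hz, zero_mul]
  obtain ⟨C, hC0, hC⟩ := hw.growth_nonneg
  have hol' : ∀ z, C * (1 + R) < ‖z‖ → DifferentiableAt ℂ w.symm z := by
    intro z hz
    have h1 : R < ‖w.symm z‖ := by
      by_contra h
      push Not at h
      have h2 := hC (w.symm z)
      rw [Homeomorph.apply_symm_apply] at h2
      have h3 : C * (1 + ‖w.symm z‖) ≤ C * (1 + R) :=
        mul_le_mul_of_nonneg_left (by linarith) hC0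
      linarith
    have h2 := hol _ h1
    have h3 : deriv w (w.symm z) ≠ 0 := by
      rw [← dz_of_holo h2]
      exact hw.ne _
    have h4 : HasDerivAt w.symm (deriv w (w.symm z))⁻¹ z :=
      HasDerivAt.of_local_left_inverse w.symm.continuous.continuousAt h2.hasDerivAt h3
        (Filter.Eventually.of_forall fun y => w.apply_symm_apply y)
    exact h4.differentiableAt
  have hs : ContDiff ℝ ∞ (fun z => (conj (w (conj z)⁻¹))⁻¹) := star_smooth' h0 hw.smooth hol
  have hs' : ContDiff ℝ ∞ (fun z => (conj (w.symm (conj z)⁻¹))⁻¹) :=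
    star_smooth' h0' hw.smooth_symm hol'
  let v : ℂ ≃ₜ ℂ :=
    { toFun := fun z => (conj (w (conj z)⁻¹))⁻¹
      invFun := fun z => (conj (w.symm (conj z)⁻¹))⁻¹
      left_inv := fun z => star_refl w z
      right_inv := fun z => by
        have := star_refl w.symm z
        rw [Homeomorph.symm_symm] at this
        exact this
      continuous_toFun := hs.continuous
      continuous_invFun := hs'.continuous }
  have hv : ∀ z, v z = (conj (w (conj z)⁻¹))⁻¹ := fun z => rfl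
  have hsv : ContDiff ℝ ∞ v := hs
  have hsv' : ContDiff ℝ ∞ v.symm := hs'
  have hd : ∀ z, DifferentiableAt ℝ v z := fun z => (hsv.differentiable (by simp)) z
  have hd' : ∀ z, DifferentiableAt ℝ v.symm z := fun z => (hsv'.differentiable (by simp)) z
  have hwd : ∀ z, DifferentiableAt ℝ w z := fun z => (hw.smooth.differentiable (by simp)) z
  -- the equation for nonzero points
  have hbel1 : ∀ z, z ≠ 0 → dzb v z = starC μ z * dz v z := by
    intro z hz
    have hz' : conj z ≠ 0 := (map_ne_zero _).2 hz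
    have hzi : (conj z)⁻¹ ≠ 0 := inv_ne_zero hz'
    obtain ⟨a1, a2, a3⟩ := star_inv (f := fun z => z) (z := z) differentiableAt_id hz
    have hidd : DifferentiableAt ℂ (fun z : ℂ => z) z := differentiableAt_id
    have hid1 : dz (fun z : ℂ => z) z = 1 := by
      rw [dz_of_holo hidd]
      exact deriv_id z
    have hid2 : dzb (fun z : ℂ => z) z = 0 := dzb_of_holo hidd
    rw [hid2] at a2
    rw [hid1] at a3
    simp only [map_zero, neg_zero, zero_div] at a2
    rw [map_one] at a3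
    have b1 : DifferentiableAt ℝ (fun z : ℂ => w (conj z)⁻¹) z := (hwd _).comp z a1
    have b2 := dz_comp (f := w) (g := fun z : ℂ => (conj z)⁻¹) (z := z) a1 (hwd _)
    have b3 := dzb_comp (f := w) (g := fun z : ℂ => (conj z)⁻¹) (z := z) a1 (hwd _)
    rw [a2, a3] at b2 b3
    have hw0 : w (conj z)⁻¹ ≠ 0 := star_map_ne h0 hzi
    obtain ⟨-, c2, c3⟩ := star_inv (f := fun z => w (conj z)⁻¹) (z := z) b1 hw0
    have e2 : dz v z = dz (fun z => (conj (w (conj z)⁻¹))⁻¹) z := rfl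
    have e3 : dzb v z = dzb (fun z => (conj (w (conj z)⁻¹))⁻¹) z := rfl
    rw [e2, e3, c2, c3, b2, b3, hw.bel]
    unfold starC
    have hw0' : conj (w (conj z)⁻¹) ≠ 0 := (map_ne_zero _).2 hw0
    simp only [map_mul, map_div₀, map_neg, map_one, map_pow, Complex.conj_conj, map_zero,
      mul_zero, zero_add, add_zero]
    field_simp
  -- at zero by continuity
  have hstar : Continuous (starC μ) := (starC_coef hμ).test.1.continuous
  have hbel : ∀ z, dzb v z = starC μ z * dz v z := by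
    have hc1 : Continuous (dzb v) := (dzb_smooth hsv).continuous
    have hc2 : Continuous (fun z => starC μ z * dz v z) := hstar.mul (dz_smooth hsv).continuous
    have hdense : Dense {z : ℂ | z ≠ 0} := dense_compl_singleton 0
    have := hc1.ext_on hdense hc2 (fun z hz => hbel1 z hz)
    exact fun z => congrFun this z
  have hne : ∀ z, dz v z ≠ 0 := by
    intro z hz
    have h1 : dzb v z = 0 := by rw [hbel z, hz, mul_zero]
    have h2 : fderiv ℝ v z = 0 := by
      ext1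
      simp [fderiv_eq, hz, h1]
    have h3 : HasFDerivAt v (0 : ℂ →L[ℝ] ℂ) z := by
      rw [← h2]
      exact (hd z).hasFDerivAt
    have h4 : HasFDerivAt (fun y => v.symm (v y)) ((fderiv ℝ v.symm (v z)).comp (0 : ℂ →L[ℝ] ℂ)) z :=
      (hd' (v z)).hasFDerivAt.comp z h3
    have h5 : (fun y => v.symm (v y)) = fun y => y := by
      funext y
      exact v.symm_apply_apply y
    rw [h5, ContinuousLinearMap.comp_zero] at h4
    have h6 := h4.unique (hasFDerivAt_id z)
    have h7 : (0 : ℂ →L[ℝ] ℂ) 1 = (ContinuousLinearMap.id ℝ ℂ) 1 := by rw [h6]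
    simp at h7
  refine ⟨v, hv, hsv, hsv', hbel, hne, ?_, ?_, star_growth h0 (hw.smooth_symm.differentiable (by simp) 0),
    star_growth h0' ?_⟩
  · rw [hv]
    simp [h0]
  · rw [hv]
    simp [hw.one]
  · rw [Homeomorph.symm_symm]
    exact hwd 0

end Pool.Agent.QCD
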