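import Pool.Agent.Lib.MP_f30fea_an.Base
import Pool.Agent.Lib.MP_f30fea_an.Mid
import Pool.Agent.Lib.MP_f30fea_an.Star
import Pool.Agent.Lib.MP_f30fea_an.Family

/-!
# Every smooth quasicircle is the image of the circle under an antisymmetric map

`ν z = mid (μ z) (starC μ z)`:
smooth (`mid_smooth`, `starC_coef`), zero where both vanish (near `0`, near `∞`), `‖ν‖ ≤ k` (`mid_le`): `Coef k ν`.
`starC ν = ν`: `starC ν z = conj (mid (μ (r z)) (starC μ (r z))) u`, `u = z²/(conj z)²` of modulus `1`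
(`z ≠ 0`), `= mid (u conj (μ (r z))) (u conj (starC μ (r z))) = mid (starC μ z) (μ z)` (`mid_conj`,
`mid_rot`; `starC (starC μ) = μ` off `0`), `= ν z` (`mid_comm`).  At `z = 0` both are `0`.
Let `s` be the normalised solution for `ν` (`exists_family` for `ν / l` with `l = (k+1)/2`).  By `star_nice` and
`nice_unique`: `s z = 1 / conj (s (1 / conj z))`; on the unit circle `1 / conj z = z`, so `‖s z‖ = 1`;
same for `s.symm`; so `s` maps the unit circle onto itself.
`A = s.symm.trans W` has the coefficient `κ z = divC μ ν s (s.symm z)` (`nice_div`), `Coef k κ`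
(`coef_div` with `mid_ratio`).  `A '' circle = W '' circle`.
Antisymmetry: the reflection `A*` of `A` (`star_nice`) is `W* ∘ s⁻¹` (`W*` the reflection of `W`,
coefficient `starC μ`; `s* = s`), so by `nice_div` its coefficient is `divC (starC μ) ν s ∘ s.symm`, which is `-κ`
by `mid_eq` (`(b-m)/(1-m̄b) = -(a-m)/(1-m̄a)`); by `nice_coef_unique` `starC κ = -κ`.
-/

open Complex MeasureTheory Filter Topology Set
open scoped ContDiff ENNReal ComplexConjugate

noncomputable section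

namespace Pool.Agent.QCD

private theorem as_starC_zero (μ : ℂ → ℂ) : starC μ 0 = 0 := by
  simp [starC]

private theorem as_starC_starC {μ : ℂ → ℂ} (h0 : μ 0 = 0) (z : ℂ) : starC (starC μ) z = μ z := by
  rcases eq_or_ne z 0 with rfl | hz0
  · rw [h0, as_starC_zero]
  · have hz0' : conj z ≠ 0 := by
      rw [Ne, map_eq_zero]
      exact hz0
    simp only [starC, map_inv₀, Complex.conj_conj, inv_inv, map_div₀, map_mul, map_pow]
    field_simp

/-- the coefficient of the symmetric map -/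
private def asNu (μ : ℂ → ℂ) (z : ℂ) : ℂ := mid (μ z) (starC μ z)

private theorem as_coef {k : ℝ} (hk0 : 0 ≤ k) (hk : k < 1) {μ : ℂ → ℂ} (hμ : Coef k μ) :
    Coef k (asNu μ) := by
  have hs := starC_coef hμ
  have hz : ∀ z, μ z = 0 → starC μ z = 0 → asNu μ z = 0 := by
    intro z h1 h2
    unfold asNu
    rw [h1, h2, mid_zero]
  refine ⟨⟨mid_smooth hk0 hk hμ.test.1 hs.test.1 hμ.le hs.le, ?_⟩, ?_, ?_⟩
  · refine HasCompactSupport.intro (hμ.test.2.union hs.test.2) ?_
    intro y hy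
    refine hz _ ?_ ?_
    · by_contra h
      exact hy (Or.inl (subset_tsupport _ h))
    · by_contra h
      exact hy (Or.inr (subset_tsupport _ h))
  · obtain ⟨e1, he1, h1⟩ := hμ.van
    obtain ⟨e2, he2, h2⟩ := hs.van
    refine ⟨min e1 e2, lt_min he1 he2, fun z hzz => ?_⟩
    rw [lt_min_iff] at hzz
    exact hz _ (h1 _ hzz.1) (h2 _ hzz.2)
  · intro z
    exact mid_le hk0 hk (hμ.le z) (hs.le z)

private theorem as_sym {k : ℝ} {μ : ℂ → ℂ} (hμ : Coef k μ) : starC (asNu μ) = asNu μ := by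
  have hμ0 : μ 0 = 0 := by
    obtain ⟨e1, he1, h1⟩ := hμ.van
    exact h1 0 (by simpa using he1)
  funext z
  rcases eq_or_ne z 0 with rfl | hz0
  · rw [as_starC_zero, asNu, hμ0, as_starC_zero, mid_zero]
  · have hz0' : conj z ≠ 0 := by
      rw [Ne, map_eq_zero]
      exact hz0
    have hu : ‖z ^ 2 / (conj z) ^ 2‖ = 1 := by
      rw [norm_div, norm_pow, norm_pow, RCLike.norm_conj]
      exact div_self (pow_ne_zero 2 (norm_ne_zero_iff.mpr hz0))
    have h1 : starC (asNu μ) z = z ^ 2 / (conj z) ^ 2 * conj (asNu μ (conj z)⁻¹) := by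
      unfold starC
      ring
    have h2 : z ^ 2 / (conj z) ^ 2 * conj (μ (conj z)⁻¹) = starC μ z := by
      unfold starC
      ring
    have h3 : z ^ 2 / (conj z) ^ 2 * conj (starC μ (conj z)⁻¹) = μ z := by
      rw [← as_starC_starC hμ0 z]
      conv_rhs => rw [starC]
      ring
    rw [h1, asNu, ← mid_conj, ← mid_rot hu, h2, h3, mid_comm]
    rfl

/-- a normalised solution for a given coefficient -/
private theorem as_sol {k : ℝ} (hk0 : 0 ≤ k) (hk : k < 1) {ν : ℂ → ℂ} (hν : Coef k ν) :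
    ∃ s : ℂ ≃ₜ ℂ, Nice ν s := by
  set l : ℝ := (k + 1) / 2 with hl
  have hl0 : 0 < l := by rw [hl]; linarith
  have hl1 : l < 1 := by rw [hl]; linarith
  have hkl : k ≤ l := by rw [hl]; linarith
  have hlc : (l : ℂ) ≠ 0 := by exact_mod_cast hl0.ne'
  have h1 : IsTest (fun z => ν z * (fun _ : ℂ => (l : ℂ)⁻¹) z) := hν.test.mul contDiff_const
  obtain ⟨w, hw⟩ := exists_family (α := fun z => ν z * (l : ℂ)⁻¹) h1 (fun z => by
    rw [norm_mul, norm_inv, Complex.norm_real, Real.norm_of_nonneg hl0.le, ← div_eq_mul_inv,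
      div_le_one hl0]
    exact (hν.le z).trans hkl)
  refine ⟨w l, ?_⟩
  have h2 := hw.nice (l : ℂ) (by rw [Complex.norm_real, Real.norm_of_nonneg hl0.le]; exact hl1)
  have h3 : (fun z => (l : ℂ) * (ν z * (l : ℂ)⁻¹)) = ν := by
    funext z
    field_simp
  rw [h3] at h2
  exact h2

theorem antisym {k : ℝ} (hk0 : 0 ≤ k) (hk : k < 1) {μ : ℂ → ℂ} {W : ℂ ≃ₜ ℂ} (hμ : Coef k μ)
    (hW : Nice μ W) : ∃ (κ : ℂ → ℂ) (A : ℂ ≃ₜ ℂ), Coef k κ ∧ (∀ z, starC κ z = -κ z) ∧
      Nice κ A ∧ A '' Metric.sphere (0 : ℂ) 1 = W '' Metric.sphere (0 : ℂ) 1 := by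
  have hν := as_coef hk0 hk hμ
  obtain ⟨s, hs⟩ := as_sol hk0 hk hν
  obtain ⟨v, hv, hvn⟩ := star_nice hk hν hs
  rw [as_sym hμ] at hvn
  have hvs : v = s := nice_unique hk hν.le hvn hs
  -- `s` commutes with the reflection
  have hr : ∀ z, s (conj z)⁻¹ = (conj (s z))⁻¹ := by
    intro z
    have h1 := hv z
    rw [hvs] at h1
    rw [h1]
    simp only [map_inv₀, Complex.conj_conj, inv_inv]
  have hr' : ∀ z, s.symm (conj z)⁻¹ = (conj (s.symm z))⁻¹ := by
    intro z
    rw [Homeomorph.symm_apply_eq, hr, Homeomorph.apply_symm_apply]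
  have hself : ∀ z : ℂ, ‖z‖ = 1 → (conj z)⁻¹ = z := by
    intro z hz
    have h1 : z * conj z = 1 := by
      rw [Complex.mul_conj, Complex.normSq_eq_norm_sq, hz]
      norm_num
    exact inv_eq_of_mul_eq_one_left h1
  have hself' : ∀ z : ℂ, z ≠ 0 → (conj z)⁻¹ = z → ‖z‖ = 1 := by
    intro z hz0 hz
    have h1 : ‖(conj z)⁻¹‖ = ‖z‖ := by rw [hz]
    rw [norm_inv, RCLike.norm_conj] at h1
    have h2 : 0 < ‖z‖ := norm_pos_iff.2 hz0
    have h3 : ‖z‖ * ‖z‖ = 1 := by
      nth_rewrite 1 [← h1]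
      exact inv_mul_cancel₀ h2.ne'
    nlinarith
  have hsne : ∀ z : ℂ, z ≠ 0 → s z ≠ 0 := fun z hz h => hz (s.injective (h.trans hs.zero.symm))
  have hsne' : ∀ z : ℂ, z ≠ 0 → s.symm z ≠ 0 := fun z hz h =>
    hz (s.symm.injective (h.trans hs.symm_zero.symm))
  have hne1 : ∀ z : ℂ, ‖z‖ = 1 → z ≠ 0 := by
    intro z hz h
    rw [h, norm_zero] at hz
    exact zero_ne_one hz
  have hc1 : ∀ z, ‖z‖ = 1 → ‖s z‖ = 1 := by
    intro z hz
    refine hself' _ (hsne z (hne1 z hz)) ?_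
    rw [← hr, hself z hz]
  have hc2 : ∀ z, ‖z‖ = 1 → ‖s.symm z‖ = 1 := by
    intro z hz
    refine hself' _ (hsne' z (hne1 z hz)) ?_
    rw [← hr', hself z hz]
  have hA := nice_div hk hμ.le hν.le hW hs
  have hK : Coef k (fun z => divC μ (asNu μ) s (s.symm z)) :=
    coef_div hk hμ hν hW hs (fun z => mid_ratio hk0 hk (hμ.le z) ((starC_coef hμ).le z))
  refine ⟨_, _, hK, ?_, hA, ?_⟩
  · -- antisymmetry
    obtain ⟨V, hV, hVn⟩ := star_nice hk hμ hW
    obtain ⟨B, hB, hBn⟩ := star_nice hk hK hA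
    have hBV : B = s.symm.trans V := by
      ext z
      rw [hB]
      change (conj (W (s.symm (conj z)⁻¹)))⁻¹ = V (s.symm z)
      rw [hV, hr']
    have hD := nice_div hk (starC_coef hμ).le hν.le hVn hs
    rw [hBV] at hBn
    have h1 := nice_coef_unique hBn hD
    intro z
    rw [congrFun h1 z]
    have h2 : ∀ y, divC (starC μ) (asNu μ) s y = -divC μ (asNu μ) s y := by
      intro y
      have n1 := one_sub_ne hk (hμ.le y) (hν.le y)
      have n2 := one_sub_ne hk ((starC_coef hμ).le y) (hν.le y)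
      have e1 := mid_eq hk0 hk (hμ.le y) ((starC_coef hμ).le y)
      have e2 : (starC μ y - asNu μ y) / (1 - conj (asNu μ y) * starC μ y) =
          -((μ y - asNu μ y) / (1 - conj (asNu μ y) * μ y)) := by
        rw [← neg_div, div_eq_div_iff n2 n1]
        change (starC μ y - mid (μ y) (starC μ y)) * (1 - conj (mid (μ y) (starC μ y)) * μ y) =
          -(μ y - mid (μ y) (starC μ y)) * (1 - conj (mid (μ y) (starC μ y)) * starC μ y)
        linear_combination e1
      unfold divC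
      rw [e2, neg_mul]
    exact h2 (s.symm z)
  · ext y
    constructor
    · rintro ⟨z, hz, rfl⟩
      refine ⟨s.symm z, ?_, rfl⟩
      rw [mem_sphere_zero_iff_norm] at hz ⊢
      exact hc2 z hz
    · rintro ⟨z, hz, rfl⟩
      refine ⟨s z, ?_, ?_⟩
      · rw [mem_sphere_zero_iff_norm] at hz ⊢
        exact hc1 z hz
      · change W (s.symm (s z)) = W z
        rw [Homeomorph.symm_apply_apply]

end Pool.Agent.QCD
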