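import Pool.Agent.Lib.MP_f30fea_an.Base
import Pool.Agent.Lib.MP_f30fea_an.Wirt

/-!
# Area bound for the derivative of a normalised solution

`‖dz w‖² (1 - k²) ≤ ‖dz w‖² - ‖dzb w‖² = det (fderiv ℝ w z)` and the integral of `|det fderiv|` over
the disc is the area of the image (`lintegral_abs_det_fderiv_eq_addHaar_image`), contained in a
disc of radius `R`.
-/

open Complex MeasureTheory Filter Topology Set
open scoped ContDiff ENNReal ComplexConjugate

noncomputable section

namespace Pool.Agent.QCD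

theorem l2_bound {μ : ℂ → ℂ} {w : ℂ ≃ₜ ℂ} {k : ℝ} (hk0 : 0 ≤ k) (hk : k < 1)
    (hμ : ∀ z, ‖μ z‖ ≤ k) (hw : Nice μ w) {r R : ℝ} (h : ∀ z, ‖z‖ ≤ r → ‖w z‖ ≤ R) :
    ∫ z in Metric.closedBall (0 : ℂ) r, ‖dz w z‖ ^ 2 ≤ Real.pi * R ^ 2 / (1 - k ^ 2) := by
  have hk2 : 0 < 1 - k ^ 2 := by nlinarith
  rcases lt_or_ge r 0 with hr | hr
  · rw [Metric.closedBall_eq_empty.2 hr]
    simp only [Measure.restrict_empty, integral_zero_measure]
    positivity
  have hR : 0 ≤ R := (norm_nonneg _).trans (h 0 (by simpa using hr))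
  have hdiff : Differentiable ℝ w := hw.smooth.differentiable (by simp)
  have h1 : ∫⁻ z in Metric.closedBall (0:ℂ) r, ENNReal.ofReal |(fderiv ℝ w z).det| =
      volume (w '' Metric.closedBall 0 r) :=
    lintegral_abs_det_fderiv_eq_addHaar_image volume measurableSet_closedBall
      (fun z _ => (hdiff z).hasFDerivAt.hasFDerivWithinAt) w.injective.injOn
  have h2 : volume (w '' Metric.closedBall 0 r) ≤ volume (Metric.closedBall (0:ℂ) R) :=
    measure_mono (by
      rintro _ ⟨z, hz, rfl⟩
      simpa using h z (by simpa using hz))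
  have h3 : (volume (Metric.closedBall (0:ℂ) R)).toReal = Real.pi * R ^ 2 := by
    rw [Complex.volume_closedBall]
    simp [ENNReal.toReal_mul, hR, ENNReal.toReal_ofReal]
    ring
  have hcont : Continuous (fun z => (fderiv ℝ w z).det) := by
    have : Continuous (fderiv ℝ w) := hw.smooth.continuous_fderiv (by simp)
    exact ContinuousLinearMap.continuous_det.comp this
  have hdzc : Continuous (dz w) := (dz_smooth hw.smooth).continuous
  have hcomp : IsCompact (Metric.closedBall (0:ℂ) r) := isCompact_closedBall _ _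
  have hI1 : IntegrableOn (fun z => ‖dz w z‖ ^ 2) (Metric.closedBall (0:ℂ) r) :=
    (hdzc.norm.pow 2).continuousOn.integrableOn_compact hcomp
  have hI2 : IntegrableOn (fun z => |(fderiv ℝ w z).det|) (Metric.closedBall (0:ℂ) r) :=
    hcont.abs.continuousOn.integrableOn_compact hcomp
  have h4 : ∫ z in Metric.closedBall (0:ℂ) r, |(fderiv ℝ w z).det| ≤ Real.pi * R ^ 2 := by
    rw [integral_eq_lintegral_of_nonneg_ae (Eventually.of_forall fun z => abs_nonneg _)
      hI2.aestronglyMeasurable, h1, ← h3]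
    exact ENNReal.toReal_mono (by rw [Complex.volume_closedBall]; finiteness) h2
  have h5 : ∫ z in Metric.closedBall (0:ℂ) r, (1 - k ^ 2) * ‖dz w z‖ ^ 2 ≤
      ∫ z in Metric.closedBall (0:ℂ) r, |(fderiv ℝ w z).det| := by
    refine setIntegral_mono_on (hI1.const_mul _) hI2 measurableSet_closedBall ?_
    intro z _
    refine le_trans ?_ (le_abs_self _)
    rw [det_fderiv, hw.bel z, norm_mul, mul_pow]
    have : ‖μ z‖ ^ 2 ≤ k ^ 2 := pow_le_pow_left₀ (norm_nonneg _) (hμ z) 2
    nlinarith [sq_nonneg ‖dz w z‖]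
  rw [integral_const_mul] at h5
  rw [le_div_iff₀ hk2]
  linarith

end Pool.Agent.QCD
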