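import Pool.Agent.Lib.MP_f30fea_an.Base
import Pool.Agent.Lib.MP_f30fea_an.Wirt

/-!
# Weyl's lemma

Let `φ_ε` be a standard mollifier (real, smooth, support in the disc of radius `ε`, integral 1;
`ContDiffBump.normed`).  `F_ε z = ∫ F ζ φ_ε (z - ζ)` is smooth, `dzb F_ε z = ∫ F ζ (dzb φ_ε)(z - ζ) =
-∫ F ζ dzb_ζ (φ_ε (z - ζ)) = 0`.  So `F_ε` is entire; `F_ε → F` locally uniformly, so `F` is entire
(`TendstoLocallyUniformlyOn.differentiableOn`).
-/

open Complex MeasureTheory Filter Topology Set
open scoped ContDiff ENNReal ComplexConjugate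

noncomputable section

namespace Pool.Agent.QCD

open ContinuousLinearMap in
theorem weyl {F : ℂ → ℂ} (hF : Continuous F) (h : ∀ φ, IsTest φ → ∫ z, F z * dzb φ z = 0) :
    Differentiable ℂ F := by
  -- mollified functions are entire
  have key : ∀ f : ℂ → ℝ, ContDiff ℝ ∞ f → HasCompactSupport f →
      Differentiable ℂ (convolution f F (lsmul ℝ ℝ) volume) := by
    intro f hf hc x₀
    have hloc : LocallyIntegrable F volume := hF.locallyIntegrable
    have hf1 : ContDiff ℝ 1 f := hf.of_le (by exact_mod_cast le_top)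
    rw [← convolution_flip]
    have hder := hc.hasFDerivAt_convolution_right (lsmul ℝ ℝ : ℝ →L[ℝ] ℂ →L[ℝ] ℂ).flip hloc hf1 x₀
    refine holo_of_dzb hder.differentiableAt ?_
    have hcont : Continuous (fderiv ℝ f) := hf1.continuous_fderiv one_ne_zero
    have hval : ∀ v : ℂ, fderiv ℝ (convolution F f (lsmul ℝ ℝ : ℝ →L[ℝ] ℂ →L[ℝ] ℂ).flip volume) x₀ v
        = ∫ t, F t * ((fderiv ℝ f (x₀ - t) v : ℝ) : ℂ) := by
      intro v
      rw [hder.fderiv, convolution_precompR_apply _ hloc (hc.fderiv ℝ) hcont, convolution_def]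
      refine integral_congr_ae (Eventually.of_forall fun t => ?_)
      simp [mul_comm]
    have hint : ∀ v : ℂ, Integrable (fun t => F t * ((fderiv ℝ f (x₀ - t) v : ℝ) : ℂ)) := by
      intro v
      refine Continuous.integrable_of_hasCompactSupport ?_ ?_
      · exact hF.mul (continuous_ofReal.comp
          ((hcont.comp (continuous_const.sub continuous_id)).clm_apply continuous_const))
      · have h0 : HasCompactSupport (fun t => fderiv ℝ f (x₀ - t)) :=
          (hc.fderiv ℝ).comp_homeomorph (Homeomorph.subLeft x₀)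
        refine h0.mono ?_
        intro t ht
        rw [Function.mem_support] at ht ⊢
        intro h1
        apply ht
        simp [h1]
    have htest : IsTest (fun t => ((f (x₀ - t) : ℝ) : ℂ)) := by
      refine ⟨ofRealCLM.contDiff.comp (hf.comp (contDiff_const.sub contDiff_id)), ?_⟩
      have h0 : HasCompactSupport (fun t => f (x₀ - t)) :=
        hc.comp_homeomorph (Homeomorph.subLeft x₀)
      exact h0.comp_left (g := fun x : ℝ => (x : ℂ)) (by simp)
    have hψ : ∀ t v : ℂ, fderiv ℝ (fun t => ((f (x₀ - t) : ℝ) : ℂ)) t v =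
        -((fderiv ℝ f (x₀ - t) v : ℝ) : ℂ) := by
      intro t v
      have h1 : HasFDerivAt (fun t => f (x₀ - t))
          ((fderiv ℝ f (x₀ - t)).comp (-ContinuousLinearMap.id ℝ ℂ)) t := by
        have h2 : HasFDerivAt (fun t : ℂ => x₀ - t) (-ContinuousLinearMap.id ℝ ℂ) t := by
          simpa using (hasFDerivAt_id t).const_sub x₀
        exact ((hf1.differentiable one_ne_zero) (x₀ - t)).hasFDerivAt.comp t h2
      have h3 := (ofRealCLM.hasFDerivAt (x := f (x₀ - t))).comp t h1
      have h4 : (fun t => ((f (x₀ - t) : ℝ) : ℂ)) = ofRealCLM ∘ (fun t => f (x₀ - t)) := by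
        funext s; simp
      rw [h4, h3.fderiv]
      simp
    have h0 := h _ htest
    have h5 : ∀ t, F t * dzb (fun t => ((f (x₀ - t) : ℝ) : ℂ)) t =
        -((F t * ((fderiv ℝ f (x₀ - t) 1 : ℝ) : ℂ) +
          I * (F t * ((fderiv ℝ f (x₀ - t) I : ℝ) : ℂ))) / 2) := by
      intro t
      unfold dzb
      rw [hψ, hψ]
      ring
    rw [integral_congr_ae (Eventually.of_forall h5), integral_neg, integral_div,
      integral_add (hint 1) ((hint I).const_mul I), integral_const_mul, neg_eq_zero] at h0
    unfold dzb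
    rw [hval, hval]
    exact h0
  -- the mollifiers
  let φ : ℕ → ContDiffBump (0 : ℂ) := fun n =>
    ⟨1 / (2 * ((n : ℝ) + 1)), 1 / ((n : ℝ) + 1), by positivity, by
      apply one_div_lt_one_div_of_lt <;> nlinarith [(Nat.cast_nonneg n : (0:ℝ) ≤ n)]⟩
  have hlim : TendstoLocallyUniformlyOn (fun n => convolution ((φ n).normed volume) F (lsmul ℝ ℝ) volume)
      F atTop univ := by
    rw [tendstoLocallyUniformlyOn_univ, tendstoLocallyUniformly_iff_forall_isCompact]
    intro K hK
    rw [Metric.tendstoUniformlyOn_iff]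
    intro ε hε
    -- uniform continuity of F on a neighbourhood
    obtain ⟨r, hr⟩ := hK.isBounded.subset_closedBall 0
    have huc : UniformContinuousOn F (Metric.closedBall 0 (r + 1)) :=
      (isCompact_closedBall _ _).uniformContinuousOn_of_continuous hF.continuousOn
    obtain ⟨δ, hδ, huc⟩ := Metric.uniformContinuousOn_iff.1 huc (ε / 2) (by positivity)
    have h1 : ∀ᶠ n : ℕ in atTop, 1 / ((n : ℝ) + 1) < min δ 1 := by
      have := tendsto_one_div_add_atTop_nhds_zero_nat (𝕜 := ℝ)
      exact this.eventually_lt_const (by positivity)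
    filter_upwards [h1] with n hn x hx
    have hxr := hr hx
    rw [dist_comm]
    refine lt_of_le_of_lt (ContDiffBump.dist_normed_convolution_le (φ := φ n) (x₀ := x) (ε := ε / 2)
      hF.aestronglyMeasurable ?_) (by linarith)
    intro y hy
    have hy' : dist y x < 1 / ((n : ℝ) + 1) := hy
    refine (huc y ?_ x ?_ ?_).le
    · rw [Metric.mem_closedBall] at hxr ⊢
      have := dist_triangle y x 0
      have := hn.trans_le (min_le_right _ _)
      linarith
    · rw [Metric.mem_closedBall] at hxr ⊢
      linarith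
    · exact hy'.trans (hn.trans_le (min_le_left _ _))
  have hres := hlim.differentiableOn (Eventually.of_forall fun n =>
    (key _ ((φ n).contDiff_normed) ((φ n).hasCompactSupport_normed)).differentiableOn) isOpen_univ
  exact differentiableOn_univ.1 hres

end Pool.Agent.QCD
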