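import Pool.Agent.Lib.MP_f30fea_an.Base
import Pool.Agent.Lib.MP_f30fea_an.Ahlfors

/-!
# A local Landau theorem

By `ahlfors` and `lrho_lower`: `‖f' z‖ ≤ 40 C'` if `‖z‖ ≤ 1/2` and `‖f z‖ ≤ 4`.  Let
`C = max 2 (40 C')`; on the segment `[0, l]`, `‖l‖ ≤ 1/C`, the path `t ↦ f (t l)` starts in
`‖·‖ ≤ 2` and as long as it stays in `‖·‖ ≤ 4` its speed is `< C ‖l‖ ≤ 1`, so it never leaves
`‖·‖ ≤ 3`.
-/

open Complex MeasureTheory Filter Topology Set
open scoped ContDiff ENNReal ComplexConjugate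

noncomputable section

namespace Pool.Agent.QCD

theorem landau : ∃ C : ℝ, 1 ≤ C ∧ ∀ f : ℂ → ℂ, DifferentiableOn ℂ f (Metric.ball 0 1) →
    (∀ z ∈ Metric.ball (0 : ℂ) 1, f z ≠ 0 ∧ f z ≠ 1) → ‖f 0‖ ≤ 2 →
    ∀ l : ℂ, ‖l‖ < 1 → ‖l‖ ≤ 1 / C → ‖f l - f 0‖ ≤ C * ‖l‖ := by
  obtain ⟨C', hC', hahl⟩ := ahlfors
  refine ⟨max 2 (40 * C'), le_trans (by norm_num) (le_max_left _ _), ?_⟩
  intro f hf hne h0 l hl1 hl
  set C : ℝ := max 2 (40 * C') with hC
  have hC2 : 2 ≤ C := le_max_left _ _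
  have hC40 : 40 * C' ≤ C := le_max_right _ _
  have hCpos : 0 < C := by linarith
  have hl2 : ‖l‖ ≤ 1 / 2 := hl.trans (by
    apply one_div_le_one_div_of_le (by norm_num) hC2)
  have hCl : C * ‖l‖ ≤ 1 := by
    rw [le_div_iff₀ hCpos] at hl
    linarith
  by_cases hl0 : l = 0
  · subst hl0
    simp
  have hlpos : 0 < ‖l‖ := norm_pos_iff.2 hl0
  -- derivative bound
  have hder : ∀ z : ℂ, ‖z‖ ≤ 1 / 2 → ‖f z‖ ≤ 4 → ‖deriv f z‖ < C := by
    intro z hz hfz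
    have hzb : z ∈ Metric.ball (0 : ℂ) 1 := by
      rw [mem_ball_zero_iff]; linarith
    have h1 := hahl f hf hne z hzb
    have h2 := lrho_lower (hne z hzb).1 (hne z hzb).2 hfz
    have h3 : (0 : ℝ) < 1 - ‖z‖ ^ 2 := by nlinarith [norm_nonneg z]
    have h4 : C' / (1 - ‖z‖ ^ 2) ≤ C' / (3 / 4) := by
      apply div_le_div_of_nonneg_left hC'.le (by norm_num)
      nlinarith [norm_nonneg z]
    have h5 : 1 / 20 * ‖deriv f z‖ ≤ C' / (3 / 4) :=
      (mul_le_mul_of_nonneg_right h2 (norm_nonneg _)).trans (h1.trans h4)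
    have h6 : ‖deriv f z‖ ≤ 80 / 3 * C' := by
      have : C' / (3 / 4) = 4 / 3 * C' := by ring
      rw [this] at h5
      linarith
    linarith
  -- the path
  have htl : ∀ t : ℝ, 0 ≤ t → t ≤ 1 → ‖(t : ℂ) * l‖ ≤ 1 / 2 := by
    intro t ht0 ht1
    rw [norm_mul, Complex.norm_real, Real.norm_eq_abs, abs_of_nonneg ht0]
    nlinarith
  have hpath : ∀ t : ℝ, 0 ≤ t → t ≤ 1 →
      HasDerivAt (fun t : ℝ => f ((t : ℂ) * l) - f 0) (l • deriv f ((t : ℂ) * l)) t := by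
    intro t ht0 ht1
    have hb : (t : ℂ) * l ∈ Metric.ball (0 : ℂ) 1 := by
      rw [mem_ball_zero_iff]
      linarith [htl t ht0 ht1]
    have h1 : HasDerivAt f (deriv f ((t : ℂ) * l)) ((t : ℂ) * l) :=
      ((hf _ hb).differentiableAt (Metric.isOpen_ball.mem_nhds hb)).hasDerivAt
    have h2 : HasDerivAt (fun t : ℝ => (t : ℂ) * l) l t := by
      simpa using (hasDerivAt_id t).ofReal_comp.mul_const l
    exact (HasDerivAt.scomp t h1 h2).sub_const _
  have hmain := image_norm_le_of_norm_deriv_right_lt_deriv_boundary'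
    (f := fun t : ℝ => f ((t : ℂ) * l) - f 0) (f' := fun t : ℝ => l • deriv f ((t : ℂ) * l))
    (a := 0) (b := 1) (B := fun t : ℝ => C * ‖l‖ * t) (B' := fun _ => C * ‖l‖)
    (fun t ht => (hpath t ht.1 ht.2).continuousAt.continuousWithinAt)
    (fun t ht => (hpath t ht.1 ht.2.le).hasDerivWithinAt)
    (by simp) (by fun_prop)
    (fun t _ => by simpa using ((hasDerivAt_id t).const_mul (C * ‖l‖)).hasDerivWithinAt)
    (by
      intro t ht hB
      simp only [norm_smul]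
      rw [mul_comm C ‖l‖]
      apply mul_lt_mul_of_pos_left _ hlpos
      apply hder _ (htl t ht.1 ht.2.le)
      have h1 : ‖f ((t : ℂ) * l) - f 0‖ ≤ 1 := by
        rw [hB]
        have := ht.1
        have := ht.2
        nlinarith [mul_nonneg hCpos.le hlpos.le]
      have h2 : ‖f ((t : ℂ) * l)‖ ≤ ‖f ((t : ℂ) * l) - f 0‖ + ‖f 0‖ := by
        simpa using norm_add_le (f ((t : ℂ) * l) - f 0) (f 0)
      linarith)
  have h := hmain (x := 1) (by simp)
  simpa using h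

end Pool.Agent.QCD
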