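import Pool.Agent.Lib.MP_f30fea_an.Base
import Pool.Agent.Lib.MP_f30fea_an.Landau
import Pool.Agent.Lib.MP_f30fea_an.Uniq

/-!
# Weak quasisymmetry
-/

open Complex MeasureTheory Filter Topology Set
open scoped ContDiff ENNReal ComplexConjugate

noncomputable section

namespace Pool.Agent.QCD

/-- the holomorphic quotient -/
private theorem wqs_quot {C : ℝ} (hC : ∀ f : ℂ → ℂ, DifferentiableOn ℂ f (Metric.ball 0 1) →
    (∀ z ∈ Metric.ball (0 : ℂ) 1, f z ≠ 0 ∧ f z ≠ 1) → ‖f 0‖ ≤ 2 →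
    ∀ l : ℂ, ‖l‖ < 1 → ‖l‖ ≤ 1 / C → ‖f l - f 0‖ ≤ C * ‖l‖)
    (u v w : ℂ → ℂ) (hu : DifferentiableOn ℂ u (Metric.ball 0 1))
    (hv : DifferentiableOn ℂ v (Metric.ball 0 1)) (hw : DifferentiableOn ℂ w (Metric.ball 0 1))
    (huv : ∀ l : ℂ, ‖l‖ < 1 → v l ≠ u l) (huw : ∀ l : ℂ, ‖l‖ < 1 → w l ≠ u l)
    (hvw : ∀ l : ℂ, ‖l‖ < 1 → v l ≠ w l) (h0 : ‖v 0 - u 0‖ ≤ 2 * ‖w 0 - u 0‖) (l : ℂ)
    (hl : ‖l‖ < 1) (hlC : ‖l‖ ≤ 1 / C) :
    ‖(v l - u l) / (w l - u l) - (v 0 - u 0) / (w 0 - u 0)‖ ≤ C * ‖l‖ := by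
  refine hC (fun l => (v l - u l) / (w l - u l)) ?_ ?_ ?_ l hl hlC
  · refine (hv.sub hu).div (hw.sub hu) fun z hz => ?_
    exact sub_ne_zero.2 (huw z (by simpa using hz))
  · intro z hz
    have hz1 : ‖z‖ < 1 := by simpa using hz
    have h1 := sub_ne_zero.2 (huv z hz1)
    have h2 := sub_ne_zero.2 (huw z hz1)
    refine ⟨div_ne_zero h1 h2, fun h => hvw z hz1 ?_⟩
    rw [div_eq_one_iff_eq h2] at h
    exact sub_left_injective h
  · have h2 := sub_ne_zero.2 (huw 0 (by simp))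
    have h3 : 0 < ‖w 0 - u 0‖ := norm_pos_iff.2 h2
    show ‖(v 0 - u 0) / (w 0 - u 0)‖ ≤ 2
    rw [norm_div, div_le_iff₀ h3]
    exact h0

theorem wqs_family : ∃ r : ℝ, 0 < r ∧ r < 1 ∧ ∀ α w, IsFamily α w → ∀ l : ℂ, ‖l‖ ≤ r →
    WQS (w l) := by
  obtain ⟨C, hC1, hC⟩ := landau
  have hC0 : 0 < C := by linarith
  refine ⟨1 / (4 * C), by positivity, ?_, fun α w hw l hl => ?_⟩
  · rw [div_lt_one (by positivity)]
    linarith
  have hl4 : C * ‖l‖ ≤ 1 / 4 := by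
    rw [le_div_iff₀ (by positivity)] at hl
    linarith
  have hl1 : ‖l‖ < 1 := by
    refine lt_of_le_of_lt hl ?_
    rw [div_lt_one (by positivity)]
    linarith
  have hlC : ‖l‖ ≤ 1 / C := by
    rw [le_div_iff₀ hC0]
    linarith
  have key : ∀ a b c : ℂ, b ≠ a → c ≠ a → b ≠ c → ‖b - a‖ ≤ 2 * ‖c - a‖ →
      ‖w l b - w l a‖ ≤ (‖b - a‖ / ‖c - a‖ + 1 / 4) * ‖w l c - w l a‖ := by
    intro a b c hba hca hbc h
    have h1 := wqs_quot hC (fun l => w l a) (fun l => w l b) (fun l => w l c) (hw.hol a) (hw.hol b)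
      (hw.hol c) (fun l _ h => hba ((w l).injective h)) (fun l _ h => hca ((w l).injective h))
      (fun l _ h => hbc ((w l).injective h)) (by simpa only [hw.zero] using h) l hl1 hlC
    simp only [hw.zero] at h1
    have h2 : w l c - w l a ≠ 0 := sub_ne_zero.2 fun h => hca ((w l).injective h)
    have h3 : 0 < ‖w l c - w l a‖ := norm_pos_iff.2 h2
    have h4 : ‖(w l b - w l a) / (w l c - w l a)‖ ≤ ‖b - a‖ / ‖c - a‖ + 1 / 4 := by
      calc ‖(w l b - w l a) / (w l c - w l a)‖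
          = ‖(b - a) / (c - a) + ((w l b - w l a) / (w l c - w l a) - (b - a) / (c - a))‖ := by
            congr 1; ring
        _ ≤ ‖(b - a) / (c - a)‖ + ‖(w l b - w l a) / (w l c - w l a) - (b - a) / (c - a)‖ :=
            norm_add_le _ _
        _ ≤ ‖b - a‖ / ‖c - a‖ + 1 / 4 := by
            rw [norm_div]
            linarith
    rwa [norm_div, div_le_iff₀ h3] at h4
  constructor
  · intro a b c h
    by_cases hca : c = a
    · subst hca
      rw [sub_self, norm_zero, mul_zero] at h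
      have : b = c := by
        have := norm_le_zero_iff.1 h
        exact sub_eq_zero.1 this
      subst this
      simp
    by_cases hba : b = a
    · subst hba
      rw [sub_self, norm_zero]
      positivity
    by_cases hbc : b = c
    · subst hbc
      have := norm_nonneg (w l b - w l a)
      linarith
    refine (key a b c hba hca hbc h).trans ?_
    have h3 : 0 < ‖c - a‖ := norm_pos_iff.2 (sub_ne_zero.2 hca)
    have h4 : ‖b - a‖ / ‖c - a‖ ≤ 2 := by rwa [div_le_iff₀ h3]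
    gcongr
    linarith
  · intro a b c h
    by_cases hca : c = a
    · subst hca
      rw [sub_self, norm_zero] at h
      have : b = c := by
        have h5 : ‖b - c‖ ≤ 0 := by linarith
        have := norm_le_zero_iff.1 h5
        exact sub_eq_zero.1 this
      subst this
      simp
    by_cases hba : b = a
    · subst hba
      rw [sub_self, norm_zero, mul_zero]
      positivity
    have h3 : 0 < ‖c - a‖ := norm_pos_iff.2 (sub_ne_zero.2 hca)
    have hb3 : 0 < ‖b - a‖ := norm_pos_iff.2 (sub_ne_zero.2 hba)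
    by_cases hbc : b = c
    · subst hbc
      linarith
    have h1 := key a b c hba hca hbc (by linarith)
    have h4 : ‖b - a‖ / ‖c - a‖ ≤ 1 / 4 := by
      rw [div_le_iff₀ h3]
      linarith
    have h5 : (‖b - a‖ / ‖c - a‖ + 1 / 4) * ‖w l c - w l a‖ ≤ 1 / 2 * ‖w l c - w l a‖ := by
      gcongr
      linarith
    linarith

theorem nice_family {k : ℝ} (hk : 0 < k) (hk1 : k < 1) {μ : ℂ → ℂ} {w : ℂ ≃ₜ ℂ} (hμ : IsTest μ)
    (h : ∀ z, ‖μ z‖ ≤ k) (hw : Nice μ w) :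
    ∃ W : ℂ → (ℂ ≃ₜ ℂ), IsFamily (fun z => μ z / k) W ∧ W k = w := by
  have hkc : (k : ℂ) ≠ 0 := by exact_mod_cast hk.ne'
  have h1 : IsTest (fun z => μ z / k) := by
    refine ⟨hμ.1.div_const _, ?_⟩
    have : (fun z => μ z / (k : ℂ)) = fun z => (k : ℂ)⁻¹ * μ z := by
      funext z
      rw [div_eq_inv_mul]
    rw [this]
    exact hμ.2.mul_left
  have h2 : ∀ z, ‖μ z / (k : ℂ)‖ ≤ 1 := by
    intro z
    rw [norm_div, Complex.norm_real, Real.norm_of_nonneg hk.le, div_le_one hk]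
    exact h z
  obtain ⟨W, hW⟩ := exists_family h1 h2
  refine ⟨W, hW, ?_⟩
  have h3 := hW.nice (k : ℂ) (by rwa [Complex.norm_real, Real.norm_of_nonneg hk.le])
  have h4 : (fun z => (k : ℂ) * (μ z / k)) = μ := by
    funext z
    field_simp
  rw [h4] at h3
  exact nice_unique hk1 h h3 hw

theorem wqs_nice : ∃ r : ℝ, 0 < r ∧ r < 1 ∧ ∀ k μ (w : ℂ ≃ₜ ℂ), 0 ≤ k → k ≤ r → IsTest μ →
    (∀ z, ‖μ z‖ ≤ k) → Nice μ w → WQS w := by
  obtain ⟨r, hr0, hr1, hr⟩ := wqs_family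
  refine ⟨r, hr0, hr1, fun k μ w hk0 hkr hμ h hw => ?_⟩
  -- it suffices to use the constant `r`
  obtain ⟨W, hW, hWr⟩ := nice_family hr0 hr1 hμ (fun z => (h z).trans hkr) hw
  have h1 := hr _ W hW (r : ℂ) (by rw [Complex.norm_real, Real.norm_of_nonneg hr0.le])
  rwa [hWr] at h1

theorem theta_ratio : ∃ C : ℝ, 1 ≤ C ∧ ∀ Θ, IsTheta Θ → ∀ a x b : ℝ, a ≠ b →
    |x - a| ≤ 2 * |b - a| → ∀ l : ℂ, ‖l‖ < 1 → ‖l‖ ≤ 1 / C →
    ‖(Θ l x - Θ l a) / (Θ l b - Θ l a) - (x - a) / (b - a)‖ ≤ C * ‖l‖ := by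
  obtain ⟨C, hC1, hC⟩ := landau
  refine ⟨C, hC1, fun Θ hΘ a x b hab h l hl hlC => ?_⟩
  have hba : ∀ l : ℂ, ‖l‖ < 1 → Θ l b ≠ Θ l a := fun l hl h => hab (hΘ.inj l hl h).symm
  by_cases hxa : x = a
  · subst hxa
    simp only [sub_self, zero_div, norm_zero]
    positivity
  by_cases hxb : x = b
  · subst hxb
    have h1 : Θ l x - Θ l a ≠ 0 := sub_ne_zero.2 (hba l hl)
    have h2 : (x : ℂ) - a ≠ 0 := by
      rw [sub_ne_zero]
      exact_mod_cast hxa
    rw [div_self h1, div_self h2, sub_self, norm_zero]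
    positivity
  have h1 := wqs_quot hC (fun l => Θ l a) (fun l => Θ l x) (fun l => Θ l b) (hΘ.hol a) (hΘ.hol x)
    (hΘ.hol b) (fun l hl h => hxa (hΘ.inj l hl h)) hba (fun l hl h => hxb (hΘ.inj l hl h)) (by
      simp only [hΘ.zero]
      rw [← Complex.ofReal_sub, ← Complex.ofReal_sub, Complex.norm_real, Complex.norm_real,
        Real.norm_eq_abs, Real.norm_eq_abs]
      exact h) l hl hlC
  simpa only [hΘ.zero] using h1

end Pool.Agent.QCD
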