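import Pool.Agent.Lib.MP_f30fea_an.Base

/-!
# Compactness of weakly quasisymmetric homeomorphisms

Only metric arguments.  Let `w` be `WQS`, `w 0 = 0`, `w 1 = 1`.
(a) `‖w b - w a‖ ≤ 3 ‖w c - w a‖` if `‖b - a‖ ≤ 2 ‖c - a‖`.  Growth: choose points with
`‖z_{j+1}‖ = 2 ‖z_j‖`, so `‖w z‖ ≤ 3^{j+1}` for `‖z‖ ≤ 2^{j+1}` (start: `‖z‖ ≤ 2 = 2‖1‖`).
(b) Hölder: for `‖b - a‖ ≤ 4^{-j} ‖c - a‖`: `‖w b - w a‖ ≤ 2^{-j} ‖w c - w a‖` (iterate `two` through
intermediate points on the ray).  With `‖c - a‖ = 1`: a modulus of continuity on bounded sets.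
(c) Lower bound: if `‖b - a‖ ≥ 2^{-j} ‖c - a‖` then `‖w b - w a‖ ≥ 3^{-j-1} ‖w c - w a‖`
(apply `one` repeatedly).  And `‖w c - w a‖` is bounded below for suitable `c`: e.g. if `‖a‖ ≤ r`
then among `0, 1` one point has image at distance `≥ 1/2` from `w a`; compare.  So the inverses
satisfy uniform estimates of the same kind, in particular local equicontinuity and local bounds:
if `‖w z‖ ≤ R` then `‖z‖ ≤ r(R)`: for `‖z‖ = 4^j`: `1 = ‖w 1 - w 0‖ ≤ 2^{-j} ‖w z‖`.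
Compactness: by Arzelà-Ascoli (or a diagonal subsequence on a countable dense set and
equicontinuity) a subsequence of `w n` and of the inverses converges uniformly on bounded sets; the
limits are inverse to each other, so they form a homeomorphism; `WQS` passes to the limit.
-/

open Complex MeasureTheory Filter Topology Set
open scoped ContDiff ENNReal ComplexConjugate

noncomputable section

namespace Pool.Agent.QCD

private theorem wl_one {w : ℂ → ℂ} (h : WQS w) (j : ℕ) : ∀ a b c : ℂ,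
    ‖b - a‖ ≤ 2 ^ (j + 1) * ‖c - a‖ → ‖w b - w a‖ ≤ 3 ^ (j + 1) * ‖w c - w a‖ := by
  induction j with
  | zero =>
    intro a b c hb
    simpa using h.one a b c (by simpa using hb)
  | succ j ih =>
    intro a b c hb
    have e1 : ‖(a + (b - a) / 2) - a‖ = ‖b - a‖ / 2 := by
      rw [add_sub_cancel_left, norm_div]; norm_num
    have h1 := ih a (a + (b - a) / 2) c (by rw [e1]; rw [pow_succ] at hb; linarith)
    have h2 := h.one a b (a + (b - a) / 2) (by rw [e1]; linarith)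
    calc ‖w b - w a‖ ≤ 3 * ‖w (a + (b - a) / 2) - w a‖ := h2
      _ ≤ 3 * (3 ^ (j + 1) * ‖w c - w a‖) := by linarith
      _ = 3 ^ (j + 1 + 1) * ‖w c - w a‖ := by ring

private theorem wl_two {w : ℂ → ℂ} (h : WQS w) (j : ℕ) : ∀ a b c : ℂ,
    4 ^ (j + 1) * ‖b - a‖ ≤ ‖c - a‖ → 2 ^ (j + 1) * ‖w b - w a‖ ≤ ‖w c - w a‖ := by
  induction j with
  | zero =>
    intro a b c hb
    simpa using h.two a b c (by simpa using hb)
  | succ j ih =>
    intro a b c hb
    have e1 : ‖(a + (c - a) / 4) - a‖ = ‖c - a‖ / 4 := by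
      rw [add_sub_cancel_left, norm_div]; norm_num
    have h1 := ih a b (a + (c - a) / 4) (by rw [e1]; rw [pow_succ] at hb; linarith)
    have h2 := h.two a (a + (c - a) / 4) c (by rw [e1]; linarith)
    calc 2 ^ (j + 1 + 1) * ‖w b - w a‖ = 2 * (2 ^ (j + 1) * ‖w b - w a‖) := by ring
      _ ≤ 2 * ‖w (a + (c - a) / 4) - w a‖ := by linarith
      _ ≤ ‖w c - w a‖ := h2

private theorem wl_exists_pow (r : ℝ) : ∃ j : ℕ, r < 2 ^ (j + 1) := by
  obtain ⟨n, hn⟩ := pow_unbounded_of_one_lt r (by norm_num : (1 : ℝ) < 2)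
  exact ⟨n, hn.trans_le (pow_le_pow_right₀ (by norm_num) (Nat.le_succ n))⟩

theorem wqs_bound : ∀ r : ℝ, ∃ R : ℝ, ∀ w : ℂ ≃ₜ ℂ, WQS w → w 0 = 0 → w 1 = 1 →
    (∀ z, ‖z‖ ≤ r → ‖w z‖ ≤ R) ∧ (∀ z, ‖z‖ ≤ r → ‖w.symm z‖ ≤ R) := by
  intro r
  obtain ⟨j, hj⟩ := wl_exists_pow r
  refine ⟨4 ^ (j + 1), fun w hw h0 h1 => ⟨fun z hz => ?_, fun z hz => ?_⟩⟩
  · have h := wl_one hw j 0 z 1 (by simpa using (hz.trans hj.le))
    rw [h0, h1] at h
    simp only [sub_zero, norm_one, mul_one] at h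
    exact h.trans (pow_le_pow_left₀ (by norm_num) (by norm_num) _)
  · by_contra hc
    push Not at hc
    have h := wl_two hw j 0 1 (w.symm z) (by simpa using hc.le)
    rw [h0, h1] at h
    simp only [sub_zero, norm_one, mul_one, Homeomorph.apply_symm_apply] at h
    linarith

/-- local equicontinuity -/
private theorem wl_equi (r ε : ℝ) (hε : 0 < ε) : ∃ δ : ℝ, 0 < δ ∧ ∀ w : ℂ ≃ₜ ℂ, WQS w → w 0 = 0 →
    w 1 = 1 → ∀ x y, ‖x‖ ≤ r → ‖y‖ ≤ r → ‖x - y‖ < δ → ‖w x - w y‖ ≤ ε := by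
  obtain ⟨R, hR⟩ := wqs_bound (r + 1)
  obtain ⟨j, hj⟩ := wl_exists_pow (2 * R / ε)
  refine ⟨1 / 4 ^ (j + 1), by positivity, fun w hw h0 h1 x y hx hy hxy => ?_⟩
  have hb := (hR w hw h0 h1).1
  have h4 : (0 : ℝ) < 4 ^ (j + 1) := by positivity
  have h2 : (0 : ℝ) < 2 ^ (j + 1) := by positivity
  have e := wl_two hw j y x (y + 1) (by
    rw [add_sub_cancel_left, norm_one]
    have := mul_le_mul_of_nonneg_left hxy.le h4.le
    rw [mul_one_div_cancel h4.ne'] at this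
    exact this)
  have h3 : ‖w (y + 1) - w y‖ ≤ 2 * R := by
    have a1 := hb (y + 1) ((norm_add_le _ _).trans (by rw [norm_one]; linarith))
    have a2 := hb y (by linarith)
    exact (norm_sub_le _ _).trans (by linarith)
  have h5 : 2 * R ≤ 2 ^ (j + 1) * ε := by
    rw [div_lt_iff₀ hε] at hj
    exact hj.le
  have h6 : 2 ^ (j + 1) * ‖w x - w y‖ ≤ 2 ^ (j + 1) * ε := e.trans (h3.trans h5)
  exact le_of_mul_le_mul_left h6 h2

/-- local equicontinuity of the inverses -/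
private theorem wl_equi_symm (r ε : ℝ) (hε : 0 < ε) : ∃ δ : ℝ, 0 < δ ∧ ∀ w : ℂ ≃ₜ ℂ, WQS w →
    w 0 = 0 → w 1 = 1 → ∀ x y, ‖x‖ ≤ r → ‖y‖ ≤ r → ‖x - y‖ < δ → ‖w.symm x - w.symm y‖ ≤ ε := by
  obtain ⟨R, hR⟩ := wqs_bound r
  obtain ⟨j, hj⟩ := wl_exists_pow ((R + 1) / ε)
  refine ⟨1 / (2 * 3 ^ (j + 1)), by positivity, fun w hw h0 h1 x y hx hy hxy => ?_⟩
  have hb := (hR w hw h0 h1).2
  by_contra hc
  push Not at hc
  have h3 : (0 : ℝ) < 3 ^ (j + 1) := by positivity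
  have h2 : (0 : ℝ) < 2 ^ (j + 1) := by positivity
  rw [div_lt_iff₀ hε] at hj
  have key : ∀ c : ℂ, ‖c‖ ≤ 1 → ‖w c - y‖ ≤ 3 ^ (j + 1) * ‖x - y‖ := by
    intro c hcn
    have e := wl_one hw j (w.symm y) c (w.symm x) (by
      have a1 : ‖c - w.symm y‖ ≤ R + 1 := (norm_sub_le _ _).trans (by
        have := hb y hy
        linarith)
      have a2 : 2 ^ (j + 1) * ε ≤ 2 ^ (j + 1) * ‖w.symm x - w.symm y‖ :=
        mul_le_mul_of_nonneg_left hc.le h2.le
      linarith)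
    simpa using e
  have k0 := key 0 (by simp)
  have k1 := key 1 (by simp)
  rw [h0] at k0
  rw [h1] at k1
  have k2 : (1 : ℝ) ≤ ‖(1 : ℂ) - y‖ + ‖(0 : ℂ) - y‖ := by
    calc (1 : ℝ) = ‖((1 : ℂ) - y) - (0 - y)‖ := by simp
      _ ≤ _ := norm_sub_le _ _
  have k3 : 3 ^ (j + 1) * ‖x - y‖ < 1 / 2 := by
    have := mul_lt_mul_of_pos_left hxy h3
    calc 3 ^ (j + 1) * ‖x - y‖ < 3 ^ (j + 1) * (1 / (2 * 3 ^ (j + 1))) := this
      _ = 1 / 2 := by field_simp
  linarith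

/-- a locally bounded, locally equicontinuous sequence has a locally uniformly convergent
subsequence -/
private theorem wl_seq (f : ℕ → ℂ → ℂ) (hb : ∀ r : ℝ, ∃ R : ℝ, ∀ n z, ‖z‖ ≤ r → ‖f n z‖ ≤ R)
    (he : ∀ r ε : ℝ, 0 < ε → ∃ δ : ℝ, 0 < δ ∧ ∀ n x y, ‖x‖ ≤ r → ‖y‖ ≤ r → ‖x - y‖ < δ →
      ‖f n x - f n y‖ ≤ ε) :
    ∃ φ : ℕ → ℕ, StrictMono φ ∧ ∃ g : ℂ → ℂ, Continuous g ∧
      ∀ r, TendstoUniformlyOn (fun n => f (φ n)) g atTop (Metric.closedBall 0 r) := by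
  choose R hR using hb
  choose! δ hδ hδ' using he
  -- the set of functions with these estimates
  let T : Set (ℂ → ℂ) := {g | (∀ z, ‖g z‖ ≤ R ‖z‖) ∧ ∀ r ε, 0 < ε → ∀ x y, ‖x‖ ≤ r → ‖y‖ ≤ r →
    ‖x - y‖ < δ r ε → ‖g x - g y‖ ≤ ε}
  have hTcont : ∀ g ∈ T, Continuous g := by
    intro g hg
    rw [Metric.continuous_iff]
    intro b ε hε
    refine ⟨min 1 (δ (‖b‖ + 1) (ε / 2)), lt_min one_pos (hδ _ _ (by positivity)), fun a ha => ?_⟩
    rw [dist_eq_norm] at ha ⊢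
    have h1 : ‖a‖ ≤ ‖b‖ + 1 := by
      have := (norm_add_le (a - b) b)
      rw [sub_add_cancel] at this
      have h2 := ha.le.trans (min_le_left _ _)
      linarith
    have := hg.2 (‖b‖ + 1) (ε / 2) (by positivity) a b h1 (by linarith)
      (ha.trans_le (min_le_right _ _))
    linarith
  have hTeq : ∀ x : ℂ, ∀ ε > 0, ∃ η > 0, ∀ g ∈ T, ∀ y, ‖y - x‖ < η → ‖g x - g y‖ < ε := by
    intro b ε hε
    refine ⟨min 1 (δ (‖b‖ + 1) (ε / 2)), lt_min one_pos (hδ _ _ (by positivity)),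
      fun g hg a ha => ?_⟩
    have h1 : ‖a‖ ≤ ‖b‖ + 1 := by
      have := (norm_add_le (a - b) b)
      rw [sub_add_cancel] at this
      have h2 := ha.le.trans (min_le_left _ _)
      linarith
    have := hg.2 (‖b‖ + 1) (ε / 2) (by positivity) b a (by linarith) h1
      (by rw [norm_sub_rev]; exact ha.trans_le (min_le_right _ _))
    linarith
  have hTcomp : IsCompact T := by
    have hclosed : IsClosed T := by
      have : T = (⋂ z, {g : ℂ → ℂ | ‖g z‖ ≤ R ‖z‖}) ∩ ⋂ (r : ℝ) (ε : ℝ) (_ : 0 < ε) (x : ℂ) (y : ℂ)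
          (_ : ‖x‖ ≤ r) (_ : ‖y‖ ≤ r) (_ : ‖x - y‖ < δ r ε), {g : ℂ → ℂ | ‖g x - g y‖ ≤ ε} := by
        ext g
        simp only [T, Set.mem_inter_iff, Set.mem_iInter, Set.mem_ofPred_eq]
      rw [this]
      refine IsClosed.inter (isClosed_iInter fun z => ?_) ?_
      · exact isClosed_le ((continuous_apply z).norm) continuous_const
      · refine isClosed_iInter fun r => isClosed_iInter fun ε => isClosed_iInter fun _ =>
          isClosed_iInter fun x => isClosed_iInter fun y => isClosed_iInter fun _ =>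
          isClosed_iInter fun _ => isClosed_iInter fun _ => ?_
        exact isClosed_le (((continuous_apply x).sub (continuous_apply y)).norm) continuous_const
    have hsub : T ⊆ Set.pi Set.univ (fun z => Metric.closedBall (0 : ℂ) (R ‖z‖)) := by
      intro g hg z _
      simpa using hg.1 z
    exact (isCompact_univ_pi fun z => isCompact_closedBall (0 : ℂ) (R ‖z‖)).of_isClosed_subset
      hclosed hsub
  let S : Set C(ℂ, ℂ) := {g | (g : ℂ → ℂ) ∈ T}
  have hST : ContinuousMap.toFun '' S = T := by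
    ext g
    constructor
    · rintro ⟨g', hg', rfl⟩
      exact hg'
    · intro hg
      exact ⟨⟨g, hTcont g hg⟩, hg, rfl⟩
  have hScomp : IsCompact S := by
    refine ArzelaAscoli.isCompact_of_equicontinuous S (by rw [hST]; exact hTcomp) ?_
    intro x
    rw [Metric.equicontinuousAt_iff]
    intro ε hε
    obtain ⟨η, hη, h⟩ := hTeq x ε hε
    refine ⟨η, hη, fun y hy g => ?_⟩
    rw [dist_eq_norm] at hy ⊢
    exact h g.1 g.2 y hy
  have hf : ∀ n, f n ∈ T := fun n => ⟨fun z => hR ‖z‖ n z le_rfl,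
    fun r ε hε x y hx hy hxy => hδ' r ε hε n x y hx hy hxy⟩
  obtain ⟨g, hg, φ, hφ, hlim⟩ := hScomp.tendsto_subseq
    (x := fun n => (⟨f n, hTcont _ (hf n)⟩ : C(ℂ, ℂ))) hf
  refine ⟨φ, hφ, g, g.continuous, fun r => ?_⟩
  rw [ContinuousMap.tendsto_iff_forall_isCompact_tendstoUniformlyOn] at hlim
  exact hlim _ (isCompact_closedBall 0 r)

theorem wqs_compact (w : ℕ → (ℂ ≃ₜ ℂ)) (h : ∀ n, WQS (w n)) (h0 : ∀ n, w n 0 = 0)
    (h1 : ∀ n, w n 1 = 1) : ∃ φ : ℕ → ℕ, StrictMono φ ∧ ∃ v : ℂ ≃ₜ ℂ, WQS v ∧ v 0 = 0 ∧ v 1 = 1 ∧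
      (∀ r, TendstoUniformlyOn (fun n z => w (φ n) z) v atTop (Metric.closedBall 0 r)) ∧
      (∀ r, TendstoUniformlyOn (fun n z => (w (φ n)).symm z) v.symm atTop
        (Metric.closedBall 0 r)) := by
  obtain ⟨φ₁, hφ₁, g, hg, hlim₁⟩ := wl_seq (fun n z => w n z)
    (fun r => by
      obtain ⟨R, hR⟩ := wqs_bound r
      exact ⟨R, fun n z hz => (hR (w n) (h n) (h0 n) (h1 n)).1 z hz⟩)
    (fun r ε hε => by
      obtain ⟨δ, hδ, hδ'⟩ := wl_equi r ε hε
      exact ⟨δ, hδ, fun n => hδ' (w n) (h n) (h0 n) (h1 n)⟩)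
  obtain ⟨φ₂, hφ₂, g', hg', hlim₂⟩ := wl_seq (fun n z => (w (φ₁ n)).symm z)
    (fun r => by
      obtain ⟨R, hR⟩ := wqs_bound r
      exact ⟨R, fun n z hz => (hR (w (φ₁ n)) (h _) (h0 _) (h1 _)).2 z hz⟩)
    (fun r ε hε => by
      obtain ⟨δ, hδ, hδ'⟩ := wl_equi_symm r ε hε
      exact ⟨δ, hδ, fun n => hδ' (w (φ₁ n)) (h _) (h0 _) (h1 _)⟩)
  have hl1 : ∀ r, TendstoUniformlyOn (fun n z => w ((φ₁ ∘ φ₂) n) z) g atTop
      (Metric.closedBall 0 r) := fun r => by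
    intro u hu
    exact hφ₂.tendsto_atTop.eventually (hlim₁ r u hu)
  -- evaluation along convergent sequences
  have hev : ∀ (F : ℕ → ℂ → ℂ) (G : ℂ → ℂ), Continuous G →
      (∀ r, TendstoUniformlyOn F G atTop (Metric.closedBall 0 r)) → ∀ (x : ℕ → ℂ) (y : ℂ),
      Tendsto x atTop (𝓝 y) → Tendsto (fun n => F n (x n)) atTop (𝓝 (G y)) := by
    intro F G hG hFG x y hxy
    have hmem : ∀ᶠ n in atTop, x n ∈ Metric.closedBall (0 : ℂ) (‖y‖ + 1) := by
      have : Metric.closedBall (0 : ℂ) (‖y‖ + 1) ∈ 𝓝 y := by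
        refine mem_of_superset (Metric.ball_mem_nhds y one_pos) fun z hz => ?_
        rw [mem_closedBall_zero_iff]
        rw [mem_ball_iff_norm] at hz
        have := norm_add_le (z - y) y
        rw [sub_add_cancel] at this
        linarith
      exact hxy this
    rw [Metric.tendsto_nhds]
    intro ε hε
    have a1 := (Metric.tendstoUniformlyOn_iff.1 (hFG (‖y‖ + 1))) (ε / 2) (by positivity)
    have a2 := (Metric.tendsto_nhds.1 ((hG.tendsto y).comp hxy)) (ε / 2) (by positivity)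
    filter_upwards [hmem, a1, a2] with n b1 b2 b3
    have c1 := b2 (x n) b1
    simp only [Function.comp_apply] at b3
    calc dist (F n (x n)) (G y) ≤ dist (F n (x n)) (G (x n)) + dist (G (x n)) (G y) :=
          dist_triangle _ _ _
      _ < ε / 2 + ε / 2 := by
          rw [dist_comm] at c1
          exact add_lt_add c1 b3
      _ = ε := by ring
  have hptw : ∀ z, Tendsto (fun n => w ((φ₁ ∘ φ₂) n) z) atTop (𝓝 (g z)) := fun z =>
    hev _ g hg hl1 (fun _ => z) z tendsto_const_nhds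
  have hptw' : ∀ z, Tendsto (fun n => (w ((φ₁ ∘ φ₂) n)).symm z) atTop (𝓝 (g' z)) := fun z =>
    hev _ g' hg' hlim₂ (fun _ => z) z tendsto_const_nhds
  have hgg' : ∀ z, g (g' z) = z := by
    intro z
    have := hev _ g hg hl1 _ _ (hptw' z)
    simp only [Homeomorph.apply_symm_apply] at this
    exact tendsto_nhds_unique this tendsto_const_nhds
  have hg'g : ∀ z, g' (g z) = z := by
    intro z
    have := hev _ g' hg' hlim₂ _ _ (hptw z)
    simp only [Function.comp_apply, Homeomorph.symm_apply_apply] at this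
    exact tendsto_nhds_unique this tendsto_const_nhds
  let v : ℂ ≃ₜ ℂ := ⟨⟨g, g', hg'g, hgg'⟩, hg, hg'⟩
  refine ⟨φ₁ ∘ φ₂, hφ₁.comp hφ₂, v, ⟨?_, ?_⟩, ?_, ?_, hl1, hlim₂⟩
  · intro a b c hab
    exact le_of_tendsto_of_tendsto' ((hptw b).sub (hptw a)).norm
      (((hptw c).sub (hptw a)).norm.const_mul 3) fun n => (h _).one a b c hab
  · intro a b c hab
    exact le_of_tendsto_of_tendsto' ((((hptw b).sub (hptw a)).norm).const_mul 2)
      ((hptw c).sub (hptw a)).norm fun n => (h _).two a b c hab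
  · refine tendsto_nhds_unique (hptw 0) ?_
    simp only [h0]
    exact tendsto_const_nhds
  · refine tendsto_nhds_unique (hptw 1) ?_
    simp only [h1]
    exact tendsto_const_nhds

end Pool.Agent.QCD
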