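import Pool.Agent.Lib.MP_f30fea_an.Base
import Pool.Agent.Lib.MP_f30fea_an.Mollify
import Pool.Agent.Lib.MP_f30fea_an.Weyl
import Pool.Agent.Lib.MP_f30fea_an.L2Bound
import Pool.Agent.Lib.MP_f30fea_an.Wqs
import Pool.Agent.Lib.MP_f30fea_an.WqsLim

/-!
# Smooth approximation of quasiconformal homeomorphisms with small constant

`r` is the constant of `wqs_nice`.  Let `g, h, μ` be as in `IsQC k w`, `ν n → μ` a.e. from
`exists_coef_approx`, `W n` the normalised solution for `ν n` (`exists_family` for `ν n / k` at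
`l = k`; if `k = 0`: `ν n = 0`, identity), `WQS` by `wqs_nice`; pass to a subsequence with limit
`W0` (`wqs_compact`).
`F = w ∘ W0.symm` is continuous, and the uniform limit on bounded sets of `F_n = w ∘ (W n).symm`
(`w` is uniformly continuous on bounded sets).  Let `φ` be a test function, `ψ_n = φ ∘ W n`.
Change of variables (`integral_image_eq_integral_abs_det_fderiv_smul`, `det = ‖dz‖² - ‖dzb‖² > 0`):
`∫ F_n dzb φ = ∫ w z (dzb φ) (W n z) det dz`, and with the chain rule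
`dz ψ = (dz φ ∘ W) dz W + (dzb φ ∘ W) conj (dzb W)`, `dzb ψ = (dz φ ∘ W) dzb W + (dzb φ ∘ W) conj (dz W)`:
`(dzb φ ∘ W) det = dz W * dzb ψ - dzb W * dz ψ = dzb (ψ dz W) - dz (ψ dzb W)` (by `dz_dzb`), so
`∫ F_n dzb φ = ∫ w (dzb (ψ_n dz W_n) - dz (ψ_n dzb W_n)) = -∫ ψ_n (h dz W_n - g dzb W_n)`
(`WeakDeriv` with the test functions `ψ_n dz W_n`, `ψ_n dzb W_n`) `= -∫ ψ_n dz W_n g (μ - ν_n)`
(as `h = μ g`, `dzb W_n = ν_n dz W_n`).  The supports of `ψ_n` lie in one disc of radius `ρ`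
(`wqs_bound` for the inverses); `∫_{disc} ‖dz W_n‖²` is bounded (`l2_bound`, `wqs_bound`), and
`∫_{disc} ‖g (μ - ν_n)‖² → 0` by dominated convergence (`‖μ - ν_n‖ ≤ 2k` a.e.).  By Cauchy-Schwarz
`∫ F_n dzb φ → 0`, so `∫ F dzb φ = 0` and `F` is entire (`weyl`).
-/

open Complex MeasureTheory Filter Topology Set
open scoped ContDiff ENNReal ComplexConjugate

noncomputable section

namespace Pool.Agent.QCD


private lemma intCont {w : ℂ → ℂ} (hw : Continuous w) {φ : ℂ → ℂ} (hφ : IsTest φ) :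
    Integrable (fun z => w z * φ z) := by
  refine Continuous.integrable_of_hasCompactSupport (hw.mul hφ.1.continuous) ?_
  exact hφ.2.mul_left

private lemma intLoc {g : ℂ → ℂ} (hg : LocL2 g) {φ : ℂ → ℂ} (hφ : IsTest φ) :
    Integrable (fun z => g z * φ z) := by
  obtain ⟨M, r, _, _, hM, hr⟩ := hφ.bound
  have hsupp : Function.support (fun z => g z * φ z) ⊆ Metric.closedBall (0 : ℂ) r := by
    intro z hz
    rw [Metric.mem_closedBall, dist_zero_right]
    by_contra h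
    push Not at h
    exact hz (by simp only [hr z h, mul_zero])
  rw [← integrableOn_iff_integrable_of_support_subset hsupp]
  have : IsFiniteMeasure (volume.restrict (Metric.closedBall (0 : ℂ) r)) :=
    ⟨by rw [Measure.restrict_apply_univ]; exact (isCompact_closedBall 0 r).measure_lt_top⟩
  have h1 : Integrable g (volume.restrict (Metric.closedBall (0 : ℂ) r)) :=
    (hg r).integrable one_le_two
  exact h1.mul_bdd (c := M) hφ.1.continuous.aestronglyMeasurable (Eventually.of_forall hM)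

private lemma test_comp {W : ℂ ≃ₜ ℂ} (hW : ContDiff ℝ ∞ W) {f : ℂ → ℂ} (hf : IsTest f) :
    IsTest (fun z => f (W z)) :=
  ⟨hf.1.comp hW, hf.2.comp_homeomorph W⟩

private lemma diffAt {f : ℂ → ℂ} (hf : ContDiff ℝ ∞ f) (z : ℂ) : DifferentiableAt ℝ f z :=
  hf.differentiable (by simp) z

/-- change of variables -/
private lemma change {ν : ℂ → ℂ} {k : ℝ} (hk1 : k < 1) (hν : Coef k ν) {W : ℂ ≃ₜ ℂ} (hW : Nice ν W)
    (G : ℂ → ℂ) : ∫ y, G y = ∫ z, ((‖dz W z‖ ^ 2 - ‖dzb W z‖ ^ 2 : ℝ) : ℂ) * G (W z) := by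
  have h := integral_image_eq_integral_abs_det_fderiv_smul (volume : Measure ℂ) (s := univ)
    (f := fun z => W z) (f' := fun z => fderiv ℝ W z) MeasurableSet.univ
    (fun z _ => (diffAt hW.smooth z).hasFDerivAt.hasFDerivWithinAt) (W.injective.injOn) G
  rw [image_univ, show Set.range (fun z => W z) = univ from W.surjective.range_eq,
    setIntegral_univ, setIntegral_univ] at h
  rw [h]
  refine integral_congr_ae (Eventually.of_forall fun z => ?_)
  have h1 : 0 ≤ ‖dz W z‖ ^ 2 - ‖dzb W z‖ ^ 2 := by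
    have h2 : ‖dzb W z‖ ≤ ‖dz W z‖ := by
      rw [hW.bel z, norm_mul]
      have h3 := hν.le z
      nlinarith [norm_nonneg (dz W z)]
    have h4 := norm_nonneg (dzb W z)
    nlinarith
  simp only [det_fderiv, abs_of_nonneg h1]
  rw [Complex.real_smul]

/-- the main identity -/
private lemma main_id {k : ℝ} (hk1 : k < 1) {w : ℂ ≃ₜ ℂ} {g h μ : ℂ → ℂ} (hg : LocL2 g)
    (hh : LocL2 h) (hw : WeakDeriv w g h) (hμ : ∀ᵐ z, h z = μ z * g z) {ν : ℂ → ℂ}
    (hν : Coef k ν) {W : ℂ ≃ₜ ℂ} (hW : Nice ν W) {f : ℂ → ℂ} (hf : IsTest f) :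
    ∫ y, w (W.symm y) * dzb f y = -∫ z, g z * (μ z - ν z) * (dz W z * f (W z)) := by
  have hψ := test_comp hW.smooth hf
  have hWz := dz_smooth hW.smooth
  have hWb := dzb_smooth hW.smooth
  have h1 : IsTest (fun z => f (W z) * dz W z) := hψ.mul hWz
  have h2 : IsTest (fun z => f (W z) * dzb W z) := hψ.mul hWb
  have e1 := (hw _ h1).2
  have e2 := (hw _ h2).1
  have hpt : ∀ z, ((‖dz W z‖ ^ 2 - ‖dzb W z‖ ^ 2 : ℝ) : ℂ) * (w (W.symm (W z)) * dzb f (W z)) =
      w z * dzb (fun z => f (W z) * dz W z) z - w z * dz (fun z => f (W z) * dzb W z) z := by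
    intro z
    have d1 := diffAt hψ.1 z
    have d2 := diffAt hWz z
    have d3 := diffAt hWb z
    have d4 := diffAt hW.smooth z
    have d5 := diffAt hf.1 (W z)
    rw [W.symm_apply_apply, dzb_mul d1 d2, dz_mul d1 d3, dz_comp d4 d5, dzb_comp d4 d5]
    have e3 : dz (dzb W) z = dzb (dz W) z := by rw [dz_dzb hW.smooth]
    rw [e3]
    have e4 : ((‖dz W z‖ ^ 2 - ‖dzb W z‖ ^ 2 : ℝ) : ℂ) =
        dz W z * conj (dz W z) - dzb W z * conj (dzb W z) := by
      rw [Complex.mul_conj, Complex.mul_conj, Complex.normSq_eq_norm_sq, Complex.normSq_eq_norm_sq]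
      push_cast
      ring
    rw [e4]
    ring
  rw [change hk1 hν hW, integral_congr_ae (Eventually.of_forall hpt),
    integral_sub (intCont w.continuous h1.dzb) (intCont w.continuous h2.dz), e1, e2]
  rw [← neg_eq_iff_eq_neg, sub_neg_eq_add, neg_add, neg_neg, ← sub_eq_add_neg,
    ← integral_sub (intLoc hh h1) (intLoc hg h2)]
  refine integral_congr_ae ?_
  filter_upwards [hμ] with z hz
  rw [hz, hW.bel z]
  ring


private lemma cs_bound {m : Measure ℂ} {a b : ℂ → ℝ} (ha : ∀ z, 0 ≤ a z) (hb : ∀ z, 0 ≤ b z)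
    (h1 : MemLp a 2 m) (h2 : MemLp b 2 m) :
    ∫ z, a z * b z ∂m ≤ √(∫ z, a z ^ 2 ∂m) * √(∫ z, b z ^ 2 ∂m) := by
  have h := integral_mul_le_Lp_mul_Lq_of_nonneg (μ := m) Real.HolderConjugate.two_two
    (Eventually.of_forall ha) (Eventually.of_forall hb) (by simpa using h1) (by simpa using h2)
  simp only [Real.rpow_two] at h
  rwa [← Real.sqrt_eq_rpow, ← Real.sqrt_eq_rpow] at h

private lemma finBall (ρ : ℝ) : IsFiniteMeasure (volume.restrict (Metric.closedBall (0 : ℂ) ρ)) :=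
  ⟨by rw [Measure.restrict_apply_univ]; exact (isCompact_closedBall 0 ρ).measure_lt_top⟩

private lemma memCont (ρ : ℝ) {f : ℂ → ℂ} (hf : Continuous f) :
    MemLp f 2 (volume.restrict (Metric.closedBall (0 : ℂ) ρ)) := by
  have := finBall ρ
  obtain ⟨C, hC⟩ := (isCompact_closedBall (0 : ℂ) ρ).exists_bound_of_continuousOn hf.continuousOn
  refine MemLp.of_bound hf.aestronglyMeasurable C ?_
  rw [ae_restrict_iff' Metric.isClosed_closedBall.measurableSet]
  exact Eventually.of_forall hC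

private lemma memDiff {k : ℝ} {g μ ν : ℂ → ℂ} (hg : LocL2 g) (hm : Measurable μ)
    (hμk : ∀ᵐ z, ‖μ z‖ ≤ k) (hν : Coef k ν) (ρ : ℝ) :
    MemLp (fun z => g z * (μ z - ν z)) 2 (volume.restrict (Metric.closedBall (0 : ℂ) ρ)) := by
  refine MemLp.of_le_mul (c := 2 * k) (hg ρ) ?_ ?_
  · exact (hg ρ).1.mul (hm.aestronglyMeasurable.sub hν.test.1.continuous.aestronglyMeasurable)
  · filter_upwards [ae_restrict_of_ae hμk] with z hz
    rw [norm_mul, mul_comm]
    refine mul_le_mul_of_nonneg_right ?_ (norm_nonneg _)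
    have := norm_sub_le (μ z) (ν z)
    have := hν.le z
    linarith

private lemma est {k : ℝ} (hk0 : 0 ≤ k) (hk1 : k < 1) {g μ : ℂ → ℂ} (hg : LocL2 g)
    (hm : Measurable μ) (hμk : ∀ᵐ z, ‖μ z‖ ≤ k) {ν : ℂ → ℂ} (hν : Coef k ν) {W : ℂ ≃ₜ ℂ}
    (hW : Nice ν W) {f : ℂ → ℂ} {M r ρ R : ℝ} (hM0 : 0 ≤ M) (hM : ∀ z, ‖f z‖ ≤ M)
    (hr : ∀ z, r < ‖z‖ → f z = 0)
    (hρ : ∀ z, ‖z‖ ≤ r → ‖W.symm z‖ ≤ ρ) (hR : ∀ z, ‖z‖ ≤ ρ → ‖W z‖ ≤ R) :
    ‖∫ z, g z * (μ z - ν z) * (dz W z * f (W z))‖ ≤ M * (√(∫ z in Metric.closedBall (0 : ℂ) ρ,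
      ‖g z * (μ z - ν z)‖ ^ 2) * √(Real.pi * R ^ 2 / (1 - k ^ 2))) := by
  have hz0 : ∀ z ∉ Metric.closedBall (0 : ℂ) ρ, ‖g z * (μ z - ν z) * (dz W z * f (W z))‖ = 0 := by
    intro z hz
    have h1 : r < ‖W z‖ := by
      by_contra h2
      push Not at h2
      have h3 := hρ _ h2
      rw [W.symm_apply_apply] at h3
      exact hz (by rwa [Metric.mem_closedBall, dist_zero_right])
    rw [hr _ h1, mul_zero, mul_zero, norm_zero]
  have m1 := memDiff hg hm hμk hν ρ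
  have m2 := memCont ρ (dz_smooth hW.smooth).continuous
  have hint : Integrable (fun z => M * (‖g z * (μ z - ν z)‖ * ‖dz W z‖))
      (volume.restrict (Metric.closedBall (0 : ℂ) ρ)) := (m1.norm.integrable_mul m2.norm).const_mul M
  calc ‖∫ z, g z * (μ z - ν z) * (dz W z * f (W z))‖
      ≤ ∫ z, ‖g z * (μ z - ν z) * (dz W z * f (W z))‖ := norm_integral_le_integral_norm _
    _ = ∫ z in Metric.closedBall (0 : ℂ) ρ, ‖g z * (μ z - ν z) * (dz W z * f (W z))‖ :=
        (setIntegral_eq_integral_of_forall_compl_eq_zero hz0).symm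
    _ ≤ ∫ z in Metric.closedBall (0 : ℂ) ρ, M * (‖g z * (μ z - ν z)‖ * ‖dz W z‖) := by
        refine integral_mono_of_nonneg (Eventually.of_forall fun z => norm_nonneg _) hint
          (Eventually.of_forall fun z => ?_)
        simp only [norm_mul]
        have h1 := hM (W z)
        have h2 : 0 ≤ ‖g z‖ * ‖μ z - ν z‖ * ‖dz W z‖ := by positivity
        calc ‖g z‖ * ‖μ z - ν z‖ * (‖dz W z‖ * ‖f (W z)‖)
            = (‖g z‖ * ‖μ z - ν z‖ * ‖dz W z‖) * ‖f (W z)‖ := by ring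
          _ ≤ (‖g z‖ * ‖μ z - ν z‖ * ‖dz W z‖) * M := mul_le_mul_of_nonneg_left h1 h2
          _ = _ := by ring
    _ = M * ∫ z in Metric.closedBall (0 : ℂ) ρ, ‖g z * (μ z - ν z)‖ * ‖dz W z‖ :=
        integral_const_mul _ _
    _ ≤ M * (√(∫ z in Metric.closedBall (0 : ℂ) ρ, ‖g z * (μ z - ν z)‖ ^ 2) *
          √(∫ z in Metric.closedBall (0 : ℂ) ρ, ‖dz W z‖ ^ 2)) :=
        mul_le_mul_of_nonneg_left (cs_bound (fun _ => norm_nonneg _) (fun _ => norm_nonneg _)
          m1.norm m2.norm) hM0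
    _ ≤ _ := by
        refine mul_le_mul_of_nonneg_left (mul_le_mul_of_nonneg_left ?_ (Real.sqrt_nonneg _)) hM0
        exact Real.sqrt_le_sqrt (l2_bound hk0 hk1 hν.le hW hR)


private lemma tend0 {k : ℝ} {g μ : ℂ → ℂ} (hg : LocL2 g) (hm : Measurable μ)
    (hμk : ∀ᵐ z, ‖μ z‖ ≤ k) {ν : ℕ → ℂ → ℂ} (hν : ∀ n, Coef k (ν n))
    (hlim : ∀ᵐ z, Tendsto (fun n => ν n z) atTop (𝓝 (μ z))) (ρ : ℝ) :
    Tendsto (fun n => ∫ z in Metric.closedBall (0 : ℂ) ρ, ‖g z * (μ z - ν n z)‖ ^ 2) atTop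
      (𝓝 0) := by
  have hgm := (hg ρ)
  have h := tendsto_integral_of_dominated_convergence
    (μ := volume.restrict (Metric.closedBall (0 : ℂ) ρ))
    (F := fun n z => ‖g z * (μ z - ν n z)‖ ^ 2) (f := fun _ => (0 : ℝ))
    (bound := fun z => (2 * k) ^ 2 * ‖g z‖ ^ 2)
    (fun n => (memDiff hg hm hμk (hν n) ρ).1.norm.pow 2)
    (((memLp_two_iff_integrable_sq_norm hgm.1).1 hgm).const_mul _)
    (fun n => by
      filter_upwards [ae_restrict_of_ae hμk] with z hz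
      rw [Real.norm_eq_abs, abs_of_nonneg (by positivity), norm_mul, mul_pow, mul_comm]
      refine mul_le_mul_of_nonneg_right ?_ (by positivity)
      have h1 := norm_sub_le (μ z) (ν n z)
      have h2 := (hν n).le z
      exact pow_le_pow_left₀ (norm_nonneg _) (by linarith) 2)
    (by
      filter_upwards [ae_restrict_of_ae hlim] with z hz
      have h1 : Tendsto (fun n => ‖g z * (μ z - ν n z)‖ ^ 2) atTop (𝓝 (‖g z * (μ z - μ z)‖ ^ 2)) :=
        ((tendsto_const_nhds.mul (tendsto_const_nhds.sub hz)).norm).pow 2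
      simpa using h1)
  simpa using h

private lemma exists_nice {k : ℝ} (hk0 : 0 ≤ k) (hk1 : k < 1) {ν : ℂ → ℂ} (hν : Coef k ν) :
    ∃ W : ℂ ≃ₜ ℂ, Nice ν W := by
  have hα : IsTest (fun z => ν z * (k : ℂ)⁻¹) := hν.test.mul contDiff_const
  have hα1 : ∀ z, ‖ν z * (k : ℂ)⁻¹‖ ≤ 1 := by
    intro z
    rw [norm_mul, norm_inv, Complex.norm_real, Real.norm_eq_abs, abs_of_nonneg hk0]
    rcases hk0.eq_or_lt with h | h
    · rw [← h]
      simp
    · rw [← div_eq_mul_inv, div_le_one h]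
      exact hν.le z
  obtain ⟨V, hV⟩ := exists_family hα hα1
  have h1 := hV.nice (k : ℂ) (by
    rw [Complex.norm_real, Real.norm_eq_abs, abs_of_nonneg hk0]
    exact hk1)
  refine ⟨V k, ?_⟩
  have h2 : (fun z => (k : ℂ) * (ν z * (k : ℂ)⁻¹)) = ν := by
    funext z
    rcases hk0.eq_or_lt with h | h
    · have h3 := hν.le z
      rw [← h] at h3
      have h4 : ν z = 0 := norm_le_zero_iff.1 h3
      rw [h4]
      simp
    · have h3 : (k : ℂ) ≠ 0 := by exact_mod_cast h.ne'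
      field_simp
  rwa [h2] at h1

theorem approx_qc : ∃ r : ℝ, 0 < r ∧ r < 1 ∧ ∀ k, 0 ≤ k → k ≤ r → ∀ w : ℂ ≃ₜ ℂ, IsQC k w →
    ∃ (ν : ℕ → ℂ → ℂ) (W : ℕ → (ℂ ≃ₜ ℂ)) (W0 : ℂ ≃ₜ ℂ) (F : ℂ → ℂ), (∀ n, Coef k (ν n)) ∧
      (∀ n, Nice (ν n) (W n)) ∧
      (∀ r, TendstoUniformlyOn (fun n z => W n z) W0 atTop (Metric.closedBall 0 r)) ∧
      Differentiable ℂ F ∧ ∀ z, w z = F (W0 z) := by
  obtain ⟨r, hr0, hr1, hwqs⟩ := wqs_nice
  refine ⟨r, hr0, hr1, fun k hk0 hkr w hqc => ?_⟩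
  obtain ⟨g, h, μ, hg, hh, hw, hm, hμk, hμ⟩ := hqc
  have hk1 : k < 1 := lt_of_le_of_lt hkr hr1
  obtain ⟨ν, hν, hlim⟩ := exists_coef_approx hm hk0 hμk
  have hW : ∀ n, ∃ W : ℂ ≃ₜ ℂ, Nice (ν n) W := fun n => exists_nice hk0 hk1 (hν n)
  choose W hW using hW
  have hq : ∀ n, WQS (W n) := fun n => hwqs k (ν n) (W n) hk0 hkr (hν n).test (hν n).le (hW n)
  obtain ⟨φ, hφ, v, _, _, _, h1, h2⟩ := wqs_compact W hq (fun n => (hW n).zero)
    (fun n => (hW n).one)
  have hF0 : Continuous (fun z => w (v.symm z)) := w.continuous.comp v.symm.continuous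
  have hF : ∀ f, IsTest f → ∫ z, w (v.symm z) * dzb f z = 0 := by
    intro f hf
    obtain ⟨M, r', hM0, _, hM, hr'⟩ := hf.bound
    obtain ⟨ρ, hρ⟩ := wqs_bound r'
    obtain ⟨R, hR⟩ := wqs_bound ρ
    obtain ⟨_, r2, _, _, _, hr2⟩ := hf.dzb.bound
    obtain ⟨ρ2, hρ2⟩ := wqs_bound r2
    obtain ⟨B, hB⟩ := (isCompact_closedBall (0 : ℂ) ρ2).exists_bound_of_continuousOn
      w.continuous.continuousOn
    have T1 : Tendsto (fun n => ∫ z, w ((W (φ n)).symm z) * dzb f z) atTop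
        (𝓝 (∫ z, w (v.symm z) * dzb f z)) := by
      refine tendsto_integral_of_dominated_convergence (fun z => B * ‖dzb f z‖) (fun n => ?_) ?_
        (fun n => ?_) ?_
      · exact (intCont (w.continuous.comp (W (φ n)).symm.continuous) hf.dzb).1
      · exact (hf.dzb.1.continuous.integrable_of_hasCompactSupport hf.dzb.2).norm.const_mul B
      · refine Eventually.of_forall fun z => ?_
        rw [norm_mul]
        by_cases hz : ‖z‖ ≤ r2
        · refine mul_le_mul_of_nonneg_right (hB _ ?_) (norm_nonneg _)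
          rw [Metric.mem_closedBall, dist_zero_right]
          exact (hρ2 (W (φ n)) (hq _) (hW _).zero (hW _).one).2 z hz
        · rw [hr2 z (not_le.1 hz)]
          simp
      · refine Eventually.of_forall fun z => ?_
        refine Tendsto.mul ?_ tendsto_const_nhds
        have h3 := (h2 ‖z‖).tendsto_at (x := z) (by simp)
        exact (w.continuous.tendsto _).comp h3
    have T2 : Tendsto (fun n => ∫ z, w ((W (φ n)).symm z) * dzb f z) atTop (𝓝 0) := by
      rw [tendsto_zero_iff_norm_tendsto_zero]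
      have hA := (tend0 hg hm hμk hν hlim ρ).comp hφ.tendsto_atTop
      have hA2 : Tendsto (fun n => M * (√(∫ z in Metric.closedBall (0 : ℂ) ρ,
          ‖g z * (μ z - ν (φ n) z)‖ ^ 2) * √(Real.pi * R ^ 2 / (1 - k ^ 2)))) atTop (𝓝 0) := by
        have h3 := ((Real.continuous_sqrt.tendsto 0).comp hA).mul_const
          (√(Real.pi * R ^ 2 / (1 - k ^ 2)))
        rw [Real.sqrt_zero, zero_mul] at h3
        have h4 := h3.const_mul M
        rw [mul_zero] at h4
        exact h4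
      refine squeeze_zero (fun n => norm_nonneg _) (fun n => ?_) hA2
      rw [main_id hk1 hg hh hw hμ (hν (φ n)) (hW (φ n)) hf, norm_neg]
      exact est hk0 hk1 hg hm hμk (hν (φ n)) (hW (φ n)) hM0 hM hr'
        (hρ (W (φ n)) (hq _) (hW _).zero (hW _).one).2
        (hR (W (φ n)) (hq _) (hW _).zero (hW _).one).1
    exact tendsto_nhds_unique T1 T2
  exact ⟨fun n => ν (φ n), fun n => W (φ n), v, fun z => w (v.symm z), fun n => hν _,
    fun n => hW _, h1, weyl hF0 hF, fun z => by simp⟩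

end Pool.Agent.QCD
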