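import Pool.Agent.Lib.MP_f30fea_an.Defs

/-!
# Auxiliary definitions
-/

open Complex MeasureTheory Filter Topology Set
open scoped ContDiff ENNReal ComplexConjugate

noncomputable section

namespace Pool.Agent.QCD

/-- the Cauchy transform -/
def cau (f : ℂ → ℂ) (z : ℂ) : ℂ := (Real.pi : ℂ)⁻¹ * ∫ ζ, f ζ / (z - ζ)

/-- smooth coefficients, bounded by `k`, with compact support in `ℂ ∖ {0}` -/
structure Coef (k : ℝ) (μ : ℂ → ℂ) : Prop where
  test : IsTest μ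
  van : ∃ ε > 0, ∀ z, ‖z‖ < ε → μ z = 0
  le : ∀ z, ‖μ z‖ ≤ k

/-- the coefficient of `z ↦ 1 / conj (w (1 / conj z))` if `w` has the coefficient `μ` -/
def starC (μ : ℂ → ℂ) (z : ℂ) : ℂ := conj (μ (conj z)⁻¹) * z ^ 2 / (conj z) ^ 2

/-- `w` is a diffeomorphism of the plane with Beltrami coefficient `μ`, normalised by `w 0 = 0`,
`w 1 = 1` -/
structure Nice (μ : ℂ → ℂ) (w : ℂ ≃ₜ ℂ) : Prop where
  smooth : ContDiff ℝ ∞ w
  smooth_symm : ContDiff ℝ ∞ w.symm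
  bel : ∀ z, dzb w z = μ z * dz w z
  ne : ∀ z, dz w z ≠ 0
  zero : w 0 = 0
  one : w 1 = 1
  growth : ∃ C, ∀ z, ‖w z‖ ≤ C * (1 + ‖z‖)
  growth_symm : ∃ C, ∀ z, ‖w.symm z‖ ≤ C * (1 + ‖z‖)

/-- `w` is the holomorphic family of normalised solutions with coefficients `l * α` -/
structure IsFamily (α : ℂ → ℂ) (w : ℂ → (ℂ ≃ₜ ℂ)) : Prop where
  nice : ∀ l : ℂ, ‖l‖ < 1 → Nice (fun z => l * α z) (w l)
  zero : ∀ z, w 0 z = z
  hol : ∀ z, DifferentiableOn ℂ (fun l => w l z) (Metric.ball 0 1)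
  der : ∀ z, deriv (fun l => w l z) 0 = cau α z - (1 - z) * cau α 0 - z * cau α 1

/-- weak quasisymmetry with fixed constants -/
structure WQS (w : ℂ → ℂ) : Prop where
  one : ∀ a b c, ‖b - a‖ ≤ 2 * ‖c - a‖ → ‖w b - w a‖ ≤ 3 * ‖w c - w a‖
  two : ∀ a b c, 4 * ‖b - a‖ ≤ ‖c - a‖ → 2 * ‖w b - w a‖ ≤ ‖w c - w a‖

/-- the boundary values on the unit circle, in the coordinate `x ↦ exp (2πix)`, of a holomorphic
family which is antisymmetric with respect to the unit circle -/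
structure IsTheta (Θ : ℂ → ℝ → ℂ) : Prop where
  zero : ∀ x : ℝ, Θ 0 x = x
  hol : ∀ x, DifferentiableOn ℂ (fun l => Θ l x) (Metric.ball 0 1)
  inj : ∀ l : ℂ, ‖l‖ < 1 → Function.Injective (Θ l)
  per : ∀ l : ℂ, ‖l‖ < 1 → ∀ x, Θ l (x + 1) = Θ l x + 1
  even : ∀ l : ℂ, ‖l‖ < 1 → ∀ x, Θ (-conj l) x = conj (Θ l x)

/-- the point `exp (2πiζ)` -/
def ee (ζ : ℂ) : ℂ := exp (2 * Real.pi * I * ζ)

/-- measurable functions bounded by `1` -/
def Env (α : ℂ → ℂ) : Prop := Measurable α ∧ ∀ z, ‖α z‖ ≤ 1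

/-- increments of the Bloch martingale of the coefficient `α` on the upper half-plane, for the
interval `[a, a + r]` -/
def kk (α : ℂ → ℂ) (a r : ℝ) : ℝ := r / Real.pi *
  (∫ ζ in {ζ : ℂ | 0 < ζ.im}, α ζ / ((ζ - a) * (ζ - (a + r / 2)) * (ζ - (a + r)))).im

/-- the quadratic variation over `T` generations below the interval `[a, a + r]` (halved) -/
def bs (α : ℂ → ℂ) (a r : ℝ) (T : ℕ) : ℝ := ∑ i ∈ Finset.range T,
  (∑ l ∈ Finset.range (2 ^ i), kk α (a + l * (r / 2 ^ i)) (r / 2 ^ i) ^ 2 / 2) / 2 ^ i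

/-- the coefficient in the coordinate `ζ`, `z = exp (2πiζ)` -/
def lft (μ : ℂ → ℂ) (ζ : ℂ) : ℂ := -μ (ee ζ) * conj (ee ζ) / ee ζ

/-- the first variation of the boundary values caused by the restriction of `μ` to the unit disc,
as a function on the closed lower half-plane -/
def vv (μ : ℂ → ℂ) (ζ : ℂ) : ℂ := (2 * Real.pi * I)⁻¹ *
  (cau ((Metric.ball (0 : ℂ) 1).indicator μ) (ee ζ) - cau ((Metric.ball (0 : ℂ) 1).indicator μ) 0) /
    ee ζ

/-- second difference quotient of a function of a real variable on the interval of length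
`2⁻ⁿ` with number `j` -/
def d2 (V : ℝ → ℂ) (n j : ℕ) : ℝ := 2 ^ n *
  (2 * V ((2 * j + 1) / 2 ^ (n + 1)) - V (j / 2 ^ n) - V ((j + 1) / 2 ^ n)).im

end Pool.Agent.QCD
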