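import Pool.Agent.Lib.MP_f30fea_an.Base

/-!
# Periodic coefficients on the half-plane and antisymmetric coefficients on the plane

`μ z = -β (log z / (2πi)) z / conj z` for `0 < ‖z‖ < 1` (`im (log z/(2πi)) = -log ‖z‖/(2π) > 0`; by
periodicity `β (log (ee ζ)/(2πi)) = β ζ`), `μ z = -starC μ z` for `‖z‖ > 1` (i.e.
`μ z = -conj (μ (1/conj z)) z²/(conj z)²`, with `1/conj z` in the punctured disc), `μ z = 0` for `z = 0` and
`‖z‖ = 1`.  `starC μ = -μ`: for `0 < ‖z‖ < 1` apply the definition at `1/conj z` (modulus one factors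
cancel); on the circle and at `0` both sides vanish.
-/

open Complex MeasureTheory Filter Topology Set
open scoped ContDiff ENNReal ComplexConjugate

noncomputable section

namespace Pool.Agent.QCD

/-- the coefficient in the punctured disc -/
private def dn (β : ℂ → ℂ) (z : ℂ) : ℂ := -β (log z / (2 * Real.pi * I)) * z / conj z

open Classical in
/-- the antisymmetric coefficient -/
private def dm (β : ℂ → ℂ) (z : ℂ) : ℂ :=
  if 1 < ‖z‖ then -(conj (dn β (conj z)⁻¹) * z ^ 2 / (conj z) ^ 2)
  else if ‖z‖ < 1 then dn β z else 0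

private theorem dn_meas {β : ℂ → ℂ} (hβ : Measurable β) : Measurable (dn β) := by
  unfold dn
  refine ((((hβ.comp ?_).neg).mul measurable_id).div ?_)
  · exact Complex.measurable_log.div_const _
  · exact Complex.continuous_conj.measurable

private theorem dn_le {β : ℂ → ℂ} (hβ : ∀ z, ‖β z‖ ≤ 1) (z : ℂ) : ‖dn β z‖ ≤ 1 := by
  unfold dn
  rw [norm_div, norm_mul, norm_neg, Complex.norm_conj]
  rcases eq_or_ne ‖z‖ 0 with h | h
  · rw [h]; simp
  · rw [mul_div_assoc, div_self h, mul_one]; exact hβ _

private theorem norm_inv_conj (z : ℂ) : ‖(conj z)⁻¹‖ = ‖z‖⁻¹ := by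
  rw [norm_inv, Complex.norm_conj]

theorem exists_down {β : ℂ → ℂ} (hβ : Env β) (hp : ∀ ζ, β (ζ + 1) = β ζ) :
    ∃ μ, Env μ ∧ (∀ z, starC μ z = -μ z) ∧ ∀ ζ : ℂ, 0 < ζ.im → lft μ ζ = β ζ := by
  classical
  refine ⟨dm β, ⟨?_, ?_⟩, ?_, ?_⟩
  · unfold dm
    refine Measurable.ite (measurableSet_lt measurable_const measurable_norm) ?_
      (Measurable.ite (measurableSet_lt measurable_norm measurable_const) (dn_meas hβ.1)
        measurable_const)
    have hc : Measurable (fun z : ℂ => conj z) := Complex.continuous_conj.measurable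
    have h1 : Measurable (fun z : ℂ => conj (dn β (conj z)⁻¹)) :=
      hc.comp ((dn_meas hβ.1).comp hc.inv)
    exact ((h1.mul (measurable_id.pow_const 2)).div (hc.pow_const 2)).neg
  · intro z
    unfold dm
    split_ifs with h1 h2
    · rw [norm_neg, norm_div, norm_mul, norm_pow, norm_pow, Complex.norm_conj, Complex.norm_conj]
      have h0 : ‖z‖ ^ 2 ≠ 0 := by positivity
      rw [mul_div_assoc, div_self h0, mul_one]
      exact dn_le hβ.2 _
    · exact dn_le hβ.2 _
    · simp
  · intro z
    rcases eq_or_ne z 0 with rfl | hz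
    · simp [starC, dm, dn]
    have hcz : conj z ≠ 0 := (map_ne_zero _).2 hz
    have hpos : 0 < ‖z‖ := norm_pos_iff.2 hz
    rcases lt_trichotomy ‖z‖ 1 with h | h | h
    · have h1 : 1 < ‖(conj z)⁻¹‖ := by
        rw [norm_inv_conj]; exact (one_lt_inv₀ hpos).2 h
      have e1 : dm β (conj z)⁻¹ =
          -(conj (dn β z) * ((conj z)⁻¹) ^ 2 / (z⁻¹) ^ 2) := by
        unfold dm
        rw [if_pos h1]
        simp only [map_inv₀, Complex.conj_conj, inv_inv]
      have e2 : dm β z = dn β z := by
        unfold dm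
        rw [if_neg (not_lt.2 h.le), if_pos h]
      unfold starC
      rw [e1, e2]
      simp only [map_neg, map_div₀, map_mul, map_pow, map_inv₀, Complex.conj_conj]
      field_simp
    · have h1 : ‖(conj z)⁻¹‖ = 1 := by rw [norm_inv_conj, h, inv_one]
      have e1 : dm β (conj z)⁻¹ = 0 := by
        unfold dm
        rw [if_neg (by rw [h1]; exact lt_irrefl _), if_neg (by rw [h1]; exact lt_irrefl _)]
      have e2 : dm β z = 0 := by
        unfold dm
        rw [if_neg (by rw [h]; exact lt_irrefl _), if_neg (by rw [h]; exact lt_irrefl _)]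
      unfold starC
      rw [e1, e2]
      simp
    · have h1 : ‖(conj z)⁻¹‖ < 1 := by
        rw [norm_inv_conj]; exact inv_lt_one_of_one_lt₀ h
      have e1 : dm β (conj z)⁻¹ = dn β (conj z)⁻¹ := by
        unfold dm
        rw [if_neg (not_lt.2 h1.le), if_pos h1]
      have e2 : dm β z = -(conj (dn β (conj z)⁻¹) * z ^ 2 / (conj z) ^ 2) := by
        unfold dm
        rw [if_pos h]
      unfold starC
      rw [e1, e2, neg_neg]
  · intro ζ hζ
    have hne : ee ζ ≠ 0 := Complex.exp_ne_zero _
    have hcne : conj (ee ζ) ≠ 0 := (map_ne_zero _).2 hne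
    have hlt : ‖ee ζ‖ < 1 := by
      unfold ee
      rw [Complex.norm_exp, Real.exp_lt_one_iff]
      have : (2 * (Real.pi : ℂ) * I * ζ).re = -(2 * Real.pi * ζ.im) := by
        simp [Complex.mul_re, Complex.mul_im]
      rw [this]
      have := Real.pi_pos
      nlinarith [mul_pos this hζ]
    have hint : ∀ (n : ℤ) (ζ : ℂ), β (ζ + n) = β ζ := by
      have hper : Function.Periodic β 1 := hp
      intro n ζ
      have := hper.int_mul n ζ
      simpa using this
    have e : dm β (ee ζ) = dn β (ee ζ) := by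
      unfold dm
      rw [if_neg (not_lt.2 hlt.le), if_pos hlt]
    have hlog : ∃ n : ℤ, log (ee ζ) / (2 * Real.pi * I) = ζ + n := by
      obtain ⟨n, hn⟩ := Complex.log_exp_exists (2 * Real.pi * I * ζ)
      refine ⟨n, ?_⟩
      unfold ee
      rw [hn]
      have h2 : (2 * (Real.pi : ℂ) * I) ≠ 0 := Complex.two_pi_I_ne_zero
      field_simp
    have hb : β (log (ee ζ) / (2 * Real.pi * I)) = β ζ := by
      obtain ⟨n, h⟩ := hlog
      rw [h]; exact hint _ _
    unfold lft
    rw [e]
    unfold dn
    rw [hb]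
    field_simp

end Pool.Agent.QCD
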