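import Pool.Agent.Lib.MP_f30fea_an.Base

/-!
# Kernel integrals and scaling

`ker_int`: if `d` is the smallest of the three distances then the two others are at least `‖h‖/2`
and at least `d`, so the integrand is at most `min (4/(‖h‖² d)) (1/d³)`, which is at most the sum of
the values of a radial function at the three distances; the radial function has the integral
`10π/‖h‖`.
`kk_le`: `r/π ∫ 1/(...) ≤ (r/π) C/(r/2)` with `m = a + r/2`, `h = r/2`.
`kk_scale`: substitution `ζ ↦ b + s ζ` (`b` real, `s > 0`), Jacobian `s²`.  `bs_scale` follows.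
`bs_add`: reorganise the double sum: generation `T + i` below `[a, a+r]` is generation `i` below the
`2^T` intervals of generation `T`.
-/

open Complex MeasureTheory Filter Topology Set
open scoped ContDiff ENNReal ComplexConjugate

noncomputable section

namespace Pool.Agent.QCD

/-- the radial majorant -/
private def kG (H t : ℝ) : ℝ := if t ≤ H then 4 / (H ^ 2 * t) else 1 / t ^ 3

private lemma kG_nonneg {H : ℝ} {t : ℝ} (ht : 0 ≤ t) : 0 ≤ kG H t := by
  unfold kG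
  split_ifs <;> positivity

private lemma kG_radial {H : ℝ} (hH : 0 < H) :
    IntegrableOn (fun y : ℝ => y ^ (Module.finrank ℝ ℂ - 1) • kG H y) (Ioi 0) ∧
    ∫ y in Ioi (0 : ℝ), y ^ (Module.finrank ℝ ℂ - 1) • kG H y = 5 / H := by
  have e1 : ∀ y : ℝ, y ∈ Ioi (0 : ℝ) → y ^ (Module.finrank ℝ ℂ - 1) • kG H y =
      (Ioc 0 H).indicator (fun _ : ℝ => 4 / H ^ 2) y + (Ioi H).indicator (fun y : ℝ => y ^ (-2 : ℝ)) y := by
    intro y hy
    have hy0 : (0 : ℝ) < y := hy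
    simp only [Complex.finrank_real_complex, kG, indicator, Set.mem_Ioc, Set.mem_Ioi, hy0,
      true_and, smul_eq_mul]
    by_cases h : y ≤ H
    · rw [if_pos h, if_pos h, if_neg (not_lt.2 h)]
      field_simp
      norm_num
    · rw [if_neg h, if_neg h, if_pos (not_le.1 h), Real.rpow_neg hy0.le]
      have : y ^ (2 : ℝ) = y ^ 2 := by
        rw [← Real.rpow_natCast]; norm_num
      rw [this]
      field_simp
      norm_num
  have i1 : Integrable ((Ioc 0 H).indicator (fun _ : ℝ => 4 / H ^ 2)) := by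
    refine IntegrableOn.integrable_indicator ?_ measurableSet_Ioc
    exact integrableOn_const (by rw [Real.volume_Ioc]; exact ENNReal.ofReal_ne_top)
  have i2 : Integrable ((Ioi H).indicator (fun y : ℝ => y ^ (-2 : ℝ))) :=
    (integrableOn_Ioi_rpow_of_lt (by norm_num) hH).integrable_indicator measurableSet_Ioi
  constructor
  · refine ((i1.add i2).integrableOn (s := Ioi (0 : ℝ))).congr_fun (fun y hy => ?_) measurableSet_Ioi
    exact (e1 y hy).symm
  · rw [setIntegral_congr_fun measurableSet_Ioi e1,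
      integral_add i1.integrableOn i2.integrableOn, setIntegral_indicator measurableSet_Ioc,
      setIntegral_indicator measurableSet_Ioi]
    have h1 : (Ioi (0 : ℝ)) ∩ Ioc 0 H = Ioc 0 H :=
      Set.inter_eq_self_of_subset_right Set.Ioc_subset_Ioi_self
    have h2 : (Ioi (0 : ℝ)) ∩ Ioi H = Ioi H :=
      Set.inter_eq_self_of_subset_right (Set.Ioi_subset_Ioi hH.le)
    rw [h1, h2, integral_Ioi_rpow_of_lt (by norm_num) hH, setIntegral_const,
      Real.volume_real_Ioc_of_le hH.le]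
    have h3 : H ^ ((-2 : ℝ) + 1) = H⁻¹ := by
      rw [show (-2 : ℝ) + 1 = -1 by norm_num, Real.rpow_neg_one]
    rw [h3, smul_eq_mul]
    field_simp
    norm_num
    ring

private lemma kG_int {H : ℝ} (hH : 0 < H) :
    Integrable (fun ζ : ℂ => kG H ‖ζ‖) ∧ ∫ ζ : ℂ, kG H ‖ζ‖ = 10 * Real.pi / H := by
  obtain ⟨h1, h2⟩ := kG_radial hH
  constructor
  · rw [integrable_fun_norm_addHaar (μ := (volume : Measure ℂ)) (f := kG H)]
    exact h1
  · rw [integral_fun_norm_addHaar (μ := (volume : Measure ℂ)) (f := kG H), h2]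
    have h4 : (volume : Measure ℂ).real (Metric.ball 0 1) = Real.pi := by
      rw [Measure.real, Complex.volume_ball]
      simp
    rw [h4]
    simp only [Complex.finrank_real_complex, smul_eq_mul, nsmul_eq_mul]
    push_cast
    ring

private lemma kG_sub {H : ℝ} (hH : 0 < H) (p : ℂ) :
    Integrable (fun ζ : ℂ => kG H ‖ζ - p‖) ∧ ∫ ζ : ℂ, kG H ‖ζ - p‖ = 10 * Real.pi / H := by
  obtain ⟨h1, h2⟩ := kG_int hH
  exact ⟨h1.comp_sub_right p, by rw [← h2]; exact integral_sub_right_eq_self (fun ζ : ℂ => kG H ‖ζ‖) p⟩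

/-- the smallest distance -/
private lemma kG_one {H d x y : ℝ} (hH : 0 < H) (hd : 0 ≤ d) (h1 : d ≤ x) (h2 : d ≤ y)
    (h3 : H / 2 ≤ x) (h4 : H / 2 ≤ y) : 1 / (d * x * y) ≤ kG H d := by
  rcases hd.eq_or_lt with hd0 | hd0
  · rw [← hd0]
    simp [kG_nonneg]
  · unfold kG
    split_ifs with h
    · have h5 : H ^ 2 * d / 4 ≤ d * x * y := by
        have : H / 2 * (H / 2) ≤ x * y := mul_le_mul h3 h4 (by positivity) (by linarith)
        nlinarith
      calc 1 / (d * x * y) ≤ 1 / (H ^ 2 * d / 4) :=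
            one_div_le_one_div_of_le (by positivity) h5
        _ = _ := by field_simp
    · apply one_div_le_one_div_of_le (by positivity)
      have h5 : d * d ≤ x * y := mul_le_mul h1 h2 hd (by linarith)
      nlinarith

private lemma ker_le {m h : ℂ} (hh : h ≠ 0) (ζ : ℂ) :
    1 / (‖ζ - m‖ * ‖ζ - (m + h)‖ * ‖ζ - (m - h)‖) ≤
      kG ‖h‖ ‖ζ - m‖ + kG ‖h‖ ‖ζ - (m + h)‖ + kG ‖h‖ ‖ζ - (m - h)‖ := by
  have hH : 0 < ‖h‖ := norm_pos_iff.2 hh
  set a := ‖ζ - m‖ with ha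
  set b := ‖ζ - (m + h)‖ with hb
  set c := ‖ζ - (m - h)‖ with hc
  have ha0 : 0 ≤ a := norm_nonneg _
  have hb0 : 0 ≤ b := norm_nonneg _
  have hc0 : 0 ≤ c := norm_nonneg _
  have hab : ‖h‖ ≤ a + b := by
    have : h = (ζ - m) - (ζ - (m + h)) := by ring
    calc ‖h‖ = ‖(ζ - m) - (ζ - (m + h))‖ := by rw [← this]
      _ ≤ _ := norm_sub_le _ _
  have hac : ‖h‖ ≤ a + c := by
    have : -h = (ζ - m) - (ζ - (m - h)) := by ring
    calc ‖h‖ = ‖-h‖ := (norm_neg h).symm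
      _ = ‖(ζ - m) - (ζ - (m - h))‖ := by rw [← this]
      _ ≤ _ := norm_sub_le _ _
  have hbc : 2 * ‖h‖ ≤ b + c := by
    have : 2 * h = (ζ - (m - h)) - (ζ - (m + h)) := by ring
    calc 2 * ‖h‖ = ‖2 * h‖ := by simp
      _ = ‖(ζ - (m - h)) - (ζ - (m + h))‖ := by rw [← this]
      _ ≤ c + b := norm_sub_le _ _
      _ = _ := add_comm _ _
  have g1 := kG_nonneg (H := ‖h‖) ha0
  have g2 := kG_nonneg (H := ‖h‖) hb0
  have g3 := kG_nonneg (H := ‖h‖) hc0
  rcases le_total a b with h1 | h1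
  · rcases le_total a c with h2 | h2
    · -- a is the smallest
      have := kG_one hH ha0 h1 h2 (by linarith) (by linarith)
      linarith
    · -- c is the smallest
      have := kG_one hH hc0 h2 (h2.trans h1) (by linarith) (by linarith)
      have e : c * a * b = a * b * c := by ring
      rw [e] at this
      linarith
  · rcases le_total b c with h2 | h2
    · have := kG_one hH hb0 h1 h2 (by linarith) (by linarith)
      have e : b * a * c = a * b * c := by ring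
      rw [e] at this
      linarith
    · have := kG_one hH hc0 (h2.trans h1) h2 (by linarith) (by linarith)
      have e : c * a * b = a * b * c := by ring
      rw [e] at this
      linarith

theorem ker_int : ∃ C : ℝ, 0 ≤ C ∧ ∀ m h : ℂ, h ≠ 0 →
    Integrable (fun ζ : ℂ => 1 / (‖ζ - m‖ * ‖ζ - (m + h)‖ * ‖ζ - (m - h)‖)) ∧
    ∫ ζ : ℂ, 1 / (‖ζ - m‖ * ‖ζ - (m + h)‖ * ‖ζ - (m - h)‖) ≤ C / ‖h‖ := by
  refine ⟨30 * Real.pi, by positivity, fun m h hh => ?_⟩
  have hH : 0 < ‖h‖ := norm_pos_iff.2 hh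
  obtain ⟨i1, e1⟩ := kG_sub hH m
  obtain ⟨i2, e2⟩ := kG_sub hH (m + h)
  obtain ⟨i3, e3⟩ := kG_sub hH (m - h)
  have hi : Integrable (fun ζ : ℂ => kG ‖h‖ ‖ζ - m‖ + kG ‖h‖ ‖ζ - (m + h)‖ +
      kG ‖h‖ ‖ζ - (m - h)‖) := (i1.add i2).add i3
  have i12 : Integrable (fun ζ : ℂ => kG ‖h‖ ‖ζ - m‖ + kG ‖h‖ ‖ζ - (m + h)‖) := i1.add i2
  have hm : Measurable (fun ζ : ℂ => 1 / (‖ζ - m‖ * ‖ζ - (m + h)‖ * ‖ζ - (m - h)‖)) := by
    fun_prop
  have hint : Integrable (fun ζ : ℂ => 1 / (‖ζ - m‖ * ‖ζ - (m + h)‖ * ‖ζ - (m - h)‖)) := by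
    refine hi.mono' hm.aestronglyMeasurable (Eventually.of_forall fun ζ => ?_)
    rw [Real.norm_of_nonneg (by positivity)]
    exact ker_le hh ζ
  refine ⟨hint, (integral_mono hint hi fun ζ => ker_le hh ζ).trans (le_of_eq ?_)⟩
  rw [integral_add i12 i3, integral_add i1 i2, e1, e2, e3]
  ring

theorem kk_le : ∃ C : ℝ, 0 ≤ C ∧ ∀ α, Env α → ∀ a r : ℝ, 0 < r → |kk α a r| ≤ C := by
  obtain ⟨C, hC, hk⟩ := ker_int
  refine ⟨2 * C / Real.pi, by positivity, fun α hα a r hr => ?_⟩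
  have hh : ((r / 2 : ℝ) : ℂ) ≠ 0 := by
    exact_mod_cast (by positivity : (r / 2 : ℝ) ≠ 0)
  obtain ⟨hi, hle⟩ := hk ((a + r / 2 : ℝ) : ℂ) ((r / 2 : ℝ) : ℂ) hh
  have hnorm : ‖((r / 2 : ℝ) : ℂ)‖ = r / 2 := by
    rw [Complex.norm_real, Real.norm_of_nonneg (by positivity)]
  rw [hnorm] at hle
  have hpt : ∀ ζ : ℂ, ‖α ζ / ((ζ - a) * (ζ - (a + r / 2)) * (ζ - (a + r)))‖ ≤
      1 / (‖ζ - ((a + r / 2 : ℝ) : ℂ)‖ * ‖ζ - (((a + r / 2 : ℝ) : ℂ) + ((r / 2 : ℝ) : ℂ))‖ *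
        ‖ζ - (((a + r / 2 : ℝ) : ℂ) - ((r / 2 : ℝ) : ℂ))‖) := by
    intro ζ
    have e1 : ((a + r / 2 : ℝ) : ℂ) + ((r / 2 : ℝ) : ℂ) = a + r := by push_cast; ring
    have e2 : ((a + r / 2 : ℝ) : ℂ) - ((r / 2 : ℝ) : ℂ) = a := by push_cast; ring
    have e3 : ((a + r / 2 : ℝ) : ℂ) = a + r / 2 := by push_cast; ring
    rw [e1, e2, e3, norm_div, norm_mul, norm_mul]
    have e4 : ‖ζ - ↑a‖ * ‖ζ - (↑a + ↑r / 2)‖ * ‖ζ - (↑a + ↑r)‖ =
        ‖ζ - (↑a + ↑r / 2)‖ * ‖ζ - (↑a + ↑r)‖ * ‖ζ - ↑a‖ := by ring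
    rw [e4]
    exact div_le_div_of_nonneg_right (hα.2 ζ) (by positivity)
  have h1 : ‖∫ ζ in {ζ : ℂ | 0 < ζ.im}, α ζ / ((ζ - a) * (ζ - (a + r / 2)) * (ζ - (a + r)))‖ ≤
      C / (r / 2) := by
    refine (norm_integral_le_of_norm_le hi.integrableOn
      (Eventually.of_forall fun ζ => hpt ζ)).trans ?_
    refine le_trans ?_ hle
    exact setIntegral_le_integral hi (Eventually.of_forall fun ζ => by positivity)
  unfold kk
  rw [abs_mul, abs_of_pos (by positivity)]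
  calc r / Real.pi * |(∫ ζ in {ζ : ℂ | 0 < ζ.im},
        α ζ / ((ζ - a) * (ζ - (a + r / 2)) * (ζ - (a + r)))).im| ≤ r / Real.pi * (C / (r / 2)) :=
        mul_le_mul_of_nonneg_left ((Complex.abs_im_le_norm _).trans h1) (by positivity)
    _ = 2 * C / Real.pi := by field_simp

theorem kk_scale (α : ℂ → ℂ) (a r b s : ℝ) (hs : 0 < s) :
    kk (fun ζ => α (b + s * ζ)) a r = kk α (b + s * a) (s * r) := by
  set F : ℂ → ℂ := {ζ : ℂ | 0 < ζ.im}.indicator fun ζ =>
    α ζ / ((ζ - (b + s * a : ℝ)) * (ζ - ((b + s * a : ℝ) + (s * r : ℝ) / 2)) *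
      (ζ - ((b + s * a : ℝ) + (s * r : ℝ)))) with hF
  have hmeas : MeasurableSet {ζ : ℂ | 0 < ζ.im} :=
    (isOpen_lt continuous_const Complex.continuous_im).measurableSet
  have hs' : (s : ℂ) ≠ 0 := by exact_mod_cast hs.ne'
  have h1 : ∀ ζ : ℂ, {ζ : ℂ | 0 < ζ.im}.indicator (fun ζ =>
      α (b + s * ζ) / ((ζ - a) * (ζ - (a + r / 2)) * (ζ - (a + r)))) ζ =
      (s : ℂ) ^ 3 * F ((b : ℂ) + s • ζ) := by
    intro ζ
    have him : ((b : ℂ) + s • ζ).im = s * ζ.im := by simp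
    rw [hF]
    by_cases h : 0 < ζ.im
    · rw [indicator_of_mem (show ζ ∈ {ζ : ℂ | 0 < ζ.im} from h), indicator_of_mem (by
        show 0 < ((b : ℂ) + s • ζ).im
        rw [him]; positivity)]
      have e1 : ((b : ℂ) + s • ζ - ((b + s * a : ℝ) : ℂ)) = s * (ζ - a) := by
        rw [Complex.real_smul]; push_cast; ring
      have e2 : ((b : ℂ) + s • ζ - (((b + s * a : ℝ) : ℂ) + ((s * r : ℝ) : ℂ) / 2)) =
          s * (ζ - (a + r / 2)) := by
        rw [Complex.real_smul]; push_cast; ring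
      have e3 : ((b : ℂ) + s • ζ - (((b + s * a : ℝ) : ℂ) + ((s * r : ℝ) : ℂ))) =
          s * (ζ - (a + r)) := by
        rw [Complex.real_smul]; push_cast; ring
      rw [e1, e2, e3, Complex.real_smul]
      have e4 : (s : ℂ) * (ζ - a) * (s * (ζ - (a + r / 2))) * (s * (ζ - (a + r))) =
          (s : ℂ) ^ 3 * ((ζ - a) * (ζ - (a + r / 2)) * (ζ - (a + r))) := by ring
      rw [e4, div_mul_eq_div_div, div_right_comm, mul_div_assoc']
      field_simp
    · rw [indicator_of_notMem (show ζ ∉ {ζ : ℂ | 0 < ζ.im} from h), indicator_of_notMem (by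
        show ¬ 0 < ((b : ℂ) + s • ζ).im
        rw [him]
        intro h'
        exact h ((mul_pos_iff_of_pos_left hs).1 h')), mul_zero]
  have h2 : ∫ ζ in {ζ : ℂ | 0 < ζ.im},
      α (b + s * ζ) / ((ζ - a) * (ζ - (a + r / 2)) * (ζ - (a + r))) =
      s * ∫ ζ, F ζ := by
    rw [← integral_indicator hmeas]
    simp only [h1]
    rw [integral_const_mul, Measure.integral_comp_smul volume (fun ζ => F ((b : ℂ) + ζ)) s,
      integral_add_left_eq_self F (b : ℂ), Complex.finrank_real_complex,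
      abs_of_pos (by positivity), Complex.real_smul]
    push_cast
    field_simp
  have h3 : ∫ ζ, F ζ = ∫ ζ in {ζ : ℂ | 0 < ζ.im},
      α ζ / ((ζ - (b + s * a : ℝ)) * (ζ - ((b + s * a : ℝ) + (s * r : ℝ) / 2)) *
        (ζ - ((b + s * a : ℝ) + (s * r : ℝ)))) := by
    rw [hF, integral_indicator hmeas]
  unfold kk
  rw [h2, h3, Complex.im_ofReal_mul]
  ring

theorem bs_scale (α : ℂ → ℂ) (a r b s : ℝ) (hs : 0 < s) (T : ℕ) :
    bs (fun ζ => α (b + s * ζ)) a r T = bs α (b + s * a) (s * r) T := by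
  unfold bs
  refine Finset.sum_congr rfl fun i _ => ?_
  congr 1
  refine Finset.sum_congr rfl fun l _ => ?_
  rw [kk_scale α _ _ b s hs]
  congr 3
  · ring
  · ring

theorem bs_nonneg (α : ℂ → ℂ) (a r : ℝ) (T : ℕ) : 0 ≤ bs α a r T := by
  unfold bs
  exact Finset.sum_nonneg fun i _ => div_nonneg (Finset.sum_nonneg fun l _ => by positivity)
    (by positivity)

theorem bs_mono (α : ℂ → ℂ) (a r : ℝ) {T S : ℕ} (h : T ≤ S) : bs α a r T ≤ bs α a r S := by
  unfold bs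
  apply Finset.sum_le_sum_of_subset_of_nonneg (Finset.range_mono h)
  intro i _ _
  exact div_nonneg (Finset.sum_nonneg fun l _ => by positivity) (by positivity)

theorem bs_le : ∃ C : ℝ, 0 ≤ C ∧ ∀ α, Env α → ∀ a r : ℝ, 0 < r → ∀ T : ℕ, bs α a r T ≤ C * T := by
  obtain ⟨C, hC, hk⟩ := kk_le
  refine ⟨C ^ 2 / 2, by positivity, fun α hα a r hr T => ?_⟩
  unfold bs
  have h1 : ∀ i ∈ Finset.range T, (∑ l ∈ Finset.range (2 ^ i),
      kk α (a + l * (r / 2 ^ i)) (r / 2 ^ i) ^ 2 / 2) / 2 ^ i ≤ C ^ 2 / 2 := by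
    intro i _
    rw [div_le_iff₀ (by positivity)]
    have h2 : ∀ l ∈ Finset.range (2 ^ i), kk α (a + l * (r / 2 ^ i)) (r / 2 ^ i) ^ 2 / 2 ≤
        C ^ 2 / 2 := by
      intro l _
      have h3 := hk α hα (a + l * (r / 2 ^ i)) (r / 2 ^ i) (by positivity)
      have h4 : kk α (a + l * (r / 2 ^ i)) (r / 2 ^ i) ^ 2 ≤ C ^ 2 := by
        rw [← sq_abs]
        gcongr
      linarith
    refine (Finset.sum_le_sum h2).trans (le_of_eq ?_)
    rw [Finset.sum_const, Finset.card_range, nsmul_eq_mul]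
    push_cast
    ring
  refine (Finset.sum_le_sum h1).trans (le_of_eq ?_)
  rw [Finset.sum_const, Finset.card_range, nsmul_eq_mul]
  ring

private lemma ker_sum_mul (f : ℕ → ℝ) (m k : ℕ) : ∑ l ∈ Finset.range (m * k), f l =
    ∑ l₁ ∈ Finset.range m, ∑ l₂ ∈ Finset.range k, f (l₁ * k + l₂) := by
  induction m with
  | zero => simp
  | succ m ih =>
    rw [Nat.succ_mul, Finset.sum_range_add, ih, Finset.sum_range_succ]

theorem bs_add (α : ℂ → ℂ) (a r : ℝ) (T S : ℕ) : bs α a r (T + S) = bs α a r T +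
    (∑ l ∈ Finset.range (2 ^ T), bs α (a + l * (r / 2 ^ T)) (r / 2 ^ T) S) / 2 ^ T := by
  unfold bs
  rw [Finset.sum_range_add]
  congr 1
  rw [Finset.sum_comm, Finset.sum_div]
  refine Finset.sum_congr rfl fun i _ => ?_
  rw [pow_add 2 T i, ker_sum_mul, ← Finset.sum_div, div_div, mul_comm ((2 : ℝ) ^ i)]
  push_cast
  rw [pow_add]
  congr 1
  refine Finset.sum_congr rfl fun l₁ _ => Finset.sum_congr rfl fun l₂ _ => ?_
  have e1 : a + (l₁ * 2 ^ i + l₂ : ℝ) * (r / (2 ^ T * 2 ^ i)) =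
      a + l₁ * (r / 2 ^ T) + l₂ * (r / 2 ^ T / 2 ^ i) := by
    field_simp
    ring
  have e2 : r / (2 ^ T * 2 ^ i) = r / 2 ^ T / 2 ^ i := by
    rw [div_div]
  rw [e1, e2]

end Pool.Agent.QCD
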