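import Pool.Agent.Lib.MP_f30fea_an.Base
import Pool.Agent.Lib.MP_f30fea_an.Ker

/-!
# The influence of the coefficient outside a block

For an interval `I = [a, a+r]`, `a = j/2^i`, `r = 2^{-i}`, `i < T`, `m = a + r/2`, `b = a + r`:
`|kk α a r - kk β a r| ≤ (2r/π) ∫_Ω 1/(‖ζ-a‖‖ζ-m‖‖ζ-b‖)`, where `Ω` is the set of `ζ` with `im ζ > 0` and
(`im ζ ≤ δ`, `δ = 2^{-T}`, or `im ζ > 1`, or `re ζ < 0`, or `re ζ ≥ 1`), and `|x² - y²|/2 ≤ C |x - y|` (`kk_le`).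
(1) strip `0 < im ζ ≤ δ`: `r ∫ ≤ C √(δ/r)`.  (Scale to `r = 1`, `m = 0`-type; near a singular point
`1/‖ζ‖ ≤ y^{-1/2} |x|^{-1/2}` and `∫_0^δ y^{-1/2} dy = 2√δ`; far away `≤ δ` times an integrable function of `x`.)
Sum over `i < T`: `∑ √(2^{-(T-i)}) ≤ C`.
(2) `im ζ > 1`: `‖ζ-b‖, ‖ζ-m‖ ≥ ‖ζ-a‖/2` (as `r ≤ 1`), so `r ∫ ≤ C r`.  Sum: `∑ 2^{-i} ≤ 2`.
(3) `re ζ < 0`: `‖ζ-a‖ ≤ ‖ζ-m‖ ≤ ‖ζ-b‖`.  For `j = 0`: `r ∫ ≤ C` (`ker_int`).  For `j ≥ 1`:
`r ∫_{‖ζ-a‖ ≥ a} ‖ζ-a‖⁻³ = 2π r/a = 2π/j`.  Sum over `j < 2^i` with weight `2^{-i}`: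
`2^{-i} (C + 2π ∑_{1≤j<2^i} 1/j) ≤ C' 2^{-i} 2^{i/2}` (`∑_{1≤j≤N} 1/j ≤ 2√N`), summable.
(4) `re ζ ≥ 1`: symmetric.
-/

open Complex MeasureTheory Filter Topology Set
open scoped ContDiff ENNReal ComplexConjugate

noncomputable section

namespace Pool.Agent.QCD

/-! ### One variable -/

private def iPhi (p q t : ℝ) : ℝ := |t| ^ (-p) * (max |t| (1 / 4)) ^ (-q)

private theorem infl_abs {f : ℝ → ℝ} (hf : IntegrableOn f (Ioi 0)) :
    Integrable (fun x => f |x|) := by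
  have hf' : IntegrableOn (fun x => f |x|) (Ioi 0) := by
    refine hf.congr_fun (fun x hx => ?_) measurableSet_Ioi
    rw [abs_of_pos (show 0 < x from hx)]
  have hI : IntegrableOn (fun x ↦ f |x|) (Iic 0) := by
    rw [← Measure.map_neg_eq_self (volume : Measure ℝ)]
    let m : MeasurableEmbedding fun x : ℝ => -x := (Homeomorph.neg ℝ).measurableEmbedding
    rw [m.integrableOn_map_iff]
    simp_rw [Function.comp_def, abs_neg, neg_preimage, neg_Iic, neg_zero]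
    exact Iff.mpr integrableOn_Ici_iff_integrableOn_Ioi hf'
  have := hI.union hf'
  rwa [Iic_union_Ioi, integrableOn_univ] at this

private theorem iPhi_int {p q : ℝ} (hp : p < 1) (hpq : 1 < p + q) : Integrable (iPhi p q) := by
  refine infl_abs (f := fun s => s ^ (-p) * (max s (1 / 4)) ^ (-q)) ?_
  have h1 : IntegrableOn (fun s : ℝ => s ^ (-p) * (max s (1 / 4)) ^ (-q)) (Ioc 0 (1 / 4)) := by
    have h2 : IntegrableOn (fun s : ℝ => s ^ (-p) * (1 / 4) ^ (-q)) (Ioc 0 (1 / 4)) := by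
      refine Integrable.mul_const ?_ _
      exact (intervalIntegrable_iff_integrableOn_Ioc_of_le (by norm_num)).1
        (intervalIntegral.intervalIntegrable_rpow' (by linarith))
    refine h2.congr_fun (fun x hx => ?_) measurableSet_Ioc
    simp only
    rw [max_eq_right hx.2]
  have h3 : IntegrableOn (fun s : ℝ => s ^ (-p) * (max s (1 / 4)) ^ (-q)) (Ioi (1 / 4)) := by
    have h2 : IntegrableOn (fun s : ℝ => s ^ (-p + -q)) (Ioi (1 / 4)) :=
      integrableOn_Ioi_rpow_of_lt (by linarith) (by norm_num)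
    refine h2.congr_fun (fun x hx => ?_) measurableSet_Ioi
    have hx' : (1 / 4 : ℝ) < x := hx
    simp only
    rw [max_eq_left hx'.le, Real.rpow_add (by linarith)]
  have h4 := h1.union h3
  rwa [Ioc_union_Ioi_eq_Ioi (by norm_num)] at h4

/-! ### The kernels -/

private def iK (ξ : ℂ) : ℝ := 1 / (‖ξ‖ * (max ‖ξ‖ (1 / 4)) ^ 2)
private def iA (ξ : ℂ) : ℝ := iK ξ / √|ξ.im|
private def iB (ξ : ℂ) : ℝ := iK ξ * √(1 + ‖ξ‖)

private theorem iK_nonneg (ξ : ℂ) : 0 ≤ iK ξ := by unfold iK; positivity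
private theorem iA_nonneg (ξ : ℂ) : 0 ≤ iA ξ := div_nonneg (iK_nonneg ξ) (Real.sqrt_nonneg _)
private theorem iB_nonneg (ξ : ℂ) : 0 ≤ iB ξ := mul_nonneg (iK_nonneg ξ) (Real.sqrt_nonneg _)

private theorem iK_meas : Measurable iK := by unfold iK; fun_prop
private theorem iA_meas : Measurable iA := by
  unfold iA
  exact iK_meas.div (Real.continuous_sqrt.measurable.comp
    (continuous_abs.measurable.comp Complex.measurable_im))
private theorem iB_meas : Measurable iB := by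
  unfold iB
  exact iK_meas.mul (Real.continuous_sqrt.measurable.comp (measurable_norm.const_add 1))

private theorem infl_re_ne : ∀ᵐ ξ : ℂ, ξ.re ≠ 0 := by
  rw [ae_iff]
  have h1 : {a : ℂ | ¬ a.re ≠ 0} = ((LinearMap.ker Complex.reLm : Submodule ℝ ℂ) : Set ℂ) := by
    ext z
    simp
  rw [h1]
  refine Measure.addHaar_submodule volume _ fun h => ?_
  have h2 : (1 : ℂ) ∈ LinearMap.ker Complex.reLm := by rw [h]; trivial
  rw [LinearMap.mem_ker] at h2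
  simp at h2

private theorem infl_im_ne : ∀ᵐ ξ : ℂ, ξ.im ≠ 0 := by
  rw [ae_iff]
  have h1 : {a : ℂ | ¬ a.im ≠ 0} = ((LinearMap.ker Complex.imLm : Submodule ℝ ℂ) : Set ℂ) := by
    ext z
    simp
  rw [h1]
  refine Measure.addHaar_submodule volume _ fun h => ?_
  have h2 : I ∈ LinearMap.ker Complex.imLm := by rw [h]; trivial
  rw [LinearMap.mem_ker] at h2
  simp at h2

private theorem infl_prod {f g : ℝ → ℝ} (hf : Integrable f) (hg : Integrable g) :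
    Integrable (fun ξ : ℂ => f ξ.re * g ξ.im) := by
  have h1 : Integrable (fun z : ℝ × ℝ => f z.1 * g z.2) (volume.prod volume) := hf.mul_prod hg
  have h2 := (Complex.volume_preserving_equiv_real_prod.integrable_comp_emb
    Complex.measurableEquivRealProd.measurableEmbedding).2 h1
  exact h2

private theorem iA_int : Integrable iA := by
  refine Integrable.mono' (infl_prod (iPhi_int (p := 3 / 4) (q := 1) (by norm_num) (by norm_num))
    (iPhi_int (p := 3 / 4) (q := 1) (by norm_num) (by norm_num))) iA_meas.aestronglyMeasurable ?_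
  filter_upwards [infl_re_ne, infl_im_ne] with ξ h1 h2
  rw [Real.norm_of_nonneg (iA_nonneg ξ)]
  have hX : 0 < |ξ.re| := abs_pos.mpr h1
  have hY : 0 < |ξ.im| := abs_pos.mpr h2
  have hn1 : |ξ.re| ≤ ‖ξ‖ := Complex.abs_re_le_norm ξ
  have hn2 : |ξ.im| ≤ ‖ξ‖ := Complex.abs_im_le_norm ξ
  have hn : 0 < ‖ξ‖ := hX.trans_le hn1
  unfold iA iK iPhi
  set X := |ξ.re|
  set Y := |ξ.im|
  set n := ‖ξ‖
  have hMx : 0 < max X (1 / 4) := lt_max_of_lt_left hX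
  have hMy : 0 < max Y (1 / 4) := lt_max_of_lt_left hY
  have h3 : X ^ (3 / 4 : ℝ) * Y ^ (1 / 4 : ℝ) ≤ n := by
    calc X ^ (3 / 4 : ℝ) * Y ^ (1 / 4 : ℝ) ≤ n ^ (3 / 4 : ℝ) * n ^ (1 / 4 : ℝ) :=
          mul_le_mul (Real.rpow_le_rpow hX.le hn1 (by norm_num))
            (Real.rpow_le_rpow hY.le hn2 (by norm_num)) (by positivity) (by positivity)
      _ = n := by
          rw [← Real.rpow_add hn]
          norm_num
  have h4 : max X (1 / 4) * max Y (1 / 4) ≤ (max n (1 / 4)) ^ 2 := by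
    rw [sq]
    exact mul_le_mul (max_le_max_right _ hn1) (max_le_max_right _ hn2) hMy.le
      (le_max_of_le_left hn.le)
  have h5 : (X ^ (3 / 4 : ℝ) * max X (1 / 4)) * (Y ^ (3 / 4 : ℝ) * max Y (1 / 4)) ≤
      (n * (max n (1 / 4)) ^ 2) * √Y := by
    have e1 : Y ^ (3 / 4 : ℝ) = Y ^ (1 / 4 : ℝ) * √Y := by
      rw [Real.sqrt_eq_rpow, ← Real.rpow_add hY]
      norm_num
    rw [e1]
    calc X ^ (3 / 4 : ℝ) * max X (1 / 4) * (Y ^ (1 / 4 : ℝ) * √Y * max Y (1 / 4))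
        = (X ^ (3 / 4 : ℝ) * Y ^ (1 / 4 : ℝ)) * (max X (1 / 4) * max Y (1 / 4)) * √Y := by ring
      _ ≤ (n * (max n (1 / 4)) ^ 2) * √Y := by
          refine mul_le_mul_of_nonneg_right ?_ (Real.sqrt_nonneg _)
          exact mul_le_mul h3 h4 (by positivity) hn.le
  rw [div_div, Real.rpow_neg hX.le, Real.rpow_neg hY.le, Real.rpow_neg hMx.le,
    Real.rpow_neg hMy.le, Real.rpow_one, Real.rpow_one, ← mul_inv, ← mul_inv, ← mul_inv, one_div]
  exact inv_anti₀ (by positivity) h5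

private theorem iB_int : Integrable iB := by
  refine Integrable.mono' ((infl_prod (iPhi_int (p := 1 / 2) (q := 3 / 4) (by norm_num)
    (by norm_num)) (iPhi_int (p := 1 / 2) (q := 3 / 4) (by norm_num) (by norm_num))).const_mul
      (√5)) iB_meas.aestronglyMeasurable ?_
  filter_upwards [infl_re_ne, infl_im_ne] with ξ h1 h2
  rw [Real.norm_of_nonneg (iB_nonneg ξ)]
  have hX : 0 < |ξ.re| := abs_pos.mpr h1
  have hY : 0 < |ξ.im| := abs_pos.mpr h2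
  have hn1 : |ξ.re| ≤ ‖ξ‖ := Complex.abs_re_le_norm ξ
  have hn2 : |ξ.im| ≤ ‖ξ‖ := Complex.abs_im_le_norm ξ
  have hn : 0 < ‖ξ‖ := hX.trans_le hn1
  unfold iB iK iPhi
  set X := |ξ.re|
  set Y := |ξ.im|
  set n := ‖ξ‖
  have hMx : 0 < max X (1 / 4) := lt_max_of_lt_left hX
  have hMy : 0 < max Y (1 / 4) := lt_max_of_lt_left hY
  have hM : 0 < max n (1 / 4) := lt_max_of_lt_left hn
  have h3 : X ^ (1 / 2 : ℝ) * Y ^ (1 / 2 : ℝ) ≤ n := by
    calc X ^ (1 / 2 : ℝ) * Y ^ (1 / 2 : ℝ) ≤ n ^ (1 / 2 : ℝ) * n ^ (1 / 2 : ℝ) :=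
          mul_le_mul (Real.rpow_le_rpow hX.le hn1 (by norm_num))
            (Real.rpow_le_rpow hY.le hn2 (by norm_num)) (by positivity) (by positivity)
      _ = n := by
          rw [← Real.rpow_add hn]
          norm_num
  have h4 : max X (1 / 4) ^ (3 / 4 : ℝ) * max Y (1 / 4) ^ (3 / 4 : ℝ) ≤
      (max n (1 / 4)) ^ (3 / 2 : ℝ) := by
    calc max X (1 / 4) ^ (3 / 4 : ℝ) * max Y (1 / 4) ^ (3 / 4 : ℝ)
        ≤ max n (1 / 4) ^ (3 / 4 : ℝ) * max n (1 / 4) ^ (3 / 4 : ℝ) :=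
          mul_le_mul (Real.rpow_le_rpow hMx.le (max_le_max_right _ hn1) (by norm_num))
            (Real.rpow_le_rpow hMy.le (max_le_max_right _ hn2) (by norm_num)) (by positivity)
            (by positivity)
      _ = _ := by
          rw [← Real.rpow_add hM]
          norm_num
  have h5 : √(1 + n) ≤ √5 * max n (1 / 4) ^ (1 / 2 : ℝ) := by
    rw [← Real.sqrt_eq_rpow, ← Real.sqrt_mul (by norm_num)]
    refine Real.sqrt_le_sqrt ?_
    rcases le_total n (1 / 4) with h | h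
    · rw [max_eq_right h]
      linarith
    · rw [max_eq_left h]
      linarith
  have h6 : (X ^ (1 / 2 : ℝ) * max X (1 / 4) ^ (3 / 4 : ℝ)) *
      (Y ^ (1 / 2 : ℝ) * max Y (1 / 4) ^ (3 / 4 : ℝ)) ≤ n * max n (1 / 4) ^ (3 / 2 : ℝ) := by
    calc (X ^ (1 / 2 : ℝ) * max X (1 / 4) ^ (3 / 4 : ℝ)) *
          (Y ^ (1 / 2 : ℝ) * max Y (1 / 4) ^ (3 / 4 : ℝ))
        = (X ^ (1 / 2 : ℝ) * Y ^ (1 / 2 : ℝ)) *
          (max X (1 / 4) ^ (3 / 4 : ℝ) * max Y (1 / 4) ^ (3 / 4 : ℝ)) := by ring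
      _ ≤ _ := mul_le_mul h3 h4 (by positivity) hn.le
  have h7 : (max n (1 / 4)) ^ 2 = max n (1 / 4) ^ (3 / 2 : ℝ) * max n (1 / 4) ^ (1 / 2 : ℝ) := by
    rw [← Real.rpow_add hM, ← Real.rpow_natCast]
    norm_num
  calc 1 / (n * (max n (1 / 4)) ^ 2) * √(1 + n)
      ≤ 1 / (n * (max n (1 / 4)) ^ 2) * (√5 * max n (1 / 4) ^ (1 / 2 : ℝ)) :=
        mul_le_mul_of_nonneg_left h5 (by positivity)
    _ = √5 * (n * max n (1 / 4) ^ (3 / 2 : ℝ))⁻¹ := by
        rw [h7]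
        field_simp
    _ ≤ √5 * ((X ^ (1 / 2 : ℝ) * max X (1 / 4) ^ (3 / 4 : ℝ)) *
          (Y ^ (1 / 2 : ℝ) * max Y (1 / 4) ^ (3 / 4 : ℝ)))⁻¹ :=
        mul_le_mul_of_nonneg_left (inv_anti₀ (by positivity) h6) (Real.sqrt_nonneg _)
    _ = _ := by
        rw [Real.rpow_neg hX.le, Real.rpow_neg hY.le, Real.rpow_neg hMx.le,
          Real.rpow_neg hMy.le, ← mul_inv, ← mul_inv, ← mul_inv]

/-! ### The pointwise bound -/

private theorem infl_three_aux {x y z : ℝ} (hx : 0 ≤ x) (h1 : x ≤ y) (h2 : x ≤ z)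
    (h3 : 1 / 2 ≤ x + y) (h4 : 1 / 2 ≤ x + z) :
    1 / (x * y * z) ≤ 1 / (x * (max x (1 / 4)) ^ 2) := by
  rcases hx.eq_or_lt with h | h
  · rw [← h]
    simp
  · have h5 : max x (1 / 4) ≤ y := max_le h1 (by linarith)
    have h6 : max x (1 / 4) ≤ z := max_le h2 (by linarith)
    have h7 : 0 < max x (1 / 4) := lt_max_of_lt_left h
    refine one_div_le_one_div_of_le (by positivity) ?_
    rw [sq, mul_assoc x y z]
    exact mul_le_mul_of_nonneg_left (mul_le_mul h5 h6 h7.le (h7.le.trans h5)) h.le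

private theorem infl_three {u v w : ℂ} (h1 : 1 / 2 ≤ ‖u - v‖) (h2 : 1 / 2 ≤ ‖v - w‖)
    (h3 : 1 / 2 ≤ ‖u - w‖) : 1 / (‖u‖ * ‖v‖ * ‖w‖) ≤ iK u + iK v + iK w := by
  have k1 := h1.trans (norm_sub_le u v)
  have k2 := h2.trans (norm_sub_le v w)
  have k3 := h3.trans (norm_sub_le u w)
  have hu := norm_nonneg u
  have hv := norm_nonneg v
  have hw := norm_nonneg w
  have n1 := iK_nonneg u
  have n2 := iK_nonneg v
  have n3 := iK_nonneg w
  have c1 : ‖u‖ ≤ ‖v‖ → ‖u‖ ≤ ‖w‖ → 1 / (‖u‖ * ‖v‖ * ‖w‖) ≤ iK u :=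
    fun a b => infl_three_aux hu a b k1 k3
  have c2 : ‖v‖ ≤ ‖u‖ → ‖v‖ ≤ ‖w‖ → 1 / (‖u‖ * ‖v‖ * ‖w‖) ≤ iK v := by
    intro a b
    rw [mul_comm ‖u‖ ‖v‖]
    exact infl_three_aux hv a b (by linarith) k2
  have c3 : ‖w‖ ≤ ‖u‖ → ‖w‖ ≤ ‖v‖ → 1 / (‖u‖ * ‖v‖ * ‖w‖) ≤ iK w := by
    intro a b
    rw [show ‖u‖ * ‖v‖ * ‖w‖ = ‖w‖ * ‖u‖ * ‖v‖ by ring]
    exact infl_three_aux hw a b (by linarith) (by linarith)
  rcases le_total ‖u‖ ‖v‖ with a | a
  · rcases le_total ‖u‖ ‖w‖ with b | b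
    · linarith [c1 a b]
    · linarith [c3 b (b.trans a)]
  · rcases le_total ‖v‖ ‖w‖ with b | b
    · linarith [c2 a b]
    · linarith [c3 (b.trans a) b]

/-- scaling -/
private theorem infl_scale {f : ℂ → ℝ} (hf : Integrable f) (P : ℂ) {r : ℝ} (hr : 0 < r) :
    Integrable (fun ζ : ℂ => f (r⁻¹ • (ζ - P))) ∧
      ∫ ζ : ℂ, f (r⁻¹ • (ζ - P)) = r ^ 2 * ∫ ξ, f ξ := by
  have h1 : Integrable (fun ζ : ℂ => f (r⁻¹ • ζ)) := hf.comp_smul (inv_ne_zero hr.ne')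
  refine ⟨h1.comp_sub_right P, ?_⟩
  rw [integral_sub_right_eq_self (fun ζ : ℂ => f (r⁻¹ • ζ)) P, Measure.integral_comp_smul,
    Complex.finrank_real_complex, smul_eq_mul, inv_pow, inv_inv, abs_of_pos (by positivity)]

/-! ### The difference for one interval -/

private theorem infl_block : ∃ C : ℝ, 0 ≤ C ∧ ∀ (α β : ℂ → ℂ), Env α → Env β →
    ∀ a r δ ρ : ℝ, 0 < r → 0 ≤ a → a + r ≤ 1 → 0 < δ → 0 ≤ ρ → r * ρ ≤ a → r * ρ ≤ 1 - a - r →
    (∀ ζ : ℂ, 0 ≤ ζ.re → ζ.re < 1 → δ < ζ.im → ζ.im ≤ 1 → α ζ = β ζ) →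
    |kk α a r - kk β a r| ≤ C * (√(δ / r) + 1 / √(1 + ρ)) := by
  have hCA : 0 ≤ ∫ ξ, iA ξ := integral_nonneg iA_nonneg
  have hCB : 0 ≤ ∫ ξ, iB ξ := integral_nonneg iB_nonneg
  refine ⟨6 / Real.pi * ((∫ ξ, iA ξ) + ∫ ξ, iB ξ), by positivity, ?_⟩
  intro α β hα hβ a r δ ρ hr ha har hδ hρ hρa hρb hagree
  set c₁ : ℝ := √(δ / r) with hc₁
  set c₂ : ℝ := 1 / √(1 + ρ) with hc₂
  have hc₁0 : 0 ≤ c₁ := Real.sqrt_nonneg _
  have hc₂0 : 0 ≤ c₂ := by positivity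
  -- the majorant
  set H : ℝ → ℂ → ℝ := fun P ζ => c₁ * iA (r⁻¹ • (ζ - (P : ℂ))) + c₂ * iB (r⁻¹ • (ζ - (P : ℂ)))
    with hH
  have hHint : ∀ P, Integrable (H P) := fun P =>
    ((infl_scale iA_int (P : ℂ) hr).1.const_mul c₁).add
      ((infl_scale iB_int (P : ℂ) hr).1.const_mul c₂)
  have hHval : ∀ P, ∫ ζ, H P ζ = r ^ 2 * (c₁ * (∫ ξ, iA ξ) + c₂ * ∫ ξ, iB ξ) := by
    intro P
    rw [hH]
    simp only
    rw [integral_add ((infl_scale iA_int (P : ℂ) hr).1.const_mul c₁)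
      ((infl_scale iB_int (P : ℂ) hr).1.const_mul c₂), integral_const_mul, integral_const_mul,
      (infl_scale iA_int (P : ℂ) hr).2, (infl_scale iB_int (P : ℂ) hr).2]
    ring
  have hHnn : ∀ P ζ, 0 ≤ H P ζ := fun P ζ =>
    add_nonneg (mul_nonneg hc₁0 (iA_nonneg _)) (mul_nonneg hc₂0 (iB_nonneg _))
  -- the bound of the kernel on the exceptional set
  have hker : ∀ P : ℝ, a ≤ P → P ≤ a + r → ∀ ζ : ℂ, 0 < ζ.im →
      (ζ.im ≤ δ ∨ 1 < ζ.im ∨ ζ.re < 0 ∨ 1 ≤ ζ.re) → iK (r⁻¹ • (ζ - (P : ℂ))) ≤ H P ζ := by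
    intro P hP1 hP2 ζ hζ hcase
    have hnorm : ‖r⁻¹ • (ζ - (P : ℂ))‖ = ‖ζ - (P : ℂ)‖ / r := by
      rw [norm_smul, norm_inv, Real.norm_of_nonneg hr.le]
      ring
    by_cases h : ζ.im ≤ δ
    · have him : (r⁻¹ • (ζ - (P : ℂ))).im = ζ.im / r := by
        rw [Complex.smul_im, Complex.sub_im, Complex.ofReal_im, sub_zero, smul_eq_mul]
        ring
      have hpos : 0 < ζ.im / r := div_pos hζ hr
      have h1 : iK (r⁻¹ • (ζ - (P : ℂ))) = √(ζ.im / r) * iA (r⁻¹ • (ζ - (P : ℂ))) := by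
        unfold iA
        rw [him, abs_of_pos hpos]
        have : √(ζ.im / r) ≠ 0 := (Real.sqrt_pos.mpr hpos).ne'
        field_simp
      rw [h1]
      have h2 : √(ζ.im / r) ≤ c₁ := Real.sqrt_le_sqrt (div_le_div_of_nonneg_right h hr.le)
      have h3 := mul_le_mul_of_nonneg_right h2 (iA_nonneg (r⁻¹ • (ζ - (P : ℂ))))
      have h4 := mul_nonneg hc₂0 (iB_nonneg (r⁻¹ • (ζ - (P : ℂ))))
      change _ ≤ c₁ * iA (r⁻¹ • (ζ - (P : ℂ))) + c₂ * iB (r⁻¹ • (ζ - (P : ℂ)))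
      linarith
    · have hre : |(ζ - (P : ℂ)).re| ≤ ‖ζ - (P : ℂ)‖ := Complex.abs_re_le_norm _
      have him : |(ζ - (P : ℂ)).im| ≤ ‖ζ - (P : ℂ)‖ := Complex.abs_im_le_norm _
      rw [Complex.sub_re, Complex.ofReal_re] at hre
      rw [Complex.sub_im, Complex.ofReal_im, sub_zero, abs_of_pos hζ] at him
      have h1 : r * ρ ≤ ‖ζ - (P : ℂ)‖ := by
        rcases hcase with h2 | h2 | h2 | h2
        · exact absurd h2 h
        · linarith
        · have := neg_abs_le (ζ.re - P)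
          linarith
        · have := le_abs_self (ζ.re - P)
          linarith
      have h2 : ρ ≤ ‖r⁻¹ • (ζ - (P : ℂ))‖ := by
        rw [hnorm, le_div_iff₀ hr]
        linarith
      set u := r⁻¹ • (ζ - (P : ℂ))
      have h3 : iK u ≤ c₂ * iB u := by
        have h4 : (1 : ℝ) ≤ c₂ * √(1 + ‖u‖) := by
          rw [hc₂, one_div, inv_mul_eq_div, le_div_iff₀ (Real.sqrt_pos.mpr (by linarith)), one_mul]
          exact Real.sqrt_le_sqrt (by linarith)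
        calc iK u = iK u * 1 := (mul_one _).symm
          _ ≤ iK u * (c₂ * √(1 + ‖u‖)) := mul_le_mul_of_nonneg_left h4 (iK_nonneg u)
          _ = c₂ * iB u := by unfold iB; ring
      have h4 := mul_nonneg hc₁0 (iA_nonneg u)
      change _ ≤ c₁ * iA u + c₂ * iB u
      linarith
  -- integrability
  obtain ⟨C₀, _, hC₀⟩ := ker_int
  have hint0 := (hC₀ ((a + r / 2 : ℝ) : ℂ) ((r / 2 : ℝ) : ℂ) (by
    rw [Ne, Complex.ofReal_eq_zero]
    positivity)).1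
  have hQ : ∀ ζ : ℂ, ‖(ζ - a) * (ζ - (a + r / 2)) * (ζ - (a + r))‖ =
      ‖ζ - ((a + r / 2 : ℝ) : ℂ)‖ * ‖ζ - (((a + r / 2 : ℝ) : ℂ) + ((r / 2 : ℝ) : ℂ))‖ *
        ‖ζ - (((a + r / 2 : ℝ) : ℂ) - ((r / 2 : ℝ) : ℂ))‖ := by
    intro ζ
    have e1 : ζ - (((a + r / 2 : ℝ) : ℂ) + ((r / 2 : ℝ) : ℂ)) = ζ - (a + r) := by
      push_cast
      ring
    have e2 : ζ - (((a + r / 2 : ℝ) : ℂ) - ((r / 2 : ℝ) : ℂ)) = ζ - a := by
      push_cast
      ring
    have e3 : ζ - ((a + r / 2 : ℝ) : ℂ) = ζ - (a + r / 2) := by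
      push_cast
      ring
    rw [e1, e2, e3, norm_mul, norm_mul]
    ring
  have hint : ∀ γ : ℂ → ℂ, Env γ →
      Integrable (fun ζ : ℂ => γ ζ / ((ζ - a) * (ζ - (a + r / 2)) * (ζ - (a + r)))) := by
    intro γ hγ
    refine Integrable.mono' hint0 ?_ (Eventually.of_forall fun ζ => ?_)
    · refine (hγ.1.div ?_).aestronglyMeasurable
      fun_prop
    · rw [norm_div, hQ]
      exact div_le_div_of_nonneg_right (hγ.2 ζ) (by positivity)
  set s : Set ℂ := {ζ : ℂ | 0 < ζ.im} with hs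
  have hsm : MeasurableSet s := (isOpen_lt continuous_const Complex.continuous_im).measurableSet
  set G : ℂ → ℝ := fun ζ => 2 * (r ^ 3)⁻¹ * (H a ζ + H (a + r / 2) ζ + H (a + r) ζ) with hG
  have hGint : Integrable G := (((hHint a).add (hHint (a + r / 2))).add (hHint (a + r))).const_mul _
  have hGnn : ∀ ζ, 0 ≤ G ζ := fun ζ => by
    have h1 := hHnn a ζ
    have h2 := hHnn (a + r / 2) ζ
    have h3 := hHnn (a + r) ζ
    rw [hG]
    positivity
  have hmain : ∀ ζ ∈ s, ‖α ζ / ((ζ - a) * (ζ - (a + r / 2)) * (ζ - (a + r))) -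
      β ζ / ((ζ - a) * (ζ - (a + r / 2)) * (ζ - (a + r)))‖ ≤ G ζ := by
    intro ζ hζ
    have hζ' : 0 < ζ.im := hζ
    rw [← sub_div]
    by_cases hcase : ζ.im ≤ δ ∨ 1 < ζ.im ∨ ζ.re < 0 ∨ 1 ≤ ζ.re
    · have h1 : ‖α ζ - β ζ‖ ≤ 2 := by
        have := norm_sub_le (α ζ) (β ζ)
        have := hα.2 ζ
        have := hβ.2 ζ
        linarith
      have k1 := hker a le_rfl (by linarith) ζ hζ' hcase
      have k2 := hker (a + r / 2) (by linarith) (by linarith) ζ hζ' hcase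
      have k3 := hker (a + r) (by linarith) le_rfl ζ hζ' hcase
      have hd : ∀ P P' : ℝ, ‖r⁻¹ • (ζ - (P : ℂ)) - r⁻¹ • (ζ - (P' : ℂ))‖ = |P' - P| / r := by
        intro P P'
        rw [← smul_sub, norm_smul, norm_inv, Real.norm_of_nonneg hr.le,
          show ζ - (P : ℂ) - (ζ - (P' : ℂ)) = ((P' - P : ℝ) : ℂ) by push_cast; ring,
          Complex.norm_real, Real.norm_eq_abs]
        ring
      have hthree := infl_three (u := r⁻¹ • (ζ - ((a : ℝ) : ℂ)))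
        (v := r⁻¹ • (ζ - ((a + r / 2 : ℝ) : ℂ))) (w := r⁻¹ • (ζ - ((a + r : ℝ) : ℂ)))
        (by
          rw [hd, show a + r / 2 - a = r / 2 by ring, abs_of_pos (by positivity)]
          exact le_of_eq (by field_simp))
        (by
          rw [hd, show a + r - (a + r / 2) = r / 2 by ring, abs_of_pos (by positivity)]
          exact le_of_eq (by field_simp))
        (by
          rw [hd, show a + r - a = r by ring, abs_of_pos hr, div_self hr.ne']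
          norm_num)
      have hprod : ‖(ζ - a) * (ζ - (a + r / 2)) * (ζ - (a + r))‖ = r ^ 3 *
          (‖r⁻¹ • (ζ - ((a : ℝ) : ℂ))‖ * ‖r⁻¹ • (ζ - ((a + r / 2 : ℝ) : ℂ))‖ *
            ‖r⁻¹ • (ζ - ((a + r : ℝ) : ℂ))‖) := by
        rw [norm_smul, norm_smul, norm_smul, norm_inv, Real.norm_of_nonneg hr.le, norm_mul,
          norm_mul]
        push_cast
        field_simp
      rw [norm_div, hprod, hG]
      simp only
      calc ‖α ζ - β ζ‖ / (r ^ 3 * (‖r⁻¹ • (ζ - ((a : ℝ) : ℂ))‖ *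
            ‖r⁻¹ • (ζ - ((a + r / 2 : ℝ) : ℂ))‖ * ‖r⁻¹ • (ζ - ((a + r : ℝ) : ℂ))‖))
          ≤ 2 / (r ^ 3 * (‖r⁻¹ • (ζ - ((a : ℝ) : ℂ))‖ *
            ‖r⁻¹ • (ζ - ((a + r / 2 : ℝ) : ℂ))‖ * ‖r⁻¹ • (ζ - ((a + r : ℝ) : ℂ))‖)) :=
            div_le_div_of_nonneg_right h1 (by positivity)
        _ = 2 * (r ^ 3)⁻¹ * (1 / (‖r⁻¹ • (ζ - ((a : ℝ) : ℂ))‖ *
            ‖r⁻¹ • (ζ - ((a + r / 2 : ℝ) : ℂ))‖ * ‖r⁻¹ • (ζ - ((a + r : ℝ) : ℂ))‖)) := by
            rw [div_eq_mul_inv, mul_inv, one_div]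
            ring
        _ ≤ 2 * (r ^ 3)⁻¹ * (H a ζ + H (a + r / 2) ζ + H (a + r) ζ) := by
            refine mul_le_mul_of_nonneg_left (hthree.trans ?_) (by positivity)
            linarith
    · push Not at hcase
      rw [hagree ζ hcase.2.2.1 hcase.2.2.2 hcase.1 hcase.2.1, sub_self, zero_div, norm_zero]
      exact hGnn ζ
  have hdiff : kk α a r - kk β a r = r / Real.pi *
      (∫ ζ in s, (α ζ / ((ζ - a) * (ζ - (a + r / 2)) * (ζ - (a + r))) -
        β ζ / ((ζ - a) * (ζ - (a + r / 2)) * (ζ - (a + r))))).im := by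
    unfold kk
    rw [integral_sub (hint α hα).integrableOn (hint β hβ).integrableOn, Complex.sub_im]
    ring
  have hbound : ‖∫ ζ in s, (α ζ / ((ζ - a) * (ζ - (a + r / 2)) * (ζ - (a + r))) -
        β ζ / ((ζ - a) * (ζ - (a + r / 2)) * (ζ - (a + r))))‖ ≤ ∫ ζ, G ζ := by
    refine (norm_integral_le_of_norm_le hGint.integrableOn
      ((ae_restrict_iff' hsm).mpr (Eventually.of_forall hmain))).trans ?_
    exact setIntegral_le_integral hGint (Eventually.of_forall hGnn)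
  have hGval : ∫ ζ, G ζ = 2 * (r ^ 3)⁻¹ *
      (3 * (r ^ 2 * (c₁ * (∫ ξ, iA ξ) + c₂ * ∫ ξ, iB ξ))) := by
    rw [hG]
    simp only
    rw [integral_const_mul, integral_add (f := fun ζ => H a ζ + H (a + r / 2) ζ)
      ((hHint a).add (hHint (a + r / 2))) (hHint (a + r)),
      integral_add (hHint a) (hHint (a + r / 2)), hHval, hHval, hHval]
    ring
  rw [hdiff, abs_mul, abs_of_pos (by positivity)]
  calc r / Real.pi * |(∫ ζ in s, (α ζ / ((ζ - a) * (ζ - (a + r / 2)) * (ζ - (a + r))) -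
        β ζ / ((ζ - a) * (ζ - (a + r / 2)) * (ζ - (a + r))))).im|
      ≤ r / Real.pi * ∫ ζ, G ζ :=
        mul_le_mul_of_nonneg_left ((Complex.abs_im_le_norm _).trans hbound) (by positivity)
    _ = 6 / Real.pi * (c₁ * (∫ ξ, iA ξ) + c₂ * ∫ ξ, iB ξ) := by
        rw [hGval]
        field_simp
        ring
    _ ≤ 6 / Real.pi * ((∫ ξ, iA ξ) + ∫ ξ, iB ξ) * (c₁ + c₂) := by
        rw [mul_assoc]
        refine mul_le_mul_of_nonneg_left ?_ (by positivity)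
        nlinarith [mul_nonneg hc₁0 hCB, mul_nonneg hc₂0 hCA]

/-! ### Sums -/

private theorem infl_sum_sqrt (N : ℕ) :
    ∑ l ∈ Finset.range N, 1 / √((l : ℝ) + 1) ≤ 2 * √(N : ℝ) := by
  induction N with
  | zero => simp
  | succ N ih =>
    rw [Finset.sum_range_succ]
    push_cast
    have h1 : 0 < √((N : ℝ) + 1) := Real.sqrt_pos.mpr (by positivity)
    have h2 : √((N : ℝ) + 1) ^ 2 = (N : ℝ) + 1 := Real.sq_sqrt (by positivity)
    have h3 : √(N : ℝ) ^ 2 = N := Real.sq_sqrt (by positivity)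
    have h4 : 0 ≤ √(N : ℝ) := Real.sqrt_nonneg _
    have h5 : 2 * √(N : ℝ) + 1 / √((N : ℝ) + 1) ≤ 2 * √((N : ℝ) + 1) := by
      rw [← sub_nonneg]
      have : 2 * √((N : ℝ) + 1) - (2 * √(N : ℝ) + 1 / √((N : ℝ) + 1)) =
          (√((N : ℝ) + 1) - √(N : ℝ)) ^ 2 / √((N : ℝ) + 1) := by
        field_simp
        nlinarith
      rw [this]
      positivity
    linarith

private theorem infl_sqrt_half : √(1 / 2 : ℝ) ≤ 3 / 4 := by
  rw [show (3 / 4 : ℝ) = √((3 / 4) ^ 2) by rw [Real.sqrt_sq (by norm_num)]]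
  exact Real.sqrt_le_sqrt (by norm_num)

private theorem infl_geo1 (T : ℕ) :
    ∑ i ∈ Finset.range T, √((1 / 2 ^ T) / (1 / 2 ^ i) : ℝ) ≤ 3 := by
  induction T with
  | zero => simp
  | succ T ih =>
    have h1 : ∀ i, √((1 / 2 ^ (T + 1)) / (1 / 2 ^ i) : ℝ) =
        √(1 / 2) * √((1 / 2 ^ T) / (1 / 2 ^ i) : ℝ) := by
      intro i
      rw [← Real.sqrt_mul (by norm_num)]
      congr 1
      rw [pow_succ]
      field_simp
    rw [Finset.sum_congr rfl fun i _ => h1 i, ← Finset.mul_sum, Finset.sum_range_succ]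
    have h2 : √((1 / 2 ^ T) / (1 / 2 ^ T) : ℝ) = 1 := by
      rw [div_self (by positivity), Real.sqrt_one]
    rw [h2]
    have h3 := infl_sqrt_half
    have h4 : 0 ≤ √(1 / 2 : ℝ) := Real.sqrt_nonneg _
    nlinarith

private theorem infl_geo2 (T : ℕ) :
    ∑ i ∈ Finset.range T, √((2 : ℝ) ^ i) / 2 ^ i ≤ 4 := by
  induction T with
  | zero => simp
  | succ T ih =>
    rw [Finset.sum_range_succ']
    have h1 : ∀ i, √((2 : ℝ) ^ (i + 1)) / 2 ^ (i + 1) = √(1 / 2) * (√((2 : ℝ) ^ i) / 2 ^ i) := by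
      intro i
      have e1 : √((2 : ℝ) ^ (i + 1)) = √(1 / 2) * 2 * √((2 : ℝ) ^ i) := by
        have e2 : √(1 / 2 : ℝ) * 2 = √2 := by
          rw [show (2 : ℝ) = √2 * √2 from (Real.mul_self_sqrt (by norm_num)).symm, ← mul_assoc,
            ← Real.sqrt_mul (by norm_num), Real.mul_self_sqrt (by norm_num)]
          norm_num
        rw [e2, ← Real.sqrt_mul (by norm_num), pow_succ, mul_comm]
      rw [e1, pow_succ]
      field_simp
    rw [Finset.sum_congr rfl fun i _ => h1 i, ← Finset.mul_sum]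
    have h3 := infl_sqrt_half
    have h4 : 0 ≤ √(1 / 2 : ℝ) := Real.sqrt_nonneg _
    have h5 : √((2 : ℝ) ^ 0) / 2 ^ 0 = 1 := by simp
    rw [h5]
    nlinarith

theorem infl : ∃ C : ℝ, 0 ≤ C ∧ ∀ (T : ℕ) (α β : ℂ → ℂ), Env α → Env β →
    (∀ ζ : ℂ, 0 ≤ ζ.re → ζ.re < 1 → 1 / 2 ^ T < ζ.im → ζ.im ≤ 1 → α ζ = β ζ) →
    |bs α 0 1 T - bs β 0 1 T| ≤ C := by
  obtain ⟨C, hC, hblock⟩ := infl_block
  obtain ⟨K, hK, hkk⟩ := kk_le
  refine ⟨K * (C * (3 + 4 * 4)), by positivity, fun T α β hα hβ hagree => ?_⟩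
  unfold bs
  rw [← Finset.sum_sub_distrib]
  refine (Finset.abs_sum_le_sum_abs _ _).trans ?_
  -- one generation
  have hgen : ∀ i ∈ Finset.range T,
      |(∑ l ∈ Finset.range (2 ^ i), kk α (0 + l * (1 / 2 ^ i)) (1 / 2 ^ i) ^ 2 / 2) / 2 ^ i -
        (∑ l ∈ Finset.range (2 ^ i), kk β (0 + l * (1 / 2 ^ i)) (1 / 2 ^ i) ^ 2 / 2) / 2 ^ i| ≤
      K * (C * (√((1 / 2 ^ T) / (1 / 2 ^ i) : ℝ) + 4 * (√((2 : ℝ) ^ i) / 2 ^ i))) := by
    intro i _
    have hN : (0 : ℝ) < 2 ^ i := by positivity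
    rw [← sub_div, ← Finset.sum_sub_distrib, abs_div, abs_of_pos hN, div_le_iff₀ hN]
    refine (Finset.abs_sum_le_sum_abs _ _).trans ?_
    have hterm : ∀ l ∈ Finset.range (2 ^ i),
        |kk α (0 + l * (1 / 2 ^ i)) (1 / 2 ^ i) ^ 2 / 2 -
          kk β (0 + l * (1 / 2 ^ i)) (1 / 2 ^ i) ^ 2 / 2| ≤
        K * (C * (√((1 / 2 ^ T) / (1 / 2 ^ i) : ℝ) +
          (1 / √((l : ℝ) + 1) + 1 / √(((2 ^ i - 1 - l : ℕ) : ℝ) + 1)))) := by
      intro l hl
      rw [Finset.mem_range] at hl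
      set a : ℝ := 0 + l * (1 / 2 ^ i) with ha
      set r : ℝ := 1 / 2 ^ i with hr
      have hr0 : 0 < r := by positivity
      have hNr : (2 : ℝ) ^ i * r = 1 := by
        rw [hr]
        field_simp
      have hl' : (l : ℝ) + 1 ≤ 2 ^ i := by exact_mod_cast hl
      have hcast : ((2 ^ i - 1 - l : ℕ) : ℝ) = 2 ^ i - 1 - l := by
        rw [Nat.sub_sub, Nat.cast_sub (by omega)]
        push_cast
        ring
      have ha0 : a = l * r := by rw [ha, zero_add]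
      have hx := hkk α hα a r hr0
      have hy := hkk β hβ a r hr0
      have hρ0 : (0 : ℝ) ≤ min (l : ℝ) (2 ^ i - 1 - l) :=
        le_min (by positivity) (by linarith)
      have hb := hblock α β hα hβ a r (1 / 2 ^ T) (min (l : ℝ) (2 ^ i - 1 - l)) hr0
        (by rw [ha0]; positivity) (by nlinarith) (by positivity) hρ0
        (by
          rw [ha0, mul_comm]
          exact mul_le_mul_of_nonneg_right (min_le_left _ _) hr0.le)
        (by
          have h1 : r * min (l : ℝ) (2 ^ i - 1 - l) ≤ r * (2 ^ i - 1 - l) :=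
            mul_le_mul_of_nonneg_left (min_le_right _ _) hr0.le
          nlinarith)
        (fun ζ h1 h2 h3 h4 => hagree ζ h1 h2 h3 h4)
      have h1 : 1 / √(1 + min (l : ℝ) (2 ^ i - 1 - l)) ≤
          1 / √((l : ℝ) + 1) + 1 / √(((2 ^ i - 1 - l : ℕ) : ℝ) + 1) := by
        have n1 : 0 ≤ 1 / √((l : ℝ) + 1) := by positivity
        have n2 : 0 ≤ 1 / √(((2 ^ i - 1 - l : ℕ) : ℝ) + 1) := by positivity
        rcases min_choice (l : ℝ) (2 ^ i - 1 - l) with h | h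
        · rw [h, add_comm 1 (l : ℝ)]
          linarith
        · rw [h, hcast, add_comm 1 ((2 : ℝ) ^ i - 1 - l)]
          rw [hcast] at n2
          linarith
      have h2 : |kk α a r ^ 2 / 2 - kk β a r ^ 2 / 2| =
          |kk α a r - kk β a r| * (|kk α a r + kk β a r| / 2) := by
        rw [show kk α a r ^ 2 / 2 - kk β a r ^ 2 / 2 =
          (kk α a r - kk β a r) * ((kk α a r + kk β a r) / 2) by ring, abs_mul, abs_div,
          abs_of_pos (show (0 : ℝ) < 2 by norm_num)]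
      have h3 : |kk α a r + kk β a r| / 2 ≤ K := by
        have := abs_add_le (kk α a r) (kk β a r)
        linarith
      rw [h2, mul_comm K]
      refine mul_le_mul (hb.trans (mul_le_mul_of_nonneg_left ?_ hC)) h3 (by positivity)
        (by positivity)
      linarith
    refine (Finset.sum_le_sum hterm).trans ?_
    rw [← Finset.mul_sum, ← Finset.mul_sum, Finset.sum_add_distrib, Finset.sum_add_distrib,
      Finset.sum_const, Finset.card_range, nsmul_eq_mul,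
      Finset.sum_range_reflect (fun l : ℕ => 1 / √((l : ℝ) + 1)) (2 ^ i)]
    have h1 := infl_sum_sqrt (2 ^ i)
    push_cast at h1 ⊢
    rw [mul_assoc K, mul_assoc C]
    refine mul_le_mul_of_nonneg_left (mul_le_mul_of_nonneg_left ?_ hC) hK
    have h2 : √((2 : ℝ) ^ i) / 2 ^ i * 2 ^ i = √((2 : ℝ) ^ i) := div_mul_cancel₀ _ hN.ne'
    rw [add_mul, mul_assoc 4, h2]
    linarith
  refine (Finset.sum_le_sum hgen).trans ?_
  rw [← Finset.mul_sum, ← Finset.mul_sum, Finset.sum_add_distrib, ← Finset.mul_sum]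
  refine mul_le_mul_of_nonneg_left (mul_le_mul_of_nonneg_left ?_ hC) hK
  have h1 := infl_geo1 T
  have h2 := infl_geo2 T
  linarith

end Pool.Agent.QCD
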