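import Pool.Agent.Lib.MP_f30fea_an.Base
import Pool.Agent.Lib.MP_f30fea_an.Infl

/-!
# Self-similar coefficients

`β ζ = 0` if `im ζ ≤ 0` or `im ζ > 1`; otherwise let `m` be the natural number with
`2^{-(m+1)T} < im ζ ≤ 2^{-mT}` and `β ζ = α (fract (2^{mT} re ζ) + i 2^{mT} im ζ)`.  Measurable (countably many
strips), bounded by `1`, `1`-periodic.  For `l < 2^{mT}` (even any integer `l`) and `ζ` in the block
`0 ≤ re ζ < 1`, `2^{-T} < im ζ ≤ 1`: `β ((l + ζ)/2^{mT}) = α ζ`.  So `infl` applies to `α` and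
`ζ ↦ β ((l+ζ)/2^{mT})`, whose `bs · 0 1 T` is `bs β (l/2^{mT}) (1/2^{mT}) T` (`bs_scale`).
-/

open Complex MeasureTheory Filter Topology Set
open scoped ContDiff ENNReal ComplexConjugate

noncomputable section

namespace Pool.Agent.QCD

/-- the generation of a point -/
private def ssm (T : ℕ) (ζ : ℂ) : ℕ := ⌊-Real.log ζ.im / (T * Real.log 2)⌋₊

/-- the scale of a point -/
private def ssc (T : ℕ) (ζ : ℂ) : ℝ := 2 ^ (ssm T ζ * T)

/-- the self-similar coefficient -/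
private def ssb (α : ℂ → ℂ) (T : ℕ) (ζ : ℂ) : ℂ :=
  if 0 < ζ.im ∧ ζ.im ≤ 1 then
    α ((Int.fract (ssc T ζ * ζ.re) : ℝ) + ((ssc T ζ * ζ.im : ℝ) : ℂ) * I) else 0

private theorem ssc_meas (T : ℕ) : Measurable (ssc T) := by
  have h1 : Measurable (ssm T) := by
    unfold ssm
    exact (((Real.measurable_log.comp measurable_im).neg).div_const _).nat_floor
  exact (measurable_of_countable (fun n : ℕ => (2 : ℝ) ^ (n * T))).comp h1

private theorem ssb_env {α : ℂ → ℂ} (hα : Env α) (T : ℕ) : Env (ssb α T) := by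
  refine ⟨?_, fun z => ?_⟩
  · unfold ssb
    refine Measurable.ite ?_ ?_ measurable_const
    · exact (measurableSet_lt measurable_const measurable_im).inter
        (measurableSet_le measurable_im measurable_const)
    · refine hα.1.comp ?_
      refine Measurable.add ?_ (Measurable.mul_const ?_ _)
      · exact measurable_ofReal.comp (((ssc_meas T).mul measurable_re).fract)
      · exact measurable_ofReal.comp ((ssc_meas T).mul measurable_im)
  · unfold ssb
    split_ifs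
    · exact hα.2 _
    · rw [norm_zero]
      exact zero_le_one

private theorem ssb_per (α : ℂ → ℂ) (T : ℕ) (ζ : ℂ) : ssb α T (ζ + 1) = ssb α T ζ := by
  have h1 : (ζ + 1).im = ζ.im := by simp
  have h2 : ssm T (ζ + 1) = ssm T ζ := by unfold ssm; rw [h1]
  have h3 : ssc T (ζ + 1) = ssc T ζ := by unfold ssc; rw [h2]
  have h4 : Int.fract (ssc T ζ * (ζ + 1).re) = Int.fract (ssc T ζ * ζ.re) := by
    have : ssc T ζ * (ζ + 1).re = ssc T ζ * ζ.re + ((2 ^ (ssm T ζ * T) : ℕ) : ℝ) := by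
      unfold ssc
      push_cast
      simp only [add_re, one_re]
      ring
    rw [this, Int.fract_add_natCast]
  unfold ssb
  rw [h1, h3, h4]

private theorem ssm_eq {T : ℕ} (hT : 1 ≤ T) (m : ℕ) {ζ : ℂ}
    (h1 : 1 / 2 ^ ((m + 1) * T) < ζ.im) (h2 : ζ.im ≤ 1 / 2 ^ (m * T)) : ssm T ζ = m := by
  have hl2 : 0 < Real.log 2 := Real.log_pos (by norm_num)
  have hT' : (0 : ℝ) < T := by exact_mod_cast hT
  have hpos : 0 < (T : ℝ) * Real.log 2 := mul_pos hT' hl2
  have hy : 0 < ζ.im := lt_trans (by positivity) h1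
  have e : ∀ j : ℕ, Real.log (1 / 2 ^ (j * T)) = -(j * ((T : ℝ) * Real.log 2)) := by
    intro j
    rw [one_div, Real.log_inv, Real.log_pow]
    push_cast
    ring
  unfold ssm
  rw [Nat.floor_eq_iff]
  · constructor
    · rw [le_div_iff₀ hpos]
      have := Real.log_le_log hy h2
      rw [e] at this
      linarith
    · rw [div_lt_iff₀ hpos]
      have := Real.log_lt_log (by positivity) h1
      rw [e] at this
      push_cast at this
      linarith
  · refine div_nonneg ?_ hpos.le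
    have h3 : ζ.im ≤ 1 := h2.trans (by
      rw [div_le_one (by positivity)]
      exact one_le_pow₀ (by norm_num))
    have := Real.log_nonpos hy.le h3
    linarith

private theorem ssb_block (α : ℂ → ℂ) {T : ℕ} (hT : 1 ≤ T) (m l : ℕ) {ζ : ℂ} (h0 : 0 ≤ ζ.re)
    (h1 : ζ.re < 1) (h2 : 1 / 2 ^ T < ζ.im) (h3 : ζ.im ≤ 1) :
    ssb α T (((l / 2 ^ (m * T) : ℝ) : ℂ) + ((1 / 2 ^ (m * T) : ℝ) : ℂ) * ζ) = α ζ := by
  set ξ : ℂ := ((l / 2 ^ (m * T) : ℝ) : ℂ) + ((1 / 2 ^ (m * T) : ℝ) : ℂ) * ζ with hξ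
  have hs : (0 : ℝ) < 2 ^ (m * T) := by positivity
  have him : ξ.im = 1 / 2 ^ (m * T) * ζ.im := by
    rw [hξ, add_im, ofReal_im, zero_add, im_ofReal_mul]
  have hre : ξ.re = l / 2 ^ (m * T) + 1 / 2 ^ (m * T) * ζ.re := by
    rw [hξ, add_re, ofReal_re, re_ofReal_mul]
  have hm : ssm T ξ = m := by
    refine ssm_eq hT m ?_ ?_
    · rw [him]
      have : (1 : ℝ) / 2 ^ ((m + 1) * T) = 1 / 2 ^ (m * T) * (1 / 2 ^ T) := by
        rw [add_mul, one_mul, pow_add]
        field_simp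
      rw [this]
      exact mul_lt_mul_of_pos_left h2 (by positivity)
    · rw [him]
      exact mul_le_of_le_one_right (by positivity) h3
  have hc : ssc T ξ = 2 ^ (m * T) := by unfold ssc; rw [hm]
  have hy : 0 < ζ.im := lt_trans (by positivity) h2
  have hcond : 0 < ξ.im ∧ ξ.im ≤ 1 := by
    rw [him]
    refine ⟨by positivity, ?_⟩
    have h4 : (1 : ℝ) / 2 ^ (m * T) ≤ 1 := by
      rw [div_le_one hs]
      exact one_le_pow₀ (by norm_num)
    calc 1 / 2 ^ (m * T) * ζ.im ≤ 1 * 1 := mul_le_mul h4 h3 hy.le zero_le_one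
      _ = 1 := one_mul 1
  unfold ssb
  rw [if_pos hcond, hc]
  have e1 : (2 : ℝ) ^ (m * T) * ξ.im = ζ.im := by
    rw [him]
    field_simp
  have e2 : Int.fract ((2 : ℝ) ^ (m * T) * ξ.re) = ζ.re := by
    have : (2 : ℝ) ^ (m * T) * ξ.re = ζ.re + (l : ℕ) := by
      rw [hre]
      field_simp
      ring
    rw [this, Int.fract_add_natCast]
    exact Int.fract_eq_self.2 ⟨h0, h1⟩
  rw [e1, e2, re_add_im]

theorem exists_selfsim : ∃ C : ℝ, 0 ≤ C ∧ ∀ α, Env α → ∀ T : ℕ, 1 ≤ T → ∃ β, Env β ∧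
    (∀ ζ, β (ζ + 1) = β ζ) ∧ ∀ m l : ℕ, l < 2 ^ (m * T) →
      |bs β (l / 2 ^ (m * T)) (1 / 2 ^ (m * T)) T - bs α 0 1 T| ≤ C := by
  obtain ⟨C, hC, h⟩ := infl
  refine ⟨C, hC, fun α hα T hT => ⟨ssb α T, ssb_env hα T, ssb_per α T, fun m l _ => ?_⟩⟩
  have hβ := ssb_env hα T
  have hb := bs_scale (ssb α T) 0 1 (l / 2 ^ (m * T)) (1 / 2 ^ (m * T)) (by positivity) T
  rw [mul_zero, add_zero, mul_one] at hb
  rw [← hb, abs_sub_comm]
  refine h T α _ hα ⟨?_, fun z => hβ.2 _⟩ ?_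
  · exact hβ.1.comp ((measurable_id.const_mul _).const_add _)
  · intro ζ h0 h1 h2 h3
    exact (ssb_block α hT m l h0 h1 h2 h3).symm

end Pool.Agent.QCD
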