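import Pool.Agent.Lib.MP_f30fea_an.Base
import Pool.Agent.Lib.MP_f30fea_an.CauBasic

/-!
# Mean values of the Beurling transform on circles

For `‖w‖ < 1`, `w ≠ 0`: `G w = beur μ (1/w)` is holomorphic, `‖G w‖ ≤ 4 ‖w‖²` for `‖w‖ ≤ 1/2`, `G 0 = 0`.
The mean of `G²` over `‖w‖ = ρ < 1` is `(G 0)² = 0` (mean value property).
With `w = ρ e^{-2πix}`, `R = 1/ρ`: `∫_0^1 (beur μ (R ee x))² dx = 0`.  Taking real parts:
`∫ (re g)² = ∫ (im g)²`, so `∫ (im g)² = ½ ∫ ‖g‖²`.
-/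

open Complex MeasureTheory Filter Topology Set
open scoped ContDiff ENNReal ComplexConjugate

noncomputable section

namespace Pool.Agent.QCD

private lemma mz_meas {μ : ℂ → ℂ} (hμ : Env μ) :
    Measurable ((Metric.ball (0 : ℂ) 1).indicator μ) :=
  hμ.1.indicator Metric.isOpen_ball.measurableSet

private lemma mz_le {μ : ℂ → ℂ} (hμ : Env μ) (z : ℂ) :
    ‖(Metric.ball (0 : ℂ) 1).indicator μ z‖ ≤ 1 := by
  by_cases h : z ∈ Metric.ball (0 : ℂ) 1
  · rw [indicator_of_mem h]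
    exact hμ.2 z
  · rw [indicator_of_notMem h, norm_zero]
    exact zero_le_one

private lemma mz_zero (μ : ℂ → ℂ) {z : ℂ} (hz : 1 ≤ ‖z‖) :
    (Metric.ball (0 : ℂ) 1).indicator μ z = 0 := by
  apply indicator_of_notMem
  rw [mem_ball_zero_iff]
  exact not_lt.2 hz

private lemma mz_beur (μ : ℂ → ℂ) (z : ℂ) : beur μ z =
    -(Real.pi : ℂ)⁻¹ * ∫ ζ, (Metric.ball (0 : ℂ) 1).indicator μ ζ / (ζ - z) ^ 2 := by
  unfold beur
  rw [← integral_indicator Metric.isOpen_ball.measurableSet]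
  congr 2
  funext ζ
  by_cases h : ζ ∈ Metric.ball (0 : ℂ) 1
  · rw [indicator_of_mem h, indicator_of_mem h]
  · rw [indicator_of_notMem h, indicator_of_notMem h, zero_div]

private lemma mz_deriv {μ : ℂ → ℂ} (hμ : Env μ) {z : ℂ} (hz : 1 < ‖z‖) :
    HasDerivAt (cau ((Metric.ball (0 : ℂ) 1).indicator μ)) (beur μ z) z := by
  rw [mz_beur]
  refine cau_hasDerivAt (mz_meas hμ) (M := 1) (r := 1) (mz_le hμ)
    (fun z hz => mz_zero μ hz.le) (ε := ‖z‖ - 1) (by linarith) ?_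
  intro ζ hζ
  apply mz_zero
  have h1 : ‖z‖ ≤ ‖ζ‖ + ‖ζ - z‖ := by
    have : z = ζ - (ζ - z) := by ring
    calc ‖z‖ = ‖ζ - (ζ - z)‖ := by rw [← this]
      _ ≤ _ := norm_sub_le _ _
  linarith

private lemma mz_open : IsOpen {z : ℂ | 1 < ‖z‖} := isOpen_lt continuous_const continuous_norm

private lemma mz_diff {μ : ℂ → ℂ} (hμ : Env μ) : DifferentiableOn ℂ (beur μ) {z | 1 < ‖z‖} := by
  have h1 : DifferentiableOn ℂ (cau ((Metric.ball (0 : ℂ) 1).indicator μ)) {z | 1 < ‖z‖} :=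
    fun z hz => (mz_deriv hμ hz).differentiableAt.differentiableWithinAt
  refine (h1.deriv mz_open).congr fun z hz => ?_
  exact (mz_deriv hμ hz).deriv.symm

theorem beur_continuousOn {μ : ℂ → ℂ} (hμ : Env μ) : ContinuousOn (beur μ) {z | 1 < ‖z‖} :=
  (mz_diff hμ).continuousOn

private lemma mz_bound {μ : ℂ → ℂ} (hμ : Env μ) {z : ℂ} (hz : 1 < ‖z‖) :
    ‖beur μ z‖ ≤ 1 / (‖z‖ - 1) ^ 2 := by
  unfold beur
  have hpi := Real.pi_pos
  have hz1 : 0 < ‖z‖ - 1 := by linarith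
  have hvol : volume.real (Metric.ball (0 : ℂ) 1) = Real.pi := by
    rw [Measure.real, Complex.volume_ball]
    simp
  have h1 : ‖∫ ζ in Metric.ball (0 : ℂ) 1, μ ζ / (ζ - z) ^ 2‖ ≤
      (1 / (‖z‖ - 1) ^ 2) * volume.real (Metric.ball (0 : ℂ) 1) := by
    apply norm_setIntegral_le_of_norm_le_const
    · exact measure_ball_lt_top
    · intro ζ hζ
      rw [mem_ball_zero_iff] at hζ
      rw [norm_div, norm_pow]
      have h2 : ‖z‖ - 1 ≤ ‖ζ - z‖ := by
        have := norm_sub_norm_le z ζ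
        rw [norm_sub_rev] at this
        linarith
      calc ‖μ ζ‖ / ‖ζ - z‖ ^ 2 ≤ 1 / ‖ζ - z‖ ^ 2 :=
            div_le_div_of_nonneg_right (hμ.2 ζ) (by positivity)
        _ ≤ 1 / (‖z‖ - 1) ^ 2 := one_div_le_one_div_of_le (by positivity) (by gcongr)
  rw [norm_mul, norm_neg, norm_inv, Complex.norm_real, Real.norm_of_nonneg hpi.le]
  rw [hvol] at h1
  calc Real.pi⁻¹ * ‖∫ ζ in Metric.ball (0 : ℂ) 1, μ ζ / (ζ - z) ^ 2‖
      ≤ Real.pi⁻¹ * (1 / (‖z‖ - 1) ^ 2 * Real.pi) := by gcongr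
    _ = _ := by field_simp

/-- the Beurling transform in the coordinate `1/z` -/
private def mzG (μ : ℂ → ℂ) (w : ℂ) : ℂ := if w = 0 then 0 else beur μ w⁻¹ ^ 2

private lemma mz_G_diff {μ : ℂ → ℂ} (hμ : Env μ) {w : ℂ} (hw : ‖w‖ < 1) (hw0 : w ≠ 0) :
    DifferentiableAt ℂ (mzG μ) w := by
  have h1 : 1 < ‖w⁻¹‖ := by
    rw [norm_inv]
    exact (one_lt_inv₀ (norm_pos_iff.2 hw0)).2 hw
  have h2 : DifferentiableAt ℂ (fun w => beur μ w⁻¹ ^ 2) w := by
    have h3 : DifferentiableAt ℂ (beur μ) w⁻¹ := (mz_diff hμ).differentiableAt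
      (mz_open.mem_nhds h1)
    have h4 : DifferentiableAt ℂ (fun w : ℂ => w⁻¹) w := differentiableAt_inv hw0
    exact (DifferentiableAt.comp w h3 h4).pow 2
  refine h2.congr_of_eventuallyEq ?_
  filter_upwards [isOpen_ne.mem_nhds hw0] with v hv
  simp only [mzG, if_neg hv]

private lemma mz_G_cont0 {μ : ℂ → ℂ} (hμ : Env μ) : ContinuousAt (mzG μ) 0 := by
  have h0 : mzG μ 0 = 0 := by simp [mzG]
  rw [ContinuousAt, h0, tendsto_zero_iff_norm_tendsto_zero]
  have h1 : ∀ᶠ w : ℂ in 𝓝 0, ‖mzG μ w‖ ≤ 16 * ‖w‖ := by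
    have h2 : Metric.ball (0 : ℂ) (1 / 2) ∈ 𝓝 0 := Metric.ball_mem_nhds _ (by norm_num)
    filter_upwards [h2] with w hw
    rw [mem_ball_zero_iff] at hw
    by_cases hw0 : w = 0
    · rw [hw0, h0]
      simp
    · have hpos := norm_pos_iff.2 hw0
      have h3 : 2 < ‖w⁻¹‖ := by
        rw [norm_inv, lt_inv_comm₀ (by norm_num) hpos]
        linarith
      have h4 := mz_bound hμ (z := w⁻¹) (by linarith)
      have h5 : ‖beur μ w⁻¹‖ ≤ 4 * ‖w‖ ^ 2 := by
        refine h4.trans ?_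
        have h6 : ‖w⁻¹‖ / 2 ≤ ‖w⁻¹‖ - 1 := by linarith
        have h7 : 0 < ‖w⁻¹‖ / 2 := by linarith
        calc 1 / (‖w⁻¹‖ - 1) ^ 2 ≤ 1 / (‖w⁻¹‖ / 2) ^ 2 :=
              one_div_le_one_div_of_le (by positivity) (by gcongr)
          _ = 4 * ‖w‖ ^ 2 := by
              rw [norm_inv]
              field_simp
              norm_num
      rw [mzG, if_neg hw0, norm_pow]
      have h8 : ‖beur μ w⁻¹‖ ^ 2 ≤ (4 * ‖w‖ ^ 2) ^ 2 := by gcongr
      refine h8.trans ?_
      have h9 : ‖w‖ ^ 3 ≤ 1 := pow_le_one₀ hpos.le (by linarith)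
      nlinarith
  refine squeeze_zero' (Eventually.of_forall fun _ => norm_nonneg _) h1 ?_
  have : Tendsto (fun w : ℂ => 16 * ‖w‖) (𝓝 0) (𝓝 (16 * ‖(0 : ℂ)‖)) :=
    (continuous_const.mul continuous_norm).tendsto 0
  simpa using this

private lemma mz_sq {μ : ℂ → ℂ} (hμ : Env μ) {R : ℝ} (hR : 1 < R) :
    ∫ x in (0 : ℝ)..1, beur μ (R * ee x) ^ 2 = 0 := by
  have hR0 : 0 < R := by linarith
  set ρ : ℝ := R⁻¹ with hρ
  have hρ0 : 0 < ρ := inv_pos.2 hR0
  have hρ1 : ρ < 1 := inv_lt_one_of_one_lt₀ hR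
  have hav : Real.circleAverage (mzG μ) 0 ρ = mzG μ 0 := by
    apply circleAverage_of_differentiable_on_off_countable (countable_singleton (0 : ℂ))
    · intro w hw
      rw [mem_closedBall_zero_iff, abs_of_pos hρ0] at hw
      by_cases hw0 : w = 0
      · rw [hw0]
        exact (mz_G_cont0 hμ).continuousWithinAt
      · exact (mz_G_diff hμ (by linarith) hw0).continuousAt.continuousWithinAt
    · intro w hw
      have h1 := hw.1
      rw [mem_ball_zero_iff, abs_of_pos hρ0] at h1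
      exact mz_G_diff hμ (by linarith) hw.2
  have h0 : mzG μ 0 = 0 := by simp [mzG]
  rw [h0, Real.circleAverage_def] at hav
  have hsub := intervalIntegral.integral_comp_sub_mul (a := 0) (b := 1)
    (fun θ => mzG μ (circleMap 0 ρ θ)) (c := 2 * Real.pi) (by positivity) (2 * Real.pi)
  have e1 : 2 * Real.pi - 2 * Real.pi * 1 = 0 := by ring
  have e2 : 2 * Real.pi - 2 * Real.pi * 0 = 2 * Real.pi := by ring
  rw [e1, e2, hav] at hsub
  rw [← hsub]
  refine intervalIntegral.integral_congr fun x _ => ?_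
  have hmap : circleMap 0 ρ (2 * Real.pi - 2 * Real.pi * x) = (R * ee x)⁻¹ := by
    rw [circleMap, ee, mul_inv, zero_add, ← Complex.exp_neg, hρ]
    push_cast
    congr 1
    have h3 : (2 * (Real.pi : ℂ) - 2 * Real.pi * x) * I =
        2 * Real.pi * I + -(2 * Real.pi * I * x) := by ring
    rw [h3, Complex.exp_add, Complex.exp_two_pi_mul_I, one_mul]
  have hne : (R * ee x : ℂ)⁻¹ ≠ 0 := by
    apply inv_ne_zero
    apply mul_ne_zero
    · exact_mod_cast hR0.ne'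
    · exact Complex.exp_ne_zero _
  rw [hmap, mzG, if_neg hne, inv_inv]

theorem mean_im_sq {μ : ℂ → ℂ} (hμ : Env μ) {R : ℝ} (hR : 1 < R) :
    ∫ x in (0 : ℝ)..1, (beur μ (R * ee x)).im ^ 2 =
      (∫ x in (0 : ℝ)..1, ‖beur μ (R * ee x)‖ ^ 2) / 2 := by
  have hR0 : 0 < R := by linarith
  have hnorm : ∀ x : ℝ, ‖(R * ee x : ℂ)‖ = R := by
    intro x
    rw [norm_mul, Complex.norm_real, Real.norm_of_nonneg hR0.le, ee]
    have : 2 * (Real.pi : ℂ) * I * x = ((2 * Real.pi * x : ℝ) : ℂ) * I := by push_cast; ring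
    rw [this, Complex.norm_exp_ofReal_mul_I, mul_one]
  have hcont : Continuous (fun x : ℝ => beur μ (R * ee x)) := by
    have h1 : Continuous (fun x : ℝ => (R * ee x : ℂ)) := by
      unfold ee
      fun_prop
    rw [← continuousOn_univ]
    refine (beur_continuousOn hμ).comp h1.continuousOn fun x _ => ?_
    show 1 < ‖(R * ee x : ℂ)‖
    rw [hnorm]
    exact hR
  have hre : Continuous (fun x : ℝ => (beur μ (R * ee x)).re) := Complex.continuous_re.comp hcont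
  have him : Continuous (fun x : ℝ => (beur μ (R * ee x)).im) := Complex.continuous_im.comp hcont
  have h0 : ∫ x in (0 : ℝ)..1, ((beur μ (R * ee x)).re ^ 2 - (beur μ (R * ee x)).im ^ 2) = 0 := by
    have h1 := Complex.reCLM.intervalIntegral_comp_comm (μ := volume) (a := 0) (b := 1)
      (f := fun x : ℝ => beur μ (R * ee x) ^ 2) ((hcont.pow 2).intervalIntegrable _ _)
    rw [mz_sq hμ hR, map_zero] at h1
    have h3 : ∫ x in (0 : ℝ)..1, ((beur μ (R * ee x)).re ^ 2 - (beur μ (R * ee x)).im ^ 2) =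
        ∫ x in (0 : ℝ)..1, Complex.reCLM (beur μ (R * ee x) ^ 2) := by
      refine intervalIntegral.integral_congr fun x _ => ?_
      simp only [Complex.reCLM_apply]
      rw [sq (beur μ (R * ee x)), Complex.mul_re]
      ring
    rw [h3]
    exact h1
  have h2 : ∀ x : ℝ, ‖beur μ (R * ee x)‖ ^ 2 =
      ((beur μ (R * ee x)).re ^ 2 - (beur μ (R * ee x)).im ^ 2) +
        2 * (beur μ (R * ee x)).im ^ 2 := by
    intro x
    rw [Complex.sq_norm, Complex.normSq_apply]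
    ring
  have i1 : IntervalIntegrable
      (fun x : ℝ => (beur μ (R * ee x)).re ^ 2 - (beur μ (R * ee x)).im ^ 2) volume 0 1 :=
    ((hre.pow 2).sub (him.pow 2)).intervalIntegrable _ _
  have i2 : IntervalIntegrable (fun x : ℝ => 2 * (beur μ (R * ee x)).im ^ 2) volume 0 1 :=
    (continuous_const.mul (him.pow 2)).intervalIntegrable _ _
  simp only [h2]
  rw [intervalIntegral.integral_add i1 i2, h0, intervalIntegral.integral_const_mul]
  ring

end Pool.Agent.QCD
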