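import Pool.Agent.Lib.MP_f30fea_an.Base

/-!
# Second differences of the cotangent

The Mittag-Leffler expansion `π cot (π w) = 1/w + ∑_{n ≥ 1} (1/(w - n) + 1/(w + n))`, applied to
`w = m - u, m + h - u, m - h - u`.
-/

open Complex MeasureTheory Filter Topology Set
open scoped ContDiff ENNReal ComplexConjugate

noncomputable section

namespace Pool.Agent.QCD

private lemma cs_mem {x : ℂ} (hx : x.im < 0) : x ∈ Complex.integerComplement := by
  rw [Complex.mem_integerComplement_iff]
  rintro ⟨n, rfl⟩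
  simp at hx

private lemma cs_inv_isBigO (a : ℂ) :
    (fun n : ℤ => (a + (n : ℂ))⁻¹) =O[cofinite] fun n : ℤ => (|(n : ℝ)| )⁻¹ := by
  have h := (EisensteinSeries.linear_inv_isBigO_right 1 a).abs_right
  refine (h.congr (fun n => by simp) (fun n => by simp [abs_inv]))

private lemma cs_summable (u m h : ℂ) :
    Summable (fun n : ℤ => 2 * h ^ 2 / ((u + n - m) * (u + n - (m + h)) * (u + n - (m - h)))) := by
  have h1 := ((cs_inv_isBigO (u - m)).mul (cs_inv_isBigO (u - (m + h)))).mul
    (cs_inv_isBigO (u - (m - h)))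
  have h2 : Summable fun n : ℤ => (((u - m) + n) * ((u - (m + h)) + n) * ((u - (m - h)) + n))⁻¹ := by
    apply EisensteinSeries.summable_inv_of_isBigO_rpow_inv (a := 3) (by norm_num)
    refine h1.congr (fun n => by rw [mul_inv, mul_inv]) (fun n => ?_)
    rw [show (3 : ℝ) = ((3 : ℕ) : ℝ) by norm_num, Real.rpow_natCast]
    rw [pow_succ, pow_two, mul_inv, mul_inv]
  refine (h2.mul_left (2 * h ^ 2)).congr fun n => ?_
  rw [div_eq_mul_inv]
  congr 3
  · ring
  · ring

theorem cot_second (u m h : ℂ) (h0 : (m - u).im < 0) (h1 : (m + h - u).im < 0)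
    (h2 : (m - h - u).im < 0) :
    HasSum (fun n : ℤ => 2 * h ^ 2 / ((u + n - m) * (u + n - (m + h)) * (u + n - (m - h))))
      (Real.pi * (2 * cot (Real.pi * (m - u)) - cot (Real.pi * (m + h - u)) -
        cot (Real.pi * (m - h - u)))) := by
  set F : ℤ → ℂ := fun n : ℤ => 2 * h ^ 2 / ((u + n - m) * (u + n - (m + h)) * (u + n - (m - h)))
    with hF
  have hs : Summable F := cs_summable u m h
  have hne : ∀ x : ℂ, x.im < 0 → ∀ n : ℤ, x - n ≠ 0 := by
    intro x hx n h0
    have : (x - n).im = 0 := by rw [h0]; simp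
    simp at this
    linarith
  have hFf : ∀ n : ℤ, F n = 2 * (1 / ((m - u) - n)) - 1 / ((m + h - u) - n) -
      1 / ((m - h - u) - n) := by
    intro n
    have e0 := hne _ h0 n
    have e1 := hne _ h1 n
    have e2 := hne _ h2 n
    have f0 : u + n - m ≠ 0 := by
      intro hc; apply e0; linear_combination -hc
    have f1 : u + n - (m + h) ≠ 0 := by
      intro hc; apply e1; linear_combination -hc
    have f2 : u + n - (m - h) ≠ 0 := by
      intro hc; apply e2; linear_combination -hc
    simp only [hF]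
    have g0 : 1 / ((m - u) - n) = -(1 / (u + n - m)) := by
      rw [← one_div_neg_eq_neg_one_div]; congr 1; ring
    have g1 : 1 / ((m + h - u) - n) = -(1 / (u + n - (m + h))) := by
      rw [← one_div_neg_eq_neg_one_div]; congr 1; ring
    have g2 : 1 / ((m - h - u) - n) = -(1 / (u + n - (m - h))) := by
      rw [← one_div_neg_eq_neg_one_div]; congr 1; ring
    rw [g0, g1, g2]
    field_simp
    ring
  have key := (hasSum_nat_add_iff' 1).mpr hs.hasSum.nat_add_neg
  have hc : ∀ x : ℂ, x.im < 0 → HasSum (fun n : ℕ => cotTerm x n)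
      (Real.pi * cot (Real.pi * x) - 1 / x) := by
    intro x hx
    rw [cot_series_rep' (cs_mem hx)]
    exact (summable_cotTerm (cs_mem hx)).hasSum
  have h3 := (((hc _ h0).mul_left 2).sub (hc _ h1)).sub (hc _ h2)
  have h4 : (fun n : ℕ => F ((n + 1 : ℕ) : ℤ) + F (-((n + 1 : ℕ) : ℤ))) =
      fun n : ℕ => 2 * cotTerm (m - u) n - cotTerm (m + h - u) n - cotTerm (m - h - u) n := by
    funext n
    rw [hFf, hFf]
    simp only [cotTerm]
    push_cast
    simp only [sub_neg_eq_add]
    ring
  rw [h4] at key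
  have h5 := key.unique h3
  have h6 : F 0 = 2 * (1 / (m - u)) - 1 / (m + h - u) - 1 / (m - h - u) := by
    rw [hFf]; simp
  have h7 : ∑' n, F n = Real.pi * (2 * cot (Real.pi * (m - u)) - cot (Real.pi * (m + h - u)) -
        cot (Real.pi * (m - h - u))) := by
    simp only [Finset.range_one, Finset.sum_singleton, Nat.cast_zero, neg_zero] at h5
    linear_combination h5 + h6
  rw [← h7]
  exact hs.hasSum

theorem inv_exp_sub_one (w : ℂ) (hw : w.im < 0) :
    1 / (ee w - 1) = -(1 / 2) - I / 2 * cot (Real.pi * w) := by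
  have h1 : ee w ≠ 1 := by
    intro h
    have h2 : ‖ee w‖ = 1 := by rw [h]; simp
    rw [ee, Complex.norm_exp] at h2
    have h3 : (2 * Real.pi * I * w : ℂ).re = -(2 * Real.pi * w.im) := by
      simp
    rw [h3] at h2
    have h4 := Real.exp_eq_one_iff _ |>.mp h2
    have h5 := Real.pi_pos
    nlinarith
  rw [Complex.cot_pi_eq_exp_ratio]
  have h2 : exp (2 * Real.pi * I * w) = ee w := rfl
  rw [h2]
  have h3 : ee w - 1 ≠ 0 := sub_ne_zero.mpr h1
  have h4 : 1 - ee w ≠ 0 := sub_ne_zero.mpr (Ne.symm h1)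
  have h5 : I ≠ 0 := I_ne_zero
  field_simp
  ring

end Pool.Agent.QCD
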