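import Pool.Agent.Lib.MP_f30fea_an.Base
import Pool.Agent.Lib.MP_f30fea_an.Ker
import Pool.Agent.Lib.MP_f30fea_an.CotSec
import Pool.Agent.Lib.MP_f30fea_an.CauBasic

/-!
# The second difference of `vv μ` as an integral over the upper half-plane

Let `z = ee ζ₀`, `im ζ₀ ≤ 0`, so `‖z‖ ≥ 1`.  `(1/(z-ω) + 1/ω)/z = 1/(ω (z-ω))`, so
`vv μ ζ₀ = (1/(2π² i)) ∫_{‖ω‖<1} μ ω / (ω (z - ω)) dω`.  Substitute `ω = ee u`, `u` in the strip
`0 ≤ re u < 1`, `im u > 0` (injective on it, image the punctured disc; Jacobian `4π²‖ω‖²`;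
`integral_image_eq_integral_abs_det_fderiv_smul`): with `μ ω conj ω = -lft μ u ω`,
`vv μ ζ₀ = 2i ∫_{strip} lft μ u / (ee (ζ₀ - u) - 1) du`, and by `inv_exp_sub_one` the second difference is
`∫_{strip} lft μ u (2 cot (π(m-u)) - cot (π(m+h-u)) - cot (π(m-h-u))) du =
(1/π) ∫_{strip} lft μ u ∑_n 2h²/((u+n-m)(u+n-(m+h))(u+n-(m-h))) du`; by periodicity of `lft μ`
(`lft μ (u+n) = lft μ u`) and absolute convergence (`ker_int`) this is `(1/π) ∫` over the upper
half-plane (the translates of the strip).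
-/

open Complex MeasureTheory Filter Topology Set
open scoped ContDiff ENNReal ComplexConjugate

noncomputable section

namespace Pool.Agent.QCD

private def vsS : Set ℂ := {u : ℂ | 0 ≤ u.re ∧ u.re < 1 ∧ 0 < u.im}

private lemma vs_meas : MeasurableSet vsS :=
  (measurableSet_le measurable_const Complex.measurable_re).inter
    ((measurableSet_lt Complex.measurable_re measurable_const).inter
      (measurableSet_lt measurable_const Complex.measurable_im))

private lemma vs_ee_ne (u : ℂ) : ee u ≠ 0 := exp_ne_zero _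

private lemma vs_norm_ee (u : ℂ) : ‖ee u‖ = Real.exp (-(2 * Real.pi * u.im)) := by
  rw [ee, Complex.norm_exp]
  congr 1
  simp

private lemma vs_ee_add_int (u : ℂ) (n : ℤ) : ee (u + n) = ee u := by
  rw [ee, ee, Complex.exp_eq_exp_iff_exists_int]
  exact ⟨n, by ring⟩

private lemma vs_ee_sub (u v : ℂ) : ee (u - v) = ee u / ee v := by
  rw [ee, ee, ee, ← Complex.exp_sub]
  congr 1
  ring

private lemma vs_image : ee '' vsS = Metric.ball (0 : ℂ) 1 \ {0} := by
  have hpi := Real.pi_pos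
  ext q
  constructor
  · rintro ⟨u, ⟨-, -, hu⟩, rfl⟩
    refine ⟨?_, vs_ee_ne u⟩
    rw [mem_ball_zero_iff, vs_norm_ee, Real.exp_lt_one_iff]
    have : 0 < 2 * Real.pi * u.im := by positivity
    linarith
  · rintro ⟨h1, h2⟩
    rw [mem_ball_zero_iff] at h1
    have hq : q ≠ 0 := h2
    set v : ℂ := Complex.log q / (2 * Real.pi * I) with hv
    have hv1 : 2 * Real.pi * I * v = Complex.log q := by
      rw [hv]
      have : (2 * Real.pi * I : ℂ) ≠ 0 := Complex.two_pi_I_ne_zero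
      field_simp
    have hv2 : ee v = q := by rw [ee, hv1, Complex.exp_log hq]
    refine ⟨v + ((-⌊v.re⌋ : ℤ) : ℂ), ⟨?_, ?_, ?_⟩, ?_⟩
    · simp only [Complex.add_re, Complex.intCast_re]
      push_cast
      linarith [Int.floor_le v.re]
    · simp only [Complex.add_re, Complex.intCast_re]
      push_cast
      linarith [Int.lt_floor_add_one v.re]
    · simp only [Complex.add_im, Complex.intCast_im, add_zero]
      have h3 : ‖q‖ = Real.exp (-(2 * Real.pi * v.im)) := by rw [← hv2, vs_norm_ee]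
      rw [h3, Real.exp_lt_one_iff] at h1
      by_contra hc
      push Not at hc
      have : 2 * Real.pi * v.im ≤ 0 := mul_nonpos_of_nonneg_of_nonpos (by positivity) hc
      linarith
    · rw [vs_ee_add_int, hv2]

private lemma vs_inj : InjOn ee vsS := by
  rintro u ⟨hu1, hu2, -⟩ v ⟨hv1, hv2, -⟩ h
  rw [ee, ee, Complex.exp_eq_exp_iff_exists_int] at h
  obtain ⟨n, hn⟩ := h
  have h1 : u = v + n := by
    have h2 : (2 * Real.pi * I : ℂ) ≠ 0 := Complex.two_pi_I_ne_zero
    apply mul_left_cancel₀ h2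
    linear_combination hn
  have h3 : u.re = v.re + n := by rw [h1]; simp
  have h4 : (-1 : ℝ) < n := by linarith
  have h5 : (n : ℝ) < 1 := by linarith
  have h6 : n = 0 := by
    have h7 : (-1 : ℤ) < n := by exact_mod_cast h4
    have h8 : n < (1 : ℤ) := by exact_mod_cast h5
    omega
  rw [h1, h6]
  simp

private def vsD (u : ℂ) : ℂ →L[ℝ] ℂ :=
  ((2 * Real.pi * I * ee u) • (1 : ℂ →L[ℂ] ℂ)).restrictScalars ℝ

private lemma vs_deriv (u : ℂ) : HasFDerivAt ee (vsD u) u := by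
  have h1 : HasDerivAt ee (2 * Real.pi * I * ee u) u := by
    have h2 : HasDerivAt (fun u : ℂ => 2 * Real.pi * I * u) (2 * Real.pi * I) u := by
      simpa using (hasDerivAt_id u).const_mul (2 * Real.pi * I : ℂ)
    have h3 := h2.cexp
    rw [mul_comm]
    exact h3
  have h4 := h1.hasFDerivAt.restrictScalars ℝ
  have h5 : vsD u = (ContinuousLinearMap.toSpanSingleton ℂ
      (2 * Real.pi * I * ee u)).restrictScalars ℝ := by
    apply ContinuousLinearMap.ext
    intro v
    simp [vsD, mul_comm]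
  rw [h5]
  exact h4

private lemma vs_det (u : ℂ) : |(vsD u).det| = 4 * Real.pi ^ 2 * ‖ee u‖ ^ 2 := by
  have h : (vsD u).det = 4 * Real.pi ^ 2 * ‖ee u‖ ^ 2 := by
    have h1 : ((vsD u : ℂ →L[ℝ] ℂ) : ℂ →ₗ[ℝ] ℂ) =
        ((2 * Real.pi * I * ee u) • (LinearMap.id : ℂ →ₗ[ℂ] ℂ)).restrictScalars ℝ := rfl
    rw [ContinuousLinearMap.det, h1, LinearMap.det_restrictScalars, LinearMap.det_smul,
      LinearMap.det_id, Module.finrank_self, pow_one, mul_one, Algebra.norm_complex_apply,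
      Complex.normSq_eq_norm_sq, norm_mul, norm_mul, norm_mul, Complex.norm_I, Complex.norm_ofNat,
      Complex.norm_real, Real.norm_of_nonneg Real.pi_pos.le]
    ring
  rw [h, abs_of_nonneg (by positivity)]

private lemma vs_lft_int (μ : ℂ → ℂ) (u : ℂ) (n : ℤ) : lft μ (u + n) = lft μ u := by
  rw [lft, lft, vs_ee_add_int]

private lemma vs_lft_norm {μ : ℂ → ℂ} (hμ : Env μ) (u : ℂ) : ‖lft μ u‖ ≤ 1 := by
  rw [lft, norm_div, norm_mul, norm_neg, Complex.norm_conj,
    mul_div_assoc, div_self (norm_ne_zero_iff.mpr (vs_ee_ne u)), mul_one]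
  exact hμ.2 _

private lemma vs_ee_meas : Measurable ee := by
  unfold ee
  fun_prop

private lemma vs_lft_meas {μ : ℂ → ℂ} (hμ : Env μ) : Measurable (lft μ) := by
  have h1 := vs_ee_meas
  have h2 := hμ.1
  unfold lft
  exact (((h2.comp h1).neg).mul (Complex.continuous_conj.measurable.comp h1)).div h1

private lemma vs_vv {μ : ℂ → ℂ} (hμ : Env μ) {z0 : ℂ} (hz : z0.im ≤ 0) :
    IntegrableOn (fun u => lft μ u * (2 * I * (1 / (ee (z0 - u) - 1)))) vsS ∧
      vv μ z0 = ∫ u in vsS, lft μ u * (2 * I * (1 / (ee (z0 - u) - 1))) := by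
  have hpi := Real.pi_pos
  set f : ℂ → ℂ := (Metric.ball (0 : ℂ) 1).indicator μ with hf
  set z : ℂ := ee z0 with hzdef
  have hz1 : 1 ≤ ‖z‖ := by
    rw [hzdef, vs_norm_ee]
    apply Real.one_le_exp
    have : 2 * Real.pi * z0.im ≤ 0 := mul_nonpos_of_nonneg_of_nonpos (by positivity) hz
    linarith
  have hz0 : z ≠ 0 := vs_ee_ne z0
  have hfm : Measurable f := hμ.1.indicator Metric.isOpen_ball.measurableSet
  have hfb : ∀ q, ‖f q‖ ≤ 1 := by
    intro q
    rw [hf]
    by_cases h : q ∈ Metric.ball (0 : ℂ) 1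
    · rw [indicator_of_mem h]; exact hμ.2 q
    · rw [indicator_of_notMem h]; simp
  have hfr : ∀ q, (1 : ℝ) < ‖q‖ → f q = 0 := by
    intro q h
    rw [hf, indicator_of_notMem]
    rw [mem_ball_zero_iff]
    linarith
  have i1 := cau_integrable hfm hfb hfr z
  have i0 := cau_integrable hfm hfb hfr 0
  set g : ℂ → ℂ := fun q => μ q / (q * (z - q)) with hg
  have hgf : ∀ q ∈ Metric.ball (0 : ℂ) 1 \ {0}, g q = z⁻¹ * (f q / (z - q) - f q / (0 - q)) := by
    rintro q ⟨h1, h2⟩
    have hq : q ≠ 0 := h2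
    rw [hf, indicator_of_mem h1, hg]
    rw [mem_ball_zero_iff] at h1
    have h3 : z - q ≠ 0 := by
      intro h
      have : z = q := by linear_combination h
      rw [this] at hz1
      linarith
    simp only [zero_sub]
    field_simp
    ring
  have hm : MeasurableSet (Metric.ball (0 : ℂ) 1 \ {0}) :=
    Metric.isOpen_ball.measurableSet.diff (measurableSet_singleton _)
  have hgi : IntegrableOn g (Metric.ball (0 : ℂ) 1 \ {0}) := by
    have h1 : IntegrableOn (fun q => z⁻¹ * (f q / (z - q) - f q / (0 - q)))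
      (Metric.ball (0 : ℂ) 1 \ {0}) := ((i1.sub i0).const_mul z⁻¹).integrableOn
    exact h1.congr_fun (fun q hq => (hgf q hq).symm) hm
  have hgint : ∫ q in Metric.ball (0 : ℂ) 1 \ {0}, g q =
      z⁻¹ * ((∫ q, f q / (z - q)) - ∫ q, f q / (0 - q)) := by
    rw [setIntegral_congr_fun hm hgf, ← integral_sub i1 i0, ← integral_const_mul]
    apply setIntegral_eq_integral_of_ae_compl_eq_zero
    have hnull : ∀ᵐ q : ℂ, q ≠ 0 := by
      simp [ae_iff]
    filter_upwards [hnull] with q hq hq2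
    have h3 : q ∉ Metric.ball (0 : ℂ) 1 := fun h => hq2 ⟨h, hq⟩
    rw [hf, indicator_of_notMem h3]
    simp
  have hpt : ∀ u ∈ vsS, |(vsD u).det| • g (ee u) =
      (2 * Real.pi ^ 2 * I) * (lft μ u * (2 * I * (1 / (ee (z0 - u) - 1)))) := by
    intro u hu
    have hq : ee u ≠ 0 := vs_ee_ne u
    have h3 : z - ee u ≠ 0 := by
      intro h
      have h4 : z = ee u := by linear_combination h
      have h5 : ee u ∈ ee '' vsS := ⟨u, hu, rfl⟩
      rw [vs_image] at h5
      have h6 := h5.1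
      rw [mem_ball_zero_iff, ← h4] at h6
      linarith
    rw [vs_det, vs_ee_sub, ← hzdef, hg, lft, Complex.real_smul]
    have h7 : ((4 * Real.pi ^ 2 * ‖ee u‖ ^ 2 : ℝ) : ℂ) = 4 * Real.pi ^ 2 * (ee u * conj (ee u)) := by
      push_cast
      rw [Complex.mul_conj, Complex.normSq_eq_norm_sq]
      push_cast
      ring
    rw [h7]
    have h8 : z / ee u - 1 ≠ 0 := by
      rw [div_sub_one hq]
      exact div_ne_zero h3 hq
    have h9 : z / ee u - 1 = (z - ee u) / ee u := div_sub_one hq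
    rw [h9]
    field_simp
    ring_nf
    rw [Complex.I_sq]
    ring
  have hint : IntegrableOn (fun u => |(vsD u).det| • g (ee u)) vsS := by
    rw [← integrableOn_image_iff_integrableOn_abs_det_fderiv_smul (E := ℂ) (f := ee) (f' := vsD)
      volume vs_meas (fun x _ => (vs_deriv x).hasFDerivWithinAt) vs_inj, vs_image]
    exact hgi
  have hc : (2 * Real.pi ^ 2 * I : ℂ) ≠ 0 := by
    have h1 : (Real.pi : ℂ) ≠ 0 := by exact_mod_cast hpi.ne'
    exact mul_ne_zero (mul_ne_zero two_ne_zero (pow_ne_zero 2 h1)) I_ne_zero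
  have hint2 : IntegrableOn (fun u => (2 * Real.pi ^ 2 * I) *
      (lft μ u * (2 * I * (1 / (ee (z0 - u) - 1))))) vsS :=
    hint.congr_fun hpt vs_meas
  have hint3 : IntegrableOn (fun u => lft μ u * (2 * I * (1 / (ee (z0 - u) - 1)))) vsS := by
    have h : IntegrableOn (fun u => (2 * Real.pi ^ 2 * I : ℂ)⁻¹ * ((2 * Real.pi ^ 2 * I) *
      (lft μ u * (2 * I * (1 / (ee (z0 - u) - 1)))))) vsS :=
      hint2.const_mul (2 * Real.pi ^ 2 * I : ℂ)⁻¹
    refine h.congr_fun (fun u _ => ?_) vs_meas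
    simp only
    rw [← mul_assoc, inv_mul_cancel₀ hc, one_mul]
  refine ⟨hint3, ?_⟩
  have h10 : ∫ q in Metric.ball (0 : ℂ) 1 \ {0}, g q = (2 * Real.pi ^ 2 * I) *
      ∫ u in vsS, lft μ u * (2 * I * (1 / (ee (z0 - u) - 1))) := by
    rw [← vs_image, integral_image_eq_integral_abs_det_fderiv_smul (f' := vsD)
      volume vs_meas (fun x _ => (vs_deriv x).hasFDerivWithinAt) vs_inj,
      setIntegral_congr_fun vs_meas hpt, integral_const_mul]
  rw [hgint] at h10
  rw [vv, ← hf, ← hzdef, cau, cau]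
  have hpc : (Real.pi : ℂ) ≠ 0 := by exact_mod_cast hpi.ne'
  have h11 : ∫ u in vsS, lft μ u * (2 * I * (1 / (ee (z0 - u) - 1))) =
      (2 * Real.pi ^ 2 * I)⁻¹ * (z⁻¹ * ((∫ q, f q / (z - q)) - ∫ q, f q / (0 - q))) := by
    rw [h10, ← mul_assoc, inv_mul_cancel₀ hc, one_mul]
  rw [h11]
  have hI := I_ne_zero
  field_simp

private lemma vs_unfold {F : ℂ → ℂ} (hF : IntegrableOn F {ζ : ℂ | 0 < ζ.im}) :
    ∫ ζ in {ζ : ℂ | 0 < ζ.im}, F ζ = ∫ u in vsS, ∑' n : ℤ, F (u + n) := by
  set s : ℤ → Set ℂ := fun n => (fun u : ℂ => u - n) ⁻¹' vsS with hs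
  have hU : (⋃ n, s n) = {ζ : ℂ | 0 < ζ.im} := by
    ext ζ
    simp only [mem_iUnion, hs, mem_preimage, vsS, mem_ofPred_eq, Complex.sub_re, Complex.sub_im,
      Complex.intCast_re, Complex.intCast_im, sub_zero]
    constructor
    · rintro ⟨n, -, -, h⟩; exact h
    · intro h
      exact ⟨⌊ζ.re⌋, by linarith [Int.floor_le ζ.re], by linarith [Int.lt_floor_add_one ζ.re], h⟩
  have hm : ∀ n, MeasurableSet (s n) := fun n =>
    (measurable_id.sub_const (n : ℂ)) vs_meas
  have hd : Pairwise (Function.onFun Disjoint s) := by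
    intro n k hnk
    rw [Function.onFun, Set.disjoint_left]
    rintro ζ ⟨h1, h2, -⟩ ⟨h3, h4, -⟩
    simp only [Complex.sub_re, Complex.intCast_re] at h1 h2 h3 h4
    apply hnk
    have h5 : (n : ℝ) < k + 1 := by linarith
    have h6 : (k : ℝ) < n + 1 := by linarith
    have h7 : n < k + 1 := by exact_mod_cast h5
    have h8 : k < n + 1 := by exact_mod_cast h6
    omega
  have hmp : ∀ n : ℤ, MeasurePreserving (fun u : ℂ => u - n) volume volume := fun n =>
    measurePreserving_sub_right volume (n : ℂ)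
  have hemb : ∀ n : ℤ, MeasurableEmbedding (fun u : ℂ => u - n) := fun n =>
    (MeasurableEquiv.subRight (n : ℂ)).measurableEmbedding
  have hpre : ∀ (G : ℂ → ℂ) (n : ℤ), ∫ ζ in s n, G ζ = ∫ u in vsS, G (u + n) := by
    intro G n
    rw [← (hmp n).setIntegral_preimage_emb (hemb n) (fun u => G (u + n)) vsS]
    simp [hs]
  have hprer : ∀ (G : ℂ → ℝ) (n : ℤ), ∫ ζ in s n, G ζ = ∫ u in vsS, G (u + n) := by
    intro G n
    rw [← (hmp n).setIntegral_preimage_emb (hemb n) (fun u => G (u + n)) vsS]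
    simp [hs]
  rw [← hU] at hF ⊢
  have hFn : ∀ n, IntegrableOn F (s n) := fun n => hF.mono_set (subset_iUnion s n)
  have hFn2 : ∀ n : ℤ, IntegrableOn (fun u => F (u + n)) vsS := by
    intro n
    have h1 := (hmp n).integrableOn_comp_preimage (hemb n) (f := fun u => F (u + n)) (s := vsS)
    rw [← h1]
    have h2 : (fun u => F (u + n)) ∘ (fun u : ℂ => u - n) = F := by
      funext u; simp
    rw [h2]
    exact hFn n
  rw [integral_iUnion hm hd hF]
  have h3 : ∀ n, ∫ ζ in s n, F ζ = ∫ u in vsS, F (u + n) := fun n => hpre F n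
  rw [tsum_congr h3]
  apply integral_tsum_of_summable_integral_norm
  · exact hFn2
  · have h4 := (hasSum_integral_iUnion hm hd hF.norm).summable
    refine h4.congr fun n => ?_
    rw [hprer (fun ζ => ‖F ζ‖) n]

theorem vv_second {μ : ℂ → ℂ} (hμ : Env μ) {m h : ℂ} (hh : h ≠ 0) (h0 : m.im ≤ 0)
    (h1 : (m + h).im ≤ 0) (h2 : (m - h).im ≤ 0) :
    2 * vv μ m - vv μ (m + h) - vv μ (m - h) = (Real.pi : ℂ)⁻¹ *
      ∫ ζ in {ζ : ℂ | 0 < ζ.im},
        lft μ ζ * (2 * h ^ 2 / ((ζ - m) * (ζ - (m + h)) * (ζ - (m - h)))) := by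
  have hpc : (Real.pi : ℂ) ≠ 0 := by exact_mod_cast Real.pi_pos.ne'
  obtain ⟨a0, b0⟩ := vs_vv hμ h0
  obtain ⟨a1, b1⟩ := vs_vv hμ h1
  obtain ⟨a2, b2⟩ := vs_vv hμ h2
  -- integrability on the half-plane
  have hK : Integrable (fun ζ : ℂ =>
      lft μ ζ * (2 * h ^ 2 / ((ζ - m) * (ζ - (m + h)) * (ζ - (m - h))))) := by
    obtain ⟨C, -, hC⟩ := ker_int
    have h3 := ((hC m h hh).1).const_mul (2 * ‖h‖ ^ 2)
    refine h3.mono' ?_ (Filter.Eventually.of_forall fun ζ => ?_)
    · apply Measurable.aestronglyMeasurable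
      apply (vs_lft_meas hμ).mul
      fun_prop
    · rw [norm_mul, norm_div, norm_mul, norm_mul, norm_mul, norm_pow, Complex.norm_ofNat]
      have h4 : 0 ≤ 2 * ‖h‖ ^ 2 / (‖ζ - m‖ * ‖ζ - (m + h)‖ * ‖ζ - (m - h)‖) := by positivity
      have h5 := mul_le_mul_of_nonneg_right (vs_lft_norm hμ ζ) h4
      rw [one_mul] at h5
      refine h5.trans (le_of_eq ?_)
      ring
  rw [vs_unfold hK.integrableOn, ← integral_const_mul]
  have e1 : 2 * vv μ m - vv μ (m + h) - vv μ (m - h) = ∫ u in vsS,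
      (2 * (lft μ u * (2 * I * (1 / (ee (m - u) - 1)))) -
        lft μ u * (2 * I * (1 / (ee (m + h - u) - 1))) -
        lft μ u * (2 * I * (1 / (ee (m - h - u) - 1)))) := by
    have d1 := integral_sub ((a0.const_mul 2).sub a1) a2
    have d2 := integral_sub (a0.const_mul 2) a1
    simp only [Pi.sub_apply] at d1
    rw [d1, d2, integral_const_mul, ← b0, ← b1, ← b2]
  rw [e1]
  refine setIntegral_congr_fun vs_meas fun u hu => ?_
  have hu3 : 0 < u.im := hu.2.2
  have c0 : (m - u).im < 0 := by rw [Complex.sub_im]; linarith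
  have c1 : (m + h - u).im < 0 := by rw [Complex.sub_im]; linarith
  have c2 : (m - h - u).im < 0 := by rw [Complex.sub_im]; linarith
  rw [inv_exp_sub_one _ c0, inv_exp_sub_one _ c1, inv_exp_sub_one _ c2]
  have h6 : ∀ n : ℤ, lft μ (u + n) *
      (2 * h ^ 2 / ((u + n - m) * (u + n - (m + h)) * (u + n - (m - h)))) = lft μ u *
      (2 * h ^ 2 / ((u + n - m) * (u + n - (m + h)) * (u + n - (m - h)))) := by
    intro n; rw [vs_lft_int]
  rw [tsum_congr h6, ((cot_second u m h c0 c1 c2).mul_left (lft μ u)).tsum_eq]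
  have hI2 : I * I = -1 := Complex.I_mul_I
  field_simp
  ring_nf
  rw [Complex.I_sq]
  ring

end Pool.Agent.QCD
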