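import Pool.Agent.Lib.MP_f30fea_an.Base
import Pool.Agent.Lib.MP_f30fea_an.VSec

/-!
# Difference quotients of `vv μ` against the Beurling transform

(Z1) `‖2 vv m - vv (m+h) - vv (m-h)‖ ≤ C ‖h‖` for points with `im ≤ 0` (`vv_second`, `ker_int`).
(Z2) For `im ζ < 0`, `z = ee ζ`: `vv μ` is holomorphic with derivative `beur μ z - (cau z - cau 0)/z`
(`cau_hasDerivAt`, chain rule), and the second term is bounded (`cau_decay`).
(Z3) `‖(vv μ)'' ζ‖ ≤ C/|im ζ|`: apply the Cauchy estimate to `F h = vv (ζ+h) + vv (ζ-h) - 2 vv ζ` on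
`‖h‖ ≤ |im ζ|/2`, `F'' 0 = 2 (vv μ)'' ζ`.
(Z4) With `b = a + r`: `(vv b - vv a) - (vv (b-iy) - vv (a-iy)) =
(vv b + vv (a-iy) - 2 vv c) - (vv a + vv (b-iy) - 2 vv c)`, `c = (a+b-iy)/2`, both brackets `≤ C r` by (Z1).
(Z5) `(vv (b-iy) - vv (a-iy))/r` is an average of `(vv μ)' (t - iy)`, `t ∈ [a,b]`, and
`‖(vv μ)' (t-iy) - (vv μ)' (x-iy)‖ ≤ r C/y ≤ 2C`.
-/

open Complex MeasureTheory Filter Topology Set
open scoped ContDiff ENNReal ComplexConjugate

noncomputable section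

namespace Pool.Agent.QCD

theorem zyg_ee_ne (ζ : ℂ) : ee ζ ≠ 0 := exp_ne_zero _

theorem zyg_norm_ee (ζ : ℂ) : ‖ee ζ‖ = Real.exp (-(2 * Real.pi * ζ.im)) := by
  unfold ee
  rw [Complex.norm_exp]
  congr 1
  simp [Complex.mul_re, Complex.mul_im]

theorem zyg_lft_le {μ : ℂ → ℂ} (hμ : Env μ) (ζ : ℂ) : ‖lft μ ζ‖ ≤ 1 := by
  unfold lft
  rw [norm_div, norm_mul, norm_neg, RCLike.norm_conj,
    mul_div_assoc, div_self (norm_ne_zero_iff.2 (zyg_ee_ne ζ)), mul_one]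
  exact hμ.2 _

theorem zyg_Z1 {C : ℝ} (hC : ∀ m h : ℂ, h ≠ 0 →
    Integrable (fun ζ : ℂ => 1 / (‖ζ - m‖ * ‖ζ - (m + h)‖ * ‖ζ - (m - h)‖)) ∧
    ∫ ζ : ℂ, 1 / (‖ζ - m‖ * ‖ζ - (m + h)‖ * ‖ζ - (m - h)‖) ≤ C / ‖h‖) (_hC0 : 0 ≤ C)
    {μ : ℂ → ℂ} (hμ : Env μ) (m h : ℂ) (h0 : m.im ≤ 0) (h1 : (m + h).im ≤ 0)
    (h2 : (m - h).im ≤ 0) :
    ‖2 * vv μ m - vv μ (m + h) - vv μ (m - h)‖ ≤ 2 * C * ‖h‖ := by
  rcases eq_or_ne h 0 with rfl | hh
  · rw [add_zero, sub_zero, two_mul, norm_zero, mul_zero]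
    simp
  · rw [vv_second hμ hh h0 h1 h2, norm_mul]
    obtain ⟨h3, h4⟩ := hC m h hh
    have hn : 0 < ‖h‖ := norm_pos_iff.2 hh
    have h5 : ‖((Real.pi : ℂ)⁻¹)‖ ≤ 1 := by
      rw [norm_inv, Complex.norm_real, Real.norm_of_nonneg Real.pi_pos.le]
      exact inv_le_one_of_one_le₀ (by linarith [Real.pi_gt_three])
    have h6 : ‖∫ ζ in {ζ : ℂ | 0 < ζ.im},
        lft μ ζ * (2 * h ^ 2 / ((ζ - m) * (ζ - (m + h)) * (ζ - (m - h))))‖ ≤
        ∫ ζ in {ζ : ℂ | 0 < ζ.im},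
          2 * ‖h‖ ^ 2 * (1 / (‖ζ - m‖ * ‖ζ - (m + h)‖ * ‖ζ - (m - h)‖)) := by
      refine norm_integral_le_of_norm_le (h3.const_mul _).restrict ?_
      refine Filter.Eventually.of_forall fun ζ => ?_
      rw [norm_mul, norm_div, norm_mul, norm_pow, norm_mul, norm_mul, mul_one_div]
      have h7 : ‖(2 : ℂ)‖ = 2 := by simp
      rw [h7]
      exact mul_le_of_le_one_left (by positivity) (zyg_lft_le hμ ζ)
    have h7 : ∫ ζ in {ζ : ℂ | 0 < ζ.im},
          2 * ‖h‖ ^ 2 * (1 / (‖ζ - m‖ * ‖ζ - (m + h)‖ * ‖ζ - (m - h)‖)) ≤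
        ∫ ζ : ℂ, 2 * ‖h‖ ^ 2 * (1 / (‖ζ - m‖ * ‖ζ - (m + h)‖ * ‖ζ - (m - h)‖)) :=
      setIntegral_le_integral (h3.const_mul _)
        (Filter.Eventually.of_forall fun ζ => by positivity)
    have h8 : ∫ ζ : ℂ, 2 * ‖h‖ ^ 2 * (1 / (‖ζ - m‖ * ‖ζ - (m + h)‖ * ‖ζ - (m - h)‖)) ≤
        2 * ‖h‖ ^ 2 * (C / ‖h‖) := by
      rw [integral_const_mul]
      exact mul_le_mul_of_nonneg_left h4 (by positivity)
    have h9 : 2 * ‖h‖ ^ 2 * (C / ‖h‖) = 2 * C * ‖h‖ := by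
      field_simp
    calc _ ≤ 1 * (2 * C * ‖h‖) := by
          refine mul_le_mul h5 ?_ (norm_nonneg _) zero_le_one
          linarith
      _ = _ := one_mul _

/-- the derivative of `vv μ` -/
def zygD (μ : ℂ → ℂ) (ζ : ℂ) : ℂ := beur μ (ee ζ) -
  (cau ((Metric.ball (0 : ℂ) 1).indicator μ) (ee ζ) -
    cau ((Metric.ball (0 : ℂ) 1).indicator μ) 0) / ee ζ

theorem zyg_ind {μ : ℂ → ℂ} (hμ : Env μ) :
    Measurable ((Metric.ball (0 : ℂ) 1).indicator μ) ∧
    (∀ z, ‖(Metric.ball (0 : ℂ) 1).indicator μ z‖ ≤ 1) ∧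
    ∀ z : ℂ, 1 < ‖z‖ → (Metric.ball (0 : ℂ) 1).indicator μ z = 0 := by
  refine ⟨hμ.1.indicator measurableSet_ball, fun z => ?_, fun z hz => ?_⟩
  · by_cases h : z ∈ Metric.ball (0 : ℂ) 1
    · rw [Set.indicator_of_mem h]
      exact hμ.2 z
    · rw [Set.indicator_of_notMem h, norm_zero]
      exact zero_le_one
  · refine Set.indicator_of_notMem ?_ _
    rw [mem_ball_zero_iff]
    exact not_lt.2 hz.le

theorem zyg_deriv {μ : ℂ → ℂ} (hμ : Env μ) {ζ : ℂ} (hζ : ζ.im < 0) :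
    HasDerivAt (vv μ) (zygD μ ζ) ζ := by
  obtain ⟨hf, hf1, hfr⟩ := zyg_ind hμ
  have hz : 1 < ‖ee ζ‖ := by
    rw [zyg_norm_ee]
    refine Real.one_lt_exp_iff.2 ?_
    have := Real.pi_pos
    nlinarith
  have h1 := cau_hasDerivAt hf hf1 hfr (z := ee ζ) (ε := ‖ee ζ‖ - 1) (by linarith) (by
    intro w hw
    refine hfr w ?_
    have h2 := norm_sub_norm_le (ee ζ) w
    rw [norm_sub_rev] at h2
    linarith)
  have h2 : HasDerivAt ee (2 * Real.pi * I * ee ζ) ζ := by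
    have h3 := ((hasDerivAt_id ζ).const_mul (2 * Real.pi * I)).cexp
    simp only [id_eq, mul_one] at h3
    have h4 : cexp (2 * Real.pi * I * ζ) * (2 * Real.pi * I) = 2 * Real.pi * I * ee ζ :=
      mul_comm _ _
    rw [h4] at h3
    exact h3
  have h3 := h1.comp ζ h2
  have h4 := ((h3.sub_const (cau ((Metric.ball (0 : ℂ) 1).indicator μ) 0)).const_mul
    ((2 * Real.pi * I)⁻¹ : ℂ)).div h2 (zyg_ee_ne ζ)
  have h5 : beur μ (ee ζ) =
      -(Real.pi : ℂ)⁻¹ * ∫ w, (Metric.ball (0 : ℂ) 1).indicator μ w / (w - ee ζ) ^ 2 := by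
    unfold beur
    rw [← integral_indicator measurableSet_ball]
    congr 2
    funext w
    by_cases h : w ∈ Metric.ball (0 : ℂ) 1
    · rw [Set.indicator_of_mem h, Set.indicator_of_mem h]
    · rw [Set.indicator_of_notMem h, Set.indicator_of_notMem h, zero_div]
  rw [← h5] at h4
  have h6 : (2 * Real.pi * I : ℂ) ≠ 0 := by
    simp [Real.pi_ne_zero, I_ne_zero]
  have h7 : zygD μ ζ = (((2 * Real.pi * I)⁻¹ * (beur μ (ee ζ) * (2 * Real.pi * I * ee ζ))) *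
      ee ζ - (2 * Real.pi * I)⁻¹ * ((cau ((Metric.ball (0 : ℂ) 1).indicator μ) ∘ ee) ζ -
        cau ((Metric.ball (0 : ℂ) 1).indicator μ) 0) * (2 * Real.pi * I * ee ζ)) / ee ζ ^ 2 := by
    unfold zygD
    have h8 := zyg_ee_ne ζ
    simp only [Function.comp_apply]
    field_simp
  rw [h7]
  exact h4

theorem zyg_step {C : ℝ} {μ : ℂ → ℂ} (hμ : Env μ)
    (hZ : ∀ m h : ℂ, m.im ≤ 0 → (m + h).im ≤ 0 → (m - h).im ≤ 0 →
      ‖2 * vv μ m - vv μ (m + h) - vv μ (m - h)‖ ≤ C * ‖h‖) (hC : 0 ≤ C)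
    {ζ h : ℂ} {y : ℝ} (hy : 0 < y) (hζ : ζ.im = -y) (hh : ‖h‖ ≤ y / 4) :
    ‖zygD μ (ζ + h) - zygD μ (ζ - h)‖ ≤ 2 * C := by
  have hd : ∀ k : ℂ, ‖k‖ < y →
      HasDerivAt (fun k => 2 * vv μ ζ - vv μ (ζ + k) - vv μ (ζ - k))
        (-(zygD μ (ζ + k) - zygD μ (ζ - k))) k := by
    intro k hk
    have hk1 : |k.im| < y := lt_of_le_of_lt (Complex.abs_im_le_norm k) hk
    rw [abs_lt] at hk1
    have h1 : HasDerivAt (fun k => vv μ (ζ + k)) (zygD μ (ζ + k)) k := by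
      have h2 := (zyg_deriv hμ (ζ := ζ + k) (by rw [add_im]; linarith)).comp_const_add ζ k
      exact h2
    have h3 : HasDerivAt (fun k => vv μ (ζ - k)) (-zygD μ (ζ - k)) k := by
      have h2 := (zyg_deriv hμ (ζ := ζ - k) (by rw [sub_im]; linarith)).comp_const_sub ζ k
      exact h2
    have h4 := (((hasDerivAt_const k (2 * vv μ ζ)).sub h1).sub h3)
    have h5 : -(zygD μ (ζ + k) - zygD μ (ζ - k)) =
        0 - zygD μ (ζ + k) - (-zygD μ (ζ - k)) := by ring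
    rw [h5]
    exact h4
  have h1 : ‖deriv (fun k => 2 * vv μ ζ - vv μ (ζ + k) - vv μ (ζ - k)) h‖ ≤
      (C * (y / 2)) / (y / 4) := by
    refine norm_deriv_le_of_forall_mem_sphere_norm_le (by linarith) ?_ ?_
    · refine DifferentiableOn.diffContOnCl ?_
      intro k hk
      have hk2 := Metric.closure_ball_subset_closedBall hk
      rw [mem_closedBall_iff_norm] at hk2
      refine (hd k ?_).differentiableAt.differentiableWithinAt
      have h3 : ‖k‖ ≤ ‖k - h‖ + ‖h‖ := by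
        calc ‖k‖ = ‖(k - h) + h‖ := by rw [sub_add_cancel]
          _ ≤ _ := norm_add_le _ _
      linarith
    · intro k hk
      rw [mem_sphere_iff_norm] at hk
      have h3 : ‖k‖ ≤ ‖k - h‖ + ‖h‖ := by
        calc ‖k‖ = ‖(k - h) + h‖ := by rw [sub_add_cancel]
          _ ≤ _ := norm_add_le _ _
      have hk1 : |k.im| ≤ ‖k‖ := Complex.abs_im_le_norm k
      rw [abs_le] at hk1
      refine (hZ ζ k (by linarith) (by rw [add_im]; linarith) (by rw [sub_im]; linarith)).trans ?_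
      exact mul_le_mul_of_nonneg_left (by linarith) hC
  rw [(hd h (by linarith)).deriv, norm_neg] at h1
  refine h1.trans (le_of_eq ?_)
  field_simp
  norm_num

theorem zyg_chain {C : ℝ} {μ : ℂ → ℂ} (hμ : Env μ)
    (hZ : ∀ m h : ℂ, m.im ≤ 0 → (m + h).im ≤ 0 → (m - h).im ≤ 0 →
      ‖2 * vv μ m - vv μ (m + h) - vv μ (m - h)‖ ≤ C * ‖h‖) (hC : 0 ≤ C)
    {p q : ℂ} {y : ℝ} (hy : 0 < y) (hp : p.im = -y) (hq : q.im = -y) (hpq : ‖p - q‖ ≤ 2 * y) :
    ‖zygD μ p - zygD μ q‖ ≤ 8 * C := by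
  set δ : ℂ := (p - q) / 8 with hδ
  have h1 : ‖δ‖ ≤ y / 4 := by
    rw [hδ, norm_div]
    have h2 : ‖(8 : ℂ)‖ = 8 := by simp
    rw [h2]
    linarith
  have h2 : δ.im = 0 := by
    have h3 : (8 : ℂ) * δ = p - q := by
      rw [hδ]
      ring
    have h4 : ((8 : ℂ) * δ).im = 0 := by
      rw [h3, sub_im, hp, hq, sub_self]
    simpa using h4
  have h3 : ∀ c : ℝ, (q + (c : ℂ) * δ).im = -y := by
    intro c
    rw [add_im, hq, im_ofReal_mul, h2, mul_zero, add_zero]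
  have h4 := zyg_step hμ hZ hC hy (h3 1) h1
  have h5 := zyg_step hμ hZ hC hy (h3 3) h1
  have h6 := zyg_step hμ hZ hC hy (h3 5) h1
  have h7 := zyg_step hμ hZ hC hy (h3 7) h1
  push_cast at h4 h5 h6 h7
  have e1 : q + 1 * δ + δ = q + 2 * δ := by ring
  have e2 : q + 1 * δ - δ = q := by ring
  have e3 : q + 3 * δ + δ = q + 4 * δ := by ring
  have e4 : q + 3 * δ - δ = q + 2 * δ := by ring
  have e5 : q + 5 * δ + δ = q + 6 * δ := by ring
  have e6 : q + 5 * δ - δ = q + 4 * δ := by ring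
  have e7 : q + 7 * δ + δ = p := by
    rw [hδ]
    ring
  have e8 : q + 7 * δ - δ = q + 6 * δ := by ring
  rw [e1, e2] at h4
  rw [e3, e4] at h5
  rw [e5, e6] at h6
  rw [e7, e8] at h7
  have e9 : zygD μ p - zygD μ q = (zygD μ p - zygD μ (q + 6 * δ)) +
      (zygD μ (q + 6 * δ) - zygD μ (q + 4 * δ)) + (zygD μ (q + 4 * δ) - zygD μ (q + 2 * δ)) +
      (zygD μ (q + 2 * δ) - zygD μ q) := by ring
  rw [e9]
  refine (norm_add_le _ _).trans ?_
  have h8 := norm_add_le ((zygD μ p - zygD μ (q + 6 * δ)) +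
      (zygD μ (q + 6 * δ) - zygD μ (q + 4 * δ))) (zygD μ (q + 4 * δ) - zygD μ (q + 2 * δ))
  have h9 := norm_add_le (zygD μ p - zygD μ (q + 6 * δ))
      (zygD μ (q + 6 * δ) - zygD μ (q + 4 * δ))
  linarith

theorem zyg : ∃ C : ℝ, 0 ≤ C ∧ ∀ μ, Env μ → ∀ a r x y : ℝ, 0 < r → r ≤ 1 → a ≤ x → x ≤ a + r →
    r / 2 ≤ y → y ≤ r →
    ‖(vv μ (a + r) - vv μ a) / r - beur μ (Real.exp (2 * Real.pi * y) * ee x)‖ ≤ C := by
  obtain ⟨C, hC0, hC⟩ := ker_int
  obtain ⟨C', hC'⟩ := cau_decay 1 1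
  have hC'0 : 0 ≤ C' := by
    have h1 := hC' 0 measurable_const (fun z => by simp) (fun z _ => rfl) 0
    rw [norm_zero, add_zero, div_one] at h1
    exact (norm_nonneg _).trans h1
  refine ⟨2 * (2 * C) + 8 * (2 * C) + 2 * C', by positivity, ?_⟩
  intro μ hμ a r x y hr hr1 hax hxa hry hyr
  have hy : 0 < y := by linarith
  have hZ := zyg_Z1 hC hC0 hμ
  obtain ⟨hf, hf1, hfr⟩ := zyg_ind hμ
  have hee : (Real.exp (2 * Real.pi * y) : ℂ) * ee x = ee (x - y * I) := by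
    unfold ee
    rw [Complex.ofReal_exp, ← Complex.exp_add]
    congr 1
    push_cast
    linear_combination (2 * Real.pi * y : ℂ) * I_mul_I
  rw [hee]
  -- the four parts
  have hb : ‖(vv μ (a + r) - vv μ a) - (vv μ (a + r - y * I) - vv μ (a - y * I))‖ ≤
      2 * (2 * C) * r := by
    have h1 := hZ ((a : ℂ) + r / 2 - y / 2 * I) (r / 2 + y / 2 * I) (by simp; linarith)
      (by simp) (by simp; linarith)
    have h2 := hZ ((a : ℂ) + r / 2 - y / 2 * I) (-(r / 2) + y / 2 * I) (by simp; linarith)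
      (by simp) (by simp; linarith)
    have e1 : (a : ℂ) + r / 2 - y / 2 * I + (r / 2 + y / 2 * I) = a + r := by ring
    have e2 : (a : ℂ) + r / 2 - y / 2 * I - (r / 2 + y / 2 * I) = a - y * I := by ring
    have e3 : (a : ℂ) + r / 2 - y / 2 * I + (-(r / 2) + y / 2 * I) = a := by ring
    have e4 : (a : ℂ) + r / 2 - y / 2 * I - (-(r / 2) + y / 2 * I) = a + r - y * I := by ring
    rw [e1, e2] at h1
    rw [e3, e4] at h2
    have h3 : ‖((r : ℂ) / 2 + y / 2 * I)‖ ≤ r := by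
      refine (norm_add_le _ _).trans ?_
      rw [norm_mul, norm_div, norm_div, Complex.norm_I, Complex.norm_real, Complex.norm_real,
        Real.norm_of_nonneg hr.le, Real.norm_of_nonneg hy.le]
      simp
      linarith
    have h4 : ‖(-((r : ℂ) / 2) + y / 2 * I)‖ ≤ r := by
      refine (norm_add_le _ _).trans ?_
      rw [norm_neg, norm_mul, norm_div, norm_div, Complex.norm_I, Complex.norm_real,
        Complex.norm_real, Real.norm_of_nonneg hr.le, Real.norm_of_nonneg hy.le]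
      simp
      linarith
    have h5 : (vv μ (a + r) - vv μ a) - (vv μ (a + r - y * I) - vv μ (a - y * I)) =
        (2 * vv μ ((a : ℂ) + r / 2 - y / 2 * I) - vv μ a - vv μ (a + r - y * I)) -
        (2 * vv μ ((a : ℂ) + r / 2 - y / 2 * I) - vv μ (a + r) - vv μ (a - y * I)) := by ring
    rw [h5]
    refine (norm_sub_le _ _).trans ?_
    have h6 : 2 * C * ‖((r : ℂ) / 2 + y / 2 * I)‖ ≤ 2 * C * r :=
      mul_le_mul_of_nonneg_left h3 (by linarith)
    have h7 : 2 * C * ‖(-((r : ℂ) / 2) + y / 2 * I)‖ ≤ 2 * C * r :=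
      mul_le_mul_of_nonneg_left h4 (by linarith)
    linarith
  have hc : ‖(vv μ (a + r - y * I) - vv μ (a - y * I)) - zygD μ (x - y * I) * r‖ ≤
      8 * (2 * C) * r := by
    have hd : ∀ t ∈ Icc a (a + r), HasDerivWithinAt
        (fun t : ℝ => vv μ (t - y * I) - zygD μ (x - y * I) * t)
        (zygD μ (t - y * I) - zygD μ (x - y * I)) (Icc a (a + r)) t := by
      intro t _
      have h1 : HasDerivAt (fun ζ : ℂ => vv μ (ζ - y * I)) (zygD μ (t - y * I)) (t : ℂ) := by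
        have h2 := (zyg_deriv hμ (ζ := (t : ℂ) - y * I) (by simp; linarith)).comp_sub_const
          (t : ℂ) (y * I)
        exact h2
      have h3 : HasDerivAt (fun ζ : ℂ => zygD μ (x - y * I) * ζ) (zygD μ (x - y * I))
          (t : ℂ) := by
        have h4 := (hasDerivAt_id (t : ℂ)).const_mul (zygD μ (x - y * I))
        rw [mul_one] at h4
        exact h4
      exact (h1.sub h3).comp_ofReal.hasDerivWithinAt
    have h1 := (convex_Icc a (a + r)).norm_image_sub_le_of_norm_hasDerivWithin_le hd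
      (C := 8 * (2 * C)) (fun t ht => by
        refine zyg_chain hμ hZ (by linarith) hy (by simp) (by simp) ?_
        have h2 : (t : ℂ) - y * I - (x - y * I) = ((t - x : ℝ) : ℂ) := by
          push_cast
          ring
        rw [h2, Complex.norm_real, Real.norm_eq_abs, abs_le]
        constructor <;> linarith [ht.1, ht.2])
      (left_mem_Icc.2 (by linarith)) (right_mem_Icc.2 (by linarith))
    rw [add_sub_cancel_left, Real.norm_of_nonneg hr.le] at h1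
    refine le_trans (le_of_eq ?_) h1
    congr 1
    push_cast
    ring
  have hcau : ‖(cau ((Metric.ball (0 : ℂ) 1).indicator μ) (ee (x - y * I)) -
      cau ((Metric.ball (0 : ℂ) 1).indicator μ) 0) / ee (x - y * I)‖ ≤ 2 * C' := by
    have h1 : 1 ≤ ‖ee (x - y * I)‖ := by
      rw [zyg_norm_ee]
      refine Real.one_le_exp ?_
      have := Real.pi_pos
      simp
      positivity
    rw [norm_div]
    refine div_le_of_le_mul₀ (norm_nonneg _) (by positivity) ?_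
    have h2 := hC' _ hf hf1 hfr (ee (x - y * I))
    have h3 := hC' _ hf hf1 hfr 0
    rw [norm_zero, add_zero, div_one] at h3
    have h4 : C' / (1 + ‖ee (x - y * I)‖) ≤ C' :=
      div_le_self hC'0 (by linarith [norm_nonneg (ee (x - y * I))])
    calc _ ≤ C' + C' := (norm_sub_le _ _).trans (add_le_add (h2.trans h4) h3)
      _ = 2 * C' * 1 := by ring
      _ ≤ _ := mul_le_mul_of_nonneg_left h1 (by positivity)
  have hrc : (r : ℂ) ≠ 0 := Complex.ofReal_ne_zero.2 hr.ne'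
  have hfin : (vv μ (a + r) - vv μ a) / r - beur μ (ee (x - y * I)) =
      ((vv μ (a + r) - vv μ a) - (vv μ (a + r - y * I) - vv μ (a - y * I))) / r +
      ((vv μ (a + r - y * I) - vv μ (a - y * I)) - zygD μ (x - y * I) * r) / r -
      (cau ((Metric.ball (0 : ℂ) 1).indicator μ) (ee (x - y * I)) -
      cau ((Metric.ball (0 : ℂ) 1).indicator μ) 0) / ee (x - y * I) := by
    unfold zygD
    field_simp
    ring
  rw [hfin]
  refine (norm_sub_le _ _).trans (add_le_add ((norm_add_le _ _).trans (add_le_add ?_ ?_)) hcau)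
  · rw [norm_div, Complex.norm_real, Real.norm_of_nonneg hr.le]
    exact div_le_of_le_mul₀ hr.le (by positivity) hb
  · rw [norm_div, Complex.norm_real, Real.norm_of_nonneg hr.le]
    exact div_le_of_le_mul₀ hr.le (by positivity) hc

end Pool.Agent.QCD
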