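import Pool.Agent.Lib.MP_f30fea_an.Base
import Pool.Agent.Lib.MP_f30fea_an.Zyg
import Pool.Agent.Lib.MP_f30fea_an.MeanZero

/-!
# Quadratic variation and means of the Beurling transform

`θ n j = 2 · 2^n · im (vv ((j+1)/2^n) - vv (j/2^n))`.  `θ 0 0 = 0` (`ee 0 = ee 1`).  By `vv_second` with
`m = (2j+1)/2^{n+1}`, `h = 1/2^{n+1}`: `2^n · 2 · im (2 vv m - vv a - vv b) = kk (lft μ) (j/2^n) (1/2^n) =: K`
(`2 · 2^n · π⁻¹ · 2h² = r/π` with `r = 2^{-n}`), so `θ (n+1) (2j) = θ n j + K`, `θ (n+1) (2j+1) = θ n j - K`.  Induction: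
`bs (lft μ) 0 1 n = ½ 2^{-n} ∑_{j<2^n} (θ n j)²`.
By `zyg` (`r = 2^{-n}`): `|θ n j - 2 im (beur μ (e^{2πy} ee x))| ≤ 2C` for `x` in the interval `j`.  So the
`L²[0,1]` norms of the step function `θ n ⌊2^n x⌋` (`= √(2 bs)`) and of `2 im beur` (`= √(2 ∫‖beur‖²)`,
`mean_im_sq`) differ by at most `2C` (triangle inequality in `L²`).
-/

open Complex MeasureTheory Filter Topology Set
open scoped ContDiff ENNReal ComplexConjugate

noncomputable section

namespace Pool.Agent.QCD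

private def tlv (μ : ℂ → ℂ) (t : ℝ) : ℝ := (vv μ (t : ℂ)).im

private def tlth (μ : ℂ → ℂ) (n j : ℕ) : ℝ :=
  2 * 2 ^ n * (tlv μ (((j : ℝ) + 1) / 2 ^ n) - tlv μ ((j : ℝ) / 2 ^ n))

private lemma tl_kk {μ : ℂ → ℂ} (hμ : Env μ) (a r : ℝ) (hr : 0 < r) :
    kk (lft μ) a r = 2 / r * (2 * tlv μ (a + r / 2) - tlv μ (a + r) - tlv μ a) := by
  have hr2 : ((r / 2 : ℝ) : ℂ) ≠ 0 := by
    exact_mod_cast (by positivity : (r / 2 : ℝ) ≠ 0)
  have e1 : ((a + r / 2 : ℝ) : ℂ) + ((r / 2 : ℝ) : ℂ) = ((a + r : ℝ) : ℂ) := by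
    push_cast; ring
  have e2 : ((a + r / 2 : ℝ) : ℂ) - ((r / 2 : ℝ) : ℂ) = (a : ℂ) := by
    push_cast; ring
  have h := vv_second hμ (m := ((a + r / 2 : ℝ) : ℂ)) (h := ((r / 2 : ℝ) : ℂ)) hr2
    (by rw [Complex.ofReal_im]) (by rw [e1, Complex.ofReal_im]) (by rw [e2, Complex.ofReal_im])
  rw [e1, e2] at h
  set J : ℂ := ∫ ζ in {ζ : ℂ | 0 < ζ.im},
    lft μ ζ / ((ζ - a) * (ζ - (a + r / 2)) * (ζ - (a + r))) with hJ
  have h3 : ∫ ζ in {ζ : ℂ | 0 < ζ.im}, lft μ ζ * (2 * ((r / 2 : ℝ) : ℂ) ^ 2 /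
      ((ζ - ((a + r / 2 : ℝ) : ℂ)) * (ζ - ((a + r : ℝ) : ℂ)) * (ζ - (a : ℂ)))) =
      ((r ^ 2 / 2 : ℝ) : ℂ) * J := by
    rw [hJ, ← integral_const_mul]
    refine integral_congr_ae (Eventually.of_forall fun ζ => ?_)
    show lft μ ζ * (2 * ((r / 2 : ℝ) : ℂ) ^ 2 /
      ((ζ - ((a + r / 2 : ℝ) : ℂ)) * (ζ - ((a + r : ℝ) : ℂ)) * (ζ - (a : ℂ)))) =
      ((r ^ 2 / 2 : ℝ) : ℂ) * (lft μ ζ / ((ζ - a) * (ζ - (a + r / 2)) * (ζ - (a + r))))
    have e3 : (ζ - ((a + r / 2 : ℝ) : ℂ)) * (ζ - ((a + r : ℝ) : ℂ)) * (ζ - (a : ℂ)) =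
        (ζ - a) * (ζ - (a + r / 2)) * (ζ - (a + r)) := by
      push_cast; ring
    rw [e3]
    push_cast
    ring
  rw [h3] at h
  have h4 := congrArg Complex.im h
  have e4 : ((Real.pi : ℂ)⁻¹ * (((r ^ 2 / 2 : ℝ) : ℂ) * J)) =
      ((Real.pi⁻¹ * (r ^ 2 / 2) : ℝ) : ℂ) * J := by
    push_cast; ring
  rw [e4, Complex.im_ofReal_mul] at h4
  have e5 : (2 * vv μ ((a + r / 2 : ℝ) : ℂ) - vv μ ((a + r : ℝ) : ℂ) - vv μ (a : ℂ)).im =
      2 * tlv μ (a + r / 2) - tlv μ (a + r) - tlv μ a := by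
    unfold tlv
    simp only [Complex.sub_im, Complex.mul_im, Complex.re_ofNat, Complex.im_ofNat, zero_mul,
      add_zero]
  rw [e5] at h4
  rw [h4]
  unfold kk
  have hpi := Real.pi_pos
  rw [← hJ]
  field_simp

private lemma tl_sum (f : ℕ → ℝ) (N : ℕ) :
    ∑ j ∈ Finset.range (2 * N), f j = ∑ j ∈ Finset.range N, (f (2 * j) + f (2 * j + 1)) := by
  induction N with
  | zero => simp
  | succ N ih =>
    rw [Finset.sum_range_succ, ← ih, show 2 * (N + 1) = 2 * N + 1 + 1 by ring,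
      Finset.sum_range_succ, Finset.sum_range_succ, add_assoc]

private lemma tl_rec {μ : ℂ → ℂ} (hμ : Env μ) (n j : ℕ) :
    tlth μ (n + 1) (2 * j) =
      tlth μ n j + kk (lft μ) (0 + j * (1 / 2 ^ n)) (1 / 2 ^ n) ∧
    tlth μ (n + 1) (2 * j + 1) =
      tlth μ n j - kk (lft μ) (0 + j * (1 / 2 ^ n)) (1 / 2 ^ n) := by
  have hp : (0 : ℝ) < 2 ^ n := by positivity
  have h := tl_kk hμ (0 + j * (1 / 2 ^ n)) (1 / 2 ^ n) (by positivity)
  have e1 : (0 + (j : ℝ) * (1 / 2 ^ n)) = (j : ℝ) / 2 ^ n := by ring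
  have e2 : (0 + (j : ℝ) * (1 / 2 ^ n)) + 1 / 2 ^ n = ((j : ℝ) + 1) / 2 ^ n := by ring
  have e3 : (0 + (j : ℝ) * (1 / 2 ^ n)) + 1 / 2 ^ n / 2 = (2 * (j : ℝ) + 1) / 2 ^ (n + 1) := by
    rw [pow_succ]; field_simp; ring
  rw [e2, e3] at h
  rw [h, e1]
  unfold tlth
  have e4 : ((((2 * j : ℕ) : ℝ)) + 1) / 2 ^ (n + 1) = (2 * (j : ℝ) + 1) / 2 ^ (n + 1) := by
    push_cast; ring
  have e5 : (((2 * j : ℕ) : ℝ)) / 2 ^ (n + 1) = (j : ℝ) / 2 ^ n := by
    push_cast; rw [pow_succ]; field_simp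
  have e6 : ((((2 * j + 1 : ℕ) : ℝ)) + 1) / 2 ^ (n + 1) = ((j : ℝ) + 1) / 2 ^ n := by
    push_cast; rw [pow_succ]; field_simp; ring
  have e7 : (((2 * j + 1 : ℕ) : ℝ)) / 2 ^ (n + 1) = (2 * (j : ℝ) + 1) / 2 ^ (n + 1) := by
    push_cast; ring
  rw [e4, e5, e6, e7]
  have e8 : (2 : ℝ) / (1 / 2 ^ n) = 2 * 2 ^ n := by field_simp
  rw [e8, pow_succ]
  constructor <;> ring

private lemma tl_zero (μ : ℂ → ℂ) : tlth μ 0 0 = 0 := by
  have : vv μ ((1 : ℝ) : ℂ) = vv μ ((0 : ℝ) : ℂ) := by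
    have e : ee ((1 : ℝ) : ℂ) = ee ((0 : ℝ) : ℂ) := by
      unfold ee
      rw [Complex.ofReal_one, Complex.ofReal_zero, mul_one, mul_zero, Complex.exp_zero,
        Complex.exp_two_pi_mul_I]
    unfold vv
    rw [e]
  unfold tlth tlv
  simp only [pow_zero, div_one, Nat.cast_zero, zero_add]
  rw [this]
  simp

private lemma tl_bs {μ : ℂ → ℂ} (hμ : Env μ) (n : ℕ) :
    bs (lft μ) 0 1 n = (∑ j ∈ Finset.range (2 ^ n), tlth μ n j ^ 2) / (2 * 2 ^ n) := by
  induction n with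
  | zero =>
    unfold bs
    simp [tl_zero]
  | succ n ih =>
    have hp : (0 : ℝ) < 2 ^ n := by positivity
    have h1 : bs (lft μ) 0 1 (n + 1) = bs (lft μ) 0 1 n +
        (∑ l ∈ Finset.range (2 ^ n), kk (lft μ) (0 + l * (1 / 2 ^ n)) (1 / 2 ^ n) ^ 2 / 2) / 2 ^ n := by
      unfold bs
      rw [Finset.sum_range_succ]
    rw [h1, ih, show 2 ^ (n + 1) = 2 * 2 ^ n by ring, tl_sum]
    have h2 : ∑ j ∈ Finset.range (2 ^ n), (tlth μ (n + 1) (2 * j) ^ 2 +
        tlth μ (n + 1) (2 * j + 1) ^ 2) = 2 * ∑ j ∈ Finset.range (2 ^ n), tlth μ n j ^ 2 +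
        4 * ∑ l ∈ Finset.range (2 ^ n), kk (lft μ) (0 + l * (1 / 2 ^ n)) (1 / 2 ^ n) ^ 2 / 2 := by
      rw [Finset.mul_sum, Finset.mul_sum, ← Finset.sum_add_distrib]
      refine Finset.sum_congr rfl fun j _ => ?_
      obtain ⟨h3, h4⟩ := tl_rec hμ n j
      rw [h3, h4]
      ring
    rw [h2]
    rw [show (2 : ℝ) ^ (n + 1) = 2 * 2 ^ n by ring]
    field_simp
    ring

private lemma tl_cont {μ : ℂ → ℂ} (hμ : Env μ) {R : ℝ} (hR : 1 < R) :
    Continuous fun x : ℝ => 2 * (beur μ (R * ee x)).im := by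
  have h1 : Continuous fun x : ℝ => (R : ℂ) * ee x := by
    unfold ee
    fun_prop
  have h2 : ∀ x : ℝ, (R : ℂ) * ee x ∈ {z : ℂ | 1 < ‖z‖} := by
    intro x
    show 1 < ‖(R : ℂ) * ee x‖
    have h3 : ‖ee (x : ℂ)‖ = 1 := by
      unfold ee
      rw [show (2 * (Real.pi : ℂ) * I * (x : ℂ)) = ((2 * Real.pi * x : ℝ) : ℂ) * I by
        push_cast; ring, Complex.norm_exp_ofReal_mul_I]
    rw [norm_mul, h3, mul_one, Complex.norm_real, Real.norm_eq_abs, abs_of_pos (by linarith)]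
    exact hR
  have h4 := (beur_continuousOn hμ).comp_continuous h1 h2
  exact continuous_const.mul (Complex.continuous_im.comp h4)

/-- comparison of a step function and a continuous function in `L²[0,1]` -/
private lemma tl_l2 (g : ℝ → ℝ) (hg : Continuous g) (N : ℕ) (hN : 0 < N) (θ : ℕ → ℝ) (c : ℝ)
    (hc : 0 ≤ c) (h : ∀ j < N, ∀ x : ℝ, (j : ℝ) / N ≤ x → x ≤ ((j : ℝ) + 1) / N →
      |θ j - g x| ≤ c) :
    |Real.sqrt ((∑ j ∈ Finset.range N, θ j ^ 2) / N) - Real.sqrt (∫ x in (0 : ℝ)..1, g x ^ 2)| ≤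
      c := by
  have hNr : (0 : ℝ) < N := by exact_mod_cast hN
  set A2 : ℝ := (∑ j ∈ Finset.range N, θ j ^ 2) / N with hA2
  set B2 : ℝ := ∫ x in (0 : ℝ)..1, g x ^ 2 with hB2
  have hA0 : 0 ≤ A2 := by positivity
  have hB0 : 0 ≤ B2 := intervalIntegral.integral_nonneg zero_le_one fun x _ => sq_nonneg _
  -- splitting
  have split : ∀ f : ℝ → ℝ, Continuous f → ∑ j ∈ Finset.range N,
      ∫ x in ((j : ℝ) / N)..(((j : ℝ) + 1) / N), f x = ∫ x in (0 : ℝ)..1, f x := by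
    intro f hf
    have := intervalIntegral.sum_integral_adjacent_intervals (f := f) (μ := volume)
      (a := fun j : ℕ => (j : ℝ) / N) (n := N) (fun k _ => hf.intervalIntegrable _ _)
    simp only [Nat.cast_add, Nat.cast_one, Nat.cast_zero, zero_div, div_self hNr.ne'] at this
    exact this
  have hle : ∀ j : ℕ, (j : ℝ) / N ≤ ((j : ℝ) + 1) / N := fun j =>
    div_le_div_of_nonneg_right (by linarith) hNr.le
  have hlen : ∀ (j : ℕ) (t : ℝ), ∫ _ in ((j : ℝ) / N)..(((j : ℝ) + 1) / N), t = t / N := by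
    intro j t
    rw [intervalIntegral.integral_const, smul_eq_mul]
    field_simp
    ring
  -- mean of |g|
  have hm : ∫ x in (0 : ℝ)..1, |g x| ≤ Real.sqrt B2 := by
    set m : ℝ := ∫ x in (0 : ℝ)..1, |g x| with hm
    have hm0 : 0 ≤ m := intervalIntegral.integral_nonneg zero_le_one fun x _ => abs_nonneg _
    have h1 : 0 ≤ ∫ x in (0 : ℝ)..1, (|g x| - m) ^ 2 :=
      intervalIntegral.integral_nonneg zero_le_one fun x _ => sq_nonneg _
    have h2 : ∫ x in (0 : ℝ)..1, (|g x| - m) ^ 2 = B2 - 2 * m * m + m ^ 2 := by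
      have e : ∀ x, (|g x| - m) ^ 2 = g x ^ 2 - 2 * m * |g x| + m ^ 2 := by
        intro x
        rw [← sq_abs (g x)]; ring
      simp only [e]
      rw [intervalIntegral.integral_add, intervalIntegral.integral_sub,
        intervalIntegral.integral_const_mul, intervalIntegral.integral_const]
      · simp [hB2, hm]
      · exact (hg.pow 2).intervalIntegrable _ _
      · exact (continuous_const.mul hg.abs).intervalIntegrable _ _
      · exact ((hg.pow 2).sub (continuous_const.mul hg.abs)).intervalIntegrable _ _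
      · exact continuous_const.intervalIntegrable _ _
    rw [h2] at h1
    exact Real.le_sqrt_of_sq_le (by nlinarith)
  -- mean of |θ|
  have hmθ : (∑ j ∈ Finset.range N, |θ j|) / N ≤ Real.sqrt A2 := by
    refine Real.le_sqrt_of_sq_le ?_
    have h1 := sq_sum_le_card_mul_sum_sq (s := Finset.range N) (f := fun j => |θ j|)
    simp only [sq_abs, Finset.card_range] at h1
    rw [div_pow, hA2, div_le_div_iff₀ (by positivity) hNr]
    calc (∑ j ∈ Finset.range N, |θ j|) ^ 2 * N ≤ (N * ∑ j ∈ Finset.range N, θ j ^ 2) * N :=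
          mul_le_mul_of_nonneg_right h1 hNr.le
      _ = _ := by ring
  have up : A2 ≤ (Real.sqrt B2 + c) ^ 2 := by
    have h1 : ∀ j ∈ Finset.range N, θ j ^ 2 / N ≤
        ∫ x in ((j : ℝ) / N)..(((j : ℝ) + 1) / N), (|g x| + c) ^ 2 := by
      intro j hj
      rw [← hlen j (θ j ^ 2)]
      refine intervalIntegral.integral_mono_on (hle j) (continuous_const.intervalIntegrable _ _)
        (((hg.abs.add continuous_const).pow 2).intervalIntegrable _ _) fun x hx => ?_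
      have h2 := h j (Finset.mem_range.1 hj) x hx.1 hx.2
      have h3 : |θ j| ≤ |g x| + c := by
        have := abs_sub_abs_le_abs_sub (θ j) (g x)
        linarith
      rw [← sq_abs (θ j)]
      exact pow_le_pow_left₀ (abs_nonneg _) h3 2
    have h2 := Finset.sum_le_sum h1
    rw [← Finset.sum_div, ← hA2, split (fun x => (|g x| + c) ^ 2) ((hg.abs.add continuous_const).pow 2)] at h2
    have h3 : ∫ x in (0 : ℝ)..1, (|g x| + c) ^ 2 =
        B2 + 2 * c * (∫ x in (0 : ℝ)..1, |g x|) + c ^ 2 := by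
      have e : ∀ x, (|g x| + c) ^ 2 = g x ^ 2 + 2 * c * |g x| + c ^ 2 := by
        intro x
        rw [← sq_abs (g x)]; ring
      simp only [e]
      rw [intervalIntegral.integral_add, intervalIntegral.integral_add,
        intervalIntegral.integral_const_mul, intervalIntegral.integral_const]
      · simp [hB2]
      · exact (hg.pow 2).intervalIntegrable _ _
      · exact (continuous_const.mul hg.abs).intervalIntegrable _ _
      · exact ((hg.pow 2).add (continuous_const.mul hg.abs)).intervalIntegrable _ _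
      · exact continuous_const.intervalIntegrable _ _
    rw [h3] at h2
    have h4 := Real.sq_sqrt hB0
    have h5 := mul_le_mul_of_nonneg_left hm (by linarith : 0 ≤ 2 * c)
    nlinarith
  have down : B2 ≤ (Real.sqrt A2 + c) ^ 2 := by
    have h1 : ∀ j ∈ Finset.range N, ∫ x in ((j : ℝ) / N)..(((j : ℝ) + 1) / N), g x ^ 2 ≤
        (|θ j| + c) ^ 2 / N := by
      intro j hj
      rw [← hlen j ((|θ j| + c) ^ 2)]
      refine intervalIntegral.integral_mono_on (hle j) ((hg.pow 2).intervalIntegrable _ _)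
        (continuous_const.intervalIntegrable _ _) fun x hx => ?_
      have h2 := h j (Finset.mem_range.1 hj) x hx.1 hx.2
      rw [abs_sub_comm] at h2
      have h3 : |g x| ≤ |θ j| + c := by
        have := abs_sub_abs_le_abs_sub (g x) (θ j)
        linarith
      rw [← sq_abs (g x)]
      exact pow_le_pow_left₀ (abs_nonneg _) h3 2
    have h2 := Finset.sum_le_sum h1
    rw [split (fun x => g x ^ 2) (hg.pow 2), ← hB2, ← Finset.sum_div] at h2
    have h3 : (∑ j ∈ Finset.range N, (|θ j| + c) ^ 2) / N =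
        A2 + 2 * c * ((∑ j ∈ Finset.range N, |θ j|) / N) + c ^ 2 := by
      have e : ∀ j, (|θ j| + c) ^ 2 = θ j ^ 2 + 2 * c * |θ j| + c ^ 2 := by
        intro j
        rw [← sq_abs (θ j)]; ring
      simp only [e]
      rw [Finset.sum_add_distrib, Finset.sum_add_distrib, ← Finset.mul_sum, Finset.sum_const,
        Finset.card_range, nsmul_eq_mul, hA2]
      field_simp
    rw [h3] at h2
    have h4 := Real.sq_sqrt hA0
    have h5 := mul_le_mul_of_nonneg_left hmθ (by linarith : 0 ≤ 2 * c)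
    nlinarith
  have sA := Real.sqrt_nonneg A2
  have sB := Real.sqrt_nonneg B2
  rw [abs_le]
  constructor
  · have := Real.sqrt_le_sqrt down
    rw [Real.sqrt_sq (by linarith)] at this
    linarith
  · have := Real.sqrt_le_sqrt up
    rw [Real.sqrt_sq (by linarith)] at this
    linarith

theorem trans_l2 : ∃ C : ℝ, 0 ≤ C ∧ ∀ μ, Env μ → ∀ (n : ℕ) (y : ℝ), 1 / 2 ^ n / 2 ≤ y →
    y ≤ 1 / 2 ^ n →
    |Real.sqrt (bs (lft μ) 0 1 n) -
      Real.sqrt (∫ x in (0 : ℝ)..1, ‖beur μ (Real.exp (2 * Real.pi * y) * ee x)‖ ^ 2)| ≤ C := by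
  obtain ⟨C, hC0, hC⟩ := zyg
  refine ⟨2 * C, by linarith, fun μ hμ n y hy1 hy2 => ?_⟩
  have hp : (0 : ℝ) < 2 ^ n := by positivity
  have hp1 : (1 : ℝ) ≤ 2 ^ n := one_le_pow₀ (by norm_num)
  have hy0 : 0 < y := lt_of_lt_of_le (by positivity) hy1
  have hR : 1 < Real.exp (2 * Real.pi * y) := Real.one_lt_exp_iff.2 (by positivity)
  set R : ℝ := Real.exp (2 * Real.pi * y) with hRdef
  set g : ℝ → ℝ := fun x => 2 * (beur μ (R * ee x)).im with hg
  have hgc : Continuous g := tl_cont hμ hR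
  have key := tl_l2 g hgc (2 ^ n) (by positivity) (tlth μ n) (2 * C) (by linarith) (by
    intro j hj x hx1 hx2
    push_cast at hx1 hx2
    have h1 := hC μ hμ ((j : ℝ) / 2 ^ n) (1 / 2 ^ n) x y (by positivity)
      (by rw [div_le_one hp]; exact hp1) hx1 (by rw [← add_div]; exact hx2) hy1 hy2
    have h2 := (Complex.abs_im_le_norm _).trans h1
    have e1 : ((((j : ℝ) / 2 ^ n : ℝ) : ℂ) + ((1 / 2 ^ n : ℝ) : ℂ)) =
        ((((j : ℝ) + 1) / 2 ^ n : ℝ) : ℂ) := by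
      push_cast; ring
    rw [e1, Complex.sub_im, Complex.div_ofReal_im, Complex.sub_im] at h2
    have h3 : tlth μ n j - g x = 2 * (((vv μ ((((j : ℝ) + 1) / 2 ^ n : ℝ) : ℂ)).im -
        (vv μ (((j : ℝ) / 2 ^ n : ℝ) : ℂ)).im) / (1 / 2 ^ n) -
        (beur μ (R * ee x)).im) := by
      simp only [hg, tlth, tlv]
      field_simp
    rw [h3, abs_mul, abs_two]
    exact mul_le_mul_of_nonneg_left h2 (by norm_num))
  have e1 : bs (lft μ) 0 1 n =
      ((∑ j ∈ Finset.range (2 ^ n), tlth μ n j ^ 2) / ((2 ^ n : ℕ) : ℝ)) / 2 := by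
    rw [tl_bs hμ]
    push_cast
    field_simp
  have e2 : ∫ x in (0 : ℝ)..1, ‖beur μ (R * ee x)‖ ^ 2 = (∫ x in (0 : ℝ)..1, g x ^ 2) / 2 := by
    have h1 := mean_im_sq hμ hR
    have h2 : ∫ x in (0 : ℝ)..1, g x ^ 2 = 4 * ∫ x in (0 : ℝ)..1, (beur μ (R * ee x)).im ^ 2 := by
      rw [← intervalIntegral.integral_const_mul]
      refine intervalIntegral.integral_congr fun x _ => ?_
      simp only [hg]; ring
    rw [h2, h1]; ring
  have e3 : ∀ t : ℝ, Real.sqrt (t / 2) = Real.sqrt t / Real.sqrt 2 := fun t =>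
    Real.sqrt_div' t (by norm_num)
  rw [e1, e2, e3, e3, ← sub_div, abs_div]
  have hs : 1 ≤ |Real.sqrt 2| := by
    rw [abs_of_nonneg (Real.sqrt_nonneg _)]
    exact Real.one_le_sqrt.2 (by norm_num)
  exact (div_le_self (abs_nonneg _) hs).trans key

end Pool.Agent.QCD
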