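import Pool.Agent.Lib.MP_f30fea_an.Base
import Pool.Agent.Lib.MP_f30fea_an.TransL2

/-!
# Asymptotic variance and quadratic variation

With `R = e^{2πy}`, the quantity in `avar (beur μ)` at `R` is `(R/|log (R-1)|) ∫_0^1 ‖beur μ (R ee x)‖² dx`
(substitution `θ = 2πx`).  As `y → 0`: `R → 1`, `log (R-1) = log y + O(1)`, and if
`2^{-n}/2 ≤ y ≤ 2^{-n}` then `|log (R-1)| = n log 2 + O(1)`.  By `trans_l2` and `bs ≤ C n` (`bs_le`):
`|bs (lft μ) 0 1 n - ∫ ‖beur μ (R ee x)‖² dx| ≤ C' √(n+1)` uniformly in `μ`.  So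
`avar (beur μ) = limsup_n bs (lft μ) 0 1 n / (n log 2)` (in `[0,∞]`), uniformly bounded by `C/log 2`.
`var_upper`: `avar (beur μ) ≤ sigma2`.  `var_lower`: choose `μ` with `avar (beur μ) > sigma2 - ε/2`, then
frequently many `R` close to `1`, hence large `n`.
-/

open Complex MeasureTheory Filter Topology Set
open scoped ContDiff ENNReal ComplexConjugate

noncomputable section

namespace Pool.Agent.QCD

private theorem tv_env {μ : ℂ → ℂ} (hμ : Env μ) : Env (lft μ) := by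
  have hee : Measurable ee := by
    have : Continuous ee := by unfold ee; fun_prop
    exact this.measurable
  refine ⟨?_, fun ζ => ?_⟩
  · unfold lft
    exact ((hμ.1.comp hee).neg.mul (Complex.continuous_conj.measurable.comp hee)).div hee
  · have h0 : ee ζ ≠ 0 := Complex.exp_ne_zero _
    unfold lft
    rw [norm_div, norm_mul, norm_neg, RCLike.norm_conj, mul_div_assoc, div_self (norm_ne_zero_iff.mpr h0),
      mul_one]
    exact hμ.2 _

/-- mean over the circle of radius `R` -/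
private def tvJ (μ : ℂ → ℂ) (R : ℝ) : ℝ := ∫ x in (0 : ℝ)..1, ‖beur μ (R * ee x)‖ ^ 2

private theorem tvJ_nonneg (μ : ℂ → ℂ) (R : ℝ) : 0 ≤ tvJ μ R :=
  intervalIntegral.integral_nonneg zero_le_one fun _ _ => by positivity

/-- the quantity in `avar` -/
private theorem tv_sub (μ : ℂ → ℂ) (R : ℝ) : (2 * Real.pi * |Real.log (R - 1)|)⁻¹ *
    ∫ θ in (0 : ℝ)..(2 * Real.pi), ‖beur μ (R * exp (θ * I))‖ ^ 2 * R =
      R * tvJ μ R / |Real.log (R - 1)| := by
  have h1 : tvJ μ R = (2 * Real.pi)⁻¹ * ∫ θ in (0 : ℝ)..(2 * Real.pi),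
      ‖beur μ (R * exp (θ * I))‖ ^ 2 := by
    have h2 := intervalIntegral.integral_comp_mul_left (a := 0) (b := 1)
      (fun θ : ℝ => ‖beur μ (R * exp (θ * I))‖ ^ 2) (c := 2 * Real.pi) (by positivity)
    rw [mul_zero, mul_one, smul_eq_mul] at h2
    rw [← h2]
    unfold tvJ
    congr 1
    funext x
    congr 3
    unfold ee
    congr 2
    push_cast
    ring
  rw [intervalIntegral.integral_mul_const, h1, mul_inv]
  generalize (∫ θ in (0 : ℝ)..(2 * Real.pi), ‖beur μ (R * exp (θ * I))‖ ^ 2) = q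
  ring

/-- the logarithm in the window with number `n` -/
private theorem tv_win {n : ℕ} (hn : 4 ≤ n) {y : ℝ} (h1 : 1 / 2 ^ n / 2 ≤ y) (h2 : y ≤ 1 / 2 ^ n) :
    1 < Real.exp (2 * Real.pi * y) ∧ Real.exp (2 * Real.pi * y) ≤ 1 + 4 * Real.pi / 2 ^ n ∧
      |Real.log (Real.exp (2 * Real.pi * y) - 1)| ≤ n * Real.log 2 ∧
      n * Real.log 2 - Real.log (4 * Real.pi) ≤ |Real.log (Real.exp (2 * Real.pi * y) - 1)| := by
  have hpi := Real.pi_pos
  have hpi3 := Real.pi_gt_three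
  have hpi4 := Real.pi_le_four
  have h2n : (0 : ℝ) < 2 ^ n := by positivity
  have hy0 : 0 < y := lt_of_lt_of_le (by positivity) h1
  have h16 : (16 : ℝ) ≤ 2 ^ n := by
    calc (16 : ℝ) = 2 ^ 4 := by norm_num
      _ ≤ 2 ^ n := pow_le_pow_right₀ (by norm_num) hn
  have hy16 : y ≤ 1 / 16 := h2.trans (one_div_le_one_div_of_le (by norm_num) h16)
  have hx0 : 0 < 2 * Real.pi * y := by positivity
  have hx1 : |2 * Real.pi * y| ≤ 1 := by
    rw [abs_of_pos hx0]
    nlinarith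
  have hlow : 2 * Real.pi * y ≤ Real.exp (2 * Real.pi * y) - 1 := by
    have := Real.add_one_le_exp (2 * Real.pi * y)
    linarith
  have hup : Real.exp (2 * Real.pi * y) - 1 ≤ 2 * (2 * Real.pi * y) := by
    have h3 := Real.abs_exp_sub_one_le hx1
    rw [abs_of_pos hx0] at h3
    exact (le_abs_self _).trans h3
  set E := Real.exp (2 * Real.pi * y) - 1 with hE
  have hE0 : 0 < E := lt_of_lt_of_le hx0 hlow
  have hE1 : E ≤ 1 := by nlinarith
  have hElow : 1 / 2 ^ n ≤ E := by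
    have : 1 / 2 ^ n ≤ 2 * y := by linarith
    nlinarith
  have hEup : E ≤ 4 * Real.pi / 2 ^ n := by
    calc E ≤ 4 * Real.pi * y := by linarith
      _ ≤ 4 * Real.pi * (1 / 2 ^ n) := mul_le_mul_of_nonneg_left h2 (by positivity)
      _ = 4 * Real.pi / 2 ^ n := by ring
  have hlog : |Real.log E| = -Real.log E := abs_of_nonpos (Real.log_nonpos hE0.le hE1)
  refine ⟨by linarith, by linarith, ?_, ?_⟩
  · rw [hlog]
    have h3 := Real.log_le_log (by positivity) hElow
    rw [Real.log_div one_ne_zero h2n.ne', Real.log_one, Real.log_pow] at h3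
    linarith
  · rw [hlog]
    have h3 := Real.log_le_log hE0 hEup
    rw [Real.log_div (by positivity) h2n.ne', Real.log_pow] at h3
    linarith

/-- every `R` close to `1` lies in a window with a large number -/
private theorem tv_near (M : ℕ) (hM : 4 ≤ M) : ∀ᶠ R in 𝓝[>] (1 : ℝ), ∃ n : ℕ, M ≤ n ∧ ∃ y : ℝ,
    1 / 2 ^ n / 2 ≤ y ∧ y ≤ 1 / 2 ^ n ∧ R = Real.exp (2 * Real.pi * y) := by
  have hpi := Real.pi_pos
  have h1 : (1 : ℝ) < Real.exp (2 * Real.pi * (1 / 2) ^ M) := by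
    rw [← Real.exp_zero]
    exact Real.exp_lt_exp.mpr (by positivity)
  filter_upwards [Ioo_mem_nhdsGT h1] with R hR
  have hR0 : 0 < R := by linarith [hR.1]
  set y := Real.log R / (2 * Real.pi) with hy
  have hy0 : 0 < y := div_pos (Real.log_pos hR.1) (by positivity)
  have hRy : R = Real.exp (2 * Real.pi * y) := by
    rw [hy, mul_div_cancel₀ _ (by positivity), Real.exp_log hR0]
  have hyM : y ≤ (1 / 2) ^ M := by
    have h2 : Real.log R ≤ 2 * Real.pi * (1 / 2) ^ M := by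
      rw [← Real.log_exp (2 * Real.pi * (1 / 2) ^ M)]
      exact Real.log_le_log hR0 hR.2.le
    rw [hy, div_le_iff₀ (by positivity)]
    linarith
  obtain ⟨n, hn1, hn2⟩ := exists_nat_pow_near_of_lt_one hy0
    (hyM.trans (pow_le_one₀ (by norm_num) (by norm_num))) (y := (1 / 2 : ℝ)) (by norm_num) (by norm_num)
  refine ⟨n, ?_, y, ?_, ?_, hRy⟩
  · by_contra hcon
    push Not at hcon
    have h3 : ((1 : ℝ) / 2) ^ M ≤ (1 / 2) ^ (n + 1) :=
      pow_le_pow_of_le_one (by norm_num) (by norm_num) hcon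
    linarith
  · rw [pow_succ, one_div_pow] at hn1
    linarith
  · rw [one_div_pow] at hn2
    exact hn2

private theorem tv_tendsto : Tendsto (fun n : ℕ => Real.exp (2 * Real.pi * (1 / 2 ^ n))) atTop
    (𝓝[>] (1 : ℝ)) := by
  have hpi := Real.pi_pos
  rw [tendsto_nhdsWithin_iff]
  constructor
  · have h1 : Tendsto (fun n : ℕ => ((1 : ℝ) / 2) ^ n) atTop (𝓝 0) :=
      tendsto_pow_atTop_nhds_zero_of_lt_one (by norm_num) (by norm_num)
    have h2 : Tendsto (fun n : ℕ => 2 * Real.pi * (1 / 2 ^ n)) atTop (𝓝 0) := by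
      have h3 := h1.const_mul (2 * Real.pi)
      rw [mul_zero] at h3
      simpa [one_div_pow] using h3
    have h4 := (Real.continuous_exp.tendsto 0).comp h2
    rw [Real.exp_zero] at h4
    exact h4
  · refine Eventually.of_forall fun n => ?_
    change (1 : ℝ) < _
    rw [← Real.exp_zero]
    exact Real.exp_lt_exp.mpr (by positivity)

theorem sigma2_lt_top : sigma2 < ⊤ := by
  obtain ⟨C, hC, hT⟩ := trans_l2
  obtain ⟨B, hB, hbs⟩ := bs_le
  have hlog2 : 0 < Real.log 2 := Real.log_pos (by norm_num)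
  have hpi := Real.pi_pos
  have hpi4 := Real.pi_le_four
  obtain ⟨M₀, hM₀⟩ := exists_nat_gt (2 * Real.log (4 * Real.pi) / Real.log 2)
  set M := max M₀ 4
  have hM4 : 4 ≤ M := le_max_right _ _
  set K : ℝ := 8 * (B + C ^ 2) / Real.log 2 with hK
  have key : ∀ μ, Env μ → avar (beur μ) ≤ ENNReal.ofReal K := by
    intro μ hμ
    unfold avar
    apply limsup_le_of_le
    · isBoundedDefault
    · filter_upwards [tv_near M hM4] with R hR
      obtain ⟨n, hn, y, h1, h2, rfl⟩ := hR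
      obtain ⟨w1, w2, w3, w4⟩ := tv_win (hM4.trans hn) h1 h2
      rw [tv_sub]
      apply ENNReal.ofReal_le_ofReal
      have hn1 : (1 : ℝ) ≤ n := by exact_mod_cast (show 1 ≤ n by omega)
      have hn0 : (M₀ : ℝ) ≤ n := by exact_mod_cast (le_max_left _ _).trans hn
      have h3 : 2 * Real.log (4 * Real.pi) < n * Real.log 2 := by
        rw [div_lt_iff₀ hlog2] at hM₀
        nlinarith
      have hL : n * Real.log 2 / 2 ≤ |Real.log (Real.exp (2 * Real.pi * y) - 1)| := by linarith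
      have hR2 : Real.exp (2 * Real.pi * y) ≤ 2 := by
        have h16 : (16 : ℝ) ≤ 2 ^ n := by
          calc (16 : ℝ) = 2 ^ 4 := by norm_num
            _ ≤ 2 ^ n := pow_le_pow_right₀ (by norm_num) (hM4.trans hn)
        have : 4 * Real.pi / 2 ^ n ≤ 1 := by
          rw [div_le_one (by positivity)]
          linarith
        linarith
      have hJ : tvJ μ (Real.exp (2 * Real.pi * y)) ≤ 2 * (B + C ^ 2) * n := by
        have h4 := hT μ hμ n y h1 h2
        have h5 := hbs (lft μ) (tv_env hμ) 0 1 one_pos n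
        have h6 := bs_nonneg (lft μ) 0 1 n
        have h7 := tvJ_nonneg μ (Real.exp (2 * Real.pi * y))
        have h8 : √(tvJ μ (Real.exp (2 * Real.pi * y))) ≤ √(bs (lft μ) 0 1 n) + C := by
          have := (abs_le.mp h4).1
          unfold tvJ
          linarith
        have h9 := Real.sq_sqrt h7
        have h10 := Real.sq_sqrt h6
        have h11 := Real.sqrt_nonneg (tvJ μ (Real.exp (2 * Real.pi * y)))
        have h12 := Real.sqrt_nonneg (bs (lft μ) 0 1 n)
        have h13 : √(tvJ μ (Real.exp (2 * Real.pi * y))) ^ 2 ≤ (√(bs (lft μ) 0 1 n) + C) ^ 2 :=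
          pow_le_pow_left₀ h11 h8 2
        have h14 : (√(bs (lft μ) 0 1 n) + C) ^ 2 ≤ 2 * √(bs (lft μ) 0 1 n) ^ 2 + 2 * C ^ 2 := by
          nlinarith [sq_nonneg (√(bs (lft μ) 0 1 n) - C)]
        have h15 : C ^ 2 ≤ C ^ 2 * n := le_mul_of_one_le_right (sq_nonneg C) hn1
        rw [h9] at h13
        rw [h10] at h14
        linarith
      have hLpos : 0 < |Real.log (Real.exp (2 * Real.pi * y) - 1)| :=
        lt_of_lt_of_le (by positivity) hL
      rw [div_le_iff₀ hLpos]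
      have h16 := tvJ_nonneg μ (Real.exp (2 * Real.pi * y))
      calc Real.exp (2 * Real.pi * y) * tvJ μ (Real.exp (2 * Real.pi * y))
          ≤ 2 * (2 * (B + C ^ 2) * n) := mul_le_mul hR2 hJ h16 (by norm_num)
        _ = K * (n * Real.log 2 / 2) := by
            rw [hK]
            field_simp
            ring
        _ ≤ K * |Real.log (Real.exp (2 * Real.pi * y) - 1)| :=
            mul_le_mul_of_nonneg_left hL (by positivity)
  unfold sigma2
  exact lt_of_le_of_lt (iSup_le fun μ => key μ.1 μ.2) ENNReal.ofReal_lt_top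

theorem var_upper {μ : ℂ → ℂ} (hμ : Env μ) {ε : ℝ} (hε : 0 < ε) : ∃ N : ℕ, ∀ n ≥ N,
    bs (lft μ) 0 1 n ≤ (sigma2.toReal + ε) * (n * Real.log 2) := by
  obtain ⟨C, hC, hT⟩ := trans_l2
  have hlog2 : 0 < Real.log 2 := Real.log_pos (by norm_num)
  have hs0 : 0 ≤ sigma2.toReal := ENNReal.toReal_nonneg
  set s : ℝ := sigma2.toReal + ε / 2 with hs
  have hspos : 0 < s := by positivity
  have hav : avar (beur μ) < ENNReal.ofReal s := by
    have h1 : avar (beur μ) ≤ sigma2 :=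
      le_iSup (fun μ : {μ : ℂ → ℂ // Measurable μ ∧ ∀ z, ‖μ z‖ ≤ 1} => avar (beur μ.1)) ⟨μ, hμ⟩
    refine lt_of_le_of_lt h1 ?_
    rw [← ENNReal.ofReal_toReal sigma2_lt_top.ne]
    exact (ENNReal.ofReal_lt_ofReal_iff hspos).mpr (by linarith)
  have hev : ∀ᶠ R in 𝓝[>] (1 : ℝ), ENNReal.ofReal
      ((2 * Real.pi * |Real.log (R - 1)|)⁻¹ *
        ∫ θ in (0 : ℝ)..(2 * Real.pi), ‖beur μ (R * exp (θ * I))‖ ^ 2 * R) < ENNReal.ofReal s :=
    eventually_lt_of_limsup_lt hav
  obtain ⟨N₁, hN₁⟩ := eventually_atTop.mp (tv_tendsto.eventually hev)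
  obtain ⟨N₂, hN₂⟩ := exists_nat_gt ((4 * s * C ^ 2 / ε + C ^ 2) / (ε / 4 * Real.log 2))
  refine ⟨max (max N₁ N₂) 4, fun n hn => ?_⟩
  have hn1 : N₁ ≤ n := ((le_max_left _ _).trans (le_max_left _ _)).trans hn
  have hn2 : (N₂ : ℝ) ≤ n := by exact_mod_cast ((le_max_right _ _).trans (le_max_left _ _)).trans hn
  have hn4 : 4 ≤ n := (le_max_right _ _).trans hn
  have hpow : (0 : ℝ) < 2 ^ n := by positivity
  have hy1 : (1 : ℝ) / 2 ^ n / 2 ≤ 1 / 2 ^ n := by
    have : (0 : ℝ) < 1 / 2 ^ n := by positivity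
    linarith
  obtain ⟨w1, w2, w3, w4⟩ := tv_win hn4 hy1 le_rfl
  have h1 := hN₁ n hn1
  rw [tv_sub, ENNReal.ofReal_lt_ofReal_iff hspos] at h1
  set R := Real.exp (2 * Real.pi * (1 / 2 ^ n)) with hR
  have hJ0 := tvJ_nonneg μ R
  have hX : tvJ μ R ≤ s * (n * Real.log 2) := by
    rcases eq_or_lt_of_le (abs_nonneg (Real.log (R - 1))) with h0 | h0
    · -- the logarithm is not zero
      exfalso
      have h3 : R - 1 < 1 := by
        have hpi4 := Real.pi_le_four
        have h16 : (16 : ℝ) ≤ 2 ^ n := by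
          calc (16 : ℝ) = 2 ^ 4 := by norm_num
            _ ≤ 2 ^ n := pow_le_pow_right₀ (by norm_num) hn4
        have hpi32 : Real.pi < 3.15 := Real.pi_lt_d2
        have : 4 * Real.pi / 2 ^ n < 1 := by
          rw [div_lt_one (by positivity)]
          linarith
        linarith
      have h4 : Real.log (R - 1) < 0 := Real.log_neg (by linarith) h3
      rw [eq_comm, abs_eq_zero] at h0
      linarith
    · rw [div_lt_iff₀ h0] at h1
      have h5 : tvJ μ R ≤ R * tvJ μ R := le_mul_of_one_le_left hJ0 w1.le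
      have h6 : s * |Real.log (R - 1)| ≤ s * (n * Real.log 2) :=
        mul_le_mul_of_nonneg_left w3 hspos.le
      linarith
  have h4 := hT μ hμ n _ hy1 le_rfl
  have h6 := bs_nonneg (lft μ) 0 1 n
  have h8 : √(bs (lft μ) 0 1 n) ≤ √(tvJ μ R) + C := by
    have := (abs_le.mp h4).2
    unfold tvJ
    linarith
  have h9 := Real.sq_sqrt hJ0
  have h10 := Real.sq_sqrt h6
  have h11 := Real.sqrt_nonneg (tvJ μ R)
  have h13 : √(bs (lft μ) 0 1 n) ^ 2 ≤ (√(tvJ μ R) + C) ^ 2 :=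
    pow_le_pow_left₀ (Real.sqrt_nonneg _) h8 2
  rw [h10] at h13
  -- `2 C √J ≤ η J + C² / η`, `η = ε / (4 s)`
  set j := √(tvJ μ R) with hj
  have h14 : 2 * C * j ≤ ε / (4 * s) * j ^ 2 + 4 * s * C ^ 2 / ε := by
    have h15 : 0 ≤ ε / (4 * s) * (j - 4 * s * C / ε) ^ 2 := by positivity
    have h16 : ε / (4 * s) * (j - 4 * s * C / ε) ^ 2 =
        ε / (4 * s) * j ^ 2 - 2 * C * j + 4 * s * C ^ 2 / ε := by
      field_simp
      ring
    linarith
  have h17 : ε / (4 * s) * j ^ 2 ≤ ε / 4 * (n * Real.log 2) := by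
    rw [h9]
    calc ε / (4 * s) * tvJ μ R ≤ ε / (4 * s) * (s * (n * Real.log 2)) :=
          mul_le_mul_of_nonneg_left hX (by positivity)
      _ = ε / 4 * (n * Real.log 2) := by field_simp
  have h18 : 4 * s * C ^ 2 / ε + C ^ 2 ≤ ε / 4 * (n * Real.log 2) := by
    rw [div_lt_iff₀ (by positivity)] at hN₂
    have : (N₂ : ℝ) * (ε / 4 * Real.log 2) ≤ n * (ε / 4 * Real.log 2) :=
      mul_le_mul_of_nonneg_right hn2 (by positivity)
    linarith
  have h19 : (j + C) ^ 2 = j ^ 2 + 2 * C * j + C ^ 2 := by ring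
  rw [h19, h9] at h13
  have h20 : (sigma2.toReal + ε) * (n * Real.log 2) =
      s * (n * Real.log 2) + ε / 2 * (n * Real.log 2) := by rw [hs]; ring
  rw [h20]
  linarith

theorem var_lower {ε : ℝ} (hε : 0 < ε) (N : ℕ) : ∃ μ, Env μ ∧ ∃ n ≥ N,
    (sigma2.toReal - ε) * (n * Real.log 2) ≤ bs (lft μ) 0 1 n := by
  have hlog2 : 0 < Real.log 2 := Real.log_pos (by norm_num)
  rcases le_or_gt (sigma2.toReal - ε) 0 with hneg | hpos
  · refine ⟨fun _ => 0, ⟨measurable_const, fun z => by simp⟩, N, le_rfl, ?_⟩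
    refine le_trans ?_ (bs_nonneg _ _ _ _)
    exact mul_nonpos_of_nonpos_of_nonneg hneg (by positivity)
  obtain ⟨C, hC, hT⟩ := trans_l2
  have hpi := Real.pi_pos
  set σ : ℝ := sigma2.toReal with hσ
  set s : ℝ := σ - ε / 4 with hs
  have hspos : 0 < s := by rw [hs]; linarith
  have hlt : ENNReal.ofReal s < sigma2 := by
    rw [← ENNReal.ofReal_toReal sigma2_lt_top.ne]
    exact (ENNReal.ofReal_lt_ofReal_iff (by linarith)).mpr (by rw [hs]; linarith)
  unfold sigma2 at hlt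
  obtain ⟨⟨μ, hμ⟩, hav⟩ := lt_iSup_iff.mp hlt
  refine ⟨μ, hμ, ?_⟩
  have hfr : ∃ᶠ R in 𝓝[>] (1 : ℝ), ENNReal.ofReal s < ENNReal.ofReal
      ((2 * Real.pi * |Real.log (R - 1)|)⁻¹ *
        ∫ θ in (0 : ℝ)..(2 * Real.pi), ‖beur μ (R * exp (θ * I))‖ ^ 2 * R) :=
    frequently_lt_of_lt_limsup (by isBoundedDefault) hav
  -- the constants
  set η : ℝ := ε / (4 * (σ + 1)) with hη
  have hσ1 : 0 < σ := by linarith
  have hη0 : 0 < η := by positivity
  have hη1 : η ≤ 1 := by
    rw [hη, div_le_one (by positivity)]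
    linarith
  obtain ⟨N₁, hN₁⟩ := exists_nat_gt ((C ^ 2 / η) / (ε / 4 * Real.log 2))
  obtain ⟨N₂, hN₂⟩ := exists_nat_gt (s * Real.log (4 * Real.pi) / (ε / 8 * Real.log 2))
  obtain ⟨N₃, hN₃⟩ := exists_nat_gt (4 * Real.pi / (ε / (8 * s)))
  set M := max (max (max N N₁) (max N₂ N₃)) 4
  obtain ⟨R, hR1, hR2⟩ := (hfr.and_eventually (tv_near M (le_max_right _ _))).exists
  obtain ⟨n, hn, y, h1, h2, rfl⟩ := hR2
  have hn4 : 4 ≤ n := (le_max_right _ _).trans hn
  have hnM : max (max N N₁) (max N₂ N₃) ≤ n := (le_max_left _ _).trans hn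
  have hnN : N ≤ n := ((le_max_left _ _).trans (le_max_left _ _)).trans hnM
  have hn1 : (N₁ : ℝ) ≤ n := by exact_mod_cast ((le_max_right _ _).trans (le_max_left _ _)).trans hnM
  have hn2 : (N₂ : ℝ) ≤ n := by exact_mod_cast ((le_max_left _ _).trans (le_max_right _ _)).trans hnM
  have hn3 : (N₃ : ℝ) ≤ n := by exact_mod_cast ((le_max_right _ _).trans (le_max_right _ _)).trans hnM
  refine ⟨n, hnN, ?_⟩
  obtain ⟨w1, w2, w3, w4⟩ := tv_win hn4 h1 h2
  rw [tv_sub] at hR1
  set R := Real.exp (2 * Real.pi * y) with hR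
  have hJ0 := tvJ_nonneg μ R
  have hR0 : 0 < R := by linarith
  have hR1' : s < R * tvJ μ R / |Real.log (R - 1)| := (ENNReal.ofReal_lt_ofReal_iff_of_nonneg hspos.le).mp hR1
  have hL0 : 0 < |Real.log (R - 1)| := by
    rcases eq_or_lt_of_le (abs_nonneg (Real.log (R - 1))) with h0 | h0
    · rw [← h0, div_zero] at hR1'
      linarith
    · exact h0
  rw [lt_div_iff₀ hL0] at hR1'
  have hn0 : (0 : ℝ) ≤ n := Nat.cast_nonneg n
  -- lower bound of `J`
  have hRle : R ≤ 1 + ε / (8 * s) := by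
    have h3 : (n : ℝ) ≤ 2 ^ n := by exact_mod_cast Nat.lt_two_pow_self.le
    have h4 : 4 * Real.pi / 2 ^ n ≤ ε / (8 * s) := by
      rw [div_lt_iff₀ (by positivity)] at hN₃
      rw [div_le_iff₀ (by positivity)]
      have : (N₃ : ℝ) * (ε / (8 * s)) ≤ 2 ^ n * (ε / (8 * s)) :=
        mul_le_mul_of_nonneg_right (hn3.trans h3) (by positivity)
      linarith
    linarith
  have h5 : s * Real.log (4 * Real.pi) ≤ ε / 8 * (n * Real.log 2) := by
    rw [div_lt_iff₀ (by positivity)] at hN₂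
    have : (N₂ : ℝ) * (ε / 8 * Real.log 2) ≤ n * (ε / 8 * Real.log 2) :=
      mul_le_mul_of_nonneg_right hn2 (by positivity)
    linarith
  have hnl : 0 ≤ (n : ℝ) * Real.log 2 := by positivity
  have hJ : (σ - ε / 2) * (n * Real.log 2) ≤ tvJ μ R := by
    have h6 : s * (n * Real.log 2) - ε / 8 * (n * Real.log 2) ≤ R * tvJ μ R := by
      have h7 : s * (n * Real.log 2 - Real.log (4 * Real.pi)) ≤ s * |Real.log (R - 1)| :=
        mul_le_mul_of_nonneg_left w4 hspos.le
      linarith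
    have h8 : R * ((σ - ε / 2) * (n * Real.log 2)) ≤ s * (n * Real.log 2) - ε / 8 * (n * Real.log 2) := by
      have h9 : 0 ≤ (σ - ε / 2) * (n * Real.log 2) := mul_nonneg (by linarith) hnl
      have h10 : R * ((σ - ε / 2) * (n * Real.log 2)) ≤
          (1 + ε / (8 * s)) * ((σ - ε / 2) * (n * Real.log 2)) := mul_le_mul_of_nonneg_right hRle h9
      have h11 : ε / (8 * s) * (σ - ε / 2) ≤ ε / 8 := by
        rw [div_mul_eq_mul_div, div_le_iff₀ (by positivity)]
        have : σ - ε / 2 ≤ s := by rw [hs]; linarith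
        nlinarith
      have h12 : ε / (8 * s) * (σ - ε / 2) * (n * Real.log 2) ≤ ε / 8 * (n * Real.log 2) :=
        mul_le_mul_of_nonneg_right h11 hnl
      have h13 : (1 + ε / (8 * s)) * ((σ - ε / 2) * (n * Real.log 2)) =
          (σ - ε / 2) * (n * Real.log 2) + ε / (8 * s) * (σ - ε / 2) * (n * Real.log 2) := by ring
      have h14 : s * (n * Real.log 2) = (σ - ε / 2) * (n * Real.log 2) + ε / 4 * (n * Real.log 2) := by
        rw [hs]; ring
      linarith
    exact le_of_mul_le_mul_left (h8.trans h6) hR0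
  have h4 := hT μ hμ n y h1 h2
  have h6 := bs_nonneg (lft μ) 0 1 n
  set j := √(tvJ μ R) with hj
  set q := √(bs (lft μ) 0 1 n) with hq
  have h8 : j - C ≤ q := by
    have := (abs_le.mp h4).1
    have hj' : j = √(∫ x in (0 : ℝ)..1, ‖beur μ (R * ee x)‖ ^ 2) := rfl
    rw [← hj'] at this
    linarith
  have h9 : j ^ 2 = tvJ μ R := Real.sq_sqrt hJ0
  have h10 : q ^ 2 = bs (lft μ) 0 1 n := Real.sq_sqrt h6
  have h11 : 0 ≤ j := Real.sqrt_nonneg _
  have h12 : 0 ≤ q := Real.sqrt_nonneg _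
  have h13 : j ^ 2 - 2 * C * j ≤ q ^ 2 := by
    rcases le_or_gt j C with h | h
    · nlinarith
    · nlinarith
  have h14 : 2 * C * j ≤ η * j ^ 2 + C ^ 2 / η := by
    have h15 : 0 ≤ η * (j - C / η) ^ 2 := by positivity
    have h16 : η * (j - C / η) ^ 2 = η * j ^ 2 - 2 * C * j + C ^ 2 / η := by
      field_simp
      ring
    linarith
  have h17 : C ^ 2 / η ≤ ε / 4 * (n * Real.log 2) := by
    rw [div_lt_iff₀ (by positivity)] at hN₁
    have : (N₁ : ℝ) * (ε / 4 * Real.log 2) ≤ n * (ε / 4 * Real.log 2) :=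
      mul_le_mul_of_nonneg_right hn1 (by positivity)
    linarith
  have h18 : (1 - η) * ((σ - ε / 2) * (n * Real.log 2)) ≤ (1 - η) * j ^ 2 := by
    rw [h9]
    exact mul_le_mul_of_nonneg_left hJ (by linarith)
  have h19 : η * ((σ - ε / 2) * (n * Real.log 2)) ≤ ε / 4 * (n * Real.log 2) := by
    have h20 : η * (σ - ε / 2) ≤ ε / 4 := by
      rw [hη, div_mul_eq_mul_div, div_le_iff₀ (by positivity)]
      nlinarith
    calc η * ((σ - ε / 2) * (n * Real.log 2)) = η * (σ - ε / 2) * (n * Real.log 2) := by ring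
      _ ≤ _ := mul_le_mul_of_nonneg_right h20 hnl
  rw [← h10]
  nlinarith

end Pool.Agent.QCD
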