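import Pool.Agent.Lib.MP_f30fea_an.Base
import Pool.Agent.Lib.MP_f30fea_an.SelfSim
import Pool.Agent.Lib.MP_f30fea_an.Down
import Pool.Agent.Lib.MP_f30fea_an.TransVar

/-!
# The block lemma

`block_up`: by `bs_scale` we may assume `a = 0`, `r = 1` (replace `α` by `ζ ↦ α (a + r ζ)`), `T ≥ 1`.  Let `β` be
from `exists_selfsim`, `μ` from `exists_down`, so `bs (lft μ) 0 1 n = bs β 0 1 n` (only `im ζ > 0` matters).  By
`bs_add` and induction `bs β 0 1 (mT) ≥ m (bs α 0 1 T - C)`.  With `var_upper`, `n = mT → ∞`: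
`(bs α 0 1 T - C)/T ≤ (sigma2.toReal + ε) log 2` for every `ε > 0`.
`block_low`: let `C` be from `exists_selfsim`; by `var_lower` there are `μ` and `T ≥ 1` arbitrarily large with
`bs (lft μ) 0 1 T ≥ (sigma2.toReal - ε') T log 2`; take `T ≥ 2C/ε`, `ε' log 2 ≤ ε/2`, and `β` from
`exists_selfsim` for `α = lft μ` (`Env (lft μ)`).
-/

open Complex MeasureTheory Filter Topology Set
open scoped ContDiff ENNReal ComplexConjugate

noncomputable section

namespace Pool.Agent.QCD

theorem block_env_scale {α : ℂ → ℂ} (hα : Env α) (a r : ℝ) :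
    Env (fun ζ => α (a + r * ζ)) :=
  ⟨hα.1.comp (measurable_const.add (measurable_id.const_mul (r : ℂ))), fun ζ => hα.2 _⟩

theorem block_env_lft {μ : ℂ → ℂ} (hμ : Env μ) : Env (lft μ) := by
  have hee : Measurable ee := by
    unfold ee
    fun_prop
  refine ⟨?_, fun ζ => ?_⟩
  · unfold lft
    exact (((hμ.1.comp hee).neg).mul (continuous_conj.measurable.comp hee)).div hee
  · have h0 : ee ζ ≠ 0 := exp_ne_zero _
    unfold lft
    rw [norm_div, norm_mul, norm_neg, RCLike.norm_conj, mul_div_cancel_right₀ _ (norm_ne_zero_iff.mpr h0)]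
    exact hμ.2 _

theorem block_kk_congr {α β : ℂ → ℂ} (h : ∀ ζ : ℂ, 0 < ζ.im → α ζ = β ζ) (a r : ℝ) :
    kk α a r = kk β a r := by
  unfold kk
  congr 2
  refine setIntegral_congr_fun (measurableSet_lt measurable_const Complex.measurable_im) ?_
  intro ζ hζ
  simp only [h ζ hζ]

theorem block_bs_congr {α β : ℂ → ℂ} (h : ∀ ζ : ℂ, 0 < ζ.im → α ζ = β ζ) (a r : ℝ) (T : ℕ) :
    bs α a r T = bs β a r T := by
  unfold bs
  simp only [block_kk_congr h]

theorem block_up : ∃ C : ℝ, 0 ≤ C ∧ ∀ α, Env α → ∀ a r : ℝ, 0 < r → ∀ T : ℕ,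
    bs α a r T ≤ sigma2.toReal * Real.log 2 * T + C := by
  obtain ⟨C, hC0, hC⟩ := exists_selfsim
  refine ⟨C, hC0, fun α hα a r hr T => ?_⟩
  rcases Nat.eq_zero_or_pos T with rfl | hT
  · simp [bs, hC0]
  have hsc : bs (fun ζ => α (a + r * ζ)) 0 1 T = bs α a r T := by
    have := bs_scale α 0 1 a r hr T
    rw [mul_zero, add_zero, mul_one] at this
    exact this
  obtain ⟨β, hβ, hper, hb⟩ := hC _ (block_env_scale hα a r) T hT
  rw [hsc] at hb
  obtain ⟨μ, hμ, -, hlft⟩ := exists_down hβ hper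
  have hind : ∀ m : ℕ, m * (bs α a r T - C) ≤ bs β 0 1 (m * T) := by
    intro m
    induction m with
    | zero =>
      rw [Nat.cast_zero, zero_mul]
      exact bs_nonneg _ _ _ _
    | succ m ih =>
      rw [Nat.succ_mul, bs_add]
      have h2 : (0 : ℝ) < 2 ^ (m * T) := by positivity
      have h1 : (bs α a r T - C) ≤
          (∑ l ∈ Finset.range (2 ^ (m * T)),
            bs β (0 + l * (1 / 2 ^ (m * T))) (1 / 2 ^ (m * T)) T) / 2 ^ (m * T) := by
        rw [le_div_iff₀ h2]
        calc (bs α a r T - C) * 2 ^ (m * T)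
            = ∑ _l ∈ Finset.range (2 ^ (m * T)), (bs α a r T - C) := by
              rw [Finset.sum_const, Finset.card_range, nsmul_eq_mul]
              push_cast
              ring
          _ ≤ _ := by
              refine Finset.sum_le_sum fun l hl => ?_
              have h3 := hb m l (Finset.mem_range.mp hl)
              have h4 : (0 + (l : ℝ) * (1 / 2 ^ (m * T))) = l / 2 ^ (m * T) := by ring
              rw [h4]
              have h5 := abs_le.mp h3
              linarith [h5.1]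
      push_cast
      linarith
  have hlog : 0 < Real.log 2 := Real.log_pos (by norm_num)
  have hTR : (0 : ℝ) < T := by exact_mod_cast hT
  refine sub_le_iff_le_add.mp (le_of_forall_pos_le_add fun ε' hε' => ?_)
  obtain ⟨N, hN⟩ := var_upper hμ (ε := ε' / (T * Real.log 2)) (by positivity)
  set m := N + 1 with hm
  have hmT : N ≤ m * T := by
    have : m * 1 ≤ m * T := Nat.mul_le_mul_left m hT
    omega
  have h1 := hN (m * T) hmT
  rw [block_bs_congr hlft] at h1
  have h2 := (hind m).trans h1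
  have hmR : (0 : ℝ) < m := by positivity
  have h3 : (sigma2.toReal + ε' / (T * Real.log 2)) * (((m * T : ℕ) : ℝ) * Real.log 2) =
      m * (sigma2.toReal * Real.log 2 * T + ε') := by
    push_cast
    field_simp
  rw [h3] at h2
  exact le_of_mul_le_mul_left h2 hmR

theorem block_low {ε : ℝ} (hε : 0 < ε) : ∃ T : ℕ, 1 ≤ T ∧ ∃ β, Env β ∧ (∀ ζ, β (ζ + 1) = β ζ) ∧
    ∀ m l : ℕ, l < 2 ^ (m * T) → (sigma2.toReal * Real.log 2 - ε) * T ≤
      bs β (l / 2 ^ (m * T)) (1 / 2 ^ (m * T)) T := by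
  obtain ⟨C, hC0, hC⟩ := exists_selfsim
  have hlog : 0 < Real.log 2 := Real.log_pos (by norm_num)
  obtain ⟨N, hN⟩ := exists_nat_ge (2 * C / ε)
  obtain ⟨μ, hμ, T, hT, hlow⟩ := var_lower (ε := ε / 2 / Real.log 2) (by positivity) (N + 1)
  obtain ⟨β, hβ, hper, hb⟩ := hC _ (block_env_lft hμ) T (by omega)
  refine ⟨T, by omega, β, hβ, hper, fun m l hl => ?_⟩
  have h1 := (abs_le.mp (hb m l hl)).1
  have h2 : (sigma2.toReal - ε / 2 / Real.log 2) * (T * Real.log 2) =
      (sigma2.toReal * Real.log 2 - ε / 2) * T := by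
    field_simp
  rw [h2] at hlow
  have h3 : (N : ℝ) ≤ T := by
    have : N ≤ T := by omega
    exact_mod_cast this
  have h4 : C ≤ ε / 2 * T := by
    rw [div_le_iff₀ hε] at hN
    nlinarith
  linarith

end Pool.Agent.QCD
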