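import Pool.Agent.Lib.MP_f30fea_an.Base

/-!
# Chords and dyadic arcs

`‖ee x - ee y‖ = 2 |sin (π (x - y))|`.  Let `a = j/2^n`, `b = (j+1)/2^n`, `j = ⌊2^n x⌋₊`, so `a ≤ x < b`.  For `u = a` or `b`:
`‖ee u - ee x‖ = 2 sin (π |u - x|) ≤ 2 sin (π/2^n)`-ish and `‖ee y - ee x‖ = 2 sin (π |x-y|) ≥ 2 sin (2π/2^n)` resp. by
monotonicity of `sin` on `[0, π/2]` and symmetry (`2/2^n ≤ |x-y| ≤ 1 - 2/2^n`, so `n ≥ 2`): hence
`‖ee u - ee x‖ ≤ ‖ee y - ee x‖`, and `WQS.one` (centre `ee x`) gives `‖W (ee u) - W (ee x)‖ ≤ 3 ‖W (ee y) - W (ee x)‖`; triangle inequality.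
-/

open Complex MeasureTheory Filter Topology Set
open scoped ContDiff ENNReal ComplexConjugate

noncomputable section

namespace Pool.Agent.QCD

private theorem chord_norm (x y : ℝ) : ‖ee x - ee y‖ = 2 * |Real.sin (Real.pi * |x - y|)| := by
  have e : ee x - ee y = ee y * (exp (I * ((2 * Real.pi * (x - y) : ℝ) : ℂ)) - 1) := by
    unfold ee
    rw [mul_sub, mul_one, ← Complex.exp_add]
    congr 2
    push_cast
    ring
  have h1 : ‖ee (y : ℂ)‖ = 1 := by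
    unfold ee
    rw [Complex.norm_exp]
    simp [Complex.mul_re, Complex.mul_im]
  rw [e, norm_mul, h1, one_mul, Complex.norm_exp_I_mul_ofReal_sub_one, Real.norm_eq_abs, abs_mul,
    abs_two]
  congr 1
  rcases abs_cases (x - y) with ⟨h, -⟩ | ⟨h, -⟩
  · rw [h]; congr 2; ring
  · rw [h, mul_neg, Real.sin_neg, abs_neg]; congr 2; ring

private theorem chord_mono {p s δ : ℝ} (hp : 0 ≤ p) (hpδ : p ≤ δ) (h1 : δ ≤ s) (h2 : s ≤ 1 - δ) :
    |Real.sin (Real.pi * p)| ≤ |Real.sin (Real.pi * s)| := by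
  have hpi := Real.pi_pos
  have hδ : δ ≤ 1 / 2 := by linarith
  have h0 : 0 ≤ Real.sin (Real.pi * p) := by
    apply Real.sin_nonneg_of_nonneg_of_le_pi
    · positivity
    · nlinarith
  have h3 : 0 ≤ Real.sin (Real.pi * s) := by
    apply Real.sin_nonneg_of_nonneg_of_le_pi
    · exact mul_nonneg hpi.le (by linarith)
    · nlinarith
  rw [abs_of_nonneg h0, abs_of_nonneg h3]
  rcases le_total s (1 / 2) with h | h
  · apply Real.sin_le_sin_of_le_of_le_pi_div_two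
    · nlinarith
    · nlinarith
    · exact mul_le_mul_of_nonneg_left (by linarith) hpi.le
  · have e : Real.sin (Real.pi * s) = Real.sin (Real.pi * (1 - s)) := by
      rw [mul_sub, mul_one, Real.sin_pi_sub]
    rw [e]
    apply Real.sin_le_sin_of_le_of_le_pi_div_two
    · nlinarith
    · nlinarith
    · exact mul_le_mul_of_nonneg_left (by linarith) hpi.le

theorem chord {W : ℂ → ℂ} (hW : WQS W) {x y : ℝ} (hx0 : 0 ≤ x) (hx1 : x < 1) (hy0 : 0 ≤ y)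
    (hy1 : y < 1) {n : ℕ} (h1 : 2 / 2 ^ n < |x - y|) (h2 : |x - y| < 1 - 2 / 2 ^ n) :
    ‖W (ee (((⌊2 ^ n * x⌋₊ : ℝ) + 1) / 2 ^ n : ℝ)) - W (ee ((⌊2 ^ n * x⌋₊ : ℝ) / 2 ^ n : ℝ))‖ ≤
      6 * ‖W (ee x) - W (ee y)‖ := by
  have hpow : (0 : ℝ) < 2 ^ n := by positivity
  have hfl := Nat.floor_le (show 0 ≤ 2 ^ n * x by positivity)
  have hfl2 := Nat.lt_floor_add_one (2 ^ n * x)
  set j : ℝ := (⌊2 ^ n * x⌋₊ : ℝ) with hj
  have ha : j / 2 ^ n ≤ x := by rw [div_le_iff₀ hpow]; linarith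
  have ha' : x - j / 2 ^ n ≤ 1 / 2 ^ n := by
    rw [sub_le_iff_le_add, ← add_div, le_div_iff₀ hpow]; linarith
  have hb : x ≤ (j + 1) / 2 ^ n := by rw [le_div_iff₀ hpow]; linarith
  have hb' : (j + 1) / 2 ^ n - x ≤ 1 / 2 ^ n := by
    rw [sub_le_iff_le_add, div_le_iff₀ hpow, add_mul, div_mul_cancel₀ _ hpow.ne']; linarith
  have hδ : (1 : ℝ) / 2 ^ n ≤ 2 / 2 ^ n := by gcongr; norm_num
  have key : ∀ u : ℝ, |u - x| ≤ 1 / 2 ^ n → ‖W (ee u) - W (ee x)‖ ≤ 3 * ‖W (ee x) - W (ee y)‖ := by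
    intro u hu
    have : ‖ee u - ee x‖ ≤ 2 * ‖ee y - ee x‖ := by
      have h3 : ‖ee (u : ℂ) - ee x‖ ≤ ‖ee (y : ℂ) - ee x‖ := by
        rw [chord_norm, chord_norm, abs_sub_comm y x]
        have := chord_mono (abs_nonneg _) (hu.trans hδ) h1.le h2.le
        linarith
      linarith [norm_nonneg (ee (y : ℂ) - ee x)]
    have h4 := hW.one _ _ _ this
    rwa [norm_sub_rev (W (ee (y : ℂ)))] at h4
  have k1 := key ((j + 1) / 2 ^ n) (by rw [abs_of_nonneg (by linarith)]; exact hb')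
  have k2 := key (j / 2 ^ n) (by rw [abs_sub_comm, abs_of_nonneg (by linarith)]; exact ha')
  calc ‖W (ee ((j + 1) / 2 ^ n : ℝ)) - W (ee (j / 2 ^ n : ℝ))‖
      = ‖(W (ee ((j + 1) / 2 ^ n : ℝ)) - W (ee x)) - (W (ee (j / 2 ^ n : ℝ)) - W (ee x))‖ := by
        congr 1; ring
    _ ≤ ‖W (ee ((j + 1) / 2 ^ n : ℝ)) - W (ee x)‖ + ‖W (ee (j / 2 ^ n : ℝ)) - W (ee x)‖ :=
        norm_sub_le _ _
    _ ≤ _ := by linarith

end Pool.Agent.QCD
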