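import Pool.Agent.Lib.MP_f30fea_an.Base

/-!
# Second moments of dyadic processes with bounded drift

Notation: a node `v` at generation `i` below the root `(n, j)` is `(n+i, 2^i j + l)`, `l < 2^i`;
`E` is the average over the nodes of one generation; `c ≤ C`, `C₁ = 2C`.
`Y v = Q end - Q v - c (T - i)` (function on the end nodes below `v`), `R v` its average and `S v` the
average of its square.  For a child `w` of a node `v`: `X w = Q w - Q v - c`, `|X w| ≤ 2C`, and on the end nodes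
below `w`: `Y v = X w + Y w`.  So `S v = average over the two children w of X w² + 2 X w R w + S w`.
With `a i = E (S v)` over the nodes of generation `i` (with `T - i` generations to go):
`a i ≤ a (i+1) + 4C² + 4C E |R w|`, `w` in generation `i+1`.  By `block`: `R w ≤ C`, so `|R w| ≤ 2C - R w`, and
`E (R w) = E Q_T - E Q_{i+1} - c (T-i-1) = R root - (E Q_{i+1} - Q root - c (i+1)) ≥ R root - C` by `block` again.
Hence `a i ≤ a (i+1) + 16 C² - 4 C R root`, `a T = 0`, `S root = a 0 ≤ T (16 C² - 4 C R root)`.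
(Averages of averages: `∑_{l<2^i} ∑_{m<2^S} f (2^S (2^i j + l) + m) = ∑_{l<2^{i+S}} f (2^{i+S} j + l)`.)
-/

open Complex MeasureTheory Filter Topology Set
open scoped ContDiff ENNReal ComplexConjugate

noncomputable section

namespace Pool.Agent.QCD

/-- a dyadic process with bounded increments and drift at most `c` up to bounded errors -/
structure QBd (C c : ℝ) (Q : ℕ → ℕ → ℝ) : Prop where
  zero : Q 0 0 = 0
  inc : ∀ n j : ℕ, j < 2 ^ n → |Q (n + 1) (2 * j) - Q n j| ≤ C ∧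
    |Q (n + 1) (2 * j + 1) - Q n j| ≤ C
  block : ∀ n j T : ℕ, j < 2 ^ n →
    (∑ l ∈ Finset.range (2 ^ T), Q (n + T) (2 ^ T * j + l)) / 2 ^ T ≤ Q n j + c * T + C

/-- the average over the nodes below -/
private def emAv (T : ℕ) (f : ℕ → ℝ) (j : ℕ) : ℝ :=
  (∑ l ∈ Finset.range (2 ^ T), f (2 ^ T * j + l)) / 2 ^ T

private lemma em_zero (f : ℕ → ℝ) (j : ℕ) : emAv 0 f j = f j := by
  simp [emAv]

private lemma em_succ (T : ℕ) (f : ℕ → ℝ) (j : ℕ) :
    emAv (T + 1) f j = (emAv T f (2 * j) + emAv T f (2 * j + 1)) / 2 := by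
  unfold emAv
  have h1 : (2 : ℕ) ^ (T + 1) = 2 ^ T + 2 ^ T := by ring
  have h2 : (2 : ℝ) ^ (T + 1) = 2 ^ T * 2 := by ring
  rw [h2]
  nth_rewrite 1 [h1]
  rw [Finset.sum_range_add]
  have h3 : ∀ l, 2 ^ (T + 1) * j + l = 2 ^ T * (2 * j) + l := by
    intro l
    ring
  have h4 : ∀ l, 2 ^ T * (2 * j) + (2 ^ T + l) = 2 ^ T * (2 * j + 1) + l := by
    intro l
    ring
  simp only [h3, h4]
  field_simp

private lemma em_add (T : ℕ) (f g : ℕ → ℝ) (j : ℕ) :
    emAv T (fun m => f m + g m) j = emAv T f j + emAv T g j := by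
  unfold emAv
  rw [Finset.sum_add_distrib, add_div]

private lemma em_mul (T : ℕ) (f : ℕ → ℝ) (c : ℝ) (j : ℕ) :
    emAv T (fun m => c * f m) j = c * emAv T f j := by
  unfold emAv
  rw [← Finset.mul_sum, mul_div_assoc]

private lemma em_const (T : ℕ) (c : ℝ) (j : ℕ) : emAv T (fun _ => c) j = c := by
  unfold emAv
  rw [Finset.sum_const, Finset.card_range, nsmul_eq_mul]
  push_cast
  field_simp

private lemma em_sub (T : ℕ) (f : ℕ → ℝ) (a b : ℝ) (j : ℕ) :
    emAv T (fun m => f m - a - b) j = emAv T f j - a - b := by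
  have h1 : (fun m => f m - a - b) = fun m => f m + (-a - b) := by
    funext m
    ring
  rw [h1, em_add T f (fun _ => -a - b) j, em_const]
  ring

private lemma em_child {C c : ℝ} (hc : 0 ≤ c) (hcC : c ≤ C) {Q : ℕ → ℕ → ℝ} (hQ : QBd C c Q)
    (n j T w : ℕ) (hw : w < 2 ^ (n + 1)) (hinc : |Q (n + 1) w - Q n j| ≤ C) :
    emAv T (fun m => (Q (n + (T + 1)) m - Q n j - c * ((T + 1 : ℕ) : ℝ)) ^ 2) w ≤
      emAv T (fun m => (Q (n + 1 + T) m - Q (n + 1) w - c * T) ^ 2) w + 12 * C ^ 2 -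
        4 * C * (emAv T (Q (n + 1 + T)) w - Q (n + 1) w - c * T) := by
  have hC : 0 ≤ C := hc.trans hcC
  have hn : n + (T + 1) = n + 1 + T := by omega
  set X : ℝ := Q (n + 1) w - Q n j - c with hX
  set R : ℝ := emAv T (Q (n + 1 + T)) w - Q (n + 1) w - c * T with hR
  have h1 : (fun m => (Q (n + (T + 1)) m - Q n j - c * ((T + 1 : ℕ) : ℝ)) ^ 2) =
      fun m => (Q (n + 1 + T) m - Q (n + 1) w - c * T) ^ 2 +
        (2 * X * (Q (n + 1 + T) m - Q (n + 1) w - c * T) + X ^ 2) := by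
    funext m
    rw [hn, hX]
    push_cast
    ring
  rw [h1, em_add T (fun m => (Q (n + 1 + T) m - Q (n + 1) w - c * T) ^ 2)
    (fun m => 2 * X * (Q (n + 1 + T) m - Q (n + 1) w - c * T) + X ^ 2),
    em_add T (fun m => 2 * X * (Q (n + 1 + T) m - Q (n + 1) w - c * T)) (fun _ => X ^ 2),
    em_mul T (fun m => Q (n + 1 + T) m - Q (n + 1) w - c * T) (2 * X), em_const, em_sub, ← hR]
  have hXle : |X| ≤ 2 * C := by
    rw [abs_le] at hinc ⊢
    constructor <;> linarith
  have hX2 : X ^ 2 ≤ 4 * C ^ 2 := by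
    rw [← sq_abs]
    have := abs_nonneg X
    nlinarith
  have hRle : R ≤ C := by
    have h2 := hQ.block (n + 1) w T hw
    have h3 : emAv T (Q (n + 1 + T)) w ≤ Q (n + 1) w + c * T + C := h2
    rw [hR]
    linarith
  have hRabs : |R| ≤ 2 * C - R := by
    rw [abs_le]
    constructor <;> linarith
  have hXR : 2 * X * R ≤ 4 * C * (2 * C - R) := by
    have h4 : X * R ≤ |X| * |R| := by
      rw [← abs_mul]
      exact le_abs_self _
    have h5 : |X| * |R| ≤ 2 * C * (2 * C - R) :=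
      mul_le_mul hXle hRabs (abs_nonneg _) (by positivity)
    linarith
  linarith

private lemma em_main {C c : ℝ} (hc : 0 ≤ c) (hcC : c ≤ C) {Q : ℕ → ℕ → ℝ} (hQ : QBd C c Q)
    (T : ℕ) : ∀ n j : ℕ, j < 2 ^ n →
      emAv T (fun m => (Q (n + T) m - Q n j - c * T) ^ 2) j ≤
      T * (12 * C ^ 2 - 4 * C * emAv T (Q (n + T)) j) +
        4 * C * ∑ i ∈ Finset.range T, (emAv (i + 1) (Q (n + (i + 1))) j + c * (T - (i + 1))) := by
  induction T with
  | zero =>
    intro n j _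
    rw [em_zero]
    simp
  | succ T ih =>
    intro n j hj
    have hn : n + (T + 1) = n + 1 + T := by omega
    have h2n : 2 ^ (n + 1) = 2 * 2 ^ n := by ring
    have hw0 : 2 * j < 2 ^ (n + 1) := by omega
    have hw1 : 2 * j + 1 < 2 ^ (n + 1) := by omega
    have hi := hQ.inc n j hj
    have h0 := em_child hc hcC hQ n j T (2 * j) hw0 hi.1
    have h1 := em_child hc hcC hQ n j T (2 * j + 1) hw1 hi.2
    have i0 := ih (n + 1) (2 * j) hw0
    have i1 := ih (n + 1) (2 * j + 1) hw1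
    rw [em_succ, em_succ T (Q (n + (T + 1))) j, hn]
    rw [hn] at h0 h1
    rw [Finset.sum_range_succ']
    have h3 : ∑ k ∈ Finset.range T, (emAv (k + 1 + 1) (Q (n + (k + 1 + 1))) j +
        c * (((T + 1 : ℕ) : ℝ) - (((k + 1 : ℕ) : ℝ) + 1))) =
        (∑ i ∈ Finset.range T, (emAv (i + 1) (Q (n + 1 + (i + 1))) (2 * j) + c * (T - (i + 1))) +
        ∑ i ∈ Finset.range T, (emAv (i + 1) (Q (n + 1 + (i + 1))) (2 * j + 1) +
          c * (T - (i + 1)))) / 2 := by
      rw [← Finset.sum_add_distrib, Finset.sum_div]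
      refine Finset.sum_congr rfl fun k _ => ?_
      rw [em_succ, show n + (k + 1 + 1) = n + 1 + (k + 1) by omega]
      push_cast
      ring
    rw [h3]
    have h4 : emAv (0 + 1) (Q (n + (0 + 1))) j = (Q (n + 1) (2 * j) + Q (n + 1) (2 * j + 1)) / 2 := by
      rw [em_succ, em_zero, em_zero]
    rw [h4]
    push_cast at h0 h1 ⊢
    nlinarith

theorem second_moment {C c : ℝ} (hc : 0 ≤ c) (hcC : c ≤ C) {Q : ℕ → ℕ → ℝ} (hQ : QBd C c Q) :
    ∀ n j T : ℕ, j < 2 ^ n →
      (∑ l ∈ Finset.range (2 ^ T), (Q (n + T) (2 ^ T * j + l) - Q n j - c * T) ^ 2) / 2 ^ T ≤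
      T * (16 * C ^ 2 - 4 * C *
        ((∑ l ∈ Finset.range (2 ^ T), (Q (n + T) (2 ^ T * j + l) - Q n j - c * T)) / 2 ^ T)) := by
  intro n j T hj
  have hC : 0 ≤ C := hc.trans hcC
  have h1 := em_main hc hcC hQ T n j hj
  have h2 : (∑ l ∈ Finset.range (2 ^ T), (Q (n + T) (2 ^ T * j + l) - Q n j - c * T)) / 2 ^ T =
      emAv T (Q (n + T)) j - Q n j - c * T := em_sub T (Q (n + T)) (Q n j) (c * T) j
  rw [h2]
  refine h1.trans ?_
  have h3 : ∑ i ∈ Finset.range T, (emAv (i + 1) (Q (n + (i + 1))) j + c * (T - (i + 1))) ≤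
      ∑ _i ∈ Finset.range T, (Q n j + c * T + C) := by
    refine Finset.sum_le_sum fun i _ => ?_
    have h4 : emAv (i + 1) (Q (n + (i + 1))) j ≤ Q n j + c * ((i + 1 : ℕ) : ℝ) + C :=
      hQ.block n j (i + 1) hj
    push_cast at h4
    linarith
  rw [Finset.sum_const, Finset.card_range, nsmul_eq_mul] at h3
  have h5 := mul_le_mul_of_nonneg_left h3 (by positivity : 0 ≤ 4 * C)
  linarith

end Pool.Agent.QCD
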