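import Pool.Agent.Lib.MP_f30fea_an.Base
import Pool.Agent.Lib.MP_f30fea_an.ExpMom1

/-!
# Exponential moments of dyadic processes with bounded drift

We may enlarge `C`, so let `C ≥ 1` (`QBd` is monotone in `C`).  `e = 1/(4C)`, `s₀ = e/2`, `T = ⌊e/s⌋₊`, so `T ≥ 1`,
`e/(2s) ≤ T ≤ e/s`.  On a block from `(n, j)` to generation `n + T` let `Y = Q end - Q n j - c T`; `|s Y| ≤ s 2C T ≤ 1`, so
`exp (sY) ≤ 1 + sY + s²Y²`; with `R` = average of `Y` `≤ C`, by `second_moment`:
average of `exp (sY) ≤ 1 + s R + s² T (16 C² - 4 C R) = 1 + 16 C² s² T + s R (1 - 4 C s T) ≤ 1 + 16 C² s² T + s C`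
(`0 ≤ 1 - 4 C s T ≤ 1`) `≤ exp (16 C² s² T + s C) ≤ exp ((16 C² + 2C/e) s² T)`.  So with `C'' = 24 C²`-ish
(`2C/e = 8C²`): average over the block of `exp (s Q end) ≤ exp (s Q n j) exp ((c s + C'' s²) T)`.  Iterate:
average of `exp (s Q (mT) ·) ≤ exp ((c s + C'' s²) m T)`; for `n = mT + r`, `r < T`, `Q n ≤ Q (mT) + C r`
(ancestor) and `s C r ≤ C e = 1/4`.
-/

open Complex MeasureTheory Filter Topology Set
open scoped ContDiff ENNReal ComplexConjugate

noncomputable section

namespace Pool.Agent.QCD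

private lemma em2_split (M N : ℕ) (f : ℕ → ℝ) : ∑ j ∈ Finset.range (M * N), f j =
    ∑ i ∈ Finset.range M, ∑ l ∈ Finset.range N, f (N * i + l) := by
  induction M with
  | zero => simp
  | succ M ih =>
    rw [Nat.succ_mul, Finset.sum_range_add, ih, Finset.sum_range_succ]
    congr 1
    refine Finset.sum_congr rfl fun l _ => ?_
    rw [mul_comm]

private lemma em2_inc {C c : ℝ} {Q : ℕ → ℕ → ℝ} (hQ : QBd C c Q) (T : ℕ) : ∀ n j l : ℕ,
    j < 2 ^ n → l < 2 ^ T → |Q (n + T) (2 ^ T * j + l) - Q n j| ≤ C * T := by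
  induction T with
  | zero =>
    intro n j l _ hl
    have h0 : l = 0 := by simpa using hl
    subst h0
    simp
  | succ T ih =>
    intro n j l hj hl
    obtain ⟨l', b, hb, hlb⟩ : ∃ l' b, b < 2 ∧ l = 2 * l' + b :=
      ⟨l / 2, l % 2, Nat.mod_lt _ (by norm_num), (Nat.div_add_mod l 2).symm⟩
    have hl' : l' < 2 ^ T := by
      rw [pow_succ] at hl
      omega
    have hjl : 2 ^ T * j + l' < 2 ^ (n + T) := by
      rw [pow_add]
      calc 2 ^ T * j + l' < 2 ^ T * j + 2 ^ T := by omega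
        _ = 2 ^ T * (j + 1) := by ring
        _ ≤ 2 ^ T * 2 ^ n := Nat.mul_le_mul_left _ hj
        _ = 2 ^ n * 2 ^ T := mul_comm _ _
    have h1 := hQ.inc (n + T) (2 ^ T * j + l') hjl
    have h2 := ih n j l' hj hl'
    have e1 : 2 ^ (T + 1) * j + l = 2 * (2 ^ T * j + l') + b := by
      rw [hlb, pow_succ]
      ring
    have e2 : n + (T + 1) = n + T + 1 := by ring
    rw [e1, e2]
    have h3 : |Q (n + T + 1) (2 * (2 ^ T * j + l') + b) - Q (n + T) (2 ^ T * j + l')| ≤ C := by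
      rcases Nat.lt_succ_iff_lt_or_eq.mp hb with h | h
      · have : b = 0 := by omega
        subst this
        exact h1.1
      · subst h
        exact h1.2
    calc |Q (n + T + 1) (2 * (2 ^ T * j + l') + b) - Q n j| ≤ _ :=
          abs_sub_le _ (Q (n + T) (2 ^ T * j + l')) _
      _ ≤ C + C * T := add_le_add h3 h2
      _ = C * (T + 1 : ℕ) := by push_cast; ring

private lemma em2_mono {C K c : ℝ} {Q : ℕ → ℕ → ℝ} (h : C ≤ K) (hQ : QBd C c Q) : QBd K c Q :=
  ⟨hQ.zero, fun n j hj => ⟨(hQ.inc n j hj).1.trans h, (hQ.inc n j hj).2.trans h⟩,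
    fun n j T hj => (hQ.block n j T hj).trans (by linarith)⟩

private lemma em2_block {K c : ℝ} (hK : 1 ≤ K) (hc : 0 ≤ c) (hcK : c ≤ K) {Q : ℕ → ℕ → ℝ}
    (hQ : QBd K c Q) {s : ℝ} (hs : 0 < s) (T : ℕ) (hT1 : 4 * K * (s * T) ≤ 1)
    (hT2 : 1 ≤ 8 * K * (s * T)) (n j : ℕ) (hj : j < 2 ^ n) :
    (∑ l ∈ Finset.range (2 ^ T), Real.exp (s * Q (n + T) (2 ^ T * j + l))) / 2 ^ T ≤
      Real.exp (s * Q n j) * Real.exp ((c * s + 24 * K ^ 2 * s ^ 2) * T) := by
  set Y : ℕ → ℝ := fun l => Q (n + T) (2 ^ T * j + l) - Q n j - c * T with hY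
  set R : ℝ := (∑ l ∈ Finset.range (2 ^ T), Y l) / 2 ^ T with hR
  have h2T : (0 : ℝ) < 2 ^ T := by positivity
  have hTK : 0 ≤ s * (T : ℝ) := by positivity
  have hYb : ∀ l ∈ Finset.range (2 ^ T), |s * Y l| ≤ 1 := by
    intro l hl
    have h1 := em2_inc hQ T n j l hj (Finset.mem_range.mp hl)
    have h2 : |Y l| ≤ 2 * K * T := by
      have h3 : |Y l| ≤ |Q (n + T) (2 ^ T * j + l) - Q n j| + |c * T| := by
        rw [hY]
        exact abs_sub _ _
      have h4 : |c * T| = c * T := abs_of_nonneg (by positivity)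
      have h5 : c * (T : ℝ) ≤ K * T := mul_le_mul_of_nonneg_right hcK (by positivity)
      linarith
    rw [abs_mul, abs_of_pos hs]
    calc s * |Y l| ≤ s * (2 * K * T) := mul_le_mul_of_nonneg_left h2 hs.le
      _ = 2 * K * (s * T) := by ring
      _ ≤ 4 * K * (s * T) := by nlinarith
      _ ≤ 1 := hT1
  have hRK : R ≤ K := by
    have h1 := hQ.block n j T hj
    have h2 : R = (∑ l ∈ Finset.range (2 ^ T), Q (n + T) (2 ^ T * j + l)) / 2 ^ T - Q n j -
        c * T := by
      rw [hR, hY]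
      rw [Finset.sum_sub_distrib, Finset.sum_sub_distrib, Finset.sum_const, Finset.sum_const,
        Finset.card_range, nsmul_eq_mul, nsmul_eq_mul]
      push_cast
      field_simp
    linarith
  have hS := second_moment hc hcK hQ n j T hj
  have hexp : (∑ l ∈ Finset.range (2 ^ T), Real.exp (s * Y l)) / 2 ^ T ≤
      Real.exp (24 * K ^ 2 * s ^ 2 * T) := by
    have h1 : ∀ l ∈ Finset.range (2 ^ T), Real.exp (s * Y l) ≤
        1 + s * Y l + s ^ 2 * (Y l) ^ 2 := by
      intro l hl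
      have h2 := (abs_le.mp (Real.abs_exp_sub_one_sub_id_le (hYb l hl))).2
      nlinarith
    have h2 : (∑ l ∈ Finset.range (2 ^ T), Real.exp (s * Y l)) / 2 ^ T ≤
        1 + s * R + s ^ 2 * ((∑ l ∈ Finset.range (2 ^ T), (Y l) ^ 2) / 2 ^ T) := by
      rw [div_le_iff₀ h2T]
      refine (Finset.sum_le_sum h1).trans (le_of_eq ?_)
      rw [Finset.sum_add_distrib, Finset.sum_add_distrib, ← Finset.mul_sum, ← Finset.mul_sum, hR,
        Finset.sum_const, Finset.card_range, nsmul_eq_mul]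
      push_cast
      field_simp
    have h3 : (∑ l ∈ Finset.range (2 ^ T), (Y l) ^ 2) / 2 ^ T ≤
        T * (16 * K ^ 2 - 4 * K * R) := hS
    have h4 : R * (1 - 4 * K * (s * T)) ≤ K := by
      have h5 : 0 ≤ 1 - 4 * K * (s * T) := by linarith
      have h6 : 1 - 4 * K * (s * T) ≤ 1 := by nlinarith
      nlinarith
    have h5 : s ^ 2 * ((∑ l ∈ Finset.range (2 ^ T), (Y l) ^ 2) / 2 ^ T) ≤
        s ^ 2 * (T * (16 * K ^ 2 - 4 * K * R)) := mul_le_mul_of_nonneg_left h3 (by positivity)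
    have h6 : s * R + s ^ 2 * (T * (16 * K ^ 2 - 4 * K * R)) =
        16 * K ^ 2 * s ^ 2 * T + s * (R * (1 - 4 * K * (s * T))) := by ring
    have h7 : s * (R * (1 - 4 * K * (s * T))) ≤ s * K := mul_le_mul_of_nonneg_left h4 hs.le
    have h8 : s * K ≤ 8 * K ^ 2 * s ^ 2 * T := by
      have h9 : s * K * 1 ≤ s * K * (8 * K * (s * T)) :=
        mul_le_mul_of_nonneg_left hT2 (by positivity)
      calc s * K = s * K * 1 := by ring
        _ ≤ s * K * (8 * K * (s * T)) := h9
        _ = _ := by ring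
    have h9 := Real.add_one_le_exp (24 * K ^ 2 * s ^ 2 * T)
    linarith
  have hfac : ∀ l, Real.exp (s * Q (n + T) (2 ^ T * j + l)) =
      Real.exp (s * Q n j + s * (c * T)) * Real.exp (s * Y l) := by
    intro l
    rw [← Real.exp_add, hY]
    congr 1
    ring
  simp only [hfac]
  rw [← Finset.mul_sum, mul_div_assoc]
  calc Real.exp (s * Q n j + s * (c * T)) *
        ((∑ l ∈ Finset.range (2 ^ T), Real.exp (s * Y l)) / 2 ^ T)
      ≤ Real.exp (s * Q n j + s * (c * T)) * Real.exp (24 * K ^ 2 * s ^ 2 * T) :=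
        mul_le_mul_of_nonneg_left hexp (Real.exp_pos _).le
    _ = _ := by
        rw [← Real.exp_add, ← Real.exp_add]
        congr 1
        ring

theorem exp_moment {C : ℝ} (hC : 0 ≤ C) : ∃ C' s₀ : ℝ, 0 < s₀ ∧ 0 < C' ∧
    ∀ (c : ℝ) (Q : ℕ → ℕ → ℝ), 0 ≤ c → c ≤ C → QBd C c Q → ∀ s : ℝ, 0 < s → s ≤ s₀ → ∀ n : ℕ,
      (∑ j ∈ Finset.range (2 ^ n), Real.exp (s * Q n j)) / 2 ^ n ≤
        C' * Real.exp ((c * s + C' * s ^ 2) * n) := by
  obtain ⟨K, hK⟩ : ∃ K, K = C + 1 := ⟨_, rfl⟩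
  have hK1 : 1 ≤ K := by linarith
  have hK0 : 0 < K := by linarith
  refine ⟨24 * K ^ 2, 1 / (8 * K), by positivity, by positivity, ?_⟩
  intro c Q hc hcC hQ' s hs hs0 n
  have hQ : QBd K c Q := em2_mono (by linarith) hQ'
  have hcK : c ≤ K := by linarith
  have hs1 : 8 * K * s ≤ 1 := by
    rw [le_div_iff₀ (by positivity)] at hs0
    linarith
  obtain ⟨T, hT⟩ : ∃ T : ℕ, T = ⌊1 / (4 * K * s)⌋₊ := ⟨_, rfl⟩
  have hks : 0 < 4 * K * s := by positivity
  have hT1 : 4 * K * (s * T) ≤ 1 := by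
    have h1 : (T : ℝ) ≤ 1 / (4 * K * s) := by
      rw [hT]
      exact Nat.floor_le (by positivity)
    rw [le_div_iff₀ hks] at h1
    linarith
  have hT2 : 1 ≤ 8 * K * (s * T) := by
    have h1 : 1 / (4 * K * s) < T + 1 := by
      rw [hT]
      exact Nat.lt_floor_add_one _
    rw [div_lt_iff₀ hks] at h1
    nlinarith
  have hTpos : 0 < T := by
    rcases Nat.eq_zero_or_pos T with h | h
    · rw [h] at hT2
      norm_num at hT2
    · exact h
  set D : ℝ := c * s + 24 * K ^ 2 * s ^ 2 with hD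
  have hD0 : 0 ≤ D := by positivity
  -- multiples of `T`
  have hmul : ∀ m : ℕ, (∑ j ∈ Finset.range (2 ^ (m * T)), Real.exp (s * Q (m * T) j)) /
      2 ^ (m * T) ≤ Real.exp (D * (m * T : ℕ)) := by
    intro m
    induction m with
    | zero => simp [hQ.zero]
    | succ m ih =>
      have e1 : (m + 1) * T = m * T + T := by ring
      rw [e1, pow_add, em2_split, div_le_iff₀ (by positivity)]
      rw [div_le_iff₀ (by positivity)] at ih
      have h1 : ∀ i ∈ Finset.range (2 ^ (m * T)),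
          ∑ l ∈ Finset.range (2 ^ T), Real.exp (s * Q (m * T + T) (2 ^ T * i + l)) ≤
          Real.exp (s * Q (m * T) i) * (Real.exp (D * T) * 2 ^ T) := by
        intro i hi
        have h2 := em2_block hK1 hc hcK hQ hs T hT1 hT2 (m * T) i (Finset.mem_range.mp hi)
        rw [div_le_iff₀ (by positivity)] at h2
        rw [← mul_assoc]
        exact h2
      refine (Finset.sum_le_sum h1).trans ?_
      rw [← Finset.sum_mul]
      calc (∑ i ∈ Finset.range (2 ^ (m * T)), Real.exp (s * Q (m * T) i)) *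
            (Real.exp (D * T) * 2 ^ T)
          ≤ (Real.exp (D * (m * T : ℕ)) * 2 ^ (m * T)) * (Real.exp (D * T) * 2 ^ T) :=
            mul_le_mul_of_nonneg_right ih (by positivity)
        _ = (Real.exp (D * (m * T : ℕ)) * Real.exp (D * T)) * (2 ^ (m * T) * 2 ^ T) := by ring
        _ = Real.exp (D * (m * T + T : ℕ)) * 2 ^ (m * T + T) := by
            rw [← Real.exp_add, ← pow_add]
            congr 2
            push_cast
            ring
  -- the general case
  obtain ⟨m, r, hr, hn⟩ : ∃ m r, r < T ∧ n = m * T + r :=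
    ⟨n / T, n % T, Nat.mod_lt _ hTpos, (Nat.div_add_mod' n T).symm⟩
  have h1 : ∀ i ∈ Finset.range (2 ^ (m * T)),
      ∑ l ∈ Finset.range (2 ^ r), Real.exp (s * Q (m * T + r) (2 ^ r * i + l)) ≤
      Real.exp (s * Q (m * T) i) * (2 * 2 ^ r) := by
    intro i hi
    have h2 : ∀ l ∈ Finset.range (2 ^ r), Real.exp (s * Q (m * T + r) (2 ^ r * i + l)) ≤
        Real.exp (s * Q (m * T) i) * 2 := by
      intro l hl
      have h3 := em2_inc hQ r (m * T) i l (Finset.mem_range.mp hi) (Finset.mem_range.mp hl)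
      have h4 := (abs_le.mp h3).2
      have h5 : s * Q (m * T + r) (2 ^ r * i + l) ≤ s * Q (m * T) i + 1 / 4 := by
        have h6 : s * (K * r) ≤ 1 / 4 := by
          have h7 : (r : ℝ) ≤ T := by exact_mod_cast hr.le
          have h8 : s * (K * r) ≤ s * (K * T) := by
            apply mul_le_mul_of_nonneg_left _ hs.le
            exact mul_le_mul_of_nonneg_left h7 hK0.le
          linarith
        have h7 : s * (Q (m * T + r) (2 ^ r * i + l) - Q (m * T) i) ≤ s * (K * r) :=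
          mul_le_mul_of_nonneg_left h4 hs.le
        linarith
      have h6 : Real.exp (1 / 4) ≤ 2 := by
        have h7 := Real.abs_exp_sub_one_sub_id_le (x := 1 / 4) (by rw [abs_of_pos] <;> norm_num)
        have h8 := (abs_le.mp h7).2
        norm_num at h8 ⊢
        linarith
      calc Real.exp (s * Q (m * T + r) (2 ^ r * i + l)) ≤
            Real.exp (s * Q (m * T) i + 1 / 4) := Real.exp_le_exp.mpr h5
        _ = Real.exp (s * Q (m * T) i) * Real.exp (1 / 4) := Real.exp_add _ _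
        _ ≤ _ := mul_le_mul_of_nonneg_left h6 (Real.exp_pos _).le
    refine (Finset.sum_le_sum h2).trans (le_of_eq ?_)
    rw [Finset.sum_const, Finset.card_range, nsmul_eq_mul]
    push_cast
    ring
  have h2 := hmul m
  rw [div_le_iff₀ (by positivity)] at h2
  rw [hn, pow_add, em2_split, div_le_iff₀ (by positivity)]
  refine (Finset.sum_le_sum h1).trans ?_
  rw [← Finset.sum_mul]
  calc (∑ i ∈ Finset.range (2 ^ (m * T)), Real.exp (s * Q (m * T) i)) * (2 * 2 ^ r)
      ≤ (Real.exp (D * (m * T : ℕ)) * 2 ^ (m * T)) * (2 * 2 ^ r) :=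
        mul_le_mul_of_nonneg_right h2 (by positivity)
    _ = 2 * Real.exp (D * (m * T : ℕ)) * (2 ^ (m * T) * 2 ^ r) := by ring
    _ ≤ 24 * K ^ 2 * Real.exp (D * (m * T + r : ℕ)) * (2 ^ (m * T) * 2 ^ r) := by
        apply mul_le_mul_of_nonneg_right _ (by positivity)
        apply mul_le_mul _ _ (Real.exp_pos _).le (by positivity)
        · nlinarith
        · apply Real.exp_le_exp.mpr
          apply mul_le_mul_of_nonneg_left _ hD0
          push_cast
          have : (0 : ℝ) ≤ r := Nat.cast_nonneg r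
          linarith
    _ = 24 * K ^ 2 * Real.exp (D * (m * T + r : ℕ)) * 2 ^ (m * T + r) := by rw [← pow_add]

end Pool.Agent.QCD
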