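import Pool.Agent.Lib.MP_f30fea_an.Base
import Pool.Agent.Lib.MP_f30fea_an.Wqs

/-!
# Logarithms of the dyadic increments

`f_{n,j} l = 2^n (Θ l ((j+1)/2^n) - Θ l (j/2^n))` is holomorphic without zeros on the unit disc (`inj`),
`f 0 = 1`, `f_{0,0} = 1` identically (`per`).  Let `C` be as in `theta_ratio`, `r = 1/(8 C)`.  For `‖l‖ < r`:
`f_{n+1,2j} / f_{n,j} = 2 (Θ l m - Θ l a)/(Θ l b - Θ l a)` is within `2 C ‖l‖ ≤ 1/4` of `1`
(`theta_ratio` with `x = m`, base point `a`), and the same for the right child (base point `b`: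
`(Θ b - Θ m)/(Θ b - Θ a) = (Θ m - Θ b)/(Θ a - Θ b)`).  Define `ℓ` recursively:
`ℓ 0 0 = 0`, `ℓ (n+1) (2j) = ℓ n j + log (ratio)` with the principal logarithm (analytic near `1`,
`‖log (1+u)‖ ≤ 2 ‖u‖` for `‖u‖ ≤ 1/2`), same for `2j+1` (recursion on `n` with `j / 2`, `j % 2`).
-/

open Complex MeasureTheory Filter Topology Set
open scoped ContDiff ENNReal ComplexConjugate

noncomputable section

namespace Pool.Agent.QCD

/-- the ratio of the increments of a dyadic interval and its parent -/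
private def tlRat (Θ : ℂ → ℝ → ℂ) (n j : ℕ) (l : ℂ) : ℂ :=
  2 * (Θ l (((j : ℝ) + 1) / 2 ^ (n + 1)) - Θ l ((j : ℝ) / 2 ^ (n + 1))) /
    (Θ l ((((j / 2 : ℕ) : ℝ) + 1) / 2 ^ n) - Θ l (((j / 2 : ℕ) : ℝ) / 2 ^ n))

/-- the logarithms of the increments -/
private def tlEll (Θ : ℂ → ℝ → ℂ) : ℕ → ℕ → ℂ → ℂ
  | 0, _ => fun _ => 0
  | n + 1, j => fun l => tlEll Θ n (j / 2) l + log (tlRat Θ n j l)

private theorem tl_ne {Θ : ℂ → ℝ → ℂ} (hΘ : IsTheta Θ) (n q : ℕ) {l : ℂ} (hl : ‖l‖ < 1) :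
    Θ l (((q : ℝ) + 1) / 2 ^ n) - Θ l ((q : ℝ) / 2 ^ n) ≠ 0 := by
  intro h
  have h1 := hΘ.inj l hl (sub_eq_zero.1 h)
  have h2 : (2 : ℝ) ^ n ≠ 0 := by positivity
  field_simp at h1
  linarith

private theorem tlRat_bound {C : ℝ} (hC : 1 ≤ C) {Θ : ℂ → ℝ → ℂ} (hΘ : IsTheta Θ)
    (hR : ∀ a x b : ℝ, a ≠ b → |x - a| ≤ 2 * |b - a| → ∀ l : ℂ, ‖l‖ < 1 → ‖l‖ ≤ 1 / C →
      ‖(Θ l x - Θ l a) / (Θ l b - Θ l a) - (x - a) / (b - a)‖ ≤ C * ‖l‖)
    (n j : ℕ) {l : ℂ} (hl : ‖l‖ < 1 / (8 * C)) : ‖tlRat Θ n j l - 1‖ ≤ 1 / 4 := by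
  have hC0 : 0 < C := by linarith
  have hl8 : C * ‖l‖ < 1 / 8 := by
    rw [lt_div_iff₀ (by positivity)] at hl
    linarith
  have hl1 : ‖l‖ ≤ 1 / C := hl.le.trans (by
    apply one_div_le_one_div_of_le hC0
    linarith)
  have hl2 : ‖l‖ < 1 := by
    have : 1 * ‖l‖ ≤ C * ‖l‖ := mul_le_mul_of_nonneg_right hC (norm_nonneg _)
    linarith
  obtain ⟨q, hq⟩ := Nat.even_or_odd' j
  have h2n : (2 : ℝ) ^ n ≠ 0 := by positivity
  set a : ℝ := (q : ℝ) / 2 ^ n with ha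
  set b : ℝ := ((q : ℝ) + 1) / 2 ^ n with hb
  set m : ℝ := (2 * (q : ℝ) + 1) / 2 ^ (n + 1) with hm
  have hba : b - a = 1 / 2 ^ n := by rw [ha, hb]; field_simp; ring
  have hma : m - a = 1 / 2 ^ n / 2 := by rw [ha, hm]; field_simp; ring
  have hmb : m - b = -(1 / 2 ^ n / 2) := by rw [hb, hm]; field_simp; ring
  have hpos : (0 : ℝ) < 1 / 2 ^ n := by positivity
  have hne : a ≠ b := by
    intro h
    rw [h, sub_self] at hba
    linarith
  have hne' : Θ l b - Θ l a ≠ 0 := by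
    intro h
    exact hne (hΘ.inj l hl2 (sub_eq_zero.1 h)).symm
  rcases hq with hq | hq
  · have hj2 : j / 2 = q := by omega
    have e1 : ((j : ℝ) + 1) / 2 ^ (n + 1) = m := by rw [hm, hq]; push_cast; ring
    have e2 : (j : ℝ) / 2 ^ (n + 1) = a := by rw [ha, hq]; push_cast; field_simp; ring
    have h := hR a m b hne (by rw [hma, hba, abs_of_pos (by positivity), abs_of_pos hpos]; linarith)
      l hl2 hl1
    have h3 : ((m : ℂ) - a) / (b - a) = 1 / 2 := by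
      rw [← Complex.ofReal_sub, ← Complex.ofReal_sub, hma, hba, ← Complex.ofReal_div]
      rw [show (1 / 2 ^ n / 2 / (1 / 2 ^ n) : ℝ) = 1 / 2 by field_simp]
      norm_num
    rw [h3] at h
    have e3 : tlRat Θ n j l - 1 = 2 * ((Θ l m - Θ l a) / (Θ l b - Θ l a) - 1 / 2) := by
      unfold tlRat
      rw [hj2, e1, e2]
      ring
    rw [e3, norm_mul, Complex.norm_ofNat]
    linarith
  · have hj2 : j / 2 = q := by omega
    have e1 : ((j : ℝ) + 1) / 2 ^ (n + 1) = b := by rw [hb, hq]; push_cast; field_simp; ring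
    have e2 : (j : ℝ) / 2 ^ (n + 1) = m := by rw [hm, hq]; push_cast; ring
    have hab : a - b = -(1 / 2 ^ n) := by rw [← hba]; ring
    have h := hR b m a hne.symm (by
      rw [hmb, hab, abs_neg, abs_neg, abs_of_pos (by positivity), abs_of_pos hpos]; linarith)
      l hl2 hl1
    have h3 : ((m : ℂ) - b) / (a - b) = 1 / 2 := by
      rw [← Complex.ofReal_sub, ← Complex.ofReal_sub, hmb, hab, ← Complex.ofReal_div]
      rw [show (-(1 / 2 ^ n / 2) / -(1 / 2 ^ n) : ℝ) = 1 / 2 by field_simp]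
      norm_num
    rw [h3] at h
    have e3 : tlRat Θ n j l - 1 = 2 * ((Θ l m - Θ l b) / (Θ l a - Θ l b) - 1 / 2) := by
      unfold tlRat
      rw [hj2, e1, e2]
      have h4 : (Θ l m - Θ l b) / (Θ l a - Θ l b) = (Θ l b - Θ l m) / (Θ l b - Θ l a) := by
        rw [← neg_sub (Θ l b), ← neg_sub (Θ l b) (Θ l a), neg_div_neg_eq]
      rw [h4]
      ring
    rw [e3, norm_mul, Complex.norm_ofNat]
    linarith

theorem theta_log : ∃ r : ℝ, 0 < r ∧ r < 1 ∧ ∀ Θ, IsTheta Θ → ∃ ℓ : ℕ → ℕ → ℂ → ℂ,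
    (∀ l ∈ Metric.ball (0 : ℂ) r, ℓ 0 0 l = 0) ∧ ∀ n j : ℕ, j < 2 ^ n →
      DifferentiableOn ℂ (ℓ n j) (Metric.ball 0 r) ∧ ℓ n j 0 = 0 ∧
      (∀ l ∈ Metric.ball (0 : ℂ) r,
        exp (ℓ n j l) = 2 ^ n * (Θ l ((j + 1) / 2 ^ n) - Θ l (j / 2 ^ n))) ∧
      (∀ l ∈ Metric.ball (0 : ℂ) r, ‖ℓ (n + 1) (2 * j) l - ℓ n j l‖ ≤ 1 ∧
        ‖ℓ (n + 1) (2 * j + 1) l - ℓ n j l‖ ≤ 1) := by
  obtain ⟨C, hC, hR⟩ := theta_ratio
  have hC0 : 0 < C := by linarith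
  have hr1 : 1 / (8 * C) < 1 := by
    rw [div_lt_one (by positivity)]
    linarith
  refine ⟨1 / (8 * C), by positivity, hr1, fun Θ hΘ => ⟨tlEll Θ, fun l _ => rfl, ?_⟩⟩
  have hbd : ∀ n j : ℕ, ∀ l ∈ Metric.ball (0 : ℂ) (1 / (8 * C)), ‖tlRat Θ n j l - 1‖ ≤ 1 / 4 :=
    fun n j l hl => tlRat_bound hC hΘ (hR Θ hΘ) n j (mem_ball_zero_iff.1 hl)
  have hslit : ∀ n j : ℕ, ∀ l ∈ Metric.ball (0 : ℂ) (1 / (8 * C)),
      tlRat Θ n j l ∈ Complex.slitPlane := by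
    intro n j l hl
    have h := Complex.mem_slitPlane_of_norm_lt_one (z := tlRat Θ n j l - 1)
      ((hbd n j l hl).trans_lt (by norm_num))
    rwa [add_sub_cancel] at h
  have hlog : ∀ n j : ℕ, ∀ l ∈ Metric.ball (0 : ℂ) (1 / (8 * C)),
      ‖log (tlRat Θ n j l)‖ ≤ 1 := by
    intro n j l hl
    have h := Complex.norm_log_one_add_half_le_self (z := tlRat Θ n j l - 1)
      ((hbd n j l hl).trans (by norm_num))
    rw [add_sub_cancel] at h
    have := hbd n j l hl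
    linarith
  have hin : ∀ l ∈ Metric.ball (0 : ℂ) (1 / (8 * C)), ‖l‖ < 1 := fun l hl =>
    (mem_ball_zero_iff.1 hl).trans hr1
  have hdiff : ∀ n j : ℕ, DifferentiableOn ℂ (tlRat Θ n j) (Metric.ball 0 (1 / (8 * C))) := by
    intro n j
    have hs : Metric.ball (0 : ℂ) (1 / (8 * C)) ⊆ Metric.ball 0 1 :=
      Metric.ball_subset_ball hr1.le
    refine DifferentiableOn.div ?_ ?_ fun l hl => tl_ne hΘ n (j / 2) (hin l hl)
    · exact (((hΘ.hol _).mono hs).sub ((hΘ.hol _).mono hs)).const_mul 2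
    · exact ((hΘ.hol _).mono hs).sub ((hΘ.hol _).mono hs)
  have hrat0 : ∀ n j : ℕ, j < 2 ^ (n + 1) → tlRat Θ n j 0 = 1 := by
    intro n j _
    unfold tlRat
    simp only [hΘ.zero]
    push_cast
    have h2 : (2 : ℂ) ^ n ≠ 0 := pow_ne_zero n two_ne_zero
    field_simp
    ring
  have hmain : ∀ n j : ℕ, j < 2 ^ n →
      DifferentiableOn ℂ (tlEll Θ n j) (Metric.ball 0 (1 / (8 * C))) ∧ tlEll Θ n j 0 = 0 ∧
      (∀ l ∈ Metric.ball (0 : ℂ) (1 / (8 * C)),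
        exp (tlEll Θ n j l) = 2 ^ n * (Θ l ((j + 1) / 2 ^ n) - Θ l (j / 2 ^ n))) := by
    intro n
    induction n with
    | zero =>
      intro j hj
      have hj0 : j = 0 := by simpa using hj
      subst hj0
      refine ⟨differentiableOn_const 0, rfl, fun l hl => ?_⟩
      have hp := hΘ.per l (hin l hl) 0
      rw [zero_add] at hp
      show exp 0 = _
      simp [hp]
    | succ n ih =>
      intro j hj
      have hj2 : j / 2 < 2 ^ n := by
        rw [pow_succ] at hj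
        omega
      obtain ⟨i1, i2, i3⟩ := ih (j / 2) hj2
      refine ⟨?_, ?_, fun l hl => ?_⟩
      · exact i1.add ((hdiff n j).clog (hslit n j))
      · show tlEll Θ n (j / 2) 0 + log (tlRat Θ n j 0) = 0
        rw [i2, hrat0 n j hj, Complex.log_one, add_zero]
      · show exp (tlEll Θ n (j / 2) l + log (tlRat Θ n j l)) = _
        rw [Complex.exp_add, i3 l hl, Complex.exp_log (Complex.slitPlane_ne_zero (hslit n j l hl))]
        unfold tlRat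
        have hne := tl_ne hΘ n (j / 2) (hin l hl)
        generalize Θ l (((j : ℝ) + 1) / 2 ^ (n + 1)) - Θ l ((j : ℝ) / 2 ^ (n + 1)) = X
        generalize Θ l ((((j / 2 : ℕ) : ℝ) + 1) / 2 ^ n) - Θ l (((j / 2 : ℕ) : ℝ) / 2 ^ n) = Y
          at hne ⊢
        rw [pow_succ]
        field_simp
  intro n j hj
  obtain ⟨m1, m2, m3⟩ := hmain n j hj
  refine ⟨m1, m2, m3, fun l hl => ⟨?_, ?_⟩⟩
  · show ‖tlEll Θ n (2 * j / 2) l + log (tlRat Θ n (2 * j) l) - tlEll Θ n j l‖ ≤ 1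
    rw [Nat.mul_div_cancel_left j (by norm_num), add_sub_cancel_left]
    exact hlog n _ l hl
  · show ‖tlEll Θ n ((2 * j + 1) / 2) l + log (tlRat Θ n (2 * j + 1) l) - tlEll Θ n j l‖ ≤ 1
    rw [show (2 * j + 1) / 2 = j by omega, add_sub_cancel_left]
    exact hlog n _ l hl

end Pool.Agent.QCD
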