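import Pool.Agent.Lib.MP_f30fea_an.Base
import Pool.Agent.Lib.MP_f30fea_an.ThetaLog

/-!
# Second order expansion of the dyadic increments

Let `ℓ` be from `theta_log`, `c_i` the Taylor coefficients of `ℓ n j` at `0` (`c_0 = 0`).
By `even`, `exp (ℓ (-conj l)) = conj (exp (ℓ l))`, and both `ℓ (-conj l)` and `conj (ℓ l)` are continuous and vanish
at `0`, so they agree; hence `(-1)^i c_i = conj (c_i)` (compare on the real axis, or directly the
Taylor coefficients): `c_1, c_3` are purely imaginary, `c_2` is real.  `Q n j = re c_2 = c_2`.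
`‖ℓ n j l‖ ≤ n` on the ball of radius `r` (induction), and `‖ℓ' - ℓ‖ ≤ 1` for children, so by
Cauchy `‖c_2' - c_2‖ ≤ 4/r²` (radius `r/2`), and `‖c_i‖ ≤ n (2/r)^i`.
Log estimate: for real `0 ≤ k ≤ r/4`: `re ℓ(k) = c_2 k² + ∑_{i ≥ 4} re c_i k^i` and the tail is
`≤ n ∑_{i≥4} (2k/r)^i ≤ 2 n (2k/r)^4`.  (`re c_1 = re c_3 = 0`.)  `L = ‖Θ k b - Θ k a‖ = 2^{-n} exp (re ℓ(k))`.
Second difference: `exp ℓ = (exp ℓ_L + exp ℓ_R)/2` (telescoping, `2^n (Θb - Θa) = ½ (2^{n+1} (Θm - Θa) +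
2^{n+1} (Θb - Θm))`).  The coefficient of `l²`: `c_2 + c_1²/2 = ½ ∑ (c_2' + c_1'²/2)`; of `l`: `c_1 = ½ ∑ c_1'`.
With `c_1 = iθ`, `c_1' = i(θ ± D)`: `Q_L + Q_R - 2Q = ½ ((θ+D)² + (θ-D)²) - θ² = D²`; and
`iθ = c_1 = derivative at 0 of exp ℓ = 2^n (V b - V a)`, `V x = deriv (Θ · x) 0`, so
`D = θ_L - θ = 2^n im (2 V m - V a - V b) = d2 V n j`.
Geometry: `theta_ratio` with base point `a`: `‖(Θ k x - Θ k a)/(Θ k b - Θ k a)‖ ≤ 1 + C k ≤ 2`.
-/

open Complex MeasureTheory Filter Topology Set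
open scoped ContDiff ENNReal ComplexConjugate

noncomputable section

namespace Pool.Agent.QCD

private theorem ex_iter_conj (f : ℂ → ℂ) (n : ℕ) :
    iteratedDeriv n (conj ∘ f ∘ conj) = conj ∘ iteratedDeriv n f ∘ conj := by
  induction n with
  | zero => simp only [iteratedDeriv_zero]
  | succ n ih => rw [iteratedDeriv_succ, ih, deriv_conj_conj, iteratedDeriv_succ]

private theorem ex_iter_symm {f : ℂ → ℂ} {r : ℝ} (hr : 0 < r)
    (h : ∀ l ∈ Metric.ball (0 : ℂ) r, conj (f (-conj l)) = f l) (n : ℕ) :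
    iteratedDeriv n f 0 = (-1) ^ n * conj (iteratedDeriv n f 0) := by
  have h1 : (conj ∘ (fun l => f (-l)) ∘ conj) =ᶠ[𝓝 0] f := by
    filter_upwards [Metric.ball_mem_nhds (0 : ℂ) hr] with l hl
    exact h l hl
  have h2 := h1.iteratedDeriv_eq n
  rw [ex_iter_conj] at h2
  simp only [Function.comp_apply, map_zero] at h2
  rw [iteratedDeriv_comp_neg] at h2
  rw [neg_zero, smul_eq_mul, map_mul, map_pow, map_neg, map_one] at h2
  exact h2.symm

private theorem ex_diffAt {f : ℂ → ℂ} {r : ℝ} (hf : DifferentiableOn ℂ f (Metric.ball 0 r)) {l : ℂ}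
    (hl : l ∈ Metric.ball (0 : ℂ) r) : DifferentiableAt ℂ f l :=
  hf.differentiableAt (Metric.isOpen_ball.mem_nhds hl)

private theorem ex_symm {f : ℂ → ℂ} {r : ℝ} (hr : 0 < r)
    (hf : DifferentiableOn ℂ f (Metric.ball 0 r)) (h0 : f 0 = 0)
    (he : ∀ l ∈ Metric.ball (0 : ℂ) r, exp (f (-conj l)) = conj (exp (f l))) :
    ∀ l ∈ Metric.ball (0 : ℂ) r, conj (f (-conj l)) = f l := by
  have hneg : ∀ l ∈ Metric.ball (0 : ℂ) r, -conj l ∈ Metric.ball (0 : ℂ) r := by
    intro l hl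
    rw [mem_ball_zero_iff] at hl ⊢
    rwa [norm_neg, RCLike.norm_conj]
  have hFd : ∀ l ∈ Metric.ball (0 : ℂ) r, DifferentiableAt ℂ (fun l => conj (f (-conj l))) l := by
    intro l hl
    have h2 : DifferentiableAt ℂ f (-conj l) := ex_diffAt hf (hneg l hl)
    have h1 : DifferentiableAt ℂ (fun l => f (-l)) (conj l) :=
      DifferentiableAt.comp (g := f) (f := fun l => -l) (conj l) h2 differentiableAt_id.neg
    exact differentiableAt_conj_conj_iff.2 h1
  have hE : ∀ l ∈ Metric.ball (0 : ℂ) r, exp (conj (f (-conj l))) = exp (f l) := by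
    intro l hl
    rw [exp_conj, he l hl, Complex.conj_conj]
  have hmain : Set.EqOn (fun l => conj (f (-conj l))) f (Metric.ball 0 r) := by
    refine Metric.isOpen_ball.eqOn_of_deriv_eq (Convex.isPreconnected (convex_ball 0 r))
      (fun l hl => (hFd l hl).differentiableWithinAt) hf ?_ (x := 0)
      (Metric.mem_ball_self hr) ?_
    · intro l hl
      have e1 : HasDerivAt (fun l => exp (conj (f (-conj l))))
          (exp (conj (f (-conj l))) * deriv (fun l => conj (f (-conj l))) l) l :=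
        (hFd l hl).hasDerivAt.cexp
      have e2 : HasDerivAt (fun l => exp (f l)) (exp (f l) * deriv f l) l :=
        (ex_diffAt hf hl).hasDerivAt.cexp
      have e3 : (fun l => exp (conj (f (-conj l)))) =ᶠ[𝓝 l] fun l => exp (f l) := by
        filter_upwards [Metric.isOpen_ball.mem_nhds hl] with z hz
        exact hE z hz
      have e4 := (e1.congr_of_eventuallyEq e3.symm).unique e2
      rw [hE l hl] at e4
      exact mul_left_cancel₀ (Complex.exp_ne_zero _) e4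
    · show conj (f (-conj 0)) = f 0
      rw [map_zero, neg_zero, h0, map_zero]
  exact fun l hl => hmain hl

private theorem ex_coef {f : ℂ → ℂ} {r M : ℝ} (hr : 0 < r)
    (hf : DifferentiableOn ℂ f (Metric.ball 0 r))
    (hM : ∀ l ∈ Metric.ball (0 : ℂ) r, ‖f l‖ ≤ M) (n : ℕ) :
    ‖iteratedDeriv n f 0‖ ≤ n.factorial * M / (r / 2) ^ n := by
  have hsub : Metric.closedBall (0 : ℂ) (r / 2) ⊆ Metric.ball 0 r :=
    Metric.closedBall_subset_ball (by linarith)
  refine norm_iteratedDeriv_le_of_forall_mem_sphere_norm_le n (by positivity)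
    (hf.diffContOnCl_ball hsub) fun z hz => hM z (hsub (Metric.sphere_subset_closedBall hz))

private theorem ex_taylor {f : ℂ → ℂ} {r M : ℝ} (hr : 0 < r)
    (hf : DifferentiableOn ℂ f (Metric.ball 0 r)) (hM0 : 0 ≤ M)
    (hM : ∀ l ∈ Metric.ball (0 : ℂ) r, ‖f l‖ ≤ M) {z : ℂ} (hz : ‖z‖ ≤ r / 4) :
    ‖f z - ∑ i ∈ Finset.range 4, (i.factorial : ℂ)⁻¹ * (z ^ i * iteratedDeriv i f 0)‖
      ≤ 2 * M * (2 * ‖z‖ / r) ^ 4 := by
  have hz' : z ∈ Metric.ball (0 : ℂ) r := by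
    rw [mem_ball_zero_iff]
    linarith
  have h1 := Complex.hasSum_taylorSeries_on_ball hf hz'
  simp only [sub_zero, smul_eq_mul] at h1
  have h2 := (hasSum_nat_add_iff' 4).2 h1
  set q : ℝ := 2 * ‖z‖ / r with hq
  have hq0 : 0 ≤ q := by positivity
  have hq1 : q ≤ 1 / 2 := by
    rw [hq, div_le_iff₀ hr]
    linarith
  have h3 : HasSum (fun i : ℕ => M * q ^ 4 * q ^ i) (M * q ^ 4 * (1 - q)⁻¹) :=
    (hasSum_geometric_of_lt_one hq0 (by linarith)).mul_left _
  have h4 := h2.norm_le_of_bounded h3 fun i => by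
    have hc := ex_coef hr hf hM (i + 4)
    rw [norm_mul, norm_mul, norm_inv, norm_pow, Complex.norm_natCast]
    have hfac : (0 : ℝ) < (i + 4).factorial := by positivity
    calc ((i + 4).factorial : ℝ)⁻¹ * (‖z‖ ^ (i + 4) * ‖iteratedDeriv (i + 4) f 0‖)
        ≤ ((i + 4).factorial : ℝ)⁻¹ * (‖z‖ ^ (i + 4) *
          ((i + 4).factorial * M / (r / 2) ^ (i + 4))) := by gcongr
      _ = M * (q ^ 4 * q ^ i) := by
          rw [← pow_add, add_comm 4 i, hq]
          have : (2 * ‖z‖ / r) ^ (i + 4) = ‖z‖ ^ (i + 4) / (r / 2) ^ (i + 4) := by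
            rw [← div_pow]
            congr 1
            field_simp
          rw [this]
          field_simp
      _ = M * q ^ 4 * q ^ i := by ring
  refine h4.trans ?_
  have h5 : (1 - q)⁻¹ ≤ 2 := by
    rw [inv_le_comm₀ (by linarith) two_pos]
    linarith
  calc M * q ^ 4 * (1 - q)⁻¹ ≤ M * q ^ 4 * 2 := by gcongr
    _ = 2 * M * q ^ 4 := by ring

/-- the real part of a function with the symmetry on the real axis -/
private theorem ex_re {f : ℂ → ℂ} {r M : ℝ} (hr : 0 < r)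
    (hf : DifferentiableOn ℂ f (Metric.ball 0 r)) (hM0 : 0 ≤ M)
    (hM : ∀ l ∈ Metric.ball (0 : ℂ) r, ‖f l‖ ≤ M) (h0 : f 0 = 0)
    (hs : ∀ l ∈ Metric.ball (0 : ℂ) r, conj (f (-conj l)) = f l) {k : ℝ} (hk0 : 0 ≤ k)
    (hk : k ≤ r / 4) :
    |(f k).re - k ^ 2 * ((iteratedDeriv 2 f 0).re / 2)| ≤ 32 / r ^ 4 * M * k ^ 4 := by
  have h1 := ex_taylor hr hf hM0 hM (z := (k : ℂ)) (by
    rw [Complex.norm_real, Real.norm_of_nonneg hk0]; exact hk)
  have h2 := (Complex.abs_re_le_norm _).trans h1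
  have s1 := ex_iter_symm hr hs 1
  have s3 := ex_iter_symm hr hs 3
  have t1 : (iteratedDeriv 1 f 0).re = 0 := by
    have := congrArg Complex.re s1
    simp only [pow_one, neg_mul, one_mul, Complex.neg_re, Complex.conj_re] at this
    linarith
  have t3 : (iteratedDeriv 3 f 0).re = 0 := by
    have := congrArg Complex.re s3
    rw [show ((-1 : ℂ)) ^ 3 = -1 by norm_num] at this
    simp only [neg_mul, one_mul, Complex.neg_re, Complex.conj_re] at this
    linarith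
  have h3 : (f k - ∑ i ∈ Finset.range 4, (i.factorial : ℂ)⁻¹ * ((k : ℂ) ^ i *
      iteratedDeriv i f 0)).re = (f k).re - k ^ 2 * ((iteratedDeriv 2 f 0).re / 2) := by
    have e : ∀ i : ℕ, ((i.factorial : ℂ)⁻¹ * ((k : ℂ) ^ i * iteratedDeriv i f 0)).re
        = (i.factorial : ℝ)⁻¹ * (k ^ i * (iteratedDeriv i f 0).re) := by
      intro i
      have e1 : (i.factorial : ℂ)⁻¹ * ((k : ℂ) ^ i * iteratedDeriv i f 0)
          = (((i.factorial : ℝ)⁻¹ * k ^ i : ℝ) : ℂ) * iteratedDeriv i f 0 := by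
        push_cast
        ring
      rw [e1, Complex.re_ofReal_mul]
      ring
    rw [Complex.sub_re, Complex.re_sum, Finset.sum_congr rfl fun i _ => e i]
    simp only [Finset.sum_range_succ, Finset.sum_range_zero, t1, t3, iteratedDeriv_zero, h0,
      Complex.zero_re, mul_zero, add_zero, zero_add]
    norm_num [Nat.factorial]
    ring
  rw [h3] at h2
  refine h2.trans (le_of_eq ?_)
  rw [Complex.norm_real, Real.norm_of_nonneg hk0]
  field_simp
  ring

private theorem ex_sq_re (W : ℂ) (h : W.re = 0) : (-(2 * W ^ 2)).re = 2 * W.im ^ 2 := by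
  have h1 : W = ((W.im : ℝ) : ℂ) * I := by
    apply Complex.ext
    · simp [h]
    · simp
  rw [h1, mul_pow, Complex.I_sq]
  have h2 : -(2 * (((W.im : ℝ) : ℂ) ^ 2 * -1)) = ((2 * W.im ^ 2 : ℝ) : ℂ) := by
    push_cast
    ring
  rw [h2, Complex.ofReal_re]
  simp

/-- the second derivative of the exponential of a function which vanishes at `0` -/
private theorem ex_exp_two {f : ℂ → ℂ} {r : ℝ} (hr : 0 < r)
    (hf : DifferentiableOn ℂ f (Metric.ball 0 r)) (h0 : f 0 = 0) :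
    HasDerivAt (fun l => exp (f l)) (deriv f 0) 0 ∧
    HasDerivAt (deriv (fun l => exp (f l))) (deriv f 0 ^ 2 + iteratedDeriv 2 f 0) 0 := by
  have hm : (0 : ℂ) ∈ Metric.ball (0 : ℂ) r := Metric.mem_ball_self hr
  have hd : ∀ l ∈ Metric.ball (0 : ℂ) r, HasDerivAt (fun l => exp (f l)) (exp (f l) * deriv f l) l :=
    fun l hl => (ex_diffAt hf hl).hasDerivAt.cexp
  have hd' : DifferentiableOn ℂ (deriv f) (Metric.ball 0 r) := hf.deriv Metric.isOpen_ball
  constructor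
  · have := hd 0 hm
    rwa [h0, Complex.exp_zero, one_mul] at this
  · have h1 : deriv (fun l => exp (f l)) =ᶠ[𝓝 0] fun l => exp (f l) * deriv f l := by
      filter_upwards [Metric.isOpen_ball.mem_nhds hm] with l hl
      exact (hd l hl).deriv
    have h2 : HasDerivAt (fun l => exp (f l) * deriv f l)
        (exp (f 0) * deriv f 0 * deriv f 0 + exp (f 0) * deriv (deriv f) 0) 0 :=
      (hd 0 hm).mul (ex_diffAt hd' hm).hasDerivAt
    have h3 := h2.congr_of_eventuallyEq h1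
    have h4 : iteratedDeriv 2 f 0 = deriv (deriv f) 0 := by
      rw [iteratedDeriv_succ, iteratedDeriv_one]
    rw [h4]
    rw [h0, Complex.exp_zero] at h3
    have h5 : (1 : ℂ) * deriv f 0 * deriv f 0 + 1 * deriv (deriv f) 0
        = deriv f 0 ^ 2 + deriv (deriv f) 0 := by ring
    rw [h5] at h3
    exact h3

/-- the second order terms of the telescoping identity -/
private theorem ex_split {f g h : ℂ → ℂ} {r : ℝ} (hr : 0 < r)
    (hf : DifferentiableOn ℂ f (Metric.ball 0 r)) (f0 : f 0 = 0)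
    (hg : DifferentiableOn ℂ g (Metric.ball 0 r)) (g0 : g 0 = 0)
    (hh : DifferentiableOn ℂ h (Metric.ball 0 r)) (h0 : h 0 = 0)
    (he : ∀ l ∈ Metric.ball (0 : ℂ) r, exp (g l) + exp (h l) = 2 * exp (f l)) :
    (deriv g 0 ^ 2 + iteratedDeriv 2 g 0) + (deriv h 0 ^ 2 + iteratedDeriv 2 h 0) =
      2 * (deriv f 0 ^ 2 + iteratedDeriv 2 f 0) := by
  have hm : (0 : ℂ) ∈ Metric.ball (0 : ℂ) r := Metric.mem_ball_self hr
  have a1 : ∀ l ∈ Metric.ball (0 : ℂ) r, deriv (fun l => exp (g l)) l + deriv (fun l => exp (h l)) l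
      = 2 * deriv (fun l => exp (f l)) l := by
    intro l hl
    have b1 : HasDerivAt (fun l => exp (g l)) (deriv (fun l => exp (g l)) l) l :=
      (ex_diffAt hg hl).cexp.hasDerivAt
    have b2 : HasDerivAt (fun l => exp (h l)) (deriv (fun l => exp (h l)) l) l :=
      (ex_diffAt hh hl).cexp.hasDerivAt
    have b3 : HasDerivAt (fun l => exp (f l)) (deriv (fun l => exp (f l)) l) l :=
      (ex_diffAt hf hl).cexp.hasDerivAt
    have b4 : HasDerivAt (fun l => exp (g l) + exp (h l))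
        (deriv (fun l => exp (g l)) l + deriv (fun l => exp (h l)) l) l := b1.add b2
    have b5 : HasDerivAt (fun l => 2 * exp (f l)) (2 * deriv (fun l => exp (f l)) l) l :=
      b3.const_mul 2
    have b6 : (fun l => 2 * exp (f l)) =ᶠ[𝓝 l] fun l => exp (g l) + exp (h l) := by
      filter_upwards [Metric.isOpen_ball.mem_nhds hl] with z hz
      exact (he z hz).symm
    exact (b4.congr_of_eventuallyEq b6).unique b5
  have c1 := (ex_exp_two hr hg g0).2
  have c2 := (ex_exp_two hr hh h0).2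
  have c3 := (ex_exp_two hr hf f0).2
  have c4 : HasDerivAt (fun l => deriv (fun l => exp (g l)) l + deriv (fun l => exp (h l)) l)
      ((deriv g 0 ^ 2 + iteratedDeriv 2 g 0) + (deriv h 0 ^ 2 + iteratedDeriv 2 h 0)) 0 :=
    c1.add c2
  have c5 : HasDerivAt (fun l => 2 * deriv (fun l => exp (f l)) l)
      (2 * (deriv f 0 ^ 2 + iteratedDeriv 2 f 0)) 0 := c3.const_mul 2
  have c6 : (fun l => 2 * deriv (fun l => exp (f l)) l) =ᶠ[𝓝 0]
      fun l => deriv (fun l => exp (g l)) l + deriv (fun l => exp (h l)) l := by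
    filter_upwards [Metric.isOpen_ball.mem_nhds hm] with z hz
    exact (a1 z hz).symm
  exact (c4.congr_of_eventuallyEq c6).unique c5

theorem expand : ∃ C k₀ : ℝ, 0 < C ∧ 0 < k₀ ∧ k₀ < 1 ∧ ∀ Θ, IsTheta Θ → ∃ Q : ℕ → ℕ → ℝ,
    Q 0 0 = 0 ∧
    (∀ n j : ℕ, j < 2 ^ n → |Q (n + 1) (2 * j) - Q n j| ≤ C ∧
      |Q (n + 1) (2 * j + 1) - Q n j| ≤ C ∧
      Q (n + 1) (2 * j) + Q (n + 1) (2 * j + 1) - 2 * Q n j =
        d2 (fun x => deriv (fun l => Θ l x) 0) n j ^ 2) ∧
    (∀ k : ℝ, 0 ≤ k → k ≤ k₀ → ∀ n j : ℕ, j < 2 ^ n →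
      Real.exp (k ^ 2 * Q n j - C * n * k ^ 4) / 2 ^ n ≤
        ‖Θ k ((j + 1) / 2 ^ n) - Θ k (j / 2 ^ n)‖ ∧
      ‖Θ k ((j + 1) / 2 ^ n) - Θ k (j / 2 ^ n)‖ ≤
        Real.exp (k ^ 2 * Q n j + C * n * k ^ 4) / 2 ^ n) ∧
    (∀ k : ℝ, 0 ≤ k → k ≤ k₀ → ∀ a b x : ℝ, a < b → a ≤ x → x ≤ b →
      ‖Θ k x - Θ k a‖ ≤ 3 * ‖Θ k b - Θ k a‖) ∧
    (∀ k : ℝ, 0 ≤ k → k ≤ k₀ → ∀ a b x : ℝ, a < b → a ≤ x → 4 * (x - a) ≤ b - a →
      2 * ‖Θ k x - Θ k a‖ ≤ ‖Θ k b - Θ k a‖) := by
  obtain ⟨r, hr0, hr1, hlog⟩ := theta_log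
  obtain ⟨C', hC', hratio⟩ := theta_ratio
  have hC0 : 0 < C' := by linarith
  refine ⟨32 / r ^ 4, min (r / 4) (1 / (4 * C')), by positivity, lt_min (by positivity)
    (by positivity), (min_le_left _ _).trans_lt (by linarith), fun Θ hΘ => ?_⟩
  obtain ⟨ℓ, hℓ0, hℓ⟩ := hlog Θ hΘ
  have hm : (0 : ℂ) ∈ Metric.ball (0 : ℂ) r := Metric.mem_ball_self hr0
  have hin : ∀ l ∈ Metric.ball (0 : ℂ) r, ‖l‖ < 1 := fun l hl =>
    (mem_ball_zero_iff.1 hl).trans hr1
  -- the bound by `n`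
  have hbd : ∀ n j : ℕ, j < 2 ^ n → ∀ l ∈ Metric.ball (0 : ℂ) r, ‖ℓ n j l‖ ≤ n := by
    intro n
    induction n with
    | zero =>
      intro j hj l hl
      have hj0 : j = 0 := by simpa using hj
      rw [hj0, hℓ0 l hl]
      simp
    | succ n ih =>
      intro j hj l hl
      have hj2 : j / 2 < 2 ^ n := by
        rw [pow_succ] at hj
        omega
      have i1 := ih (j / 2) hj2 l hl
      have i2 := (hℓ n (j / 2) hj2).2.2.2 l hl
      have i3 : ‖ℓ (n + 1) j l - ℓ n (j / 2) l‖ ≤ 1 := by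
        rcases Nat.even_or_odd' j with ⟨q, hq | hq⟩
        · have : 2 * (j / 2) = j := by omega
          rw [this] at i2
          exact i2.1
        · have : 2 * (j / 2) + 1 = j := by omega
          rw [this] at i2
          exact i2.2
      calc ‖ℓ (n + 1) j l‖ = ‖(ℓ (n + 1) j l - ℓ n (j / 2) l) + ℓ n (j / 2) l‖ := by
            rw [sub_add_cancel]
        _ ≤ 1 + n := (norm_add_le _ _).trans (add_le_add i3 i1)
        _ = ((n + 1 : ℕ) : ℝ) := by push_cast; ring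
  -- symmetry
  have hsym : ∀ n j : ℕ, j < 2 ^ n → ∀ l ∈ Metric.ball (0 : ℂ) r,
      conj (ℓ n j (-conj l)) = ℓ n j l := by
    intro n j hj
    obtain ⟨h1, h2, h3, _⟩ := hℓ n j hj
    refine ex_symm hr0 h1 h2 fun l hl => ?_
    have hl' : -conj l ∈ Metric.ball (0 : ℂ) r := by
      rw [mem_ball_zero_iff] at hl ⊢
      rwa [norm_neg, RCLike.norm_conj]
    have c2 : conj (2 : ℂ) = 2 := Complex.conj_eq_iff_real.2 ⟨2, by simp⟩
    rw [h3 l hl, h3 _ hl', hΘ.even l (hin l hl), hΘ.even l (hin l hl), map_mul, map_sub, map_pow, c2]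
  -- first derivatives
  have hder : ∀ n j : ℕ, j < 2 ^ n → deriv (ℓ n j) 0 =
      2 ^ n * (deriv (fun l => Θ l ((j + 1) / 2 ^ n)) 0 - deriv (fun l => Θ l (j / 2 ^ n)) 0) := by
    intro n j hj
    obtain ⟨h1, h2, h3, _⟩ := hℓ n j hj
    have e1 := (ex_exp_two hr0 h1 h2).1
    have hmem1 : (0 : ℂ) ∈ Metric.ball (0 : ℂ) 1 := Metric.mem_ball_self one_pos
    have e2 : HasDerivAt (fun l => 2 ^ n * (Θ l ((j + 1) / 2 ^ n) - Θ l (j / 2 ^ n)))
        (2 ^ n * (deriv (fun l => Θ l ((j + 1) / 2 ^ n)) 0 - deriv (fun l => Θ l (j / 2 ^ n)) 0)) 0 :=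
      ((ex_diffAt (hΘ.hol _) hmem1).hasDerivAt.sub
        (ex_diffAt (hΘ.hol _) hmem1).hasDerivAt).const_mul _
    have e3 : (fun l => 2 ^ n * (Θ l ((j + 1) / 2 ^ n) - Θ l (j / 2 ^ n))) =ᶠ[𝓝 0]
        fun l => exp (ℓ n j l) := by
      filter_upwards [Metric.isOpen_ball.mem_nhds hm] with z hz
      exact (h3 z hz).symm
    exact (e1.congr_of_eventuallyEq e3).unique e2
  have hre1 : ∀ n j : ℕ, j < 2 ^ n → (deriv (ℓ n j) 0).re = 0 := by
    intro n j hj
    have s1 := ex_iter_symm hr0 (hsym n j hj) 1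
    have := congrArg Complex.re s1
    simp only [pow_one, neg_mul, one_mul, Complex.neg_re, Complex.conj_re,
      iteratedDeriv_one] at this
    linarith
  refine ⟨fun n j => (iteratedDeriv 2 (ℓ n j) 0).re / 2, ?_, ?_, ?_, ?_, ?_⟩
  · -- the root
    have h1 : ℓ 0 0 =ᶠ[𝓝 0] fun _ => (0 : ℂ) := by
      filter_upwards [Metric.isOpen_ball.mem_nhds hm] with z hz
      exact hℓ0 z hz
    have h2 := h1.iteratedDeriv_eq 2
    show (iteratedDeriv 2 (ℓ 0 0) 0).re / 2 = 0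
    rw [h2]
    simp
  · intro n j hj
    have hjL : 2 * j < 2 ^ (n + 1) := by rw [pow_succ]; omega
    have hjR : 2 * j + 1 < 2 ^ (n + 1) := by rw [pow_succ]; omega
    obtain ⟨h1, h2, h3, h4⟩ := hℓ n j hj
    obtain ⟨l1, l2, l3, _⟩ := hℓ (n + 1) (2 * j) hjL
    obtain ⟨r1, r2, r3, _⟩ := hℓ (n + 1) (2 * j + 1) hjR
    have hcda : ∀ f : ℂ → ℂ, DifferentiableOn ℂ f (Metric.ball 0 r) → ContDiffAt ℂ (2 : ℕ) f 0 :=
      fun f hf => (hf.analyticAt (Metric.isOpen_ball.mem_nhds hm)).contDiffAt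
    have hdiff : ∀ g : ℂ → ℂ, DifferentiableOn ℂ g (Metric.ball 0 r) →
        (∀ l ∈ Metric.ball (0 : ℂ) r, ‖g l - ℓ n j l‖ ≤ 1) →
        |(iteratedDeriv 2 g 0).re / 2 - (iteratedDeriv 2 (ℓ n j) 0).re / 2| ≤ 32 / r ^ 4 := by
      intro g hg hb
      have e1 := ex_coef (M := 1) hr0 (f := g - ℓ n j) (hg.sub h1) hb 2
      rw [iteratedDeriv_sub (hcda g hg) (hcda _ h1)] at e1
      have e2 := (Complex.abs_re_le_norm _).trans e1
      rw [Complex.sub_re] at e2
      rw [← sub_div, abs_div, abs_two, div_le_iff₀ two_pos]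
      refine e2.trans ?_
      have e3 : r ^ 4 ≤ r ^ 2 := pow_le_pow_of_le_one hr0.le hr1.le (by norm_num)
      calc ((Nat.factorial 2 : ℕ) : ℝ) * 1 / (r / 2) ^ 2 = 8 / r ^ 2 := by
            norm_num [Nat.factorial]
            field_simp
            norm_num
        _ ≤ 8 / r ^ 4 := by gcongr
        _ ≤ 32 / r ^ 4 * 2 := by
            rw [div_mul_eq_mul_div]
            gcongr
            norm_num
    refine ⟨hdiff _ l1 fun l hl => (h4 l hl).1, hdiff _ r1 fun l hl => (h4 l hl).2, ?_⟩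
    -- the telescoping identity
    have x1 : (((2 * j : ℕ) : ℝ) + 1) / 2 ^ (n + 1) = (2 * (j : ℝ) + 1) / 2 ^ (n + 1) := by
      push_cast; ring
    have x2 : ((2 * j : ℕ) : ℝ) / 2 ^ (n + 1) = (j : ℝ) / 2 ^ n := by
      push_cast; field_simp; ring
    have x3 : (((2 * j + 1 : ℕ) : ℝ) + 1) / 2 ^ (n + 1) = ((j : ℝ) + 1) / 2 ^ n := by
      push_cast; field_simp; ring
    have x4 : ((2 * j + 1 : ℕ) : ℝ) / 2 ^ (n + 1) = (2 * (j : ℝ) + 1) / 2 ^ (n + 1) := by
      push_cast; ring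
    have hsplit := ex_split hr0 h1 h2 l1 l2 r1 r2 (fun l hl => by
      rw [h3 l hl, l3 l hl, r3 l hl, x1, x2, x3, x4]
      ring)
    have dL := hder (n + 1) (2 * j) hjL
    have dR := hder (n + 1) (2 * j + 1) hjR
    have dN := hder n j hj
    rw [x1, x2] at dL
    rw [x3, x4] at dR
    unfold d2
    beta_reduce
    have reN := hre1 n j hj
    have reL := hre1 (n + 1) (2 * j) hjL
    generalize deriv (fun l => Θ l ((2 * (j : ℝ) + 1) / 2 ^ (n + 1))) 0 = Vm at *
    generalize deriv (fun l => Θ l (((j : ℝ) + 1) / 2 ^ n)) 0 = Vb at *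
    generalize deriv (fun l => Θ l ((j : ℝ) / 2 ^ n)) 0 = Va at *
    set W : ℂ := 2 ^ n * (2 * Vm - Va - Vb) with hW
    have hWre : W.re = 0 := by
      have : W = deriv (ℓ (n + 1) (2 * j)) 0 - deriv (ℓ n j) 0 := by
        rw [dL, dN, hW, pow_succ]
        ring
      rw [this, Complex.sub_re, reN, reL, sub_zero]
    have hWim : W.im = 2 ^ n * (2 * Vm - Va - Vb).im := by
      rw [hW]
      have : ((2 : ℂ) ^ n) = (((2 : ℝ) ^ n : ℝ) : ℂ) := by push_cast; ring
      rw [this, Complex.im_ofReal_mul]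
    rw [← hWim]
    have e5 : iteratedDeriv 2 (ℓ (n + 1) (2 * j)) 0 + iteratedDeriv 2 (ℓ (n + 1) (2 * j + 1)) 0
        - 2 * iteratedDeriv 2 (ℓ n j) 0 = -(2 * W ^ 2) := by
      have e6 : deriv (ℓ (n + 1) (2 * j)) 0 = deriv (ℓ n j) 0 + W := by
        rw [dL, dN, hW, pow_succ]
        ring
      have e7 : deriv (ℓ (n + 1) (2 * j + 1)) 0 = deriv (ℓ n j) 0 - W := by
        rw [dR, dN, hW, pow_succ]
        ring
      rw [e6, e7] at hsplit
      linear_combination hsplit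
    have e8 := congrArg Complex.re e5
    have e9 : (-(2 * W ^ 2)).re = 2 * W.im ^ 2 := ex_sq_re W hWre
    rw [e9, Complex.sub_re, Complex.add_re, Complex.mul_re] at e8
    norm_num at e8
    linarith
  · -- the logarithmic estimate
    intro k hk0 hk n j hj
    obtain ⟨h1, h2, h3, h4⟩ := hℓ n j hj
    have hk4 : k ≤ r / 4 := hk.trans (min_le_left _ _)
    have hkm : (k : ℂ) ∈ Metric.ball (0 : ℂ) r := by
      rw [mem_ball_zero_iff, Complex.norm_real, Real.norm_of_nonneg hk0]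
      linarith
    have e1 := ex_re hr0 h1 (Nat.cast_nonneg n) (hbd n j hj) h2 (hsym n j hj) hk0 hk4
    rw [abs_le] at e1
    have e2 : ‖Θ k ((j + 1) / 2 ^ n) - Θ k (j / 2 ^ n)‖ = Real.exp (ℓ n j k).re / 2 ^ n := by
      have := congrArg norm (h3 k hkm)
      rw [Complex.norm_exp, norm_mul, norm_pow, Complex.norm_ofNat] at this
      rw [this]
      field_simp
    rw [e2]
    constructor
    · gcongr
      linarith [e1.1]
    · gcongr
      linarith [e1.2]
  · intro k hk0 hk a b x hab hax hxb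
    have hk4 : k ≤ r / 4 := hk.trans (min_le_left _ _)
    have hkC : C' * k ≤ 1 / 4 := by
      have := hk.trans (min_le_right _ _)
      rw [le_div_iff₀ (by positivity)] at this
      linarith
    have hkn : ‖(k : ℂ)‖ = k := by rw [Complex.norm_real, Real.norm_of_nonneg hk0]
    have hk1 : ‖(k : ℂ)‖ < 1 := by rw [hkn]; linarith
    have e1 := hratio Θ hΘ a x b hab.ne (by
      rw [abs_of_nonneg (by linarith), abs_of_pos (by linarith)]; linarith) k hk1 (by
      rw [hkn, le_div_iff₀ hC0]; linarith)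
    rw [hkn] at e1
    have hne : Θ k b - Θ k a ≠ 0 := fun h =>
      hab.ne (hΘ.inj k hk1 (sub_eq_zero.1 h)).symm
    have e2 : ‖((x : ℂ) - a) / (b - a)‖ ≤ 1 := by
      rw [← Complex.ofReal_sub, ← Complex.ofReal_sub, ← Complex.ofReal_div, Complex.norm_real,
        Real.norm_of_nonneg (div_nonneg (by linarith) (by linarith)), div_le_one (by linarith)]
      linarith
    have e3 : ‖(Θ k x - Θ k a) / (Θ k b - Θ k a)‖ ≤ 3 := by
      have := norm_sub_norm_le ((Θ k x - Θ k a) / (Θ k b - Θ k a)) (((x : ℂ) - a) / (b - a))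
      linarith
    rwa [norm_div, div_le_iff₀ (norm_pos_iff.2 hne)] at e3
  · intro k hk0 hk a b x hab hax hxb
    have hk4 : k ≤ r / 4 := hk.trans (min_le_left _ _)
    have hkC : C' * k ≤ 1 / 4 := by
      have := hk.trans (min_le_right _ _)
      rw [le_div_iff₀ (by positivity)] at this
      linarith
    have hkn : ‖(k : ℂ)‖ = k := by rw [Complex.norm_real, Real.norm_of_nonneg hk0]
    have hk1 : ‖(k : ℂ)‖ < 1 := by rw [hkn]; linarith
    have e1 := hratio Θ hΘ a x b hab.ne (by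
      rw [abs_of_nonneg (by linarith), abs_of_pos (by linarith)]; linarith) k hk1 (by
      rw [hkn, le_div_iff₀ hC0]; linarith)
    rw [hkn] at e1
    have hne : Θ k b - Θ k a ≠ 0 := fun h =>
      hab.ne (hΘ.inj k hk1 (sub_eq_zero.1 h)).symm
    have e2 : ‖((x : ℂ) - a) / (b - a)‖ ≤ 1 / 4 := by
      rw [← Complex.ofReal_sub, ← Complex.ofReal_sub, ← Complex.ofReal_div, Complex.norm_real,
        Real.norm_of_nonneg (div_nonneg (by linarith) (by linarith)), div_le_iff₀ (by linarith)]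
      linarith
    have e3 : ‖(Θ k x - Θ k a) / (Θ k b - Θ k a)‖ ≤ 1 / 2 := by
      have := norm_sub_norm_le ((Θ k x - Θ k a) / (Θ k b - Θ k a)) (((x : ℂ) - a) / (b - a))
      linarith
    rw [norm_div, div_le_iff₀ (norm_pos_iff.2 hne)] at e3
    linarith

end Pool.Agent.QCD
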