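import Pool.Agent.Lib.MP_f30fea_an.Base
import Pool.Agent.Lib.MP_f30fea_an.Star

/-!
# Logarithmic coordinates on the circle for an antisymmetric family

For `‖z‖ = 1` the function `κ_z l = w l z / z` is holomorphic and without zeros on the unit disc,
`κ_z 0 = 1`.  Let `Lg_z` be its holomorphic logarithm with `Lg_z 0 = 0` (primitive of `κ'/κ`:
`DifferentiableOn.isExactOn_ball`), chosen as a function of `z`.
`Θ l x = x + Lg_{ee x} l / (2πi)`; for `‖l‖ < 1`
`ee (Θ l x) = ee x * κ l = w l (ee x)`.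
`per`: `ee (x+1) = ee x`.  `inj`: if `Θ l x = Θ l y` then `w l (ee x) = w l (ee y)`, `ee x = ee y`,
so `Θ l x - Θ l y = x - y`.  `zero`, `hol` clear; the derivative at `0` is
`κ_z' 0 / (2πi)`.
`even`: for `‖l‖ < 1` the reflection of `w l` (`star_nice`, `Nice (fun z => l α z)`, `Coef ‖l‖ (l α)`) has the
coefficient `starC (l α) = conj l starC α = -conj l α`, so it is `w (-conj l)` (`nice_unique`).  For `‖z‖ = 1`:
`w (-conj l) z = 1 / conj (w l z)`, so `κ_z (-conj l) = 1 / conj (κ_z l)` (`z conj z = 1`).  So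
`l ↦ -conj (Lg (-conj l))` and `Lg` are holomorphic logarithms of the same function vanishing at `0`, so
they agree.  `conj (Lg/(2πi)) = -conj Lg/(2πi)` gives `Θ (-conj l) x = conj (Θ l x)`.
-/

open Complex MeasureTheory Filter Topology Set
open scoped ContDiff ENNReal ComplexConjugate

noncomputable section

namespace Pool.Agent.QCD

private theorem tx_log {κ : ℂ → ℂ} (hκ : DifferentiableOn ℂ κ (Metric.ball 0 1))
    (hne : ∀ l ∈ Metric.ball (0 : ℂ) 1, κ l ≠ 0) (h0 : κ 0 = 1) :
    ∃ g : ℂ → ℂ, DifferentiableOn ℂ g (Metric.ball 0 1) ∧ g 0 = 0 ∧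
      (∀ l ∈ Metric.ball (0 : ℂ) 1, exp (g l) = κ l) ∧ deriv g 0 = deriv κ 0 := by
  have h1 : DifferentiableOn ℂ (fun l => deriv κ l / κ l) (Metric.ball 0 1) :=
    (hκ.deriv Metric.isOpen_ball).div hκ hne
  obtain ⟨g, hg0, hg⟩ := (h1.isExactOn_ball).with_val_at 0 0
  have h00 : (0 : ℂ) ∈ Metric.ball (0 : ℂ) 1 := Metric.mem_ball_self one_pos
  have hgd : DifferentiableOn ℂ g (Metric.ball 0 1) := fun z hz =>
    (hg z hz).differentiableAt.differentiableWithinAt
  refine ⟨g, hgd, hg0, ?_, ?_⟩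
  · have hκd : ∀ l ∈ Metric.ball (0 : ℂ) 1, HasDerivAt κ (deriv κ l) l := fun l hl =>
      (hκ.differentiableAt (Metric.isOpen_ball.mem_nhds hl)).hasDerivAt
    have hF : ∀ l ∈ Metric.ball (0 : ℂ) 1, HasDerivAt (fun l => κ l * exp (-g l)) 0 l := by
      intro l hl
      have h2 := (hκd l hl).mul ((hg l hl).neg.cexp)
      refine h2.congr_deriv ?_
      have h3 := hne l hl
      field_simp
      ring
    intro l hl
    have h2 := Metric.isOpen_ball.is_const_of_deriv_eq_zero
      (convex_ball (0 : ℂ) 1).isPreconnected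
      (f := fun l => κ l * exp (-g l))
      (fun z hz => (hF z hz).differentiableAt.differentiableWithinAt)
      (fun z hz => (hF z hz).deriv) hl h00
    simp only [h0, hg0, neg_zero, Complex.exp_zero, mul_one] at h2
    rw [Complex.exp_neg, ← div_eq_mul_inv, div_eq_one_iff_eq (Complex.exp_ne_zero _)] at h2
    exact h2.symm
  · rw [(hg 0 h00).deriv, h0, div_one]

private theorem tx_unique {f g : ℂ → ℂ} (hf : DifferentiableOn ℂ f (Metric.ball 0 1))
    (hg : DifferentiableOn ℂ g (Metric.ball 0 1)) (h0 : f 0 = g 0)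
    (he : ∀ l ∈ Metric.ball (0 : ℂ) 1, exp (f l) = exp (g l)) :
    ∀ l ∈ Metric.ball (0 : ℂ) 1, f l = g l := by
  have h00 : (0 : ℂ) ∈ Metric.ball (0 : ℂ) 1 := Metric.mem_ball_self one_pos
  refine Metric.isOpen_ball.eqOn_of_deriv_eq (convex_ball (0 : ℂ) 1).isPreconnected hf hg ?_ h00 h0
  intro l hl
  have hn := Metric.isOpen_ball.mem_nhds hl
  have h1 := (hf.differentiableAt hn).hasDerivAt.cexp
  have h2 := (hg.differentiableAt hn).hasDerivAt.cexp
  have h3 : (fun x => exp (f x)) =ᶠ[𝓝 l] fun x => exp (g x) := by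
    filter_upwards [hn] with y hy
    exact he y hy
  have h4 := h1.unique (h2.congr_of_eventuallyEq h3)
  rw [he l hl] at h4
  exact mul_left_cancel₀ (Complex.exp_ne_zero _) h4

private theorem tx_ee_norm (x : ℝ) : ‖ee x‖ = 1 := by
  unfold ee
  have h1 : 2 * (Real.pi : ℂ) * I * x = ((2 * Real.pi * x : ℝ) : ℂ) * I := by
    push_cast
    ring
  rw [h1, Complex.norm_exp_ofReal_mul_I]

private theorem tx_ee_per (x : ℝ) : ee ((x + 1 : ℝ) : ℂ) = ee x := by
  unfold ee
  rw [Complex.exp_eq_exp_iff_exists_int]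
  refine ⟨1, ?_⟩
  push_cast
  ring

private theorem tx_pi : (2 * Real.pi * I : ℂ) ≠ 0 := by
  simp [Real.pi_ne_zero]

theorem exists_theta {α : ℂ → ℂ} {w : ℂ → (ℂ ≃ₜ ℂ)} (hα : Coef 1 α)
    (hs : ∀ z, starC α z = -α z) (hw : IsFamily α w) :
    ∃ Θ : ℂ → ℝ → ℂ, IsTheta Θ ∧ (∀ l : ℂ, ‖l‖ < 1 → ∀ x : ℝ, ee (Θ l x) = w l (ee x)) ∧
      ∀ x : ℝ, deriv (fun l => Θ l x) 0 =
        deriv (fun l => w l (ee x)) 0 / (2 * Real.pi * I * ee x) := by
  have h00 : (0 : ℂ) ∈ Metric.ball (0 : ℂ) 1 := Metric.mem_ball_self one_pos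
  have hne0 : ∀ z : ℂ, ‖z‖ = 1 → z ≠ 0 := by
    intro z hz h
    rw [h, norm_zero] at hz
    exact zero_ne_one hz
  have hwne : ∀ l : ℂ, ‖l‖ < 1 → ∀ z : ℂ, z ≠ 0 → w l z ≠ 0 := by
    intro l hl z hz h
    exact hz ((w l).injective (h.trans (hw.nice l hl).zero.symm))
  have hself : ∀ z : ℂ, ‖z‖ = 1 → (conj z)⁻¹ = z := by
    intro z hz
    have h1 : z * conj z = 1 := by
      rw [Complex.mul_conj, Complex.normSq_eq_norm_sq, hz]
      norm_num
    exact inv_eq_of_mul_eq_one_left h1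
  -- the reflection of the family
  have hrefl : ∀ l : ℂ, ‖l‖ < 1 → ∀ z : ℂ, ‖z‖ = 1 → w (-conj l) z = (conj (w l z))⁻¹ := by
    intro l hl z hz
    have hc : Coef ‖l‖ (fun z => l * α z) := by
      refine ⟨⟨contDiff_const.mul hα.test.1, ?_⟩, ?_, ?_⟩
      · exact hα.test.2.mul_left (f := fun _ => l)
      · obtain ⟨ε, hε, h1⟩ := hα.van
        exact ⟨ε, hε, fun z hz => by rw [h1 z hz, mul_zero]⟩
      · intro z
        rw [norm_mul]
        exact mul_le_of_le_one_right (norm_nonneg _) (hα.le z)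
    obtain ⟨v, hv, hvn⟩ := star_nice hl hc (hw.nice l hl)
    have h1 : starC (fun z => l * α z) = fun z => -conj l * α z := by
      funext z
      have h2 := hs z
      unfold starC at h2 ⊢
      rw [map_mul]
      linear_combination conj l * h2
    rw [h1] at hvn
    have hl' : ‖-conj l‖ < 1 := by rwa [norm_neg, RCLike.norm_conj]
    have h2 := nice_unique hl' (fun z => by
      rw [norm_mul]
      exact mul_le_of_le_one_right (norm_nonneg _) (hα.le z)) (hw.nice (-conj l) hl') hvn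
    rw [h2, hv, hself z hz]
  -- the logarithms
  have hex : ∀ z : ℂ, ∃ g : ℂ → ℂ, ‖z‖ = 1 → (DifferentiableOn ℂ g (Metric.ball 0 1) ∧ g 0 = 0 ∧
      (∀ l ∈ Metric.ball (0 : ℂ) 1, exp (g l) = w l z / z) ∧
      deriv g 0 = deriv (fun l => w l z) 0 / z) := by
    intro z
    by_cases hz : ‖z‖ = 1
    · obtain ⟨g, h1, h2, h3, h4⟩ := tx_log (κ := fun l => w l z / z) ((hw.hol z).div_const z)
        (fun l hl => div_ne_zero (hwne l (by simpa using hl) z (hne0 z hz)) (hne0 z hz))
        (by simp only [hw.zero]; exact div_self (hne0 z hz))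
      refine ⟨g, fun _ => ⟨h1, h2, h3, ?_⟩⟩
      rw [h4, deriv_div_const]
    · exact ⟨fun _ => 0, fun h => absurd h hz⟩
  choose Lg hLg using hex
  have hLg' : ∀ x : ℝ, DifferentiableOn ℂ (Lg (ee x)) (Metric.ball 0 1) ∧ Lg (ee x) 0 = 0 ∧
      (∀ l ∈ Metric.ball (0 : ℂ) 1, exp (Lg (ee x) l) = w l (ee x) / ee x) ∧
      deriv (Lg (ee x)) 0 = deriv (fun l => w l (ee x)) 0 / ee x := fun x =>
    hLg (ee x) (tx_ee_norm x)
  have key : ∀ l : ℂ, ‖l‖ < 1 → ∀ x : ℝ,
      ee (x + Lg (ee x) l / (2 * Real.pi * I)) = w l (ee x) := by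
    intro l hl x
    obtain ⟨-, -, h3, -⟩ := hLg' x
    have h4 := h3 l (by simpa using hl)
    have h5 : ee (x + Lg (ee x) l / (2 * Real.pi * I)) = ee x * exp (Lg (ee x) l) := by
      conv_lhs => rw [ee]
      conv_rhs => rw [ee]
      rw [← Complex.exp_add]
      congr 1
      have := tx_pi
      field_simp
      rfl
    rw [h5, h4]
    field_simp [hne0 _ (tx_ee_norm x)]
  refine ⟨fun l x => x + Lg (ee x) l / (2 * Real.pi * I), ⟨?_, ?_, ?_, ?_, ?_⟩, key, ?_⟩
  · intro x
    simp only [(hLg' x).2.1, zero_div, add_zero]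
  · intro x
    exact (differentiableOn_const _).add ((hLg' x).1.div_const _)
  · intro l hl x y hxy
    simp only at hxy
    have h1 := key l hl x
    have h2 := key l hl y
    rw [hxy, h2] at h1
    have h3 : ee y = ee x := (w l).injective h1
    rw [h3] at hxy
    have h4 : (x : ℂ) = y := add_right_cancel hxy
    exact_mod_cast h4
  · intro l hl x
    simp only [tx_ee_per]
    push_cast
    ring
  · intro l hl x
    obtain ⟨h1, h2, h3, -⟩ := hLg' x
    set z := ee (x : ℂ) with hz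
    have hz1 : ‖z‖ = 1 := tx_ee_norm x
    have hz0 := hne0 z hz1
    have hl' : ‖-conj l‖ < 1 := by rwa [norm_neg, RCLike.norm_conj]
    -- the reflected logarithm
    have e1 : DifferentiableOn ℂ (fun m => -conj (Lg z (-conj m))) (Metric.ball 0 1) := by
      intro m hm
      have hm1 : ‖m‖ < 1 := by simpa using hm
      have hm' : (-conj m : ℂ) ∈ Metric.ball (0 : ℂ) 1 := by
        simpa using hm1
      have hd : DifferentiableAt ℂ (Lg z) (-conj m) :=
        h1.differentiableAt (Metric.isOpen_ball.mem_nhds hm')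
      have hd2 : DifferentiableAt ℂ (fun y => Lg z (-y)) (conj m) :=
        DifferentiableAt.comp (conj m) hd differentiableAt_id.neg
      have hd3 := hd2.conj_conj
      rw [Complex.conj_conj] at hd3
      exact hd3.neg.differentiableWithinAt
    have e2 : ∀ m ∈ Metric.ball (0 : ℂ) 1, exp (-conj (Lg z (-conj m))) = exp (Lg z m) := by
      intro m hm
      have hm1 : ‖m‖ < 1 := by simpa using hm
      have hm' : (-conj m : ℂ) ∈ Metric.ball (0 : ℂ) 1 := by
        simpa using hm1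
      rw [Complex.exp_neg, Complex.exp_conj, h3 _ hm', h3 _ hm, hrefl m hm1 z hz1, map_div₀,
        map_inv₀, Complex.conj_conj]
      have hwm := hwne m hm1 z hz0
      have hzc : (conj z)⁻¹ = z := hself z hz1
      have hz0' : conj z ≠ 0 := (map_ne_zero _).2 hz0
      have hzz : z * conj z = 1 := by
        nth_rewrite 1 [← hzc]
        exact inv_mul_cancel₀ hz0'
      field_simp
      linear_combination hzz
    have e3 := tx_unique e1 h1 (by simp [h2]) e2 (-conj l) (by simpa using hl)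
    simp only [map_neg, Complex.conj_conj, neg_neg] at e3
    simp only [map_add, map_div₀, Complex.conj_ofReal, map_mul, map_ofNat, Complex.conj_I]
    rw [← e3]
    have := tx_pi
    field_simp
  · intro x
    obtain ⟨h1, -, -, h4⟩ := hLg' x
    have h5 : HasDerivAt (Lg (ee x)) (deriv (fun l => w l (ee x)) 0 / ee x) 0 := by
      rw [← h4]
      exact (h1.differentiableAt (Metric.isOpen_ball.mem_nhds h00)).hasDerivAt
    have h6 := (h5.div_const (2 * Real.pi * I)).const_add (x : ℂ)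
    rw [h6.deriv, div_div, mul_comm (ee (x : ℂ))]

end Pool.Agent.QCD
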