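import Pool.Agent.Lib.MP_f30fea_an.Base
import Pool.Agent.Lib.MP_f30fea_an.VSec
import Pool.Agent.Lib.MP_f30fea_an.ThetaEx
import Pool.Agent.Lib.MP_f30fea_an.CauBasic

/-!
# The second differences of the first variation

Let `V x = deriv (Θ · x) 0 = (2πi z)⁻¹ (cau α z - (1-z) cau α 0 - z cau α 1)`, `z = ee x` (`IsFamily.der`), which is
`(2πi)⁻¹ (cau α z - cau α 0)/z + const`.  Let `β = 1_{‖z‖<1} α`.  Since `starC α = -α`: `α = β - starC β` off the unit
circle (for `‖z‖ > 1`, `starC β z = starC α z = -α z`; for `‖z‖ < 1`, `starC β z = 0`).  For `‖z‖ = 1`, by the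
substitution `ω = 1/conj ξ` (Jacobian `‖ξ‖⁻⁴`; maps the punctured disc to the exterior):
`cau (starC β) z = π⁻¹ ∫ conj (β ξ) / (conj ξ ^3 (z conj ξ - 1)) = conj (π⁻¹ ∫ β ξ z/(ξ³ (ξ - z)))` (`z conj z = 1`),
`cau (starC β) 0 = -conj (π⁻¹ ∫ β ξ / ξ³)`, and `z/(ξ³(ξ-z)) = z⁻²/(ξ-z) - z⁻²/ξ - z⁻¹/ξ² - 1/ξ³`; so
`(cau (starC β) z - cau (starC β) 0)/z = -conj ((cau β z - cau β 0)/z) - conj (π⁻¹ ∫ β ξ/ξ²)` (multiply by
`conj z = 1/z`; `cau β z - cau β 0 = -π⁻¹ ∫ β (1/(ξ-z) - 1/ξ)`).  (`β` vanishes near `0`, all integrals converge.)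
Therefore `(cau α z - cau α 0)/z = P + conj P + const`, `P = (cau β z - cau β 0)/z`, and as `vv α x = P/(2πi)`:
`V x = vv α x - conj (vv α x) + const = 2i im (vv α x) + const`.  So
`d2 V n j = 2^n · 2 · im (2 vv m - vv a - vv b)`, `a = j/2^n`, `m = (2j+1)/2^{n+1}`, `b = (j+1)/2^n`, which is
`kk (lft α) (j/2^n) (1/2^n)` by `vv_second` with `h = 1/2^{n+1}` (`2·2^n·π⁻¹·2h² = 2^{-n}/π`).
-/

open Complex MeasureTheory Filter Topology Set
open scoped ContDiff ENNReal ComplexConjugate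

noncomputable section

namespace Pool.Agent.QCD

private def tkD (q : ℂ) : ℂ →L[ℝ] ℂ :=
  (((-((conj q) ^ 2)⁻¹) • (1 : ℂ →L[ℂ] ℂ)).restrictScalars ℝ).comp (Complex.conjCLE : ℂ →L[ℝ] ℂ)

private lemma tk_deriv {q : ℂ} (hq : q ≠ 0) : HasFDerivAt (fun q : ℂ => (conj q)⁻¹) (tkD q) q := by
  have hc : conj q ≠ 0 := (map_ne_zero _).2 hq
  have h1 : HasDerivAt (fun y : ℂ => y⁻¹) (-((conj q) ^ 2)⁻¹) (conj q) := hasDerivAt_inv hc
  have h2 := h1.hasFDerivAt.restrictScalars ℝ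
  have h3 : HasFDerivAt (fun q : ℂ => conj q) (Complex.conjCLE : ℂ →L[ℝ] ℂ) q :=
    Complex.conjCLE.hasFDerivAt
  have h4 := HasFDerivAt.comp q h2 h3
  have h5 : tkD q = ((ContinuousLinearMap.toSpanSingleton ℂ
      (-((conj q) ^ 2)⁻¹)).restrictScalars ℝ).comp (Complex.conjCLE : ℂ →L[ℝ] ℂ) := by
    apply ContinuousLinearMap.ext
    intro v
    simp [tkD, mul_comm]
  rw [h5]
  exact h4

private lemma tk_det (q : ℂ) : |(tkD q).det| = (‖q‖ ^ 4)⁻¹ := by
  have h : (tkD q).det = -(‖q‖ ^ 4)⁻¹ := by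
    have h1 : ((tkD q : ℂ →L[ℝ] ℂ) : ℂ →ₗ[ℝ] ℂ) =
        (((-((conj q) ^ 2)⁻¹) • (LinearMap.id : ℂ →ₗ[ℂ] ℂ)).restrictScalars ℝ).comp
          Complex.conjAe.toLinearMap := rfl
    rw [ContinuousLinearMap.det, h1, LinearMap.det_comp, Complex.det_conjAe,
      LinearMap.det_restrictScalars, LinearMap.det_smul, LinearMap.det_id, Module.finrank_self,
      pow_one, mul_one, Algebra.norm_complex_apply, Complex.normSq_eq_norm_sq, norm_neg, norm_inv,
      norm_pow, RCLike.norm_conj]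
    ring
  rw [h, abs_neg, abs_of_nonneg (by positivity)]

private lemma tk_image : (fun q : ℂ => (conj q)⁻¹) '' (Metric.ball (0 : ℂ) 1 \ {0}) =
    {q : ℂ | 1 < ‖q‖} := by
  ext q
  constructor
  · rintro ⟨x, ⟨h1, h2⟩, rfl⟩
    have hx : x ≠ 0 := h2
    rw [mem_ball_zero_iff] at h1
    have h3 : 1 < ‖(conj x)⁻¹‖ := by
      rw [norm_inv, RCLike.norm_conj]
      exact (one_lt_inv₀ (norm_pos_iff.2 hx)).2 h1
    exact h3
  · intro hq
    have hq' : 1 < ‖q‖ := hq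
    have hq0 : q ≠ 0 := by
      rintro rfl
      rw [norm_zero] at hq'
      linarith
    refine ⟨(conj q)⁻¹, ⟨?_, ?_⟩, ?_⟩
    · rw [mem_ball_zero_iff, norm_inv, RCLike.norm_conj]
      exact inv_lt_one_of_one_lt₀ hq'
    · simpa using hq0
    · simp

private lemma tk_inj : InjOn (fun q : ℂ => (conj q)⁻¹) (Metric.ball (0 : ℂ) 1 \ {0}) := by
  intro x _ y _ h
  exact (starRingEnd ℂ).injective (inv_injective h)

private lemma tk_meas : MeasurableSet (Metric.ball (0 : ℂ) 1 \ {0}) :=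
  Metric.isOpen_ball.measurableSet.diff (measurableSet_singleton _)

private lemma tk_meas2 : MeasurableSet {q : ℂ | 1 < ‖q‖} :=
  measurableSet_lt measurable_const measurable_norm

private lemma tk_null : ∀ᵐ q : ℂ, q ∈ (Metric.ball (0 : ℂ) 1 \ {0}) ∪ {q : ℂ | 1 < ‖q‖} := by
  have h1 : ∀ᵐ q : ℂ, q ≠ 0 := by
    simp [ae_iff]
  have h2 : ∀ᵐ q : ℂ, q ∉ Metric.sphere (0 : ℂ) 1 := by
    rw [ae_iff]
    simp only [not_not]
    exact Measure.addHaar_sphere volume (0 : ℂ) 1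
  filter_upwards [h1, h2] with q h3 h4
  rw [mem_sphere_zero_iff_norm] at h4
  rcases lt_or_gt_of_ne h4 with h5 | h5
  · left
    exact ⟨by rwa [mem_ball_zero_iff], h3⟩
  · right
    exact h5

private lemma tk_split {G : ℂ → ℂ} (hG : Integrable G) :
    ∫ q, G q = (∫ q in Metric.ball (0 : ℂ) 1 \ {0}, G q) + ∫ q in {q : ℂ | 1 < ‖q‖}, G q := by
  have hd : Disjoint (Metric.ball (0 : ℂ) 1 \ {0}) {q : ℂ | 1 < ‖q‖} := by
    rw [Set.disjoint_left]
    rintro q ⟨h1, -⟩ h2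
    rw [mem_ball_zero_iff] at h1
    have h3 : 1 < ‖q‖ := h2
    linarith
  rw [← setIntegral_union hd tk_meas2 hG.integrableOn hG.integrableOn]
  symm
  apply setIntegral_eq_integral_of_ae_compl_eq_zero
  filter_upwards [tk_null] with q h1 h2
  exact absurd h1 h2

private lemma tk_alg (x y z a t : ℂ) (hx : x ≠ 0) (hy : y ≠ 0) (hz : z ≠ 0) (ht : t ≠ 0)
    (h : z * y = t + 1) :
    (x ^ 2 * y ^ 2)⁻¹ * (z⁻¹ * (-(a * x ^ 2 / y ^ 2) / (t / y) -
      -(a * x ^ 2 / y ^ 2) / (0 - y⁻¹))) = z * (a / (-(t / z)) - a / (0 - y)) + a / y ^ 2 := by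
  have e1 : (x ^ 2 * y ^ 2)⁻¹ * (z⁻¹ * (-(a * x ^ 2 / y ^ 2) / (t / y) -
      -(a * x ^ 2 / y ^ 2) / (0 - y⁻¹))) = -(a * (t + 1) / (z * y ^ 3 * t)) := by
    simp only [zero_sub, div_neg, neg_div, div_inv_eq_mul]
    field_simp
    ring
  have e2 : z * (a / (-(t / z)) - a / (0 - y)) + a / y ^ 2 =
      a * (-(z ^ 2 * y ^ 2) + z * y * t + t) / (y ^ 2 * t) := by
    rw [zero_sub, div_neg, div_neg]
    field_simp
    ring
  rw [e1, e2, ← h]
  have e3 : -(z ^ 2 * y ^ 2) + z * y * t + t = -1 := by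
    have : t = z * y - 1 := by linear_combination -h
    rw [this]
    ring
  rw [e3]
  field_simp

private lemma tk_point {z x a : ℂ} (hz : ‖z‖ = 1) (hx : x ≠ 0) (hx1 : ‖x‖ < 1) (b : ℂ)
    (hb : b = -(conj a * x ^ 2 / (conj x) ^ 2)) :
    (‖x‖ ^ 4)⁻¹ • (z⁻¹ * (b / (z - (conj x)⁻¹) - b / (0 - (conj x)⁻¹))) =
      conj (z⁻¹ * (a / (z - x) - a / (0 - x)) + a / x ^ 2) := by
  have hc : conj x ≠ 0 := (map_ne_zero _).2 hx
  have hz0 : z ≠ 0 := by
    rintro rfl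
    simp at hz
  have hzz : conj z * z = 1 := by
    rw [mul_comm, Complex.mul_conj, Complex.normSq_eq_norm_sq, hz]
    simp
  have hzc : conj z = z⁻¹ := eq_inv_of_mul_eq_one_left hzz
  have h1 : z * conj x - 1 ≠ 0 := by
    intro h
    have h2 : z * conj x = 1 := by linear_combination h
    have h3 : ‖z * conj x‖ = 1 := by rw [h2, norm_one]
    rw [norm_mul, hz, one_mul, RCLike.norm_conj] at h3
    linarith
  have h4 : z - (conj x)⁻¹ = (z * conj x - 1) / conj x := by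
    field_simp
  have h5 : ((‖x‖ ^ 4)⁻¹ : ℝ) • (z⁻¹ * (b / (z - (conj x)⁻¹) - b / (0 - (conj x)⁻¹))) =
      (x ^ 2 * (conj x) ^ 2)⁻¹ * (z⁻¹ * (b / (z - (conj x)⁻¹) - b / (0 - (conj x)⁻¹))) := by
    rw [Complex.real_smul]
    congr 1
    have h6 : (x * conj x) = ((‖x‖ ^ 2 : ℝ) : ℂ) := by
      rw [Complex.mul_conj, Complex.normSq_eq_norm_sq]
    have h7 : x ^ 2 * (conj x) ^ 2 = ((‖x‖ ^ 4 : ℝ) : ℂ) := by
      rw [← mul_pow, h6]
      push_cast
      ring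
    rw [h7]
    push_cast
    rfl
  rw [h5, h4, hb]
  have h8 : (z⁻¹ - conj x) ≠ 0 := by
    intro h
    apply h1
    have h9 : conj x = z⁻¹ := by linear_combination -h
    rw [h9, mul_inv_cancel₀ hz0, sub_self]
  simp only [map_add, map_mul, map_sub, map_div₀, map_pow, map_inv₀, map_zero, hzc]
  have h10 : z⁻¹ - conj x = -((z * conj x - 1) / z) := by
    field_simp
    ring
  rw [h10, inv_inv]
  exact tk_alg x (conj x) z (conj a) (z * conj x - 1) hx hc hz0 h1 (by ring)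

private lemma tk_refl {α : ℂ → ℂ} (hα : Coef 1 α) (hs : ∀ z, starC α z = -α z) :
    ∃ c : ℂ, ∀ z : ℂ, ‖z‖ = 1 → (cau α z - cau α 0) / z =
      (cau ((Metric.ball (0 : ℂ) 1).indicator α) z -
        cau ((Metric.ball (0 : ℂ) 1).indicator α) 0) / z +
      conj ((cau ((Metric.ball (0 : ℂ) 1).indicator α) z -
        cau ((Metric.ball (0 : ℂ) 1).indicator α) 0) / z) + c := by
  set f : ℂ → ℂ := (Metric.ball (0 : ℂ) 1).indicator α with hf
  have hαm : Measurable α := hα.test.1.continuous.measurable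
  obtain ⟨R, hR⟩ := hα.test.2.isCompact.isBounded.subset_closedBall 0
  have hαr : ∀ q, R < ‖q‖ → α q = 0 := by
    intro q hq
    by_contra h0
    have h1 : q ∈ tsupport α := subset_tsupport _ h0
    have h2 := hR h1
    rw [mem_closedBall_zero_iff] at h2
    linarith
  have hfm : Measurable f := hαm.indicator Metric.isOpen_ball.measurableSet
  have hfb : ∀ q, ‖f q‖ ≤ 1 := by
    intro q
    rw [hf]
    by_cases h : q ∈ Metric.ball (0 : ℂ) 1
    · rw [indicator_of_mem h]; exact hα.le q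
    · rw [indicator_of_notMem h]; simp
  have hfr : ∀ q, (1 : ℝ) < ‖q‖ → f q = 0 := by
    intro q h
    rw [hf, indicator_of_notMem]
    rw [mem_ball_zero_iff]
    linarith
  -- the integral of `α / ξ²`
  obtain ⟨ε, hε, hvan⟩ := hα.van
  have hK : IntegrableOn (fun q => α q / q ^ 2) (Metric.ball (0 : ℂ) 1 \ {0}) := by
    have hfin : volume (Metric.ball (0 : ℂ) 1 \ {0}) < ⊤ :=
      (measure_mono sdiff_subset).trans_lt Metric.isBounded_ball.measure_lt_top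
    have h1 : IntegrableOn (fun _ : ℂ => 1 / ε ^ 2) (Metric.ball (0 : ℂ) 1 \ {0}) :=
      integrableOn_const hfin.ne
    refine h1.mono' (hαm.div (measurable_id.pow_const 2)).aestronglyMeasurable
      (Filter.Eventually.of_forall fun q => ?_)
    rcases lt_or_ge ‖q‖ ε with h | h
    · rw [hvan q h, zero_div, norm_zero]
      positivity
    · rw [norm_div, norm_pow]
      exact div_le_div₀ zero_le_one (hα.le q) (by positivity) (by gcongr)
  refine ⟨conj ((Real.pi : ℂ)⁻¹ * ∫ q in Metric.ball (0 : ℂ) 1 \ {0}, α q / q ^ 2), ?_⟩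
  intro z hz
  have hz0 : z ≠ 0 := by
    rintro rfl
    simp at hz
  have i1 := cau_integrable hfm hfb hfr z
  have i0 := cau_integrable hfm hfb hfr 0
  have j1 := cau_integrable hαm hα.le hαr z
  have j0 := cau_integrable hαm hα.le hαr 0
  set G : ℂ → ℂ := fun q => z⁻¹ * (α q / (z - q) - α q / (0 - q)) with hG
  have hGi : Integrable G := (j1.sub j0).const_mul z⁻¹
  have hG1 : (cau α z - cau α 0) / z = (Real.pi : ℂ)⁻¹ * ∫ q, G q := by
    rw [hG, integral_const_mul, integral_sub j1 j0, cau, cau]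
    ring
  have hG2 : (cau f z - cau f 0) / z =
      (Real.pi : ℂ)⁻¹ * ∫ q in Metric.ball (0 : ℂ) 1 \ {0}, G q := by
    have h1 : ∫ q in Metric.ball (0 : ℂ) 1 \ {0}, G q =
        z⁻¹ * ((∫ q, f q / (z - q)) - ∫ q, f q / (0 - q)) := by
      rw [← integral_sub i1 i0, ← integral_const_mul]
      have h2 : ∫ q in Metric.ball (0 : ℂ) 1 \ {0}, G q =
          ∫ q in Metric.ball (0 : ℂ) 1 \ {0}, z⁻¹ * (f q / (z - q) - f q / (0 - q)) := by
        refine setIntegral_congr_fun tk_meas (fun q hq => ?_)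
        rw [hG, hf]
        simp only
        rw [indicator_of_mem hq.1]
      rw [h2]
      apply setIntegral_eq_integral_of_ae_compl_eq_zero
      have hnull : ∀ᵐ q : ℂ, q ≠ 0 := by
        simp [ae_iff]
      filter_upwards [hnull] with q hq hq2
      have h3 : q ∉ Metric.ball (0 : ℂ) 1 := fun h => hq2 ⟨h, hq⟩
      rw [hf, indicator_of_notMem h3]
      simp
    rw [h1, cau, cau]
    ring
  have hG3 : ∫ q in {q : ℂ | 1 < ‖q‖}, G q =
      conj ((∫ q in Metric.ball (0 : ℂ) 1 \ {0}, G q) +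
        ∫ q in Metric.ball (0 : ℂ) 1 \ {0}, α q / q ^ 2) := by
    rw [← tk_image, integral_image_eq_integral_abs_det_fderiv_smul (f' := tkD)
      volume tk_meas (fun x hx => (tk_deriv hx.2).hasFDerivWithinAt) tk_inj,
      ← integral_add hGi.integrableOn hK, ← integral_conj]
    refine setIntegral_congr_fun tk_meas (fun x hx => ?_)
    have hx0 : x ≠ 0 := hx.2
    have hx1 : ‖x‖ < 1 := by
      have := hx.1
      rwa [mem_ball_zero_iff] at this
    have hc : conj x ≠ 0 := (map_ne_zero _).2 hx0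
    have hb : α (conj x)⁻¹ = -(conj (α x) * x ^ 2 / (conj x) ^ 2) := by
      have h1 := hs x
      rw [starC] at h1
      generalize α (conj x)⁻¹ = A at h1 ⊢
      have h2 : conj A = -(α x * (conj x) ^ 2 / x ^ 2) := by
        rw [div_eq_iff (pow_ne_zero 2 hc)] at h1
        field_simp
        linear_combination h1
      have h3 := congrArg conj h2
      rw [Complex.conj_conj] at h3
      rw [h3]
      simp
    simp only [tk_det]
    exact tk_point hz hx0 hx1 _ hb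
  rw [hG1, tk_split hGi, hG3, hG2]
  simp only [map_add, map_mul, map_inv₀, Complex.conj_ofReal]
  ring

theorem theta_kk {α : ℂ → ℂ} {w : ℂ → (ℂ ≃ₜ ℂ)} (hα : Coef 1 α)
    (hs : ∀ z, starC α z = -α z) (hw : IsFamily α w) {Θ : ℂ → ℝ → ℂ}
    (h : ∀ x : ℝ, deriv (fun l => Θ l x) 0 =
      deriv (fun l => w l (ee x)) 0 / (2 * Real.pi * I * ee x)) (n j : ℕ) :
    d2 (fun x => deriv (fun l => Θ l x) 0) n j = kk (lft α) (j / 2 ^ n) (1 / 2 ^ n) := by
  obtain ⟨c, hc⟩ := tk_refl hα hs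
  have hpi := Real.pi_pos
  have hpc : (Real.pi : ℂ) ≠ 0 := by exact_mod_cast hpi.ne'
  have henv : Env α := ⟨hα.test.1.continuous.measurable, hα.le⟩
  -- the first variation
  obtain ⟨k, hk⟩ : ∃ k : ℂ, ∀ x : ℝ, deriv (fun l => Θ l x) 0 =
      vv α x - conj (vv α x) + k := by
    refine ⟨(2 * Real.pi * I)⁻¹ * (c + cau α 0 - cau α 1), fun x => ?_⟩
    have hn : ‖ee x‖ = 1 := by
      rw [ee, Complex.norm_exp]
      simp
    have hne : ee x ≠ 0 := exp_ne_zero _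
    have h1 := hc (ee x) hn
    have h2 : vv α x = (2 * Real.pi * I)⁻¹ *
        ((cau ((Metric.ball (0 : ℂ) 1).indicator α) (ee x) -
          cau ((Metric.ball (0 : ℂ) 1).indicator α) 0) / ee x) := by
      rw [vv, mul_div_assoc]
    have h3 : conj (vv α x) = -((2 * Real.pi * I)⁻¹ *
        conj ((cau ((Metric.ball (0 : ℂ) 1).indicator α) (ee x) -
          cau ((Metric.ball (0 : ℂ) 1).indicator α) 0) / ee x)) := by
      rw [h2, map_mul, map_inv₀, map_mul, map_mul, Complex.conj_I, Complex.conj_ofReal,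
        Complex.conj_ofNat, mul_neg, inv_neg, neg_mul]
    have h4 : (cau α (ee x) - (1 - ee x) * cau α 0 - ee x * cau α 1) / (2 * Real.pi * I * ee x) =
        (2 * Real.pi * I)⁻¹ * ((cau α (ee x) - cau α 0) / ee x + (cau α 0 - cau α 1)) := by
      have hI := I_ne_zero
      field_simp
      ring
    rw [h x, hw.der, h4, h1, h3, h2]
    ring
  have hsec := vv_second henv (m := (((2 * j + 1) / 2 ^ (n + 1) : ℝ) : ℂ))
    (h := ((1 / 2 ^ (n + 1) : ℝ) : ℂ)) (by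
      have : (0 : ℝ) < 1 / 2 ^ (n + 1) := by positivity
      exact_mod_cast this.ne') (by rw [Complex.ofReal_im])
      (by rw [Complex.add_im, Complex.ofReal_im, Complex.ofReal_im, add_zero])
      (by rw [Complex.sub_im, Complex.ofReal_im, Complex.ofReal_im, sub_zero])
  have e1 : ((2 * j + 1) / 2 ^ (n + 1) : ℝ) + (1 / 2 ^ (n + 1) : ℝ) = (j + 1) / 2 ^ n := by
    rw [pow_succ]
    field_simp
    ring
  have e2 : ((2 * j + 1) / 2 ^ (n + 1) : ℝ) - (1 / 2 ^ (n + 1) : ℝ) = j / 2 ^ n := by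
    rw [pow_succ]
    field_simp
    ring
  have e1' : (((2 * j + 1) / 2 ^ (n + 1) : ℝ) : ℂ) + ((1 / 2 ^ (n + 1) : ℝ) : ℂ) =
      (((j + 1) / 2 ^ n : ℝ) : ℂ) := by
    rw [← Complex.ofReal_add, e1]
  have e2' : (((2 * j + 1) / 2 ^ (n + 1) : ℝ) : ℂ) - ((1 / 2 ^ (n + 1) : ℝ) : ℂ) =
      ((j / 2 ^ n : ℝ) : ℂ) := by
    rw [← Complex.ofReal_sub, e2]
  rw [e1', e2'] at hsec
  have hd : d2 (fun x => deriv (fun l => Θ l x) 0) n j = 2 ^ n * (2 *
      (2 * vv α (((2 * j + 1) / 2 ^ (n + 1) : ℝ) : ℂ) - vv α (((j + 1) / 2 ^ n : ℝ) : ℂ) -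
        vv α ((j / 2 ^ n : ℝ) : ℂ)).im) := by
    rw [d2]
    simp only [hk]
    congr 1
    simp only [Complex.sub_im, Complex.add_im, Complex.mul_im, Complex.conj_im, Complex.conj_re,
      Complex.sub_re, Complex.add_re]
    norm_num
    ring
  rw [hd, hsec, kk]
  have hint : ∫ ζ in {ζ : ℂ | 0 < ζ.im}, lft α ζ * (2 * ((1 / 2 ^ (n + 1) : ℝ) : ℂ) ^ 2 /
      ((ζ - (((2 * j + 1) / 2 ^ (n + 1) : ℝ) : ℂ)) * (ζ - (((j + 1) / 2 ^ n : ℝ) : ℂ)) *
        (ζ - ((j / 2 ^ n : ℝ) : ℂ)))) =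
      ((2 * (1 / 2 ^ (n + 1)) ^ 2 : ℝ) : ℂ) * ∫ ζ in {ζ : ℂ | 0 < ζ.im}, lft α ζ /
        ((ζ - ((j / 2 ^ n : ℝ) : ℂ)) * (ζ - (((j / 2 ^ n : ℝ) : ℂ) + ((1 / 2 ^ n : ℝ) : ℂ) / 2)) *
          (ζ - (((j / 2 ^ n : ℝ) : ℂ) + ((1 / 2 ^ n : ℝ) : ℂ)))) := by
    rw [← integral_const_mul]
    congr 1
    funext ζ
    have e3 : (((2 * j + 1) / 2 ^ (n + 1) : ℝ) : ℂ) =
        ((j / 2 ^ n : ℝ) : ℂ) + ((1 / 2 ^ n : ℝ) : ℂ) / 2 := by
      push_cast
      rw [pow_succ]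
      field_simp
    have e4 : (((j + 1) / 2 ^ n : ℝ) : ℂ) = ((j / 2 ^ n : ℝ) : ℂ) + ((1 / 2 ^ n : ℝ) : ℂ) := by
      push_cast
      ring
    rw [e3, e4]
    push_cast
    rw [div_eq_mul_inv, div_eq_mul_inv]
    rw [mul_assoc (ζ - _) _ _, mul_comm (ζ - _) ((ζ - _) * (ζ - _)), mul_assoc, mul_assoc]
    ring
  rw [hint]
  have him : ∀ (a : ℝ) (y : ℂ), (((Real.pi : ℝ) : ℂ)⁻¹ * ((a : ℂ) * y)).im = Real.pi⁻¹ * (a * y.im) := by
    intro a y
    rw [← Complex.ofReal_inv, Complex.im_ofReal_mul, Complex.im_ofReal_mul]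
  rw [him]
  have e5 : (2 : ℝ) ^ n * (2 * (Real.pi⁻¹ * (2 * (1 / 2 ^ (n + 1)) ^ 2))) = 1 / 2 ^ n / Real.pi := by
    rw [pow_succ]
    field_simp
    ring
  rw [← e5]
  ring

end Pool.Agent.QCD
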