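import Pool.Agent.Lib.MP_f30fea_an.Base
import Pool.Agent.Lib.MP_f30fea_an.ThetaK
import Pool.Agent.Lib.MP_f30fea_an.ThetaEx
import Pool.Agent.Lib.MP_f30fea_an.Expand
import Pool.Agent.Lib.MP_f30fea_an.Wqs

/-!
# Dyadic arcs of the image of the circle under an antisymmetric family

`Θ` from `exists_theta`, `Q` from `expand`, second differences from `theta_kk`; `k₀` small enough for `expand` and
`wqs_family`.  `W = w k`.  Bounds on the circle: `‖W (ee x)‖ ≤ 3` (`WQS.one` with `a = 0, b = ee x, c = 1`) and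
`≥ 1/3` (`a = 0, b = 1, c = ee x`); `W 0 = 0`, `W 1 = 1` from `Nice`.
`W (ee x) - W (ee y) = ee (Θ y) (ee (Θ x - Θ y) - 1)`, `‖exp u - 1‖ ≤ ‖u‖ exp ‖u‖`; for `x, y` in the interval
`‖Θ x - Θ y‖ ≤ 6 ‖ΔΘ‖` (geometry in `expand`), and `≤ 6` (same for `[0,1]`, `Θ 1 - Θ 0 = 1` by `per`).
Lower bound: for `n ≥ 6`, with `a = j/2^n`: `‖Θ (a+1) - Θ a‖ = 1`, `‖Θ (a+1/4) - Θ a‖ ≤ 1/2`,
`‖Θ (a+1/16) - Θ a‖ ≤ 1/4`, `‖Θ (a+2^{-n}) - Θ a‖ ≤ 1/8`, so `u = 2πi ΔΘ` has `‖u‖ ≤ 1` and `‖exp u - 1‖ ≥ ‖u‖/4`.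
-/

open Complex MeasureTheory Filter Topology Set
open scoped ContDiff ENNReal ComplexConjugate

noncomputable section

namespace Pool.Agent.QCD

private theorem planeQ_ee_sub (u v : ℂ) : ee u - ee v = ee v * (ee (u - v) - 1) := by
  unfold ee
  rw [mul_sub, mul_one, ← Complex.exp_add]
  congr 2
  ring

private theorem planeQ_norm_ee (x : ℝ) : ‖ee (x : ℂ)‖ = 1 := by
  unfold ee
  rw [Complex.norm_exp]
  simp

private theorem planeQ_up (u : ℂ) (h6 : ‖u‖ ≤ 6) :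
    ‖ee u - 1‖ ≤ 2 * Real.pi * Real.exp (12 * Real.pi) * ‖u‖ := by
  have h1 := Complex.norm_exp_sub_sum_le_norm_mul_exp (2 * Real.pi * I * u) 1
  simp only [Finset.range_one, Finset.sum_singleton, pow_zero, Nat.factorial_zero, Nat.cast_one,
    div_one, pow_one] at h1
  have h2 : ‖2 * (Real.pi : ℂ) * I * u‖ = 2 * Real.pi * ‖u‖ := by
    rw [norm_mul, norm_mul, norm_mul, Complex.norm_I, Complex.norm_real, Complex.norm_ofNat,
      Real.norm_of_nonneg Real.pi_pos.le, mul_one]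
  rw [h2] at h1
  refine h1.trans ?_
  have h3 : Real.exp (2 * Real.pi * ‖u‖) ≤ Real.exp (12 * Real.pi) := by
    apply Real.exp_le_exp.2
    have := Real.pi_pos
    nlinarith
  calc 2 * Real.pi * ‖u‖ * Real.exp (2 * Real.pi * ‖u‖)
      ≤ 2 * Real.pi * ‖u‖ * Real.exp (12 * Real.pi) :=
        mul_le_mul_of_nonneg_left h3 (by positivity)
    _ = _ := by ring

private theorem planeQ_low (u : ℂ) (h8 : ‖u‖ ≤ 1 / 8) : ‖u‖ ≤ ‖ee u - 1‖ := by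
  have h2 : ‖2 * (Real.pi : ℂ) * I * u‖ = 2 * Real.pi * ‖u‖ := by
    rw [norm_mul, norm_mul, norm_mul, Complex.norm_I, Complex.norm_real, Complex.norm_ofNat,
      Real.norm_of_nonneg Real.pi_pos.le, mul_one]
  have hpi1 := Real.pi_gt_three
  have hpi2 := Real.pi_lt_d2
  have h0 := norm_nonneg u
  have h3 : 2 * Real.pi * ‖u‖ ≤ 0.7875 := by nlinarith
  have h1 := Complex.norm_exp_sub_one_sub_id_le (x := 2 * Real.pi * I * u) (by
    rw [h2]; linarith)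
  rw [h2] at h1
  have h4 : ‖2 * (Real.pi : ℂ) * I * u‖ ≤ ‖ee u - 1‖ +
      ‖exp (2 * Real.pi * I * u) - 1 - 2 * Real.pi * I * u‖ := by
    have h5 : 2 * (Real.pi : ℂ) * I * u = (ee u - 1) -
        (exp (2 * Real.pi * I * u) - 1 - 2 * Real.pi * I * u) := by
      unfold ee
      ring
    calc ‖2 * (Real.pi : ℂ) * I * u‖ = ‖(ee u - 1) -
        (exp (2 * Real.pi * I * u) - 1 - 2 * Real.pi * I * u)‖ := by rw [← h5]
      _ ≤ _ := norm_sub_le _ _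
  rw [h2] at h4
  have h6 : (2 * Real.pi * ‖u‖) ^ 2 ≤ 0.7875 * (2 * Real.pi * ‖u‖) := by
    rw [sq]
    exact mul_le_mul_of_nonneg_right h3 (by positivity)
  nlinarith

theorem plane_q : ∃ C k₀ : ℝ, 0 < C ∧ 0 < k₀ ∧ k₀ < 1 ∧ ∀ (α : ℂ → ℂ) (w : ℂ → (ℂ ≃ₜ ℂ)),
    Coef 1 α → (∀ z, starC α z = -α z) → IsFamily α w → ∃ Q : ℕ → ℕ → ℝ,
    Q 0 0 = 0 ∧
    (∀ n j : ℕ, j < 2 ^ n → |Q (n + 1) (2 * j) - Q n j| ≤ C ∧
      |Q (n + 1) (2 * j + 1) - Q n j| ≤ C ∧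
      Q (n + 1) (2 * j) + Q (n + 1) (2 * j + 1) - 2 * Q n j =
        kk (lft α) (j / 2 ^ n) (1 / 2 ^ n) ^ 2) ∧
    ∀ k : ℝ, 0 ≤ k → k ≤ k₀ → ∀ n j : ℕ, j < 2 ^ n →
      (∀ x y : ℝ, j / 2 ^ n ≤ x → x ≤ (j + 1) / 2 ^ n → j / 2 ^ n ≤ y → y ≤ (j + 1) / 2 ^ n →
        ‖w k (ee x) - w k (ee y)‖ ≤ C * (Real.exp (k ^ 2 * Q n j + C * n * k ^ 4) / 2 ^ n)) ∧
      (6 ≤ n → Real.exp (k ^ 2 * Q n j - C * n * k ^ 4) / 2 ^ n ≤
        C * ‖w k (ee (((j : ℝ) + 1) / 2 ^ n : ℝ)) - w k (ee ((j : ℝ) / 2 ^ n : ℝ))‖) := by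
  obtain ⟨C₁, k₁, hC₁, hk₁, hk₁1, hexp⟩ := expand
  obtain ⟨r, hr0, hr1, hr⟩ := wqs_family
  have hpi := Real.pi_pos
  set A : ℝ := 2 * Real.pi * Real.exp (12 * Real.pi) with hA
  have hA0 : 0 < A := by positivity
  refine ⟨18 * A + C₁ + 3, min k₁ r, by positivity, lt_min hk₁ hr0,
    lt_of_le_of_lt (min_le_left _ _) hk₁1, fun α w hα hs hw => ?_⟩
  set C := 18 * A + C₁ + 3 with hC
  have hCC₁ : C₁ ≤ C := by linarith
  obtain ⟨Θ, hΘ, hee, hder⟩ := exists_theta hα hs hw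
  obtain ⟨Q, hQ0, hQ1, hQ2, hQ3, hQ4⟩ := hexp Θ hΘ
  refine ⟨Q, hQ0, ?_, ?_⟩
  · intro n j hj
    obtain ⟨h1, h2, h3⟩ := hQ1 n j hj
    refine ⟨h1.trans hCC₁, h2.trans hCC₁, ?_⟩
    rw [h3, theta_kk hα hs hw hder n j]
  intro k hk0 hk n j hj
  have hkk₁ : k ≤ k₁ := hk.trans (min_le_left _ _)
  have hkr : k ≤ r := hk.trans (min_le_right _ _)
  have hkn : ‖(k : ℂ)‖ = k := by rw [Complex.norm_real, Real.norm_of_nonneg hk0]
  have hk1 : ‖(k : ℂ)‖ < 1 := by rw [hkn]; linarith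
  have hW : WQS (w k) := hr α w hw k (by rw [hkn]; exact hkr)
  have hnice := hw.nice k hk1
  have hup3 : ∀ x : ℝ, ‖w k (ee x)‖ ≤ 3 := by
    intro x
    have h1 := hW.one 0 (ee x) 1 (by
      rw [sub_zero, sub_zero, planeQ_norm_ee, norm_one]; norm_num)
    rw [hnice.zero, hnice.one, sub_zero, sub_zero, norm_one] at h1
    linarith
  have hlow3 : ∀ x : ℝ, 1 ≤ 3 * ‖w k (ee x)‖ := by
    intro x
    have h1 := hW.one 0 1 (ee x) (by
      rw [sub_zero, sub_zero, planeQ_norm_ee, norm_one]; norm_num)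
    rw [hnice.zero, hnice.one, sub_zero, sub_zero, norm_one] at h1
    exact h1
  have hdiff : ∀ x y : ℝ, w k (ee x) - w k (ee y) =
      w k (ee y) * (ee (Θ k x - Θ k y) - 1) := by
    intro x y
    rw [← hee k hk1 x, ← hee k hk1 y]
    exact planeQ_ee_sub _ _
  have hper : ∀ x : ℝ, ‖Θ k (x + 1) - Θ k x‖ = 1 := by
    intro x
    rw [hΘ.per k hk1, add_sub_cancel_left, norm_one]
  have h2n : (0 : ℝ) < 2 ^ n := by positivity
  obtain ⟨hL1, hL2⟩ := hQ2 k hk0 hkk₁ n j hj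
  set L := ‖Θ k ((j + 1) / 2 ^ n) - Θ k (j / 2 ^ n)‖ with hL
  have hL0 : 0 ≤ L := norm_nonneg _
  have hab : (j : ℝ) / 2 ^ n < (j + 1) / 2 ^ n := div_lt_div_of_pos_right (by linarith) h2n
  have hk4 : 0 ≤ (n : ℝ) * k ^ 4 := by positivity
  constructor
  · intro x y hx1 hx2 hy1 hy2
    have hb1 : ((j : ℝ) + 1) / 2 ^ n ≤ 1 := by
      rw [div_le_one h2n]
      exact_mod_cast hj
    have ha0 : 0 ≤ (j : ℝ) / 2 ^ n := by positivity
    have h6L : ‖Θ k x - Θ k y‖ ≤ 6 * L := by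
      have h1 := hQ3 k hk0 hkk₁ _ _ x hab hx1 hx2
      have h2 := hQ3 k hk0 hkk₁ _ _ y hab hy1 hy2
      have h3 : Θ k x - Θ k y = (Θ k x - Θ k (j / 2 ^ n)) - (Θ k y - Θ k (j / 2 ^ n)) := by ring
      rw [h3]
      refine (norm_sub_le _ _).trans ?_
      linarith
    have h66 : ‖Θ k x - Θ k y‖ ≤ 6 := by
      have h1 := hQ3 k hk0 hkk₁ 0 1 x one_pos (by linarith) (by linarith)
      have h2 := hQ3 k hk0 hkk₁ 0 1 y one_pos (by linarith) (by linarith)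
      have h4 := hper 0
      rw [zero_add] at h4
      rw [h4] at h1 h2
      have h3 : Θ k x - Θ k y = (Θ k x - Θ k 0) - (Θ k y - Θ k 0) := by ring
      rw [h3]
      refine (norm_sub_le _ _).trans ?_
      linarith
    rw [hdiff x y, norm_mul]
    have h1 := planeQ_up _ h66
    calc ‖w k (ee y)‖ * ‖ee (Θ k x - Θ k y) - 1‖ ≤ 3 * (A * ‖Θ k x - Θ k y‖) :=
          mul_le_mul (hup3 y) h1 (norm_nonneg _) (by norm_num)
      _ ≤ 3 * (A * (6 * L)) := by gcongr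
      _ = 18 * A * L := by ring
      _ ≤ C * L := mul_le_mul_of_nonneg_right (by linarith) hL0
      _ ≤ C * (Real.exp (k ^ 2 * Q n j + C * n * k ^ 4) / 2 ^ n) := by
          refine mul_le_mul_of_nonneg_left (hL2.trans ?_) (by positivity)
          refine div_le_div_of_nonneg_right (Real.exp_le_exp.2 ?_) h2n.le
          have := mul_le_mul_of_nonneg_right hCC₁ hk4
          linarith
  · intro hn
    have h64 : 1 / (2 : ℝ) ^ n ≤ 1 / 64 := by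
      rw [div_le_div_iff_of_pos_left one_pos h2n (by norm_num)]
      have : (2 : ℝ) ^ 6 ≤ 2 ^ n := pow_le_pow_right₀ (by norm_num) hn
      linarith
    set a : ℝ := (j : ℝ) / 2 ^ n with ha
    have hb : ((j : ℝ) + 1) / 2 ^ n = a + 1 / 2 ^ n := by rw [ha]; ring
    have h1n : (0 : ℝ) < 1 / 2 ^ n := by positivity
    have e1 := hQ4 k hk0 hkk₁ a (a + 1) (a + 1 / 4) (by linarith) (by linarith) (by linarith)
    have e2 := hQ4 k hk0 hkk₁ a (a + 1 / 4) (a + 1 / 16) (by linarith) (by linarith) (by linarith)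
    have e3 := hQ4 k hk0 hkk₁ a (a + 1 / 16) (a + 1 / 2 ^ n) (by linarith) (by linarith)
      (by linarith)
    rw [hper a] at e1
    have hLa : L = ‖Θ k (a + 1 / 2 ^ n) - Θ k a‖ := by rw [hL, hb]
    have h8 : ‖Θ k (a + 1 / 2 ^ n) - Θ k a‖ ≤ 1 / 8 := by linarith
    have h3 := planeQ_low _ h8
    rw [hb, hdiff, norm_mul]
    have h4 := hlow3 a
    have h5 : L ≤ 3 * (‖w k (ee a)‖ * ‖ee (Θ k (a + 1 / 2 ^ n) - Θ k a) - 1‖) := by
      rw [hLa]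
      calc ‖Θ k (a + 1 / 2 ^ n) - Θ k a‖ ≤ 1 * ‖ee (Θ k (a + 1 / 2 ^ n) - Θ k a) - 1‖ := by
            rw [one_mul]; exact h3
        _ ≤ (3 * ‖w k (ee a)‖) * ‖ee (Θ k (a + 1 / 2 ^ n) - Θ k a) - 1‖ :=
            mul_le_mul_of_nonneg_right h4 (norm_nonneg _)
        _ = _ := by ring
    calc Real.exp (k ^ 2 * Q n j - C * n * k ^ 4) / 2 ^ n
        ≤ Real.exp (k ^ 2 * Q n j - C₁ * n * k ^ 4) / 2 ^ n := by
          refine div_le_div_of_nonneg_right (Real.exp_le_exp.2 ?_) h2n.le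
          have := mul_le_mul_of_nonneg_right hCC₁ hk4
          linarith
      _ ≤ L := hL1
      _ ≤ 3 * (‖w k (ee a)‖ * ‖ee (Θ k (a + 1 / 2 ^ n) - Θ k a) - 1‖) := h5
      _ ≤ C * (‖w k (ee a)‖ * ‖ee (Θ k (a + 1 / 2 ^ n) - Θ k a) - 1‖) :=
          mul_le_mul_of_nonneg_right (by linarith) (by positivity)

end Pool.Agent.QCD
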