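import Pool.Agent.Lib.MP_f30fea_an.Base
import Pool.Agent.Lib.MP_f30fea_an.Ker

/-!
# Averages of `Q` over a block

Induction on `T`: the sum over generation `T + 1` is the sum over `l < 2^T` of the two children of
`(n+T, 2^T j + l)`, i.e. of `2 Q (n+T) (2^T j + l) + kk β ((2^T j + l)/2^{n+T}) (1/2^{n+T}) ^ 2`, and
`(2^T j + l)/2^{n+T} = j/2^n + l ((1/2^n)/2^T)`, `1/2^{n+T} = (1/2^n)/2^T` (definition of `bs`).
-/

open Complex MeasureTheory Filter Topology Set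
open scoped ContDiff ENNReal ComplexConjugate

noncomputable section

namespace Pool.Agent.QCD

private theorem qa_sum (f : ℕ → ℝ) (N : ℕ) : ∑ l ∈ Finset.range (2 * N), f l =
    ∑ l ∈ Finset.range N, (f (2 * l) + f (2 * l + 1)) := by
  induction N with
  | zero => simp
  | succ N ih =>
    rw [Finset.sum_range_succ, ← ih, show 2 * (N + 1) = 2 * N + 1 + 1 by ring,
      Finset.sum_range_succ, Finset.sum_range_succ]
    ring

theorem q_avg {β : ℂ → ℂ} {Q : ℕ → ℕ → ℝ} (h : ∀ n j : ℕ, j < 2 ^ n →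
    Q (n + 1) (2 * j) + Q (n + 1) (2 * j + 1) - 2 * Q n j = kk β (j / 2 ^ n) (1 / 2 ^ n) ^ 2) :
    ∀ n j T : ℕ, j < 2 ^ n →
      (∑ l ∈ Finset.range (2 ^ T), Q (n + T) (2 ^ T * j + l)) / 2 ^ T =
        Q n j + bs β (j / 2 ^ n) (1 / 2 ^ n) T := by
  intro n j T hj
  induction T with
  | zero => simp [bs]
  | succ T ih =>
    have hb : bs β (j / 2 ^ n) (1 / 2 ^ n) (T + 1) = bs β (j / 2 ^ n) (1 / 2 ^ n) T +
        (∑ l ∈ Finset.range (2 ^ T),
          kk β (j / 2 ^ n + l * (1 / 2 ^ n / 2 ^ T)) (1 / 2 ^ n / 2 ^ T) ^ 2 / 2) / 2 ^ T := by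
      unfold bs
      rw [Finset.sum_range_succ]
    rw [hb, ← add_assoc (Q n j), ← ih, show (2 : ℕ) ^ (T + 1) = 2 * 2 ^ T by ring, qa_sum]
    have e : ∀ l ∈ Finset.range (2 ^ T),
        Q (n + (T + 1)) (2 * 2 ^ T * j + 2 * l) + Q (n + (T + 1)) (2 * 2 ^ T * j + (2 * l + 1)) =
        2 * Q (n + T) (2 ^ T * j + l) +
          kk β (j / 2 ^ n + l * (1 / 2 ^ n / 2 ^ T)) (1 / 2 ^ n / 2 ^ T) ^ 2 := by
      intro l hl
      have hl' : l < 2 ^ T := Finset.mem_range.1 hl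
      have hlt : 2 ^ T * j + l < 2 ^ (n + T) := by
        have : 2 ^ T * (j + 1) ≤ 2 ^ T * 2 ^ n := Nat.mul_le_mul_left _ hj
        rw [pow_add, mul_comm (2 ^ n) (2 ^ T)]
        calc 2 ^ T * j + l < 2 ^ T * j + 2 ^ T := by omega
          _ = 2 ^ T * (j + 1) := by ring
          _ ≤ _ := this
      have h1 := h (n + T) (2 ^ T * j + l) hlt
      have e1 : 2 * 2 ^ T * j + 2 * l = 2 * (2 ^ T * j + l) := by ring
      have e2 : 2 * 2 ^ T * j + (2 * l + 1) = 2 * (2 ^ T * j + l) + 1 := by ring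
      have e3 : ((2 ^ T * j + l : ℕ) : ℝ) / 2 ^ (n + T) = j / 2 ^ n + l * (1 / 2 ^ n / 2 ^ T) := by
        push_cast
        rw [pow_add]
        field_simp
      have e4 : (1 : ℝ) / 2 ^ (n + T) = 1 / 2 ^ n / 2 ^ T := by
        rw [pow_add]
        field_simp
      rw [e1, e2, ← add_assoc n T 1]
      rw [e3, e4] at h1
      linarith
    rw [Finset.sum_congr rfl e, Finset.sum_add_distrib, ← Finset.mul_sum, ← Finset.sum_div]
    have h2 : (2 : ℝ) ^ T ≠ 0 := by positivity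
    rw [pow_succ]
    field_simp

end Pool.Agent.QCD
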