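import Pool.Agent.Lib.MP_f30fea_an.Base
import Pool.Agent.Lib.MP_f30fea_an.PlaneQ
import Pool.Agent.Lib.MP_f30fea_an.QAvg
import Pool.Agent.Lib.MP_f30fea_an.Block
import Pool.Agent.Lib.MP_f30fea_an.ExpMom2
import Pool.Agent.Lib.MP_f30fea_an.AntiSym
import Pool.Agent.Lib.MP_f30fea_an.Wqs

/-!
# Coverings of smooth quasicircles

`κ, A` from `antisym`, `α z = κ z / k`, `w` from `nice_family` with `w k = A`; `Coef 1 α`, `starC α = -α` (`k` real); `Q` from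
`plane_q`.  With `c = σ log 2`, `σ = sigma2.toReal`, `QBd C₁ c Q` by `q_avg` and `block_up` for `lft α` (`Env`), where
`C₁ ≥` the constants of `plane_q`, `block_up` and `≥ c`.  `E j = A '' (ee '' [j/2^n, (j+1)/2^n])`,
`d j = C₁ exp (k² Q n j + C₁ n k⁴)/2^n`, `C₁ ≥ 1`.  With `t = 1 + σ k² + M k⁴ ≤ 2` and `exp_moment` for `s = k² t`:
`∑ (d j)^t ≤ C₁² 2^{-nt} exp (C₁ n k⁴ t) ∑ exp (s Q n j) ≤
C₁² C' exp (n (log 2 (1-t) + C₁ k⁴ t + c s + C' s²))`, and the bracket is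
`-σ log 2 k² - M log 2 k⁴ + C₁ k⁴ t + c k² + c k² (σ k² + M k⁴) + C' k⁴ t²
≤ k⁴ (-M log 2 + 2 C₁ + c σ + c M k² + 4 C') ≤ -k⁴` if `M` is large (depending on `C₁, c, σ, C'`) and then
`k₀` small (`c M k₀² ≤ 1`, `σ k₀² + M k₀⁴ ≤ 1`, `2 k₀² ≤ s₀`).  The constant in the statement is
`max M (C₁² C')`: increasing the exponent of `k⁴` needs `d j ≤ 1`, so better: choose `M ≥ C₁² C'` from the
beginning, and the statement holds with `C = M`.
-/

open Complex MeasureTheory Filter Topology Set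
open scoped ContDiff ENNReal ComplexConjugate

noncomputable section

namespace Pool.Agent.QCD

private theorem cu_lft_env {α : ℂ → ℂ} (hα : Coef 1 α) : Env (lft α) := by
  have hee : Measurable ee := by
    unfold ee
    fun_prop
  refine ⟨?_, fun z => ?_⟩
  · unfold lft
    exact ((((hα.test.1.continuous.measurable).comp hee).neg).mul
      (Complex.continuous_conj.measurable.comp hee)).div hee
  · unfold lft
    have h1 : ‖ee z‖ ≠ 0 := by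
      unfold ee
      exact norm_ne_zero_iff.mpr (exp_ne_zero _)
    rw [norm_div, norm_mul, norm_neg, RCLike.norm_conj, mul_div_assoc, div_self h1, mul_one]
    exact hα.le _

private theorem cu_coef {k : ℝ} (hk : 0 < k) {κ : ℂ → ℂ} (h : Coef k κ) :
    Coef 1 (fun z => κ z / k) := by
  refine ⟨⟨h.test.1.div_const _, ?_⟩, ?_, fun z => ?_⟩
  · exact h.test.2.comp_left (g := fun w : ℂ => w / k) (by simp)
  · obtain ⟨ε, hε, h1⟩ := h.van
    exact ⟨ε, hε, fun z hz => by simp only [h1 z hz, zero_div]⟩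
  · rw [norm_div, Complex.norm_real, Real.norm_of_nonneg hk.le, div_le_one hk]
    exact h.le z

private theorem cu_star {k : ℝ} {κ : ℂ → ℂ} (h : ∀ z, starC κ z = -κ z) (z : ℂ) :
    starC (fun z => κ z / k) z = -(κ z / k) := by
  have h1 : starC (fun z => κ z / k) z = starC κ z / k := by
    simp only [starC, map_div₀, conj_ofReal]
    ring
  rw [h1, h z, neg_div]

private theorem cu_ee {u : ℂ} (hu : ‖u‖ = 1) : ∃ x : ℝ, 0 ≤ x ∧ x < 1 ∧ ee x = u := by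
  refine ⟨Int.fract (arg u / (2 * Real.pi)), Int.fract_nonneg _, Int.fract_lt_one _, ?_⟩
  have hpi : (Real.pi : ℂ) ≠ 0 := by exact_mod_cast Real.pi_ne_zero
  have h1 : ((Int.fract (arg u / (2 * Real.pi)) : ℝ) : ℂ) =
      (arg u : ℂ) / (2 * Real.pi) - (⌊arg u / (2 * Real.pi)⌋ : ℤ) := by
    rw [Int.fract]
    push_cast
    rfl
  have h2 : 2 * (Real.pi : ℂ) * I * ((arg u : ℂ) / (2 * Real.pi) - (⌊arg u / (2 * Real.pi)⌋ : ℤ)) =
      arg u * I - (⌊arg u / (2 * Real.pi)⌋ : ℤ) * (2 * Real.pi * I) := by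
    field_simp
  unfold ee
  rw [h1, h2, exp_sub, exp_int_mul_two_pi_mul_I, div_one]
  have h3 := norm_mul_exp_arg_mul_I u
  rw [hu, ofReal_one, one_mul] at h3
  exact h3

private theorem cu_num {σ L M C₁ C' k c : ℝ} (hc : c = σ * L)
    (hM : 2 * C₁ + c * σ + 4 * C' + 2 ≤ M * L) (hC₁ : 0 ≤ C₁) (hC' : 0 ≤ C')
    (h1 : c * M * k ^ 2 ≤ 1) (h2 : σ * k ^ 2 + M * k ^ 4 ≤ 1) (h3 : 0 ≤ σ * k ^ 2 + M * k ^ 4) :
    L * (1 - (1 + σ * k ^ 2 + M * k ^ 4)) + C₁ * k ^ 4 * (1 + σ * k ^ 2 + M * k ^ 4) +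
      c * (k ^ 2 * (1 + σ * k ^ 2 + M * k ^ 4)) +
      C' * (k ^ 2 * (1 + σ * k ^ 2 + M * k ^ 4)) ^ 2 ≤ -k ^ 4 := by
  set t := 1 + σ * k ^ 2 + M * k ^ 4 with ht
  have ht2 : t ≤ 2 := by linarith
  have ht1 : 1 ≤ t := by linarith
  have hk4 : 0 ≤ k ^ 4 := by positivity
  have e1 : C₁ * k ^ 4 * t ≤ 2 * C₁ * k ^ 4 := by
    have : 0 ≤ C₁ * k ^ 4 := by positivity
    nlinarith
  have e2 : C' * (k ^ 2 * t) ^ 2 ≤ 4 * C' * k ^ 4 := by
    have h4 : t ^ 2 ≤ 4 := by nlinarith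
    have : 0 ≤ C' * k ^ 4 := by positivity
    calc C' * (k ^ 2 * t) ^ 2 = C' * k ^ 4 * t ^ 2 := by ring
      _ ≤ C' * k ^ 4 * 4 := mul_le_mul_of_nonneg_left h4 this
      _ = 4 * C' * k ^ 4 := by ring
  have e3 : L * (1 - t) + c * (k ^ 2 * t) = k ^ 4 * (-(M * L) + c * σ + c * M * k ^ 2) := by
    rw [ht, hc]
    ring
  have e4 : k ^ 4 * (-(M * L) + c * σ + c * M * k ^ 2) ≤
      k ^ 4 * (-(2 * C₁ + c * σ + 4 * C' + 2) + c * σ + 1) :=
    mul_le_mul_of_nonneg_left (by linarith) hk4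
  have e5 : k ^ 4 * (-(2 * C₁ + c * σ + 4 * C' + 2) + c * σ + 1) =
      -(2 * C₁ * k ^ 4) - 4 * C' * k ^ 4 - k ^ 4 := by ring
  linarith

theorem cover_up : ∃ C k₀ : ℝ, 0 < C ∧ 0 < k₀ ∧ k₀ < 1 ∧ ∀ k : ℝ, 0 < k → k ≤ k₀ →
    ∀ (μ : ℂ → ℂ) (W : ℂ ≃ₜ ℂ), Coef k μ → Nice μ W → ∀ n : ℕ,
    ∃ (d : ℕ → ℝ) (E : ℕ → Set ℂ), (∀ j, 0 ≤ d j) ∧
      W '' Metric.sphere (0 : ℂ) 1 ⊆ ⋃ j ∈ Finset.range (2 ^ n), E j ∧
      (∀ j, ∀ x ∈ E j, ∀ y ∈ E j, dist x y ≤ d j) ∧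
      ∑ j ∈ Finset.range (2 ^ n), d j ^ (1 + sigma2.toReal * k ^ 2 + C * k ^ 4) ≤
        C * Real.exp (-(k ^ 4 * n)) := by
  obtain ⟨C₀, k₁, hC₀, hk₁, hk₁', hP⟩ := plane_q
  obtain ⟨Cb, hCb, hB⟩ := block_up
  set σ : ℝ := sigma2.toReal with hσdef
  have hσ : 0 ≤ σ := ENNReal.toReal_nonneg
  set L : ℝ := Real.log 2 with hLdef
  have hL : 0 < L := Real.log_pos (by norm_num)
  set c : ℝ := σ * L with hcdef
  have hc : 0 ≤ c := mul_nonneg hσ hL.le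
  set C₁ : ℝ := max (max C₀ Cb) (max c 1) with hC₁def
  have hC₁1 : 1 ≤ C₁ := (le_max_right _ _).trans (le_max_right _ _)
  have hC₁c : c ≤ C₁ := (le_max_left _ _).trans (le_max_right _ _)
  have hC₁0 : C₀ ≤ C₁ := (le_max_left _ _).trans (le_max_left _ _)
  have hC₁b : Cb ≤ C₁ := (le_max_right _ _).trans (le_max_left _ _)
  have hC₁p : 0 < C₁ := by linarith
  obtain ⟨C', s₀, hs₀, hC', hE⟩ := exp_moment hC₁p.le
  set M : ℝ := C₁ ^ 2 * C' + (2 * C₁ + c * σ + 4 * C' + 2) / L with hMdef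
  have hMx : 0 < (2 * C₁ + c * σ + 4 * C' + 2) / L := by positivity
  have hM : 0 < M := by positivity
  have hM1 : C₁ ^ 2 * C' ≤ M := by linarith
  have hM2 : 2 * C₁ + c * σ + 4 * C' + 2 ≤ M * L := by
    have h1 : (2 * C₁ + c * σ + 4 * C' + 2) / L ≤ M := by
      have : 0 ≤ C₁ ^ 2 * C' := by positivity
      linarith
    rwa [div_le_iff₀ hL] at h1
  set q : ℝ := min (min (1 / (c * M + 1)) (1 / (σ + M + 1))) (s₀ / 2) with hqdef
  have hq : 0 < q := by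
    refine lt_min (lt_min ?_ ?_) ?_
    · positivity
    · positivity
    · positivity
  have hq1 : q ≤ 1 / (c * M + 1) := (min_le_left _ _).trans (min_le_left _ _)
  have hq2 : q ≤ 1 / (σ + M + 1) := (min_le_left _ _).trans (min_le_right _ _)
  have hq3 : q ≤ s₀ / 2 := min_le_right _ _
  have hq4 : q ≤ 1 := hq2.trans (by
    rw [div_le_one (by positivity)]
    linarith)
  refine ⟨M, min k₁ q, hM, lt_min hk₁ hq, lt_of_le_of_lt (min_le_left _ _) hk₁', ?_⟩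
  intro k hk hkk μ W hμ hW n
  have hkk₁ : k ≤ k₁ := hkk.trans (min_le_left _ _)
  have hkq : k ≤ q := hkk.trans (min_le_right _ _)
  have hk1 : k < 1 := lt_of_le_of_lt hkk₁ hk₁'
  have hk2q : k ^ 2 ≤ q := by
    calc k ^ 2 = k * k := sq k
      _ ≤ q * 1 := mul_le_mul hkq hk1.le hk.le hq.le
      _ = q := mul_one q
  have hk4 : k ^ 4 ≤ k ^ 2 := pow_le_pow_of_le_one hk.le hk1.le (by norm_num)
  have hk2 : 0 ≤ k ^ 2 := by positivity
  have n1 : c * M * k ^ 2 ≤ 1 := by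
    have h1 : k ^ 2 ≤ 1 / (c * M + 1) := hk2q.trans hq1
    rw [le_div_iff₀ (by positivity)] at h1
    nlinarith
  have n2 : σ * k ^ 2 + M * k ^ 4 ≤ 1 := by
    have h1 : k ^ 2 ≤ 1 / (σ + M + 1) := hk2q.trans hq2
    rw [le_div_iff₀ (by positivity)] at h1
    have h2 : M * k ^ 4 ≤ M * k ^ 2 := mul_le_mul_of_nonneg_left hk4 hM.le
    nlinarith
  have n3 : 0 ≤ σ * k ^ 2 + M * k ^ 4 := by positivity
  obtain ⟨κ, A, hκ, hκs, hA, hAW⟩ := antisym hk.le hk1 hμ hW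
  obtain ⟨w, hw, hwk⟩ := nice_family hk hk1 hκ.test hκ.le hA
  have hα : Coef 1 (fun z => κ z / k) := cu_coef hk hκ
  obtain ⟨Q, hQ0, hQ1, hQ2⟩ := hP _ w hα (cu_star hκs) hw
  have hQ : QBd C₁ c Q := by
    refine ⟨hQ0, fun n j hj => ⟨(hQ1 n j hj).1.trans hC₁0, (hQ1 n j hj).2.1.trans hC₁0⟩,
      fun n j T hj => ?_⟩
    rw [q_avg (fun n j hj => (hQ1 n j hj).2.2) n j T hj]
    have := hB _ (cu_lft_env hα) (j / 2 ^ n) (1 / 2 ^ n) (by positivity) T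
    linarith
  have hd := hQ2 k hk.le hkk₁ n
  set t : ℝ := 1 + σ * k ^ 2 + M * k ^ 4 with ht
  have ht1 : 1 ≤ t := by linarith
  have ht2 : t ≤ 2 := by linarith
  have h2n : (0 : ℝ) < 2 ^ n := by positivity
  refine ⟨fun j => C₁ * (Real.exp (k ^ 2 * Q n j + C₁ * n * k ^ 4) / 2 ^ n),
    fun j => {z | j < 2 ^ n ∧ ∃ x : ℝ, j / 2 ^ n ≤ x ∧ x ≤ (j + 1) / 2 ^ n ∧ w k (ee x) = z},
    fun j => by positivity, ?_, ?_, ?_⟩
  · rw [← hAW, ← hwk]
    rintro _ ⟨u, hu, rfl⟩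
    rw [mem_sphere_zero_iff_norm] at hu
    obtain ⟨x, hx0, hx1, hxu⟩ := cu_ee hu
    have hf0 : 0 ≤ 2 ^ n * x := by positivity
    have hj1 : (⌊2 ^ n * x⌋₊ : ℝ) ≤ 2 ^ n * x := Nat.floor_le hf0
    have hj2 : 2 ^ n * x < (⌊2 ^ n * x⌋₊ : ℝ) + 1 := Nat.lt_floor_add_one _
    have hj3 : ⌊2 ^ n * x⌋₊ < 2 ^ n := by
      rw [Nat.floor_lt hf0]
      push_cast
      nlinarith
    refine mem_iUnion₂.2 ⟨⌊2 ^ n * x⌋₊, Finset.mem_range.2 hj3, hj3, x, ?_, ?_, by rw [hxu]⟩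
    · rw [div_le_iff₀ h2n]
      linarith
    · rw [le_div_iff₀ h2n]
      linarith
  · rintro j _ ⟨hj, x, hx1, hx2, rfl⟩ _ ⟨_, y, hy1, hy2, rfl⟩
    rw [dist_eq_norm]
    refine ((hd j hj).1 x y hx1 hx2 hy1 hy2).trans ?_
    refine mul_le_mul hC₁0 ?_ (by positivity) hC₁p.le
    refine div_le_div_of_nonneg_right (Real.exp_le_exp.2 ?_) h2n.le
    have h1 : (0 : ℝ) ≤ n * k ^ 4 := by positivity
    have h2 := mul_le_mul_of_nonneg_right hC₁0 h1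
    rw [← mul_assoc, ← mul_assoc] at h2
    exact add_le_add_right h2 _
  · have hs : 0 < k ^ 2 * t := by positivity
    have hss : k ^ 2 * t ≤ s₀ := by
      calc k ^ 2 * t ≤ q * 2 := mul_le_mul hk2q ht2 (by linarith) hq.le
        _ ≤ s₀ := by linarith
    have hmom := hE c Q hc hC₁c hQ (k ^ 2 * t) hs hss n
    rw [div_le_iff₀ h2n] at hmom
    have hterm : ∀ j : ℕ, (C₁ * (Real.exp (k ^ 2 * Q n j + C₁ * n * k ^ 4) / 2 ^ n)) ^ t ≤
        C₁ ^ 2 * Real.exp (C₁ * n * k ^ 4 * t - n * L * t) * Real.exp (k ^ 2 * t * Q n j) := by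
      intro j
      have e2 : (2 : ℝ) ^ n = Real.exp (n * L) := by
        rw [hLdef, mul_comm, Real.exp_mul, Real.exp_log (by norm_num), Real.rpow_natCast]
      rw [Real.mul_rpow hC₁p.le (by positivity), e2, ← Real.exp_sub, ← Real.exp_mul,
        mul_assoc (C₁ ^ 2), ← Real.exp_add]
      refine mul_le_mul ?_ (Real.exp_le_exp.2 (le_of_eq (by ring))) (Real.exp_pos _).le
        (by positivity)
      calc C₁ ^ t ≤ C₁ ^ (2 : ℝ) := Real.rpow_le_rpow_of_exponent_le hC₁1 ht2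
        _ = C₁ ^ 2 := by
          rw [← Real.rpow_natCast]
          norm_num
    have hnum := cu_num hcdef hM2 hC₁p.le hC'.le n1 n2 n3
    rw [← ht] at hnum
    calc ∑ j ∈ Finset.range (2 ^ n),
          (C₁ * (Real.exp (k ^ 2 * Q n j + C₁ * n * k ^ 4) / 2 ^ n)) ^ t
        ≤ ∑ j ∈ Finset.range (2 ^ n), C₁ ^ 2 * Real.exp (C₁ * n * k ^ 4 * t - n * L * t) *
            Real.exp (k ^ 2 * t * Q n j) := Finset.sum_le_sum fun j _ => hterm j
      _ = C₁ ^ 2 * Real.exp (C₁ * n * k ^ 4 * t - n * L * t) *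
            ∑ j ∈ Finset.range (2 ^ n), Real.exp (k ^ 2 * t * Q n j) := by
          rw [← Finset.mul_sum]
      _ ≤ C₁ ^ 2 * Real.exp (C₁ * n * k ^ 4 * t - n * L * t) *
            (C' * Real.exp ((c * (k ^ 2 * t) + C' * (k ^ 2 * t) ^ 2) * n) * 2 ^ n) :=
          mul_le_mul_of_nonneg_left hmom (by positivity)
      _ = C₁ ^ 2 * C' * Real.exp ((L * (1 - t) + C₁ * k ^ 4 * t + c * (k ^ 2 * t) +
            C' * (k ^ 2 * t) ^ 2) * n) := by
          have e2 : (2 : ℝ) ^ n = Real.exp (n * L) := by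
            rw [hLdef, mul_comm, Real.exp_mul, Real.exp_log (by norm_num), Real.rpow_natCast]
          rw [e2]
          have e3 : (L * (1 - t) + C₁ * k ^ 4 * t + c * (k ^ 2 * t) + C' * (k ^ 2 * t) ^ 2) * n =
              (C₁ * n * k ^ 4 * t - n * L * t) +
                ((c * (k ^ 2 * t) + C' * (k ^ 2 * t) ^ 2) * n + n * L) := by ring
          rw [e3, Real.exp_add, Real.exp_add]
          ring
      _ ≤ C₁ ^ 2 * C' * Real.exp (-(k ^ 4 * n)) := by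
          refine mul_le_mul_of_nonneg_left (Real.exp_le_exp.2 ?_) (by positivity)
          have hn : (0 : ℝ) ≤ n := Nat.cast_nonneg n
          have h1 := mul_le_mul_of_nonneg_right hnum hn
          rw [neg_mul] at h1
          exact h1
      _ ≤ M * Real.exp (-(k ^ 4 * n)) := mul_le_mul_of_nonneg_right hM1 (Real.exp_pos _).le

end Pool.Agent.QCD
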