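import Mathlib

/-!
# Quasicircles and the asymptotic variance of the Beurling transform: definitions
-/

open Complex MeasureTheory Filter Topology Set
open scoped ContDiff ENNReal ComplexConjugate

noncomputable section

namespace Pool.Agent.QCD

/-- the Wirtinger derivative `(f_x - i f_y) / 2` -/
def dz (f : ℂ → ℂ) (z : ℂ) : ℂ := (fderiv ℝ f z 1 - I * fderiv ℝ f z I) / 2

/-- the Wirtinger derivative `(f_x + i f_y) / 2` -/
def dzb (f : ℂ → ℂ) (z : ℂ) : ℂ := (fderiv ℝ f z 1 + I * fderiv ℝ f z I) / 2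

/-- smooth functions with compact support -/
def IsTest (φ : ℂ → ℂ) : Prop := ContDiff ℝ ∞ φ ∧ HasCompactSupport φ

/-- functions which are square integrable on every disc -/
def LocL2 (f : ℂ → ℂ) : Prop := ∀ r : ℝ, MemLp f 2 (volume.restrict (Metric.closedBall 0 r))

/-- `g` and `h` are the distributional derivatives of `w` with respect to `z` and to the
conjugate of `z` -/
def WeakDeriv (w g h : ℂ → ℂ) : Prop := ∀ φ, IsTest φ →
  ∫ z, w z * dz φ z = -∫ z, g z * φ z ∧ ∫ z, w z * dzb φ z = -∫ z, h z * φ z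

/-- `w` is a `k`-quasiconformal homeomorphism of the plane: it has locally square integrable
distributional derivatives, and a Beltrami coefficient `μ` with `|μ| ≤ k` almost everywhere -/
def IsQC (k : ℝ) (w : ℂ ≃ₜ ℂ) : Prop := ∃ g h μ : ℂ → ℂ, LocL2 g ∧ LocL2 h ∧ WeakDeriv w g h ∧
  Measurable μ ∧ (∀ᵐ z, ‖μ z‖ ≤ k) ∧ ∀ᵐ z, h z = μ z * g z

/-- the supremum of the Hausdorff dimensions of all `k`-quasicircles, as an extended number -/
def dsup (k : ℝ) : ℝ≥0∞ :=
  ⨆ w : {w : ℂ ≃ₜ ℂ // IsQC k w}, dimH (w.1 '' Metric.sphere (0 : ℂ) 1)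

/-- the Beurling transform of the restriction of `μ` to the unit disc -/
def beur (μ : ℂ → ℂ) (z : ℂ) : ℂ :=
  -(Real.pi : ℂ)⁻¹ * ∫ ζ in Metric.ball (0 : ℂ) 1, μ ζ / (ζ - z) ^ 2

/-- the asymptotic variance of a function on the exterior of the unit disc -/
def avar (g : ℂ → ℂ) : ℝ≥0∞ := limsup (fun R : ℝ => ENNReal.ofReal
  ((2 * Real.pi * |Real.log (R - 1)|)⁻¹ *
    ∫ θ in (0 : ℝ)..(2 * Real.pi), ‖g (R * exp (θ * I))‖ ^ 2 * R)) (𝓝[>] 1)

/-- the supremum of the asymptotic variances of Beurling transforms, as an extended number -/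
def sigma2 : ℝ≥0∞ :=
  ⨆ μ : {μ : ℂ → ℂ // Measurable μ ∧ ∀ z, ‖μ z‖ ≤ 1}, avar (beur μ.1)

end Pool.Agent.QCD
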