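import Pool.Agent.Lib.MP_f30fea_an.Base

/-!
# A set of positive length on which a dyadic process grows linearly

All averages over one generation are integrals over `[0,1)` of step functions `x ↦ Q n ⌊2^n x⌋₊`
(`∫_{[0,1)} = 2^{-n} ∑_{j<2^n}`).  Let `Z = Q (mT+T) (2^T l + i) - Q (mT) l - c T`, `|Z| ≤ B`, `B = C T + |c| T + 1`; the average of `Z`
over `i < 2^T` is `≥ 0` (`hb`).  For `0 < λ ≤ 1/B`: average of `exp (-λ Z) ≤ 1 - λ avg Z + λ² B² ≤ exp (λ² B²)`.
Induction: `2^{-mT} ∑_l exp (-λ (Q (mT) l - c m T)) ≤ exp (m λ² B²)`.  With `λ = min (1/B) (ε' T/(2B²))`, `ε' = ε/2`: the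
set of `x` with `Q (mT) ⌊2^{mT} x⌋₊ ≤ (c - ε') m T` has measure `≤ exp (-m (λ ε' T - λ² B²)) ≤ exp (-m ρ)`,
`ρ = λ ε' T/2 > 0` (Markov).  Sum over `m ≥ m₀` is `< 1`; `G` = the complement in `[0,1)` of the union of these sets.
For `mT ≤ n < (m+1)T`: `Q n ⌊2^n x⌋₊ ≥ Q (mT) ⌊2^{mT} x⌋₊ - C T` (`⌊2^{n+1} x⌋₊ / 2 = ⌊2^n x⌋₊`), so
`≥ (c - ε') n - (|c - ε'| + C) T ≥ (c - ε) n` for large `n`.
-/

open Complex MeasureTheory Filter Topology Set
open scoped ContDiff ENNReal ComplexConjugate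

noncomputable section

namespace Pool.Agent.QCD

private lemma gs_split (M N : ℕ) (f : ℕ → ℝ) : ∑ j ∈ Finset.range (M * N), f j =
    ∑ i ∈ Finset.range M, ∑ l ∈ Finset.range N, f (N * i + l) := by
  induction M with
  | zero => simp
  | succ M ih =>
    rw [Nat.succ_mul, Finset.sum_range_add, ih, Finset.sum_range_succ]
    congr 1
    refine Finset.sum_congr rfl fun l _ => ?_
    rw [mul_comm]

private lemma gs_inc {C : ℝ} {Q : ℕ → ℕ → ℝ}
    (hinc : ∀ n j : ℕ, j < 2 ^ n → |Q (n + 1) (2 * j) - Q n j| ≤ C ∧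
      |Q (n + 1) (2 * j + 1) - Q n j| ≤ C) (T : ℕ) : ∀ n j l : ℕ,
    j < 2 ^ n → l < 2 ^ T → |Q (n + T) (2 ^ T * j + l) - Q n j| ≤ C * T := by
  induction T with
  | zero =>
    intro n j l _ hl
    have h0 : l = 0 := by simpa using hl
    subst h0
    simp
  | succ T ih =>
    intro n j l hj hl
    obtain ⟨l', b, hb, hlb⟩ : ∃ l' b, b < 2 ∧ l = 2 * l' + b :=
      ⟨l / 2, l % 2, Nat.mod_lt _ (by norm_num), (Nat.div_add_mod l 2).symm⟩
    have hl' : l' < 2 ^ T := by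
      rw [pow_succ] at hl
      omega
    have hjl : 2 ^ T * j + l' < 2 ^ (n + T) := by
      rw [pow_add]
      calc 2 ^ T * j + l' < 2 ^ T * j + 2 ^ T := by omega
        _ = 2 ^ T * (j + 1) := by ring
        _ ≤ 2 ^ T * 2 ^ n := Nat.mul_le_mul_left _ hj
        _ = 2 ^ n * 2 ^ T := mul_comm _ _
    have h1 := hinc (n + T) (2 ^ T * j + l') hjl
    have h2 := ih n j l' hj hl'
    have e1 : 2 ^ (T + 1) * j + l = 2 * (2 ^ T * j + l') + b := by
      rw [hlb, pow_succ]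
      ring
    have e2 : n + (T + 1) = n + T + 1 := by ring
    rw [e1, e2]
    have h3 : |Q (n + T + 1) (2 * (2 ^ T * j + l') + b) - Q (n + T) (2 ^ T * j + l')| ≤ C := by
      rcases Nat.lt_succ_iff_lt_or_eq.mp hb with h | h
      · have : b = 0 := by omega
        subst this
        exact h1.1
      · subst h
        exact h1.2
    calc |Q (n + T + 1) (2 * (2 ^ T * j + l') + b) - Q n j| ≤ _ :=
          abs_sub_le _ (Q (n + T) (2 ^ T * j + l')) _
      _ ≤ C + C * T := add_le_add h3 h2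
      _ = C * (T + 1 : ℕ) := by push_cast; ring

/-- exponential moments at the multiples of `T` -/
private lemma gs_moment {C c : ℝ} {T : ℕ} {Q : ℕ → ℕ → ℝ} (h0 : Q 0 0 = 0)
    (hinc : ∀ n j : ℕ, j < 2 ^ n → |Q (n + 1) (2 * j) - Q n j| ≤ C ∧
      |Q (n + 1) (2 * j + 1) - Q n j| ≤ C)
    (hb : ∀ m l : ℕ, l < 2 ^ (m * T) → Q (m * T) l + c * T ≤
      (∑ i ∈ Finset.range (2 ^ T), Q (m * T + T) (2 ^ T * l + i)) / 2 ^ T) {B lam : ℝ}
    (hB : C * T + |c| * T ≤ B) (hlam : 0 < lam) (hlB : lam * B ≤ 1) (m : ℕ) :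
    ∑ l ∈ Finset.range (2 ^ (m * T)), Real.exp (-(lam * (Q (m * T) l - c * (m * T : ℕ)))) ≤
      2 ^ (m * T) * Real.exp (m * (lam ^ 2 * B ^ 2)) := by
  induction m with
  | zero => simp [h0]
  | succ m ih =>
    have e1 : (m + 1) * T = m * T + T := by ring
    rw [e1, pow_add, gs_split]
    have h1 : ∀ l ∈ Finset.range (2 ^ (m * T)),
        ∑ i ∈ Finset.range (2 ^ T), Real.exp (-(lam * (Q (m * T + T) (2 ^ T * l + i) -
          c * (m * T + T : ℕ)))) ≤
        Real.exp (-(lam * (Q (m * T) l - c * (m * T : ℕ)))) *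
          (2 ^ T * Real.exp (lam ^ 2 * B ^ 2)) := by
      intro l hl
      rw [Finset.mem_range] at hl
      set Z : ℕ → ℝ := fun i => Q (m * T + T) (2 ^ T * l + i) - Q (m * T) l - c * T with hZ
      have hfac : ∀ i, Real.exp (-(lam * (Q (m * T + T) (2 ^ T * l + i) -
          c * (m * T + T : ℕ)))) =
          Real.exp (-(lam * (Q (m * T) l - c * (m * T : ℕ)))) * Real.exp (-(lam * Z i)) := by
        intro i
        rw [← Real.exp_add, hZ]
        congr 1
        push_cast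
        ring
      simp only [hfac]
      rw [← Finset.mul_sum]
      apply mul_le_mul_of_nonneg_left _ (Real.exp_pos _).le
      have hZB : ∀ i ∈ Finset.range (2 ^ T), |Z i| ≤ B := by
        intro i hi
        have h3 := gs_inc hinc T (m * T) l i hl (Finset.mem_range.mp hi)
        have h4 : |Z i| ≤ |Q (m * T + T) (2 ^ T * l + i) - Q (m * T) l| + |c * T| := abs_sub _ _
        have h5 : |c * (T : ℝ)| = |c| * T := by
          rw [abs_mul, Nat.abs_cast]
        linarith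
      have hsum : 0 ≤ ∑ i ∈ Finset.range (2 ^ T), Z i := by
        have h3 := hb m l hl
        rw [le_div_iff₀ (by positivity)] at h3
        rw [hZ, Finset.sum_sub_distrib, Finset.sum_sub_distrib, Finset.sum_const,
          Finset.sum_const, Finset.card_range, nsmul_eq_mul, nsmul_eq_mul]
        push_cast
        linarith
      calc ∑ i ∈ Finset.range (2 ^ T), Real.exp (-(lam * Z i))
          ≤ ∑ i ∈ Finset.range (2 ^ T), (1 + -lam * Z i + lam ^ 2 * B ^ 2) := by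
            refine Finset.sum_le_sum fun i hi => ?_
            have h3 := hZB i hi
            have h4 : |(-(lam * Z i))| ≤ 1 := by
              rw [abs_neg, abs_mul, abs_of_pos hlam]
              exact (mul_le_mul_of_nonneg_left h3 hlam.le).trans hlB
            have h5 := (abs_le.mp (Real.abs_exp_sub_one_sub_id_le h4)).2
            have h6 : (Z i) ^ 2 ≤ B ^ 2 := by
              rw [← sq_abs]
              exact pow_le_pow_left₀ (abs_nonneg _) h3 2
            have h7 : lam ^ 2 * (Z i) ^ 2 ≤ lam ^ 2 * B ^ 2 :=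
              mul_le_mul_of_nonneg_left h6 (by positivity)
            nlinarith
        _ = 2 ^ T * (1 + lam ^ 2 * B ^ 2) - lam * ∑ i ∈ Finset.range (2 ^ T), Z i := by
            rw [Finset.sum_add_distrib, Finset.sum_add_distrib, ← Finset.mul_sum,
              Finset.sum_const, Finset.sum_const, Finset.card_range, nsmul_eq_mul, nsmul_eq_mul]
            push_cast
            ring
        _ ≤ 2 ^ T * (1 + lam ^ 2 * B ^ 2) := by
            have := mul_nonneg hlam.le hsum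
            linarith
        _ ≤ 2 ^ T * Real.exp (lam ^ 2 * B ^ 2) := by
            apply mul_le_mul_of_nonneg_left _ (by positivity)
            have := Real.add_one_le_exp (lam ^ 2 * B ^ 2)
            linarith
    refine (Finset.sum_le_sum h1).trans ?_
    rw [← Finset.sum_mul]
    calc (∑ l ∈ Finset.range (2 ^ (m * T)),
          Real.exp (-(lam * (Q (m * T) l - c * (m * T : ℕ))))) *
            (2 ^ T * Real.exp (lam ^ 2 * B ^ 2))
        ≤ (2 ^ (m * T) * Real.exp (m * (lam ^ 2 * B ^ 2))) *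
            (2 ^ T * Real.exp (lam ^ 2 * B ^ 2)) := mul_le_mul_of_nonneg_right ih (by positivity)
      _ = (2 ^ (m * T) * 2 ^ T) *
            (Real.exp (m * (lam ^ 2 * B ^ 2)) * Real.exp (lam ^ 2 * B ^ 2)) := by ring
      _ = 2 ^ (m * T + T) * Real.exp ((m + 1 : ℕ) * (lam ^ 2 * B ^ 2)) := by
          rw [← Real.exp_add, ← pow_add]
          congr 2
          push_cast
          ring

/-- the length of a union of dyadic intervals -/
private lemma gs_volume (n : ℕ) (S : Finset ℕ) :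
    volume {x : ℝ | x ∈ Set.Ico (0 : ℝ) 1 ∧ ⌊2 ^ n * x⌋₊ ∈ S} ≤
      ENNReal.ofReal (S.card / 2 ^ n) := by
  have h2 : (0 : ℝ) < 2 ^ n := by positivity
  have hsub : {x : ℝ | x ∈ Set.Ico (0 : ℝ) 1 ∧ ⌊2 ^ n * x⌋₊ ∈ S} ⊆
      ⋃ l ∈ S, Set.Ico ((l : ℝ) / 2 ^ n) (((l : ℝ) + 1) / 2 ^ n) := by
    rintro x ⟨hx, hxS⟩
    rw [Set.mem_iUnion₂]
    refine ⟨_, hxS, ?_, ?_⟩
    · rw [div_le_iff₀ h2, mul_comm]
      exact Nat.floor_le (by have := hx.1; positivity)
    · rw [lt_div_iff₀ h2, mul_comm]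
      exact Nat.lt_floor_add_one _
  calc volume {x : ℝ | x ∈ Set.Ico (0 : ℝ) 1 ∧ ⌊2 ^ n * x⌋₊ ∈ S}
      ≤ volume (⋃ l ∈ S, Set.Ico ((l : ℝ) / 2 ^ n) (((l : ℝ) + 1) / 2 ^ n)) := measure_mono hsub
    _ ≤ ∑ l ∈ S, volume (Set.Ico ((l : ℝ) / 2 ^ n) (((l : ℝ) + 1) / 2 ^ n)) :=
        measure_biUnion_finset_le _ _
    _ = ∑ _l ∈ S, ENNReal.ofReal (1 / 2 ^ n) := by
        refine Finset.sum_congr rfl fun l _ => ?_
        rw [Real.volume_Ico]
        congr 1
        ring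
    _ = ENNReal.ofReal (S.card / 2 ^ n) := by
        rw [Finset.sum_const, nsmul_eq_mul, ← ENNReal.ofReal_natCast, ← ENNReal.ofReal_mul
          (Nat.cast_nonneg _)]
        congr 1
        ring

theorem good_set {C c : ℝ} {T : ℕ} (hT : 1 ≤ T) {Q : ℕ → ℕ → ℝ} (h0 : Q 0 0 = 0)
    (hinc : ∀ n j : ℕ, j < 2 ^ n → |Q (n + 1) (2 * j) - Q n j| ≤ C ∧
      |Q (n + 1) (2 * j + 1) - Q n j| ≤ C)
    (hb : ∀ m l : ℕ, l < 2 ^ (m * T) → Q (m * T) l + c * T ≤
      (∑ i ∈ Finset.range (2 ^ T), Q (m * T + T) (2 ^ T * l + i)) / 2 ^ T) {ε : ℝ} (hε : 0 < ε) :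
    ∃ G : Set ℝ, MeasurableSet G ∧ G ⊆ Set.Ico 0 1 ∧ 0 < volume G ∧
      ∃ n₀ : ℕ, ∀ x ∈ G, ∀ n ≥ n₀, (c - ε) * n ≤ Q n ⌊2 ^ n * x⌋₊ := by
  classical
  have hC : 0 ≤ C := (abs_nonneg _).trans (hinc 0 0 (by norm_num)).1
  have hTR : (1 : ℝ) ≤ T := by exact_mod_cast hT
  obtain ⟨B, hBdef⟩ : ∃ B, B = C * T + |c| * T + 1 := ⟨_, rfl⟩
  have hB1 : 1 ≤ B := by
    rw [hBdef]
    have : 0 ≤ C * T + |c| * T := by positivity
    linarith
  obtain ⟨e, he⟩ : ∃ e, e = ε / 2 := ⟨_, rfl⟩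
  have he0 : 0 < e := by rw [he]; positivity
  obtain ⟨lam, hlam⟩ : ∃ lam, lam = min (1 / B) (e * T / (2 * B ^ 2)) := ⟨_, rfl⟩
  have hlam0 : 0 < lam := by
    rw [hlam]
    exact lt_min (by positivity) (by positivity)
  have hlB : lam * B ≤ 1 := by
    have h1 : lam ≤ 1 / B := by rw [hlam]; exact min_le_left _ _
    rwa [le_div_iff₀ (by positivity)] at h1
  have hlB2 : lam * B ^ 2 ≤ e * T / 2 := by
    have h1 : lam ≤ e * T / (2 * B ^ 2) := by rw [hlam]; exact min_le_right _ _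
    rw [le_div_iff₀ (by positivity)] at h1
    linarith
  obtain ⟨ρ, hρ⟩ : ∃ ρ, ρ = lam * (e * T) / 2 := ⟨_, rfl⟩
  have hρ0 : 0 < ρ := by rw [hρ]; positivity
  -- the bad indices
  let Bad : ℕ → Finset ℕ := fun m =>
    (Finset.range (2 ^ (m * T))).filter fun l => Q (m * T) l ≤ (c - e) * (m * T : ℕ)
  have hbad : ∀ m, ((Bad m).card : ℝ) / 2 ^ (m * T) ≤ Real.exp (-ρ) ^ m := by
    intro m
    have h1 := gs_moment h0 hinc hb (B := B) (by linarith) hlam0 hlB m
    have h2 : ((Bad m).card : ℝ) * Real.exp (lam * (e * (m * T : ℕ))) ≤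
        2 ^ (m * T) * Real.exp (m * (lam ^ 2 * B ^ 2)) := by
      refine le_trans ?_ h1
      calc ((Bad m).card : ℝ) * Real.exp (lam * (e * (m * T : ℕ)))
          = ∑ _l ∈ Bad m, Real.exp (lam * (e * (m * T : ℕ))) := by
            rw [Finset.sum_const, nsmul_eq_mul]
        _ ≤ ∑ l ∈ Bad m, Real.exp (-(lam * (Q (m * T) l - c * (m * T : ℕ)))) := by
            refine Finset.sum_le_sum fun l hl => ?_
            apply Real.exp_le_exp.mpr
            have h3 : Q (m * T) l ≤ (c - e) * (m * T : ℕ) := (Finset.mem_filter.mp hl).2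
            have h4 : e * (m * T : ℕ) ≤ -(Q (m * T) l - c * (m * T : ℕ)) := by linarith
            have h5 := mul_le_mul_of_nonneg_left h4 hlam0.le
            linarith
        _ ≤ _ := Finset.sum_le_sum_of_subset_of_nonneg (Finset.filter_subset _ _)
            fun l _ _ => (Real.exp_pos _).le
    rw [div_le_iff₀ (by positivity), ← Real.exp_nat_mul]
    have h3 : ((Bad m).card : ℝ) ≤ 2 ^ (m * T) *
        (Real.exp (m * (lam ^ 2 * B ^ 2)) * Real.exp (-(lam * (e * (m * T : ℕ))))) := by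
      have h4 := mul_le_mul_of_nonneg_right h2 (Real.exp_pos (-(lam * (e * (m * T : ℕ))))).le
      rw [mul_assoc, ← Real.exp_add, add_neg_cancel, Real.exp_zero, mul_one, mul_assoc] at h4
      exact h4
    refine h3.trans ?_
    rw [mul_comm (Real.exp (m * -ρ))]
    apply mul_le_mul_of_nonneg_left _ (by positivity)
    rw [← Real.exp_add]
    apply Real.exp_le_exp.mpr
    have h5 : lam ^ 2 * B ^ 2 ≤ lam * (e * T) / 2 := by
      calc lam ^ 2 * B ^ 2 = lam * (lam * B ^ 2) := by ring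
        _ ≤ lam * (e * T / 2) := mul_le_mul_of_nonneg_left hlB2 hlam0.le
        _ = _ := by ring
    have h6 : (m : ℝ) * (lam ^ 2 * B ^ 2) ≤ m * (lam * (e * T) / 2) :=
      mul_le_mul_of_nonneg_left h5 (Nat.cast_nonneg m)
    rw [hρ]
    push_cast
    linarith
  -- choice of `m₀`
  have hq0 : 0 < Real.exp (-ρ) := Real.exp_pos _
  have hq1 : Real.exp (-ρ) < 1 := by
    rw [Real.exp_lt_one_iff]
    linarith
  obtain ⟨m₀, hm₀⟩ : ∃ m₀ : ℕ, Real.exp (-ρ) ^ m₀ < 1 - Real.exp (-ρ) :=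
    exists_pow_lt_of_lt_one (by linarith) hq1
  let BS : ℕ → Set ℝ := fun m => {x : ℝ | x ∈ Set.Ico (0 : ℝ) 1 ∧ ⌊2 ^ (m * T) * x⌋₊ ∈ Bad m}
  have hBSm : ∀ m, MeasurableSet (BS m) := by
    intro m
    have h1 : Measurable fun x : ℝ => ⌊2 ^ (m * T) * x⌋₊ :=
      Nat.measurable_floor.comp (measurable_const.mul measurable_id)
    exact measurableSet_Ico.inter (h1 (Finset.measurableSet (Bad m)))
  have hBSv : volume (⋃ m : ℕ, BS (m₀ + m)) < 1 := by
    have hs : Summable fun m : ℕ => Real.exp (-ρ) ^ (m₀ + m) := by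
      simp only [pow_add]
      exact (summable_geometric_of_lt_one hq0.le hq1).mul_left _
    calc volume (⋃ m : ℕ, BS (m₀ + m)) ≤ ∑' m : ℕ, volume (BS (m₀ + m)) := measure_iUnion_le _
      _ ≤ ∑' m : ℕ, ENNReal.ofReal (Real.exp (-ρ) ^ (m₀ + m)) := by
          refine ENNReal.tsum_le_tsum fun m => ?_
          exact (gs_volume ((m₀ + m) * T) (Bad (m₀ + m))).trans
            (ENNReal.ofReal_le_ofReal (hbad _))
      _ = ENNReal.ofReal (∑' m : ℕ, Real.exp (-ρ) ^ (m₀ + m)) :=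
          (ENNReal.ofReal_tsum_of_nonneg (fun m => by positivity) hs).symm
      _ < 1 := by
          have h1 : ∑' m : ℕ, Real.exp (-ρ) ^ (m₀ + m) =
              Real.exp (-ρ) ^ m₀ * (1 - Real.exp (-ρ))⁻¹ := by
            simp only [pow_add]
            rw [tsum_mul_left, tsum_geometric_of_lt_one hq0.le hq1]
          rw [h1, ENNReal.ofReal_lt_one, ← div_eq_mul_inv, div_lt_one (by linarith)]
          exact hm₀
  refine ⟨Set.Ico 0 1 \ ⋃ m : ℕ, BS (m₀ + m), measurableSet_Ico.diff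
    (MeasurableSet.iUnion fun m => hBSm _), Set.sdiff_subset, ?_, ?_⟩
  · rw [pos_iff_ne_zero]
    intro hzero
    have h1 : volume (Set.Ico (0 : ℝ) 1) ≤ volume (⋃ m : ℕ, BS (m₀ + m)) := by
      calc volume (Set.Ico (0 : ℝ) 1) ≤
            volume ((Set.Ico (0 : ℝ) 1 \ ⋃ m : ℕ, BS (m₀ + m)) ∪ ⋃ m : ℕ, BS (m₀ + m)) :=
            measure_mono (by rw [Set.sdiff_union_self]; exact Set.subset_union_left)
        _ ≤ volume (Set.Ico (0 : ℝ) 1 \ ⋃ m : ℕ, BS (m₀ + m)) +
              volume (⋃ m : ℕ, BS (m₀ + m)) := measure_union_le _ _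
        _ = _ := by rw [hzero, zero_add]
    rw [Real.volume_Ico, sub_zero, ENNReal.ofReal_one] at h1
    exact absurd hBSv (not_lt.mpr h1)
  · obtain ⟨n₁, hn₁⟩ := exists_nat_ge ((|c - e| + C) * T / e)
    refine ⟨max (m₀ * T) n₁, fun x hx n hn => ?_⟩
    have hn1 : m₀ * T ≤ n := (le_max_left _ _).trans hn
    have hn2 : (n₁ : ℝ) ≤ n := by exact_mod_cast (le_max_right _ _).trans hn
    obtain ⟨m, r, hr, hnm⟩ : ∃ m r, r < T ∧ n = m * T + r :=
      ⟨n / T, n % T, Nat.mod_lt _ hT, (Nat.div_add_mod' n T).symm⟩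
    have hm : m₀ ≤ m := by
      by_contra hlt
      push Not at hlt
      have : (m + 1) * T ≤ m₀ * T := Nat.mul_le_mul_right T hlt
      have h3 : (m + 1) * T = m * T + T := by ring
      omega
    have hx0 := hx.1.1
    have hx1 := hx.1.2
    set j : ℕ := ⌊2 ^ (m * T) * x⌋₊ with hj
    have hjlt : j < 2 ^ (m * T) := by
      rw [hj, Nat.floor_lt (by positivity)]
      push_cast
      calc (2 : ℝ) ^ (m * T) * x < 2 ^ (m * T) * 1 := by
            apply mul_lt_mul_of_pos_left hx1 (by positivity)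
        _ = 2 ^ (m * T) := mul_one _
    have hnotbad : (c - e) * (m * T : ℕ) < Q (m * T) j := by
      by_contra hcon
      push Not at hcon
      apply hx.2
      rw [Set.mem_iUnion]
      refine ⟨m - m₀, ?_⟩
      have h3 : m₀ + (m - m₀) = m := by omega
      rw [h3]
      exact ⟨hx.1, Finset.mem_filter.mpr ⟨Finset.mem_range.mpr hjlt, hcon⟩⟩
    obtain ⟨l, hl, hfl⟩ : ∃ l, l < 2 ^ r ∧ ⌊2 ^ n * x⌋₊ = 2 ^ r * j + l := by
      have h3 : ⌊(2 ^ n * x) / ((2 ^ r : ℕ) : ℝ)⌋₊ = ⌊2 ^ n * x⌋₊ / 2 ^ r :=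
        Nat.floor_div_natCast _ _
      have h4 : (2 ^ n * x) / ((2 ^ r : ℕ) : ℝ) = 2 ^ (m * T) * x := by
        push_cast
        rw [hnm, pow_add]
        field_simp
      rw [h4] at h3
      refine ⟨⌊2 ^ n * x⌋₊ % 2 ^ r, Nat.mod_lt _ (by positivity), ?_⟩
      rw [hj, h3]
      exact (Nat.div_add_mod _ _).symm
    have h5 := gs_inc hinc r (m * T) j l hjlt hl
    rw [hfl]
    have h6 : Q n (2 ^ r * j + l) = Q (m * T + r) (2 ^ r * j + l) := by rw [← hnm]
    rw [h6]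
    have h7 := (abs_le.mp h5).1
    have hrT : (r : ℝ) ≤ T := by exact_mod_cast hr.le
    have h8 : C * (r : ℝ) ≤ C * T := mul_le_mul_of_nonneg_left hrT hC
    have h9 : (n : ℝ) = (m * T : ℕ) + r := by
      rw [hnm]
      push_cast
      ring
    have h10 : (c - e) * r ≤ |c - e| * T := by
      calc (c - e) * r ≤ |c - e| * r :=
            mul_le_mul_of_nonneg_right (le_abs_self _) (Nat.cast_nonneg r)
        _ ≤ |c - e| * T := mul_le_mul_of_nonneg_left hrT (abs_nonneg _)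
    have h11 : (|c - e| + C) * T ≤ e * n := by
      rw [div_le_iff₀ he0] at hn₁
      have : (n₁ : ℝ) * e ≤ n * e := mul_le_mul_of_nonneg_right hn2 he0.le
      linarith
    have h12 : (c - ε) * n = (c - e) * ((m * T : ℕ) + r) - e * n := by
      rw [← h9, he]
      ring
    rw [h12]
    linarith

end Pool.Agent.QCD
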