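import Pool.Agent.Lib.MP_f30fea_an.Base
import Pool.Agent.Lib.MP_f30fea_an.Ker

/-!
# Continuity of the increments in the coefficient

`kk_tendsto`: dominated convergence with the bound `1/(‖ζ-a‖ ‖ζ-m‖ ‖ζ-b‖)` (`ker_int` with `m = a + r/2`,
`h = r/2`).  `lft (ν n) ζ → lft μ ζ` for almost every `ζ` with positive imaginary part: the preimage
under `ee` of a null set is null (cover the plane by countably many open sets on which `ee` is injective; on each
`∫_{ee '' A}` ... `= ∫_A ‖2π ee ζ‖²`, `lintegral_abs_det_fderiv_eq_addHaar_image`; or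
`MeasureTheory.measure_preimage_...` for local homeomorphisms with smooth local inverses,
`addHaar_image_eq_zero_of_differentiableOn_of_addHaar_eq_zero`).
-/

open Complex MeasureTheory Filter Topology Set
open scoped ContDiff ENNReal ComplexConjugate

noncomputable section

namespace Pool.Agent.QCD

private lemma kl_ne (ζ : ℂ) : ee ζ ≠ 0 := exp_ne_zero _

private lemma kl_der (ζ : ℂ) : HasStrictDerivAt ee (ee ζ * (2 * Real.pi * I)) ζ := by
  have h := (HasStrictDerivAt.const_mul (2 * Real.pi * I) (hasStrictDerivAt_id ζ)).cexp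
  rw [mul_one] at h
  exact h

private lemma kl_two_pi : (2 * Real.pi * I : ℂ) ≠ 0 := by
  simp [Real.pi_ne_zero]

/-- preimages of null sets under `ee` are null sets -/
private lemma kl_null {N : Set ℂ} (hN : volume N = 0) : volume (ee ⁻¹' N) = 0 := by
  refine measure_null_of_locally_null _ fun x _ => ?_
  have h := (kl_der x).hasStrictFDerivAt_equiv (mul_ne_zero (kl_ne x) kl_two_pi)
  set e := h.toOpenPartialHomeomorph ee with he
  refine ⟨ee ⁻¹' N ∩ e.source, inter_mem self_mem_nhdsWithin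
    (mem_nhdsWithin_of_mem_nhds (e.open_source.mem_nhds h.mem_toOpenPartialHomeomorph_source)), ?_⟩
  have h1 : ee ⁻¹' N ∩ e.source ⊆ e.symm '' (N ∩ e.target) := by
    rintro z ⟨hz, hz2⟩
    exact ⟨e z, ⟨hz, e.map_source hz2⟩, e.left_inv hz2⟩
  refine measure_mono_null h1 ?_
  refine addHaar_image_eq_zero_of_differentiableOn_of_addHaar_eq_zero _ ?_
    (measure_mono_null inter_subset_left hN)
  intro y hy
  have h2 : HasStrictDerivAt e (ee (e.symm y) * (2 * Real.pi * I)) (e.symm y) :=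
    kl_der (e.symm y)
  exact ((e.hasStrictDerivAt_symm hy.2 (mul_ne_zero (kl_ne _) kl_two_pi)
    h2).hasDerivAt.differentiableAt.restrictScalars ℝ).differentiableWithinAt

private lemma kl_meas {μ : ℂ → ℂ} (hμ : Measurable μ) : Measurable (lft μ) := by
  have h : Measurable ee := by
    have : Continuous ee := by unfold ee; fun_prop
    exact this.measurable
  have hc : Measurable fun z : ℂ => conj z := Complex.continuous_conj.measurable
  unfold lft
  exact (((hμ.comp h).neg).mul (hc.comp h)).div h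

private lemma kl_bd {μ : ℂ → ℂ} (h : ∀ z, ‖μ z‖ ≤ 1) (ζ : ℂ) : ‖lft μ ζ‖ ≤ 1 := by
  unfold lft
  rw [norm_div, norm_mul, norm_neg, Complex.norm_conj, mul_div_assoc,
    div_self (norm_ne_zero_iff.2 (kl_ne ζ)), mul_one]
  exact h _

theorem kk_tendsto {μ : ℂ → ℂ} {ν : ℕ → ℂ → ℂ} (hμ : Measurable μ) (hν : ∀ n, Measurable (ν n))
    (h1 : ∀ n z, ‖ν n z‖ ≤ 1) (h : ∀ᵐ z, Tendsto (fun n => ν n z) atTop (𝓝 (μ z))) (a r : ℝ)
    (hr : 0 < r) :
    Tendsto (fun n => kk (lft (ν n)) a r) atTop (𝓝 (kk (lft μ) a r)) := by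
  obtain ⟨C, hC, hk⟩ := ker_int
  have hh : ((r / 2 : ℝ) : ℂ) ≠ 0 := by
    exact_mod_cast (by positivity : (r / 2 : ℝ) ≠ 0)
  obtain ⟨hi, -⟩ := hk ((a + r / 2 : ℝ) : ℂ) ((r / 2 : ℝ) : ℂ) hh
  have hae : ∀ᵐ ζ : ℂ, Tendsto (fun n => lft (ν n) ζ) atTop (𝓝 (lft μ ζ)) := by
    have h2 : ∀ᵐ ζ : ℂ, Tendsto (fun n => ν n (ee ζ)) atTop (𝓝 (μ (ee ζ))) := by
      rw [ae_iff] at h ⊢
      exact kl_null h
    filter_upwards [h2] with ζ hζ
    unfold lft
    exact ((hζ.neg).mul_const _).div_const _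
  unfold kk
  refine Tendsto.const_mul _ ((Complex.continuous_im.tendsto _).comp ?_)
  refine tendsto_integral_of_dominated_convergence
    (fun ζ => 1 / (‖ζ - ((a + r / 2 : ℝ) : ℂ)‖ * ‖ζ - (((a + r / 2 : ℝ) : ℂ) + ((r / 2 : ℝ) : ℂ))‖ *
        ‖ζ - (((a + r / 2 : ℝ) : ℂ) - ((r / 2 : ℝ) : ℂ))‖)) (fun n => ?_) hi.integrableOn
    (fun n => Eventually.of_forall fun ζ => ?_) (ae_restrict_of_ae ?_)
  · refine (Measurable.div (kl_meas (hν n)) ?_).aestronglyMeasurable
    fun_prop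
  · have e1 : ((a + r / 2 : ℝ) : ℂ) + ((r / 2 : ℝ) : ℂ) = a + r := by push_cast; ring
    have e2 : ((a + r / 2 : ℝ) : ℂ) - ((r / 2 : ℝ) : ℂ) = a := by push_cast; ring
    have e3 : ((a + r / 2 : ℝ) : ℂ) = a + r / 2 := by push_cast; ring
    rw [e1, e2, e3, norm_div, norm_mul, norm_mul]
    have e4 : ‖ζ - ↑a‖ * ‖ζ - (↑a + ↑r / 2)‖ * ‖ζ - (↑a + ↑r)‖ =
        ‖ζ - (↑a + ↑r / 2)‖ * ‖ζ - (↑a + ↑r)‖ * ‖ζ - ↑a‖ := by ring
    rw [e4]
    exact div_le_div_of_nonneg_right (kl_bd (h1 n) ζ) (by positivity)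
  · filter_upwards [hae] with ζ hζ
    exact hζ.div_const _

theorem kk_congr {α β : ℂ → ℂ} (h : ∀ ζ : ℂ, 0 < ζ.im → α ζ = β ζ) (a r : ℝ) :
    kk α a r = kk β a r := by
  unfold kk
  rw [setIntegral_congr_fun (isOpen_lt continuous_const Complex.continuous_im).measurableSet
    (fun ζ hζ => by
      show _ = β ζ / ((ζ - a) * (ζ - (a + r / 2)) * (ζ - (a + r)))
      rw [h ζ hζ])]

end Pool.Agent.QCD
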