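import Pool.Agent.Lib.MP_f30fea_an.Base
import Pool.Agent.Lib.MP_f30fea_an.L2Bound
import Pool.Agent.Lib.MP_f30fea_an.Wqs
import Pool.Agent.Lib.MP_f30fea_an.WqsLim

/-!
# A limit of smooth solutions is quasiconformal

`W n → W0` uniformly on bounded sets; `‖dz (W n)‖`, `‖dzb (W n)‖` are bounded in `L²` of every disc
(`l2_bound`, with uniform bounds for `W n` on discs from `wqs_bound`).  So for test `φ`:
`Λ φ := -∫ W0 dz φ = lim ∫ dz (W n) φ` satisfies `|Λ φ| ≤ C_r ‖φ‖_{L²}` for `φ` supported in the disc of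
radius `r`.  Existence of `g` with `LocL2 g`, `Λ φ = ∫ g φ`: Riesz representation in `L²` with respect
to the finite measure-weight `ω vol`, `ω z = 1/((1+‖z‖)^m ...)` chosen so that
`∫ ‖dz (W n)‖² ω ≤ 1` for all `n` (or Riesz on each disc and gluing, or weak sequential compactness of bounded
sets of a separable Hilbert space and a diagonal argument: `g_n ⇀ g`).  Same for `dzb` with limit `h`.
`h = μ g` a.e.: for a test function `φ`, `∫ h φ = lim ∫ ν_n dz (W n) φ`; and
`∫ μ g φ = lim ∫ μ dz (W n) φ` since `μ φ ∈ L²` with bounded support and `dz (W n) ⇀ g` weakly in `L²`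
of the disc (convergence against test functions plus boundedness; test functions are dense).  The
difference is `≤ ‖dz W_n‖_{L²} ‖(ν_n - μ) φ‖_{L²} → 0`.  Conclude with
`ae_eq_zero_of_integral_contDiff_smul_eq_zero` (real valued test functions suffice).
The measurable `μ` in `IsQC` is `μ` itself.
-/

open Complex MeasureTheory Filter Topology Set
open scoped ContDiff ENNReal ComplexConjugate

noncomputable section

namespace Pool.Agent.QCD

private theorem lq_weak (F : ℕ → ℂ → ℂ) (hm : ∀ n, MemLp (F n) 2 (volume : Measure ℂ))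
    (hb : ∀ n, eLpNorm (F n) 2 (volume : Measure ℂ) ≤ 1) :
    ∃ (G : ℂ → ℂ) (φ : ℕ → ℕ), MemLp G 2 (volume : Measure ℂ) ∧ StrictMono φ ∧
      ∀ (u : ℕ → ℂ → ℂ) (v : ℂ → ℂ), (∀ n, MemLp (u n) 2 (volume : Measure ℂ)) →
        MemLp v 2 (volume : Measure ℂ) →
        Tendsto (fun n => eLpNorm (u n - v) 2 (volume : Measure ℂ)) atTop (𝓝 0) →
        Tendsto (fun n => ∫ z, F (φ n) z * u n z) atTop (𝓝 (∫ z, G z * v z)) := by
  have hstar : ∀ n, MemLp (fun z => conj (F n z)) 2 (volume : Measure ℂ) := fun n => (hm n).star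
  have hsn : ∀ n, eLpNorm (fun z => conj (F n z)) 2 (volume : Measure ℂ) ≤ 1 := by
    intro n
    refine le_trans (le_of_eq ?_) (hb n)
    exact eLpNorm_congr_norm_ae (Eventually.of_forall fun z => by simp)
  let H : ℕ → Lp ℂ 2 (volume : Measure ℂ) := fun n => (hstar n).toLp
  have hH : ∀ n, ‖H n‖ ≤ 1 := by
    intro n
    rw [Lp.norm_toLp]
    exact ENNReal.toReal_le_of_le_ofReal zero_le_one (by simpa using hsn n)
  have key : ∀ (n : ℕ) (u : ℂ → ℂ) (hu : MemLp u 2 (volume : Measure ℂ)),
      inner ℂ (H n) (hu.toLp) = ∫ z, F n z * u z := by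
    intro n u hu
    rw [L2.inner_def]
    refine integral_congr_ae ?_
    filter_upwards [(hstar n).coeFn_toLp, hu.coeFn_toLp] with z h1 h2
    have h1' : (H n) z = conj (F n z) := h1
    rw [h1', h2]
    simp [mul_comm]
  let x : ℕ → WeakDual ℂ (Lp ℂ 2 (volume : Measure ℂ)) := fun n =>
    StrongDual.toWeakDual (InnerProductSpace.toDual ℂ (Lp ℂ 2 (volume : Measure ℂ)) (H n))
  have hx : ∀ n, x n ∈ WeakDual.toStrongDual ⁻¹' Metric.closedBall
      (0 : StrongDual ℂ (Lp ℂ 2 (volume : Measure ℂ))) 1 := by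
    intro n
    simp only [x, mem_preimage, mem_closedBall_zero_iff]
    simpa using hH n
  have : Fact ((2 : ℝ≥0∞) ≠ ⊤) := ⟨by simp⟩
  obtain ⟨a, ha, φ, hφ, hlim⟩ := WeakDual.isSeqCompact_closedBall ℂ
    (Lp ℂ 2 (volume : Measure ℂ)) 0 1 hx
  let H0 : Lp ℂ 2 (volume : Measure ℂ) :=
    (InnerProductSpace.toDual ℂ (Lp ℂ 2 (volume : Measure ℂ))).symm (WeakDual.toStrongDual a)
  have hlim' : ∀ y : Lp ℂ 2 (volume : Measure ℂ),
      Tendsto (fun n => inner ℂ (H (φ n)) y) atTop (𝓝 (inner ℂ H0 y)) := by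
    intro y
    have h1 := (WeakDual.eval_continuous (𝕜 := ℂ) y).continuousAt.tendsto.comp hlim
    have h2 : inner ℂ H0 y = a y := by
      simp only [H0, InnerProductSpace.toDual_symm_apply]
      rfl
    rw [h2]
    exact h1
  refine ⟨fun z => conj (H0 z), φ, (Lp.memLp H0).star, hφ, ?_⟩
  intro u v hu hv huv
  have e1 : ∫ z, conj (H0 z) * v z = inner ℂ H0 hv.toLp := by
    rw [L2.inner_def]
    refine integral_congr_ae ?_
    filter_upwards [hv.coeFn_toLp] with z h2
    rw [h2]
    simp [mul_comm]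
  rw [e1]
  have e2 : ∀ n, ∫ z, F (φ n) z * u n z = inner ℂ (H (φ n)) hv.toLp
      + inner ℂ (H (φ n)) ((hu n).toLp - hv.toLp) := by
    intro n
    rw [← key (φ n) (u n) (hu n), ← inner_add_right]
    simp
  simp_rw [e2]
  have e3 : Tendsto (fun n => inner ℂ (H (φ n)) ((hu n).toLp - hv.toLp)) atTop (𝓝 (0 : ℂ)) := by
    rw [tendsto_zero_iff_norm_tendsto_zero]
    have e4 : Tendsto (fun n => ‖(hu n).toLp - hv.toLp‖) atTop (𝓝 0) := by
      have := (ENNReal.tendsto_toReal ENNReal.zero_ne_top).comp huv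
      simp only [ENNReal.toReal_zero] at this
      refine this.congr fun n => ?_
      rw [← MemLp.toLp_sub, Lp.norm_toLp]
      rfl
    refine squeeze_zero (fun n => norm_nonneg _) (fun n => ?_) e4
    calc _ ≤ ‖H (φ n)‖ * ‖(hu n).toLp - hv.toLp‖ := norm_inner_le_norm _ _
      _ ≤ 1 * ‖(hu n).toLp - hv.toLp‖ := by
          gcongr
          exact hH _
      _ = _ := one_mul _
  simpa using (hlim' hv.toLp).add e3

private theorem lq_weight (D : ℕ → ℂ → ℂ) (hD : ∀ n, Continuous (D n)) (B : ℕ → ℝ)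
    (hB : ∀ n m : ℕ, ∫ z in Metric.closedBall (0 : ℂ) m, ‖D n z‖ ^ 2 ≤ B m) :
    ∃ κ : ℂ → ℝ, Measurable κ ∧ (∀ z, 0 < κ z) ∧
      (∀ r : ℝ, ∃ c : ℝ, 0 < c ∧ ∀ z : ℂ, ‖z‖ ≤ r → c ≤ κ z) ∧
      ∀ n, MemLp (fun z => D n z * κ z) 2 (volume : Measure ℂ) ∧
        eLpNorm (fun z => D n z * κ z) 2 (volume : Measure ℂ) ≤ 1 := by
  let c : ℕ → ℝ := fun m => Real.sqrt ((1 / 2) ^ (m + 1) / (1 + |B m|))
  have hc : ∀ m, 0 < c m := fun m => Real.sqrt_pos.mpr (by positivity)
  have hc2 : ∀ m, c m ^ 2 * B m ≤ (1 / 2) ^ (m + 1) := by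
    intro m
    have h1 : c m ^ 2 = (1 / 2) ^ (m + 1) / (1 + |B m|) := Real.sq_sqrt (by positivity)
    rw [h1, div_mul_eq_mul_div, div_le_iff₀ (by positivity)]
    have h2 : B m ≤ 1 + |B m| := by linarith [le_abs_self (B m)]
    gcongr
  let κ : ℂ → ℝ := fun z => c ⌈‖z‖⌉₊
  have hκ : Measurable κ := (measurable_from_nat (f := c)).comp (Nat.measurable_ceil.comp measurable_norm)
  refine ⟨κ, hκ, fun z => hc _, ?_, ?_⟩
  · intro r
    have hne : (Finset.range (⌈r⌉₊ + 1)).Nonempty := ⟨0, by simp⟩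
    obtain ⟨m, hm, hmin⟩ := Finset.exists_min_image (Finset.range (⌈r⌉₊ + 1)) c hne
    refine ⟨c m, hc m, fun z hz => hmin _ ?_⟩
    rw [Finset.mem_range]
    exact Nat.lt_succ_of_le (Nat.ceil_mono hz)
  · intro n
    have hmeas : AEStronglyMeasurable (fun z => D n z * κ z) (volume : Measure ℂ) :=
      (hD n).aestronglyMeasurable.mul
        (Complex.measurable_ofReal.comp hκ).aestronglyMeasurable
    have hlt : eLpNorm (fun z => D n z * κ z) 2 (volume : Measure ℂ) ≤ 1 := by
      rw [eLpNorm_eq_lintegral_rpow_enorm_toReal (by simp) (by simp)]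
      refine ENNReal.rpow_le_one ?_ (by positivity)
      let A : ℕ → Set ℂ := fun m => {z : ℂ | ⌈‖z‖⌉₊ = m}
      have hA : ∀ m, MeasurableSet (A m) := fun m =>
        (Nat.measurable_ceil.comp measurable_norm) (measurableSet_singleton m)
      have hAd : Pairwise (Function.onFun Disjoint A) := by
        intro i j hij
        rw [Function.onFun, Set.disjoint_left]
        intro z hz hz'
        exact hij (hz.symm.trans hz')
      have hAu : ⋃ m, A m = univ := by
        ext z; simp [A]
      rw [← setLIntegral_univ, ← hAu, lintegral_iUnion hA hAd]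
      calc ∑' m, ∫⁻ z in A m, ‖D n z * κ z‖ₑ ^ (ENNReal.toReal 2)
          ≤ ∑' m : ℕ, (2 : ℝ≥0∞)⁻¹ ^ (m + 1) := by
            refine ENNReal.tsum_le_tsum fun m => ?_
            have hsub : A m ⊆ Metric.closedBall (0 : ℂ) m := by
              intro z hz
              rw [mem_closedBall_zero_iff]
              have : ⌈‖z‖⌉₊ = m := hz
              rw [← this]
              exact Nat.le_ceil _
            have hi : IntegrableOn (fun z => ‖D n z‖ ^ 2) (Metric.closedBall (0 : ℂ) m) :=
              ((hD n).norm.pow 2).continuousOn.integrableOn_compact (isCompact_closedBall _ _)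
            calc ∫⁻ z in A m, ‖D n z * κ z‖ₑ ^ (ENNReal.toReal 2)
                = ∫⁻ z in A m, ENNReal.ofReal (c m ^ 2) * ENNReal.ofReal (‖D n z‖ ^ 2) := by
                  refine setLIntegral_congr_fun (hA m) fun z hz => ?_
                  have h1 : κ z = c m := by
                    have : ⌈‖z‖⌉₊ = m := hz
                    simp only [κ, this]
                  rw [h1, ← ofReal_norm, ENNReal.toReal_ofNat, ENNReal.rpow_ofNat,
                    ← ENNReal.ofReal_pow (norm_nonneg _), ← ENNReal.ofReal_mul (by positivity)]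
                  congr 1
                  rw [norm_mul, Complex.norm_real, Real.norm_of_nonneg (hc m).le]
                  ring
              _ ≤ ∫⁻ z in Metric.closedBall (0 : ℂ) m,
                    ENNReal.ofReal (c m ^ 2) * ENNReal.ofReal (‖D n z‖ ^ 2) :=
                  lintegral_mono_set hsub
              _ = ENNReal.ofReal (c m ^ 2) * ENNReal.ofReal
                    (∫ z in Metric.closedBall (0 : ℂ) m, ‖D n z‖ ^ 2) := by
                  rw [lintegral_const_mul' _ _ ENNReal.ofReal_ne_top,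
                    ofReal_integral_eq_lintegral_ofReal hi
                      (Eventually.of_forall fun z => by positivity)]
              _ ≤ ENNReal.ofReal (c m ^ 2) * ENNReal.ofReal (B m) := by
                  gcongr
                  exact hB n m
              _ = ENNReal.ofReal (c m ^ 2 * B m) := by
                  rw [ENNReal.ofReal_mul (by positivity)]
              _ ≤ ENNReal.ofReal ((1 / 2) ^ (m + 1)) := ENNReal.ofReal_le_ofReal (hc2 m)
              _ = (2 : ℝ≥0∞)⁻¹ ^ (m + 1) := by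
                  rw [ENNReal.ofReal_pow (by positivity)]
                  congr 1
                  rw [one_div, ENNReal.ofReal_inv_of_pos two_pos]
                  simp
        _ = 1 := by
            rw [ENNReal.tsum_geometric_add_one]
            rw [ENNReal.one_sub_inv_two, inv_inv]
            exact ENNReal.inv_mul_cancel (by simp) (by simp)
    exact ⟨⟨hmeas, hlt.trans_lt ENNReal.one_lt_top⟩, hlt⟩

private theorem lq_unif (W : ℕ → (ℂ ≃ₜ ℂ)) (W0 : ℂ ≃ₜ ℂ)
    (h : ∀ r, TendstoUniformlyOn (fun n z => W n z) W0 atTop (Metric.closedBall 0 r)) (r : ℝ) :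
    ∃ R : ℝ, ∀ n z, ‖z‖ ≤ r → ‖W n z‖ ≤ R := by
  have hcp : IsCompact (Metric.closedBall (0 : ℂ) r) := isCompact_closedBall _ _
  obtain ⟨M0, hM0⟩ := hcp.exists_bound_of_continuousOn W0.continuous.continuousOn
  choose M hM using fun n => hcp.exists_bound_of_continuousOn (W n).continuous.continuousOn
  have h1 := (Metric.tendstoUniformlyOn_iff.mp (h r)) 1 one_pos
  obtain ⟨N, hN⟩ := eventually_atTop.mp h1
  refine ⟨|M0| + 1 + ∑ n ∈ Finset.range N, |M n|, fun n z hz => ?_⟩
  have hz' : z ∈ Metric.closedBall (0 : ℂ) r := mem_closedBall_zero_iff.mpr hz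
  have hs : 0 ≤ ∑ n ∈ Finset.range N, |M n| := Finset.sum_nonneg fun i _ => abs_nonneg _
  rcases lt_or_ge n N with hn | hn
  · have h2 : |M n| ≤ ∑ n ∈ Finset.range N, |M n| :=
      Finset.single_le_sum (f := fun n => |M n|) (fun i _ => abs_nonneg _)
        (Finset.mem_range.mpr hn)
    have h3 := hM n z hz'
    linarith [le_abs_self (M n), abs_nonneg M0]
  · have h2 := hN n hn z hz'
    rw [dist_eq_norm] at h2
    have h3 : ‖W n z‖ ≤ ‖W0 z‖ + ‖W0 z - W n z‖ := by
      have := norm_sub_le (W0 z) (W0 z - W n z)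
      simpa using this
    have h4 := hM0 z hz'
    linarith [le_abs_self M0]

private theorem lq_dom (f : ℕ → ℂ → ℂ) (g : ℂ → ℝ)
    (hf : ∀ n, AEStronglyMeasurable (f n) (volume : Measure ℂ))
    (hg : MemLp g 2 (volume : Measure ℂ)) (hfg : ∀ n, ∀ᵐ z, ‖f n z‖ ≤ g z)
    (hl : ∀ᵐ z, Tendsto (fun n => f n z) atTop (𝓝 0)) :
    Tendsto (fun n => eLpNorm (f n) 2 (volume : Measure ℂ)) atTop (𝓝 0) := by
  have h1 : Tendsto (fun n => ∫⁻ z, ‖f n z‖ₑ ^ (ENNReal.toReal 2)) atTop (𝓝 (∫⁻ z : ℂ, 0)) := by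
    refine tendsto_lintegral_of_dominated_convergence' (fun z => ‖g z‖ₑ ^ (ENNReal.toReal 2))
      (fun n => (hf n).enorm.pow_const _) ?_ ?_ ?_
    · intro n
      filter_upwards [hfg n] with z hz
      gcongr
      exact enorm_le_iff_norm_le.mpr (hz.trans (le_abs_self _))
    · have := hg.eLpNorm_lt_top
      rw [eLpNorm_eq_lintegral_rpow_enorm_toReal (by simp) (by simp)] at this
      exact ((ENNReal.rpow_lt_top_iff_of_pos (by simp)).mp this).ne
    · filter_upwards [hl] with z hz
      have h2 : Tendsto (fun n => ‖f n z‖ₑ) atTop (𝓝 0) := by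
        simpa using hz.enorm
      have h3 := ((ENNReal.continuous_pow 2).tendsto 0).comp h2
      simpa [Function.comp_def] using h3
  simp only [lintegral_zero] at h1
  have h4 := (ENNReal.continuous_rpow_const (y := 1 / ENNReal.toReal 2)).tendsto 0 |>.comp h1
  have h5 : (0 : ℝ≥0∞) ^ (1 / ENNReal.toReal 2) = 0 := ENNReal.zero_rpow_of_pos (by simp)
  rw [h5] at h4
  refine h4.congr fun n => ?_
  rw [eLpNorm_eq_lintegral_rpow_enorm_toReal (by simp) (by simp)]
  rfl

theorem limit_qc : ∃ r : ℝ, 0 < r ∧ r < 1 ∧ ∀ k, 0 ≤ k → k ≤ r →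
    ∀ (μ : ℂ → ℂ) (ν : ℕ → ℂ → ℂ) (W : ℕ → (ℂ ≃ₜ ℂ)) (W0 : ℂ ≃ₜ ℂ), Measurable μ →
      (∀ n, Coef k (ν n)) → (∀ n, Nice (ν n) (W n)) →
      (∀ᵐ z, Tendsto (fun n => ν n z) atTop (𝓝 (μ z))) →
      (∀ r, TendstoUniformlyOn (fun n z => W n z) W0 atTop (Metric.closedBall 0 r)) →
      IsQC k W0 := by
  refine ⟨1 / 2, by norm_num, by norm_num, ?_⟩
  intro k hk0 hk μ ν W W0 hμ hν hW hlim hunif
  have hk1 : k < 1 := by linarith
  choose R hR using fun m : ℕ => lq_unif W W0 hunif m
  obtain ⟨κ, hκm, hκpos, hκlow, hF⟩ := lq_weight (fun n => dz (W n))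
    (fun n => (dz_smooth (hW n).smooth).continuous) (fun m => Real.pi * R m ^ 2 / (1 - k ^ 2))
    (fun n m => l2_bound hk0 hk1 (hν n).le (hW n) (hR m n))
  obtain ⟨G, ψ, hG, hψ, hweak⟩ := lq_weak (fun n z => dz (W n) z * κ z) (fun n => (hF n).1)
    (fun n => (hF n).2)
  have hμk : ∀ᵐ z, ‖μ z‖ ≤ k := by
    filter_upwards [hlim] with z hz
    exact le_of_tendsto hz.norm (Eventually.of_forall fun n => (hν n).le z)
  have hκc : Measurable fun z => (κ z : ℂ) := Complex.measurable_ofReal.comp hκm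
  have hκne : ∀ z, (κ z : ℂ) ≠ 0 := fun z => by exact_mod_cast (hκpos z).ne'
  let g : ℂ → ℂ := fun z => G z / κ z
  have hgm : AEStronglyMeasurable g (volume : Measure ℂ) := by
    have : g = fun z => G z * ((κ z : ℂ))⁻¹ := by ext z; simp [g, div_eq_mul_inv]
    rw [this]
    exact hG.aestronglyMeasurable.mul (hκc.inv).aestronglyMeasurable
  have hg : LocL2 g := by
    intro r
    obtain ⟨c, hc, hcκ⟩ := hκlow r
    refine (hG.restrict (Metric.closedBall (0 : ℂ) r)).of_le_mul (c := 1 / c) hgm.restrict ?_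
    refine (ae_restrict_iff' Metric.isClosed_closedBall.measurableSet).mpr
      (Eventually.of_forall fun z hz => ?_)
    have h1 := hcκ z (mem_closedBall_zero_iff.mp hz)
    simp only [g, norm_div, Complex.norm_real, Real.norm_of_nonneg (hκpos z).le]
    rw [div_eq_mul_one_div, mul_comm]
    gcongr
  have hh : LocL2 fun z => μ z * g z := by
    intro r
    refine (hg r).of_le_mul (c := k) (hμ.aestronglyMeasurable.mul hgm).restrict ?_
    filter_upwards [ae_restrict_of_ae hμk] with z hz
    rw [norm_mul]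
    gcongr
  refine ⟨g, fun z => μ z * g z, μ, hg, hh, ?_, hμ, hμk, Eventually.of_forall fun z => rfl⟩
  intro φ hφ
  obtain ⟨M, r, hM0, hr, hM, hout⟩ := hφ.bound
  obtain ⟨c, hc, hcκ⟩ := hκlow r
  -- the integrals over `W`
  have hpt : ∀ z, Tendsto (fun n => W (ψ n) z) atTop (𝓝 (W0 z)) := fun z =>
    ((hunif ‖z‖).tendsto_at (mem_closedBall_zero_iff.mpr le_rfl)).comp hψ.tendsto_atTop
  have hint : ∀ p : ℂ → ℂ, IsTest p → Tendsto (fun n => ∫ z, W (ψ n) z * p z) atTop
      (𝓝 (∫ z, W0 z * p z)) := by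
    intro p hp
    obtain ⟨M', r', -, -, -, hout'⟩ := hp.bound
    obtain ⟨R', hR'⟩ := lq_unif W W0 hunif r'
    refine tendsto_integral_of_dominated_convergence (fun z => R' * ‖p z‖) (fun n => ?_) ?_
      (fun n => Eventually.of_forall fun z => ?_)
      (Eventually.of_forall fun z => (hpt z).mul_const _)
    · exact ((W (ψ n)).continuous.mul hp.1.continuous).aestronglyMeasurable
    · exact (hp.1.continuous.integrable_of_hasCompactSupport hp.2).norm.const_mul _
    · rcases le_or_gt ‖z‖ r' with hz | hz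
      · rw [norm_mul]
        gcongr
        exact hR' _ z hz
      · rw [hout' z hz]
        simp
  -- the test functions
  have hgb : MemLp ((Metric.closedBall (0 : ℂ) r).indicator fun _ => (M / c : ℝ)) 2
      (volume : Measure ℂ) :=
    memLp_indicator_const 2 Metric.isClosed_closedBall.measurableSet _
      (Or.inr (isCompact_closedBall _ _).measure_lt_top.ne)
  have hbd : ∀ (p : ℂ → ℂ) (a : ℝ) (z : ℂ), ‖p z‖ ≤ a →
      ‖p z * (φ z / κ z)‖ ≤ a * (Metric.closedBall (0 : ℂ) r).indicator (fun _ => (M / c : ℝ)) z := by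
    intro p a z hp
    rcases le_or_gt ‖z‖ r with hz | hz
    · rw [indicator_of_mem (mem_closedBall_zero_iff.mpr hz), norm_mul, norm_div, Complex.norm_real,
        Real.norm_of_nonneg (hκpos z).le]
      have h1 : ‖φ z‖ / κ z ≤ M / c := div_le_div₀ hM0 (hM z) hc (hcκ z hz)
      exact mul_le_mul hp h1 (div_nonneg (norm_nonneg _) (hκpos z).le)
        ((norm_nonneg _).trans hp)
    · rw [hout z hz]
      simp only [zero_div, mul_zero, norm_zero]
      refine mul_nonneg ((norm_nonneg _).trans hp) (indicator_nonneg (fun _ _ => by positivity) _)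
  have hφκ : AEStronglyMeasurable (fun z => φ z / κ z) (volume : Measure ℂ) := by
    have : (fun z => φ z / κ z) = fun z => φ z * ((κ z : ℂ))⁻¹ := by
      ext z; simp [div_eq_mul_inv]
    rw [this]
    exact hφ.1.continuous.aestronglyMeasurable.mul (hκc.inv).aestronglyMeasurable
  have hmem : ∀ (p : ℂ → ℂ) (a : ℝ), AEStronglyMeasurable p (volume : Measure ℂ) →
      (∀ᵐ z, ‖p z‖ ≤ a) → MemLp (fun z => p z * (φ z / κ z)) 2 (volume : Measure ℂ) := by
    intro p a hp hpa
    refine (hgb.const_mul a).mono' (hp.mul hφκ) ?_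
    filter_upwards [hpa] with z hz
    exact hbd p a z hz
  constructor
  · have h1 := hint (dz φ) hφ.dz
    have h2 := hweak (fun _ z => φ z / κ z) (fun z => φ z / κ z)
      (fun _ => by simpa using hmem (fun _ => 1) 1 aestronglyMeasurable_const (by simp))
      (by simpa using hmem (fun _ => 1) 1 aestronglyMeasurable_const (by simp))
      (by simp)
    have h3 : ∀ n, ∫ z, W (ψ n) z * dz φ z
        = -∫ z, dz (W (ψ n)) z * κ z * (φ z / κ z) := by
      intro n
      rw [integral_parts_dz hφ (hW (ψ n)).smooth]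
      congr 2
      ext z
      field_simp [hκne z]
    simp_rw [h3] at h1
    have h4 := tendsto_nhds_unique h1 h2.neg
    rw [h4]
    congr 2
    ext z
    simp only [g]
    ring
  · have h1 := hint (dzb φ) hφ.dzb
    have hcont : ∀ n, AEStronglyMeasurable (ν n) (volume : Measure ℂ) := fun n =>
      (hν n).test.1.continuous.aestronglyMeasurable
    have h2 := hweak (fun n z => ν (ψ n) z * (φ z / κ z)) (fun z => μ z * (φ z / κ z))
      (fun n => hmem (ν (ψ n)) k (hcont _) (Eventually.of_forall (hν (ψ n)).le))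
      (hmem μ k hμ.aestronglyMeasurable hμk) ?_
    · have h3 : ∀ n, ∫ z, W (ψ n) z * dzb φ z
          = -∫ z, dz (W (ψ n)) z * κ z * (ν (ψ n) z * (φ z / κ z)) := by
        intro n
        rw [integral_parts_dzb hφ (hW (ψ n)).smooth]
        congr 2
        ext z
        rw [(hW (ψ n)).bel z]
        field_simp [hκne z]
      simp_rw [h3] at h1
      have h4 := tendsto_nhds_unique h1 h2.neg
      rw [h4]
      congr 2
      ext z
      simp only [g]
      ring
    · have h5 : ∀ n, (fun z => ν (ψ n) z * (φ z / κ z)) - (fun z => μ z * (φ z / κ z))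
          = fun z => (ν (ψ n) z - μ z) * (φ z / κ z) := by
        intro n; ext z; simp only [Pi.sub_apply]; ring
      simp_rw [h5]
      refine lq_dom _ _ (fun n => ((hcont _).sub hμ.aestronglyMeasurable).mul hφκ)
        (hgb.const_mul (2 * k)) (fun n => ?_) ?_
      · filter_upwards [hμk] with z hz
        refine hbd (fun z => ν (ψ n) z - μ z) (2 * k) z ?_
        calc ‖ν (ψ n) z - μ z‖ ≤ ‖ν (ψ n) z‖ + ‖μ z‖ := norm_sub_le _ _
          _ ≤ k + k := add_le_add ((hν _).le z) hz
          _ = 2 * k := by ring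
      · filter_upwards [hlim] with z hz
        have h6 : Tendsto (fun n => ν (ψ n) z - μ z) atTop (𝓝 0) := by
          simpa using (hz.comp hψ.tendsto_atTop).sub_const (μ z)
        simpa using h6.mul_const (φ z / κ z)

end Pool.Agent.QCD
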