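import Pool.Agent.Lib.MP_f30fea_an.Base
import Pool.Agent.Lib.MP_f30fea_an.PlaneQ
import Pool.Agent.Lib.MP_f30fea_an.KkLim
import Pool.Agent.Lib.MP_f30fea_an.Down
import Pool.Agent.Lib.MP_f30fea_an.Mollify
import Pool.Agent.Lib.MP_f30fea_an.Family
import Pool.Agent.Lib.MP_f30fea_an.Wqs
import Pool.Agent.Lib.MP_f30fea_an.WqsLim
import Pool.Agent.Lib.MP_f30fea_an.LimitQC

/-!
# Extremal quasicircles as limits

`μ` from `exists_down`, `ν i` from `exists_anti_approx` for `μ`, `w i` from `exists_family` for `ν i`, `Q i` from `plane_q`.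
`W i = w i k` is `Nice (k ν i)`, `Coef k (k ν i)`, and `WQS` (`wqs_family`/`wqs_nice`, `k₀` small).  By `wqs_compact` a
subsequence of `W i` converges uniformly on bounded sets to a homeomorphism `W0` with `WQS`; by `limit_qc`
(coefficient `k μ`) it is `IsQC k`.  `|Q i n j| ≤ C n` (induction, ancestors), so for a further subsequence
`Q i n j` converges for all `n`, `j < 2^n` (compactness of a countable product of intervals, `tendsto_subseq` in
`ℕ × ℕ → [-Cn, Cn]`, e.g. `isCompact_univ_pi`; put `Q n j = 0` for `j ≥ 2^n`).  All statements pass to the limit: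
`kk_tendsto`, `lft μ = β` on the upper half-plane (`kk_congr`).
-/

open Complex MeasureTheory Filter Topology Set
open scoped ContDiff ENNReal ComplexConjugate

noncomputable section

namespace Pool.Agent.QCD

private lemma ll_bd {C : ℝ} {Q : ℕ → ℕ → ℝ} (h0 : Q 0 0 = 0)
    (h : ∀ n j : ℕ, j < 2 ^ n → |Q (n + 1) (2 * j) - Q n j| ≤ C ∧
        |Q (n + 1) (2 * j + 1) - Q n j| ≤ C) :
    ∀ n j : ℕ, j < 2 ^ n → |Q n j| ≤ C * n := by
  intro n
  induction n with
  | zero =>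
    intro j hj
    have : j = 0 := by simpa using hj
    subst this
    simp [h0]
  | succ n ih =>
    intro j hj
    have h1 : j / 2 < 2 ^ n := by
      rw [pow_succ] at hj
      omega
    obtain ⟨ha, hb⟩ := h n (j / 2) h1
    have h2 := ih (j / 2) h1
    push_cast
    rcases Nat.even_or_odd' j with ⟨m, hm | hm⟩
    · have h3 : j / 2 = m := by omega
      rw [h3] at ha h2
      rw [hm]
      have h4 := abs_sub_abs_le_abs_sub (Q (n + 1) (2 * m)) (Q n m)
      linarith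
    · have h3 : j / 2 = m := by omega
      rw [h3] at hb h2
      rw [hm]
      have h4 := abs_sub_abs_le_abs_sub (Q (n + 1) (2 * m + 1)) (Q n m)
      linarith

/-- diagonal subsequence -/
private lemma ll_sub {C : ℝ} {Q : ℕ → ℕ → ℕ → ℝ}
    (h : ∀ i n j : ℕ, j < 2 ^ n → |Q i n j| ≤ C * n) :
    ∃ (a : ℕ → ℕ → ℝ) (ψ : ℕ → ℕ), StrictMono ψ ∧
      ∀ n j : ℕ, j < 2 ^ n → Tendsto (fun i => Q (ψ i) n j) atTop (𝓝 (a n j)) := by
  classical
  set K : Set (ℕ × ℕ → ℝ) := Set.pi univ fun p => Icc (-(|C| * (p.1 : ℝ))) (|C| * (p.1 : ℝ)) with hK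
  have hKc : IsCompact K := isCompact_univ_pi fun p => isCompact_Icc
  set q : ℕ → (ℕ × ℕ → ℝ) := fun i p => if p.2 < 2 ^ p.1 then Q i p.1 p.2 else 0 with hq
  have hqK : ∀ i, q i ∈ K := by
    intro i
    rw [hK, mem_univ_pi]
    rintro ⟨n, j⟩
    simp only [hq]
    by_cases hj : j < 2 ^ n
    · rw [if_pos hj]
      have h1 := abs_le.1 (h i n j hj)
      have h2 : C * n ≤ |C| * n := mul_le_mul_of_nonneg_right (le_abs_self C) (by positivity)
      constructor <;> linarith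
    · rw [if_neg hj]
      constructor
      · have : 0 ≤ |C| * (n : ℝ) := by positivity
        linarith
      · positivity
  obtain ⟨a, -, ψ, hψ, hlim⟩ := hKc.tendsto_subseq hqK
  refine ⟨fun n j => a (n, j), ψ, hψ, fun n j hj => ?_⟩
  have h1 := (tendsto_pi_nhds.1 hlim) (n, j)
  refine h1.congr fun i => ?_
  simp only [Function.comp, hq, if_pos hj]

theorem lower_limit : ∃ C k₀ : ℝ, 0 < C ∧ 0 < k₀ ∧ k₀ < 1 ∧ ∀ β, Env β →
    (∀ ζ, β (ζ + 1) = β ζ) → ∀ k : ℝ, 0 < k → k ≤ k₀ →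
    ∃ (W : ℂ ≃ₜ ℂ) (Q : ℕ → ℕ → ℝ), IsQC k W ∧ WQS W ∧ Q 0 0 = 0 ∧
      (∀ n j : ℕ, j < 2 ^ n → |Q (n + 1) (2 * j) - Q n j| ≤ C ∧
        |Q (n + 1) (2 * j + 1) - Q n j| ≤ C ∧
        Q (n + 1) (2 * j) + Q (n + 1) (2 * j + 1) - 2 * Q n j =
          kk β (j / 2 ^ n) (1 / 2 ^ n) ^ 2) ∧
      ∀ n j : ℕ, 6 ≤ n → j < 2 ^ n → Real.exp (k ^ 2 * Q n j - C * n * k ^ 4) / 2 ^ n ≤
        C * ‖W (ee (((j : ℝ) + 1) / 2 ^ n : ℝ)) - W (ee ((j : ℝ) / 2 ^ n : ℝ))‖ := by
  obtain ⟨C, k₁, hC, hk₁, hk₁', hplane⟩ := plane_q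
  obtain ⟨r, hr0, hr1, hwqs⟩ := wqs_family
  obtain ⟨r', hr0', hr1', hqc⟩ := limit_qc
  refine ⟨C, min k₁ (min r r'), hC, lt_min hk₁ (lt_min hr0 hr0'),
    lt_of_le_of_lt (min_le_left _ _) hk₁', fun β hβ hper k hk hkk => ?_⟩
  have hkk₁ : k ≤ k₁ := hkk.trans (min_le_left _ _)
  have hkr : k ≤ r := hkk.trans ((min_le_right _ _).trans (min_le_left _ _))
  have hkr' : k ≤ r' := hkk.trans ((min_le_right _ _).trans (min_le_right _ _))
  have hk1 : k < 1 := lt_of_le_of_lt hkr hr1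
  have hkn : ‖(k : ℂ)‖ = k := by rw [Complex.norm_real, Real.norm_of_nonneg hk.le]
  obtain ⟨μ, hμ, hs, hlft⟩ := exists_down hβ hper
  obtain ⟨ν, hν, hνs, hlim⟩ := exists_anti_approx hμ.1 (Eventually.of_forall hμ.2)
    (Eventually.of_forall hs)
  choose w hw using fun i => exists_family (hν i).test (hν i).le
  choose Q hQ0 hQ1 hQ2 using fun i => hplane (ν i) (w i) (hν i) (hνs i) (hw i)
  have hcoef : ∀ i, Coef k (fun z => (k : ℂ) * ν i z) := by
    intro i
    refine ⟨⟨contDiff_const.mul (hν i).test.1, (hν i).test.2.mul_left⟩, ?_, fun z => ?_⟩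
    · obtain ⟨ε, hε, h1⟩ := (hν i).van
      exact ⟨ε, hε, fun z hz => by rw [h1 z hz, mul_zero]⟩
    · rw [norm_mul, hkn]
      exact mul_le_of_le_one_right hk.le ((hν i).le z)
  have hnice : ∀ i, Nice (fun z => (k : ℂ) * ν i z) (w i k) := fun i =>
    (hw i).nice k (by rw [hkn]; exact hk1)
  have hW : ∀ i, WQS (w i k) := fun i => hwqs (ν i) (w i) (hw i) k (by rw [hkn]; exact hkr)
  obtain ⟨φ, hφ, v, hv, -, -, hu, -⟩ := wqs_compact (fun i => w i k) hW (fun i => (hnice i).zero)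
    (fun i => (hnice i).one)
  obtain ⟨a, ψ, hψ, ha⟩ := ll_sub (C := C) (Q := fun i => Q (φ i))
    (fun i => ll_bd (hQ0 (φ i)) fun n j hj =>
      ⟨(hQ1 (φ i) n j hj).1, (hQ1 (φ i) n j hj).2.1⟩)
  have hpt : ∀ z, Tendsto (fun i => w (φ (ψ i)) k z) atTop (𝓝 (v z)) := by
    intro z
    have h1 := (hu ‖z‖).tendsto_at (x := z) (by simp)
    exact h1.comp hψ.tendsto_atTop
  have hθ : Tendsto (fun i => φ (ψ i)) atTop atTop := hφ.tendsto_atTop.comp hψ.tendsto_atTop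
  refine ⟨v, a, ?_, hv, ?_, fun n j hj => ⟨?_, ?_, ?_⟩, fun n j hn hj => ?_⟩
  · refine hqc k hk.le hkr' (fun z => k * μ z) (fun i z => k * ν (φ i) z) (fun i => w (φ i) k) v
      (measurable_const.mul hμ.1) (fun i => hcoef (φ i)) (fun i => hnice (φ i)) ?_ hu
    filter_upwards [hlim] with z hz
    exact (hz.comp hφ.tendsto_atTop).const_mul (k : ℂ)
  · refine tendsto_nhds_unique (ha 0 0 (by norm_num)) ?_
    refine tendsto_const_nhds.congr fun i => ?_
    exact (hQ0 (φ (ψ i))).symm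
  · have h1 := (ha (n + 1) (2 * j) (by rw [pow_succ]; omega)).sub (ha n j hj)
    refine le_of_tendsto h1.abs (Eventually.of_forall fun i => ?_)
    exact (hQ1 (φ (ψ i)) n j hj).1
  · have h1 := (ha (n + 1) (2 * j + 1) (by rw [pow_succ]; omega)).sub (ha n j hj)
    refine le_of_tendsto h1.abs (Eventually.of_forall fun i => ?_)
    exact (hQ1 (φ (ψ i)) n j hj).2.1
  · have h1 := ((ha (n + 1) (2 * j) (by rw [pow_succ]; omega)).add
      (ha (n + 1) (2 * j + 1) (by rw [pow_succ]; omega))).sub ((ha n j hj).const_mul 2)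
    have h2 := (kk_tendsto hμ.1 (fun i => (hν (φ (ψ i))).test.1.continuous.measurable)
      (fun i z => (hν (φ (ψ i))).le z)
      (by filter_upwards [hlim] with z hz
          exact hz.comp hθ) (j / 2 ^ n) (1 / 2 ^ n) (by positivity)).pow 2
    rw [kk_congr hlft] at h2
    refine tendsto_nhds_unique h1 (h2.congr fun i => ?_)
    exact (hQ1 (φ (ψ i)) n j hj).2.2.symm
  · have h1 : Tendsto (fun i => Real.exp (k ^ 2 * Q (φ (ψ i)) n j - C * n * k ^ 4) / 2 ^ n) atTop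
        (𝓝 (Real.exp (k ^ 2 * a n j - C * n * k ^ 4) / 2 ^ n)) := by
      have h2 := ((ha n j hj).const_mul (k ^ 2)).sub_const (C * n * k ^ 4)
      exact ((Real.continuous_exp.tendsto _).comp h2).div_const _
    have h3 := (((hpt (ee (((j : ℝ) + 1) / 2 ^ n : ℝ))).sub
      (hpt (ee ((j : ℝ) / 2 ^ n : ℝ)))).norm).const_mul C
    refine le_of_tendsto_of_tendsto' h1 h3 fun i => ?_
    exact (hQ2 (φ (ψ i)) k hk.le hkk₁ n j hj).2 hn

end Pool.Agent.QCD
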