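import Pool.Agent.Lib.MP_f30fea_an.Base

/-!
# The mass distribution principle

Let `m = Measure.map γ (volume.restrict G)`, a finite measure on `ℂ` with `m (γ '' G) > 0` (`γ '' G ⊆ closure`...; use
`m` of a measurable superset, or the inequality `m ≤ K μH[t]` below applied to outer measures:
`m (γ '' G) ≥ volume (G ∩ γ⁻¹ (γ '' G)) = volume G`, `Measure.le_map_apply`).
Claim: there are `K` and `δ₀ > 0` with `m s ≤ K diam(s)^t` for every set `s` of diameter `≤ δ₀`: replace `s` by its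
closure.  If `diam s > 0` choose `n ≥ n₀` with `c 2^{-(n+1)/t} ≤ diam s < c 2^{-n/t}`; if `x ∈ G ∩ γ⁻¹ s` then every `y ∈ G ∩ γ⁻¹ s` satisfies
`|x - y| ≤ A/2^n` or `|x - y| ≥ 1 - A/2^n`, and `y ∈ [0,1)`, so `G ∩ γ⁻¹ s ⊆ [x - A/2^n, x + A/2^n] ∪ [0, A/2^n] ∪ [1 - A/2^n, 1]`, of
length `≤ 4 A/2^n ≤ 8 A (diam s / c)^t`.  If `diam s = 0` the same for all `n` gives `m s = 0`.
By `Measure.le_hausdorffMeasure` for the measure `K⁻¹ m`: `K⁻¹ m ≤ μH[t]`, so `μH[t] (γ '' G) > 0`, hence
`t ≤ dimH (γ '' G)` (`le_dimH_of_hausdorffMeasure_ne_zero`).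
-/

open Complex MeasureTheory Filter Topology Set
open scoped ContDiff ENNReal ComplexConjugate

noncomputable section

namespace Pool.Agent.QCD

private lemma md_vol {E : Set ℝ} (hE : E ⊆ Set.Ico 0 1) {a : ℝ} (ha : 0 ≤ a)
    (h : ∀ x ∈ E, ∀ y ∈ E, |x - y| ≤ a ∨ 1 - a ≤ |x - y|) : volume E ≤ ENNReal.ofReal (4 * a) := by
  rcases Set.eq_empty_or_nonempty E with hE0 | ⟨x, hx⟩
  · rw [hE0, measure_empty]
    exact zero_le
  · have hsub : E ⊆ Set.Icc (x - a) (x + a) ∪ (Set.Icc 0 a ∪ Set.Icc (1 - a) 1) := by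
      intro y hy
      have hx1 := hE hx
      have hy1 := hE hy
      rcases h x hx y hy with h1 | h1
      · left
        rw [abs_le] at h1
        constructor <;> linarith [h1.1, h1.2]
      · right
        rcases le_total y x with h2 | h2
        · left
          rw [abs_of_nonneg (by linarith)] at h1
          exact ⟨hy1.1, by linarith [hx1.2]⟩
        · right
          rw [abs_of_nonpos (by linarith)] at h1
          exact ⟨by linarith [hx1.1], hy1.2.le⟩
    calc volume E ≤ volume (Set.Icc (x - a) (x + a) ∪ (Set.Icc 0 a ∪ Set.Icc (1 - a) 1)) :=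
          measure_mono hsub
      _ ≤ volume (Set.Icc (x - a) (x + a)) + (volume (Set.Icc 0 a) + volume (Set.Icc (1 - a) 1)) :=
          (measure_union_le _ _).trans (add_le_add le_rfl (measure_union_le _ _))
      _ = ENNReal.ofReal (4 * a) := by
          rw [Real.volume_Icc, Real.volume_Icc, Real.volume_Icc, ← ENNReal.ofReal_add (by linarith)
            (by linarith), ← ENNReal.ofReal_add (by linarith) (by linarith)]
          congr 1
          ring

theorem mass_dim {γ : ℝ → ℂ} (hγ : Continuous γ) {G : Set ℝ} (hG : MeasurableSet G)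
    (hG1 : G ⊆ Set.Ico 0 1) (hv : 0 < volume G) {t c A : ℝ} (ht : 0 < t) (hc : 0 < c) (hA : 0 ≤ A)
    (n₀ : ℕ) (h : ∀ x ∈ G, ∀ y ∈ G, ∀ n : ℕ, n₀ ≤ n →
      ‖γ x - γ y‖ < c * (2 : ℝ) ^ (-((n : ℝ) / t)) →
      |x - y| ≤ A / 2 ^ n ∨ 1 - A / 2 ^ n ≤ |x - y|) :
    ENNReal.ofReal t ≤ dimH (γ '' G) := by
  set m : Measure ℂ := Measure.map γ (volume.restrict G) with hm
  have hmeas : Measurable γ := hγ.measurable
  obtain ⟨δ₀, hδ₀⟩ : ∃ δ₀, δ₀ = c * (2 : ℝ) ^ (-(((n₀ + 2 : ℕ) : ℝ) / t)) := ⟨_, rfl⟩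
  have hδ₀0 : 0 < δ₀ := by rw [hδ₀]; positivity
  obtain ⟨K, hK⟩ : ∃ K, K = 16 * A / c ^ t + 1 := ⟨_, rfl⟩
  have hK0 : 0 < K := by rw [hK]; positivity
  have h2pow : ∀ k : ℕ, ((2 : ℝ) ^ (-((k : ℝ) / t))) ^ t = (1 / 2) ^ k := by
    intro k
    rw [← Real.rpow_mul (by norm_num), neg_mul, div_mul_cancel₀ _ ht.ne', Real.rpow_neg (by norm_num),
      Real.rpow_natCast, one_div, inv_pow]
  have key : ∀ s : Set ℂ, Metric.ediam s ≤ ENNReal.ofReal δ₀ →
      m s ≤ ENNReal.ofReal K * Metric.ediam s ^ t := by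
    intro s hs
    have hfin : Metric.ediam s ≠ ⊤ := ne_top_of_le_ne_top ENNReal.ofReal_ne_top hs
    have hms : m s ≤ volume (G ∩ γ ⁻¹' closure s) := by
      calc m s ≤ m (closure s) := measure_mono subset_closure
        _ = volume.restrict G (γ ⁻¹' closure s) :=
            Measure.map_apply hmeas isClosed_closure.measurableSet
        _ = volume (γ ⁻¹' closure s ∩ G) :=
            Measure.restrict_apply (hmeas isClosed_closure.measurableSet)
        _ = _ := by rw [Set.inter_comm]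
    obtain ⟨δ, hδ⟩ : ∃ δ, δ = (Metric.ediam s).toReal := ⟨_, rfl⟩
    have hδe : Metric.ediam s = ENNReal.ofReal δ := by rw [hδ, ENNReal.ofReal_toReal hfin]
    have hδ0 : 0 ≤ δ := by rw [hδ]; exact ENNReal.toReal_nonneg
    have hδle : δ ≤ δ₀ := by
      rw [hδe] at hs
      exact (ENNReal.ofReal_le_ofReal_iff hδ₀0.le).mp hs
    have hdist : ∀ x ∈ G ∩ γ ⁻¹' closure s, ∀ y ∈ G ∩ γ ⁻¹' closure s, ‖γ x - γ y‖ ≤ δ := by
      intro x hx y hy
      have h1 : edist (γ x) (γ y) ≤ Metric.ediam (closure s) :=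
        Metric.edist_le_ediam_of_mem hx.2 hy.2
      rw [Metric.ediam_closure, hδe, edist_dist] at h1
      rw [← dist_eq_norm]
      exact (ENNReal.ofReal_le_ofReal_iff hδ0).mp h1
    have hvol : ∀ n : ℕ, n₀ ≤ n → δ < c * (2 : ℝ) ^ (-((n : ℝ) / t)) →
        volume (G ∩ γ ⁻¹' closure s) ≤ ENNReal.ofReal (4 * (A / 2 ^ n)) := by
      intro n hn hlt
      refine md_vol (Set.inter_subset_left.trans hG1) (by positivity) fun x hx y hy => ?_
      exact h x hx.1 y hy.1 n hn (lt_of_le_of_lt (hdist x hx y hy) hlt)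
    rcases hδ0.eq_or_lt with h0 | h0
    · have hlim : Tendsto (fun n : ℕ => ENNReal.ofReal (4 * (A / 2 ^ n))) atTop (𝓝 0) := by
        have h1 : Tendsto (fun n : ℕ => 4 * (A / 2 ^ n)) atTop (𝓝 0) := by
          have h2 : Tendsto (fun n : ℕ => ((1 : ℝ) / 2) ^ n) atTop (𝓝 0) :=
            tendsto_pow_atTop_nhds_zero_of_lt_one (by norm_num) (by norm_num)
          have h3 := h2.const_mul (4 * A)
          rw [mul_zero] at h3
          refine h3.congr fun n => ?_
          rw [one_div, inv_pow]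
          ring
        have h2 := ENNReal.tendsto_ofReal h1
        rwa [ENNReal.ofReal_zero] at h2
      have h1 : volume (G ∩ γ ⁻¹' closure s) ≤ 0 := by
        refine ge_of_tendsto hlim ?_
        filter_upwards [eventually_ge_atTop n₀] with n hn
        refine hvol n hn ?_
        rw [← h0]
        positivity
      exact (hms.trans h1).trans zero_le
    · obtain ⟨u, hu⟩ : ∃ u, u = (δ / c) ^ t := ⟨_, rfl⟩
      have hu0 : 0 < u := by rw [hu]; positivity
      have hu1 : u ≤ (1 / 2) ^ (n₀ + 2) := by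
        rw [← h2pow, hu]
        refine Real.rpow_le_rpow (by positivity) ?_ ht.le
        rw [div_le_iff₀ hc, mul_comm, ← hδ₀]
        exact hδle
      have hu2 : u ≤ 1 := hu1.trans (pow_le_one₀ (by norm_num) (by norm_num))
      obtain ⟨n, hn1, hn2⟩ := exists_nat_pow_near_of_lt_one hu0 hu2
        (by norm_num : (0 : ℝ) < 1 / 2) (by norm_num)
      have hn3 : n₀ + 2 < n + 1 := by
        by_contra hcon
        push Not at hcon
        have h1 : ((1 : ℝ) / 2) ^ (n₀ + 2) ≤ (1 / 2) ^ (n + 1) :=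
          pow_le_pow_of_le_one (by norm_num) (by norm_num) hcon
        linarith
      obtain ⟨k, rfl⟩ : ∃ k, n = k + 1 := ⟨n - 1, by omega⟩
      have hδk : δ < c * (2 : ℝ) ^ (-((k : ℝ) / t)) := by
        rw [← div_lt_iff₀' hc]
        have h1 : (δ / c) ^ t < ((2 : ℝ) ^ (-((k : ℝ) / t))) ^ t := by
          rw [h2pow, ← hu]
          refine lt_of_le_of_lt hn2 ?_
          exact pow_lt_pow_right_of_lt_one₀ (by norm_num) (by norm_num) (by omega)
        exact (Real.rpow_lt_rpow_iff (by positivity) (by positivity) ht).mp h1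
      have h1 := hvol k (by omega) hδk
      refine (hms.trans h1).trans ?_
      rw [hδe, ENNReal.ofReal_rpow_of_pos h0, ← ENNReal.ofReal_mul hK0.le]
      apply ENNReal.ofReal_le_ofReal
      have h2 : 4 * (A / 2 ^ k) = 16 * A * (1 / 2) ^ (k + 1 + 1) := by
        rw [pow_succ, pow_succ, one_div, inv_pow]
        ring
      have h3 : u = δ ^ t / c ^ t := by rw [hu, Real.div_rpow h0.le hc.le]
      calc 4 * (A / 2 ^ k) = 16 * A * (1 / 2) ^ (k + 1 + 1) := h2
        _ ≤ 16 * A * u := mul_le_mul_of_nonneg_left hn1.le (by positivity)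
        _ = 16 * A / c ^ t * δ ^ t := by rw [h3]; ring
        _ ≤ K * δ ^ t := by
            apply mul_le_mul_of_nonneg_right _ (by positivity)
            rw [hK]
            linarith
  have hKne0 : ENNReal.ofReal K ≠ 0 := (ENNReal.ofReal_pos.mpr hK0).ne'
  have hle : (ENNReal.ofReal K)⁻¹ • m ≤ Measure.hausdorffMeasure t := by
    refine Measure.le_hausdorffMeasure t _ (ENNReal.ofReal δ₀) (ENNReal.ofReal_pos.mpr hδ₀0) ?_
    intro s hs
    rw [Measure.smul_apply, smul_eq_mul]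
    calc (ENNReal.ofReal K)⁻¹ * m s ≤
          (ENNReal.ofReal K)⁻¹ * (ENNReal.ofReal K * Metric.ediam s ^ t) := by
          gcongr
          exact key s hs
      _ = Metric.ediam s ^ t := by
          rw [← mul_assoc, ENNReal.inv_mul_cancel hKne0 ENNReal.ofReal_ne_top, one_mul]
  have hne : Measure.hausdorffMeasure t (γ '' G) ≠ 0 := by
    intro h0
    have h1 := hle (γ '' G)
    rw [h0, Measure.smul_apply, smul_eq_mul, nonpos_iff_eq_zero, mul_eq_zero] at h1
    rcases h1 with h1 | h1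
    · exact ENNReal.inv_ne_zero.mpr ENNReal.ofReal_ne_top h1
    · have h2 : volume.restrict G G ≤ m (γ '' G) :=
        Measure.le_map_apply_image hmeas.aemeasurable G
      rw [h1, Measure.restrict_apply_self] at h2
      exact absurd hv (not_lt.mpr h2)
  have h1 : ((t.toNNReal : NNReal) : ℝ) = t := Real.coe_toNNReal t ht.le
  have h2 := le_dimH_of_hausdorffMeasure_ne_zero (s := γ '' G) (d := t.toNNReal) (by
    rw [h1]
    exact hne)
  exact h2

end Pool.Agent.QCD
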