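import Pool.Agent.Lib.MP_f30fea_an.Base
import Pool.Agent.Lib.MP_f30fea_an.LowerLimit
import Pool.Agent.Lib.MP_f30fea_an.GoodSet
import Pool.Agent.Lib.MP_f30fea_an.MassDim
import Pool.Agent.Lib.MP_f30fea_an.Chord
import Pool.Agent.Lib.MP_f30fea_an.QAvg
import Pool.Agent.Lib.MP_f30fea_an.Block

/-!
# The lower bound

`σ = sigma2.toReal`, `c = σ log 2`.  Fix `0 < k ≤ k₀`.  For `ε > 0`: `T, β` from `block_low ε`, `W, Q` from `lower_limit` for `β`; by `q_avg` and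
`block_low` the hypotheses of `good_set` hold with `c - ε`; let `G, n₀` be from `good_set` with `ε`:
`(c - 2ε) n ≤ Q n ⌊2^n x⌋₊` for `x ∈ G`, `n ≥ n₀`.  `γ x = W (ee x)`, `u = (k² (c - 2ε) - C k⁴)/log 2`, `t = 1/(1 - u)` (`u < 1` if `k₀` is small:
`u ≤ k² σ`).  For `x, y ∈ G`, `n ≥ max n₀ 6` with `2/2^n < |x-y| < 1 - 2/2^n`: by `chord` and `lower_limit`
`‖γ x - γ y‖ ≥ exp (n u log 2)/(6 C 2^n) = (6C)⁻¹ 2^{-n(1-u)} = (6C)⁻¹ 2^{-n/t}` (note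
`k² (c-2ε) n - C n k⁴ = n u log 2`).  `mass_dim` with `A = 2` and the constant `(6C)⁻¹` gives
`dimH (W '' circle) ≥ dimH (γ '' G) ≥ t ≥ 1 + u = 1 + σ k² - 2ε k²/log 2 - C k⁴/log 2` (if `u ≤ 0` also
`1/(1-u) ≥ 1 + u`).  `ε → 0`; the constant is `C/log 2 ≤ 2C`.
-/

open Complex MeasureTheory Filter Topology Set
open scoped ContDiff ENNReal ComplexConjugate

noncomputable section

namespace Pool.Agent.QCD

theorem lower_norm_ee (x : ℝ) : ‖ee x‖ = 1 := by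
  unfold ee
  rw [norm_exp]
  simp

theorem lower_cont_ee : Continuous fun x : ℝ => ee x := by
  unfold ee
  fun_prop

theorem lower_eps {C₁ k₀ : ℝ} (hC₁ : 0 < C₁)
    (hlim : ∀ β, Env β → (∀ ζ, β (ζ + 1) = β ζ) → ∀ k : ℝ, 0 < k → k ≤ k₀ →
    ∃ (W : ℂ ≃ₜ ℂ) (Q : ℕ → ℕ → ℝ), IsQC k W ∧ WQS W ∧ Q 0 0 = 0 ∧
      (∀ n j : ℕ, j < 2 ^ n → |Q (n + 1) (2 * j) - Q n j| ≤ C₁ ∧
        |Q (n + 1) (2 * j + 1) - Q n j| ≤ C₁ ∧
        Q (n + 1) (2 * j) + Q (n + 1) (2 * j + 1) - 2 * Q n j =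
          kk β (j / 2 ^ n) (1 / 2 ^ n) ^ 2) ∧
      ∀ n j : ℕ, 6 ≤ n → j < 2 ^ n → Real.exp (k ^ 2 * Q n j - C₁ * n * k ^ 4) / 2 ^ n ≤
        C₁ * ‖W (ee (((j : ℝ) + 1) / 2 ^ n : ℝ)) - W (ee ((j : ℝ) / 2 ^ n : ℝ))‖)
    {k : ℝ} (hk : 0 < k) (hkk : k ≤ k₀) (hσk : k ^ 2 * sigma2.toReal < 1) {ε : ℝ} (hε : 0 < ε) :
    ENNReal.ofReal (1 + (k ^ 2 * (sigma2.toReal * Real.log 2 - 2 * ε) - C₁ * k ^ 4) / Real.log 2) ≤
      dsup k := by
  obtain ⟨T, hT, β, hβ, hper, hlow⟩ := block_low hε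
  obtain ⟨W, Q, hQC, hWQS, hQ0, hinc, hexp⟩ := hlim β hβ hper k hk hkk
  have hlog : 0 < Real.log 2 := Real.log_pos (by norm_num)
  have havg := q_avg (fun n j hj => (hinc n j hj).2.2)
  obtain ⟨G, hGm, hG1, hv, n₀, hG⟩ := good_set (C := C₁)
    (c := sigma2.toReal * Real.log 2 - ε) hT hQ0
    (fun n j hj => ⟨(hinc n j hj).1, (hinc n j hj).2.1⟩)
    (fun m l hl => by
      rw [havg (m * T) l T hl]
      have := hlow m l hl
      linarith) hε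
  set u : ℝ := (k ^ 2 * (sigma2.toReal * Real.log 2 - 2 * ε) - C₁ * k ^ 4) / Real.log 2 with hu
  have hu1 : u < 1 := by
    rw [hu, div_lt_one hlog]
    have h1 : 0 < k ^ 2 * ε := by positivity
    have h2 : 0 < C₁ * k ^ 4 := by positivity
    have h3 : k ^ 2 * sigma2.toReal * Real.log 2 < 1 * Real.log 2 :=
      mul_lt_mul_of_pos_right hσk hlog
    nlinarith
  have hu2 : 0 < 1 - u := by linarith
  have ht : 0 < 1 / (1 - u) := by positivity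
  have h1u : 1 + u ≤ 1 / (1 - u) := by
    rw [le_div_iff₀ hu2]
    nlinarith [sq_nonneg u]
  have hdim : ENNReal.ofReal (1 / (1 - u)) ≤ dimH ((fun x : ℝ => W (ee x)) '' G) := by
    refine mass_dim (γ := fun x : ℝ => W (ee x)) (W.continuous.comp lower_cont_ee) hGm hG1 hv ht
      (c := 1 / (6 * C₁)) (A := 2) (by positivity) (by norm_num) (max n₀ 6) ?_
    intro x hx y hy n hn hlt
    by_contra hcon
    push Not at hcon
    obtain ⟨hc1, hc2⟩ := hcon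
    have hx1 := hG1 hx
    have hy1 := hG1 hy
    have hch := chord hWQS hx1.1 hx1.2 hy1.1 hy1.2 hc1 hc2
    have hfl : ⌊2 ^ n * x⌋₊ < 2 ^ n := by
      have h2 : (0 : ℝ) < 2 ^ n := by positivity
      rw [Nat.floor_lt (mul_nonneg h2.le hx1.1)]
      push_cast
      nlinarith [hx1.2]
    have hex := hexp n ⌊2 ^ n * x⌋₊ (le_trans (le_max_right _ _) hn) hfl
    have hq := hG x hx n (le_trans (le_max_left _ _) hn)
    have h3 : (n : ℝ) * u * Real.log 2 ≤ k ^ 2 * Q n ⌊2 ^ n * x⌋₊ - C₁ * n * k ^ 4 := by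
      have h4 : (n : ℝ) * u * Real.log 2 =
          k ^ 2 * ((sigma2.toReal * Real.log 2 - ε - ε) * n) - C₁ * n * k ^ 4 := by
        rw [hu]
        field_simp
        ring
      rw [h4]
      have := mul_le_mul_of_nonneg_left hq (sq_nonneg k)
      linarith
    have h5 : (2 : ℝ) ^ (-((n : ℝ) / (1 / (1 - u)))) = Real.exp (n * u * Real.log 2) / 2 ^ n := by
      rw [← Real.rpow_natCast 2 n, Real.rpow_def_of_pos (by norm_num : (0 : ℝ) < 2),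
        Real.rpow_def_of_pos (by norm_num : (0 : ℝ) < 2), ← Real.exp_sub]
      congr 1
      field_simp
      ring
    have h6 : Real.exp (n * u * Real.log 2) / 2 ^ n ≤ C₁ * (6 * ‖W (ee x) - W (ee y)‖) := by
      calc Real.exp (n * u * Real.log 2) / 2 ^ n
          ≤ Real.exp (k ^ 2 * Q n ⌊2 ^ n * x⌋₊ - C₁ * n * k ^ 4) / 2 ^ n := by
            refine div_le_div_of_nonneg_right (Real.exp_le_exp.mpr h3) (by positivity)
        _ ≤ _ := hex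
        _ ≤ _ := mul_le_mul_of_nonneg_left hch hC₁.le
    rw [h5] at hlt
    have h7 : 1 / (6 * C₁) * (Real.exp (n * u * Real.log 2) / 2 ^ n) ≤ ‖W (ee x) - W (ee y)‖ := by
      rw [div_mul_eq_mul_div, one_mul, div_le_iff₀ (by positivity)]
      linarith
    exact absurd hlt (not_lt.mpr h7)
  have hsub : (fun x : ℝ => W (ee x)) '' G ⊆ W '' Metric.sphere (0 : ℂ) 1 := by
    rintro _ ⟨x, -, rfl⟩
    exact ⟨ee x, by simp [lower_norm_ee], rfl⟩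
  calc ENNReal.ofReal (1 + u) ≤ ENNReal.ofReal (1 / (1 - u)) := ENNReal.ofReal_le_ofReal h1u
    _ ≤ _ := hdim
    _ ≤ dimH (W '' Metric.sphere (0 : ℂ) 1) := dimH_mono hsub
    _ ≤ dsup k := le_iSup (fun w : {w : ℂ ≃ₜ ℂ // IsQC k w} =>
        dimH (w.1 '' Metric.sphere (0 : ℂ) 1)) ⟨W, hQC⟩

theorem lower : ∃ C k₀ : ℝ, 0 < C ∧ 0 < k₀ ∧ ∀ k : ℝ, 0 < k → k ≤ k₀ →
    ENNReal.ofReal (1 + sigma2.toReal * k ^ 2 - C * k ^ 4) ≤ dsup k := by
  obtain ⟨C₁, k₀, hC₁, hk₀, -, hlim⟩ := lower_limit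
  set σ := sigma2.toReal with hσ
  have hσ0 : 0 ≤ σ := ENNReal.toReal_nonneg
  have hlog : 0 < Real.log 2 := Real.log_pos (by norm_num)
  have hlog2 : 1 / 2 ≤ Real.log 2 := by
    have := Real.log_two_gt_d9
    linarith
  refine ⟨2 * C₁, min k₀ (1 / (1 + σ)), by positivity, lt_min hk₀ (by positivity),
    fun k hk hkk => ?_⟩
  have hk1 : k ≤ k₀ := hkk.trans (min_le_left _ _)
  have hk2 : k ≤ 1 / (1 + σ) := hkk.trans (min_le_right _ _)
  have hσk : k ^ 2 * σ < 1 := by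
    have h1 : k * (1 + σ) ≤ 1 := by
      rw [le_div_iff₀ (by positivity)] at hk2
      exact hk2
    have h2 : k ≤ 1 := by nlinarith
    have h3 : k * σ < 1 := by nlinarith
    have h4 : k ^ 2 * σ = k * (k * σ) := by ring
    rw [h4]
    have h5 : 0 ≤ k * σ := by positivity
    nlinarith
  have hX : ∀ ε : ℝ, 0 < ε →
      ENNReal.ofReal (1 + σ * k ^ 2 - 2 * C₁ * k ^ 4 - 2 * k ^ 2 / Real.log 2 * ε) ≤ dsup k := by
    intro ε hε
    refine le_trans (ENNReal.ofReal_le_ofReal ?_) (lower_eps hC₁ hlim hk hk1 hσk hε)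
    have h1 : C₁ * k ^ 4 / Real.log 2 ≤ 2 * C₁ * k ^ 4 := by
      rw [div_le_iff₀ hlog]
      have : 0 ≤ C₁ * k ^ 4 := by positivity
      nlinarith
    have h2 : (k ^ 2 * (σ * Real.log 2 - 2 * ε) - C₁ * k ^ 4) / Real.log 2 =
        σ * k ^ 2 - 2 * k ^ 2 / Real.log 2 * ε - C₁ * k ^ 4 / Real.log 2 := by
      field_simp
    rw [h2]
    linarith
  have hcont : Tendsto (fun ε : ℝ =>
      ENNReal.ofReal (1 + σ * k ^ 2 - 2 * C₁ * k ^ 4 - 2 * k ^ 2 / Real.log 2 * ε)) (𝓝[>] 0)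
      (𝓝 (ENNReal.ofReal (1 + σ * k ^ 2 - 2 * C₁ * k ^ 4 - 2 * k ^ 2 / Real.log 2 * 0))) := by
    refine (ENNReal.continuous_ofReal.tendsto _).comp ?_
    refine Tendsto.mono_left ?_ nhdsWithin_le_nhds
    exact (Continuous.tendsto (by fun_prop) 0)
  rw [mul_zero, sub_zero] at hcont
  exact le_of_tendsto hcont (eventually_nhdsWithin_of_forall fun ε hε => hX ε hε)

end Pool.Agent.QCD
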