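import Pool.Agent.Lib.MP_f30fea_an.Base
import Pool.Agent.Lib.MP_f30fea_an.CoverUp
import Pool.Agent.Lib.MP_f30fea_an.ApproxQC

/-!
# The upper bound

Let `w` be `IsQC k` and `ν, W, W0, F` as in `approx_qc`, `t = 1 + σ k² + C k⁴` with `C` from `cover_up`.
`w '' S = F '' (W0 '' S)`, `F` is entire, so locally Lipschitz (`ContDiff.dimH_image_le` over `ℝ`:
`Differentiable ℂ F` gives `ContDiff ℂ`, restrict scalars; or `dimH_image_le_of_locally_lipschitzOn`): it is
enough that `dimH (W0 '' S) ≤ t`, and for this `μH[t] (W0 '' S) < ⊤` is enough (`dimH_le_of_hausdorffMeasure_ne_top`).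
For each `n` choose `e_n > 0` so small that `∑_{j<2^n} (d + 2 e_n)^t ≤ C exp (-k⁴ n) + exp (-k⁴ n)` for the covering
`d, E` of `W m '' S`.  As `d` depends on `m`, use instead the bound `(x + y)^t ≤ 2^t (x^t + y^t)`:
`∑_{j<2^n} (d j + 2e)^t ≤ 2^t (C exp (-k⁴ n) + 2^n (2e)^t)`, so `e_n` can be chosen in advance with
`2^n (2 e_n)^t ≤ exp (-k⁴ n)`, then `m` with `‖W m z - W0 z‖ ≤ e_n` on the circle; the sets
`E' j = {y : ∃ x ∈ E j, dist x y ≤ e_n}` cover `W0 '' S`, `diam ≤ d j + 2 e_n`.  The sum tends to `0` as `n → ∞`, in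
particular the diameters tend to `0` uniformly; conclude with `Measure.hausdorffMeasure_le_liminf_sum`.
-/

open Complex MeasureTheory Filter Topology Set
open scoped ContDiff ENNReal ComplexConjugate

noncomputable section

namespace Pool.Agent.QCD

private lemma up_rpow {x y t : ℝ} (hx : 0 ≤ x) (hy : 0 ≤ y) (ht : 0 ≤ t) :
    (x + y) ^ t ≤ 2 ^ t * (x ^ t + y ^ t) := by
  have h2 : (0 : ℝ) ≤ 2 ^ t := by positivity
  rcases le_total x y with h | h
  · calc (x + y) ^ t ≤ (2 * y) ^ t := Real.rpow_le_rpow (by positivity) (by linarith) ht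
      _ = 2 ^ t * y ^ t := Real.mul_rpow (by norm_num) hy
      _ ≤ _ := mul_le_mul_of_nonneg_left (by linarith [Real.rpow_nonneg hx t]) h2
  · calc (x + y) ^ t ≤ (2 * x) ^ t := Real.rpow_le_rpow (by positivity) (by linarith) ht
      _ = 2 ^ t * x ^ t := Real.mul_rpow (by norm_num) hx
      _ ≤ _ := mul_le_mul_of_nonneg_left (by linarith [Real.rpow_nonneg hy t]) h2

private lemma up_core {S : Set ℂ} {t c K : ℝ} (ht : 0 < t) (hc : 0 < c) (hK : 0 ≤ K)
    {W : ℕ → ℂ → ℂ} {W0 : ℂ → ℂ} (hunif : TendstoUniformlyOn W W0 atTop S)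
    (hcov : ∀ m n : ℕ, ∃ (d : ℕ → ℝ) (E : ℕ → Set ℂ), (∀ j, 0 ≤ d j) ∧
      W m '' S ⊆ ⋃ j ∈ Finset.range (2 ^ n), E j ∧
      (∀ j, ∀ x ∈ E j, ∀ y ∈ E j, dist x y ≤ d j) ∧
      ∑ j ∈ Finset.range (2 ^ n), d j ^ t ≤ K * Real.exp (-(c * n))) :
    dimH (W0 '' S) ≤ ENNReal.ofReal t := by
  set e : ℕ → ℝ := fun n => (Real.exp (-(c * n)) / 2 ^ n) ^ t⁻¹ / 2 with he
  have he0 : ∀ n, 0 < e n := fun n => by rw [he]; positivity
  have het : ∀ n, (2 : ℝ) ^ n * (2 * e n) ^ t = Real.exp (-(c * n)) := by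
    intro n
    have h1 : 2 * e n = (Real.exp (-(c * n)) / 2 ^ n) ^ t⁻¹ := by rw [he]; ring
    rw [h1, Real.rpow_inv_rpow (by positivity) ht.ne']
    field_simp
  have hm : ∀ n, ∃ m, ∀ z ∈ S, dist (W0 z) (W m z) < e n := by
    intro n
    exact ((Metric.tendstoUniformlyOn_iff.1 hunif) (e n) (he0 n)).exists
  choose m hm using hm
  choose d E hd0 hE hdist hsum using fun n => hcov (m n) n
  set Sn : ℕ → ℝ := fun n => 2 ^ t * ((K + 1) * Real.exp (-(c * n))) with hSn
  have hSn0 : ∀ n, 0 ≤ Sn n := fun n => by rw [hSn]; positivity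
  have hSlim : Tendsto Sn atTop (𝓝 0) := by
    have h1 : Tendsto (fun n : ℕ => c * (n : ℝ)) atTop atTop :=
      tendsto_natCast_atTop_atTop.const_mul_atTop hc
    have h2 := (Real.tendsto_exp_neg_atTop_nhds_zero.comp h1).const_mul (K + 1)
    have h3 := h2.const_mul ((2 : ℝ) ^ t)
    rw [mul_zero, mul_zero] at h3
    exact h3
  have htot : ∀ n, ∑ j ∈ Finset.range (2 ^ n), (d n j + 2 * e n) ^ t ≤ Sn n := by
    intro n
    calc ∑ j ∈ Finset.range (2 ^ n), (d n j + 2 * e n) ^ t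
        ≤ ∑ j ∈ Finset.range (2 ^ n), 2 ^ t * (d n j ^ t + (2 * e n) ^ t) :=
          Finset.sum_le_sum fun j _ => up_rpow (hd0 n j) (by linarith [he0 n]) ht.le
      _ = 2 ^ t * (∑ j ∈ Finset.range (2 ^ n), d n j ^ t + 2 ^ n * (2 * e n) ^ t) := by
          rw [← Finset.mul_sum, Finset.sum_add_distrib, Finset.sum_const, Finset.card_range,
            nsmul_eq_mul]
          push_cast
          ring
      _ ≤ 2 ^ t * (K * Real.exp (-(c * n)) + Real.exp (-(c * n))) := by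
          rw [het n]
          refine mul_le_mul_of_nonneg_left ?_ (by positivity)
          linarith [hsum n]
      _ = Sn n := by rw [hSn]; ring
  set T : ∀ n : ℕ, Fin (2 ^ n) → Set ℂ := fun n i => {y | ∃ x ∈ E n i, dist x y ≤ e n} with hT
  have hTd : ∀ n (i : Fin (2 ^ n)), Metric.ediam (T n i) ≤ ENNReal.ofReal (d n i + 2 * e n) := by
    intro n i
    refine Metric.ediam_le ?_
    rintro y ⟨x, hx, hxy⟩ y' ⟨x', hx', hxy'⟩
    rw [edist_dist]
    refine ENNReal.ofReal_le_ofReal ?_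
    have h1 := hdist n i x hx x' hx'
    have h2 := dist_triangle4 y x x' y'
    rw [dist_comm y x] at h2
    linarith
  have hmu : μH[t] (W0 '' S) ≤ 0 := by
    have hle := Measure.hausdorffMeasure_le_liminf_sum (l := atTop) t (W0 '' S)
      (fun n => ENNReal.ofReal (Sn n ^ t⁻¹)) ?_ T ?_ ?_
    · refine hle.trans ?_
      have h1 : Tendsto (fun n => ENNReal.ofReal (Sn n)) atTop (𝓝 0) := by
        have := ENNReal.tendsto_ofReal hSlim
        rwa [ENNReal.ofReal_zero] at this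
      rw [← h1.liminf_eq]
      refine liminf_le_liminf (Eventually.of_forall fun n => ?_)
      calc ∑ i : Fin (2 ^ n), Metric.ediam (T n i) ^ t
          ≤ ∑ i : Fin (2 ^ n), ENNReal.ofReal ((d n i + 2 * e n) ^ t) := by
            refine Finset.sum_le_sum fun i _ => ?_
            rw [← ENNReal.ofReal_rpow_of_nonneg (by linarith [hd0 n i, he0 n]) ht.le]
            exact ENNReal.rpow_le_rpow (hTd n i) ht.le
        _ = ∑ j ∈ Finset.range (2 ^ n), ENNReal.ofReal ((d n j + 2 * e n) ^ t) := by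
            rw [Finset.sum_range]
        _ = ENNReal.ofReal (∑ j ∈ Finset.range (2 ^ n), (d n j + 2 * e n) ^ t) := by
            rw [ENNReal.ofReal_sum_of_nonneg]
            intro j _
            exact Real.rpow_nonneg (by linarith [hd0 n j, he0 n]) _
        _ ≤ ENNReal.ofReal (Sn n) := ENNReal.ofReal_le_ofReal (htot n)
    · have h1 : Tendsto (fun n => Sn n ^ t⁻¹) atTop (𝓝 (0 ^ t⁻¹)) :=
        hSlim.rpow_const (Or.inr (by positivity))
      rw [Real.zero_rpow (by positivity)] at h1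
      have := ENNReal.tendsto_ofReal h1
      rwa [ENNReal.ofReal_zero] at this
    · refine Eventually.of_forall fun n i => (hTd n i).trans (ENNReal.ofReal_le_ofReal ?_)
      rw [Real.le_rpow_inv_iff_of_pos (by linarith [hd0 n i, he0 n]) (hSn0 n) ht]
      refine le_trans ?_ (htot n)
      refine Finset.single_le_sum (f := fun j => (d n j + 2 * e n) ^ t) (fun j _ => ?_)
        (Finset.mem_range.2 i.2)
      exact Real.rpow_nonneg (by linarith [hd0 n j, he0 n]) _
    · refine Eventually.of_forall fun n => ?_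
      rintro _ ⟨z, hz, rfl⟩
      have h1 := hE n (mem_image_of_mem _ hz)
      simp only [mem_iUnion, Finset.mem_range] at h1
      obtain ⟨j, hj, hzj⟩ := h1
      rw [mem_iUnion]
      refine ⟨⟨j, hj⟩, W (m n) z, hzj, ?_⟩
      rw [dist_comm]
      exact (hm n z hz).le
  have h3 : μH[((t.toNNReal : NNReal) : ℝ)] (W0 '' S) ≠ ⊤ := by
    rw [Real.coe_toNNReal t ht.le]
    exact ne_top_of_le_ne_top ENNReal.zero_ne_top hmu
  exact dimH_le_of_hausdorffMeasure_ne_top h3

theorem upper : ∃ C k₀ : ℝ, 0 < C ∧ 0 < k₀ ∧ ∀ k : ℝ, 0 < k → k ≤ k₀ →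
    dsup k ≤ ENNReal.ofReal (1 + sigma2.toReal * k ^ 2 + C * k ^ 4) := by
  obtain ⟨C, k₀, hC, hk₀, hk₁, hcov⟩ := cover_up
  obtain ⟨r, hr0, hr1, happ⟩ := approx_qc
  refine ⟨C, min k₀ r, hC, lt_min hk₀ hr0, fun k hk hkk => ?_⟩
  have hk0 : k ≤ k₀ := hkk.trans (min_le_left _ _)
  have hkr : k ≤ r := hkk.trans (min_le_right _ _)
  unfold dsup
  refine iSup_le ?_
  rintro ⟨w, hw⟩
  obtain ⟨ν, W, W0, F, hν, hW, hunif, hF, hwF⟩ := happ k hk.le hkr w hw
  have h1 : w '' Metric.sphere (0 : ℂ) 1 = F '' (W0 '' Metric.sphere (0 : ℂ) 1) := by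
    rw [image_image]
    exact image_congr fun z _ => hwF z
  have h2 : ContDiff ℝ 1 F := (hF.contDiff (n := 1)).restrict_scalars ℝ
  show dimH (w '' Metric.sphere (0 : ℂ) 1) ≤ _
  rw [h1]
  refine (h2.contDiffOn.dimH_image_le convex_univ (subset_univ _)).trans ?_
  have ht : 0 < 1 + sigma2.toReal * k ^ 2 + C * k ^ 4 := by
    have : 0 ≤ sigma2.toReal := ENNReal.toReal_nonneg
    positivity
  refine up_core (c := k ^ 4) (K := C) ht (by positivity) hC.le (W := fun n z => W n z)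
    ((hunif 1).mono Metric.sphere_subset_closedBall) fun m n => ?_
  exact hcov k hk hk0 (ν m) (W m) (hν m) (hW m) n

end Pool.Agent.QCD
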