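import Pool.Agent.Lib.MP_f30fea_an.Base
import Pool.Agent.Lib.MP_f30fea_an.LowerDim
import Pool.Agent.Lib.MP_f30fea_an.Upper
import Pool.Agent.Lib.MP_f30fea_an.TransVar

/-!
# The expansion

`upper` and `lower`; `sigma2_lt_top`.  The limit: `|x/k³| ≤ C k`.
-/

open Complex MeasureTheory Filter Topology Set
open scoped ContDiff ENNReal ComplexConjugate

noncomputable section

namespace Pool.Agent.QCD

theorem main_fourth : ∃ C k₀ : ℝ, 0 < C ∧ 0 < k₀ ∧ ∀ k : ℝ, 0 < k → k ≤ k₀ →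
    dsup k < ⊤ ∧ |(dsup k).toReal - (1 + sigma2.toReal * k ^ 2)| ≤ C * k ^ 4 := by
  obtain ⟨C1, k1, hC1, hk1, h1⟩ := upper
  obtain ⟨C2, k2, hC2, hk2, h2⟩ := lower
  refine ⟨max C1 C2, min k1 k2, lt_max_of_lt_left hC1, lt_min hk1 hk2, ?_⟩
  intro k hk hkk
  have hu := h1 k hk (hkk.trans (min_le_left _ _))
  have hl := h2 k hk (hkk.trans (min_le_right _ _))
  have hfin : dsup k < ⊤ := lt_of_le_of_lt hu ENNReal.ofReal_lt_top
  refine ⟨hfin, ?_⟩
  have hk4 : 0 < k ^ 4 := by positivity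
  have hs : 0 ≤ sigma2.toReal := ENNReal.toReal_nonneg
  have hu' : (dsup k).toReal ≤ 1 + sigma2.toReal * k ^ 2 + C1 * k ^ 4 := by
    have := ENNReal.toReal_mono ENNReal.ofReal_ne_top hu
    rwa [ENNReal.toReal_ofReal (by positivity)] at this
  have hl' : 1 + sigma2.toReal * k ^ 2 - C2 * k ^ 4 ≤ (dsup k).toReal :=
    (ENNReal.ofReal_le_iff_le_toReal hfin.ne).1 hl
  have hm1 : C1 * k ^ 4 ≤ max C1 C2 * k ^ 4 :=
    mul_le_mul_of_nonneg_right (le_max_left _ _) hk4.le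
  have hm2 : C2 * k ^ 4 ≤ max C1 C2 * k ^ 4 :=
    mul_le_mul_of_nonneg_right (le_max_right _ _) hk4.le
  rw [abs_le]
  constructor <;> linarith

theorem main_third : Tendsto (fun k : ℝ => ((dsup k).toReal - 1 - sigma2.toReal * k ^ 2) / k ^ 3)
    (𝓝[>] 0) (𝓝 0) := by
  obtain ⟨C, k₀, hC, hk₀, h⟩ := main_fourth
  have hlim : Tendsto (fun k : ℝ => C * k) (𝓝[>] 0) (𝓝 0) := by
    have : Tendsto (fun k : ℝ => C * k) (𝓝 0) (𝓝 (C * 0)) := by
      exact (continuous_const.mul continuous_id).tendsto 0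
    rw [mul_zero] at this
    exact this.mono_left nhdsWithin_le_nhds
  refine squeeze_zero_norm' ?_ hlim
  have hmem : Ioc (0 : ℝ) k₀ ∈ 𝓝[>] (0 : ℝ) := Ioc_mem_nhdsGT hk₀
  filter_upwards [hmem] with k hk
  obtain ⟨hk0, hk1⟩ := hk
  have h' := (h k hk0 hk1).2
  have hk3 : 0 < k ^ 3 := by positivity
  rw [Real.norm_eq_abs, abs_div, abs_of_pos hk3, div_le_iff₀ hk3]
  calc |(dsup k).toReal - 1 - sigma2.toReal * k ^ 2|
      = |(dsup k).toReal - (1 + sigma2.toReal * k ^ 2)| := by congr 1; ring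
    _ ≤ C * k ^ 4 := h'
    _ = C * k * k ^ 3 := by ring

end Pool.Agent.QCD
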